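import Mathlib
import Pool.Agent.Lib.MP_fe8e9b_al_M.Defs
import Pool.Agent.Lib.MP_fe8e9b_al_M.LDat
import Pool.Agent.Lib.MP_fe8e9b_al_M.CmpD

/-!
# MP_fe8e9b_al, groups of bounded height: definitions for the second version
-/

set_option autoImplicit false

open scoped BigOperators

namespace Pool.Agent.MPfe8e9bN

open Pool.Agent.MPfe8e9b Pool.Agent.MPfe8e9bA Pool.Agent.MPfe8e9bW Pool.Agent.MPfe8e9bV
open Pool.Agent.MPfe8e9bM

/-- Every element of `T` is a product of at most `C` conjugates of `b` and of its inverse. -/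
def Cov (C : ℕ) {T : Type} [Group T] (b : T) : Prop :=
  ∀ x : T, ∃ l : List T, l.length ≤ C ∧
    (∀ y ∈ l, ∃ g, y = g * b * g⁻¹ ∨ y = g * b⁻¹ * g⁻¹) ∧ l.prod = x

/-- A positive proportion of the elements `t` of `T` satisfies: every element of `T` is a product
of at most `C` conjugates of `cm t (τ t)` and of its inverse. -/
def CV (C : ℕ) (T : Type) [Group T] (τ : MulAut T) : Prop :=
  Nat.card T ≤ C * Nat.card {t : T // Cov C (cm t (τ t))}

/-- The gap of the twisted commutators. -/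
def TGap (γ : ℝ) (T : Type) [Group T] [Fintype T] (τ : MulAut T) : Prop :=
  ∀ (V : Type) [NormedAddCommGroup V] [InnerProductSpace ℂ V] [FiniteDimensional ℂ V]
    (ρ : (Bool → T) →* (V ≃ₗᵢ[ℂ] V)) (u : V), av ρ u = 0 →
    γ * ‖u‖ ^ 2 ≤ mn (fun p : T × T =>
      ‖ρ (fun s => cm p.1 (if s = true then τ p.2 else p.2)) u - u‖ ^ 2)

/-- `T` is generated by `c` conjugates of the subgroup `S0`. -/
def GenC (c : ℕ) (T : Type) [Group T] (S0 : Subgroup T) : Prop :=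
  ∃ h : Fin c → T, ∀ R : Subgroup T, (∀ j, ∀ s ∈ S0, h j * s * (h j)⁻¹ ∈ R) → R = ⊤

/-- The structure on a model group: a perfect subgroup `S0` and a group `L` of automorphisms. -/
structure SG2 (c : ℕ) (T : Type) [Group T] (S0 : Subgroup T) (L : Subgroup (MulAut T)) :
    Prop where
  prf : commutator S0 = ⊤
  inn : ∀ t : T, (∃ l ∈ L, ∀ s, t * s * t⁻¹ = l s) → ∀ s ∈ S0, t * s = s * t
  stb : ∀ l ∈ L, ∀ s ∈ S0, l s ∈ S0
  gen : GenC c T S0
  crd : Nat.card L ≤ Nat.card T ^ c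
  typ : (∀ l ∈ L, ∀ s ∈ S0, l s = s) ∨
    ∃ τ : MulAut S0, CV c S0 τ ∧ ∀ l ∈ L, (∀ s : S0, l s = s) ∨ ∀ s : S0, l s = τ s

/-- The data of a layer. -/
structure LD2 {G K : Type} [Group G] {Y T : K → Type} [∀ k, Group (T k)] (C : ℕ)
    (Ψ : (∀ k, Y k → T k) →* G) (T0 : ∀ k, Subgroup (T k)) (H : Subgroup G) : Prop where
  nml : Ψ.range.Normal
  cov : ∀ g : G, ∃ h ∈ H, ∃ n ∈ Ψ.range, g = h * n
  cmA : ∀ a ∈ H, a ∈ Ψ.range → ∀ k (u : Y k → T0 k), a * u0 Ψ T0 k u = u0 Ψ T0 k u * a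
  nrm : ∀ h ∈ H, ∀ k, ∃ e : (Y k → T0 k) ≃ (Y k → T0 k),
    ∀ u, h * u0 Ψ T0 k u * h⁻¹ = u0 Ψ T0 k (e u)
  gen : ∀ k, GenC C (T k) (T0 k)

end Pool.Agent.MPfe8e9bN
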