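import Mathlib
import Pool.Agent.Lib.MP_fe8e9b_al_N.Defs

/-!
# MP_fe8e9b_al, groups of bounded height: definitions for the third version
-/

set_option autoImplicit false

open scoped BigOperators

namespace Pool.Agent.MPfe8e9bN

open Pool.Agent.MPfe8e9b Pool.Agent.MPfe8e9bA Pool.Agent.MPfe8e9bW Pool.Agent.MPfe8e9bV
open Pool.Agent.MPfe8e9bM

/-- The gap of the twisted commutators for a family `α` of automorphisms: in every unitary
representation of the group of the functions `Λ → T`, if the displacement of `v` is invariant under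
conjugation by constants and if the twisted commutators move `v` by at most `e` then all elements
move `v` by at most `B * e`. -/
def TGL (B : ℝ) {Λ T : Type} [Group T] (α : Λ → MulAut T) : Prop :=
  ∀ (V : Type) [NormedAddCommGroup V] [InnerProductSpace ℂ V] [FiniteDimensional ℂ V]
    (ρ : (Λ → T) →* (V ≃ₗᵢ[ℂ] V)) (v : V) (e : ℝ), 0 ≤ e →
    (∀ (k : T) (x : Λ → T), ‖ρ ((fun _ => k) * x * (fun _ => k)⁻¹) v - v‖ = ‖ρ x v - v‖) →
    (∀ h t : T, ‖ρ (fun l => cm h (α l t)) v - v‖ ≤ e) →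
    ∀ x : Λ → T, ‖ρ x v - v‖ ≤ B * e

/-- The structure on a model group: a perfect subgroup `S0` and a group `L` of automorphisms. -/
structure SG3 (c : ℕ) (B : ℝ) (T : Type) [Group T] (S0 : Subgroup T)
    (L : Subgroup (MulAut T)) : Prop where
  prf : commutator S0 = ⊤
  inn : ∀ t : T, (∃ l ∈ L, ∀ s, t * s * t⁻¹ = l s) → ∀ s ∈ S0, t * s = s * t
  stb : ∀ l ∈ L, ∀ s ∈ S0, l s ∈ S0
  gen : GenC c T S0
  crd : Nat.card L ≤ Nat.card T ^ c
  typ : ∃ (Λ : Type) (_ : Fintype Λ) (α : Λ → MulAut S0), TGL B α ∧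
    ∀ l ∈ L, ∃ i, ∀ s : S0, l s = (α i s : T)

open Classical in
/-- Twisted functions of a label: `α (c y) (f (lab y))`. -/
noncomputable def tll {Z S T Λ : Type} [Group T] (α : Λ → MulAut T) (c : Z → Λ) (τ : Finset Z)
    (lab : Z → S) : (S → T) →* (Z → T) where
  toFun f := fun y => if y ∈ τ then α (c y) (f (lab y)) else 1
  map_one' := by
    funext y
    by_cases h : y ∈ τ <;> simp [h]
  map_mul' f f' := by
    funext y
    by_cases h : y ∈ τ <;> simp [h]

open Classical in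
/-- The average over the twisted functions of a label. -/
noncomputable def TwL {Z S T Λ : Type} [Fintype S] [Group T] [Fintype T] {V : Type}
    [NormedAddCommGroup V] [InnerProductSpace ℂ V] (ρ : (Z → T) →* (V ≃ₗᵢ[ℂ] V))
    (α : Λ → MulAut T) (c : Z → Λ) (τ : Finset Z) (lab : Z → S) : V →ₗ[ℂ] V :=
  av (ρ.comp (tll α c τ lab))

theorem tll_apply {Z S T Λ : Type} [Group T] (α : Λ → MulAut T) {c : Z → Λ} {τ : Finset Z}
    {lab : Z → S} (f : S → T) {y : Z} (h : y ∈ τ) :
    tll α c τ lab f y = α (c y) (f (lab y)) := by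
  simp [tll, h]

theorem tll_out {Z S T Λ : Type} [Group T] (α : Λ → MulAut T) {c : Z → Λ} {τ : Finset Z}
    {lab : Z → S} (f : S → T) {y : Z} (h : y ∉ τ) : tll α c τ lab f y = 1 := by
  simp [tll, h]

/-- Basic facts on the twisted averages. -/
theorem twl_isP {Z S T Λ : Type} [Fintype S] [Group T] [Fintype T] {V : Type}
    [NormedAddCommGroup V] [InnerProductSpace ℂ V] (ρ : (Z → T) →* (V ≃ₗᵢ[ℂ] V))
    (α : Λ → MulAut T) (c : Z → Λ) (τ : Finset Z) (lab : Z → S) :
    IsP (TwL ρ α c τ lab) := by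
  classical
  exact ⟨av_symm _, av_idem _⟩

/-- Fixed vectors. -/
theorem twl_fix {Z S T Λ : Type} [Fintype S] [Group T] [Fintype T] {V : Type}
    [NormedAddCommGroup V] [InnerProductSpace ℂ V] (ρ : (Z → T) →* (V ≃ₗᵢ[ℂ] V))
    (α : Λ → MulAut T) (c : Z → Λ) (τ : Finset Z) (lab : Z → S) (v : V) :
    TwL ρ α c τ lab v = v ↔ ∀ f : S → T, ρ (tll α c τ lab f) v = v := by
  classical
  exact av_eq_iff (ρ.comp (tll α c τ lab))

end Pool.Agent.MPfe8e9bN
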