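import Mathlib
import Pool.Agent.Lib.MP_fe8e9b_al.Defs3
import Pool.Agent.Lib.MP_fe8e9b_al_V.Defs
import Pool.Agent.Lib.MP_fe8e9b_al_N.Defs3

/-!
# MP_fe8e9b_al, groups of bounded height: automorphisms of `SL_n`
-/

set_option autoImplicit false

open scoped BigOperators MatrixGroups

namespace Pool.Agent.MPfe8e9bN

open Pool.Agent.MPfe8e9bV Matrix

variable {ι : Type} [Fintype ι] [DecidableEq ι] {E E' : Type} [Field E] [Field E']

/-- Isomorphisms of fields give isomorphisms of the special linear groups. -/
def fM (σ : E ≃+* E') : SpecialLinearGroup ι E ≃* SpecialLinearGroup ι E' where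
  toFun A := SpecialLinearGroup.map (σ : E →+* E') A
  invFun A := SpecialLinearGroup.map (σ.symm : E' →+* E) A
  left_inv A := by
    ext i j
    exact σ.symm_apply_apply _
  right_inv A := by
    ext i j
    exact σ.apply_symm_apply _
  map_mul' A B := map_mul _ A B

theorem fM_coe (σ : E ≃+* E') (A : SpecialLinearGroup ι E) (i j : ι) :
    (fM σ A).1 i j = σ (A.1 i j) := rfl

theorem fM_val (σ : E ≃+* E') (A : SpecialLinearGroup ι E) : (fM σ A).1 = A.1.map σ := rfl

theorem defn_tr (B : SpecialLinearGroup ι E) : B.transpose⁻¹ = B⁻¹.transpose := by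
  rw [inv_eq_iff_mul_eq_one]
  apply Subtype.ext
  have h1 : (B⁻¹ * B) = 1 := inv_mul_cancel B
  have h2 : ((B⁻¹ * B : SpecialLinearGroup ι E).1)ᵀ = 1 := by
    rw [h1]
    exact Matrix.transpose_one
  exact (Matrix.transpose_mul _ _).symm.trans h2

theorem defn_inv (A : SpecialLinearGroup ι E) : (A⁻¹.transpose)⁻¹.transpose = A := by
  rw [defn_tr, inv_inv]
  exact Subtype.ext (Matrix.transpose_transpose _)

/-- The inverse transpose. -/
def iT : MulAut (SpecialLinearGroup ι E) where
  toFun A := A⁻¹.transpose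
  invFun A := A⁻¹.transpose
  left_inv A := defn_inv A
  right_inv A := defn_inv A
  map_mul' A B := by
    apply Subtype.ext
    rw [_root_.mul_inv_rev]
    exact Matrix.transpose_mul _ _

theorem iT_val (A : SpecialLinearGroup ι E) : (iT A).1 = (A⁻¹).1ᵀ := rfl

/-- Field automorphisms, and their compositions with the inverse transpose. -/
def aN (p : Bool × (E ≃+* E)) : MulAut (SpecialLinearGroup ι E) :=
  (if p.1 = true then iT else 1) * fM p.2

theorem aN_false (σ : E ≃+* E) (A : SpecialLinearGroup ι E) : aN (false, σ) A = fM σ A := rfl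

theorem aN_true (σ : E ≃+* E) (A : SpecialLinearGroup ι E) : aN (true, σ) A = iT (fM σ A) := rfl

end Pool.Agent.MPfe8e9bN
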