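import Mathlib

/-!
# MP_fe8e9b_al, groups of bounded height: automorphisms of the groups `PSL_2`
-/

set_option autoImplicit false

open scoped BigOperators MatrixGroups

namespace Pool.Agent.MPfe8e9bN

open Matrix

variable {F F' : Type} [Field F] [Field F']

/-- The conjugation of matrices of determinant one by an invertible matrix. -/
def cjS : GL (Fin 2) F →* MulAut SL(2, F) where
  toFun M :=
    { toFun := fun A => ⟨M.1 * A.1 * M⁻¹.1, by
        rw [Matrix.det_mul, Matrix.det_mul, A.2, mul_one, ← Matrix.det_mul, ← Units.val_mul,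
          mul_inv_cancel, Units.val_one, Matrix.det_one]⟩
      invFun := fun A => ⟨M⁻¹.1 * A.1 * M.1, by
        rw [Matrix.det_mul, Matrix.det_mul, A.2, mul_one, ← Matrix.det_mul, ← Units.val_mul,
          inv_mul_cancel, Units.val_one, Matrix.det_one]⟩
      left_inv := fun A => by
        apply Subtype.ext
        show M⁻¹.1 * (M.1 * A.1 * M⁻¹.1) * M.1 = A.1
        have h : M⁻¹.1 * M.1 = 1 := by rw [← Units.val_mul, inv_mul_cancel, Units.val_one]
        calc M⁻¹.1 * (M.1 * A.1 * M⁻¹.1) * M.1 = (M⁻¹.1 * M.1) * A.1 * (M⁻¹.1 * M.1) := by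
              simp only [Matrix.mul_assoc]
          _ = A.1 := by rw [h, Matrix.one_mul, Matrix.mul_one]
      right_inv := fun A => by
        apply Subtype.ext
        show M.1 * (M⁻¹.1 * A.1 * M.1) * M⁻¹.1 = A.1
        have h : M.1 * M⁻¹.1 = 1 := by rw [← Units.val_mul, mul_inv_cancel, Units.val_one]
        calc M.1 * (M⁻¹.1 * A.1 * M.1) * M⁻¹.1 = (M.1 * M⁻¹.1) * A.1 * (M.1 * M⁻¹.1) := by
              simp only [Matrix.mul_assoc]
          _ = A.1 := by rw [h, Matrix.one_mul, Matrix.mul_one]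
      map_mul' := fun A B => by
        apply Subtype.ext
        show M.1 * (A.1 * B.1) * M⁻¹.1 = (M.1 * A.1 * M⁻¹.1) * (M.1 * B.1 * M⁻¹.1)
        have h : M⁻¹.1 * M.1 = 1 := by rw [← Units.val_mul, inv_mul_cancel, Units.val_one]
        calc M.1 * (A.1 * B.1) * M⁻¹.1 = M.1 * A.1 * 1 * B.1 * M⁻¹.1 := by
              simp only [Matrix.mul_assoc, Matrix.one_mul]
          _ = M.1 * A.1 * (M⁻¹.1 * M.1) * B.1 * M⁻¹.1 := by rw [h]
          _ = _ := by simp only [Matrix.mul_assoc] }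
  map_one' := by
    ext A : 1
    apply Subtype.ext
    show (1 : GL (Fin 2) F).1 * A.1 * (1 : GL (Fin 2) F)⁻¹.1 = A.1
    rw [inv_one, Units.val_one, Matrix.one_mul, Matrix.mul_one]
  map_mul' := fun M N => by
    ext A : 1
    apply Subtype.ext
    show (M * N).1 * A.1 * (M * N)⁻¹.1 = M.1 * (N.1 * A.1 * N⁻¹.1) * M⁻¹.1
    rw [_root_.mul_inv_rev, Units.val_mul, Units.val_mul]
    simp only [Matrix.mul_assoc]

theorem cjS_coe (M : GL (Fin 2) F) (A : SL(2, F)) :
    ((cjS M A : SL(2, F)) : Matrix (Fin 2) (Fin 2) F) = M.1 * A.1 * M⁻¹.1 := rfl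

/-- An isomorphism of groups maps the centre onto the centre. -/
theorem map_center {G G' : Type} [Group G] [Group G'] (e : G ≃* G') :
    (Subgroup.center G).map e.toMonoidHom = Subgroup.center G' := by
  ext x
  rw [Subgroup.mem_map, Subgroup.mem_center_iff]
  constructor
  · rintro ⟨y, hy, rfl⟩ g
    have h := (Subgroup.mem_center_iff.1 hy) (e.symm g)
    have h1 := congrArg e h
    rw [map_mul, map_mul, e.apply_symm_apply] at h1
    exact h1
  · intro h
    refine ⟨e.symm x, Subgroup.mem_center_iff.2 fun g => ?_, e.apply_symm_apply x⟩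
    apply e.injective
    rw [map_mul, map_mul, e.apply_symm_apply]
    exact h (e g)

/-- The conjugation of `PSL_2` by an invertible matrix. -/
def cjP : GL (Fin 2) F →* MulAut PSL(2, F) where
  toFun M := QuotientGroup.congr _ _ (cjS M) (map_center (cjS M))
  map_one' := by
    ext x
    obtain ⟨A, rfl⟩ := QuotientGroup.mk_surjective x
    show QuotientGroup.mk (cjS 1 A) = _
    rw [map_one]
    rfl
  map_mul' M N := by
    ext x
    obtain ⟨A, rfl⟩ := QuotientGroup.mk_surjective x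
    show QuotientGroup.mk (cjS (M * N) A) = _
    rw [map_mul]
    rfl

theorem cjP_mk (M : GL (Fin 2) F) (A : SL(2, F)) :
    cjP M (QuotientGroup.mk A : PSL(2, F)) = QuotientGroup.mk (cjS M A) := rfl

/-- The isomorphism of the groups `SL_2` of an isomorphism of fields. -/
def fS (σ : F ≃+* F') : SL(2, F) ≃* SL(2, F') where
  toFun := Matrix.SpecialLinearGroup.map σ.toRingHom
  invFun := Matrix.SpecialLinearGroup.map σ.symm.toRingHom
  left_inv A := by
    apply Subtype.ext
    ext i j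
    exact σ.symm_apply_apply (A.1 i j)
  right_inv A := by
    apply Subtype.ext
    ext i j
    exact σ.apply_symm_apply (A.1 i j)
  map_mul' A B := map_mul _ A B

theorem fS_coe (σ : F ≃+* F') (A : SL(2, F)) (i j : Fin 2) :
    ((fS σ A : SL(2, F')) : Matrix (Fin 2) (Fin 2) F') i j = σ (A.1 i j) := rfl

/-- The isomorphism of the groups `PSL_2` of an isomorphism of fields. -/
def fP (σ : F ≃+* F') : PSL(2, F) ≃* PSL(2, F') :=
  QuotientGroup.congr _ _ (fS σ) (map_center (fS σ))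

theorem fP_mk (σ : F ≃+* F') (A : SL(2, F)) :
    fP σ (QuotientGroup.mk A : PSL(2, F)) = QuotientGroup.mk (fS σ A) := rfl

/-- The image of an invertible matrix. -/
def mG (σ : F ≃+* F') (M : GL (Fin 2) F) : GL (Fin 2) F' :=
  Matrix.GeneralLinearGroup.map σ.toRingHom M

theorem fS_cjS (σ : F ≃+* F') (M : GL (Fin 2) F) (A : SL(2, F)) :
    fS σ (cjS M A) = cjS (mG σ M) (fS σ A) := by
  apply Subtype.ext
  show (M.1 * A.1 * M⁻¹.1).map σ = (mG σ M).1 * (A.1.map σ) * ((mG σ M)⁻¹).1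
  rw [mG, ← map_inv]
  show (M.1 * A.1 * M⁻¹.1).map σ = M.1.map σ * A.1.map σ * M⁻¹.1.map σ
  rw [Matrix.map_mul, Matrix.map_mul]

theorem fP_cjP (σ : F ≃+* F') (M : GL (Fin 2) F) (s : PSL(2, F)) :
    fP σ (cjP M s) = cjP (mG σ M) (fP σ s) := by
  obtain ⟨A, rfl⟩ := QuotientGroup.mk_surjective s
  rw [cjP_mk, fP_mk, fP_mk, cjP_mk, fS_cjS]

theorem fP_trans {F'' : Type} [Field F''] (σ : F ≃+* F') (σ' : F' ≃+* F'') (s : PSL(2, F)) :
    fP σ' (fP σ s) = fP (σ.trans σ') s := by
  obtain ⟨A, rfl⟩ := QuotientGroup.mk_surjective s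
  rfl

theorem fP_refl (s : PSL(2, F)) : fP (RingEquiv.refl F) s = s := by
  obtain ⟨A, rfl⟩ := QuotientGroup.mk_surjective s
  rfl

theorem fP_symm (σ : F ≃+* F') (s : PSL(2, F)) : fP σ.symm (fP σ s) = s := by
  rw [fP_trans, RingEquiv.self_trans_symm, fP_refl]

/-- The conjugation by a matrix of determinant one is inner. -/
theorem cjP_coe (A : SL(2, F)) (s : PSL(2, F)) :
    cjP (A : GL (Fin 2) F) s = (QuotientGroup.mk A : PSL(2, F)) * s *
      (QuotientGroup.mk A : PSL(2, F))⁻¹ := by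
  obtain ⟨B, rfl⟩ := QuotientGroup.mk_surjective s
  rw [cjP_mk]
  show (QuotientGroup.mk (cjS (A : GL (Fin 2) F) B) : PSL(2, F)) = QuotientGroup.mk (A * B * A⁻¹)
  congr 1

/-- The conjugation by a scalar matrix is trivial. -/
theorem cjP_scalar (M : GL (Fin 2) F) (x : F) (hM : M.1 = x • (1 : Matrix (Fin 2) (Fin 2) F)) :
    cjP M = 1 := by
  ext s
  obtain ⟨B, rfl⟩ := QuotientGroup.mk_surjective s
  rw [cjP_mk, MulAut.one_apply]
  congr 1
  apply Subtype.ext
  rw [cjS_coe, hM, Matrix.smul_mul, Matrix.one_mul]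
  have h : x • M⁻¹.1 = 1 := by
    have h1 : M.1 * M⁻¹.1 = 1 := by rw [← Units.val_mul, mul_inv_cancel, Units.val_one]
    rw [hM, Matrix.smul_mul, Matrix.one_mul] at h1
    exact h1
  rw [Matrix.smul_mul, ← Matrix.mul_smul, h, Matrix.mul_one]

/-- A matrix whose determinant is a square acts by an inner automorphism.

Proof. `M = x • A` with `det A = 1`; `cjP_scalar` for the scalar matrix `x`, `cjP_coe`. -/
theorem cjP_sq (M : GL (Fin 2) F) (x : F) (hM : M.1.det = x ^ 2) :
    ∃ t : PSL(2, F), ∀ s, cjP M s = t * s * t⁻¹ := by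
  have hd : M.1.det ≠ 0 := ((Matrix.isUnit_iff_isUnit_det M.1).1 M.isUnit).ne_zero
  have hx : x ≠ 0 := by
    rintro rfl
    exact hd (by rw [hM, zero_pow two_ne_zero])
  have hA : (x⁻¹ • M.1).det = 1 := by
    rw [Matrix.det_smul, Fintype.card_fin, hM, ← mul_pow, inv_mul_cancel₀ hx, one_pow]
  let A : SL(2, F) := ⟨x⁻¹ • M.1, hA⟩
  have h1 : M.1 = x • A.1 := by
    show M.1 = x • (x⁻¹ • M.1)
    rw [smul_smul, mul_inv_cancel₀ hx, one_smul]
  let X : GL (Fin 2) F := M * (A : GL (Fin 2) F)⁻¹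
  have hX : X.1 = x • (1 : Matrix (Fin 2) (Fin 2) F) := by
    have h2 : (A : GL (Fin 2) F).1 * ((A : GL (Fin 2) F)⁻¹).1 = 1 := by
      rw [← Units.val_mul, mul_inv_cancel, Units.val_one]
    show M.1 * ((A : GL (Fin 2) F)⁻¹).1 = _
    rw [h1, Matrix.smul_mul]
    exact congrArg (fun N : Matrix (Fin 2) (Fin 2) F => x • N) h2
  have hMX : M = X * (A : GL (Fin 2) F) := by
    show M = M * (A : GL (Fin 2) F)⁻¹ * (A : GL (Fin 2) F)
    rw [inv_mul_cancel_right]
  refine ⟨QuotientGroup.mk A, fun s => ?_⟩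
  rw [hMX, map_mul, cjP_scalar X x hX, one_mul, cjP_coe]

/-- If the class of a matrix with trace two is fixed, the matrices commute. -/
private theorem psla_comm (M : GL (Fin 2) F) (A : SL(2, F)) (hA : A.1.trace = 2)
    (h : cjP M (QuotientGroup.mk A : PSL(2, F)) = QuotientGroup.mk A) :
    A.1 * M.1 = M.1 * A.1 := by
  rw [cjP_mk, QuotientGroup.eq] at h
  obtain ⟨r, hr, hr2⟩ := Matrix.SpecialLinearGroup.mem_center_iff.1 h
  rw [Fintype.card_fin] at hr
  have h1 : A = cjS M A * ((cjS M A)⁻¹ * A) := by rw [mul_inv_cancel_left]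
  have h2 : A.1 = r • (M.1 * A.1 * M⁻¹.1) := by
    have h3 : A.1 = (cjS M A).1 * ((cjS M A)⁻¹ * A).1 := congrArg Subtype.val h1
    rw [← hr2, cjS_coe] at h3
    rw [Matrix.scalar_apply, ← Matrix.smul_one_eq_diagonal, Matrix.mul_smul, Matrix.mul_one] at h3
    exact h3
  have hMM : M⁻¹.1 * M.1 = 1 := by rw [← Units.val_mul, inv_mul_cancel, Units.val_one]
  have h4 : (2 : F) = r * 2 := by
    have h5 := congrArg Matrix.trace h2
    rw [Matrix.trace_smul, Matrix.trace_mul_comm, ← Matrix.mul_assoc, hMM, Matrix.one_mul, hA,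
      smul_eq_mul] at h5
    exact h5
  have h5 : r = 1 := by
    have h6 : (r - 1) * (r - 1) = 0 := by
      have h7 : (r - 1) * (r - 1) = r ^ 2 - r * 2 + 1 := by ring
      rw [h7, hr, ← h4]
      ring
    exact sub_eq_zero.1 (mul_self_eq_zero.1 h6)
  rw [h5, one_smul] at h2
  calc A.1 * M.1 = M.1 * A.1 * M⁻¹.1 * M.1 := by rw [← h2]
    _ = M.1 * A.1 := by rw [Matrix.mul_assoc, hMM, Matrix.mul_one]

/-- Matrices which centralize the unipotent matrices modulo the centre are scalar, and more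
generally: if conjugation by `M` is trivial on the classes of the two matrices then `M` is scalar.

Proof. `M B M⁻¹ = z B` with `z` in the centre, a scalar matrix `x` with `x ^ 2 = 1`; the trace
gives `2 = x * 2`; if `2 ≠ 0` then `x = 1`, if `2 = 0` then `(x - 1) ^ 2 = 0`, `x = 1`. So `M`
commutes with the two matrices `[[1, 1], [0, 1]]` and `[[1, 0], [1, 1]]`. -/
theorem cjP_eq_one (M : GL (Fin 2) F)
    (h1 : ∀ A : SL(2, F), A.1 = !![1, 1; 0, 1] → cjP M (QuotientGroup.mk A : PSL(2, F)) =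
      QuotientGroup.mk A)
    (h2 : ∀ A : SL(2, F), A.1 = !![1, 0; 1, 1] → cjP M (QuotientGroup.mk A : PSL(2, F)) =
      QuotientGroup.mk A) :
    ∃ x : F, M.1 = x • (1 : Matrix (Fin 2) (Fin 2) F) := by
  have e1 := psla_comm M ⟨!![1, 1; 0, 1], by simp [Matrix.det_fin_two]⟩
    (by simp [Matrix.trace_fin_two, one_add_one_eq_two]) (h1 _ rfl)
  have e2 := psla_comm M ⟨!![1, 0; 1, 1], by simp [Matrix.det_fin_two]⟩
    (by simp [Matrix.trace_fin_two, one_add_one_eq_two]) (h2 _ rfl)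
  have a00 := congrFun (congrFun e1 0) 0
  have a01 := congrFun (congrFun e1 0) 1
  have b00 := congrFun (congrFun e2 0) 0
  simp [Matrix.mul_apply, Fin.sum_univ_two] at a00 a01 b00
  refine ⟨M.1 0 0, ?_⟩
  ext i j
  fin_cases i <;> fin_cases j
  · simp
  · simpa using b00
  · simpa using a00
  · have h : M.1 1 1 = M.1 0 0 := by linear_combination a01
    simpa using h

end Pool.Agent.MPfe8e9bN
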