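import Mathlib
import Pool.Agent.Lib.MP_fe8e9b_al_N.DefN
import Pool.Agent.Lib.MP_fe8e9b_al_N.PslA

/-!
# MP_fe8e9b_al, groups of bounded height: definitions for the automorphisms of `PSL_n`
-/

set_option autoImplicit false

open scoped BigOperators MatrixGroups

namespace Pool.Agent.MPfe8e9bN

open Matrix

variable {n : ℕ} {F F' : Type} [Field F] [Field F']

/-- `PSL_n(F)`. -/
abbrev PN (n : ℕ) (F : Type) [Field F] : Type :=
  SL(n, F) ⧸ Subgroup.center SL(n, F)

/-- The class of a matrix. -/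
abbrev mk (A : SL(n, F)) : PN n F := QuotientGroup.mk A

theorem mk_mul (A B : SL(n, F)) : mk (A * B) = mk A * mk B := rfl

theorem mk_inv (A : SL(n, F)) : mk A⁻¹ = (mk A)⁻¹ := rfl

theorem mk_one : mk (1 : SL(n, F)) = 1 := rfl

theorem mk_surj (t : PN n F) : ∃ A, mk A = t := QuotientGroup.mk_surjective t

/-- Two matrices with the same class differ by a scalar. -/
theorem mk_eq {A B : SL(n, F)} :
    mk A = mk B ↔ ∃ c : F, c ≠ 0 ∧ B.1 = c • A.1 := by
  rw [QuotientGroup.eq, Matrix.SpecialLinearGroup.mem_center_iff]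
  constructor
  · rintro ⟨r, hr, h⟩
    rcases Nat.eq_zero_or_pos n with rfl | hn
    · refine ⟨1, one_ne_zero, ?_⟩
      ext i
      exact i.elim0
    · refine ⟨r, ?_, ?_⟩
      · rintro rfl
        rw [Fintype.card_fin, zero_pow hn.ne'] at hr
        exact zero_ne_one hr
      · have h1 : B = A * (A⁻¹ * B) := by group
        have h2 : B.1 = A.1 * (A⁻¹ * B : SL(n, F)).1 := by
          conv_lhs => rw [h1]
          rfl
        rw [h2, ← h, Matrix.scalar_apply, ← Matrix.smul_eq_mul_diagonal]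
  · rintro ⟨c, hc, h⟩
    refine ⟨c, ?_, ?_⟩
    · have h1 := congrArg Matrix.det h
      rw [Matrix.det_smul, A.2, B.2, mul_one] at h1
      exact h1.symm
    · have h1 : (A⁻¹ * B : SL(n, F)).1 = A⁻¹.1 * B.1 := rfl
      have h2 : A⁻¹.1 * A.1 = 1 := congrArg Subtype.val (inv_mul_cancel A)
      rw [h1, h, Matrix.mul_smul, h2, Matrix.scalar_apply, Matrix.smul_one_eq_diagonal]

/-- The elementary matrices. -/
def ev (i j : Fin n) (x : F) : SL(n, F) :=
  if h : i ≠ j then Matrix.SpecialLinearGroup.transvection h x else 1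

theorem ev_val {i j : Fin n} (h : i ≠ j) (x : F) : (ev i j x).1 = 1 + Matrix.single i j x := by
  rw [ev, dif_pos h]
  rfl

/-- The classes of the matrices `1 + x v φ`. -/
def tvs (v φ : Fin n → F) : Set (PN n F) :=
  {t | ∃ (A : SL(n, F)) (x : F), A.1 = 1 + x • vecMulVec v φ ∧ t = mk A}

/-- The conjugation of `SL_n` by an invertible matrix. -/
def cM (M : GL (Fin n) F) : MulAut SL(n, F) where
  toFun A := ⟨M.1 * A.1 * M⁻¹.1, by
    rw [Matrix.det_mul, Matrix.det_mul, A.2, mul_one, ← Matrix.det_mul, ← Units.val_mul,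
      mul_inv_cancel, Units.val_one, Matrix.det_one]⟩
  invFun A := ⟨M⁻¹.1 * A.1 * M.1, by
    rw [Matrix.det_mul, Matrix.det_mul, A.2, mul_one, ← Matrix.det_mul, ← Units.val_mul,
      inv_mul_cancel, Units.val_one, Matrix.det_one]⟩
  left_inv A := by
    apply Subtype.ext
    show M⁻¹.1 * (M.1 * A.1 * M⁻¹.1) * M.1 = A.1
    have h : M⁻¹.1 * M.1 = 1 := by rw [← Units.val_mul, inv_mul_cancel, Units.val_one]
    calc M⁻¹.1 * (M.1 * A.1 * M⁻¹.1) * M.1 = (M⁻¹.1 * M.1) * A.1 * (M⁻¹.1 * M.1) := by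
          simp only [Matrix.mul_assoc]
      _ = A.1 := by rw [h, Matrix.one_mul, Matrix.mul_one]
  right_inv A := by
    apply Subtype.ext
    show M.1 * (M⁻¹.1 * A.1 * M.1) * M⁻¹.1 = A.1
    have h : M.1 * M⁻¹.1 = 1 := by rw [← Units.val_mul, mul_inv_cancel, Units.val_one]
    calc M.1 * (M⁻¹.1 * A.1 * M.1) * M⁻¹.1 = (M.1 * M⁻¹.1) * A.1 * (M.1 * M⁻¹.1) := by
          simp only [Matrix.mul_assoc]
      _ = A.1 := by rw [h, Matrix.one_mul, Matrix.mul_one]
  map_mul' A B := by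
    apply Subtype.ext
    show M.1 * (A.1 * B.1) * M⁻¹.1 = (M.1 * A.1 * M⁻¹.1) * (M.1 * B.1 * M⁻¹.1)
    have h : M⁻¹.1 * M.1 = 1 := by rw [← Units.val_mul, inv_mul_cancel, Units.val_one]
    calc M.1 * (A.1 * B.1) * M⁻¹.1 = M.1 * A.1 * 1 * B.1 * M⁻¹.1 := by
          simp only [Matrix.mul_assoc, Matrix.one_mul]
      _ = M.1 * A.1 * (M⁻¹.1 * M.1) * B.1 * M⁻¹.1 := by rw [h]
      _ = _ := by simp only [Matrix.mul_assoc]

theorem cM_val (M : GL (Fin n) F) (A : SL(n, F)) :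
    (cM M A).1 = M.1 * A.1 * M⁻¹.1 := rfl

/-- The conjugation by a matrix of determinant one. -/
theorem cM_coe (g A : SL(n, F)) : cM (g : GL (Fin n) F) A = g * A * g⁻¹ := rfl

theorem cM_mul (M N : GL (Fin n) F) : cM (M * N) = cM M * cM N := by
  ext A : 1
  apply Subtype.ext
  show (M * N).1 * A.1 * (M * N)⁻¹.1 = M.1 * (N.1 * A.1 * N⁻¹.1) * M⁻¹.1
  rw [_root_.mul_inv_rev, Units.val_mul, Units.val_mul]
  simp only [Matrix.mul_assoc]

theorem cM_one : cM (1 : GL (Fin n) F) = 1 := by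
  ext A : 1
  apply Subtype.ext
  show (1 : GL (Fin n) F).1 * A.1 * (1 : GL (Fin n) F)⁻¹.1 = A.1
  rw [inv_one, Units.val_one, Matrix.one_mul, Matrix.mul_one]

theorem cM_inv (M : GL (Fin n) F) : cM M⁻¹ = (cM M)⁻¹ := by
  rw [eq_inv_iff_mul_eq_one, ← cM_mul, inv_mul_cancel, cM_one]

/-- The automorphism of `PSL_n` given by an automorphism of `SL_n`. -/
def pN : MulAut SL(n, F) →* MulAut (PN n F) where
  toFun α := QuotientGroup.congr _ _ α (map_center α)
  map_one' := by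
    ext x
    obtain ⟨A, rfl⟩ := mk_surj x
    rfl
  map_mul' α β := by
    ext x
    obtain ⟨A, rfl⟩ := mk_surj x
    rfl

theorem pN_mk (α : MulAut SL(n, F)) (A : SL(n, F)) :
    pN α (mk A) = mk (α A) := rfl

/-- The field automorphisms and conjugation. -/
theorem fM_cM (σ : F ≃+* F) (M : GL (Fin n) F) (A : SL(n, F)) :
    fM σ (cM M A) = cM (Matrix.GeneralLinearGroup.map σ.toRingHom M) (fM σ A) := by
  apply Subtype.ext
  show (M.1 * A.1 * M⁻¹.1).map σ = (Matrix.GeneralLinearGroup.map σ.toRingHom M).1 * (A.1.map σ) *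
    ((Matrix.GeneralLinearGroup.map σ.toRingHom M)⁻¹).1
  rw [← map_inv]
  show (M.1 * A.1 * M⁻¹.1).map σ = M.1.map σ * A.1.map σ * M⁻¹.1.map σ
  rw [Matrix.map_mul, Matrix.map_mul]

/-- The inverse transpose and conjugation. -/
theorem iT_cM (M : GL (Fin n) F) : ∃ M' : GL (Fin n) F, ∀ A : SL(n, F),
    iT (cM M A) = cM M' (iT A) := by
  have h1 : M⁻¹.1ᵀ * M.1ᵀ = 1 := by
    rw [← Matrix.transpose_mul, ← Units.val_mul, mul_inv_cancel, Units.val_one,
      Matrix.transpose_one]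
  have h2 : M.1ᵀ * M⁻¹.1ᵀ = 1 := by
    rw [← Matrix.transpose_mul, ← Units.val_mul, inv_mul_cancel, Units.val_one,
      Matrix.transpose_one]
  refine ⟨⟨M⁻¹.1ᵀ, M.1ᵀ, h1, h2⟩, fun A => ?_⟩
  apply Subtype.ext
  rw [iT_val, ← map_inv]
  show (M.1 * A⁻¹.1 * M⁻¹.1)ᵀ = M⁻¹.1ᵀ * A⁻¹.1ᵀ * M.1ᵀ
  rw [Matrix.transpose_mul, Matrix.transpose_mul, Matrix.mul_assoc]

/-- The upper unitriangular matrices. -/
def UT (n : ℕ) (F : Type) [Field F] : Subgroup (SL(n, F)) where
  carrier := {A | (∀ i j, j < i → A.1 i j = 0) ∧ ∀ i, A.1 i i = 1}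
  mul_mem' := by
    rintro A B ⟨hA, hA1⟩ ⟨hB, hB1⟩
    constructor
    · intro i j hij
      show (A.1 * B.1) i j = 0
      rw [Matrix.mul_apply]
      refine Finset.sum_eq_zero fun k _ => ?_
      rcases lt_or_ge k i with h | h
      · rw [hA i k h, zero_mul]
      · rw [hB k j (lt_of_lt_of_le hij h), mul_zero]
    · intro i
      show (A.1 * B.1) i i = 1
      rw [Matrix.mul_apply, Finset.sum_eq_single i, hA1, hB1, mul_one]
      · intro k _ hk
        rcases lt_or_gt_of_ne hk with h | h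
        · rw [hA i k h, zero_mul]
        · rw [hB k i h, mul_zero]
      · intro h
        exact absurd (Finset.mem_univ i) h
  one_mem' := ⟨fun i j hij => Matrix.one_apply_ne' hij.ne, fun i => Matrix.one_apply_eq i⟩
  inv_mem' := by
    rintro A ⟨hA, hA1⟩
    have hu : A.1 * (A⁻¹).1 = 1 := congrArg Subtype.val (mul_inv_cancel A)
    have hu' : (A⁻¹).1 * A.1 = 1 := congrArg Subtype.val (inv_mul_cancel A)
    have hI : Invertible A.1 := ⟨(A⁻¹).1, hu', hu⟩
    have hb : Matrix.BlockTriangular A.1 (id : Fin n → Fin n) := fun i j hij => hA i j hij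
    have h1 : (A⁻¹).1 = (A.1)⁻¹ := (Matrix.inv_eq_right_inv hu).symm
    have h2 : ∀ i j, j < i → (A⁻¹).1 i j = 0 := by
      intro i j hij
      rw [h1]
      exact Matrix.blockTriangular_inv_of_blockTriangular hb hij
    refine ⟨h2, fun i => ?_⟩
    have h3 : ((A⁻¹).1 * A.1) i i = 1 := by rw [hu', Matrix.one_apply_eq]
    rw [Matrix.mul_apply, Finset.sum_eq_single i, hA1, mul_one] at h3
    · exact h3
    · intro k _ hk
      rcases lt_or_gt_of_ne hk with h | h
      · rw [h2 i k h, zero_mul]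
      · rw [hA k i h, mul_zero]
    · intro h
      exact absurd (Finset.mem_univ i) h

theorem UT_mem {A : SL(n, F)} :
    A ∈ UT n F ↔ (∀ i j, j < i → A.1 i j = 0) ∧ ∀ i, A.1 i i = 1 := Iff.rfl

/-- The data of the images of the elementary subgroups under an automorphism. -/
structure TD (f : MulAut (PN n F)) (v φ : Fin n → Fin n → (Fin n → F)) : Prop where
  nv : ∀ i j, i ≠ j → v i j ≠ 0
  np : ∀ i j, i ≠ j → φ i j ≠ 0
  inc : ∀ i j, i ≠ j → φ i j ⬝ᵥ v i j = 0
  img : ∀ i j, i ≠ j → ∀ t, (∃ x, f (mk (ev i j x)) = t) ↔ t ∈ tvs (v i j) (φ i j)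

end Pool.Agent.MPfe8e9bN
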