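import Mathlib
import Pool.Agent.Lib.MP_fe8e9b_al_N.AnD

/-!
# MP_fe8e9b_al, groups of bounded height: a Sylow subgroup of `PSL_n`
-/

set_option autoImplicit false

open scoped BigOperators MatrixGroups

namespace Pool.Agent.MPfe8e9bN

open Matrix

variable {n : ℕ} {F : Type} [Field F]

/-- The image of the unitriangular matrices. -/
def UP (n : ℕ) (F : Type) [Field F] : Subgroup (PN n F) :=
  (UT n F).map (QuotientGroup.mk' (Subgroup.center SL(n, F)))

theorem UP_mem (t : PN n F) : t ∈ UP n F ↔ ∃ A ∈ UT n F, mk A = t := Iff.rfl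

/-- The unitriangular matrix with the given entries above the diagonal. -/
def anaM (g : (j : Fin n) → (Fin (j : ℕ) → F)) : Matrix (Fin n) (Fin n) F :=
  fun i j => if h : (i : ℕ) < (j : ℕ) then g j ⟨i, h⟩ else if i = j then 1 else 0

theorem anaM_up (g : (j : Fin n) → (Fin (j : ℕ) → F)) {i j : Fin n} (h : i < j) :
    anaM g i j = g j ⟨i, h⟩ := by
  have h1 : (i : ℕ) < (j : ℕ) := h
  simp only [anaM, dif_pos h1]

theorem anaM_diag (g : (j : Fin n) → (Fin (j : ℕ) → F)) (i : Fin n) :
    anaM g i i = 1 := by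
  simp only [anaM, lt_irrefl, dite_false, if_true]

theorem anaM_low (g : (j : Fin n) → (Fin (j : ℕ) → F)) (i j : Fin n) (h : j < i) :
    anaM g i j = 0 := by
  have h1 : ¬ (i : ℕ) < (j : ℕ) := not_lt.mpr (le_of_lt h)
  simp only [anaM, dif_neg h1, if_neg h.ne']

theorem anaM_det (g : (j : Fin n) → (Fin (j : ℕ) → F)) : (anaM g).det = 1 := by
  have h : (anaM g).IsUpperTriangular := fun i j hij => anaM_low g i j hij
  rw [Matrix.det_of_isUpperTriangular h]
  exact Finset.prod_eq_one fun i _ => anaM_diag g i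

/-- The number of unitriangular matrices.

Proof. `UT n F` is in bijection with the functions `{p : Fin n × Fin n // p.1 < p.2} → F` (the
entries above the diagonal; the determinant of such a matrix is one,
`Matrix.det_of_isUpperTriangular` or `Matrix.BlockTriangular.det`), and there are `∑ i : Fin n, i`
pairs. -/
theorem an_card [Finite F] : Nat.card (UT n F) = Nat.card F ^ (∑ i : Fin n, (i : ℕ)) := by
  have e : UT n F ≃ ((j : Fin n) → (Fin (j : ℕ) → F)) :=
    { toFun := fun A j i => A.1.1 (Fin.castLE j.2.le i) j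
      invFun := fun g => ⟨⟨anaM g, anaM_det g⟩, anaM_low g, anaM_diag g⟩
      left_inv := by
        rintro ⟨A, hA1, hA2⟩
        apply Subtype.ext
        apply Subtype.ext
        ext i j
        show anaM (fun (j : Fin n) (i : Fin (j : ℕ)) => A.1 (Fin.castLE j.2.le i) j) i j = A.1 i j
        rcases lt_trichotomy i j with h | h | h
        · rw [anaM_up _ h]
          rfl
        · subst h
          rw [anaM_diag, hA2]
        · rw [anaM_low _ _ _ h, hA1 _ _ h]
      right_inv := by
        intro g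
        funext j i
        show anaM g (Fin.castLE j.2.le i) j = g j i
        have h : Fin.castLE j.2.le i < j := Fin.lt_def.mpr i.2
        rw [anaM_up g h]
        rfl }
  rw [Nat.card_congr e, Nat.card_pi, Finset.prod_congr rfl fun j _ => Nat.card_fun,
    Finset.prod_congr rfl fun (j : Fin n) _ => by rw [Nat.card_fin]]
  exact Finset.prod_pow_eq_pow_sum _ _ _

/-- The index of the unitriangular matrices.

Proof. `Nat.card (GL (Fin n) F) = ∏ i : Fin n, (q ^ n - q ^ i)` (`Matrix.card_GL_field`), with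
`q ^ n - q ^ i = q ^ i * (q ^ (n - i) - 1)`, so it is `Nat.card (UT n F)` (`an_card`) times the
product of the numbers `q ^ (n - i) - 1`, which are not divisible by `p` (`p ∣ q`). The order of
`SL(n, F)` divides the order of `GL (Fin n) F` (`Subgroup.card_dvd_of_injective` or `MonoidHom`
version, for `Matrix.SpecialLinearGroup.toGL`), and `Nat.card SL = Nat.card UT * index`
(`Subgroup.card_mul_index`); so the index divides the product of the `q ^ (n - i) - 1`. -/
theorem an_index [Finite F] {p : ℕ} [Fact p.Prime] [CharP F p] : ¬ p ∣ (UT n F).index := by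
  classical
  have hF : Fintype F := Fintype.ofFinite F
  have hp : p.Prime := Fact.out
  have hq : p ∣ Nat.card F := by
    rw [← CharP.cast_eq_zero_iff F p, Nat.card_eq_fintype_card]
    exact Nat.cast_card_eq_zero F
  have hq0 : 0 < Nat.card F := Nat.card_pos
  have h1 : Nat.card (GL (Fin n) F) =
      Nat.card (UT n F) * ∏ i : Fin n, (Nat.card F ^ (n - (i : ℕ)) - 1) := by
    rw [an_card, ← Finset.prod_pow_eq_pow_sum, ← Finset.prod_mul_distrib,
      Matrix.card_GL_field, ← Nat.card_eq_fintype_card]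
    refine Finset.prod_congr rfl fun i _ => ?_
    rw [Nat.mul_sub, mul_one, ← pow_add, Nat.add_sub_cancel' i.2.le]
  have h2 : Nat.card SL(n, F) ∣ Nat.card (GL (Fin n) F) :=
    Subgroup.card_dvd_of_injective Matrix.SpecialLinearGroup.toGL
      Matrix.SpecialLinearGroup.toGL_injective
  rw [h1, ← Subgroup.card_mul_index (UT n F)] at h2
  have h3 : (UT n F).index ∣ ∏ i : Fin n, (Nat.card F ^ (n - (i : ℕ)) - 1) :=
    Nat.dvd_of_mul_dvd_mul_left Nat.card_pos h2
  intro h4
  obtain ⟨i, -, hi⟩ := (Prime.dvd_finsetProd_iff hp.prime _).mp (h4.trans h3)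
  have h5 : p ∣ Nat.card F ^ (n - (i : ℕ)) := dvd_pow hq (Nat.sub_pos_of_lt i.2).ne'
  have h6 : 1 ≤ Nat.card F ^ (n - (i : ℕ)) := Nat.one_le_pow _ _ hq0
  have h7 : p ∣ 1 := by
    have := Nat.dvd_sub h5 hi
    rwa [Nat.sub_sub_self h6] at this
  exact hp.one_lt.ne' (Nat.dvd_one.mp h7)

/-- The image is a Sylow subgroup.

Proof. `Nat.card (UT n F)` is a power of `q`, so a power of `p` (`IsPGroup.of_card`,
`IsPGroup.map`); `Subgroup.index_map_dvd` and `an_index`. -/
theorem an_syl [Finite F] {p : ℕ} [Fact p.Prime] [CharP F p] :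
    IsPGroup p (UP n F) ∧ ¬ p ∣ (UP n F).index := by
  constructor
  · have hF : Fintype F := Fintype.ofFinite F
    obtain ⟨k, hp, hk⟩ := FiniteField.card F p
    have h1 : Nat.card (UT n F) = p ^ ((k : ℕ) * ∑ i : Fin n, (i : ℕ)) := by
      rw [an_card, Nat.card_eq_fintype_card, hk, pow_mul]
    exact (IsPGroup.of_card h1).map _
  · intro h
    exact an_index (h.trans (Subgroup.index_map_dvd _ (QuotientGroup.mk'_surjective _)))

/-- The image of the Sylow subgroup under an automorphism is a conjugate.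

Proof. Both are Sylow subgroups (`IsPGroup.toSylow`, for the image of `UP n F` under `f`:
`IsPGroup.map`, `Subgroup.index_map_of_bijective`), `MulAction.exists_smul_eq` for Sylow subgroups
(`Sylow.isPretransitive_of_finite`), and `mk` is surjective. `p` is the characteristic
(`CharP.exists`, `CharP.char_is_prime`). -/
theorem an_sylow [Finite F] (f : MulAut (PN n F)) : ∃ g : SL(n, F), ∀ t : PN n F,
    t ∈ UP n F ↔ mk g * f t * (mk g)⁻¹ ∈ UP n F := by
  classical
  obtain ⟨p, hc⟩ := CharP.exists F
  have hF : Fintype F := Fintype.ofFinite F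
  have hp : Fact p.Prime := ⟨CharP.char_is_prime F p⟩
  obtain ⟨h1, h2⟩ := an_syl (n := n) (F := F) (p := p)
  have h3 : IsPGroup p ((UP n F).map f.toMonoidHom) := h1.map _
  have h4 : ((UP n F).map f.toMonoidHom).index = (UP n F).index :=
    Subgroup.index_map_of_bijective f.bijective _
  have h5 : ¬ p ∣ ((UP n F).map f.toMonoidHom).index := by rwa [h4]
  obtain ⟨t, ht⟩ := MulAction.exists_smul_eq (PN n F) (h3.toSylow h5) (h1.toSylow h2)
  obtain ⟨g, rfl⟩ := mk_surj t
  refine ⟨g, fun s => ?_⟩
  have h6 : ∀ x : PN n F, x ∈ (UP n F).map f.toMonoidHom ↔ mk g * x * (mk g)⁻¹ ∈ UP n F := by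
    intro x
    have h7 : mk g * x * (mk g)⁻¹ ∈ (mk g • (h3.toSylow h5) : Sylow p (PN n F)) ↔
        x ∈ (h3.toSylow h5 : Sylow p (PN n F)) := by
      exact Subgroup.smul_mem_pointwise_smul_iff (a := MulAut.conj (mk g)) (x := x)
    rw [ht] at h7
    exact h7.symm
  rw [← h6]
  constructor
  · intro h
    exact ⟨s, h, rfl⟩
  · rintro ⟨s', h, h8⟩
    have h9 : s' = s := f.injective h8
    rwa [← h9]

end Pool.Agent.MPfe8e9bN
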