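import Mathlib
import Pool.Agent.Lib.MP_fe8e9b_al_N.AnD

/-!
# MP_fe8e9b_al, groups of bounded height: elementary matrices
-/

set_option autoImplicit false

open scoped BigOperators MatrixGroups

namespace Pool.Agent.MPfe8e9bN

open Matrix

variable {n : ℕ} {F : Type} [Field F]

/-- Rules for the elementary matrices. -/
theorem ev_zero (i j : Fin n) : ev i j (0 : F) = 1 := by
  by_cases h : i = j
  · rw [ev, dif_neg (not_not.2 h)]
  · apply Subtype.ext
    rw [ev_val h, Matrix.single_zero, add_zero]
    rfl

theorem ev_add (i j : Fin n) (x y : F) : ev i j (x + y) = ev i j x * ev i j y := by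
  by_cases h : i = j
  · rw [ev, ev, ev, dif_neg (not_not.2 h), dif_neg (not_not.2 h), dif_neg (not_not.2 h), mul_one]
  · apply Subtype.ext
    show (ev i j (x + y)).1 = (ev i j x).1 * (ev i j y).1
    rw [ev_val h, ev_val h, ev_val h, Matrix.add_mul, Matrix.mul_add, Matrix.mul_add,
      Matrix.mul_one, Matrix.mul_one, Matrix.one_mul,
      Matrix.single_mul_single_of_ne _ _ _ _ (Ne.symm h), add_zero, Matrix.single_add]
    abel

theorem ev_inv (i j : Fin n) (x : F) : (ev i j x)⁻¹ = ev i j (-x) := by
  rw [inv_eq_iff_mul_eq_one, ← ev_add, add_neg_cancel, ev_zero]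

/-- The commutator relation. Proof. `Matrix.single_mul_single_same` etc. -/
theorem ev_comm {i j k : Fin n} (hij : i ≠ j) (hjk : j ≠ k) (hik : i ≠ k) (x y : F) :
    ev i j x * ev j k y * (ev i j x)⁻¹ * (ev j k y)⁻¹ = ev i k (x * y) := by
  have key : ev i j x * ev j k y = ev i k (x * y) * ev j k y * ev i j x := by
    apply Subtype.ext
    show (ev i j x).1 * (ev j k y).1 = (ev i k (x * y)).1 * (ev j k y).1 * (ev i j x).1
    rw [ev_val hij, ev_val hjk, ev_val hik]
    simp only [Matrix.add_mul, Matrix.mul_add, Matrix.one_mul, Matrix.mul_one,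
      Matrix.single_mul_single_same, Matrix.single_mul_single_of_ne _ _ _ _ hjk.symm,
      Matrix.single_mul_single_of_ne _ _ _ _ hik.symm, add_zero]
    abel
  rw [key]
  group

/-- Equality of classes. Proof. `mk_eq`: `ev k l y = c • ev i j x`; if `x = 0` or if `(i, j)` and
`(k, l)` are different then the entry `(i, j)` gives `0 = c * x`; the diagonal gives `c = 1`. -/
theorem mk_ev {i j k l : Fin n} (hij : i ≠ j) (hkl : k ≠ l) {x y : F} (hx : x ≠ 0)
    (h : mk (ev i j x) = mk (ev k l y)) : i = k ∧ j = l ∧ x = y := by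
  rw [mk_eq] at h
  obtain ⟨c, hc, h⟩ := h
  rw [ev_val hij, ev_val hkl] at h
  have h1 := congrFun (congrFun h i) j
  have h2 := congrFun (congrFun h i) i
  rw [Matrix.add_apply, Matrix.smul_apply, Matrix.add_apply, Matrix.one_apply_ne hij,
    Matrix.single_apply_same, zero_add, zero_add, smul_eq_mul] at h1
  rw [Matrix.add_apply, Matrix.smul_apply, Matrix.add_apply, Matrix.one_apply_eq, smul_eq_mul,
    Matrix.single_apply_of_ne _ _ _ _ _ (fun h => hkl (h.1.trans h.2.symm)),
    Matrix.single_apply_of_ne _ _ _ _ _ (fun h => hij h.2.symm), add_zero, mul_one] at h2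
  rw [← h2, one_mul, Matrix.single_apply] at h1
  split_ifs at h1 with h3
  · exact ⟨h3.1.symm, h3.2.symm, h1.symm⟩
  · exact absurd h1.symm hx

/-- Conjugates of elementary matrices. Proof. `g * single i j x * g⁻¹`; entries. -/
theorem ev_conj (g : SL(n, F)) {i j : Fin n} (h : i ≠ j) (x : F) :
    (g * ev i j x * g⁻¹).1 = 1 + x • vecMulVec (fun k => g.1 k i) (fun k => (g⁻¹).1 j k) := by
  show g.1 * (ev i j x).1 * (g⁻¹).1 = _
  have h1 : g.1 * (g⁻¹).1 = 1 := congrArg Subtype.val (mul_inv_cancel g)
  rw [ev_val h, Matrix.mul_add, Matrix.mul_one, Matrix.add_mul, h1]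
  congr 1
  ext a b
  rw [Matrix.mul_apply, Finset.sum_eq_single j]
  · rw [Matrix.mul_single_apply_same, Matrix.smul_apply, vecMulVec_apply, smul_eq_mul]
    ring
  · intro t _ ht
    rw [Matrix.mul_single_apply_of_ne _ _ _ _ _ ht, zero_mul]
  · intro ht
    exact absurd (Finset.mem_univ j) ht

/-- All elementary subgroups are conjugate.

Proof. There is a permutation `π` of `Fin n` with `π i = i'` and `π j = j'`. The permutation matrix
of `π` (`(w x) (π a) = x a`, determinant `sign π`), with the column of `i` multiplied by `sign π`,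
has determinant one, and conjugates `ev i j x` to `ev i' j' (sign π * x)`. -/
theorem ev_trans {i j i' j' : Fin n} (h : i ≠ j) (h' : i' ≠ j') : ∃ (g : SL(n, F)) (s : F),
    s ≠ 0 ∧ ∀ x, g * ev i j x * g⁻¹ = ev i' j' (s * x) := by
  obtain ⟨σ, hσi, hσj⟩ : ∃ σ : Equiv.Perm (Fin n), σ i' = i ∧ σ j' = j := by
    refine ⟨Equiv.swap (Equiv.swap i' i j') j * Equiv.swap i' i, ?_, ?_⟩
    · rw [Equiv.Perm.mul_apply, Equiv.swap_apply_left]
      apply Equiv.swap_apply_of_ne_of_ne
      · intro h1
        have h2 : Equiv.swap i' i i' = Equiv.swap i' i j' := by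
          rw [Equiv.swap_apply_left]
          exact h1
        exact h' ((Equiv.swap i' i).injective h2)
      · exact h
    · rw [Equiv.Perm.mul_apply, Equiv.swap_apply_left]
  obtain ⟨s, hs⟩ : ∃ s : F, s = ((Equiv.Perm.sign σ : ℤˣ) : ℤ) := ⟨_, rfl⟩
  have hss : s * s = 1 := by
    rw [hs]
    rcases Int.units_eq_one_or (Equiv.Perm.sign σ) with h1 | h1
    · rw [h1]
      simp
    · rw [h1]
      simp
  have hs0 : s ≠ 0 := by
    rintro rfl
    rw [zero_mul] at hss
    exact zero_ne_one hss
  have hdet : ((Matrix.diagonal (Function.update (1 : Fin n → F) i s)).submatrix σ id).det =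
      1 := by
    rw [Matrix.det_permute, Matrix.det_diagonal, Finset.prod_update_of_mem (Finset.mem_univ i),
      ← hs]
    simp [hss]
  refine ⟨⟨_, hdet⟩, s, hs0, fun x => ?_⟩
  rw [mul_inv_eq_iff_eq_mul]
  apply Subtype.ext
  show ((Matrix.diagonal (Function.update (1 : Fin n → F) i s)).submatrix σ id) * (ev i j x).1 =
    (ev i' j' (s * x)).1 * ((Matrix.diagonal (Function.update (1 : Fin n → F) i s)).submatrix σ id)
  rw [ev_val h, ev_val h', Matrix.mul_add, Matrix.mul_one, Matrix.add_mul, Matrix.one_mul]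
  congr 1
  ext a b
  have hai : ∀ t : Fin n, ∀ t', σ t' = t → (σ a = t ↔ a = t') := by
    intro t t' ht
    constructor
    · intro h1
      exact σ.injective (h1.trans ht.symm)
    · rintro rfl
      exact ht
  by_cases hb : b = j
  · subst hb
    rw [Matrix.mul_single_apply_same, Matrix.submatrix_apply]
    by_cases ha : a = i'
    · subst ha
      rw [Matrix.single_mul_apply_same, Matrix.submatrix_apply, hσi, hσj, id, id,
        Matrix.diagonal_apply_eq, Matrix.diagonal_apply_eq, Function.update_self,
        Function.update_of_ne h.symm, Pi.one_apply, mul_one]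
    · rw [Matrix.single_mul_apply_of_ne _ _ _ _ _ ha, id,
        Matrix.diagonal_apply_ne _ (fun h1 => ha ((hai i i' hσi).1 h1)), zero_mul]
  · rw [Matrix.mul_single_apply_of_ne _ _ _ _ _ hb]
    by_cases ha : a = i'
    · subst ha
      rw [Matrix.single_mul_apply_same, Matrix.submatrix_apply, hσj, id,
        Matrix.diagonal_apply_ne _ (Ne.symm hb), mul_zero]
    · rw [Matrix.single_mul_apply_of_ne _ _ _ _ _ ha]

/-- The centre of the image of the unitriangular matrices; `a` is the first and `z` the last
index.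

Proof. `←`: `ev a z x` commutes with every unitriangular matrix. `→`: take `w = ev i j 1` for `i <
j`. `mk_eq` gives `w * u = c • (u * w)`, and `c = 1` by a diagonal entry (all these matrices are
unitriangular). So `u` commutes with `single i j 1` for all `i < j`; the entry `(k, j)`, `k ≠ i`,
of `u * single i j 1 = single i j 1 * u` gives `u k i = 0` for `k ≠ i`, for every `i ≠ z` (`j =
z`); the entry `(i, l)`, `l ≠ j`, gives `u j l = 0` for every `j ≠ a` (`i = a`). So only the entry
`(a, z)` off the diagonal can be nonzero. -/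
theorem an_center (a z : Fin n) (haz : a ≠ z) (ha : ∀ i, a ≤ i) (hz : ∀ i, i ≤ z)
    (u : SL(n, F)) (hu : u ∈ UT n F) :
    (∀ w ∈ UT n F, mk u * mk w = mk w * mk u) ↔ ∃ x, u = ev a z x := by
  constructor
  · intro h
    obtain ⟨hu0, hu1⟩ := hu
    have key : ∀ i j, i < j → u.1 * Matrix.single i j (1 : F) = Matrix.single i j 1 * u.1 := by
      intro i j hij
      have hw : ev i j (1 : F) ∈ UT n F := by
        refine ⟨fun k l hkl => ?_, fun k => ?_⟩
        · rw [ev_val hij.ne, Matrix.add_apply, Matrix.one_apply_ne hkl.ne', zero_add,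
            Matrix.single_apply_of_ne]
          rintro ⟨rfl, rfl⟩
          exact absurd (hij.trans hkl) (lt_irrefl _)
        · rw [ev_val hij.ne, Matrix.add_apply, Matrix.one_apply_eq,
            Matrix.single_apply_of_ne, add_zero]
          rintro ⟨rfl, h1⟩
          exact hij.ne h1.symm
      have h1 := h _ hw
      rw [← mk_mul, ← mk_mul, mk_eq] at h1
      obtain ⟨c, -, hc⟩ := h1
      have hwu := (UT n F).mul_mem hw ⟨hu0, hu1⟩
      have huw := (UT n F).mul_mem ⟨hu0, hu1⟩ hw
      have h2 := congrFun (congrFun hc i) i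
      rw [Matrix.smul_apply, smul_eq_mul, (UT_mem.1 hwu).2, (UT_mem.1 huw).2, mul_one] at h2
      rw [← h2, one_smul] at hc
      have h3 : (ev i j (1 : F)).1 * u.1 = u.1 * (ev i j (1 : F)).1 := hc
      rw [ev_val hij.ne, Matrix.add_mul, Matrix.mul_add, Matrix.one_mul, Matrix.mul_one] at h3
      exact (add_left_cancel h3).symm
    have hcol : ∀ k i, k ≠ i → i ≠ z → u.1 k i = 0 := by
      intro k i hki hiz
      have h1 := congrFun (congrFun (key i z (lt_of_le_of_ne (hz i) hiz)) k) z
      rw [Matrix.mul_single_apply_same, Matrix.single_mul_apply_of_ne _ _ _ _ _ hki,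
        mul_one] at h1
      exact h1
    have hrow : ∀ j l, l ≠ j → j ≠ a → u.1 j l = 0 := by
      intro j l hlj hja
      have h1 := congrFun (congrFun (key a j (lt_of_le_of_ne (ha j) hja.symm)) a) l
      rw [Matrix.single_mul_apply_same, Matrix.mul_single_apply_of_ne _ _ _ _ _ hlj,
        one_mul] at h1
      exact h1.symm
    refine ⟨u.1 a z, ?_⟩
    apply Subtype.ext
    rw [ev_val haz]
    ext k l
    rw [Matrix.add_apply, Matrix.single_apply]
    by_cases hkl : k = l
    · subst hkl
      rw [hu1, Matrix.one_apply_eq, if_neg fun h => haz (h.1.trans h.2.symm), add_zero]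
    · rw [Matrix.one_apply_ne hkl, zero_add]
      split_ifs with h1
      · rw [← h1.1, ← h1.2]
      · by_cases hl : l = z
        · have hk : k ≠ a := fun hk => h1 ⟨hk.symm, hl.symm⟩
          exact hrow k l (Ne.symm hkl) hk
        · exact hcol k l hkl hl
  · rintro ⟨x, rfl⟩ w hw
    obtain ⟨hw0, hw1⟩ := hw
    rw [← mk_mul, ← mk_mul]
    congr 1
    apply Subtype.ext
    show (ev a z x).1 * w.1 = w.1 * (ev a z x).1
    rw [ev_val haz, Matrix.add_mul, Matrix.mul_add, Matrix.one_mul, Matrix.mul_one]
    congr 1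
    ext k l
    by_cases hk : k = a
    · subst hk
      rw [Matrix.single_mul_apply_same]
      by_cases hl : l = z
      · subst hl
        rw [Matrix.mul_single_apply_same, hw1, hw1, mul_one, one_mul]
      · rw [Matrix.mul_single_apply_of_ne _ _ _ _ _ hl,
          hw0 z l (lt_of_le_of_ne (hz l) hl), mul_zero]
    · rw [Matrix.single_mul_apply_of_ne _ _ _ _ _ hk]
      by_cases hl : l = z
      · subst hl
        rw [Matrix.mul_single_apply_same, hw0 k a (lt_of_le_of_ne (ha k) (Ne.symm hk)),
          zero_mul]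
      · rw [Matrix.mul_single_apply_of_ne _ _ _ _ _ hl]

end Pool.Agent.MPfe8e9bN
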