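import Mathlib
import Pool.Agent.Lib.MP_fe8e9b_al_N.AnD
import Pool.Agent.Lib.MP_fe8e9b_al_N.AnA
import Pool.Agent.Lib.MP_fe8e9b_al_N.AnB

/-!
# MP_fe8e9b_al, groups of bounded height: automorphisms map transvections to transvections
-/

set_option autoImplicit false

open scoped BigOperators MatrixGroups

namespace Pool.Agent.MPfe8e9bN

open Matrix

variable {n : ℕ} {F : Type} [Field F]

/-- The centre of the image of the unitriangular matrices. -/
theorem anc_cen (a z : Fin n) (haz : a ≠ z) (ha : ∀ i, a ≤ i) (hz : ∀ i, i ≤ z) (s : PN n F) :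
    (s ∈ UP n F ∧ ∀ w ∈ UP n F, s * w = w * s) ↔ ∃ x, s = mk (ev a z x) := by
  constructor
  · rintro ⟨h1, h2⟩
    obtain ⟨u, hu, rfl⟩ := (UP_mem s).1 h1
    obtain ⟨x, hx⟩ := (an_center a z haz ha hz u hu).1
      (fun w hw => h2 (mk w) ((UP_mem _).2 ⟨w, hw, rfl⟩))
    exact ⟨x, by rw [hx]⟩
  · rintro ⟨x, rfl⟩
    have hlt : a < z := lt_of_le_of_ne (ha z) haz
    have hu : ev a z x ∈ UT n F := by
      rw [UT_mem, ev_val haz]
      constructor
      · intro i j hij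
        rw [Matrix.add_apply, Matrix.one_apply_ne' hij.ne, zero_add]
        apply Matrix.single_apply_of_ne
        rintro ⟨rfl, rfl⟩
        exact lt_asymm hlt hij
      · intro i
        rw [Matrix.add_apply, Matrix.one_apply_eq]
        rw [Matrix.single_apply_of_ne, add_zero]
        rintro ⟨rfl, h⟩
        exact haz h.symm
    refine ⟨(UP_mem _).2 ⟨_, hu, rfl⟩, fun w hw => ?_⟩
    obtain ⟨w', hw', rfl⟩ := (UP_mem w).1 hw
    exact (an_center a z haz ha hz _ hu).2 ⟨x, rfl⟩ w' hw'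

/-- The image of the elementary subgroup of the first and the last index.

Proof. Take `g₀` from `an_sylow f` and `f₁ t = mk g₀ * f t * (mk g₀)⁻¹`, an automorphism of `PN n F`
which maps `UP n F` onto itself (also for the inverse). So `f₁` maps the elements of `UP n F` which
commute with all elements of `UP n F` onto themselves, and these are the `mk (ev a z x)` by
`an_center` (`t = mk u` with `u ∈ UT n F`). Take `g = g₀⁻¹`. -/
theorem an_first [Finite F] (f : MulAut (PN n F)) (a z : Fin n) (haz : a ≠ z) (ha : ∀ i, a ≤ i)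
    (hz : ∀ i, i ≤ z) : ∃ g : SL(n, F), ∀ t : PN n F,
      (∃ x, f (mk (ev a z x)) = t) ↔ ∃ y, t = mk (g * ev a z y * g⁻¹) := by
  obtain ⟨g₀, hg₀⟩ := an_sylow f
  have hc := anc_cen (F := F) a z haz ha hz
  have hm : ∀ s t : PN n F, mk g₀ * f (s * t) * (mk g₀)⁻¹ =
      (mk g₀ * f s * (mk g₀)⁻¹) * (mk g₀ * f t * (mk g₀)⁻¹) := by
    intro s t
    rw [map_mul]
    group
  have hi : ∀ s t : PN n F, mk g₀ * f s * (mk g₀)⁻¹ = mk g₀ * f t * (mk g₀)⁻¹ → s = t := by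
    intro s t h
    have h1 := mul_left_cancel (mul_right_cancel h)
    exact f.injective h1
  have hs : ∀ t : PN n F, ∃ s, mk g₀ * f s * (mk g₀)⁻¹ = t := by
    intro t
    refine ⟨f.symm ((mk g₀)⁻¹ * t * mk g₀), ?_⟩
    rw [MulEquiv.apply_symm_apply]
    group
  have hf : ∀ s : PN n F, (s ∈ UP n F ∧ ∀ w ∈ UP n F, s * w = w * s) ↔
      (mk g₀ * f s * (mk g₀)⁻¹ ∈ UP n F ∧ ∀ w ∈ UP n F,
        (mk g₀ * f s * (mk g₀)⁻¹) * w = w * (mk g₀ * f s * (mk g₀)⁻¹)) := by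
    intro s
    constructor
    · rintro ⟨h1, h2⟩
      refine ⟨(hg₀ s).1 h1, fun w hw => ?_⟩
      obtain ⟨w', rfl⟩ := hs w
      rw [← hm, ← hm, h2 w' ((hg₀ w').2 hw)]
    · rintro ⟨h1, h2⟩
      refine ⟨(hg₀ s).2 h1, fun w hw => ?_⟩
      apply hi
      rw [hm, hm]
      exact h2 _ ((hg₀ w).1 hw)
  have hk : ∀ s : PN n F, (∃ x, s = mk (ev a z x)) ↔
      ∃ y, mk g₀ * f s * (mk g₀)⁻¹ = mk (ev a z y) := by
    intro s
    rw [← hc, ← hc]
    exact hf s
  refine ⟨g₀⁻¹, fun t => ?_⟩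
  constructor
  · rintro ⟨x, rfl⟩
    obtain ⟨y, hy⟩ := (hk (mk (ev a z x))).1 ⟨x, rfl⟩
    refine ⟨y, ?_⟩
    have h1 : f (mk (ev a z x)) = (mk g₀)⁻¹ * (mk g₀ * f (mk (ev a z x)) * (mk g₀)⁻¹) * mk g₀ := by
      group
    rw [h1, hy, mk_mul, mk_mul, inv_inv, mk_inv]
  · rintro ⟨y, hy⟩
    have h1 : mk g₀ * f (f.symm t) * (mk g₀)⁻¹ = mk (ev a z y) := by
      rw [MulEquiv.apply_symm_apply, hy, mk_mul, mk_mul, inv_inv, mk_inv]
      group
    obtain ⟨x, hx⟩ := (hk (f.symm t)).2 ⟨y, h1⟩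
    exact ⟨x, by rw [← hx, MulEquiv.apply_symm_apply]⟩

/-- The data for one elementary subgroup. -/
theorem anc_one (f : MulAut (PN n F)) (a z : Fin n) (haz : a ≠ z) (g : SL(n, F))
    (hg : ∀ t : PN n F, (∃ x, f (mk (ev a z x)) = t) ↔ ∃ y, t = mk (g * ev a z y * g⁻¹))
    {i j : Fin n} (hij : i ≠ j) : ∃ v φ : Fin n → F, v ≠ 0 ∧ φ ≠ 0 ∧ φ ⬝ᵥ v = 0 ∧
      ∀ t, (∃ x, f (mk (ev i j x)) = t) ↔ t ∈ tvs v φ := by
  obtain ⟨h, s, hs, hh⟩ := ev_trans (F := F) hij haz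
  obtain ⟨b, hb⟩ := mk_surj (f (mk h))
  obtain ⟨r, hr⟩ : ∃ r : SL(n, F), r = b⁻¹ * g := ⟨_, rfl⟩
  have hev : ∀ x, f (mk (ev i j x)) = (mk b)⁻¹ * f (mk (ev a z (s * x))) * mk b := by
    intro x
    rw [← hh x, mk_mul, mk_mul, mk_inv, map_mul, map_mul, map_inv, hb]
    group
  have hinv : (r⁻¹).1 * r.1 = 1 := congrArg Subtype.val (inv_mul_cancel r)
  have hent : ∀ k l : Fin n, (fun m => (r⁻¹).1 k m) ⬝ᵥ (fun m => r.1 m l) =
      (1 : Matrix (Fin n) (Fin n) F) k l := by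
    intro k l
    rw [← hinv, Matrix.mul_apply]
    rfl
  refine ⟨fun k => r.1 k a, fun k => (r⁻¹).1 z k, ?_, ?_, ?_, ?_⟩
  · intro h0
    have h1 := hent a a
    rw [h0, Matrix.one_apply_eq, dotProduct_zero] at h1
    exact zero_ne_one h1
  · intro h0
    have h1 := hent z z
    rw [h0, Matrix.one_apply_eq, zero_dotProduct] at h1
    exact zero_ne_one h1
  · rw [hent z a, Matrix.one_apply_ne haz.symm]
  · intro t
    constructor
    · rintro ⟨x, rfl⟩
      obtain ⟨y, hy⟩ := (hg (f (mk (ev a z (s * x))))).1 ⟨_, rfl⟩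
      refine ⟨r * ev a z y * r⁻¹, y, ev_conj r haz y, ?_⟩
      rw [hev x, hy, hr]
      simp only [mk_mul, mk_inv]
      group
    · rintro ⟨A, y, hA, rfl⟩
      have hA' : A = r * ev a z y * r⁻¹ := Subtype.ext (hA.trans (ev_conj r haz y).symm)
      obtain ⟨x, hx⟩ := (hg (mk (g * ev a z y * g⁻¹))).2 ⟨y, rfl⟩
      refine ⟨s⁻¹ * x, ?_⟩
      rw [hev, mul_inv_cancel_left₀ hs, hx, hA', hr]
      simp only [mk_mul, mk_inv]
      group

/-- The data of the images of the elementary subgroups.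

Proof. `a = 0`, `z = n - 1`, `g` from `an_first`. For `i ≠ j` take `h`, `s` with
`h * ev i j x * h⁻¹ = ev a z (s * x)` (`ev_trans`), `b` with `mk b = f (mk h)`. So
`f (mk (ev i j x)) = (mk b)⁻¹ * f (mk (ev a z (s * x))) * mk b`, and the images of `mk (ev i j x)`
are the classes of `r * ev a z y * r⁻¹`, `r = b⁻¹ * g`. `ev_conj`: `v i j` is the column `a` of `r`,
`φ i j` the row `z` of `r⁻¹`; these are nonzero (`r` is invertible), the product is the entry
`(z, a)` of `r⁻¹ * r = 1`. -/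
theorem an_td [Finite F] (hn : 2 ≤ n) (f : MulAut (PN n F)) : ∃ v φ, TD f v φ := by
  have hn0 : 0 < n := by omega
  obtain ⟨g, hg⟩ := an_first f (⟨0, hn0⟩ : Fin n) (⟨n - 1, by omega⟩ : Fin n)
    (by
      intro h
      have := congrArg Fin.val h
      simp only at this
      omega)
    (fun i => Fin.le_def.2 (Nat.zero_le _))
    (fun i => Fin.le_def.2 (by have := i.2; simp only; omega))
  have haz : (⟨0, hn0⟩ : Fin n) ≠ ⟨n - 1, by omega⟩ := by
    intro h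
    have := congrArg Fin.val h
    simp only at this
    omega
  have h1 : ∀ i j : Fin n, ∃ v φ : Fin n → F, i ≠ j → v ≠ 0 ∧ φ ≠ 0 ∧ φ ⬝ᵥ v = 0 ∧
      ∀ t, (∃ x, f (mk (ev i j x)) = t) ↔ t ∈ tvs v φ := by
    intro i j
    by_cases hij : i = j
    · exact ⟨0, 0, fun h => absurd hij h⟩
    · obtain ⟨v, φ, h⟩ := anc_one f _ _ haz g hg hij
      exact ⟨v, φ, fun _ => h⟩
  choose v φ h using h1
  exact ⟨v, φ, fun i j hij => (h i j hij).1, fun i j hij => (h i j hij).2.1,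
    fun i j hij => (h i j hij).2.2.1, fun i j hij => (h i j hij).2.2.2⟩

end Pool.Agent.MPfe8e9bN
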