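import Mathlib
import Pool.Agent.Lib.MP_fe8e9b_al_N.AnD
import Pool.Agent.Lib.MP_fe8e9b_al_N.AnB

/-!
# MP_fe8e9b_al, groups of bounded height: commuting transvections and their commutators
-/

set_option autoImplicit false

open scoped BigOperators MatrixGroups

namespace Pool.Agent.MPfe8e9bN

open Matrix

variable {n : ℕ} {F : Type} [Field F]

private theorem ane_ext {M N : Matrix (Fin n) (Fin n) F} (h : ∀ u, M *ᵥ u = N *ᵥ u) : M = N := by
  apply Matrix.toLin'.injective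
  refine LinearMap.ext fun u => ?_
  rw [Matrix.toLin'_apply, Matrix.toLin'_apply, h]

private theorem ane_vm (v φ u : Fin n → F) : vecMulVec v φ *ᵥ u = (φ ⬝ᵥ u) • v := by
  ext i
  simp only [mulVec, vecMulVec_apply, dotProduct, Pi.smul_apply, smul_eq_mul, Finset.sum_mul]
  refine Finset.sum_congr rfl fun j _ => ?_
  ring

private theorem ane_act (x : F) (v φ u : Fin n → F) :
    (1 + x • vecMulVec v φ) *ᵥ u = u + (x * (φ ⬝ᵥ u)) • v := by
  rw [Matrix.add_mulVec, Matrix.one_mulVec, Matrix.smul_mulVec, ane_vm, smul_smul]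

private theorem ane_exists {φ : Fin n → F} (h : φ ≠ 0) : ∃ u : Fin n → F, φ ⬝ᵥ u ≠ 0 := by
  obtain ⟨i, hi⟩ := Function.ne_iff.1 h
  refine ⟨Pi.single i 1, ?_⟩
  rw [dotProduct_single_one]
  exact hi

private theorem ane_smul {c : F} {v : Fin n → F} (hv : v ≠ 0) (h : c • v = 0) : c = 0 := by
  rcases smul_eq_zero.1 h with h1 | h1
  · exact h1
  · exact absurd h1 hv

private theorem ane_ev {i j : Fin n} (h : i ≠ j) (x : F) (u : Fin n → F) :
    (ev i j x).1 *ᵥ u = u + (x * u j) • Pi.single i 1 := by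
  rw [ev_val h, Matrix.add_mulVec, Matrix.one_mulVec]
  congr 1
  ext t
  simp only [mulVec, dotProduct, Matrix.single_apply, Pi.smul_apply, smul_eq_mul, Pi.single_apply]
  rw [Finset.sum_eq_single j]
  · by_cases ht : i = t
    · rw [if_pos ⟨ht, rfl⟩, if_pos ht.symm, mul_one]
    · rw [if_neg fun h => ht h.1, if_neg fun h => ht h.symm, zero_mul, mul_zero]
  · intro b _ hb
    rw [if_neg fun h => hb h.2.symm, zero_mul]
  · intro hb
    exact absurd (Finset.mem_univ j) hb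

private theorem ane_evcomm {i j k l : Fin n} (hij : i ≠ j) (hkl : k ≠ l) (hjk : j ≠ k)
    (hli : l ≠ i) (x y : F) : ev i j x * ev k l y = ev k l y * ev i j x := by
  apply Subtype.ext
  show (ev i j x).1 * (ev k l y).1 = (ev k l y).1 * (ev i j x).1
  rw [ev_val hij, ev_val hkl, Matrix.add_mul, Matrix.mul_add, Matrix.mul_add, Matrix.add_mul,
    Matrix.mul_add, Matrix.mul_add, Matrix.single_mul_single_of_ne _ _ _ _ hjk,
    Matrix.single_mul_single_of_ne _ _ _ _ hli]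
  simp only [Matrix.one_mul, Matrix.mul_one, add_zero]
  abel

/-- Two rank one maps. -/
private theorem ane_rk {α β : F} (hβ : β ≠ 0) {v v' ψ φ' : Fin n → F} (hv : v' ≠ 0)
    (hφ : φ' ≠ 0) (H : ∀ u, (α * (ψ ⬝ᵥ u)) • v = (β * (φ' ⬝ᵥ u)) • v') :
    (∃ c : F, v' = c • v) ∧ ∃ c : F, φ' = c • ψ := by
  constructor
  · obtain ⟨u, hu⟩ := ane_exists hφ
    refine ⟨(β * (φ' ⬝ᵥ u))⁻¹ * (α * (ψ ⬝ᵥ u)), ?_⟩
    rw [mul_smul, H u, smul_smul, inv_mul_cancel₀ (mul_ne_zero hβ hu), one_smul]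
  · obtain ⟨t, ht⟩ := Function.ne_iff.1 hv
    have ht' : v' t ≠ 0 := ht
    refine ⟨(β * v' t)⁻¹ * (α * v t), ?_⟩
    ext l
    have h1 := congrFun (H (Pi.single l 1)) t
    rw [dotProduct_single_one, dotProduct_single_one] at h1
    simp only [Pi.smul_apply, smul_eq_mul] at h1 ⊢
    rw [mul_assoc, mul_comm (α * v t)]
    rw [eq_inv_mul_iff_mul_eq₀ (mul_ne_zero hβ ht')]
    linear_combination -h1

/-- Two equations have a common nonzero solution. Proof. The kernel of the linear map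
`u ↦ (φ ⬝ᵥ u, ψ ⬝ᵥ u)` to `F × F` (or `Fin 2 → F`), `LinearMap.ker_ne_bot_of_finrank_lt`. -/
theorem an_com (hn : 3 ≤ n) (φ ψ : Fin n → F) :
    ∃ u : Fin n → F, u ≠ 0 ∧ φ ⬝ᵥ u = 0 ∧ ψ ⬝ᵥ u = 0 := by
  have h1 : LinearMap.ker (Matrix.mulVecLin (Matrix.of ![φ, ψ])) ≠ ⊥ := by
    apply LinearMap.ker_ne_bot_of_finrank_lt
    rw [Module.finrank_fin_fun, Module.finrank_fin_fun]
    omega
  obtain ⟨u, hu, hu0⟩ := Submodule.exists_mem_ne_zero_of_ne_bot h1
  rw [LinearMap.mem_ker, Matrix.mulVecLin_apply] at hu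
  exact ⟨u, hu0, congrFun hu 0, congrFun hu 1⟩

/-- The action of a transvection. -/
theorem an_mulVec (A : SL(n, F)) {x : F} {v φ : Fin n → F} (hA : A.1 = 1 + x • vecMulVec v φ)
    (u : Fin n → F) : A.1 *ᵥ u = u + (x * (φ ⬝ᵥ u)) • v := by
  rw [hA, ane_act]

/-- Commuting transvections.

Proof. `mk_eq`: `A B = c • B A`. A common solution `u` (`an_com`) is fixed by both, so `c = 1`.
Expanding, `(x y φ(w)) • v ψ = (x y ψ(v)) • w φ` (as `vecMulVec`). If `φ(w) ≠ 0` then apply both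
sides to a vector `u` with `ψ(u) ≠ 0`: `v = c' • w`, and `φ(v) = 0` gives `c' φ(w) = 0`, so `c' =
0` and `v = 0`, a contradiction. So `φ(w) = 0`, and then `ψ(v) = 0` since `w`, `φ` are nonzero. -/
theorem an_commute (hn : 3 ≤ n) {v φ w ψ : Fin n → F} (hv : v ≠ 0) (hφ : φ ≠ 0) (hw : w ≠ 0)
    (hψ : ψ ≠ 0) (h1 : φ ⬝ᵥ v = 0) (h2 : ψ ⬝ᵥ w = 0) {x y : F} (hx : x ≠ 0) (hy : y ≠ 0)
    {A B : SL(n, F)} (hA : A.1 = 1 + x • vecMulVec v φ) (hB : B.1 = 1 + y • vecMulVec w ψ)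
    (h : mk A * mk B = mk B * mk A) : φ ⬝ᵥ w = 0 ∧ ψ ⬝ᵥ v = 0 := by
  rw [← mk_mul, ← mk_mul, mk_eq] at h
  obtain ⟨c, -, hc⟩ := h
  have hAu := an_mulVec A hA
  have hBu := an_mulVec B hB
  have hc1 : ∀ u, B.1 *ᵥ (A.1 *ᵥ u) = c • (A.1 *ᵥ (B.1 *ᵥ u)) := by
    intro u
    have h3 : (B * A).1 *ᵥ u = (c • (A * B).1) *ᵥ u := by rw [hc]
    rw [Matrix.smul_mulVec] at h3
    have h4 : (B * A).1 = B.1 * A.1 := rfl
    have h5 : (A * B).1 = A.1 * B.1 := rfl
    rw [h4, h5, ← Matrix.mulVec_mulVec, ← Matrix.mulVec_mulVec] at h3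
    exact h3
  obtain ⟨u₀, hu0, hu1, hu2⟩ := an_com hn φ ψ
  have hcc : c = 1 := by
    have h3 := hc1 u₀
    rw [hAu, hu1, mul_zero, zero_smul, add_zero, hBu, hu2, mul_zero, zero_smul, add_zero, hAu,
      hu1, mul_zero, zero_smul, add_zero] at h3
    have h4 : (c - 1) • u₀ = 0 := by rw [sub_smul, one_smul, ← h3, sub_self]
    exact sub_eq_zero.1 (ane_smul hu0 h4)
  have key : ∀ u, ((φ ⬝ᵥ u) * (ψ ⬝ᵥ v)) • w = ((ψ ⬝ᵥ u) * (φ ⬝ᵥ w)) • v := by
    intro u
    have h3 := hc1 u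
    rw [hcc, one_smul, hAu, hBu, hBu, hAu, dotProduct_add, dotProduct_add, dotProduct_smul,
      dotProduct_smul, smul_eq_mul, smul_eq_mul] at h3
    have h4 : (x * y) • (((φ ⬝ᵥ u) * (ψ ⬝ᵥ v)) • w - ((ψ ⬝ᵥ u) * (φ ⬝ᵥ w)) • v) = 0 := by
      rw [← sub_eq_zero] at h3
      rw [← h3]
      module
    rcases smul_eq_zero.1 h4 with h5 | h5
    · exact absurd h5 (mul_ne_zero hx hy)
    · exact sub_eq_zero.1 h5
  obtain ⟨u1, hu1'⟩ := ane_exists hφ
  obtain ⟨u2, hu2'⟩ := ane_exists hψ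
  have h5 : (ψ ⬝ᵥ v) * (φ ⬝ᵥ w) = 0 := by
    have h6 := congrArg (fun t => φ ⬝ᵥ t) (key u1)
    simp only [dotProduct_smul, smul_eq_mul, h1, mul_zero] at h6
    rw [mul_assoc] at h6
    exact (mul_eq_zero.1 h6).resolve_left hu1'
  rcases mul_eq_zero.1 h5 with h6 | h6
  · have h7 := key u2
    rw [h6, mul_zero, zero_smul] at h7
    have h8 := ane_smul hv h7.symm
    exact ⟨(mul_eq_zero.1 h8).resolve_left hu2', h6⟩
  · have h7 := key u1
    rw [h6, mul_zero, zero_smul] at h7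
    have h8 := ane_smul hw h7
    exact ⟨h6, (mul_eq_zero.1 h8).resolve_left hu1'⟩

/-- The elements of the images of the elementary subgroups. Proof. `TD.img`; if the parameter of
the transvection is zero then `f (mk (ev i j x)) = 1`, so `x = 0` (`mk_ev`). -/
theorem an_el {f : MulAut (PN n F)} {v φ : Fin n → Fin n → (Fin n → F)} (h : TD f v φ)
    {i j : Fin n} (hij : i ≠ j) {x : F} (hx : x ≠ 0) : ∃ (A : SL(n, F)) (y : F), y ≠ 0 ∧
      A.1 = 1 + y • vecMulVec (v i j) (φ i j) ∧ f (mk (ev i j x)) = mk A := by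
  obtain ⟨A, y, hA, h1⟩ := (h.img i j hij _).1 ⟨x, rfl⟩
  refine ⟨A, y, ?_, hA, h1⟩
  rintro rfl
  rw [zero_smul, add_zero] at hA
  have h2 : A = 1 := Subtype.ext hA
  rw [h2, mk_one] at h1
  have h3 : mk (ev i j x) = 1 := by
    apply f.injective
    rw [h1, map_one]
  have h4 : mk (ev i j x) = mk (ev i j (0 : F)) := by rw [h3, ev_zero, mk_one]
  exact hx (mk_ev hij hij hx h4).2.2

/-- The two types of commutators.

Proof. Let `A, B, C` be from `an_el` for `ev i j 1`, `ev j k 1`, `ev i k 1`, with parameters `x,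
y, z`, vectors `v, φ`, `w, ψ`, `v'', φ''`. By `ev_comm` (with `x = y = 1`) `mk A * mk B = mk C *
mk B * mk A`, and `ev i k 1` commutes with `ev i j 1` and `ev j k 1`, so `φ''(v) = 0`, `φ(v'') =
0`, `φ''(w) = 0`, `ψ(v'') = 0` (`an_commute`). So `A B = c • (C B A)`, where `A B = 1 + x v φ + y
w ψ + x y φ(w) v ψ` and `C B A = 1 + x v φ + y w ψ + x y ψ(v) w φ + z v'' φ''`. Applied to `v''`
both matrices give `v''`, so `c = 1`, and `x y (φ(w) v ψ - ψ(v) w φ) = z v'' φ''`. If `φ(w)` and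
`ψ(v)` are nonzero then `v, w` are linearly independent (`w = c' v` gives `φ(w) = 0`) and so are
`φ, ψ`, so the left side has rank two, a contradiction: choose `u` with `φ(u) = 0`, `ψ(u) ≠ 0`
(for example `u = v` : `φ(v) = 0`, `ψ(v) ≠ 0`) and `u'` with `ψ(u') = 0`, `φ(u') ≠ 0` (`u' = w`);
applying both sides to `v`, `w` gives that `v` and `w` are multiples of `v''`, so `w` is a
multiple of `v`. They are not both zero, as `z v'' φ'' ≠ 0`. In the first case `x y φ(w) v ψ = z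
v'' φ''` gives that `v''` is a multiple of `v` and `φ''` a multiple of `ψ`; the second case is
similar. -/
theorem an_rel (hn : 3 ≤ n) {f : MulAut (PN n F)} {v φ : Fin n → Fin n → (Fin n → F)}
    (h : TD f v φ) {i j k : Fin n} (hij : i ≠ j) (hjk : j ≠ k) (hik : i ≠ k) :
    (φ i j ⬝ᵥ v j k ≠ 0 ∧ φ j k ⬝ᵥ v i j = 0 ∧ (∃ c : F, v i k = c • v i j) ∧
      ∃ c : F, φ i k = c • φ j k) ∨
    (φ i j ⬝ᵥ v j k = 0 ∧ φ j k ⬝ᵥ v i j ≠ 0 ∧ (∃ c : F, v i k = c • v j k) ∧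
      ∃ c : F, φ i k = c • φ i j) := by
  obtain ⟨A, x, hx, hA, hfA⟩ := an_el h hij (one_ne_zero (α := F))
  obtain ⟨B, y, hy, hB, hfB⟩ := an_el h hjk (one_ne_zero (α := F))
  obtain ⟨C, z, hz, hC, hfC⟩ := an_el h hik (one_ne_zero (α := F))
  have hAu := an_mulVec A hA
  have hBu := an_mulVec B hB
  have hCu := an_mulVec C hC
  have cAC : mk A * mk C = mk C * mk A := by
    rw [← hfA, ← hfC, ← map_mul, ← map_mul, ← mk_mul, ← mk_mul,
      ane_evcomm hij hik hij.symm hik.symm]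
  have cBC : mk B * mk C = mk C * mk B := by
    rw [← hfB, ← hfC, ← map_mul, ← map_mul, ← mk_mul, ← mk_mul,
      ane_evcomm hjk hik hik.symm hjk.symm]
  obtain ⟨a1, a2⟩ := an_commute hn (h.nv i j hij) (h.np i j hij) (h.nv i k hik) (h.np i k hik)
    (h.inc i j hij) (h.inc i k hik) hx hz hA hC cAC
  obtain ⟨b1, b2⟩ := an_commute hn (h.nv j k hjk) (h.np j k hjk) (h.nv i k hik) (h.np i k hik)
    (h.inc j k hjk) (h.inc i k hik) hy hz hB hC cBC
  have i1 := h.inc i j hij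
  have i2 := h.inc j k hjk
  have i3 := h.inc i k hik
  have n1 := h.nv i j hij
  have n2 := h.nv j k hjk
  have n3 := h.nv i k hik
  have n3' := h.np i k hik
  have hrel : mk (A * B) = mk (C * B * A) := by
    rw [mk_mul, mk_mul, mk_mul, ← hfA, ← hfB, ← hfC, ← map_mul, ← map_mul, ← map_mul,
      ← mk_mul, ← mk_mul, ← mk_mul]
    congr 2
    have h1 := ev_comm hij hjk hik (1 : F) 1
    rw [mul_one] at h1
    rw [← h1]
    group
  rw [mk_eq] at hrel
  obtain ⟨c, -, hc⟩ := hrel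
  have hc1 : ∀ u, C.1 *ᵥ (B.1 *ᵥ (A.1 *ᵥ u)) = c • (A.1 *ᵥ (B.1 *ᵥ u)) := by
    intro u
    have h3 : (C * B * A).1 *ᵥ u = (c • (A * B).1) *ᵥ u := by rw [hc]
    rw [Matrix.smul_mulVec] at h3
    have h4 : (C * B * A).1 = C.1 * B.1 * A.1 := rfl
    have h5 : (A * B).1 = A.1 * B.1 := rfl
    rw [h4, h5, ← Matrix.mulVec_mulVec, ← Matrix.mulVec_mulVec, ← Matrix.mulVec_mulVec] at h3
    exact h3
  generalize v i j = v1 at *
  generalize v j k = v2 at *
  generalize v i k = v3 at *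
  generalize φ i j = p1 at *
  generalize φ j k = p2 at *
  generalize φ i k = p3 at *
  have hcc : c = 1 := by
    have h3 := hc1 v3
    rw [hAu, a1, mul_zero, zero_smul, add_zero, hBu, b1, mul_zero, zero_smul, add_zero, hCu,
      i3, mul_zero, zero_smul, add_zero, hAu, a1, mul_zero, zero_smul, add_zero] at h3
    have h4 : (c - 1) • v3 = 0 := by rw [sub_smul, one_smul, ← h3, sub_self]
    exact sub_eq_zero.1 (ane_smul n3 h4)
  have key : ∀ u, (x * y * (p1 ⬝ᵥ v2) * (p2 ⬝ᵥ u)) • v1 =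
      (x * y * (p2 ⬝ᵥ v1) * (p1 ⬝ᵥ u)) • v2 + (z * (p3 ⬝ᵥ u)) • v3 := by
    intro u
    have h3 := hc1 u
    rw [hcc, one_smul, hAu, hBu, hCu, hBu, hAu] at h3
    simp only [dotProduct_add, dotProduct_smul, smul_eq_mul, a2, b2, mul_zero, add_zero] at h3
    rw [← sub_eq_zero] at h3 ⊢
    rw [← neg_eq_zero, ← h3]
    module
  have hpq : (p1 ⬝ᵥ v2) * (p2 ⬝ᵥ v1) = 0 := by
    have h3 := key v1
    rw [i1, a2, mul_zero, mul_zero, zero_smul, zero_smul, add_zero] at h3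
    have h4 := ane_smul n1 h3
    rw [mul_assoc] at h4
    exact (mul_eq_zero.1 h4).resolve_left (mul_ne_zero hx hy)
  by_cases hp : p1 ⬝ᵥ v2 = 0
  · right
    have hq : p2 ⬝ᵥ v1 ≠ 0 := by
      intro hq
      obtain ⟨u, hu⟩ := ane_exists n3'
      have h3 := key u
      rw [hp, hq, mul_zero, zero_mul, zero_mul, zero_smul, zero_smul, zero_add] at h3
      exact mul_ne_zero hz hu (ane_smul n3 h3.symm)
    obtain ⟨r1, r2⟩ := ane_rk (α := -(x * y * (p2 ⬝ᵥ v1))) (v := v2) (ψ := p1) hz n3 n3'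
      (fun u => by
        have h3 := key u
        rw [hp, mul_zero, zero_mul, zero_smul] at h3
        rw [neg_mul, neg_smul]
        exact neg_eq_of_add_eq_zero_right h3.symm)
    exact ⟨hp, hq, r1, r2⟩
  · left
    have hq : p2 ⬝ᵥ v1 = 0 := (mul_eq_zero.1 hpq).resolve_left hp
    obtain ⟨r1, r2⟩ := ane_rk (α := x * y * (p1 ⬝ᵥ v2)) (v := v1) (ψ := p2) hz n3 n3'
      (fun u => by
        have h3 := key u
        rw [hq, mul_zero, zero_mul, zero_smul, zero_add] at h3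
        exact h3)
    exact ⟨hp, hq, r1, r2⟩

/-- Opposite elementary subgroups.

Proof. Let `a = ev i k 1`, `b = ev k i 1`, `f (mk a) = mk A`, `A = 1 + x v φ`, `f (mk b) = mk B`,
`B = 1 + y w ψ` (`an_el`), and suppose that `φ(w) = 0`. `B⁻¹ = 1 - y w ψ`, so
`B A B⁻¹ = 1 + x (v + y ψ(v) w) φ`, which commutes with `A` as `φ(v) = φ(w) = 0`. Since `f` is
injective, `mk (b a b⁻¹)` commutes with `mk a`: `b a b⁻¹ a = c • (a b a b⁻¹)` with `c ≠ 0`
(`mk_eq`). Apply this to the vector `e_i`: `b a b⁻¹ a e_i = - e_k` and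
`a b a b⁻¹ e_i = - e_i - e_k`, a contradiction. -/
theorem an_opp {f : MulAut (PN n F)} {v φ : Fin n → Fin n → (Fin n → F)} (h : TD f v φ)
    {i k : Fin n} (hik : i ≠ k) : φ i k ⬝ᵥ v k i ≠ 0 := by
  intro h0
  obtain ⟨A, x, hx, hA, hfA⟩ := an_el h hik (one_ne_zero (α := F))
  obtain ⟨B, y, hy, hB, hfB⟩ := an_el h hik.symm (one_ne_zero (α := F))
  have i1 := h.inc i k hik
  have hD : (B * A * B⁻¹).1 = 1 + x • vecMulVec (v i k + (y * (φ k i ⬝ᵥ v i k)) • v k i) (φ i k) := by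
    have h1 : (1 + x • vecMulVec (v i k + (y * (φ k i ⬝ᵥ v i k)) • v k i) (φ i k)) * B.1 =
        B.1 * A.1 := by
      apply ane_ext
      intro u
      rw [← Matrix.mulVec_mulVec, ← Matrix.mulVec_mulVec, an_mulVec B hB, ane_act,
        an_mulVec A hA, an_mulVec B hB]
      simp only [dotProduct_add, dotProduct_smul, smul_eq_mul, h0, mul_zero, add_zero]
      module
    have h2 : B.1 * B⁻¹.1 = 1 := congrArg Subtype.val (mul_inv_cancel B)
    have h3 : (B * A * B⁻¹).1 = B.1 * A.1 * B⁻¹.1 := rfl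
    rw [h3, ← h1, Matrix.mul_assoc, h2, Matrix.mul_one]
  have hcm : B * A * B⁻¹ * A = A * (B * A * B⁻¹) := by
    apply Subtype.ext
    show (B * A * B⁻¹).1 * A.1 = A.1 * (B * A * B⁻¹).1
    apply ane_ext
    intro u
    rw [← Matrix.mulVec_mulVec, ← Matrix.mulVec_mulVec, hD, ane_act, an_mulVec A hA, ane_act,
      an_mulVec A hA]
    simp only [dotProduct_add, dotProduct_smul, smul_eq_mul, h0, i1, mul_zero, add_zero]
    module
  have hmk : mk (ev k i 1 * ev i k 1 * (ev k i 1)⁻¹ * ev i k (1 : F)) =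
      mk (ev i k 1 * (ev k i 1 * ev i k 1 * (ev k i 1)⁻¹)) := by
    apply f.injective
    have h1 := congrArg mk hcm
    simp only [mk_mul, mk_inv, map_mul, map_inv, hfA, hfB] at h1 ⊢
    exact h1
  rw [mk_eq, ev_inv] at hmk
  obtain ⟨c, -, hc⟩ := hmk
  have e1 : ∀ g g' : SL(n, F), (g * g').1 = g.1 * g'.1 := fun _ _ => rfl
  have h2 : (ev i k 1 * (ev k i 1 * ev i k 1 * ev k i (-1 : F))).1 *ᵥ Pi.single i 1 =
      (c • (ev k i 1 * ev i k 1 * ev k i (-1) * ev i k (1 : F)).1) *ᵥ Pi.single i 1 := by rw [hc]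
  have hk : (Pi.single i 1 : Fin n → F) k = 0 := Pi.single_eq_of_ne hik.symm 1
  have hi : (Pi.single k 1 : Fin n → F) i = 0 := Pi.single_eq_of_ne hik 1
  have hii : (Pi.single i 1 : Fin n → F) i = 1 := Pi.single_eq_same i 1
  have hkk : (Pi.single k 1 : Fin n → F) k = 1 := Pi.single_eq_same k 1
  rw [Matrix.smul_mulVec] at h2
  simp only [e1, ← Matrix.mulVec_mulVec] at h2
  have h3 := congrFun h2 i
  simp only [ane_ev hik, ane_ev hik.symm, Pi.add_apply, Pi.smul_apply, smul_eq_mul, hk, hi, hii,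
    hkk] at h3
  ring_nf at h3
  revert h3
  simp

/-- Different elementary subgroups have different images.

Proof. `tvs (v i j) (φ i j)` contains `f (mk (ev i j 1))`, and is contained in `tvs (v k l) (φ k
l)`, so `f (mk (ev i j 1)) = f (mk (ev k l x))` for some `x` (`TD.img`); `mk_ev`. -/
theorem an_dif {f : MulAut (PN n F)} {v φ : Fin n → Fin n → (Fin n → F)} (h : TD f v φ)
    {i j k l : Fin n} (hij : i ≠ j) (hkl : k ≠ l) (h1 : ∃ c : F, v i j = c • v k l)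
    (h2 : ∃ c : F, φ i j = c • φ k l) : i = k ∧ j = l := by
  obtain ⟨A, y, hy, hA, hfA⟩ := an_el h hij (one_ne_zero (α := F))
  obtain ⟨c, hc⟩ := h1
  obtain ⟨d, hd⟩ := h2
  have hA' : A.1 = 1 + (y * c * d) • vecMulVec (v k l) (φ k l) := by
    rw [hA, hc, hd]
    congr 1
    ext s t
    simp only [Matrix.smul_apply, vecMulVec_apply, Pi.smul_apply, smul_eq_mul]
    ring
  obtain ⟨x, hx⟩ := (h.img k l hkl (mk A)).2 ⟨A, y * c * d, hA', rfl⟩
  have h3 : mk (ev i j (1 : F)) = mk (ev k l x) := by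
    apply f.injective
    rw [hx, hfA]
  obtain ⟨h4, h5, -⟩ := mk_ev hij hkl one_ne_zero h3
  exact ⟨h4, h5⟩

end Pool.Agent.MPfe8e9bN
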