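import Mathlib

/-!
# MP_fe8e9b_al, groups of bounded height: the two types of automorphisms of `PSL_n`
-/

set_option autoImplicit false

open scoped BigOperators

namespace Pool.Agent.MPfe8e9bN

open Matrix

/-- All triples have the same type.

Proof. Write `v ~ w` if `v = c • w` for some `c`; for nonzero vectors this is symmetric and
transitive. Let `S i j k` be `φ i j ⬝ᵥ v j k ≠ 0` (`i, j, k` distinct; otherwise, by `h1`, the
triple is of the second type). (a) `S i j k` implies `S j k i`: otherwise, by `h1` for `(j, k,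
i)`, `φ j k ⬝ᵥ v k i = 0`, and `φ i k ~ φ j k` (`h1` for `(i, j, k)`, first type), so `φ i k ⬝ᵥ v
k i = 0`, which contradicts `h2`. (b) `S i j k` implies `S j i k`: otherwise, by `h1` for `(j, i,
k)`, `v j k ~ v i k`, and `v i k ~ v i j`, so `φ i j ⬝ᵥ v j k` is a multiple of `φ i j ⬝ᵥ v i j =
0`, a contradiction. (c) `S i j k` implies `S i j l` for `l` different from `i, j, k`: otherwise
`v i l ~ v j l` and `φ i l ~ φ i j`. If `(i, k, l)` is of the first type then `v i l ~ v i k ~ v i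
j`, and with `φ i l ~ φ i j`, `h3` gives `l = j`, a contradiction. If it is of the second type
then `φ i l ~ φ i k`, so `φ i k ~ φ i j`, and `v i k ~ v i j`, so `h3` gives `k = j`. So if there
is one triple with `S` then all triples have `S`: by (a) and (b) the property is invariant under
permutations of the triple. Fix `(i, j, k)` with `S`. By (c), `S i j l` for all `l`. By
permutation `S i l j`, so by (c) `S i l m` for all `l, m`. By permutation `S l m i`, so by (c) `S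
l m r` for all `l, m, r` with `l, m ≠ i`; if `i` is `l` or `m` then use permutations of `S i l m`.
-/
theorem an_types {n : ℕ} {F : Type} [Field F] (v φ : Fin n → Fin n → (Fin n → F))
    (hv : ∀ i j, i ≠ j → v i j ≠ 0) (hφ : ∀ i j, i ≠ j → φ i j ≠ 0)
    (h0 : ∀ i j, i ≠ j → φ i j ⬝ᵥ v i j = 0)
    (h1 : ∀ i j k, i ≠ j → j ≠ k → i ≠ k →
      (φ i j ⬝ᵥ v j k ≠ 0 ∧ φ j k ⬝ᵥ v i j = 0 ∧ (∃ c : F, v i k = c • v i j) ∧
        ∃ c : F, φ i k = c • φ j k) ∨
      (φ i j ⬝ᵥ v j k = 0 ∧ φ j k ⬝ᵥ v i j ≠ 0 ∧ (∃ c : F, v i k = c • v j k) ∧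
        ∃ c : F, φ i k = c • φ i j))
    (h2 : ∀ i k, i ≠ k → φ i k ⬝ᵥ v k i ≠ 0)
    (h3 : ∀ i j k l, i ≠ j → k ≠ l → (∃ c : F, v i j = c • v k l) →
      (∃ c : F, φ i j = c • φ k l) → i = k ∧ j = l) :
    (∀ i j k, i ≠ j → j ≠ k → i ≠ k → φ i j ⬝ᵥ v j k ≠ 0) ∨
      ∀ i j k, i ≠ j → j ≠ k → i ≠ k → φ j k ⬝ᵥ v i j ≠ 0 := by
  have hsm : ∀ {x y z : Fin n → F} {c : F}, x = c • y → z ⬝ᵥ y = 0 → z ⬝ᵥ x = 0 := by
    intro x y z c h h'
    rw [h, dotProduct_smul, h', smul_zero]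
  have hms : ∀ {x y z : Fin n → F} {c : F}, x = c • y → y ⬝ᵥ z = 0 → x ⬝ᵥ z = 0 := by
    intro x y z c h h'
    rw [h, smul_dotProduct, h', smul_zero]
  have hcan : ∀ {x y z : Fin n → F} {c e : F}, x ≠ 0 → x = c • y → x = e • z →
      y = (c⁻¹ * e) • z := by
    intro x y z c e h h' h''
    have hc : c ≠ 0 := by
      rintro rfl
      exact h (by rw [h', zero_smul])
    rw [mul_smul, ← h'', h', smul_smul, inv_mul_cancel₀ hc, one_smul]
  -- (a)
  have ha : ∀ i j k, i ≠ j → j ≠ k → i ≠ k → φ i j ⬝ᵥ v j k ≠ 0 → φ j k ⬝ᵥ v k i ≠ 0 := by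
    intro i j k hij hjk hik hS hS'
    rcases h1 i j k hij hjk hik with h | h
    · obtain ⟨_, _, _, c, hc⟩ := h
      exact h2 i k hik (hms hc hS')
    · exact hS h.1
  -- (b)
  have hb : ∀ i j k, i ≠ j → j ≠ k → i ≠ k → φ i j ⬝ᵥ v j k ≠ 0 → φ j i ⬝ᵥ v i k ≠ 0 := by
    intro i j k hij hjk hik hS hS'
    rcases h1 i j k hij hjk hik with h | h
    · obtain ⟨_, _, ⟨c, hc⟩, _⟩ := h
      rcases h1 j i k hij.symm hik hjk with h' | h'
      · exact h'.1 hS'
      · obtain ⟨_, _, ⟨c', hc'⟩, _⟩ := h'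
        exact hS (hsm hc' (hsm hc (h0 i j hij)))
    · exact hS h.1
  -- (c)
  have hc : ∀ i j k l, i ≠ j → j ≠ k → i ≠ k → l ≠ i → l ≠ j → φ i j ⬝ᵥ v j k ≠ 0 →
      φ i j ⬝ᵥ v j l ≠ 0 := by
    intro i j k l hij hjk hik hli hlj hS hS'
    rcases eq_or_ne l k with rfl | hlk
    · exact hS hS'
    rcases h1 i j k hij hjk hik with h | h
    · obtain ⟨_, _, ⟨c, hc⟩, _⟩ := h
      rcases h1 i j l hij hlj.symm hli.symm with h' | h'
      · exact h'.1 hS'
      · obtain ⟨_, _, _, c', hc'⟩ := h'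
        rcases h1 i k l hik hlk.symm hli.symm with h'' | h''
        · obtain ⟨_, _, ⟨e, he⟩, _⟩ := h''
          refine hlj (h3 i l i j hli.symm hij ⟨e * c, ?_⟩ ⟨c', hc'⟩).2
          rw [mul_smul, ← hc, he]
        · obtain ⟨_, _, _, e, he⟩ := h''
          exact hjk (h3 i k i j hik hij ⟨c, hc⟩
            ⟨_, hcan (hφ i l hli.symm) he hc'⟩).2.symm
    · exact hS h.1
  by_cases hex : ∃ i j k, i ≠ j ∧ j ≠ k ∧ i ≠ k ∧ φ i j ⬝ᵥ v j k ≠ 0
  · refine Or.inl ?_
    -- one triple at `i` gives all triples at `i`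
    have key : ∀ i, (∃ j k, i ≠ j ∧ j ≠ k ∧ i ≠ k ∧ φ i j ⬝ᵥ v j k ≠ 0) →
        ∀ l m, i ≠ l → l ≠ m → i ≠ m → φ i l ⬝ᵥ v l m ≠ 0 := by
      rintro i ⟨j, k, hij, hjk, hik, hS⟩ l m hil hlm him
      rcases eq_or_ne l j with rfl | hlj
      · exact hc i l k m hij hjk hik him.symm hlm.symm hS
      · have h4 : φ i j ⬝ᵥ v j l ≠ 0 := hc i j k l hij hjk hik hil.symm hlj hS
        have h5 : φ j i ⬝ᵥ v i l ≠ 0 := hb i j l hij hlj.symm hil h4
        have h6 : φ i l ⬝ᵥ v l j ≠ 0 := ha j i l hij.symm hil hlj.symm h5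
        exact hc i l j m hil hlj hij him.symm hlm.symm h6
    obtain ⟨i, j, k, hij, hjk, hik, hS⟩ := hex
    intro a b c hab hbc hac
    rcases eq_or_ne a i with rfl | hai
    · exact key a ⟨j, k, hij, hjk, hik, hS⟩ b c hab hbc hac
    · refine key a ?_ b c hab hbc hac
      rcases eq_or_ne a j with rfl | haj
      · exact ⟨i, k, hai, hik, hjk, hb i a k hij hjk hik hS⟩
      · have h4 : φ i a ⬝ᵥ v a j ≠ 0 := key i ⟨j, k, hij, hjk, hik, hS⟩ a j hai.symm haj hij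
        exact ⟨i, j, hai, hij, haj, hb i a j hai.symm haj hij h4⟩
  · refine Or.inr fun i j k hij hjk hik => ?_
    rcases h1 i j k hij hjk hik with h | h
    · exact absurd ⟨i, j, k, hij, hjk, hik, h.1⟩ hex
    · exact h.2.1

end Pool.Agent.MPfe8e9bN
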