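import Mathlib
import Pool.Agent.Lib.MP_fe8e9b_al_N.AnD
import Pool.Agent.Lib.MP_fe8e9b_al_N.AnE

/-!
# MP_fe8e9b_al, groups of bounded height: the frame of an automorphism of `PSL_n`
-/

set_option autoImplicit false

open scoped BigOperators MatrixGroups

namespace Pool.Agent.MPfe8e9bN

open Matrix

variable {n : ℕ} {F : Type} [Field F]

/-- In the first type the automorphism is, up to conjugation by an invertible matrix, compatible
with the elementary subgroups.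

Proof. For `i` choose some `s i ≠ i` and put `p i = v i (s i)`, `q i = φ (s i) i`. By `an_rel`
(the second case is impossible by `hS`) `v i j = c • p i` for all `j ≠ i` (if `j ≠ s i` use the
triple `(i, s i, j)`), and `φ i j = c • q j` for all `i ≠ j` (the triple `(i, s j, j)`); all these
`c` are nonzero as the vectors are nonzero. For `i ≠ j`, `q j ⬝ᵥ p i` is a multiple of `φ i j ⬝ᵥ v
i j = 0`, so it is zero, and `q j ⬝ᵥ p j ≠ 0`, since `φ i j ⬝ᵥ v j i ≠ 0` (`an_opp`) is a multiple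
of it. Let `P` be the matrix with the columns `p i` and `Q` the matrix with the rows `q j`; `Q *
P` is diagonal with nonzero entries `d j`, so `P` is invertible, and the row `j` of `P⁻¹` is `(d
j)⁻¹ • q j`. For `i ≠ j` and `x`: `f (mk (ev i j x)) = mk A` with `A = 1 + y • vecMulVec (v i j)
(φ i j)` (`TD.img`), and `vecMulVec (v i j) (φ i j)` is a multiple of `P * single i j 1 * P⁻¹`, so
`A = cM P (ev i j y')`. -/
theorem an_frame (hn : 3 ≤ n) {f : MulAut (PN n F)} {v φ : Fin n → Fin n → (Fin n → F)}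
    (h : TD f v φ) (hS : ∀ i j k, i ≠ j → j ≠ k → i ≠ k → φ i j ⬝ᵥ v j k ≠ 0) :
    ∃ P : GL (Fin n) F, ∀ i j, i ≠ j → ∀ x, ∃ y, f (mk (ev i j x)) = mk (cM P (ev i j y)) := by
  have hex : ∀ i : Fin n, ∃ j, j ≠ i := by
    intro i
    have h1 : Nontrivial (Fin n) := Fin.nontrivial_iff_two_le.2 (by omega)
    exact exists_ne i
  choose s hs using hex
  have hV : ∀ i j, i ≠ j → ∃ c : F, c ≠ 0 ∧ v i j = c • v i (s i) := by
    intro i j hij
    have h1 : ∃ c : F, v i j = c • v i (s i) := by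
      by_cases hj : j = s i
      · exact ⟨1, by rw [one_smul, hj]⟩
      · rcases an_rel hn h (hs i).symm (Ne.symm hj) hij with ⟨-, -, h2, -⟩ | ⟨h2, -⟩
        · exact h2
        · exact absurd h2 (hS i (s i) j (hs i).symm (Ne.symm hj) hij)
    obtain ⟨c, hc⟩ := h1
    refine ⟨c, ?_, hc⟩
    rintro rfl
    rw [zero_smul] at hc
    exact h.nv i j hij hc
  have hP : ∀ i j, i ≠ j → ∃ c : F, c ≠ 0 ∧ φ i j = c • φ (s j) j := by
    intro i j hij
    have h1 : ∃ c : F, φ i j = c • φ (s j) j := by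
      by_cases hi : i = s j
      · exact ⟨1, by rw [one_smul, hi]⟩
      · rcases an_rel hn h hi (hs j) hij with ⟨-, -, -, h2⟩ | ⟨h2, -⟩
        · exact h2
        · exact absurd h2 (hS i (s j) j hi (hs j) hij)
    obtain ⟨c, hc⟩ := h1
    refine ⟨c, ?_, hc⟩
    rintro rfl
    rw [zero_smul] at hc
    exact h.np i j hij hc
  have h0 : ∀ i j, i ≠ j → φ (s j) j ⬝ᵥ v i (s i) = 0 := by
    intro i j hij
    obtain ⟨c, hc, h1⟩ := hV i j hij
    obtain ⟨d, hd, h2⟩ := hP i j hij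
    have h3 := h.inc i j hij
    rw [h1, h2, smul_dotProduct, dotProduct_smul, smul_eq_mul, smul_eq_mul] at h3
    exact (mul_eq_zero.1 ((mul_eq_zero.1 h3).resolve_left hd)).resolve_left hc
  have h1 : ∀ j, φ (s j) j ⬝ᵥ v j (s j) ≠ 0 := fun j => an_opp h (hs j)
  obtain ⟨P0, hP0⟩ : ∃ P0 : Matrix (Fin n) (Fin n) F, ∀ a i, P0 a i = v i (s i) a :=
    ⟨Matrix.of fun a i => v i (s i) a, fun _ _ => rfl⟩
  obtain ⟨Q0, hQ0⟩ : ∃ Q0 : Matrix (Fin n) (Fin n) F,
      ∀ j a, Q0 j a = (φ (s j) j ⬝ᵥ v j (s j))⁻¹ * φ (s j) j a :=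
    ⟨Matrix.of fun j a => (φ (s j) j ⬝ᵥ v j (s j))⁻¹ * φ (s j) j a, fun _ _ => rfl⟩
  have hQP : Q0 * P0 = 1 := by
    ext j i
    have h2 : (Q0 * P0) j i = (φ (s j) j ⬝ᵥ v j (s j))⁻¹ * (φ (s j) j ⬝ᵥ v i (s i)) := by
      rw [Matrix.mul_apply]
      show _ = _ * ∑ a, φ (s j) j a * v i (s i) a
      rw [Finset.mul_sum]
      refine Finset.sum_congr rfl fun a _ => ?_
      rw [hP0, hQ0, mul_assoc]
    rw [h2]
    by_cases hij : j = i
    · subst hij
      rw [inv_mul_cancel₀ (h1 j), Matrix.one_apply_eq]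
    · rw [h0 i j (Ne.symm hij), mul_zero, Matrix.one_apply_ne hij]
  have hPQ : P0 * Q0 = 1 := mul_eq_one_comm.1 hQP
  refine ⟨⟨P0, Q0, hPQ, hQP⟩, fun i j hij x => ?_⟩
  obtain ⟨A, y, hA, hfA⟩ := (h.img i j hij _).1 ⟨x, rfl⟩
  obtain ⟨c, hc, h2⟩ := hV i j hij
  obtain ⟨d, hd, h3⟩ := hP i j hij
  refine ⟨y * c * d * (φ (s j) j ⬝ᵥ v j (s j)), ?_⟩
  rw [hfA]
  congr 1
  apply Subtype.ext
  rw [hA]
  show _ = P0 * (ev i j (y * c * d * (φ (s j) j ⬝ᵥ v j (s j)))).1 * Q0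
  rw [ev_val hij, Matrix.mul_add, Matrix.mul_one, Matrix.add_mul, hPQ]
  congr 1
  ext a b
  rw [Matrix.mul_apply, Finset.sum_eq_single j]
  · rw [Matrix.mul_single_apply_same, Matrix.smul_apply, vecMulVec_apply, smul_eq_mul, hP0, hQ0,
      h2, h3, Pi.smul_apply, Pi.smul_apply, smul_eq_mul, smul_eq_mul]
    have h4 := mul_inv_cancel₀ (h1 j)
    linear_combination -(y * c * d * v i (s i) a * φ (s j) j b) * h4
  · intro t _ ht
    rw [Matrix.mul_single_apply_of_ne _ _ _ _ _ ht, zero_mul]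
  · intro ht
    exact absurd (Finset.mem_univ j) ht

end Pool.Agent.MPfe8e9bN
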