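import Mathlib
import Pool.Agent.Lib.MP_fe8e9b_al_N.AnD
import Pool.Agent.Lib.MP_fe8e9b_al_N.AnB

/-!
# MP_fe8e9b_al, groups of bounded height: automorphisms of `PSL_n` and field automorphisms
-/

set_option autoImplicit false

open scoped BigOperators MatrixGroups

namespace Pool.Agent.MPfe8e9bN

open Matrix

variable {n : ℕ} {F : Type} [Field F]

/-- A product of three elementary matrices. -/
theorem anh_three {i j : Fin n} (h : i ≠ j) (a b c : F) :
    (1 + Matrix.single i j a) * (1 + Matrix.single j i b) * (1 + Matrix.single i j c) =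
      1 + Matrix.single i j (a + c + a * b * c) + Matrix.single j i b + Matrix.single i i (a * b)
        + Matrix.single j j (b * c) := by
  have h' : j ≠ i := h.symm
  have n1 : ∀ x y : F, Matrix.single i j x * Matrix.single i j y = 0 :=
    fun x y => Matrix.single_mul_single_of_ne _ _ _ _ h' _
  simp only [Matrix.mul_add, Matrix.add_mul, Matrix.mul_one, Matrix.one_mul,
    Matrix.single_mul_single_same, n1, Matrix.single_add, add_zero]
  abel

/-- The diagonal matrices `diag2n` are products of elementary matrices. -/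
theorem anh_diag {i j : Fin n} (h : i ≠ j) (a : F) (ha : a ≠ 0) :
    Matrix.SpecialLinearGroup.diag2n h a ha =
      ev i j a * ev j i (-a⁻¹) * ev i j a * (ev i j (-1) * ev j i 1 * ev i j (-1)) := by
  have h' : j ≠ i := h.symm
  apply Subtype.ext
  show Matrix.diagonal (fun k => if k = i then a else if k = j then a⁻¹ else 1) =
    (ev i j a).1 * (ev j i (-a⁻¹)).1 * (ev i j a).1 *
      ((ev i j (-1)).1 * (ev j i 1).1 * (ev i j (-1)).1)
  rw [ev_val h, ev_val h', ev_val h, ev_val h', anh_three h, anh_three h]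
  have e1 : a + a + a * -a⁻¹ * a = a := by field_simp; ring
  have e2 : a * -a⁻¹ = -1 := by field_simp
  have e3 : -a⁻¹ * a = -1 := by field_simp
  have e4 : (-1 : F) + -1 + -1 * 1 * -1 = -1 := by ring
  have e5 : (-1 : F) * 1 = -1 := by ring
  have e6 : (1 : F) * -1 = -1 := by ring
  rw [e1, e2, e3, e4, e5, e6]
  have e7 : (1 + Matrix.single i j a + Matrix.single j i (-a⁻¹) + Matrix.single i i (-1) +
      Matrix.single j j (-1) : Matrix (Fin n) (Fin n) F) *
      (1 + Matrix.single i j (-1) + Matrix.single j i 1 + Matrix.single i i (-1) +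
        Matrix.single j j (-1)) = 1 + Matrix.single i i (a - 1) + Matrix.single j j (a⁻¹ - 1) := by
    have n1 : ∀ (k l : Fin n) (x y : F), Matrix.single k i x * Matrix.single j l y = 0 :=
      fun k l x y => Matrix.single_mul_single_of_ne _ _ _ _ h _
    have n2 : ∀ (k l : Fin n) (x y : F), Matrix.single k j x * Matrix.single i l y = 0 :=
      fun k l x y => Matrix.single_mul_single_of_ne _ _ _ _ h' _
    simp only [Matrix.mul_add, Matrix.add_mul, Matrix.mul_one, Matrix.one_mul,
      Matrix.single_mul_single_same, n1, n2, add_zero]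
    ext k l
    simp only [Matrix.add_apply, Matrix.single_apply]
    split_ifs <;> ring
  rw [e7]
  ext k l
  rcases eq_or_ne k l with rfl | hkl
  · rw [Matrix.diagonal_apply_eq]
    simp only [Matrix.add_apply, Matrix.single_apply, Matrix.one_apply_eq]
    rcases eq_or_ne k i with rfl | h1
    · rw [if_pos rfl, if_pos ⟨rfl, rfl⟩, if_neg (fun h2 => h h2.1.symm)]
      ring
    · rcases eq_or_ne k j with rfl | h3
      · rw [if_neg h1, if_pos rfl, if_neg (fun h2 => h1 h2.1.symm), if_pos ⟨rfl, rfl⟩]
        ring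
      · rw [if_neg h1, if_neg h3, if_neg (fun h2 => h1 h2.1.symm),
          if_neg (fun h2 => h3 h2.1.symm)]
        ring
  · rw [Matrix.diagonal_apply_ne _ hkl]
    simp only [Matrix.add_apply, Matrix.single_apply, Matrix.one_apply_ne hkl]
    rw [if_neg (fun h2 => hkl (h2.1.symm.trans h2.2)),
      if_neg (fun h2 => hkl (h2.1.symm.trans h2.2))]
    ring

/-- The elementary matrices generate `SL_n`.

Proof. Mathlib, file LinearAlgebra/Matrix/SpecialLinearGroup (or where `diag2n` is defined):
`Matrix.SpecialLinearGroup.exists_list_transvec_mul_diagonal_mul_list_transvec`,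
`diag_eq_diag2n_prod`, `diagonal_transvection_induction'`; a matrix `diag2n` is a product of
elementary matrices (the formula of `diag2_decompose` for two indices). Alternatively Gauss
elimination. -/
theorem ev_gen (hn : 2 ≤ n) (H : Subgroup SL(n, F)) (h : ∀ i j, i ≠ j → ∀ x, ev i j x ∈ H) :
    H = ⊤ := by
  have hnt : Nontrivial (Fin n) := Fin.nontrivial_iff_two_le.mpr hn
  rw [eq_top_iff]
  intro A _
  refine Matrix.SpecialLinearGroup.diagonal_transvection_induction' (fun B => B ∈ H) A ?_ ?_ ?_
  · intro i j hij c hc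
    show Matrix.SpecialLinearGroup.diag2n hij c hc ∈ H
    rw [anh_diag hij c hc]
    exact H.mul_mem (H.mul_mem (H.mul_mem (h i j hij _) (h j i hij.symm _)) (h i j hij _))
      (H.mul_mem (H.mul_mem (h i j hij _) (h j i hij.symm _)) (h i j hij _))
  · intro i j hij a
    have h1 := h i j hij a
    rw [ev, dif_pos hij] at h1
    exact h1
  · intro B C hB hC
    exact H.mul_mem hB hC

/-- Diagonal matrices. Proof. Entries. -/
theorem ev_diag (d : Fin n → F) (hd : ∀ i, d i ≠ 0) : ∃ D : GL (Fin n) F, ∀ i j, i ≠ j → ∀ x,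
    cM D (ev i j x) = ev i j (d i * x * (d j)⁻¹) := by
  refine ⟨⟨Matrix.diagonal d, Matrix.diagonal (fun i => (d i)⁻¹), ?_, ?_⟩, ?_⟩
  · rw [Matrix.diagonal_mul_diagonal, ← Matrix.diagonal_one]
    congr 1
    funext i
    exact mul_inv_cancel₀ (hd i)
  · rw [Matrix.diagonal_mul_diagonal, ← Matrix.diagonal_one]
    congr 1
    funext i
    exact inv_mul_cancel₀ (hd i)
  · intro i j hij x
    apply Subtype.ext
    show Matrix.diagonal d * (ev i j x).1 * Matrix.diagonal (fun i => (d i)⁻¹) = _
    rw [ev_val hij, ev_val hij]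
    ext k l
    rw [Matrix.mul_diagonal, Matrix.diagonal_mul, Matrix.add_apply, Matrix.add_apply, mul_add,
      add_mul]
    congr 1
    · rcases eq_or_ne k l with rfl | hkl
      · rw [Matrix.one_apply_eq, mul_one]
        exact mul_inv_cancel₀ (hd k)
      · rw [Matrix.one_apply_ne hkl, mul_zero, zero_mul]
    · rw [Matrix.single_apply, Matrix.single_apply]
      split_ifs with h1
      · rw [h1.1, h1.2]
      · rw [mul_zero, zero_mul]

/-- A function which is compatible with the operations is a field automorphism. Proof. It is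
additive, multiplicative, `a 1 = 1`, and injective, hence bijective (`F` is finite). -/
theorem an_ring [Finite F] (a : F → F) (h1 : a 1 = 1) (hadd : ∀ x y, a (x + y) = a x + a y)
    (hmul : ∀ x y, a (x * y) = a x * a y) : ∃ σ : F ≃+* F, ∀ x, σ x = a x := by
  have h0 : a 0 = 0 := by
    have h2 := hadd 0 0
    rw [add_zero] at h2
    exact left_eq_add.mp h2
  let φ : F →+* F :=
    { toFun := a
      map_one' := h1
      map_mul' := hmul
      map_zero' := h0
      map_add' := hadd }
  have hφ : Function.Bijective φ := Finite.injective_iff_bijective.mp φ.injective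
  exact ⟨RingEquiv.ofBijective φ hφ, fun x => rfl⟩

/-- The parameter is determined by the class. -/
theorem anh_inj {i j : Fin n} (h : i ≠ j) {x y : F} (hxy : mk (ev i j x) = mk (ev i j y)) :
    x = y := by
  by_cases hx : x = 0
  · by_cases hy : y = 0
    · rw [hx, hy]
    · exact ((mk_ev h h hy hxy.symm).2.2).symm
  · exact (mk_ev h h hx hxy).2.2

/-- Field automorphisms and elementary matrices. -/
theorem anh_fM (σ : F ≃+* F) {i j : Fin n} (h : i ≠ j) (x : F) :
    fM σ (ev i j x) = ev i j (σ x) := by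
  apply Subtype.ext
  ext k l
  rw [fM_coe, ev_val h, ev_val h, Matrix.add_apply, Matrix.add_apply, map_add]
  congr 1
  · rcases eq_or_ne k l with rfl | hkl
    · rw [Matrix.one_apply_eq]
      exact map_one σ
    · rw [Matrix.one_apply_ne hkl]
      exact map_zero σ
  · rw [Matrix.single_apply, Matrix.single_apply]
    split_ifs
    · rfl
    · exact map_zero σ

/-- A family of functions with the commutator rule and value one at one is constant. -/
theorem anh_const (hn : 3 ≤ n) (b : Fin n → Fin n → F → F)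
    (hb : ∀ i j k, i ≠ j → j ≠ k → i ≠ k → ∀ x y, b i k (x * y) = b i j x * b j k y)
    (o : Fin n) (ho : ∀ j, o ≠ j → b o j 1 = 1) :
    ∃ c : F → F, c 1 = 1 ∧ (∀ x y, c (x * y) = c x * c y) ∧ (∀ i j, i ≠ j → b i j = c) := by
  have hthird : ∀ i j : Fin n, ∃ k, k ≠ i ∧ k ≠ j := by
    intro i j
    by_contra hcon
    push Not at hcon
    have h1 : (Finset.univ : Finset (Fin n)) ⊆ {i, j} := by
      intro k _
      rw [Finset.mem_insert, Finset.mem_singleton]
      by_cases hk : k = i
      · exact Or.inl hk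
      · exact Or.inr (hcon k hk)
    have h2 := Finset.card_le_card h1
    rw [Finset.card_univ, Fintype.card_fin] at h2
    have h3 : ({i, j} : Finset (Fin n)).card ≤ 2 := Finset.card_le_two
    omega
  have h1 : ∀ j k, j ≠ o → k ≠ o → j ≠ k → b j k 1 = 1 := by
    intro j k hj hk hjk
    have h2 := hb o j k hj.symm hjk hk.symm 1 1
    rw [mul_one, ho k hk.symm, ho j hj.symm, one_mul] at h2
    exact h2.symm
  have h2 : ∀ j, j ≠ o → b j o 1 = 1 := by
    intro j hj
    obtain ⟨k, hk1, hk2⟩ := hthird o j
    have h3 := hb j o k hj hk1.symm hk2.symm 1 1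
    rw [mul_one, ho k hk1.symm, mul_one, h1 j k hj hk1 hk2.symm] at h3
    exact h3.symm
  have h3 : ∀ i j, i ≠ j → b i j 1 = 1 := by
    intro i j hij
    rcases eq_or_ne i o with rfl | hi
    · exact ho j hij
    · rcases eq_or_ne j o with rfl | hj
      · exact h2 i hi
      · exact h1 i j hi hj hij
  have hrow : ∀ i j k, i ≠ j → i ≠ k → b i j = b i k := by
    intro i j k hij hik
    rcases eq_or_ne j k with rfl | hjk
    · rfl
    · funext x
      have h4 := hb i j k hij hjk hik x 1
      rw [mul_one, h3 j k hjk, mul_one] at h4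
      exact h4.symm
  have hcol : ∀ i j k, i ≠ k → j ≠ k → b i k = b j k := by
    intro i j k hik hjk
    rcases eq_or_ne i j with rfl | hij
    · rfl
    · funext x
      have h4 := hb i j k hij hjk hik 1 x
      rw [one_mul, h3 i j hij, one_mul] at h4
      exact h4
  obtain ⟨p, hp, -⟩ := hthird o o
  have hall : ∀ i j, i ≠ j → b i j = b o p := by
    intro i j hij
    have hA : ∀ k, o ≠ k → b o k = b o p := fun k hk => hrow o k p hk hp.symm
    rcases eq_or_ne i o with rfl | hi
    · exact hA j hij
    · rcases eq_or_ne j o with rfl | hj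
      · obtain ⟨k, hk1, hk2⟩ := hthird i j
        rw [hrow i j k hij hk1.symm, hcol i j k hk1.symm hk2.symm]
        exact hA k hk2.symm
      · rw [hcol i o j hij hj.symm]
        exact hA j hj.symm
  refine ⟨b o p, ho p hp.symm, fun x y => ?_, hall⟩
  obtain ⟨q, hq1, hq2⟩ := hthird o p
  rw [hb o q p hq1.symm hq2 hp.symm x y, hall o q hq1.symm, hall q p hq2]

/-- An automorphism which is compatible with the elementary subgroups.

Proof. Choose `a i j : F → F` with `f (mk (ev i j x)) = mk (ev i j (a i j x))` for `i ≠ j`. By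
`mk_ev` the parameters are determined, so `a i j` is additive (`ev_add`), injective, and by
`ev_comm` `a i k (x * y) = a i j x * a j k y` for distinct `i, j, k`. Let `o` be an index, `d o =
1`, `d j = (a o j 1)⁻¹` for `j ≠ o` (`a o j 1 ≠ 0` by injectivity). Then `b i j x = d i ⁻¹`...
precisely put `b i j x = (d i)⁻¹ * a i j x * d j`; so `a i j x = d i * b i j x * (d j)⁻¹`, `b o j
1 = 1`, and again `b i k (x * y) = b i j x * b j k y`. From this `1 = b o k 1 = b o j 1 * b j k 1
= b j k 1` for `j, k ≠ o` distinct, and `b j k 1 = b j o 1 * b o k 1` gives `b j o 1 = 1` (there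
is a third index). So `b i j 1 = 1` for all `i ≠ j`, and `b i k x = b i j x` (take `y = 1`), `b i
k y = b j k y` (take `x = 1`). So all `b i j` are equal to one function `b` (for all pairs: `(i,
j)`, `(i, k)`, `(l, k)`, and there are at least three indices, so that `(i, j)` and `(j, i)` are
connected too: `(i, j), (i, k), (j, k), (j, i)`), which is a field automorphism `σ` (`an_ring`).
So `f (mk (ev i j x)) = mk (cM D (fM σ (ev i j x)))` for all `i ≠ j` and `x` (`ev_diag`), and the
set of `A` with `f (mk A) = mk (cM D (fM σ A))` is a subgroup; `ev_gen`. -/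
theorem an_field [Finite F] (hn : 3 ≤ n) (f : MulAut (PN n F))
    (h : ∀ i j, i ≠ j → ∀ x, ∃ y, f (mk (ev i j x)) = mk (ev i j y)) :
    ∃ (D : GL (Fin n) F) (σ : F ≃+* F), ∀ A, f (mk A) = mk (cM D (fM σ A)) := by
  choose! a ha using h
  have hadd : ∀ i j, i ≠ j → ∀ x y, a i j (x + y) = a i j x + a i j y := by
    intro i j hij x y
    apply anh_inj hij
    rw [← ha i j hij, ev_add, mk_mul, map_mul, ha i j hij, ha i j hij, ev_add, mk_mul]
  have hzero : ∀ i j, i ≠ j → ∀ x, a i j x = 0 → x = 0 := by
    intro i j hij x hx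
    have h1 := ha i j hij x
    rw [hx, ev_zero, mk_one, ← map_one f] at h1
    have h2 := f.injective h1
    rw [← mk_one, ← ev_zero i j] at h2
    exact anh_inj hij h2
  have hcomm : ∀ i j k, i ≠ j → j ≠ k → i ≠ k → ∀ x y,
      a i k (x * y) = a i j x * a j k y := by
    intro i j k hij hjk hik x y
    apply anh_inj hik
    rw [← ha i k hik, ← ev_comm hij hjk hik, mk_mul, mk_mul, mk_mul, mk_inv, mk_inv, map_mul,
      map_mul, map_mul, map_inv, map_inv, ha i j hij, ha j k hjk, ← mk_inv, ← mk_inv, ← mk_mul,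
      ← mk_mul, ← mk_mul, ev_comm hij hjk hik]
  have ho : 0 < n := by omega
  obtain ⟨o⟩ : Nonempty (Fin n) := ⟨⟨0, ho⟩⟩
  obtain ⟨d, hd0, hdo, hdj⟩ : ∃ d : Fin n → F, (∀ i, d i ≠ 0) ∧ d o = 1 ∧
      ∀ j, o ≠ j → a o j 1 * d j = 1 := by
    classical
    refine ⟨fun i => if i = o then 1 else (a o i 1)⁻¹, ?_, if_pos rfl, ?_⟩
    · intro i
      show (if i = o then (1 : F) else (a o i 1)⁻¹) ≠ 0
      split_ifs with h1
      · exact one_ne_zero
      · apply inv_ne_zero
        intro h2
        exact one_ne_zero (hzero o i (fun h3 => h1 h3.symm) 1 h2)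
    · intro j hj
      show a o j 1 * (if j = o then (1 : F) else (a o j 1)⁻¹) = 1
      rw [if_neg hj.symm]
      apply mul_inv_cancel₀
      intro h2
      exact one_ne_zero (hzero o j hj 1 h2)
  obtain ⟨c, hc1, hcm, hc⟩ := anh_const hn (fun i j x => (d i)⁻¹ * a i j x * d j)
    (by
      intro i j k hij hjk hik x y
      show (d i)⁻¹ * a i k (x * y) * d k =
        (d i)⁻¹ * a i j x * d j * ((d j)⁻¹ * a j k y * d k)
      rw [hcomm i j k hij hjk hik]
      have h1 : d j * (d j)⁻¹ = 1 := mul_inv_cancel₀ (hd0 j)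
      calc (d i)⁻¹ * (a i j x * a j k y) * d k
          = (d i)⁻¹ * a i j x * (d j * (d j)⁻¹) * (a j k y * d k) := by rw [h1]; ring
        _ = _ := by ring) o
    (by
      intro j hj
      show (d o)⁻¹ * a o j 1 * d j = 1
      rw [hdo, inv_one, one_mul, hdj j hj])
  have hval : ∀ i j, i ≠ j → ∀ x, a i j x = d i * c x * (d j)⁻¹ := by
    intro i j hij x
    have h1 := congrFun (hc i j hij) x
    rw [← h1]
    show a i j x = d i * ((d i)⁻¹ * a i j x * d j) * (d j)⁻¹
    have h2 : d i * (d i)⁻¹ = 1 := mul_inv_cancel₀ (hd0 i)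
    have h3 : d j * (d j)⁻¹ = 1 := mul_inv_cancel₀ (hd0 j)
    calc a i j x = (d i * (d i)⁻¹) * a i j x * (d j * (d j)⁻¹) := by rw [h2, h3]; ring
      _ = _ := by ring
  have hcadd : ∀ x y, c (x + y) = c x + c y := by
    intro x y
    obtain ⟨p, hp⟩ : ∃ p : Fin n, o ≠ p := by
      have hnt : Nontrivial (Fin n) := Fin.nontrivial_iff_two_le.mpr (by omega)
      obtain ⟨p, hp⟩ := exists_ne o
      exact ⟨p, hp.symm⟩
    have h1 := congrFun (hc o p hp) (x + y)
    have h2 := congrFun (hc o p hp) x
    have h3 := congrFun (hc o p hp) y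
    rw [← h1, ← h2, ← h3]
    show (d o)⁻¹ * a o p (x + y) * d p = (d o)⁻¹ * a o p x * d p + (d o)⁻¹ * a o p y * d p
    rw [hadd o p hp]
    ring
  obtain ⟨σ, hσ⟩ := an_ring c hc1 hcadd hcm
  obtain ⟨D, hD⟩ := ev_diag d hd0
  refine ⟨D, σ, fun A => ?_⟩
  have hev : ∀ i j, i ≠ j → ∀ x, f (mk (ev i j x)) = mk (cM D (fM σ (ev i j x))) := by
    intro i j hij x
    rw [ha i j hij, anh_fM σ hij, hD i j hij, hσ, hval i j hij]
  have hH := ev_gen (n := n) (F := F) (by omega)
    (MonoidHom.eqLocus (f.toMonoidHom.comp (QuotientGroup.mk' (Subgroup.center SL(n, F))))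
      ((QuotientGroup.mk' (Subgroup.center SL(n, F))).comp
        ((cM D).toMonoidHom.comp (fM σ).toMonoidHom)))
    (fun i j hij x => hev i j hij x)
  have hA : A ∈ MonoidHom.eqLocus
      (f.toMonoidHom.comp (QuotientGroup.mk' (Subgroup.center SL(n, F))))
      ((QuotientGroup.mk' (Subgroup.center SL(n, F))).comp
        ((cM D).toMonoidHom.comp (fM σ).toMonoidHom)) := by
    rw [hH]
    exact Subgroup.mem_top A
  exact hA

end Pool.Agent.MPfe8e9bN
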