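import Mathlib
import Pool.Agent.Lib.MP_fe8e9b_al_N.AnD
import Pool.Agent.Lib.MP_fe8e9b_al_N.AnC
import Pool.Agent.Lib.MP_fe8e9b_al_N.AnE
import Pool.Agent.Lib.MP_fe8e9b_al_N.AnF
import Pool.Agent.Lib.MP_fe8e9b_al_N.AnG
import Pool.Agent.Lib.MP_fe8e9b_al_N.AnH

/-!
# MP_fe8e9b_al, groups of bounded height: the automorphisms of `PSL_n`
-/

set_option autoImplicit false

open scoped BigOperators MatrixGroups

namespace Pool.Agent.MPfe8e9bN

open Matrix

variable {n : ℕ} {F : Type} [Field F]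

/-- The inverse transpose of a transvection. Proof. The inverse of `1 + x v φ` is `1 - x v φ` (as
`φ(v) = 0`), and the transpose of `v φ` is `φ v` (`Matrix.transpose_vecMulVec`). -/
theorem iT_tv {v φ : Fin n → F} (h : φ ⬝ᵥ v = 0) {x : F} {A : SL(n, F)}
    (hA : A.1 = 1 + x • vecMulVec v φ) : (iT A).1 = 1 + (-x) • vecMulVec φ v := by
  have hN : vecMulVec v φ * vecMulVec v φ = 0 := by
    rw [Matrix.vecMulVec_mul_vecMulVec, h]
    ext i j
    simp [vecMulVec_apply]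
  have h1 : A.1 * (1 + (-x) • vecMulVec v φ) = 1 := by
    rw [hA, Matrix.add_mul, Matrix.one_mul, Matrix.mul_add, Matrix.mul_one, Matrix.smul_mul,
      Matrix.mul_smul, hN, smul_zero, smul_zero, add_zero, neg_smul]
    abel
  have h2 : (A⁻¹).1 * A.1 = 1 := congrArg Subtype.val (inv_mul_cancel A)
  have h3 : (A⁻¹).1 = 1 + (-x) • vecMulVec v φ := by
    calc (A⁻¹).1 = (A⁻¹).1 * (A.1 * (1 + (-x) • vecMulVec v φ)) := by rw [h1, Matrix.mul_one]
      _ = 1 + (-x) • vecMulVec v φ := by rw [← Matrix.mul_assoc, h2, Matrix.one_mul]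
  rw [iT_val, h3, Matrix.transpose_add, Matrix.transpose_one, Matrix.transpose_smul,
    Matrix.transpose_vecMulVec]

/-- The data of the composition with the inverse transpose. Proof. `iT_tv`, and `pN iT` is an
involution (`iT (iT A) = A`). -/
theorem td_iT {f : MulAut (PN n F)} {v φ : Fin n → Fin n → (Fin n → F)} (h : TD f v φ) :
    TD (pN iT * f) φ v := by
  refine ⟨h.np, h.nv, fun i j hij => by rw [dotProduct_comm]; exact h.inc i j hij,
    fun i j hij t => ⟨?_, ?_⟩⟩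
  · rintro ⟨x, rfl⟩
    obtain ⟨A, y, hA, hf⟩ := (h.img i j hij _).1 ⟨x, rfl⟩
    refine ⟨iT A, -y, iT_tv (h.inc i j hij) hA, ?_⟩
    show pN iT (f (mk (ev i j x))) = mk (iT A)
    rw [hf, pN_mk]
  · rintro ⟨A, x, hA, rfl⟩
    have h1 : v i j ⬝ᵥ φ i j = 0 := by
      rw [dotProduct_comm]
      exact h.inc i j hij
    have h2 := iT_tv h1 hA
    obtain ⟨y, hy⟩ := (h.img i j hij (mk (iT A))).2 ⟨iT A, -x, h2, rfl⟩
    refine ⟨y, ?_⟩
    show pN iT (f (mk (ev i j y))) = mk A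
    rw [hy, pN_mk]
    exact congrArg mk (defn_inv A)

/-- Automorphisms of the first type.

Proof. `an_frame` gives `P`; `an_field` for `(pN (cM P))⁻¹ * f` (`cM_inv`, `pN_mk`). -/
theorem an_std [Finite F] (hn : 3 ≤ n) {f : MulAut (PN n F)}
    {v φ : Fin n → Fin n → (Fin n → F)} (h : TD f v φ)
    (hS : ∀ i j k, i ≠ j → j ≠ k → i ≠ k → φ i j ⬝ᵥ v j k ≠ 0) :
    ∃ (M : GL (Fin n) F) (σ : F ≃+* F), ∀ A, f (mk A) = mk (cM M (fM σ A)) := by
  obtain ⟨P, hP⟩ := an_frame hn h hS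
  obtain ⟨D, σ, hD⟩ := an_field hn (pN (cM P⁻¹) * f) (fun i j hij x => by
    obtain ⟨y, hy⟩ := hP i j hij x
    refine ⟨y, ?_⟩
    show pN (cM P⁻¹) (f (mk (ev i j x))) = _
    rw [hy, pN_mk, cM_inv, MulAut.inv_apply_self])
  refine ⟨P * D, σ, fun A => ?_⟩
  have h1 : pN (cM P⁻¹) (f (mk A)) = mk (cM D (fM σ A)) := hD A
  have h2 : pN (cM P) (pN (cM P⁻¹) (f (mk A))) = f (mk A) := by
    rw [cM_inv, map_inv, MulAut.apply_inv_self]
  rw [← h2, h1, pN_mk, cM_mul]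
  rfl

/-- The automorphisms of `PSL_n`.

Proof. `an_td`, `an_types` (with `an_rel`, `an_opp`, `an_dif`). In the first case `an_std`. In the
second case `an_std` for `pN iT * f` and `td_iT` (the dot product is symmetric:
`dotProduct_comm`), so `f (mk A) = mk (iT (cM M (fM σ A)))`, `iT_cM`. -/
theorem aut_psln [Finite F] (hn : 3 ≤ n) (f : MulAut (PN n F)) :
    ∃ (M : GL (Fin n) F) (p : Bool × (F ≃+* F)), ∀ A, f (mk A) = mk (cM M (aN p A)) := by
  obtain ⟨v, φ, h⟩ := an_td (by omega) f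
  rcases an_types v φ h.nv h.np h.inc (fun i j k h1 h2 h3 => an_rel hn h h1 h2 h3)
    (fun i k hik => an_opp h hik) (fun i j k l h1 h2 h3 h4 => an_dif h h1 h2 h3 h4) with hS | hS
  · obtain ⟨M, σ, hM⟩ := an_std hn h hS
    exact ⟨M, (false, σ), fun A => by rw [hM, aN_false]⟩
  · obtain ⟨M, σ, hM⟩ := an_std hn (td_iT h) (fun i j k h1 h2 h3 => by
      rw [dotProduct_comm]
      exact hS i j k h1 h2 h3)
    obtain ⟨M', hM'⟩ := iT_cM M
    refine ⟨M', (true, σ), fun A => ?_⟩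
    rw [aN_true, ← hM']
    have h1 : pN iT (f (mk A)) = mk (cM M (fM σ A)) := hM A
    have h2 : pN iT (pN iT (f (mk A))) = f (mk A) := by
      obtain ⟨B, hB⟩ := mk_surj (f (mk A))
      rw [← hB, pN_mk, pN_mk]
      exact congrArg mk (defn_inv B)
    rw [← h2, h1, pN_mk]

end Pool.Agent.MPfe8e9bN
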