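import Mathlib
import Pool.Agent.Lib.MP_fe8e9b_al_M.SGT
import Pool.Agent.Lib.MP_fe8e9b_al_N.Defs

/-!
# MP_fe8e9b_al, groups of bounded height: structures on the model groups, second version
-/

set_option autoImplicit false

open scoped BigOperators

namespace Pool.Agent.MPfe8e9bN

open Pool.Agent.MPfe8e9b Pool.Agent.MPfe8e9bA Pool.Agent.MPfe8e9bW Pool.Agent.MPfe8e9bV
open Pool.Agent.MPfe8e9bM

/-- A product of conjugates of `S0` is generated by conjugates of `S0`. -/
theorem gen_of_prd {T : Type} [Group T] {S0 : Subgroup T} {c : ℕ}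
    (h : ∃ h : Fin c → T, ∀ t : T, ∃ x : Fin c → S0,
      t = (List.ofFn fun j => h j * (x j : T) * (h j)⁻¹).prod) : GenC c T S0 := by
  obtain ⟨h, hh⟩ := h
  refine ⟨h, fun R hR => ?_⟩
  rw [eq_top_iff]
  intro t _
  obtain ⟨x, rfl⟩ := hh t
  refine Subgroup.list_prod_mem R fun y hy => ?_
  obtain ⟨j, rfl⟩ := (List.mem_ofFn' _ _).1 hy
  exact hR j (x j) (x j).2

/-- The full group is generated by one conjugate. -/
theorem gen_top {T : Type} [Group T] : GenC 1 T (⊤ : Subgroup T) := by
  refine ⟨fun _ => 1, fun R hR => ?_⟩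
  rw [eq_top_iff]
  intro t _
  have h1 := hR 0 t (Subgroup.mem_top t)
  rwa [one_mul, inv_one, mul_one] at h1

theorem gen_mono {T : Type} [Group T] {S0 : Subgroup T} {c c' : ℕ} (hc : c ≤ c')
    (h : GenC c T S0) : GenC c' T S0 := by
  obtain ⟨h', hh⟩ := h
  refine ⟨fun j => if hj : j.val < c then h' ⟨j.val, hj⟩ else 1, fun R hR => hh R ?_⟩
  intro j s hs
  have h1 := hR ⟨j.val, j.2.trans_le hc⟩ s hs
  simpa [j.2] using h1

/-- Automorphisms with values in a set of automorphisms of `S0` are determined by the images of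
the conjugating elements and the restriction. -/
theorem gen_ext {T : Type} [Group T] {S0 : Subgroup T} {c : ℕ} {h : Fin c → T}
    (hh : ∀ R : Subgroup T, (∀ j, ∀ s ∈ S0, h j * s * (h j)⁻¹ ∈ R) → R = ⊤)
    (l l' : MulAut T) (h1 : ∀ j, l (h j) = l' (h j)) (h2 : ∀ s ∈ S0, l s = l' s) : l = l' := by
  have h3 := hh (l.toMonoidHom.eqLocus l'.toMonoidHom) (fun j s hs => by
    show l (h j * s * (h j)⁻¹) = l' (h j * s * (h j)⁻¹)
    rw [map_mul, map_mul, map_inv, map_mul, map_mul, map_inv, h1, h2 s hs])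
  refine MulEquiv.ext fun t => ?_
  have h4 : t ∈ l.toMonoidHom.eqLocus l'.toMonoidHom := by
    rw [h3]
    exact Subgroup.mem_top t
  exact h4

/-- The number of automorphisms which fix `S0`. -/
theorem cen_card2 {T : Type} [Group T] [Finite T] (S0 : Subgroup T) {c : ℕ}
    (h : GenC c T S0) : Nat.card (cen S0) ≤ Nat.card T ^ c := by
  obtain ⟨h, hh⟩ := h
  have h1 : Nat.card (Fin c → T) = Nat.card T ^ c := by
    rw [Nat.card_pi, Finset.prod_const, Finset.card_univ, Fintype.card_fin]
  rw [← h1]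
  refine Nat.card_le_card_of_injective
    (fun (l : cen S0) (j : Fin c) => (l : MulAut T) (h j)) ?_
  intro l l' hl
  exact Subtype.ext (gen_ext hh l l' (fun j => congrFun hl j)
    (fun s hs => (l.2 s hs).trans (l'.2 s hs).symm))

/-- Tame structures. -/
theorem sg2_tame {T : Type} [Group T] [Finite T] (S0 : Subgroup T) {c : ℕ}
    (hp : commutator S0 = ⊤) (h : GenC c T S0) : SG2 c T S0 (cen S0) where
  prf := hp
  inn := by
    rintro t ⟨l, hl, h1⟩ s hs
    have h2 := h1 s
    rw [hl s hs] at h2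
    exact mul_inv_eq_iff_eq_mul.1 h2
  stb := fun l hl s hs => by rw [hl s hs]; exact hs
  gen := h
  crd := cen_card2 S0 h
  typ := Or.inl fun l hl s hs => hl s hs

theorem cov_mono {T : Type} [Group T] {b : T} {c c' : ℕ} (hc : c ≤ c') (h : Cov c b) :
    Cov c' b := by
  intro x
  obtain ⟨l, h1, h2⟩ := h x
  exact ⟨l, h1.trans hc, h2⟩

theorem cv_mono {T : Type} [Group T] [Finite T] {τ : MulAut T} {c c' : ℕ} (hc : c ≤ c')
    (h : CV c T τ) : CV c' T τ := by
  refine h.trans (Nat.mul_le_mul hc ?_)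
  refine Nat.card_le_card_of_injective
    (fun t : {t : T // Cov c (cm t (τ t))} =>
      (⟨t.1, cov_mono hc t.2⟩ : {t : T // Cov c' (cm t (τ t))})) ?_
  intro a b hab
  exact Subtype.ext (Subtype.mk.inj hab)

theorem cov_congr {T T' : Type} [Group T] [Group T'] (e : T ≃* T') {b : T} {c : ℕ}
    (h : Cov c b) : Cov c (e b) := by
  intro x
  obtain ⟨l, h1, h2, h3⟩ := h (e.symm x)
  refine ⟨l.map e, by rwa [List.length_map], fun y hy => ?_, ?_⟩
  · obtain ⟨z, hz, rfl⟩ := List.mem_map.1 hy
    obtain ⟨g, hg⟩ := h2 z hz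
    refine ⟨e g, ?_⟩
    rcases hg with rfl | rfl
    · left
      rw [map_mul, map_mul, map_inv]
    · right
      rw [map_mul, map_mul, map_inv, map_inv]
  · rw [← map_list_prod, h3, e.apply_symm_apply]

theorem cv_congr {T T' : Type} [Group T] [Group T'] [Finite T] (e : T ≃* T') {τ : MulAut T}
    {c : ℕ} (h : CV c T τ) : CV c T' (MulAut.congr e τ) := by
  have h1 : Nat.card T' = Nat.card T := (Nat.card_congr e.toEquiv).symm
  have hT' : Finite T' := Finite.of_equiv T e.toEquiv
  show Nat.card T' ≤ _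
  rw [h1]
  refine h.trans (Nat.mul_le_mul_left _ ?_)
  refine Nat.card_le_card_of_injective
    (fun t : {t : T // Cov c (cm t (τ t))} =>
      (⟨e t.1, ?_⟩ : {t : T' // Cov c (cm t (MulAut.congr e τ t))})) ?_
  · have h2 : cm (e t.1) (MulAut.congr e τ (e t.1)) = e (cm t.1 (τ t.1)) := by
      show cm (e t.1) (e (τ (e.symm (e t.1)))) = e (cm t.1 (τ t.1))
      rw [e.symm_apply_apply]
      simp only [cm, map_mul, map_inv]
    rw [h2]
    exact cov_congr e t.2
  · intro a b hab
    exact Subtype.ext (e.injective (Subtype.mk.inj hab))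

/-- Transport. -/
theorem sg2_transport {T T' : Type} [Group T] [Finite T] [Group T'] (e : T ≃* T')
    {S0 : Subgroup T} {L : Subgroup (MulAut T)} {c : ℕ} (h : SG2 c T S0 L) :
    SG2 c T' (S0.map e.toMonoidHom) (L.map (MulAut.congr e).toMonoidHom) where
  prf := by
    have h1 := Subgroup.map_commutator (⊤ : Subgroup S0) ⊤ (e.toMonoidHom.subgroupMap S0)
    have h2 := MonoidHom.range_eq_top.2 (e.toMonoidHom.subgroupMap_surjective S0)
    have h3 := h.prf
    rw [commutator_def] at h3 ⊢
    rw [h3, ← MonoidHom.range_eq_map, h2] at h1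
    exact h1.symm
  inn := by
    rintro t' ⟨l', ⟨l, hl, rfl⟩, h1⟩ s' ⟨s, hs, rfl⟩
    have h2 := h.inn (e.symm t') ⟨l, hl, fun r => ?_⟩ s hs
    · have h3 := congrArg e h2
      rw [map_mul, map_mul, e.apply_symm_apply] at h3
      exact h3
    · have h3 := congrArg e.symm (h1 (e r))
      rw [map_mul, map_mul, map_inv, e.symm_apply_apply] at h3
      rw [h3]
      show e.symm (e (l (e.symm (e r)))) = l r
      rw [e.symm_apply_apply, e.symm_apply_apply]
  stb := by
    rintro l' ⟨l, hl, rfl⟩ s' ⟨s, hs, rfl⟩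
    refine ⟨l s, h.stb l hl s hs, ?_⟩
    show e (l s) = e (l (e.symm (e s)))
    rw [e.symm_apply_apply]
  gen := by
    obtain ⟨h', hh⟩ := h.gen
    refine ⟨fun j => e (h' j), fun R hR => ?_⟩
    have h1 := hh (R.comap e.toMonoidHom) (fun j s hs => by
      rw [Subgroup.mem_comap]
      show e (h' j * s * (h' j)⁻¹) ∈ R
      rw [map_mul, map_mul, map_inv]
      exact hR j (e s) ⟨s, hs, rfl⟩)
    rw [eq_top_iff]
    intro t' _
    have h2 : e.symm t' ∈ R.comap e.toMonoidHom := by
      rw [h1]
      exact Subgroup.mem_top _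
    have h3 : e (e.symm t') ∈ R := h2
    rwa [e.apply_symm_apply] at h3
  crd := by
    rw [← Nat.card_congr e.toEquiv]
    refine le_trans (le_of_eq ?_) h.crd
    exact (Nat.card_congr (L.equivMapOfInjective (MulAut.congr e).toMonoidHom
      (MulAut.congr e).injective).toEquiv).symm
  typ := by
    rcases h.typ with h1 | ⟨τ, h1, h2⟩
    · left
      rintro l' ⟨l, hl, rfl⟩ s' ⟨s, hs, rfl⟩
      show e (l (e.symm (e s))) = e s
      rw [e.symm_apply_apply, h1 l hl s hs]
    · right
      obtain ⟨f, hf⟩ : ∃ f : S0 ≃* S0.map e.toMonoidHom, ∀ s, ((f s : _) : T') = e s :=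
        ⟨S0.equivMapOfInjective e.toMonoidHom e.injective, fun s => rfl⟩
      refine ⟨MulAut.congr f τ, cv_congr f h1, ?_⟩
      rintro l' ⟨l, hl, rfl⟩
      have h4 : ∀ s' : S0.map e.toMonoidHom, (MulAut.congr e).toMonoidHom l s' =
          e (l (f.symm s')) := by
        intro s'
        show e (l (e.symm s')) = e (l (f.symm s'))
        have h5 := hf (f.symm s')
        rw [f.apply_symm_apply] at h5
        rw [h5, e.symm_apply_apply]
      rcases h2 l hl with h3 | h3
      · left
        intro s'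
        rw [h4, h3, ← hf, f.apply_symm_apply]
      · right
        intro s'
        rw [h4, h3]
        exact (hf _).symm

/-- Larger `c`. -/
theorem sg2_mono {T : Type} [Group T] [Finite T] {S0 : Subgroup T}
    {L : Subgroup (MulAut T)} {c c' : ℕ} (hc : c ≤ c') (h : SG2 c T S0 L) :
    SG2 c' T S0 L where
  prf := h.prf
  inn := h.inn
  stb := h.stb
  gen := gen_mono hc h.gen
  crd := h.crd.trans (Nat.pow_le_pow_right Nat.card_pos hc)
  typ := by
    rcases h.typ with h1 | ⟨τ, h1, h2⟩
    · exact Or.inl h1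
    · exact Or.inr ⟨τ, cv_mono hc h1, h2⟩

/-- The type of a structure on the full group. -/
theorem typ_top {T : Type} [Group T] [Finite T] {S0 : Subgroup T} (h0 : S0 = ⊤)
    {L : Subgroup (MulAut T)} {c : ℕ} {τ : MulAut T} (h1 : CV c T τ)
    (h2 : ∀ l ∈ L, l = 1 ∨ l = τ) :
    ∃ τ' : MulAut S0, CV c S0 τ' ∧ ∀ l ∈ L, (∀ s : S0, l s = s) ∨ ∀ s : S0, l s = τ' s := by
  subst h0
  refine ⟨MulAut.congr Subgroup.topEquiv.symm τ, cv_congr _ h1, fun l hl => ?_⟩
  rcases h2 l hl with rfl | rfl
  · left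
    intro s
    rfl
  · right
    intro s
    rfl

/-- The automorphisms which act on `S0` trivially or as `τ`. -/
def lst {T : Type} [Group T] (S0 : Subgroup T) (τ : MulAut T) (h1 : τ * τ = 1)
    (h2 : ∀ s ∈ S0, τ s ∈ S0) : Subgroup (MulAut T) where
  carrier := {l | (∀ s ∈ S0, l s = s) ∨ ∀ s ∈ S0, l s = τ s}
  one_mem' := Or.inl fun s _ => rfl
  mul_mem' := by
    rintro a b (ha | ha) (hb | hb)
    · exact Or.inl fun s hs => by rw [MulAut.mul_apply, hb s hs, ha s hs]
    · exact Or.inr fun s hs => by rw [MulAut.mul_apply, hb s hs, ha _ (h2 s hs)]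
    · exact Or.inr fun s hs => by rw [MulAut.mul_apply, hb s hs, ha s hs]
    · refine Or.inl fun s hs => ?_
      rw [MulAut.mul_apply, hb s hs, ha _ (h2 s hs), ← MulAut.mul_apply, h1]
      rfl
  inv_mem' := by
    rintro a (ha | ha)
    · refine Or.inl fun s hs => ?_
      calc a⁻¹ s = a⁻¹ (a s) := by rw [ha s hs]
        _ = s := MulAut.inv_apply_self T a s
    · refine Or.inr fun s hs => ?_
      have h3 : a (τ s) = s := by
        rw [ha _ (h2 s hs), ← MulAut.mul_apply, h1]
        rfl
      calc a⁻¹ s = a⁻¹ (a (τ s)) := by rw [h3]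
        _ = τ s := MulAut.inv_apply_self T a (τ s)

/-- The structure given by an involution. -/
theorem sg2_lst {T : Type} [Group T] [Finite T] [Nontrivial T] (S0 : Subgroup T) (τ : MulAut T)
    (h1 : τ * τ = 1) (h2 : ∀ s ∈ S0, τ s ∈ S0) (hp : commutator S0 = ⊤) {c : ℕ}
    (hg : GenC c T S0)
    (hcv : ∃ τ0 : MulAut S0, (∀ s : S0, (τ0 s : T) = τ s) ∧ CV c S0 τ0)
    (hin : ∀ t : T, ¬ ∀ s ∈ S0, t * s * t⁻¹ = τ s) : SG2 (c + 1) T S0 (lst S0 τ h1 h2) where
  prf := hp
  inn := by
    rintro t ⟨l, hl, ht⟩ s hs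
    rcases hl with hl | hl
    · have h3 := ht s
      rw [hl s hs] at h3
      exact mul_inv_eq_iff_eq_mul.1 h3
    · exact absurd (fun s hs => (ht s).trans (hl s hs)) (hin t)
  stb := by
    rintro l (hl | hl) s hs
    · rw [hl s hs]
      exact hs
    · rw [hl s hs]
      exact h2 s hs
  gen := gen_mono (Nat.le_succ c) hg
  crd := by
    classical
    obtain ⟨h, hh⟩ := hg
    have h3 : Nat.card (Bool × (Fin c → T)) = 2 * Nat.card T ^ c := by
      rw [Nat.card_prod, Nat.card_pi, Finset.prod_const, Finset.card_univ, Fintype.card_fin,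
        Nat.card_eq_fintype_card, Fintype.card_bool]
    have h4 : 2 * Nat.card T ^ c ≤ Nat.card T ^ (c + 1) := by
      rw [pow_succ, mul_comm]
      exact Nat.mul_le_mul_left _ Finite.one_lt_card
    refine le_trans ?_ (h3.le.trans h4)
    refine Nat.card_le_card_of_injective
      (fun l : lst S0 τ h1 h2 => (decide (∀ s ∈ S0, (l : MulAut T) s = s),
        fun j => (l : MulAut T) (h j))) ?_
    intro l l' hl
    have h5 := congrArg Prod.fst hl
    have h6 := congrArg Prod.snd hl
    refine Subtype.ext (gen_ext hh l l' (fun j => congrFun h6 j) fun s hs => ?_)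
    have h7 : (∀ s ∈ S0, (l : MulAut T) s = s) ↔ ∀ s ∈ S0, (l' : MulAut T) s = s := by
      simpa using h5
    by_cases h8 : ∀ s ∈ S0, (l : MulAut T) s = s
    · rw [h8 s hs, (h7.1 h8) s hs]
    · rw [(l.2.resolve_left h8) s hs, (l'.2.resolve_left fun h9 => h8 (h7.2 h9)) s hs]
  typ := by
    obtain ⟨τ0, h3, h4⟩ := hcv
    refine Or.inr ⟨τ0, cv_mono (Nat.le_succ c) h4, ?_⟩
    rintro l (hl | hl)
    · exact Or.inl fun s => hl s s.2
    · exact Or.inr fun s => (hl s s.2).trans (h3 s).symm

/-- A list can be shortened to at most `card T` members, with the same product. -/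
theorem sgt2_short {T : Type} [Group T] [Finite T] (p : T → Prop) (n : ℕ) :
    ∀ l : List T, l.length = n → (∀ y ∈ l, p y) →
      ∃ l' : List T, l'.length ≤ Nat.card T ∧ (∀ y ∈ l', p y) ∧ l'.prod = l.prod := by
  induction n using Nat.strong_induction_on with
  | _ n ih =>
    intro l hl hp
    by_cases hn : n ≤ Nat.card T
    · exact ⟨l, hl.le.trans hn, hp, rfl⟩
    have h1 : Nat.card T < Nat.card (Fin (n + 1)) := by
      rw [Nat.card_eq_fintype_card (α := Fin (n + 1)), Fintype.card_fin]
      omega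
    have h2 : ¬ Function.Injective (fun i : Fin (n + 1) => (l.take i.val).prod) := fun h =>
      absurd (Nat.card_le_card_of_injective _ h) (not_le.2 h1)
    obtain ⟨i, j, hij, hne⟩ : ∃ i j : Fin (n + 1),
        (l.take i.val).prod = (l.take j.val).prod ∧ i.val < j.val := by
      simp only [Function.Injective, not_forall] at h2
      obtain ⟨i, j, h3, h4⟩ := h2
      rcases lt_or_gt_of_ne (fun h => h4 (Fin.ext h) : i.val ≠ j.val) with h5 | h5
      · exact ⟨i, j, h3, h5⟩
      · exact ⟨j, i, h3.symm, h5⟩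
    have hj := j.2
    obtain ⟨l', h5, h6, h7⟩ := ih (i.val + (n - j.val)) (by omega)
      (l.take i.val ++ l.drop j.val)
      (by rw [List.length_append, List.length_take, List.length_drop, hl]; omega)
      (fun y hy => by
        rcases List.mem_append.1 hy with h | h
        · exact hp y (List.mem_of_mem_take h)
        · exact hp y (List.mem_of_mem_drop h))
    refine ⟨l', h5, h6, h7.trans ?_⟩
    rw [List.prod_append, hij, ← List.prod_append, List.take_append_drop]

/-- In a finite nonabelian simple group the normal closure of a nontrivial element is everything: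
every nontrivial element covers.

Proof. The set of the products of lists of conjugates of `b` and `b⁻¹` is a normal subgroup, not
trivial, so it is `⊤`. If the shortest list for `x` had more than `card T` members then two of its
initial segments would have the same product, and the list could be shortened. -/
theorem cov_simple {T : Type} [Group T] [Finite T] [IsSimpleGroup T] {b : T} (hb : b ≠ 1) :
    Cov (Nat.card T) b := by
  intro x
  have h1 : Subgroup.normalClosure ({b} : Set T) = ⊤ := by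
    rcases IsSimpleGroup.eq_bot_or_eq_top_of_normal (Subgroup.normalClosure ({b} : Set T))
      Subgroup.normalClosure_normal with h | h
    · exfalso
      have h2 : b ∈ Subgroup.normalClosure ({b} : Set T) :=
        Subgroup.subset_normalClosure (Set.mem_singleton b)
      rw [h, Subgroup.mem_bot] at h2
      exact hb h2
    · exact h
  have h2 : x ∈ Subgroup.closure (Group.conjugatesOfSet ({b} : Set T)) := by
    have h3 : x ∈ Subgroup.normalClosure ({b} : Set T) := by
      rw [h1]
      exact Subgroup.mem_top x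
    exact h3
  have hcj : ∀ y : T, y ∈ Group.conjugatesOfSet ({b} : Set T) → ∃ g : T, g * b * g⁻¹ = y := by
    intro y hy
    obtain ⟨a, ha, hc⟩ := Group.mem_conjugatesOfSet_iff.1 hy
    rw [Set.mem_singleton_iff.1 ha] at hc
    exact isConj_iff.1 hc
  have h2' : x ∈ Submonoid.closure (Group.conjugatesOfSet ({b} : Set T) ∪
      (Group.conjugatesOfSet ({b} : Set T))⁻¹) := by
    rw [← Subgroup.closure_toSubmonoid]
    exact h2
  obtain ⟨l, hl, hx⟩ := Submonoid.exists_list_of_mem_closure h2'
  obtain ⟨l', h3, h4, h5⟩ := sgt2_short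
    (fun y => ∃ g, y = g * b * g⁻¹ ∨ y = g * b⁻¹ * g⁻¹) l.length l rfl (fun y hy => by
      rcases hl y hy with h | h
      · obtain ⟨g, hg⟩ := hcj y h
        exact ⟨g, Or.inl hg.symm⟩
      · obtain ⟨g, hg⟩ := hcj y⁻¹ (Set.mem_inv.1 h)
        refine ⟨g, Or.inr ?_⟩
        rw [← inv_inv y, ← hg]
        group)
  exact ⟨l', h3, h4, h5.trans hx⟩

end Pool.Agent.MPfe8e9bN
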