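import Mathlib
import Pool.Agent.Lib.MP_fe8e9b_al_N.Defs
import Pool.Agent.Lib.MP_fe8e9b_al_N.SGT2
import Pool.Agent.Lib.MP_fe8e9b_al_N.PslA

/-!
# MP_fe8e9b_al, groups of bounded height: products of conjugates in the groups `PSL_2`
-/

set_option autoImplicit false

open scoped BigOperators MatrixGroups

namespace Pool.Agent.MPfe8e9bN

open Matrix

variable {F : Type} [Field F]

/-- Upper unipotent matrices. -/
def uu (x : F) : SL(2, F) := ⟨!![1, x; 0, 1], by rw [Matrix.det_fin_two_of]; ring⟩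

/-- Lower unipotent matrices. -/
def ll (x : F) : SL(2, F) := ⟨!![1, 0; x, 1], by rw [Matrix.det_fin_two_of]; ring⟩

/-- Diagonal matrices. -/
def dg (x : F) (hx : x ≠ 0) : SL(2, F) :=
  ⟨!![x, 0; 0, x⁻¹], by rw [Matrix.det_fin_two_of, mul_inv_cancel₀ hx]; ring⟩

/-- The matrix `[[0, -1], [1, 0]]`. -/
def ww : SL(2, F) := ⟨!![0, -1; 1, 0], by rw [Matrix.det_fin_two_of]; ring⟩

theorem pslb_ext {A B : SL(2, F)} (h1 : A.1 0 0 = B.1 0 0) (h2 : A.1 0 1 = B.1 0 1)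
    (h3 : A.1 1 0 = B.1 1 0) (h4 : A.1 1 1 = B.1 1 1) : A = B := by
  apply Subtype.ext
  ext i j
  fin_cases i <;> fin_cases j
  exacts [h1, h2, h3, h4]

theorem pslb_det (A : SL(2, F)) : A.1 0 0 * A.1 1 1 - A.1 0 1 * A.1 1 0 = 1 := by
  have h := A.2
  rwa [Matrix.det_fin_two] at h

theorem pslb_mul (A B : SL(2, F)) (i j : Fin 2) :
    (A * B).1 i j = A.1 i 0 * B.1 0 j + A.1 i 1 * B.1 1 j := by
  show (A.1 * B.1) i j = _
  rw [Matrix.mul_apply, Fin.sum_univ_two]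

theorem pslb_inv (A : SL(2, F)) : (A⁻¹).1 0 0 = A.1 1 1 ∧ (A⁻¹).1 0 1 = -A.1 0 1 ∧
    (A⁻¹).1 1 0 = -A.1 1 0 ∧ (A⁻¹).1 1 1 = A.1 0 0 := by
  have h := congrArg Subtype.val (Matrix.SpecialLinearGroup.SL2_inv_expl A)
  rw [h]
  exact ⟨rfl, rfl, rfl, rfl⟩

theorem pslb_of (a b c d : F) : (!![a, b; c, d] : Matrix (Fin 2) (Fin 2) F) 0 0 = a ∧
    (!![a, b; c, d] : Matrix (Fin 2) (Fin 2) F) 0 1 = b ∧
    (!![a, b; c, d] : Matrix (Fin 2) (Fin 2) F) 1 0 = c ∧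
    (!![a, b; c, d] : Matrix (Fin 2) (Fin 2) F) 1 1 = d := ⟨rfl, rfl, rfl, rfl⟩

theorem pslb_ll (x : F) : (ll x).1 0 0 = 1 ∧ (ll x).1 0 1 = 0 ∧ (ll x).1 1 0 = x ∧
    (ll x).1 1 1 = 1 := ⟨rfl, rfl, rfl, rfl⟩

theorem pslb_uu (x : F) : (uu x).1 0 0 = 1 ∧ (uu x).1 0 1 = x ∧ (uu x).1 1 0 = 0 ∧
    (uu x).1 1 1 = 1 := ⟨rfl, rfl, rfl, rfl⟩

theorem pslb_ww : (ww : SL(2, F)).1 0 0 = 0 ∧ (ww : SL(2, F)).1 0 1 = -1 ∧
    (ww : SL(2, F)).1 1 0 = 1 ∧ (ww : SL(2, F)).1 1 1 = 0 := ⟨rfl, rfl, rfl, rfl⟩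

theorem pslb_dg (x : F) (hx : x ≠ 0) : (dg x hx).1 0 0 = x ∧ (dg x hx).1 0 1 = 0 ∧
    (dg x hx).1 1 0 = 0 ∧ (dg x hx).1 1 1 = x⁻¹ := ⟨rfl, rfl, rfl, rfl⟩

/-- Lower triangular matrices. -/
def pslbW (x : F) (hx : x ≠ 0) (q : F) : SL(2, F) :=
  ⟨!![x ^ 2, 0; q, (x ^ 2)⁻¹], by
    rw [Matrix.det_fin_two_of, mul_inv_cancel₀ (pow_ne_zero 2 hx)]
    ring⟩

theorem pslb_W (x : F) (hx : x ≠ 0) (q : F) : (pslbW x hx q).1 0 0 = x ^ 2 ∧
    (pslbW x hx q).1 0 1 = 0 ∧ (pslbW x hx q).1 1 0 = q ∧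
    (pslbW x hx q).1 1 1 = (x ^ 2)⁻¹ := ⟨rfl, rfl, rfl, rfl⟩

/-- Products of at most `n` conjugates. -/
def PslbQ {T : Type} [Group T] (b : T) (n : ℕ) (x : T) : Prop :=
  ∃ l : List T, l.length ≤ n ∧ (∀ y ∈ l, ∃ g, y = g * b * g⁻¹ ∨ y = g * b⁻¹ * g⁻¹) ∧ l.prod = x

theorem PslbQ.mul {T : Type} [Group T] {b : T} {n m : ℕ} {x y : T} (h : PslbQ b n x)
    (h' : PslbQ b m y) : PslbQ b (n + m) (x * y) := by
  obtain ⟨l, h1, h2, h3⟩ := h
  obtain ⟨l', h1', h2', h3'⟩ := h'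
  refine ⟨l ++ l', by rw [List.length_append]; omega, fun y hy => ?_, ?_⟩
  · rcases List.mem_append.1 hy with h | h
    · exact h2 y h
    · exact h2' y h
  · rw [List.prod_append, h3, h3']

theorem PslbQ.conj {T : Type} [Group T] {b : T} {n : ℕ} {x : T} (h : PslbQ b n x) (w : T) :
    PslbQ b n (w * x * w⁻¹) := by
  obtain ⟨l, h1, h2, h3⟩ := h
  refine ⟨l.map (MulAut.conj w), by rwa [List.length_map], fun y hy => ?_, ?_⟩
  · obtain ⟨z, hz, rfl⟩ := List.mem_map.1 hy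
    obtain ⟨g, hg⟩ := h2 z hz
    refine ⟨w * g, ?_⟩
    rcases hg with rfl | rfl
    · left
      rw [MulAut.conj_apply]
      group
    · right
      rw [MulAut.conj_apply]
      group
  · rw [← map_list_prod, h3, MulAut.conj_apply]

theorem pslbQ_one {T : Type} [Group T] (b g : T) : PslbQ b 1 (g * b * g⁻¹) :=
  ⟨[g * b * g⁻¹], le_rfl, fun y hy => ⟨g, Or.inl (List.mem_singleton.1 hy)⟩,
    List.prod_singleton⟩

theorem pslbQ_inv {T : Type} [Group T] (b g : T) : PslbQ b 1 (g * b⁻¹ * g⁻¹) :=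
  ⟨[g * b⁻¹ * g⁻¹], le_rfl, fun y hy => ⟨g, Or.inr (List.mem_singleton.1 hy)⟩,
    List.prod_singleton⟩

theorem pslb_cov_conj {T : Type} [Group T] {b : T} {n : ℕ} (w : T) (h : Cov n b) :
    Cov n (w * b * w⁻¹) := by
  intro x
  obtain ⟨l, h1, h2, h3⟩ := h x
  refine ⟨l, h1, fun y hy => ?_, h3⟩
  obtain ⟨g, hg⟩ := h2 y hy
  refine ⟨g * w⁻¹, ?_⟩
  rcases hg with rfl | rfl
  · left
    group
  · right
    group

theorem pslb_comp (A : SL(2, F)) (hc : A.1 1 0 ≠ 0) :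
    ∃ (P B : SL(2, F)) (l r : F), l ≠ 0 ∧ B.1 = !![0, -l; l⁻¹, r] ∧ A = P * B * P⁻¹ := by
  have hd := pslb_det A
  have hl : (A.1 1 0)⁻¹ ≠ 0 := inv_ne_zero hc
  refine ⟨uu (A.1 0 0 / A.1 1 0), ⟨!![0, -(A.1 1 0)⁻¹; ((A.1 1 0)⁻¹)⁻¹, A.1 0 0 + A.1 1 1], ?_⟩,
    (A.1 1 0)⁻¹, A.1 0 0 + A.1 1 1, hl, rfl, ?_⟩
  · rw [Matrix.det_fin_two_of, zero_mul, neg_mul, mul_inv_cancel₀ hl]
    ring
  · refine pslb_ext ?_ ?_ ?_ ?_ <;> simp only [pslb_mul, pslb_uu, pslb_inv, pslb_of]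
    · field_simp
      ring
    · field_simp
      linear_combination -hd
    · field_simp
      ring
    · field_simp
      ring

/-- Every matrix is a product of four unipotent ones.

Proof. `A = [[a, b], [c, d]]`. If `c ≠ 0`: `A = u((a - 1) / c) l(c) u((d - 1) / c)`. If `c = 0` then
`l(1) A` has the lower left entry `a ≠ 0`. -/
theorem sl_four (A : SL(2, F)) : ∃ x y z w, A = ll x * uu y * ll z * uu w := by
  have hd := pslb_det A
  by_cases hc : A.1 1 0 = 0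
  · have ha : A.1 0 0 ≠ 0 := by
      intro h
      rw [hc, h] at hd
      simp at hd
    rw [hc, mul_zero, sub_zero] at hd
    refine ⟨-1, (A.1 0 0 - 1) / A.1 0 0, A.1 0 0, (A.1 0 1 + A.1 1 1 - 1) / A.1 0 0, ?_⟩
    have h1 : A.1 1 1 = (A.1 0 0)⁻¹ := by
      field_simp
      linear_combination hd
    refine pslb_ext ?_ ?_ ?_ ?_ <;> simp only [pslb_mul, pslb_ll, pslb_uu]
    · field_simp
      ring
    · rw [h1]
      field_simp
      ring
    · rw [hc]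
      field_simp
      ring
    · rw [h1]
      field_simp
      ring
  · refine ⟨0, (A.1 0 0 - 1) / A.1 1 0, A.1 1 0, (A.1 1 1 - 1) / A.1 1 0, ?_⟩
    refine pslb_ext ?_ ?_ ?_ ?_ <;> simp only [pslb_mul, pslb_ll, pslb_uu]
    · field_simp
      ring
    · field_simp
      linear_combination -hd
    · field_simp
      ring
    · field_simp
      ring

/-- A matrix which is not central is conjugate to a matrix with the first column `(0, l⁻¹)`.

Proof. If the lower left entry `c` of `A` is not zero then `uu (-(a / c)) * A * uu (a / c) =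
[[0, -c⁻¹], [c, a + d]]`, `l = c⁻¹`. If `c = 0`, `b ≠ 0`, conjugate by `ww`. If `b = c = 0` then
`a ≠ d` (otherwise `A` is scalar, central), and `ll 1 * A * ll (-1)` has the lower left entry
`a - d ≠ 0`. -/
theorem sl_comp (A : SL(2, F)) (hA : A ∉ Subgroup.center SL(2, F)) :
    ∃ (P B : SL(2, F)) (l r : F), l ≠ 0 ∧ B.1 = !![0, -l; l⁻¹, r] ∧ A = P * B * P⁻¹ := by
  by_cases hc : A.1 1 0 = 0
  · by_cases hb : A.1 0 1 = 0
    · have had : A.1 0 0 - A.1 1 1 ≠ 0 := by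
        intro h
        apply hA
        rw [Subgroup.mem_center_iff]
        intro g
        refine pslb_ext ?_ ?_ ?_ ?_ <;> simp only [pslb_mul, hb, hc] <;>
          first | ring1 | linear_combination (-(g.1 0 1)) * h | linear_combination (g.1 1 0) * h
      have h1 : (ll 1 * A * (ll 1)⁻¹ : SL(2, F)).1 1 0 ≠ 0 := by
        simp only [pslb_mul, pslb_ll, pslb_inv, hb, hc]
        intro h
        apply had
        linear_combination h
      obtain ⟨P, B, l, r, h2, h3, h4⟩ := pslb_comp _ h1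
      refine ⟨(ll 1)⁻¹ * P, B, l, r, h2, h3, ?_⟩
      calc A = (ll 1)⁻¹ * (ll 1 * A * (ll 1)⁻¹) * ll 1 := by group
        _ = (ll 1)⁻¹ * P * B * ((ll 1)⁻¹ * P)⁻¹ := by
          rw [h4]
          group
    · have h1 : (ww * A * ww⁻¹ : SL(2, F)).1 1 0 ≠ 0 := by
        simp only [pslb_mul, pslb_ww, pslb_inv]
        intro h
        apply hb
        linear_combination -h
      obtain ⟨P, B, l, r, h2, h3, h4⟩ := pslb_comp _ h1
      refine ⟨ww⁻¹ * P, B, l, r, h2, h3, ?_⟩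
      calc A = ww⁻¹ * (ww * A * ww⁻¹) * ww := by group
        _ = ww⁻¹ * P * B * (ww⁻¹ * P)⁻¹ := by
          rw [h4]
          group
  · exact pslb_comp A hc

/-- Every matrix is a product of at most sixteen conjugates of a noncentral matrix or its inverse,
if the field has an element with `x ^ 4 ≠ 1`.

Proof. `sl_comp` and `Cov` is invariant under conjugation: let `A = B = [[0, -l], [l⁻¹, r]]`. With
`D = dg x`, `W = D B D⁻¹ B⁻¹ = [[x ^ 2, 0], [r l⁻¹ (x⁻² - 1), x⁻²]]`, and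
`W (ll s) W⁻¹ (ll s)⁻¹ = ll ((x⁻⁴ - 1) s)`. The left side is
`(D B D⁻¹) * B⁻¹ * (ll s * B * (ll s)⁻¹) * (ll s * D * B⁻¹ * D⁻¹ * (ll s)⁻¹)`, so all `ll z` are
products of four conjugates; `uu z = ww * ll (-z) * ww⁻¹` as well. `sl_four`. -/
theorem sl_cov (hx : ∃ x : F, x ≠ 0 ∧ x ^ 4 ≠ 1) (A : SL(2, F))
    (hA : A ∉ Subgroup.center SL(2, F)) : Cov 16 A := by
  obtain ⟨P, B, l, r, hl, hB, rfl⟩ := sl_comp A hA
  obtain ⟨x, hx0, hx4⟩ := hx
  refine pslb_cov_conj P fun X => ?_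
  have hll : ∀ z, PslbQ B 4 (ll z) := by
    intro z
    have hne : (x⁻¹) ^ 4 - 1 ≠ 0 := by
      rw [sub_ne_zero]
      intro h
      apply hx4
      rw [inv_pow] at h
      exact inv_eq_one.1 h
    have h1 : ll z = (dg x hx0 * B * (dg x hx0)⁻¹) * (1 * B⁻¹ * 1⁻¹) *
        (ll (z / ((x⁻¹) ^ 4 - 1)) * B * (ll (z / ((x⁻¹) ^ 4 - 1)))⁻¹) *
        (ll (z / ((x⁻¹) ^ 4 - 1)) * dg x hx0 * B⁻¹ *
          (ll (z / ((x⁻¹) ^ 4 - 1)) * dg x hx0)⁻¹) := by
      obtain ⟨s, hs⟩ : ∃ s, s = z / ((x⁻¹) ^ 4 - 1) := ⟨_, rfl⟩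
      have hz : z = s * ((x⁻¹) ^ 4 - 1) := by rw [hs, div_mul_cancel₀ _ hne]
      rw [← hs]
      have hW : (dg x hx0 * B * (dg x hx0)⁻¹) * B⁻¹ = pslbW x hx0 (r * l⁻¹ * (x⁻¹ ^ 2 - 1)) := by
        refine pslb_ext ?_ ?_ ?_ ?_ <;>
          simp only [pslb_mul, pslb_dg, pslb_inv, pslb_W, hB, pslb_of] <;> field_simp <;> ring
      have hW2 : ∀ q, pslbW x hx0 q * ll s * (pslbW x hx0 q)⁻¹ * (ll s)⁻¹ =
          ll (s * ((x⁻¹) ^ 4 - 1)) := by
        intro q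
        refine pslb_ext ?_ ?_ ?_ ?_ <;>
          simp only [pslb_mul, pslb_ll, pslb_inv, pslb_W] <;> field_simp <;> ring
      rw [hz, ← hW2 (r * l⁻¹ * (x⁻¹ ^ 2 - 1)), ← hW]
      group
    rw [h1]
    exact (((pslbQ_one _ _).mul (pslbQ_inv _ _)).mul (pslbQ_one _ _)).mul (pslbQ_inv _ _)
  have huu : ∀ z, PslbQ B 4 (uu z) := by
    intro z
    have h1 : uu z = ww * ll (-z) * ww⁻¹ := by
      refine pslb_ext ?_ ?_ ?_ ?_ <;> simp only [pslb_mul, pslb_ll, pslb_uu, pslb_ww, pslb_inv] <;>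
        ring
    rw [h1]
    exact (hll (-z)).conj ww
  obtain ⟨a, b, c, d, h⟩ := sl_four X
  rw [h]
  exact (((hll a).mul (huu b)).mul (hll c)).mul (huu d)

/-- The same in `PSL_2`. Proof. Images of products of conjugates. -/
theorem psl_cov (hx : ∃ x : F, x ≠ 0 ∧ x ^ 4 ≠ 1) (b : PSL(2, F)) (hb : b ≠ 1) :
    Cov 16 b := by
  obtain ⟨A, rfl⟩ := QuotientGroup.mk_surjective b
  have hA : A ∉ Subgroup.center SL(2, F) := fun h => hb ((QuotientGroup.eq_one_iff A).2 h)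
  intro y
  obtain ⟨Y, rfl⟩ := QuotientGroup.mk_surjective y
  obtain ⟨l, h1, h2, h3⟩ := sl_cov hx A hA Y
  refine ⟨l.map (QuotientGroup.mk' (Subgroup.center SL(2, F))), by rwa [List.length_map],
    fun y hy => ?_, ?_⟩
  · obtain ⟨z, hz, rfl⟩ := List.mem_map.1 hy
    obtain ⟨g, hg⟩ := h2 z hz
    refine ⟨QuotientGroup.mk' (Subgroup.center SL(2, F)) g, ?_⟩
    rcases hg with rfl | rfl
    · left
      rw [map_mul, map_mul, map_inv]
      rfl
    · right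
      rw [map_mul, map_mul, map_inv, map_inv]
      rfl
  · rw [← map_list_prod, h3]
    rfl

theorem pslb_card [Finite F] : Nat.card SL(2, F) ≤ Nat.card F ^ 3 := by
  classical
  have h1 : Nat.card (F × F × F) = Nat.card F ^ 3 := by
    rw [Nat.card_prod, Nat.card_prod]
    ring
  rw [← h1]
  refine Nat.card_le_card_of_injective (fun A : SL(2, F) =>
    (A.1 0 0, A.1 0 1, if A.1 0 0 = 0 then A.1 1 1 else A.1 1 0)) ?_
  intro A B hAB
  have e1 := congrArg Prod.fst hAB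
  have e2 := congrArg (fun t => t.2.1) hAB
  have e3 := congrArg (fun t => t.2.2) hAB
  simp only at e1 e2 e3
  have hA := pslb_det A
  have hB := pslb_det B
  by_cases h0 : A.1 0 0 = 0
  · rw [if_pos h0, if_pos (by rw [← e1]; exact h0)] at e3
    have hb : A.1 0 1 ≠ 0 := by
      intro h
      rw [h0, h] at hA
      simp at hA
    refine pslb_ext e1 e2 (mul_left_cancel₀ hb ?_) e3
    rw [← e1, ← e2, h0] at hB
    rw [h0] at hA
    linear_combination hB - hA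
  · rw [if_neg h0, if_neg (by rw [← e1]; exact h0)] at e3
    refine pslb_ext e1 e2 e3 (mul_left_cancel₀ h0 ?_)
    rw [← e1, ← e2, ← e3] at hB
    linear_combination hA - hB

/-- All cases. Proof. If the field has at least six elements then there is `x ≠ 0` with
`x ^ 4 ≠ 1` (a polynomial of degree four has at most four roots). Otherwise `PSL_2` is simple
(`Matrix.ProjectiveSpecialLinearGroup.rank_two_simple`) and `cov_simple` applies: the number of
elements of `PSL_2` is at most that of `SL_2`, which is at most `card F ^ 3 ≤ 125` (the first row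
`(a, b)` and one more entry, `c` if `a ≠ 0` and `d` if `a = 0`, determine the matrix). -/
theorem psl_cov_all [Finite F] (hF : 4 ≤ Nat.card F) (b : PSL(2, F)) (hb : b ≠ 1) :
    Cov 125 b := by
  by_cases h6 : 6 ≤ Nat.card F
  · refine cov_mono (by norm_num) (psl_cov ?_ b hb)
    obtain ⟨x, hx⟩ : IsCyclic Fˣ := by infer_instance
    refine ⟨x, Units.ne_zero x, fun h => ?_⟩
    have h1 : x ^ 4 = 1 := Units.ext (by simpa using h)
    have h2 := orderOf_le_of_pow_eq_one (by norm_num : 0 < 4) h1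
    have h3 := orderOf_eq_card_of_forall_mem_zpowers hx
    have h4 := Nat.card_eq_card_units_add_one F
    omega
  · have h1 : IsSimpleGroup PSL(2, F) := Matrix.ProjectiveSpecialLinearGroup.rank_two_simple hF
    have h2 : Finite SL(2, F) := Finite.of_injective (fun A : SL(2, F) => A.1) Subtype.val_injective
    have h3 : Finite PSL(2, F) := Finite.of_surjective _ QuotientGroup.mk_surjective
    refine cov_mono ?_ (cov_simple hb)
    have h4 : Nat.card PSL(2, F) ≤ Nat.card SL(2, F) :=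
      Nat.card_le_card_of_surjective _ QuotientGroup.mk_surjective
    have h5 := pslb_card (F := F)
    have h7 : Nat.card F ^ 3 ≤ 5 ^ 3 := Nat.pow_le_pow_left (by omega) 3
    omega

/-- The number of matrices of determinant one. Proof. See `psl_cov_all`. -/
theorem sl_card_le [Finite F] : Nat.card SL(2, F) ≤ Nat.card F ^ 3 :=
  pslb_card

end Pool.Agent.MPfe8e9bN
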