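import Mathlib
import Pool.Agent.Lib.MP_fe8e9b_al_N.PslA
import Pool.Agent.Lib.MP_fe8e9b_al_N.PslB

/-!
# MP_fe8e9b_al, groups of bounded height: the automorphisms of the groups `PSL_2`
-/

set_option autoImplicit false

open scoped BigOperators MatrixGroups

namespace Pool.Agent.MPfe8e9bN

open Matrix

variable {F : Type} [Field F]

/-- The class of a matrix. -/
abbrev pk (A : SL(2, F)) : PSL(2, F) := QuotientGroup.mk A

theorem autp_eq {A B : SL(2, F)} (h : pk A = pk B) :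
    ∃ r : F, r * r = 1 ∧ ∀ i j, B.1 i j = r * A.1 i j := by
  rw [QuotientGroup.eq] at h
  obtain ⟨r, hr, hr2⟩ := Matrix.SpecialLinearGroup.mem_center_iff.1 h
  rw [Fintype.card_fin] at hr
  have h1 : B.1 = A.1 * (A⁻¹ * B).1 := congrArg Subtype.val (mul_inv_cancel_left A B).symm
  rw [← hr2, Matrix.scalar_apply, ← Matrix.smul_one_eq_diagonal, Matrix.mul_smul,
    Matrix.mul_one] at h1
  refine ⟨r, by rw [← sq, hr], fun i j => ?_⟩
  rw [h1]
  rfl

theorem autp_mk {A B : SL(2, F)} {r : F} (hr : r * r = 1)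
    (h : ∀ i j, B.1 i j = r * A.1 i j) : pk A = pk B := by
  rw [QuotientGroup.eq]
  refine Matrix.SpecialLinearGroup.mem_center_iff.2 ⟨r, by rw [Fintype.card_fin, sq, hr], ?_⟩
  have h1 : B.1 = r • A.1 := by
    ext i j
    exact h i j
  have h3 : A⁻¹.1 * A.1 = 1 := congrArg Subtype.val (inv_mul_cancel A)
  rw [Matrix.scalar_apply, ← Matrix.smul_one_eq_diagonal]
  change r • (1 : Matrix (Fin 2) (Fin 2) F) = A⁻¹.1 * B.1
  rw [h1, Matrix.mul_smul, h3]

theorem autp_uu_inj {x y : F} (h : pk (uu x) = pk (uu y)) : x = y := by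
  obtain ⟨r, -, h1⟩ := autp_eq h
  have h2 := h1 0 0
  have h3 := h1 0 1
  simp only [pslb_uu] at h2 h3
  rw [mul_one] at h2
  rw [h3, ← h2, one_mul]

theorem autp_ll_uu {x y : F} (h : pk (ll x) = pk (uu y)) : x = 0 := by
  obtain ⟨r, -, h1⟩ := autp_eq h
  have h2 := h1 0 0
  have h3 := h1 1 0
  simp only [pslb_uu, pslb_ll] at h2 h3
  rw [mul_one] at h2
  rw [← h2, one_mul] at h3
  exact h3.symm

theorem autp_uu_add (x y : F) : uu (x + y) = uu x * uu y := by
  refine pslb_ext ?_ ?_ ?_ ?_ <;> simp only [pslb_mul, pslb_uu] <;> ring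

theorem autp_ll_add (x y : F) : ll (x + y) = ll x * ll y := by
  refine pslb_ext ?_ ?_ ?_ ?_ <;> simp only [pslb_mul, pslb_ll] <;> ring

theorem autp_uu_zero : uu (0 : F) = 1 := by
  refine pslb_ext ?_ ?_ ?_ ?_ <;> rfl

theorem autp_ll_zero : ll (0 : F) = 1 := by
  refine pslb_ext ?_ ?_ ?_ ?_ <;> rfl

theorem autp_uu_ne {x : F} (hx : x ≠ 0) : pk (uu x) ≠ 1 := by
  intro h
  have h1 : pk (uu x) = pk (uu 0) := by
    rw [h, autp_uu_zero]
    rfl
  exact hx (autp_uu_inj h1)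

theorem autp_ll_ne {x : F} (hx : x ≠ 0) : pk (ll x) ≠ 1 := by
  intro h
  have h1 : pk (ll x) = pk (uu 0) := by
    rw [h, autp_uu_zero]
    rfl
  exact hx (autp_ll_uu h1)

/-- The classes which commute with a unipotent class.

Proof. `A (uu x) A⁻¹ = z (uu x)`, `z` a scalar with square one; the trace gives `2 = 2 z`, and
`z = 1` also if `2 = 0`. So `A` commutes with `uu x`: `c = 0`, `a = d`, `a ^ 2 = 1`, and
`A = a • uu (a * b)`. -/
theorem cent_uu {x : F} (hx : x ≠ 0) (A : SL(2, F)) (h : pk A * pk (uu x) = pk (uu x) * pk A) :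
    ∃ y, pk A = pk (uu y) := by
  obtain ⟨r, hr, h1⟩ := autp_eq (A := A * uu x) (B := uu x * A) h
  have hd := pslb_det A
  have e00 := h1 0 0
  have e01 := h1 0 1
  have e10 := h1 1 0
  simp only [pslb_mul, pslb_uu] at e00 e01 e10
  by_cases hr1 : r = 1
  · subst hr1
    have hc : A.1 1 0 = 0 := by
      have h2 : x * A.1 1 0 = 0 := by linear_combination e00
      exact (mul_eq_zero.1 h2).resolve_left hx
    have hda : A.1 1 1 = A.1 0 0 := by
      have h2 : x * (A.1 1 1 - A.1 0 0) = 0 := by linear_combination e01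
      exact sub_eq_zero.1 ((mul_eq_zero.1 h2).resolve_left hx)
    rw [hc, hda, mul_zero, sub_zero] at hd
    refine ⟨A.1 0 0 * A.1 0 1, autp_mk (r := A.1 0 0) hd fun i j => ?_⟩
    fin_cases i <;> fin_cases j
    · change (1 : F) = A.1 0 0 * A.1 0 0
      exact hd.symm
    · rfl
    · change (0 : F) = A.1 0 0 * A.1 1 0
      rw [hc, mul_zero]
    · change (1 : F) = A.1 0 0 * A.1 1 1
      rw [hda]
      exact hd.symm
  · exfalso
    have hr2 : 1 - r ≠ 0 := fun h2 => hr1 (sub_eq_zero.1 h2).symm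
    have hc : A.1 1 0 = 0 := by
      have h2 : (1 - r) * A.1 1 0 = 0 := by linear_combination e10
      exact (mul_eq_zero.1 h2).resolve_left hr2
    have ha : A.1 0 0 = 0 := by
      rw [hc] at e00
      have h2 : (1 - r) * A.1 0 0 = 0 := by linear_combination e00
      exact (mul_eq_zero.1 h2).resolve_left hr2
    rw [hc, ha, zero_mul, mul_zero, sub_zero] at hd
    exact zero_ne_one hd

/-- The same for lower unipotent matrices. -/
theorem cent_ll {x : F} (hx : x ≠ 0) (A : SL(2, F)) (h : pk A * pk (ll x) = pk (ll x) * pk A) :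
    ∃ y, pk A = pk (ll y) := by
  obtain ⟨r, hr, h1⟩ := autp_eq (A := A * ll x) (B := ll x * A) h
  have hd := pslb_det A
  have e00 := h1 0 0
  have e01 := h1 0 1
  have e10 := h1 1 0
  have e11 := h1 1 1
  simp only [pslb_mul, pslb_ll] at e00 e01 e10 e11
  by_cases hr1 : r = 1
  · subst hr1
    have hb : A.1 0 1 = 0 := by
      have h2 : x * A.1 0 1 = 0 := by linear_combination -e00
      exact (mul_eq_zero.1 h2).resolve_left hx
    have hda : A.1 1 1 = A.1 0 0 := by
      have h2 : x * (A.1 1 1 - A.1 0 0) = 0 := by linear_combination -e10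
      exact sub_eq_zero.1 ((mul_eq_zero.1 h2).resolve_left hx)
    rw [hb, hda, zero_mul, sub_zero] at hd
    refine ⟨A.1 0 0 * A.1 1 0, autp_mk (r := A.1 0 0) hd fun i j => ?_⟩
    fin_cases i <;> fin_cases j
    · change (1 : F) = A.1 0 0 * A.1 0 0
      exact hd.symm
    · change (0 : F) = A.1 0 0 * A.1 0 1
      rw [hb, mul_zero]
    · rfl
    · change (1 : F) = A.1 0 0 * A.1 1 1
      rw [hda]
      exact hd.symm
  · exfalso
    have hr2 : 1 - r ≠ 0 := fun h2 => hr1 (sub_eq_zero.1 h2).symm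
    have hb : A.1 0 1 = 0 := by
      have h2 : (1 - r) * A.1 0 1 = 0 := by linear_combination e01
      exact (mul_eq_zero.1 h2).resolve_left hr2
    have hd2 : A.1 1 1 = 0 := by
      rw [hb] at e11
      have h2 : (1 - r) * A.1 1 1 = 0 := by linear_combination e11
      exact (mul_eq_zero.1 h2).resolve_left hr2
    rw [hb, hd2, zero_mul, mul_zero, sub_zero] at hd
    exact zero_ne_one hd

/-- A matrix with trace two which is not one is conjugate to a unipotent matrix. -/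
theorem autp_trace (B : SL(2, F)) (ht : B.1 0 0 + B.1 1 1 = 2) (hB : B ≠ 1) :
    ∃ (P : SL(2, F)) (x : F), x ≠ 0 ∧ B = P * uu x * P⁻¹ := by
  have hd := pslb_det B
  by_cases hc : B.1 1 0 = 0
  · have ha : B.1 0 0 = 1 := by
      have h2 : (B.1 0 0 - 1) * (B.1 0 0 - 1) = 0 := by
        rw [hc] at hd
        linear_combination B.1 0 0 * ht - hd
      exact sub_eq_zero.1 (mul_self_eq_zero.1 h2)
    have hd1 : B.1 1 1 = 1 := by
      rw [ha] at ht
      linear_combination ht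
    have h1 : B = uu (B.1 0 1) := by
      refine pslb_ext ?_ ?_ ?_ ?_ <;> simp only [pslb_uu]
      exacts [ha, hc, hd1]
    refine ⟨1, B.1 0 1, fun h2 => hB ?_, ?_⟩
    · rw [h1, h2, autp_uu_zero]
    · rw [one_mul, inv_one, mul_one]
      exact h1
  · have hci : (B.1 1 0)⁻¹ ≠ 0 := inv_ne_zero hc
    refine ⟨⟨!![B.1 0 0 - 1, -(B.1 1 0)⁻¹; B.1 1 0, 0], ?_⟩, -(B.1 1 0)⁻¹, neg_ne_zero.2 hci, ?_⟩
    · rw [Matrix.det_fin_two_of, mul_zero, neg_mul, inv_mul_cancel₀ hc]
      ring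
    · rw [eq_mul_inv_iff_mul_eq]
      refine pslb_ext ?_ ?_ ?_ ?_ <;> simp only [pslb_mul, pslb_uu, pslb_of]
      · linear_combination B.1 0 0 * ht - hd
      · field_simp
        ring
      · linear_combination B.1 1 0 * ht
      · field_simp
        ring

/-- Elements of order the characteristic are unipotent.

Proof. `t = pk A`, `A ^ p = z` a scalar with square one. If `p` is odd replace `A` by `z A`, then
`A ^ p = 1`; if `p = 2` then `z = 1`. So `(A - 1) ^ p = 0`, hence `(A - 1) ^ 2 = 0`, and there is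
`v ≠ 0` with `A v = v`; with `P` in `SL_2` with first column `v`, `P⁻¹ A P = uu x`. -/
theorem unip_conj {p : ℕ} [Fact p.Prime] [CharP F p] (t : PSL(2, F)) (h1 : t ≠ 1)
    (hp : t ^ p = 1) : ∃ (P : SL(2, F)) (x : F), x ≠ 0 ∧ t = pk P * pk (uu x) * (pk P)⁻¹ := by
  obtain ⟨A, rfl⟩ := QuotientGroup.mk_surjective t
  obtain ⟨r, hr, hrA⟩ := autp_eq (A := A ^ p) (B := 1) hp
  have hrp : r ^ p = r := by
    rcases mul_self_eq_one_iff.1 hr with h | h
    · rw [h, one_pow]
    · rw [h]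
      exact neg_one_pow_char F p
  have hdB : (r • A.1).det = 1 := by
    rw [Matrix.det_smul, Fintype.card_fin, sq, hr, one_mul]
    exact A.2
  obtain ⟨B, hB⟩ : ∃ B : SL(2, F), B.1 = r • A.1 := ⟨⟨r • A.1, hdB⟩, rfl⟩
  have hAB : pk A = pk B := autp_mk hr fun i j => by
    rw [hB]
    rfl
  have hBp : B.1 ^ p = 1 := by
    have h2 : r • A.1 ^ p = 1 := by
      ext i j
      exact (hrA i j).symm
    rw [hB, smul_pow, hrp, h2]
  have hdet : (B.1 - 1).det = 0 := by
    have h2 : (B.1 - 1) ^ p = 0 := by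
      rw [sub_pow_char_of_commute _ (Commute.one_right B.1), hBp, one_pow, sub_self]
    have h3 : (B.1 - 1).det ^ p = 0 := by
      rw [← Matrix.det_pow, h2, Matrix.det_zero]
    exact pow_eq_zero_iff (Fact.out : p.Prime).ne_zero |>.1 h3
  have hd := pslb_det B
  have ht : B.1 0 0 + B.1 1 1 = 2 := by
    rw [Matrix.det_fin_two] at hdet
    change (B.1 0 0 - 1) * (B.1 1 1 - 1) - (B.1 0 1 - 0) * (B.1 1 0 - 0) = 0 at hdet
    linear_combination hd - hdet
  obtain ⟨P, x, hx, h2⟩ := autp_trace B ht fun h2 => h1 (by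
    change pk A = 1
    rw [hAB, h2]
    rfl)
  refine ⟨P, x, hx, ?_⟩
  change pk A = pk (P * uu x * P⁻¹)
  rw [hAB, h2]

/-- Unipotent classes have order the characteristic. -/
theorem unip_pow {p : ℕ} [Fact p.Prime] [CharP F p] (x : F) :
    pk (uu x) ^ p = 1 ∧ pk (ll x) ^ p = 1 := by
  have h1 : ∀ n : ℕ, uu x ^ n = uu (n * x) := by
    intro n
    induction n with
    | zero => rw [pow_zero, Nat.cast_zero, zero_mul, autp_uu_zero]
    | succ n ih => rw [pow_succ, ih, ← autp_uu_add, Nat.cast_succ, add_mul, one_mul]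
  have h2 : ∀ n : ℕ, ll x ^ n = ll (n * x) := by
    intro n
    induction n with
    | zero => rw [pow_zero, Nat.cast_zero, zero_mul, autp_ll_zero]
    | succ n ih => rw [pow_succ, ih, ← autp_ll_add, Nat.cast_succ, add_mul, one_mul]
  constructor
  · change pk (uu x ^ p) = pk 1
    rw [h1, CharP.cast_eq_zero, zero_mul, autp_uu_zero]
  · change pk (ll x ^ p) = pk 1
    rw [h2, CharP.cast_eq_zero, zero_mul, autp_ll_zero]

theorem autp_cjS {M : GL (Fin 2) F} {A B : SL(2, F)} (h : M.1 * A.1 = B.1 * M.1) :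
    cjS M A = B := by
  apply Subtype.ext
  have h1 : M.1 * M⁻¹.1 = 1 := by rw [← Units.val_mul, mul_inv_cancel, Units.val_one]
  change M.1 * A.1 * M⁻¹.1 = B.1
  rw [h, Matrix.mul_assoc, h1, Matrix.mul_one]

theorem autp_diag {y : F} (hy : y ≠ 0) : ∃ M : GL (Fin 2) F, ∀ z, cjS M (uu z) = uu (y * z) := by
  have hd : (!![y, 0; 0, 1] : Matrix (Fin 2) (Fin 2) F).det ≠ 0 := by
    rw [Matrix.det_fin_two_of, mul_one, mul_zero, sub_zero]
    exact hy
  refine ⟨Matrix.GeneralLinearGroup.mkOfDetNeZero _ hd, fun z => autp_cjS ?_⟩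
  change (!![y, 0; 0, 1] : Matrix (Fin 2) (Fin 2) F) * !![1, z; 0, 1] =
    !![1, y * z; 0, 1] * !![y, 0; 0, 1]
  rw [Matrix.mul_fin_two, Matrix.mul_fin_two]
  simp

/-- The conjugates of `uu y` by a matrix with first entry zero. -/
theorem autp_conj (R : SL(2, F)) (h : R.1 0 0 = 0) (y : F) :
    R * uu y * R⁻¹ = ll (-(R.1 1 0 ^ 2 * y)) := by
  have hd := pslb_det R
  rw [h] at hd
  rw [mul_inv_eq_iff_eq_mul]
  refine pslb_ext ?_ ?_ ?_ ?_ <;> simp only [pslb_mul, pslb_uu, pslb_ll, h]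
  · ring
  · ring
  · ring
  · linear_combination (-(R.1 1 0 * y)) * hd

/-- Reduction to automorphisms which fix the class of `uu 1` and map the class of `ll 1` to a lower
unipotent class.

Proof. `f (pk (uu 1)) = pk P * pk (uu x) * (pk P)⁻¹` (`unip_conj`, `unip_pow`); with the conjugation
by `P⁻¹` and by the diagonal matrix `(x⁻¹, 1)` we may assume `f (pk (uu 1)) = pk (uu 1)`. Then
`f (pk (ll 1)) = pk Q * pk (uu y) * (pk Q)⁻¹`, `Q = [[a, b], [c, d]]`. If `c = 0` this is upper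
unipotent and commutes with `pk (uu 1) = f (pk (uu 1))`, but `pk (ll 1)` and `pk (uu 1)` do not
commute (`cent_uu`, for instance). So `c ≠ 0`, and conjugation by `uu (-(a / c))` fixes
`pk (uu 1)` and maps `f (pk (ll 1))` to a lower unipotent class: the first entry of
`uu (-(a / c)) * Q` is zero. Finite fields: `F` has a characteristic `p`. -/
theorem aut_red [Finite F] (f : MulAut PSL(2, F)) : ∃ (M : GL (Fin 2) F) (x : F), x ≠ 0 ∧
    cjP M (f (pk (uu 1))) = pk (uu 1) ∧ cjP M (f (pk (ll 1))) = pk (ll x) := by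
  obtain ⟨p, hp⟩ := CharP.exists F
  have hp1 : Fact p.Prime := ⟨CharP.char_is_prime F p⟩
  obtain ⟨P, x, hx, h1⟩ := unip_conj (p := p) (f (pk (uu 1)))
    (fun h => autp_uu_ne one_ne_zero (f.injective (h.trans (map_one f).symm)))
    (by rw [← map_pow, (unip_pow (p := p) (1 : F)).1, map_one])
  obtain ⟨N, hN⟩ := autp_diag (inv_ne_zero hx)
  obtain ⟨M1, hM1⟩ : ∃ M1 : GL (Fin 2) F, M1 = N * (P : GL (Fin 2) F)⁻¹ := ⟨_, rfl⟩
  have h2 : cjP M1 (f (pk (uu 1))) = pk (uu 1) := by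
    rw [hM1, map_mul, MulAut.mul_apply, map_inv]
    have h3 : f (pk (uu 1)) = cjP (P : GL (Fin 2) F) (pk (uu x)) := by
      rw [h1, cjP_coe]
    rw [h3, MulAut.inv_apply_self, cjP_mk, hN, inv_mul_cancel₀ hx]
  obtain ⟨g, hg⟩ : ∃ g : MulAut PSL(2, F), g = cjP M1 * f := ⟨_, rfl⟩
  have hg1 : g (pk (uu 1)) = pk (uu 1) := by
    rw [hg]
    exact h2
  obtain ⟨Q, y, hy, h3⟩ := unip_conj (p := p) (g (pk (ll 1)))
    (fun h => autp_ll_ne one_ne_zero (g.injective (h.trans (map_one g).symm)))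
    (by rw [← map_pow, (unip_pow (p := p) (1 : F)).2, map_one])
  have hd := pslb_det Q
  by_cases hc : Q.1 1 0 = 0
  · exfalso
    have h4 : Q * uu y * Q⁻¹ = uu (Q.1 0 0 ^ 2 * y) := by
      rw [hc, mul_zero, sub_zero] at hd
      rw [mul_inv_eq_iff_eq_mul]
      refine pslb_ext ?_ ?_ ?_ ?_ <;> simp only [pslb_mul, pslb_uu, hc]
      · ring
      · linear_combination (-(Q.1 0 0 * y)) * hd
      · ring
      · ring
    have h5 : g (pk (ll 1)) = pk (uu (Q.1 0 0 ^ 2 * y)) := by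
      rw [h3, ← h4]
      rfl
    have h6 : pk (ll (1 : F)) * pk (uu 1) = pk (uu 1) * pk (ll 1) := by
      apply g.injective
      rw [map_mul, map_mul, hg1, h5]
      change pk (uu _ * uu 1) = pk (uu 1 * uu _)
      rw [← autp_uu_add, ← autp_uu_add, add_comm]
    obtain ⟨z, hz⟩ := cent_uu one_ne_zero (ll 1) h6
    exact one_ne_zero (autp_ll_uu hz)
  · obtain ⟨a, ha⟩ : ∃ a : F, a = -(Q.1 0 0 / Q.1 1 0) := ⟨_, rfl⟩
    have hR : (uu a * Q).1 0 0 = 0 := by
      simp only [pslb_mul, pslb_uu]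
      rw [ha]
      field_simp
      ring
    have hR2 : (uu a * Q).1 1 0 = Q.1 1 0 := by
      simp only [pslb_mul, pslb_uu]
      ring
    have h4 := autp_conj (uu a * Q) hR y
    rw [hR2] at h4
    refine ⟨(uu a : GL (Fin 2) F) * M1, -(Q.1 1 0 ^ 2 * y), neg_ne_zero.2
      (mul_ne_zero (pow_ne_zero 2 hc) hy), ?_, ?_⟩
    · rw [map_mul, MulAut.mul_apply, h2, cjP_coe]
      change pk (uu a * uu 1 * (uu a)⁻¹) = pk (uu 1)
      rw [← autp_uu_add, add_comm, autp_uu_add, mul_inv_cancel_right]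
    · rw [map_mul, MulAut.mul_apply]
      have h5 : cjP M1 (f (pk (ll 1))) = pk (Q * uu y * Q⁻¹) := by
        have h6 : cjP M1 (f (pk (ll 1))) = g (pk (ll 1)) := by
          rw [hg]
          rfl
        rw [h6, h3]
        rfl
      rw [h5, cjP_coe, ← h4]
      change pk (uu a * (Q * uu y * Q⁻¹) * (uu a)⁻¹) = _
      refine congrArg pk ?_
      group

theorem autp_entry {n : SL(2, F)} {z : F} (h : pk n * pk (uu 1) * (pk n)⁻¹ = pk (ll z)) :
    n.1 0 0 = 0 := by
  obtain ⟨r, hr, h1⟩ := autp_eq (A := ll z) (B := n * uu 1 * n⁻¹) h.symm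
  have e01 := h1 0 1
  simp only [pslb_mul, pslb_uu, pslb_ll, pslb_inv] at e01
  have h2 : n.1 0 0 * n.1 0 0 = 0 := by linear_combination e01
  exact mul_self_eq_zero.1 h2

theorem autp_w {x : F} (hx : x ≠ 0) : uu x * ll (-x⁻¹) * uu x * (uu 1 * ll (-1) * uu 1)⁻¹ =
    dg x hx := by
  rw [mul_inv_eq_iff_eq_mul]
  refine pslb_ext ?_ ?_ ?_ ?_ <;> simp only [pslb_mul, pslb_uu, pslb_ll, pslb_dg] <;>
    field_simp <;> ring

theorem autp_dg {x : F} (hx : x ≠ 0) (y : F) :
    dg x hx * uu y * (dg x hx)⁻¹ = uu (x ^ 2 * y) := by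
  rw [mul_inv_eq_iff_eq_mul]
  refine pslb_ext ?_ ?_ ?_ ?_ <;> simp only [pslb_mul, pslb_uu, pslb_dg] <;> field_simp <;> ring

theorem autp_fS_uu (σ : F ≃+* F) (x : F) : fS σ (uu x) = uu (σ x) := by
  refine pslb_ext ?_ ?_ ?_ ?_ <;> rw [fS_coe] <;> simp only [pslb_uu]
  exacts [map_one σ, map_zero σ, map_one σ]

theorem autp_fS_ll (σ : F ≃+* F) (x : F) : fS σ (ll x) = ll (σ x) := by
  refine pslb_ext ?_ ?_ ?_ ?_ <;> rw [fS_coe] <;> simp only [pslb_ll]
  exacts [map_one σ, map_zero σ, map_one σ]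

/-- Additive maps which are multiplicative on squares. -/
theorem autp_field [Finite F] {α : F → F} (hinj : Function.Injective α) (h1 : α 1 = 1)
    (hadd : ∀ x y, α (x + y) = α x + α y)
    (hsq : ∀ x y, x ≠ 0 → α (x ^ 2 * y) = α x ^ 2 * α y) :
    ∃ σ : F ≃+* F, ∀ x, σ x = α x := by
  have h0 : α 0 = 0 := by
    have h := hadd 0 0
    rw [add_zero] at h
    exact (left_eq_add.1 h)
  have hsub : ∀ x y, α (x - y) = α x - α y := by
    intro x y
    have h := hadd (x - y) y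
    rw [sub_add_cancel] at h
    rw [h, add_sub_cancel_right]
  have hsq1 : ∀ x, α (x ^ 2) = α x ^ 2 := by
    intro x
    by_cases hx : x = 0
    · rw [hx, zero_pow two_ne_zero, h0, zero_pow two_ne_zero]
    · have h := hsq x 1 hx
      rwa [mul_one, h1, mul_one] at h
  have hsq2 : ∀ x y, α (x ^ 2 * y) = α (x ^ 2) * α y := by
    intro x y
    by_cases hx : x = 0
    · rw [hx, zero_pow two_ne_zero, zero_mul, h0, zero_mul]
    · rw [hsq x y hx, hsq1]
  have hmul : ∀ z y, α (z * y) = α z * α y := by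
    intro z y
    by_cases h2 : (2 : F) = 0
    · have h3 : ringChar F = 2 := by
        have h4 : ringChar F ∣ 2 := (ringChar.spec F 2).1 (by exact_mod_cast h2)
        have h5 : ringChar F ≠ 1 := CharP.ringChar_ne_one
        exact ((Nat.dvd_prime Nat.prime_two).1 h4).resolve_left h5
      obtain ⟨w, hw⟩ := FiniteField.isSquare_of_char_two h3 z
      have h4 : z = w ^ 2 := by rw [hw, sq]
      rw [h4, hsq2]
    · have h3 : z = ((z + 1) / 2) ^ 2 - ((z - 1) / 2) ^ 2 := by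
        field_simp
        ring
      have h4 : z * y = ((z + 1) / 2) ^ 2 * y - ((z - 1) / 2) ^ 2 * y := by
        rw [← sub_mul, ← h3]
      conv_rhs => rw [h3]
      rw [h4, hsub, hsq2, hsq2, hsub, sub_mul]
  exact ⟨RingEquiv.ofBijective
    ({ toFun := α, map_one' := h1, map_mul' := hmul, map_zero' := h0, map_add' := hadd } : F →+* F)
    (Finite.injective_iff_bijective.1 hinj), fun x => rfl⟩

/-- An automorphism which preserves the two unipotent subgroups comes from an automorphism of the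
field.

Proof. By `cent_uu` and `cent_ll`, `f (pk (uu x)) = pk (uu (α x))`, `f (pk (ll x)) = pk (ll (β x))`
with additive bijections `α`, `β` (`x ↦ pk (uu x)` is injective), `α 1 = 1`. For `x`, `y`:
`n = uu x * ll y * uu x` has the first entry `1 + x y`, and `pk n * pk (uu 1) * (pk n)⁻¹` is a lower
unipotent class if and only if the first entry of `n` is zero. So `β (-x⁻¹) = -(α x)⁻¹` for `x ≠ 0`:
`f` maps the class of `uu x * ll (-x⁻¹) * uu x` to that of `uu (α x) * ll (β (-x⁻¹)) * uu (α x)`.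
The matrix `w x = uu x * ll (-x⁻¹) * uu x` is `[[0, x], [-x⁻¹, 0]]`, and `w x * (w 1)⁻¹ = dg x`, so
`f (pk (dg x)) = pk (dg (α x))`. As `dg x * uu y * (dg x)⁻¹ = uu (x ^ 2 * y)`:
`α (x ^ 2 * y) = (α x) ^ 2 * α y`, also `α (x ^ 2) = (α x) ^ 2`. So `α (z * y) = α z * α y` for all
squares `z`, hence for all `z`: if `2 ≠ 0` then `z = ((z + 1) / 2) ^ 2 - ((z - 1) / 2) ^ 2`, and if
`2 = 0` then every element of the finite field is a square. So `α` is a field automorphism `σ`, and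
`f` and `fP σ` agree on all `pk (uu x)`, and on all `pk (ll (-x⁻¹))`, so everywhere (`sl_four`). -/
theorem aut_fld [Finite F] (f : MulAut PSL(2, F)) (h1 : f (pk (uu 1)) = pk (uu 1)) {x : F}
    (hx : x ≠ 0) (h2 : f (pk (ll 1)) = pk (ll x)) : ∃ σ : F ≃+* F, ∀ s, f s = fP σ s := by
  have hex : ∀ z : F, ∃ y, f (pk (uu z)) = pk (uu y) := by
    intro z
    obtain ⟨A, hA⟩ := QuotientGroup.mk_surjective (f (pk (uu z)))
    have hA' : pk A = f (pk (uu z)) := hA
    obtain ⟨y, hy⟩ := cent_uu one_ne_zero A (by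
      rw [hA', ← h1, ← map_mul, ← map_mul]
      refine congrArg f ?_
      change pk (uu z * uu 1) = pk (uu 1 * uu z)
      rw [← autp_uu_add, ← autp_uu_add, add_comm])
    exact ⟨y, hA'.symm.trans hy⟩
  choose α hα using hex
  have hey : ∀ z : F, ∃ y, f (pk (ll z)) = pk (ll y) := by
    intro z
    obtain ⟨A, hA⟩ := QuotientGroup.mk_surjective (f (pk (ll z)))
    have hA' : pk A = f (pk (ll z)) := hA
    obtain ⟨y, hy⟩ := cent_ll hx A (by
      rw [hA', ← h2, ← map_mul, ← map_mul]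
      refine congrArg f ?_
      change pk (ll z * ll 1) = pk (ll 1 * ll z)
      rw [← autp_ll_add, ← autp_ll_add, add_comm])
    exact ⟨y, hA'.symm.trans hy⟩
  choose β hβ using hey
  have hα1 : α 1 = 1 := autp_uu_inj ((hα 1).symm.trans h1)
  have hinj : Function.Injective α := by
    intro y z hyz
    apply autp_uu_inj
    apply f.injective
    rw [hα, hα, hyz]
  have hadd : ∀ y z, α (y + z) = α y + α z := by
    intro y z
    apply autp_uu_inj
    rw [← hα, autp_uu_add, autp_uu_add]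
    change f (pk (uu y) * pk (uu z)) = pk (uu (α y)) * pk (uu (α z))
    rw [map_mul, hα, hα]
  have hα0 : α 0 = 0 := by
    have h := hadd 0 0
    rw [add_zero] at h
    exact (left_eq_add.1 h)
  have hne : ∀ z, z ≠ 0 → α z ≠ 0 := fun z hz h => hz (hinj (h.trans hα0.symm))
  have hβα : ∀ z, z ≠ 0 → β (-z⁻¹) = -(α z)⁻¹ := by
    intro z hz
    obtain ⟨n, hn⟩ : ∃ n : SL(2, F), n = uu z * ll (-z⁻¹) * uu z := ⟨_, rfl⟩
    have hn0 : n.1 0 0 = 0 := by
      rw [hn]
      simp only [pslb_mul, pslb_uu, pslb_ll]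
      field_simp
      ring
    have e2 := autp_conj n hn0 1
    have e3 : f (pk n) = pk (uu (α z) * ll (β (-z⁻¹)) * uu (α z)) := by
      rw [hn]
      change f (pk (uu z) * pk (ll (-z⁻¹)) * pk (uu z)) = _
      rw [map_mul, map_mul, hα, hβ]
      rfl
    have e4 : pk (uu (α z) * ll (β (-z⁻¹)) * uu (α z)) * pk (uu 1) *
        (pk (uu (α z) * ll (β (-z⁻¹)) * uu (α z)))⁻¹ = pk (ll (β (-(n.1 1 0 ^ 2 * 1)))) := by
      rw [← e3, ← hβ, ← e2]
      change _ = f (pk n * pk (uu 1) * (pk n)⁻¹)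
      rw [map_mul, map_mul, map_inv, h1]
    have e5 := autp_entry e4
    simp only [pslb_mul, pslb_uu, pslb_ll] at e5
    have e6 := hne z hz
    refine mul_left_cancel₀ e6 ?_
    rw [mul_neg, mul_inv_cancel₀ e6]
    linear_combination e5
  have hβ1 : β (-1) = -1 := by
    have h := hβα 1 one_ne_zero
    rwa [inv_one, hα1, inv_one] at h
  have hdg : ∀ z (hz : z ≠ 0), f (pk (dg z hz)) = pk (dg (α z) (hne z hz)) := by
    intro z hz
    rw [← autp_w hz, ← autp_w (hne z hz)]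
    change f (pk (uu z) * pk (ll (-z⁻¹)) * pk (uu z) * (pk (uu 1) * pk (ll (-1)) * pk (uu 1))⁻¹) =
      pk (uu (α z)) * pk (ll (-(α z)⁻¹)) * pk (uu (α z)) *
        (pk (uu 1) * pk (ll (-1)) * pk (uu 1))⁻¹
    rw [map_mul, map_mul, map_mul, map_inv, map_mul, map_mul, hα, hβ, hβα z hz, h1, hβ, hβ1]
  have hsq : ∀ z y, z ≠ 0 → α (z ^ 2 * y) = α z ^ 2 * α y := by
    intro z y hz
    apply autp_uu_inj
    rw [← hα, ← autp_dg hz, ← autp_dg (hne z hz)]
    change f (pk (dg z hz) * pk (uu y) * (pk (dg z hz))⁻¹) =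
      pk (dg (α z) (hne z hz)) * pk (uu (α y)) * (pk (dg (α z) (hne z hz)))⁻¹
    rw [map_mul, map_mul, map_inv, hdg, hα]
  obtain ⟨σ, hσ⟩ := autp_field hinj hα1 hadd hsq
  have hu : ∀ y, f (pk (uu y)) = fP σ (pk (uu y)) := by
    intro y
    rw [hα, fP_mk, autp_fS_uu, hσ]
  have hl : ∀ y, f (pk (ll y)) = fP σ (pk (ll y)) := by
    intro y
    by_cases hy : y = 0
    · rw [hy, autp_ll_zero]
      change f 1 = fP σ 1
      rw [map_one, map_one]
    · rw [hβ, fP_mk, autp_fS_ll]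
      refine congrArg (fun c => pk (ll c)) ?_
      have h3 := hβα (-y⁻¹) (neg_ne_zero.2 (inv_ne_zero hy))
      rw [inv_neg, inv_inv, neg_neg, ← hσ, map_neg, map_inv₀, inv_neg, inv_inv, neg_neg] at h3
      exact h3
  refine ⟨σ, fun s => ?_⟩
  obtain ⟨A, rfl⟩ := QuotientGroup.mk_surjective s
  obtain ⟨a, b, c, d, hA⟩ := sl_four A
  rw [hA]
  change f (pk (ll a) * pk (uu b) * pk (ll c) * pk (uu d)) =
    fP σ (pk (ll a) * pk (uu b) * pk (ll c) * pk (uu d))
  rw [map_mul, map_mul, map_mul, map_mul, map_mul, map_mul, hl, hu, hl, hu]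

/-- The automorphisms of the groups `PSL_2` of finite fields.

Proof. `aut_red`, `aut_fld` for `(cjP M) * f`; then `f = cjP M⁻¹ * fP σ`. -/
theorem aut_psl [Finite F] (f : MulAut PSL(2, F)) :
    ∃ (M : GL (Fin 2) F) (σ : F ≃+* F), ∀ s, f s = cjP M (fP σ s) := by
  obtain ⟨M, x, hx, h1, h2⟩ := aut_red f
  obtain ⟨σ, hσ⟩ := aut_fld (cjP M * f) h1 hx h2
  refine ⟨M⁻¹, σ, fun s => ?_⟩
  rw [← hσ, map_inv]
  exact (MulAut.inv_apply_self _ (cjP M) (f s)).symm

end Pool.Agent.MPfe8e9bN
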