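import Mathlib
import Pool.Agent.Lib.MP_fe8e9b_al_N.Defs
import Pool.Agent.Lib.MP_fe8e9b_al_M.Ang1

/-!
# MP_fe8e9b_al, groups of bounded height: covering implies a twisted gap
-/

set_option autoImplicit false

open scoped BigOperators

namespace Pool.Agent.MPfe8e9bN

open Pool.Agent.MPfe8e9b Pool.Agent.MPfe8e9bA Pool.Agent.MPfe8e9bW Pool.Agent.MPfe8e9bV
open Pool.Agent.MPfe8e9bM

/-- The twisted commutator elements. -/
def zz {T : Type} [Group T] (τ : MulAut T) (h t : T) : Bool → T :=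
  fun s => cm h (if s = true then τ t else t)

/-- The constant functions. -/
def dd {T : Type} [Group T] (k : T) : Bool → T := fun _ => k

/-- The cocycle identity. Proof. `cm (k * h) s = k * cm h s * k⁻¹ * cm k s`, coordinatewise. -/
theorem zz_mul {T : Type} [Group T] (τ : MulAut T) (k h t : T) :
    zz τ (k * h) t = dd k * zz τ h t * (dd k)⁻¹ * zz τ k t := by
  funext s
  simp only [zz, dd, cm, Pi.mul_apply, Pi.inv_apply]
  group

/-- The averaged displacement. -/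
noncomputable def nn {T : Type} [Group T] [Fintype T] {V : Type} [NormedAddCommGroup V]
    [InnerProductSpace ℂ V] (ρ : (Bool → T) →* (V ≃ₗᵢ[ℂ] V)) (u : V) (x : Bool → T) : ℝ :=
  Real.sqrt (mn (fun k : T => ‖ρ (dd k * x * (dd k)⁻¹) u - u‖ ^ 2))

/-- Minkowski's inequality for means. -/
theorem cvg_mink {T : Type} [Fintype T] {a b c : T → ℝ} (ha : ∀ t, 0 ≤ a t)
    (hb : ∀ t, 0 ≤ b t) (hc : ∀ t, 0 ≤ c t) (h : ∀ t, c t ≤ a t + b t) :
    Real.sqrt (mn (fun t => c t ^ 2)) ≤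
      Real.sqrt (mn (fun t => a t ^ 2)) + Real.sqrt (mn (fun t => b t ^ 2)) := by
  have hA : 0 ≤ mn (fun t => a t ^ 2) := mn_nonneg fun t => sq_nonneg _
  have hB : 0 ≤ mn (fun t => b t ^ 2) := mn_nonneg fun t => sq_nonneg _
  have h1 : mn (fun t => a t * b t) ≤
      Real.sqrt (mn (fun t => a t ^ 2)) * Real.sqrt (mn (fun t => b t ^ 2)) := by
    rw [← Real.sqrt_mul hA]
    refine Real.le_sqrt_of_sq_le ?_
    have h2 := Finset.sum_mul_sq_le_sq_mul_sq Finset.univ a b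
    unfold mn
    have h3 : (0 : ℝ) ≤ ((Fintype.card T : ℝ)⁻¹) ^ 2 := sq_nonneg _
    calc ((Fintype.card T : ℝ)⁻¹ * ∑ t, a t * b t) ^ 2
        = ((Fintype.card T : ℝ)⁻¹) ^ 2 * (∑ t, a t * b t) ^ 2 := by ring
      _ ≤ ((Fintype.card T : ℝ)⁻¹) ^ 2 * ((∑ t, a t ^ 2) * ∑ t, b t ^ 2) :=
          mul_le_mul_of_nonneg_left h2 h3
      _ = _ := by ring
  have h2 : mn (fun t => c t ^ 2) ≤ mn (fun t => a t ^ 2) + 2 * mn (fun t => a t * b t) +
      mn (fun t => b t ^ 2) := by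
    have h3 : mn (fun t => c t ^ 2) ≤ mn (fun t => (a t ^ 2 + 2 * (a t * b t)) + b t ^ 2) := by
      refine mn_mono fun t => ?_
      nlinarith [h t, ha t, hb t, hc t]
    refine h3.trans (le_of_eq ?_)
    rw [mn_add, mn_add, mn_mul_left]
  refine Real.sqrt_le_iff.2 ⟨add_nonneg (Real.sqrt_nonneg _) (Real.sqrt_nonneg _), ?_⟩
  rw [add_sq, Real.sq_sqrt hA, Real.sq_sqrt hB]
  linarith

/-- The triangle inequality for displacements. -/
theorem cvg_tri {H : Type} [Group H] {V : Type} [NormedAddCommGroup V]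
    [InnerProductSpace ℂ V] (ρ : H →* (V ≃ₗᵢ[ℂ] V)) (u : V) (x y : H) :
    ‖ρ (x * y) u - u‖ ≤ ‖ρ x u - u‖ + ‖ρ y u - u‖ := by
  have h0 : ρ (x * y) u = ρ x (ρ y u) := by
    rw [map_mul]
    rfl
  have h1 : ρ (x * y) u - u = ρ x (ρ y u - u) + (ρ x u - u) := by
    rw [h0, map_sub]
    abel
  rw [h1]
  refine (norm_add_le _ _).trans ?_
  rw [LinearIsometryEquiv.norm_map, add_comm]

/-- Inverses have the same displacement. -/
theorem cvg_inv {H : Type} [Group H] {V : Type} [NormedAddCommGroup V]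
    [InnerProductSpace ℂ V] (ρ : H →* (V ≃ₗᵢ[ℂ] V)) (u : V) (x : H) :
    ‖ρ x⁻¹ u - u‖ = ‖ρ x u - u‖ := by
  have h0 : ρ x (ρ x⁻¹ u) = u := by
    have h2 : ρ x (ρ x⁻¹ u) = ρ (x * x⁻¹) u := by
      rw [map_mul]
      rfl
    rw [h2, mul_inv_cancel, map_one]
    rfl
  have h1 : ρ x (ρ x⁻¹ u - u) = u - ρ x u := by
    rw [map_sub, h0]
  rw [← LinearIsometryEquiv.norm_map (ρ x) (ρ x⁻¹ u - u), h1, norm_sub_rev]

/-- Properties of the averaged displacement. Proof. Minkowski's inequality in `ℓ²` for the first,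
reindexing of the mean over `k` for the third. -/
theorem nn_mul {T : Type} [Group T] [Fintype T] {V : Type} [NormedAddCommGroup V]
    [InnerProductSpace ℂ V] (ρ : (Bool → T) →* (V ≃ₗᵢ[ℂ] V)) (u : V) (x y : Bool → T) :
    nn ρ u (x * y) ≤ nn ρ u x + nn ρ u y := by
  unfold nn
  refine cvg_mink (fun k => norm_nonneg _) (fun k => norm_nonneg _) (fun k => norm_nonneg _) ?_
  intro k
  have h1 : dd k * (x * y) * (dd k)⁻¹ = (dd k * x * (dd k)⁻¹) * (dd k * y * (dd k)⁻¹) := by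
    group
  rw [h1]
  exact cvg_tri ρ u _ _

/-- See `nn_mul`. -/
theorem nn_inv {T : Type} [Group T] [Fintype T] {V : Type} [NormedAddCommGroup V]
    [InnerProductSpace ℂ V] (ρ : (Bool → T) →* (V ≃ₗᵢ[ℂ] V)) (u : V) (x : Bool → T) :
    nn ρ u x⁻¹ = nn ρ u x := by
  unfold nn
  refine congrArg Real.sqrt (congrArg mn (funext fun k => ?_))
  have h1 : dd k * x⁻¹ * (dd k)⁻¹ = (dd k * x * (dd k)⁻¹)⁻¹ := by
    group
  rw [h1, cvg_inv]

/-- See `nn_mul`. -/
theorem nn_conj {T : Type} [Group T] [Fintype T] {V : Type} [NormedAddCommGroup V]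
    [InnerProductSpace ℂ V] (ρ : (Bool → T) →* (V ≃ₗᵢ[ℂ] V)) (u : V) (k : T)
    (x : Bool → T) : nn ρ u (dd k * x * (dd k)⁻¹) = nn ρ u x := by
  unfold nn
  have h1 := mn_equiv (Equiv.mulRight k)
    (fun j : T => ‖ρ (dd j * x * (dd j)⁻¹) u - u‖ ^ 2)
  rw [← h1]
  refine congrArg Real.sqrt (congrArg mn (funext fun j => ?_))
  have h2 : dd j * (dd k * x * (dd k)⁻¹) * (dd j)⁻¹ =
      dd (j * k) * x * (dd (j * k))⁻¹ := by
    have h3 : dd (j * k) = dd j * dd k := rfl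
    rw [h3]
    group
  rw [h2]
  rfl

/-- The square of the averaged displacement. -/
theorem cvg_sq {T : Type} [Group T] [Fintype T] {V : Type} [NormedAddCommGroup V]
    [InnerProductSpace ℂ V] (ρ : (Bool → T) →* (V ≃ₗᵢ[ℂ] V)) (u : V) (x : Bool → T) :
    nn ρ u x ^ 2 = mn (fun k : T => ‖ρ (dd k * x * (dd k)⁻¹) u - u‖ ^ 2) :=
  Real.sq_sqrt (mn_nonneg fun _ => sq_nonneg _)

/-- The averaged displacement is nonnegative. -/
theorem cvg_nn_nonneg {T : Type} [Group T] [Fintype T] {V : Type} [NormedAddCommGroup V]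
    [InnerProductSpace ℂ V] (ρ : (Bool → T) →* (V ≃ₗᵢ[ℂ] V)) (u : V) (x : Bool → T) :
    0 ≤ nn ρ u x := Real.sqrt_nonneg _

/-- The averaged displacement of the neutral element. -/
theorem cvg_nn_one {T : Type} [Group T] [Fintype T] {V : Type} [NormedAddCommGroup V]
    [InnerProductSpace ℂ V] (ρ : (Bool → T) →* (V ≃ₗᵢ[ℂ] V)) (u : V) :
    nn ρ u 1 = 0 := by
  unfold nn
  have h1 : (fun k : T => ‖ρ (dd k * 1 * (dd k)⁻¹) u - u‖ ^ 2) = fun _ => 0 := by
    funext _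
    rw [mul_one, mul_inv_cancel, map_one]
    simp
  rw [h1]
  simp [mn]

/-- The averaged displacement of the twisted commutators.

Proof. `dd k * zz τ h t * (dd k)⁻¹ = zz τ (k * h) t * (zz τ k t)⁻¹` (`zz_mul`), so
`‖ρ (..) u - u‖ ≤ ‖ρ (zz (k h) t) u - u‖ + ‖ρ (zz k t) u - u‖`; `(a + b)² ≤ 2 a² + 2 b²`, means over
`h` and `k` (`k * h` is uniform for fixed `k`). -/
theorem nn_zz {T : Type} [Group T] [Fintype T] {V : Type} [NormedAddCommGroup V]
    [InnerProductSpace ℂ V] (ρ : (Bool → T) →* (V ≃ₗᵢ[ℂ] V)) (u : V) (τ : MulAut T) (t : T) :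
    mn (fun h => nn ρ u (zz τ h t) ^ 2) ≤ 4 * mn (fun h => ‖ρ (zz τ h t) u - u‖ ^ 2) := by
  have h1 : ∀ h : T, nn ρ u (zz τ h t) ^ 2 ≤
      mn (fun k : T => 2 * ‖ρ (zz τ (k * h) t) u - u‖ ^ 2 + 2 * ‖ρ (zz τ k t) u - u‖ ^ 2) := by
    intro h
    rw [cvg_sq]
    refine mn_mono fun k => ?_
    have h2 : dd k * zz τ h t * (dd k)⁻¹ = zz τ (k * h) t * (zz τ k t)⁻¹ := by
      rw [zz_mul τ k h t]
      group
    rw [h2]
    have h3 := cvg_tri ρ u (zz τ (k * h) t) (zz τ k t)⁻¹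
    rw [cvg_inv] at h3
    have h4 := norm_nonneg (ρ (zz τ (k * h) t * (zz τ k t)⁻¹) u - u)
    nlinarith [sq_nonneg (‖ρ (zz τ (k * h) t) u - u‖ - ‖ρ (zz τ k t) u - u‖)]
  refine (mn_mono h1).trans ?_
  have h5 : ∀ h : T, mn (fun k : T => 2 * ‖ρ (zz τ (k * h) t) u - u‖ ^ 2 +
      2 * ‖ρ (zz τ k t) u - u‖ ^ 2) = 4 * mn (fun h => ‖ρ (zz τ h t) u - u‖ ^ 2) := by
    intro h
    rw [mn_add, mn_mul_left, mn_mul_left]
    have h6 := mn_equiv (Equiv.mulRight h) (fun j : T => ‖ρ (zz τ j t) u - u‖ ^ 2)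
    have h7 : mn (fun k : T => ‖ρ (zz τ (k * h) t) u - u‖ ^ 2) =
        mn (fun j : T => ‖ρ (zz τ j t) u - u‖ ^ 2) := h6
    rw [h7]
    ring
  exact mn_le fun h => (h5 h).le

/-- The embedding of a factor. -/
def cvgEm {T : Type} [Group T] (s0 : Bool) (x : T) : Bool → T := fun s => if s = s0 then x else 1

theorem cvgEm_mul {T : Type} [Group T] (s0 : Bool) (x y : T) :
    cvgEm s0 (x * y) = cvgEm s0 x * cvgEm s0 y := by
  funext s
  simp only [cvgEm, Pi.mul_apply]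
  split_ifs <;> simp

theorem cvgEm_inv {T : Type} [Group T] (s0 : Bool) (x : T) :
    cvgEm s0 x⁻¹ = (cvgEm s0 x)⁻¹ := by
  funext s
  simp only [cvgEm, Pi.inv_apply]
  split_ifs <;> simp

theorem cvgEm_conj {T : Type} [Group T] (s0 : Bool) (g x : T) :
    cvgEm s0 (g * x * g⁻¹) = dd g * cvgEm s0 x * (dd g)⁻¹ := by
  funext s
  simp only [cvgEm, Pi.mul_apply, Pi.inv_apply, dd]
  split_ifs <;> simp

/-- A good element gives a lower bound.

Proof. `E = mn_h ‖ρ (zz τ h t) u - u‖²`, `e = √E`. For `h ∈ {t, τ t}` and all `k`: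
`zz τ h t = (dd h * zz τ k t * (dd h)⁻¹)⁻¹ * zz τ (h * k) t` (`zz_mul`), so
`nn (zz τ h t) ≤ nn (zz τ k t) + nn (zz τ (h k) t)`; square, mean over `k`, `nn_zz`:
`nn (zz τ h t)² ≤ 16 E`. `zz τ t t` is `1` at `false` and `b = cm t (τ t)` at `true`; `zz τ (τ t) t`
is `b⁻¹` at `false` and `1` at `true`. So the elements `(1, b)`, `(b, 1)` of `Bool → T`, and their
conjugates by constants, have `nn ≤ 4 e`; the constant `g` conjugates `(1, b)` to `(1, g b g⁻¹)`.
By `Cov` all elements `(1, x)` and `(x, 1)` have `nn ≤ 4 C e`, all elements `nn ≤ 8 C e`. The mean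
over all `x` of `nn (x)²` is `2 ‖u‖²` (`mn_disp`: for fixed `k` the element
`dd k * x * (dd k)⁻¹` is uniform, and `av ρ u = 0`). So `2 ‖u‖² ≤ 64 C² E`. -/
theorem cvg_one {T : Type} [Group T] [Fintype T] {V : Type} [NormedAddCommGroup V]
    [InnerProductSpace ℂ V] [FiniteDimensional ℂ V] (ρ : (Bool → T) →* (V ≃ₗᵢ[ℂ] V)) (u : V)
    (hu : av ρ u = 0) (τ : MulAut T) (C : ℕ) (t : T) (ht : Cov C (cm t (τ t))) :
    ‖u‖ ^ 2 ≤ 32 * (C : ℝ) ^ 2 * mn (fun h => ‖ρ (zz τ h t) u - u‖ ^ 2) := by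
  have hE : 0 ≤ mn (fun h => ‖ρ (zz τ h t) u - u‖ ^ 2) := mn_nonneg fun h => sq_nonneg _
  obtain ⟨E, hEd⟩ : ∃ E : ℝ, E = mn (fun h => ‖ρ (zz τ h t) u - u‖ ^ 2) := ⟨_, rfl⟩
  rw [← hEd] at hE ⊢
  have hz : ∀ h : T, nn ρ u (zz τ h t) ≤ 4 * Real.sqrt E := by
    intro h
    have h1 : nn ρ u (zz τ h t) ^ 2 ≤ 16 * E := by
      have h2 : nn ρ u (zz τ h t) ^ 2 ≤
          mn (fun k : T => 2 * nn ρ u (zz τ k t) ^ 2 + 2 * nn ρ u (zz τ (h * k) t) ^ 2) := by
        refine le_mn fun k => ?_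
        have h3 : zz τ h t = (dd h * zz τ k t * (dd h)⁻¹)⁻¹ * zz τ (h * k) t := by
          rw [zz_mul τ h k t]
          group
        have h4 := nn_mul ρ u (dd h * zz τ k t * (dd h)⁻¹)⁻¹ (zz τ (h * k) t)
        rw [← h3, nn_inv, nn_conj] at h4
        have h5 := cvg_nn_nonneg ρ u (zz τ h t)
        nlinarith [sq_nonneg (nn ρ u (zz τ k t) - nn ρ u (zz τ (h * k) t))]
      refine h2.trans ?_
      rw [mn_add, mn_mul_left, mn_mul_left]
      have h6 : mn (fun k : T => nn ρ u (zz τ (h * k) t) ^ 2) =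
          mn (fun j : T => nn ρ u (zz τ j t) ^ 2) :=
        mn_equiv (Equiv.mulLeft h) (fun j : T => nn ρ u (zz τ j t) ^ 2)
      have h7 := nn_zz ρ u τ t
      rw [← hEd] at h7
      rw [h6]
      linarith
    have h8 : nn ρ u (zz τ h t) ≤ Real.sqrt (16 * E) := Real.le_sqrt_of_sq_le h1
    have h9 : Real.sqrt (16 * E) = 4 * Real.sqrt E := by
      rw [Real.sqrt_mul (by norm_num)]
      congr 1
      rw [show (16 : ℝ) = 4 ^ 2 by norm_num]
      exact Real.sqrt_sq (by norm_num)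
    rw [← h9]
    exact h8
  have hb : ∀ s0 : Bool, nn ρ u (cvgEm s0 (cm t (τ t))) ≤ 4 * Real.sqrt E := by
    intro s0
    cases s0
    · have h1 : cvgEm false (cm t (τ t)) = (zz τ (τ t) t)⁻¹ := by
        funext s
        cases s <;> simp [cvgEm, zz, cm, mul_assoc]
      rw [h1, nn_inv]
      exact hz _
    · have h1 : cvgEm true (cm t (τ t)) = zz τ t t := by
        funext s
        cases s <;> simp [cvgEm, zz, cm]
      rw [h1]
      exact hz _
  have hl : ∀ (s0 : Bool) (l : List T),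
      (∀ y ∈ l, ∃ g, y = g * cm t (τ t) * g⁻¹ ∨ y = g * (cm t (τ t))⁻¹ * g⁻¹) →
      nn ρ u (cvgEm s0 l.prod) ≤ l.length * (4 * Real.sqrt E) := by
    intro s0 l
    induction l with
    | nil =>
      intro _
      have h1 : cvgEm s0 ([] : List T).prod = 1 := by
        funext s
        simp [cvgEm]
      rw [h1, cvg_nn_one]
      simp
    | cons y l ih =>
      intro hy
      have h2 := ih fun z hzl => hy z (List.mem_cons_of_mem _ hzl)
      obtain ⟨g, hg⟩ := hy y List.mem_cons_self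
      have h3 : nn ρ u (cvgEm s0 y) ≤ 4 * Real.sqrt E := by
        rcases hg with hg | hg
        · have h4 : cvgEm s0 y = dd g * cvgEm s0 (cm t (τ t)) * (dd g)⁻¹ := by
            rw [hg]
            exact cvgEm_conj s0 g _
          rw [h4, nn_conj]
          exact hb s0
        · have h4 : cvgEm s0 y = dd g * (cvgEm s0 (cm t (τ t)))⁻¹ * (dd g)⁻¹ := by
            rw [hg, ← cvgEm_inv]
            exact cvgEm_conj s0 g _
          rw [h4, nn_conj, nn_inv]
          exact hb s0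
      have h5 : cvgEm s0 (y :: l).prod = cvgEm s0 y * cvgEm s0 l.prod := by
        rw [List.prod_cons]
        exact cvgEm_mul s0 _ _
      rw [h5]
      refine (nn_mul ρ u _ _).trans ?_
      rw [List.length_cons]
      push_cast
      linarith
  have hx : ∀ (s0 : Bool) (x : T), nn ρ u (cvgEm s0 x) ≤ C * (4 * Real.sqrt E) := by
    intro s0 x
    obtain ⟨l, hl1, hl2, hl3⟩ := ht x
    rw [← hl3]
    refine (hl s0 l hl2).trans ?_
    have h1 : (l.length : ℝ) ≤ C := by exact_mod_cast hl1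
    exact mul_le_mul_of_nonneg_right h1 (by positivity)
  have hall : ∀ x : Bool → T, nn ρ u x ^ 2 ≤ 64 * (C : ℝ) ^ 2 * E := by
    intro x
    have h1 : x = cvgEm false (x false) * cvgEm true (x true) := by
      funext s
      cases s <;> simp [cvgEm]
    have h2 : nn ρ u x ≤ 8 * C * Real.sqrt E := by
      have h3 := nn_mul ρ u (cvgEm false (x false)) (cvgEm true (x true))
      rw [← h1] at h3
      have h4 := hx false (x false)
      have h5 := hx true (x true)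
      linarith
    have h6 := cvg_nn_nonneg ρ u x
    have h7 : nn ρ u x ^ 2 ≤ (8 * C * Real.sqrt E) ^ 2 := pow_le_pow_left₀ h6 h2 2
    refine h7.trans (le_of_eq ?_)
    rw [mul_pow, Real.sq_sqrt hE]
    ring
  have hm : mn (fun x : Bool → T => nn ρ u x ^ 2) = 2 * ‖u‖ ^ 2 := by
    have h1 : (fun x : Bool → T => nn ρ u x ^ 2) =
        fun x => mn (fun k : T => ‖ρ (dd k * x * (dd k)⁻¹) u - u‖ ^ 2) := by
      funext x
      exact cvg_sq ρ u x
    rw [h1, mn_comm]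
    have h2 : ∀ k : T, mn (fun x : Bool → T => ‖ρ (dd k * x * (dd k)⁻¹) u - u‖ ^ 2) =
        2 * ‖u‖ ^ 2 := by
      intro k
      have h3 : mn (fun x : Bool → T => ‖ρ (dd k * x * (dd k)⁻¹) u - u‖ ^ 2) =
          mn (fun x : Bool → T => ‖ρ x u - u‖ ^ 2) :=
        mn_equiv (MulAut.conj (dd k)).toEquiv (fun x : Bool → T => ‖ρ x u - u‖ ^ 2)
      rw [h3, mn_disp, hu]
      simp
    have h4 : (fun k : T => mn (fun x : Bool → T => ‖ρ (dd k * x * (dd k)⁻¹) u - u‖ ^ 2)) =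
        fun _ => 2 * ‖u‖ ^ 2 := funext h2
    rw [h4, mn_const]
  have hf : mn (fun x : Bool → T => nn ρ u x ^ 2) ≤ 64 * (C : ℝ) ^ 2 * E := mn_le hall
  rw [hm] at hf
  linarith

/-- The twisted gap.

Proof. `cvg_one` for the good `t`; the proportion of the good `t` is at least `1 / C` (`CV`).
`mn_prod`; if `C = 0` then `Nat.card T = 0`, impossible. -/
theorem tg_of_cv {C : ℕ} {T : Type} [Group T] [Fintype T] {τ : MulAut T} (h : CV C T τ) :
    TGap (1 / (32 * (C : ℝ) ^ 3)) T τ := by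
  intro V _ _ _ ρ u hu
  classical
  have hT : (0 : ℝ) < Fintype.card T := by exact_mod_cast Fintype.card_pos
  obtain ⟨n, hn⟩ : ∃ n : ℕ, n = Nat.card {t : T // Cov C (cm t (τ t))} := ⟨_, rfl⟩
  have h1 : (Fintype.card T : ℝ) ≤ C * n := by
    have h2 : Nat.card T ≤ C * Nat.card {t : T // Cov C (cm t (τ t))} := h
    rw [← hn, Nat.card_eq_fintype_card] at h2
    exact_mod_cast h2
  have hC : (0 : ℝ) < C := by
    rcases Nat.eq_zero_or_pos C with h3 | h3
    · rw [h3] at h1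
      simp only [Nat.cast_zero, zero_mul] at h1
      linarith
    · exact_mod_cast h3
  have h4 : mn (fun p : T × T =>
      ‖ρ (fun s => cm p.1 (if s = true then τ p.2 else p.2)) u - u‖ ^ 2) =
      mn (fun t : T => mn (fun h : T => ‖ρ (zz τ h t) u - u‖ ^ 2)) := by
    rw [mn_prod, mn_comm]
    rfl
  rw [h4]
  have h5 : ∀ t : T, ind (Cov C (cm t (τ t))) * (‖u‖ ^ 2 / (32 * (C : ℝ) ^ 2)) ≤
      mn (fun h : T => ‖ρ (zz τ h t) u - u‖ ^ 2) := by
    intro t
    by_cases ht : Cov C (cm t (τ t))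
    · rw [ind_true ht, one_mul, div_le_iff₀ (by positivity)]
      have h6 := cvg_one ρ u hu τ C t ht
      linarith
    · rw [ind_false ht, zero_mul]
      exact mn_nonneg fun h => sq_nonneg _
  refine le_trans ?_ (mn_mono h5)
  rw [mn_mul_right]
  have h7 : mn (fun t : T => ind (Cov C (cm t (τ t)))) = (Fintype.card T : ℝ)⁻¹ * n := by
    unfold mn
    congr 1
    rw [hn, Nat.card_eq_fintype_card, Fintype.card_subtype]
    unfold ind
    rw [Finset.sum_ite, Finset.sum_const_zero, add_zero, Finset.sum_const, nsmul_eq_mul, mul_one]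
  rw [h7]
  have h8 : 1 / (C : ℝ) ≤ (Fintype.card T : ℝ)⁻¹ * n := by
    rw [div_le_iff₀ hC, mul_assoc, ← div_eq_inv_mul, le_div_iff₀ hT]
    linarith
  calc 1 / (32 * (C : ℝ) ^ 3) * ‖u‖ ^ 2
      = 1 / (C : ℝ) * (‖u‖ ^ 2 / (32 * (C : ℝ) ^ 2)) := by
        field_simp
    _ ≤ (Fintype.card T : ℝ)⁻¹ * n * (‖u‖ ^ 2 / (32 * (C : ℝ) ^ 2)) :=
        mul_le_mul_of_nonneg_right h8 (by positivity)

end Pool.Agent.MPfe8e9bN
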