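import Mathlib
import Pool.Agent.Lib.MP_fe8e9b_al_N.Defs
import Pool.Agent.Lib.MP_fe8e9b_al_N.PslA
import Pool.Agent.Lib.MP_fe8e9b_al_N.PslB

/-!
# MP_fe8e9b_al, groups of bounded height: counting in the groups `PSL_2`
-/

set_option autoImplicit false

open scoped BigOperators MatrixGroups

namespace Pool.Agent.MPfe8e9bN

open Pool.Agent.MPfe8e9bV
open Matrix

variable {F : Type} [Field F]

/-- The matrix `[[0, ν], [1, 0]]`. -/
def g0 (ν : F) (hν : ν ≠ 0) : GL (Fin 2) F :=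
  Matrix.GeneralLinearGroup.mkOfDetNeZero !![0, ν; 1, 0] (by
    rw [Matrix.det_fin_two_of]
    simpa using hν)

theorem g0_coe (ν : F) (hν : ν ≠ 0) : (g0 ν hν).1 = !![0, ν; 1, 0] := rfl

theorem pslc_g0_inv (ν : F) (hν : ν ≠ 0) : ((g0 ν hν)⁻¹).1 = !![0, 1; ν⁻¹, 0] := by
  have h1 : (g0 ν hν).1 * !![0, 1; ν⁻¹, 0] = 1 := by
    rw [g0_coe]
    ext i j
    fin_cases i <;> fin_cases j <;> simp [Matrix.mul_apply, Fin.sum_univ_two, hν]
  have h2 : ((g0 ν hν)⁻¹).1 * (g0 ν hν).1 = 1 := by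
    rw [← Units.val_mul, inv_mul_cancel, Units.val_one]
  calc ((g0 ν hν)⁻¹).1 = ((g0 ν hν)⁻¹).1 * ((g0 ν hν).1 * !![0, 1; ν⁻¹, 0]) := by
        rw [h1, Matrix.mul_one]
    _ = !![0, 1; ν⁻¹, 0] := by rw [← Matrix.mul_assoc, h2, Matrix.one_mul]

/-- Conjugation by `g0`. Proof. `g0⁻¹ = ν⁻¹ g0`. -/
theorem g0_conj (ν : F) (hν : ν ≠ 0) (a b c d : F) (A : SL(2, F)) (hA : A.1 = !![a, b; c, d]) :
    (cjS (g0 ν hν) A).1 = !![d, ν * c; ν⁻¹ * b, a] := by
  rw [cjS_coe, pslc_g0_inv, g0_coe, hA]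
  ext i j
  fin_cases i <;> fin_cases j <;> simp [Matrix.mul_apply, Fin.sum_univ_two] <;> field_simp

/-- The square of `g0` is scalar. -/
theorem g0_sq (ν : F) (hν : ν ≠ 0) : cjP (g0 ν hν) * cjP (g0 ν hν) = 1 := by
  rw [← map_mul]
  refine cjP_scalar _ ν ?_
  rw [Units.val_mul, g0_coe]
  ext i j
  fin_cases i <;> fin_cases j <;> simp [Matrix.mul_apply, Fin.sum_univ_two]

/-- Sufficient conditions for a nontrivial commutator.

Proof. Let `B = cjS g0 A = [[d, ν c], [ν⁻¹ b, a]]`. If the commutator of the classes of `A` and `B`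
is trivial then `A B = z B A` with `z` central, `z = ± 1` (scalar with square one). The entries:
`A B = [[a d + ν⁻¹ b ^ 2, a (ν c + b)], [d (c + ν⁻¹ b), ν c ^ 2 + a d]]`,
`B A = [[a d + ν c ^ 2, d (b + ν c)], [a (ν⁻¹ b + c), ν⁻¹ b ^ 2 + a d]]`. If `z = 1` then
`b ^ 2 = (ν c) ^ 2`, excluded. If `z = - 1` then `(a + d) (b + ν c) = 0`, `b + ν c ≠ 0` as
`b ^ 2 ≠ (ν c) ^ 2`, so `d = - a`, and `2 a d + ν⁻¹ b ^ 2 + ν c ^ 2 = 0` with `a d = 1 + b c`
gives `(b + ν c) ^ 2 = - 2 ν`, excluded. -/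
theorem g0_good (ν : F) (hν : ν ≠ 0) (a b c d : F) (A : SL(2, F)) (hA : A.1 = !![a, b; c, d])
    (h1 : b ^ 2 ≠ (ν * c) ^ 2) (h2 : (b + ν * c) ^ 2 ≠ - (2 * ν)) :
    cm (QuotientGroup.mk A : PSL(2, F)) (cjP (g0 ν hν) (QuotientGroup.mk A : PSL(2, F))) ≠
      1 := by
  intro h
  have hB := g0_conj ν hν a b c d A hA
  have hdet : a * d - b * c = 1 := by
    have h3 := A.2
    rw [hA, Matrix.det_fin_two_of] at h3
    exact h3
  rw [cjP_mk] at h
  have h3 : (QuotientGroup.mk A : PSL(2, F)) * QuotientGroup.mk (cjS (g0 ν hν) A) =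
      QuotientGroup.mk (cjS (g0 ν hν) A) * QuotientGroup.mk A := by
    unfold cm at h
    exact mul_inv_eq_iff_eq_mul.1 (mul_inv_eq_one.1 h)
  have h4 : (QuotientGroup.mk (A * cjS (g0 ν hν) A) : PSL(2, F)) =
      QuotientGroup.mk (cjS (g0 ν hν) A * A) := h3
  rw [QuotientGroup.eq] at h4
  obtain ⟨r, hr, hr2⟩ := Matrix.SpecialLinearGroup.mem_center_iff.1 h4
  rw [Fintype.card_fin] at hr
  have h5 : (cjS (g0 ν hν) A * A).1 = r • (A * cjS (g0 ν hν) A).1 := by
    have h6 : (cjS (g0 ν hν) A * A).1 = (A * cjS (g0 ν hν) A).1 *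
        ((A * cjS (g0 ν hν) A)⁻¹ * (cjS (g0 ν hν) A * A)).1 := by
      have h7 := congrArg Subtype.val
        (mul_inv_cancel_left (A * cjS (g0 ν hν) A) (cjS (g0 ν hν) A * A)).symm
      exact h7
    rw [← hr2, Matrix.scalar_apply, ← Matrix.smul_one_eq_diagonal, Matrix.mul_smul,
      Matrix.mul_one] at h6
    exact h6
  have e00 := congrFun (congrFun h5 0) 0
  rw [Matrix.smul_apply, pslb_mul, pslb_mul, hB, hA, smul_eq_mul] at e00
  simp only [pslb_of] at e00
  have hvv : ν * ν⁻¹ = 1 := mul_inv_cancel₀ hν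
  have hrr : (r - 1) * (r + 1) = 0 := by linear_combination hr
  rcases mul_eq_zero.1 hrr with h6 | h6
  · apply h1
    have h7 : r = 1 := sub_eq_zero.1 h6
    rw [h7] at e00
    linear_combination (-ν) * e00 - b ^ 2 * hvv
  · apply h2
    have h7 : r = -1 := eq_neg_of_add_eq_zero_left h6
    rw [h7] at e00
    linear_combination ν * e00 - 2 * ν * hdet - b ^ 2 * hvv

/-- The number of pairs. Proof. For every `c` at most four `b` are excluded: `ν c`, `- ν c`, and
the at most two roots of `(b + ν c) ^ 2 = - 2 ν`: if `r` is one root then the others are among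
`r`, `- r - 2 ν c`. -/
theorem pair_card [Fintype F] [DecidableEq F] (ν : F) :
    Fintype.card F * (Fintype.card F - 4) ≤ (Finset.univ.filter fun p : F × F =>
      p.1 ^ 2 ≠ (ν * p.2) ^ 2 ∧ (p.1 + ν * p.2) ^ 2 ≠ - (2 * ν)).card := by
  have hc : ∀ c : F, Fintype.card F - 4 ≤ (Finset.univ.filter fun b : F =>
      b ^ 2 ≠ (ν * c) ^ 2 ∧ (b + ν * c) ^ 2 ≠ - (2 * ν)).card := by
    intro c
    have h1 := Finset.card_filter_add_card_filter_not (s := (Finset.univ : Finset F))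
      (fun b : F => b ^ 2 ≠ (ν * c) ^ 2 ∧ (b + ν * c) ^ 2 ≠ - (2 * ν))
    have h2 : (Finset.univ.filter fun b : F => (b + ν * c) ^ 2 = - (2 * ν)).card ≤ 2 := by
      rcases Finset.eq_empty_or_nonempty
        (Finset.univ.filter fun b : F => (b + ν * c) ^ 2 = - (2 * ν)) with h | ⟨r, hr⟩
      · rw [h, Finset.card_empty]
        exact Nat.zero_le _
      · have hr' := (Finset.mem_filter.1 hr).2
        refine le_trans (Finset.card_le_card (t := {r, -r - 2 * (ν * c)}) ?_) Finset.card_le_two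
        intro b hb
        have hb' := (Finset.mem_filter.1 hb).2
        rw [Finset.mem_insert, Finset.mem_singleton]
        have h3 : (b - r) * (b - (-r - 2 * (ν * c))) = 0 := by
          linear_combination hb' - hr'
        rcases mul_eq_zero.1 h3 with h4 | h4
        · exact Or.inl (sub_eq_zero.1 h4)
        · exact Or.inr (sub_eq_zero.1 h4)
    have h3 : (Finset.univ.filter fun b : F =>
        ¬(b ^ 2 ≠ (ν * c) ^ 2 ∧ (b + ν * c) ^ 2 ≠ - (2 * ν))).card ≤ 4 := by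
      have h4 : (Finset.univ.filter fun b : F =>
          ¬(b ^ 2 ≠ (ν * c) ^ 2 ∧ (b + ν * c) ^ 2 ≠ - (2 * ν))) ⊆
          ({ν * c, -(ν * c)} : Finset F) ∪
            (Finset.univ.filter fun b : F => (b + ν * c) ^ 2 = - (2 * ν)) := by
        intro b hb
        have hb' := (Finset.mem_filter.1 hb).2
        rw [Finset.mem_union, Finset.mem_insert, Finset.mem_singleton, Finset.mem_filter]
        by_cases h5 : b ^ 2 = (ν * c) ^ 2
        · exact Or.inl (sq_eq_sq_iff_eq_or_eq_neg.1 h5)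
        · refine Or.inr ⟨Finset.mem_univ _, ?_⟩
          by_contra h6
          exact hb' ⟨h5, h6⟩
      refine le_trans (Finset.card_le_card h4) (le_trans (Finset.card_union_le _ _) ?_)
      have h5 : ({ν * c, -(ν * c)} : Finset F).card ≤ 2 := Finset.card_le_two
      omega
    rw [Finset.card_univ] at h1
    omega
  have h1 : (Finset.univ.filter fun p : F × F =>
      p.1 ^ 2 ≠ (ν * p.2) ^ 2 ∧ (p.1 + ν * p.2) ^ 2 ≠ - (2 * ν)).card =
      ∑ c : F, (Finset.univ.filter fun b : F =>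
        b ^ 2 ≠ (ν * c) ^ 2 ∧ (b + ν * c) ^ 2 ≠ - (2 * ν)).card := by
    rw [Finset.card_filter, Fintype.sum_prod_type_right]
    refine Finset.sum_congr rfl fun c _ => ?_
    rw [Finset.card_filter]
  rw [h1]
  have h2 := Finset.card_nsmul_le_sum (Finset.univ : Finset F) (fun c : F =>
    (Finset.univ.filter fun b : F =>
        b ^ 2 ≠ (ν * c) ^ 2 ∧ (b + ν * c) ^ 2 ≠ - (2 * ν)).card) (Fintype.card F - 4)
    fun c _ => hc c
  rw [Finset.card_univ, smul_eq_mul] at h2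
  exact h2

theorem pslc_num (q : ℕ) (hq : 5 ≤ q) : q ^ 3 ≤ 7 * ((q - 1) * (q * (q - 4))) := by
  obtain ⟨k, rfl⟩ := Nat.exists_eq_add_of_le hq
  have h1 : 5 + k - 1 = 4 + k := by omega
  have h2 : 5 + k - 4 = 1 + k := by omega
  rw [h1, h2]
  nlinarith [Nat.zero_le (k ^ 3), Nat.zero_le (k ^ 2), Nat.zero_le k]

/-- The number of matrices with a nontrivial twisted commutator. -/
theorem pslc_sl [Finite F] (ν : F) (hν : ν ≠ 0) :
    (Nat.card F - 1) * (Nat.card F * (Nat.card F - 4)) ≤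
      Nat.card ((QuotientGroup.mk : SL(2, F) → PSL(2, F)) ⁻¹'
        {t : PSL(2, F) | cm t (cjP (g0 ν hν) t) ≠ 1}) := by
  classical
  have := Fintype.ofFinite F
  have : Finite SL(2, F) := Finite.of_injective (fun A : SL(2, F) => A.1) Subtype.val_injective
  have h1 := pair_card (F := F) ν
  have h2 : Nat.card {a : F // a ≠ 0} = Nat.card F - 1 := by
    rw [Nat.card_eq_fintype_card, Nat.card_eq_fintype_card, Fintype.card_subtype_compl,
      Fintype.card_subtype_eq]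
  have h3 : Nat.card ({a : F // a ≠ 0} × {p : F × F // p.1 ^ 2 ≠ (ν * p.2) ^ 2 ∧
      (p.1 + ν * p.2) ^ 2 ≠ - (2 * ν)}) = (Nat.card F - 1) * (Finset.univ.filter fun p : F × F =>
      p.1 ^ 2 ≠ (ν * p.2) ^ 2 ∧ (p.1 + ν * p.2) ^ 2 ≠ - (2 * ν)).card := by
    rw [Nat.card_prod, h2, Nat.card_eq_fintype_card (α := {p : F × F // p.1 ^ 2 ≠ (ν * p.2) ^ 2 ∧
      (p.1 + ν * p.2) ^ 2 ≠ - (2 * ν)}), Fintype.card_subtype]
  have h4 : (Nat.card F - 1) * (Nat.card F * (Nat.card F - 4)) ≤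
      Nat.card ({a : F // a ≠ 0} × {p : F × F // p.1 ^ 2 ≠ (ν * p.2) ^ 2 ∧
      (p.1 + ν * p.2) ^ 2 ≠ - (2 * ν)}) := by
    rw [h3, Nat.card_eq_fintype_card]
    exact Nat.mul_le_mul_left _ h1
  refine le_trans h4 (Nat.card_le_card_of_injective (fun x =>
    ⟨⟨!![x.1.1, x.2.1.1; x.2.1.2, (1 + x.2.1.1 * x.2.1.2) / x.1.1], by
      rw [Matrix.det_fin_two_of, mul_div_cancel₀ _ x.1.2]
      ring⟩, by
      exact g0_good ν hν _ _ _ _ _ rfl x.2.2.1 x.2.2.2⟩) ?_)
  rintro ⟨⟨a, ha⟩, ⟨⟨b, c⟩, hbc⟩⟩ ⟨⟨a', ha'⟩, ⟨⟨b', c'⟩, hbc'⟩⟩ h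
  have h5 := congrArg (fun z => z.1.1) h
  simp only at h5
  have e1 : a = a' := congrFun (congrFun h5 0) 0
  have e2 : b = b' := congrFun (congrFun h5 0) 1
  have e3 : c = c' := congrFun (congrFun h5 1) 0
  subst e1
  subst e2
  subst e3
  rfl

/-- The twist by `g0` moves a positive proportion of the elements: many commutators are not
trivial.

Proof. Let `q = card F ≥ 5`, `z` the order of the centre of `SL_2`. The map `(a, b, c) ↦
[[a, b], [c, (1 + b c) / a]]` is injective on `a ≠ 0`; by `g0_good` and `pair_card` at least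
`(q - 1) q (q - 4)` matrices have a nontrivial commutator; `q ^ 3 ≤ 7 (q - 1) q (q - 4)` for
`q ≥ 5`. The preimage in `SL_2` of a set of `m` elements of `PSL_2` has `z m` elements
(`QuotientGroup.preimageMkEquivSubgroupProdSet`), and `card SL_2 = z * card PSL_2 ≤ q ^ 3`
(`sl_card_le`). So `z * card PSL_2 ≤ 7 * z * m`. -/
theorem psl_count [Finite F] (hF : 5 ≤ Nat.card F) (ν : F) (hν : ν ≠ 0) :
    Nat.card PSL(2, F) ≤ 7 * Nat.card {t : PSL(2, F) // cm t (cjP (g0 ν hν) t) ≠ 1} := by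
  have : Finite SL(2, F) := Finite.of_injective (fun A : SL(2, F) => A.1) Subtype.val_injective
  have h1 := pslc_sl ν hν
  have h2 := pslc_num (Nat.card F) hF
  have h3 := sl_card_le (F := F)
  have h4 : Nat.card SL(2, F) = Nat.card PSL(2, F) *
      Nat.card (Subgroup.center SL(2, F)) :=
    Subgroup.card_eq_card_quotient_mul_card_subgroup _
  have h5 : Nat.card ((QuotientGroup.mk : SL(2, F) → PSL(2, F)) ⁻¹'
        {t : PSL(2, F) | cm t (cjP (g0 ν hν) t) ≠ 1}) = Nat.card (Subgroup.center SL(2, F)) *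
      Nat.card {t : PSL(2, F) // cm t (cjP (g0 ν hν) t) ≠ 1} := by
    rw [← Nat.card_prod]
    exact Nat.card_congr (QuotientGroup.preimageMkEquivSubgroupProdSet
      (Subgroup.center SL(2, F)) {t : PSL(2, F) | cm t (cjP (g0 ν hν) t) ≠ 1})
  have hz : 0 < Nat.card (Subgroup.center SL(2, F)) := Nat.card_pos
  rw [h5] at h1
  refine Nat.le_of_mul_le_mul_left (c := Nat.card (Subgroup.center SL(2, F))) ?_ hz
  calc Nat.card (Subgroup.center SL(2, F)) * Nat.card PSL(2, F) = Nat.card SL(2, F) := by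
        rw [h4, mul_comm]
    _ ≤ Nat.card F ^ 3 := h3
    _ ≤ 7 * ((Nat.card F - 1) * (Nat.card F * (Nat.card F - 4))) := h2
    _ ≤ 7 * (Nat.card (Subgroup.center SL(2, F)) *
      Nat.card {t : PSL(2, F) // cm t (cjP (g0 ν hν) t) ≠ 1}) := Nat.mul_le_mul_left _ h1
    _ = _ := by ring

/-- Covering. Proof. `psl_count`, `psl_cov_all`. -/
theorem psl_cv [Finite F] (hF : 5 ≤ Nat.card F) (ν : F) (hν : ν ≠ 0) :
    CV 125 PSL(2, F) (cjP (g0 ν hν)) := by
  have : Finite SL(2, F) := Finite.of_injective (fun A : SL(2, F) => A.1) Subtype.val_injective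
  have : Finite PSL(2, F) := Finite.of_surjective _ QuotientGroup.mk_surjective
  have h1 := psl_count hF ν hν
  have h2 : Nat.card {t : PSL(2, F) // cm t (cjP (g0 ν hν) t) ≠ 1} ≤
      Nat.card {t : PSL(2, F) // Cov 125 (cm t (cjP (g0 ν hν) t))} :=
    Nat.card_le_card_of_injective
      (fun t => ⟨t.1, psl_cov_all (by omega) _ t.2⟩) fun s t h =>
        Subtype.ext (congrArg (fun x => x.1) h)
  unfold CV
  omega

end Pool.Agent.MPfe8e9bN
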