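import Mathlib
import Pool.Agent.Lib.MP_fe8e9b_al_N.Defs
import Pool.Agent.Lib.MP_fe8e9b_al_N.SGT2
import Pool.Agent.Lib.MP_fe8e9b_al_N.PslA
import Pool.Agent.Lib.MP_fe8e9b_al_N.PslB
import Pool.Agent.Lib.MP_fe8e9b_al_N.PslC

/-!
# MP_fe8e9b_al, groups of bounded height: `PSL_2` over a subfield
-/

set_option autoImplicit false

open scoped BigOperators MatrixGroups

namespace Pool.Agent.MPfe8e9bN

open Pool.Agent.MPfe8e9bM Pool.Agent.MPfe8e9bV
open Matrix

variable {F : Type} [Field F]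

/-- The homomorphism from `SL_2` of a subfield to `PSL_2`. -/
def s0h (K : Subfield F) : SL(2, K) →* PSL(2, F) :=
  (QuotientGroup.mk' (Subgroup.center SL(2, F))).comp
    (Matrix.SpecialLinearGroup.map (n := Fin 2) K.subtype)

/-- The image of `SL_2` of a subfield. -/
def s0 (K : Subfield F) : Subgroup PSL(2, F) := (s0h K).range

theorem psld_mk (K : Subfield F) (A : SL(2, K)) : s0h K A =
    (QuotientGroup.mk (Matrix.SpecialLinearGroup.map (n := Fin 2) K.subtype A) : PSL(2, F)) := rfl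

theorem psld_map (K : Subfield F) (A : SL(2, K)) (i j : Fin 2) :
    (Matrix.SpecialLinearGroup.map (n := Fin 2) K.subtype A).1 i j = (A.1 i j : F) := rfl

/-- The centre. -/
theorem psld_center {E : Type} [Field E] (A : SL(2, E)) : A ∈ Subgroup.center SL(2, E) ↔
    A.1 0 1 = 0 ∧ A.1 1 0 = 0 ∧ A.1 0 0 = A.1 1 1 := by
  rw [Matrix.SpecialLinearGroup.mem_center_iff, Fintype.card_fin]
  constructor
  · rintro ⟨r, -, hr2⟩
    rw [← hr2]
    refine ⟨?_, ?_, ?_⟩ <;> simp [Matrix.scalar_apply]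
  · rintro ⟨h1, h2, h3⟩
    have hd := pslb_det A
    rw [h1, h2, ← h3] at hd
    refine ⟨A.1 0 0, by linear_combination hd, ?_⟩
    ext i j
    fin_cases i <;> fin_cases j
    · simp [Matrix.scalar_apply]
    · simpa [Matrix.scalar_apply] using h1.symm
    · simpa [Matrix.scalar_apply] using h2.symm
    · simpa [Matrix.scalar_apply] using h3

theorem psld_ker (K : Subfield F) : Subgroup.center SL(2, K) = (s0h K).ker := by
  ext A
  rw [MonoidHom.mem_ker, psld_mk, QuotientGroup.eq_one_iff, psld_center, psld_center,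
    psld_map, psld_map, psld_map, psld_map]
  constructor
  · rintro ⟨h1, h2, h3⟩
    rw [h1, h2, h3]
    exact ⟨rfl, rfl, rfl⟩
  · rintro ⟨h1, h2, h3⟩
    exact ⟨Subtype.ext h1, Subtype.ext h2, Subtype.ext h3⟩

/-- The image is perfect. Proof. `SL_2` is perfect (`SL2.commutator_eq_top`, see the end of
Mathlib's file LinearAlgebra/Projectivization/PSL/PSL2), and images of perfect groups are perfect.
An element `a ≠ 0` with `a ^ 2 ≠ 1` exists as `X ^ 2 - 1` has at most two roots. -/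
theorem s0_perf [Finite F] (K : Subfield F) (hK : 4 ≤ Nat.card K) :
    commutator (s0 K) = ⊤ := by
  obtain ⟨x, hx⟩ : IsCyclic Kˣ := by infer_instance
  have h2 : (x : K) ^ 2 ≠ 1 := by
    intro h
    have h1 : x ^ 2 = 1 := Units.ext (by simpa using h)
    have h3 := orderOf_le_of_pow_eq_one (by norm_num : 0 < 2) h1
    have h4 := orderOf_eq_card_of_forall_mem_zpowers hx
    have h5 := Nat.card_eq_card_units_add_one K
    omega
  have h3 : Group.IsPerfect SL(2, K) := ⟨SL2.commutator_eq_top (Units.ne_zero x) h2⟩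
  have h4 : Group.IsPerfect (s0 K) := Group.IsPerfect.range (s0h K)
  exact h4.commutator_eq_top

/-- The image is isomorphic to `PSL_2` of the subfield.

Proof. The kernel of `s0h K` is the centre: if the image of `A` in `SL(2, F)` is central it is a
scalar matrix `x`, `x ^ 2 = 1`, with entries in `K`. -/
theorem s0_iso (K : Subfield F) : ∃ e : PSL(2, K) ≃* s0 K,
    ∀ A : SL(2, K), (e (QuotientGroup.mk A : PSL(2, K)) : PSL(2, F)) = s0h K A := by
  refine ⟨(QuotientGroup.quotientMulEquivOfEq (psld_ker K)).trans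
    (QuotientGroup.quotientKerEquivRange (s0h K)), fun A => ?_⟩
  rfl

/-- The powers of a generator: the field generated by its fourth power is everything. -/
theorem psld_field [Finite F] (K : Subfield F) (hK : 4 ≤ Nat.card K)
    (hodd : Odd (Module.finrank K F)) (a : Fˣ) (ha : ∀ x : Fˣ, x ∈ Subgroup.zpowers a) (y : F) :
    y ∈ Algebra.adjoin K {(a : F) ^ 4} := by
  classical
  have hfd : FiniteDimensional K F := by infer_instance
  have hE := IntermediateField.adjoin_simple_toSubalgebra_of_isAlgebraic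
    (IsAlgebraic.of_finite K ((a : F) ^ 4))
  rw [← hE]
  show y ∈ IntermediateField.adjoin K {(a : F) ^ 4}
  obtain ⟨E, hEq⟩ : ∃ E, E = IntermediateField.adjoin K {(a : F) ^ 4} := ⟨_, rfl⟩
  rw [← hEq]
  have hmem : (a : F) ^ 4 ∈ E := by
    rw [hEq]
    exact IntermediateField.mem_adjoin_simple_self K _
  have h1 : Nat.card F = Nat.card E ^ Module.finrank E F := Module.natCard_eq_pow_finrank
  have h2 := Module.finrank_mul_finrank K E F
  rw [← h2, Nat.odd_mul] at hodd
  have h3 : Nat.card K ≤ Nat.card E :=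
    Nat.card_le_card_of_injective (algebraMap K E) (algebraMap K E).injective
  have h4 : Nat.card F - 1 ≤ 4 * (Nat.card E - 1) := by
    have hb0 : (⟨(a : F) ^ 4, hmem⟩ : E) ≠ 0 := fun h =>
      pow_ne_zero 4 a.ne_zero (congrArg Subtype.val h)
    let u : Eˣ := Units.mk0 _ hb0
    have h5 : orderOf u ≤ Nat.card E - 1 := by
      rw [← Nat.card_units]
      exact orderOf_le_card
    have h6 : a ^ (4 * orderOf u) = 1 := by
      have h7 : u ^ orderOf u = 1 := pow_orderOf_eq_one u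
      have h8 := congrArg (fun v : Eˣ => ((v : E) : F)) h7
      simp only [Units.val_pow_eq_pow_val, Units.val_one, u, Units.val_mk0] at h8
      apply Units.ext
      rw [Units.val_pow_eq_pow_val, pow_mul, Units.val_one]
      exact h8
    have h7 := orderOf_le_of_pow_eq_one (Nat.mul_pos (by norm_num) (orderOf_pos u)) h6
    have h8 := orderOf_eq_card_of_forall_mem_zpowers ha
    have h9 := Nat.card_eq_card_units_add_one F
    omega
  have h5 : Module.finrank E F = 1 := by
    by_contra h6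
    obtain ⟨k, hk⟩ := hodd.2
    have h7 : 3 ≤ Module.finrank E F := by omega
    have h8 : Nat.card E ^ 3 ≤ Nat.card F := by
      rw [h1]
      exact Nat.pow_le_pow_right (by omega) h7
    have h9 : 16 * Nat.card E ≤ Nat.card E ^ 3 := by
      have h10 : Nat.card E ^ 3 = (Nat.card E * Nat.card E) * Nat.card E := by ring
      rw [h10]
      exact Nat.mul_le_mul_right _ (Nat.mul_le_mul (by omega : 4 ≤ Nat.card E)
        (by omega : 4 ≤ Nat.card E))
    omega
  rw [IntermediateField.finrank_eq_one_iff_eq_top.1 h5]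
  exact IntermediateField.mem_top

/-- `PSL_2` is generated by two conjugates of the subgroup of a subfield of odd degree.

Proof. Let `a` generate the multiplicative group of `F`, `h 0 = 1`, `h 1 =` the class of `dg a`.
Let `R` be a subgroup containing `s0 K` and `h 1 * s0 K * (h 1)⁻¹`. It contains the class of
`dg a * ww * (dg a)⁻¹ * ww⁻¹ = dg (a ^ 2)`, hence the classes of `uu (a ^ (4 * k) * x)`, `x ∈ K`
(conjugates of `uu x`). The set of all `y` with the class of `uu y` in `R` is an additive subgroup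
of `F` stable under multiplication by `a ^ 4` and (as a sum of such elements) under `K`: precisely
it contains the `K`-span of the powers of `a ^ 4`, which is the field `F' = K(a ^ 4)`. The group
generated by `a ^ 4` has index at most four in the multiplicative group, so
`card F - 1 ≤ 4 * (card F' - 1)`; if `F' ≠ F` then the degree of `F` over `F'` is odd, at least
three, so `card F ≥ (card F') ^ 3`, and `(card F') ^ 3 - 1 ≤ 4 * (card F' - 1)` is false.
So all classes of `uu y`, and of `ll y = ww * uu (-y) * ww⁻¹`, are in `R`; `sl_four`. -/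
theorem s0_gen [Finite F] (K : Subfield F) (hK : 4 ≤ Nat.card K)
    (hodd : Odd (Module.finrank K F)) : GenC 2 PSL(2, F) (s0 K) := by
  classical
  obtain ⟨a, ha⟩ : IsCyclic Fˣ := by infer_instance
  have ha0 : (a : F) ≠ 0 := a.ne_zero
  refine ⟨![1, QuotientGroup.mk (dg (a : F) ha0)], fun R hR => ?_⟩
  obtain ⟨R', hR'⟩ : ∃ R' : Subgroup SL(2, F), ∀ A : SL(2, F),
      A ∈ R' ↔ (QuotientGroup.mk A : PSL(2, F)) ∈ R :=
    ⟨R.comap (QuotientGroup.mk' (Subgroup.center SL(2, F))), fun A => Iff.rfl⟩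
  have m0 : ∀ A : SL(2, K), Matrix.SpecialLinearGroup.map (n := Fin 2) K.subtype A ∈ R' := by
    intro A
    rw [hR']
    have h1 := hR 0 (s0h K A) ⟨A, rfl⟩
    simpa [psld_mk] using h1
  have m1 : ∀ A : SL(2, K), dg (a : F) ha0 *
      Matrix.SpecialLinearGroup.map (n := Fin 2) K.subtype A * (dg (a : F) ha0)⁻¹ ∈ R' := by
    intro A
    rw [hR']
    exact hR 1 (s0h K A) ⟨A, rfl⟩
  have hmw : Matrix.SpecialLinearGroup.map (n := Fin 2) K.subtype (ww : SL(2, K)) = ww := by
    refine pslb_ext ?_ ?_ ?_ ?_ <;> simp [psld_map, pslb_ww]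
  have hmu : ∀ (x : F) (hx : x ∈ K),
      Matrix.SpecialLinearGroup.map (n := Fin 2) K.subtype (uu (⟨x, hx⟩ : K)) = uu x := by
    intro x hx
    refine pslb_ext ?_ ?_ ?_ ?_ <;> simp [psld_map, pslb_uu]
  have hww : (ww : SL(2, F)) ∈ R' := hmw ▸ m0 ww
  have hdg : dg ((a : F) ^ 2) (pow_ne_zero 2 ha0) ∈ R' := by
    have h1 : dg ((a : F) ^ 2) (pow_ne_zero 2 ha0) =
        dg (a : F) ha0 * ww * (dg (a : F) ha0)⁻¹ * ww⁻¹ := by
      refine pslb_ext ?_ ?_ ?_ ?_ <;> simp only [pslb_mul, pslb_dg, pslb_ww, pslb_inv] <;>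
        field_simp <;> ring
    rw [h1]
    exact R'.mul_mem (hmw ▸ m1 ww) (R'.inv_mem hww)
  have hdgk : ∀ k : ℕ, ∃ D ∈ R', ∀ x : F, D * uu x * D⁻¹ = uu (((a : F) ^ 4) ^ k * x) := by
    intro k
    induction k with
    | zero =>
      refine ⟨1, R'.one_mem, fun x => ?_⟩
      rw [one_mul, inv_one, mul_one, pow_zero, one_mul]
    | succ k ih =>
      obtain ⟨D, hD, hx⟩ := ih
      refine ⟨dg ((a : F) ^ 2) (pow_ne_zero 2 ha0) * D, R'.mul_mem hdg hD, fun x => ?_⟩
      have h1 : ∀ y : F, dg ((a : F) ^ 2) (pow_ne_zero 2 ha0) * uu y *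
          (dg ((a : F) ^ 2) (pow_ne_zero 2 ha0))⁻¹ = uu ((a : F) ^ 4 * y) := by
        intro y
        refine pslb_ext ?_ ?_ ?_ ?_ <;> simp only [pslb_mul, pslb_dg, pslb_uu, pslb_inv] <;>
          field_simp <;> ring
      calc dg ((a : F) ^ 2) (pow_ne_zero 2 ha0) * D * uu x *
            (dg ((a : F) ^ 2) (pow_ne_zero 2 ha0) * D)⁻¹ =
          dg ((a : F) ^ 2) (pow_ne_zero 2 ha0) * (D * uu x * D⁻¹) *
            (dg ((a : F) ^ 2) (pow_ne_zero 2 ha0))⁻¹ := by group
        _ = uu (((a : F) ^ 4) ^ (k + 1) * x) := by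
          rw [hx, h1, pow_succ]
          congr 1
          ring
  have hadd : ∀ x y : F, uu x ∈ R' → uu y ∈ R' → uu (x + y) ∈ R' := by
    intro x y hx hy
    have h1 : uu (x + y) = uu x * uu y := by
      refine pslb_ext ?_ ?_ ?_ ?_ <;> simp only [pslb_mul, pslb_uu] <;> ring
    rw [h1]
    exact R'.mul_mem hx hy
  have huu : ∀ y : F, uu y ∈ R' := by
    intro y
    have h1 := psld_field K hK hodd a ha y
    rw [Algebra.adjoin_singleton_eq_range_aeval] at h1
    obtain ⟨p, rfl⟩ := h1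
    show uu (Polynomial.aeval ((a : F) ^ 4) p) ∈ R'
    rw [Polynomial.aeval_eq_sum_range]
    refine Finset.sum_induction _ (fun y => uu y ∈ R') hadd ?_ fun i _ => ?_
    · have h2 : (uu 0 : SL(2, F)) = 1 := by
        refine pslb_ext ?_ ?_ ?_ ?_ <;> simp [pslb_uu]
      rw [h2]
      exact R'.one_mem
    · obtain ⟨D, hD, hx⟩ := hdgk i
      have h2 : p.coeff i • ((a : F) ^ 4) ^ i = ((a : F) ^ 4) ^ i * ((p.coeff i : K) : F) := by
        rw [mul_comm]
        rfl
      rw [h2, ← hx]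
      exact R'.mul_mem (R'.mul_mem hD (hmu _ (p.coeff i).2 ▸ m0 _)) (R'.inv_mem hD)
  have hll : ∀ y : F, ll y ∈ R' := by
    intro y
    have h1 : ll y = ww * uu (-y) * ww⁻¹ := by
      refine pslb_ext ?_ ?_ ?_ ?_ <;> simp only [pslb_mul, pslb_ll, pslb_uu, pslb_ww, pslb_inv] <;>
        ring
    rw [h1]
    exact R'.mul_mem (R'.mul_mem hww (huu _)) (R'.inv_mem hww)
  rw [eq_top_iff]
  intro g _
  obtain ⟨A, rfl⟩ := QuotientGroup.mk_surjective g
  rw [← hR']
  obtain ⟨x, y, z, w, rfl⟩ := sl_four A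
  exact R'.mul_mem (R'.mul_mem (R'.mul_mem (hll x) (huu y)) (hll z)) (huu w)

/-- A nonsquare in a subfield of odd degree.

Proof. The field `K` has a nonsquare `x` (finite, `2 ≠ 0`), `ν = - x`. If `y ^ 2 = x` with `y` in
`F` then `K(y)` has degree one or two over `K`, dividing the odd degree of `F`, so `y ∈ K`. -/
theorem s0_nonsq [Finite F] (h2 : (2 : F) ≠ 0) (K : Subfield F)
    (hodd : Odd (Module.finrank K F)) :
    ∃ ν : F, ν ≠ 0 ∧ ν ∈ K ∧ ∀ y : F, y ^ 2 ≠ -ν := by
  classical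
  have iK : Fintype K := Fintype.ofFinite K
  have iF : Fintype F := Fintype.ofFinite F
  have hK2 : ringChar K ≠ 2 := by
    intro h
    have h1 : CharP K 2 := ringChar.of_eq h
    have h3 : (2 : K) = 0 := CharTwo.two_eq_zero
    exact h2 (congrArg Subtype.val h3)
  obtain ⟨x, hx⟩ := FiniteField.exists_nonsquare hK2
  have hx0 : x ≠ 0 := by
    rintro rfl
    exact hx ⟨0, by simp⟩
  refine ⟨-(x : F), neg_ne_zero.2 fun h => hx0 (Subtype.ext h), K.neg_mem x.2, fun y hy => ?_⟩
  rw [neg_neg] at hy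
  have hfd : FiniteDimensional K F := by infer_instance
  have e1 : x ^ (Fintype.card K / 2) = -1 :=
    (FiniteField.pow_dichotomy hK2 hx0).resolve_left
      fun h => hx ((FiniteField.isSquare_iff hK2 hx0).2 h)
  have hq := FiniteField.odd_card_of_char_ne_two hK2
  have e2 : y ^ (Fintype.card K - 1) = -1 := by
    have h3 : Fintype.card K - 1 = 2 * (Fintype.card K / 2) := by omega
    rw [h3, pow_mul, hy]
    have h4 := congrArg (fun v : K => (v : F)) e1
    simpa using h4
  have hy0 : y ≠ 0 := by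
    rintro rfl
    rw [zero_pow two_ne_zero] at hy
    exact hx0 (Subtype.ext hy.symm)
  have e3 := FiniteField.pow_card_sub_one_eq_one y hy0
  have e4 : Fintype.card F = Fintype.card K ^ Module.finrank K F := Module.card_eq_pow_finrank
  have hq1 : 1 ≤ Fintype.card K := Fintype.card_pos
  have e5 := geom_sum_mul_of_one_le hq1 (Module.finrank K F)
  have e6 : Odd (∑ i ∈ Finset.range (Module.finrank K F), Fintype.card K ^ i) := by
    rw [Finset.odd_sum_iff_odd_card_odd, Finset.filter_true_of_mem, Finset.card_range]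
    · exact hodd
    · intro i _
      exact (Nat.odd_iff.2 hq).pow
  rw [e4, ← e5, mul_comm, pow_mul, e2, e6.neg_one_pow] at e3
  apply h2
  linear_combination -e3

/-- Field automorphisms which fix `K` act trivially on `s0 K`. -/
theorem s0_fix (K : Subfield F) (σ : F ≃+* F) (hσ : ∀ x ∈ K, σ x = x) (s : PSL(2, F))
    (hs : s ∈ s0 K) : fP σ s = s := by
  obtain ⟨A, rfl⟩ := hs
  show fP σ (QuotientGroup.mk (Matrix.SpecialLinearGroup.map (n := Fin 2) K.subtype A)) =
    QuotientGroup.mk (Matrix.SpecialLinearGroup.map (n := Fin 2) K.subtype A)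
  rw [fP_mk]
  congr 1
  apply Subtype.ext
  ext i j
  exact hσ _ (A.1 i j).2

/-- The twist on `s0 K`. Proof. The conjugation by `g0 ν` of the image of `A` is the image of the
conjugation of `A` by `g0` of the element `ν` of `K` (`g0_conj`); transport by `s0_iso`. -/
theorem s0_twist (K : Subfield F) (ν : F) (hν : ν ≠ 0) (hνK : ν ∈ K) :
    ∃ (e : PSL(2, K) ≃* s0 K) (hν' : (⟨ν, hνK⟩ : K) ≠ 0), ∀ s : s0 K,
      ((MulAut.congr e (cjP (g0 (⟨ν, hνK⟩ : K) hν')) s : s0 K) : PSL(2, F)) =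
        cjP (g0 ν hν) s := by
  obtain ⟨e, he⟩ := s0_iso K
  have hν' : (⟨ν, hνK⟩ : K) ≠ 0 := fun h => hν (congrArg Subtype.val h)
  refine ⟨e, hν', fun s => ?_⟩
  obtain ⟨y, rfl⟩ := e.surjective s
  obtain ⟨A, rfl⟩ := QuotientGroup.mk_surjective y
  have h1 : MulAut.congr e (cjP (g0 (⟨ν, hνK⟩ : K) hν')) (e (QuotientGroup.mk A)) =
      e (QuotientGroup.mk (cjS (g0 (⟨ν, hνK⟩ : K) hν') A)) := by
    show e (cjP (g0 (⟨ν, hνK⟩ : K) hν') (e.symm (e (QuotientGroup.mk A)))) = _
    rw [e.symm_apply_apply, cjP_mk]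
  rw [h1, he, he, psld_mk, psld_mk, cjP_mk]
  congr 1
  have h2 : A.1 = !![A.1 0 0, A.1 0 1; A.1 1 0, A.1 1 1] := Matrix.eta_fin_two _
  have h3 := g0_conj (⟨ν, hνK⟩ : K) hν' _ _ _ _ A h2
  have h4 := g0_conj ν hν _ _ _ _ (Matrix.SpecialLinearGroup.map (n := Fin 2) K.subtype A)
    (Matrix.eta_fin_two _)
  refine pslb_ext ?_ ?_ ?_ ?_ <;> rw [psld_map, h3, h4] <;>
    simp [psld_map]

/-- The twist is not inner on `s0 K`.

Proof. If the class of `A` acts on `s0 K` as `cjP (g0 ν)` then `cjP (A⁻¹ * g0)` fixes the classes of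
`uu 1` and `ll 1`, so `A⁻¹ * g0` is a scalar `x` (`cjP_eq_one`), and `-ν = det g0 = x ^ 2`. -/
theorem s0_inn (K : Subfield F) (ν : F) (hν : ν ≠ 0) (hns : ∀ y : F, y ^ 2 ≠ -ν)
    (t : PSL(2, F)) : ¬ ∀ s ∈ s0 K, t * s * t⁻¹ = cjP (g0 ν hν) s := by
  intro h
  obtain ⟨A, rfl⟩ := QuotientGroup.mk_surjective t
  have hM : ∀ s ∈ s0 K, cjP ((A⁻¹ : SL(2, F)) * g0 ν hν : GL (Fin 2) F) s = s := by
    intro s hs
    rw [map_mul, MulAut.mul_apply, ← h s hs, cjP_coe]
    rw [QuotientGroup.mk_inv]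
    group
  have hmem : ∀ (x : F), x ∈ K → ∀ B : SL(2, F), (B = uu x ∨ B = ll x) →
      (QuotientGroup.mk B : PSL(2, F)) ∈ s0 K := by
    rintro x hx B (rfl | rfl)
    · refine ⟨uu (⟨x, hx⟩ : K), ?_⟩
      rw [psld_mk]
      congr 1
      refine pslb_ext ?_ ?_ ?_ ?_ <;> simp [psld_map, pslb_uu]
    · refine ⟨ll (⟨x, hx⟩ : K), ?_⟩
      rw [psld_mk]
      congr 1
      refine pslb_ext ?_ ?_ ?_ ?_ <;> simp [psld_map, pslb_ll]
  obtain ⟨x, hx⟩ := cjP_eq_one ((A⁻¹ : SL(2, F)) * g0 ν hν : GL (Fin 2) F)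
    (fun B hB => hM _ (hmem 1 K.one_mem B (Or.inl (Subtype.ext hB))))
    (fun B hB => hM _ (hmem 1 K.one_mem B (Or.inr (Subtype.ext hB))))
  have h2 := congrArg Matrix.det hx
  rw [Units.val_mul, Matrix.det_mul, g0_coe, Matrix.det_fin_two_of, Matrix.det_smul,
    Matrix.det_one, Fintype.card_fin] at h2
  have h3 : ((A⁻¹ : SL(2, F)) : GL (Fin 2) F).1.det = 1 := (A⁻¹).2
  rw [h3] at h2
  apply hns x
  linear_combination -h2

/-- Every element of the projective group is an inner automorphism times the twist or one.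

Proof. If `det M` is a square, `cjP_sq`. Otherwise `det (M * g0⁻¹) = det M / (-ν)` is a square
(finite field: the squares of units have index two), `M = (M * g0⁻¹) * g0`. -/
theorem s0_split [Finite F] (ν : F) (hν : ν ≠ 0) (hns : ∀ y : F, y ^ 2 ≠ -ν)
    (M : GL (Fin 2) F) : ∃ (t : PSL(2, F)) (l : MulAut PSL(2, F)),
      (l = 1 ∨ l = cjP (g0 ν hν)) ∧ ∀ s, cjP M s = t * l s * t⁻¹ := by
  classical
  have : Fintype F := Fintype.ofFinite F
  by_cases hsq : IsSquare M.1.det
  · obtain ⟨x, hx⟩ := hsq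
    obtain ⟨t, ht⟩ := cjP_sq M x (by rw [hx, pow_two])
    exact ⟨t, 1, Or.inl rfl, ht⟩
  · have hd : M.1.det ≠ 0 := ((Matrix.isUnit_iff_isUnit_det M.1).1 M.isUnit).ne_zero
    have hg : (g0 ν hν).1.det = -ν := by
      rw [g0_coe, Matrix.det_fin_two_of]
      ring
    have hν2 : ¬ IsSquare (-ν) := by
      rintro ⟨y, hy⟩
      exact hns y (by rw [hy, pow_two])
    have h2 : IsSquare (M.1.det * -ν) := by
      have h3 : quadraticChar F (M.1.det * -ν) = 1 := by
        rw [map_mul, quadraticChar_neg_one_iff_not_isSquare.2 hsq,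
          quadraticChar_neg_one_iff_not_isSquare.2 hν2]
        norm_num
      exact (quadraticChar_one_iff_isSquare (mul_ne_zero hd (neg_ne_zero.2 hν))).1 h3
    obtain ⟨y, hy⟩ := h2
    have h4 : (M * (g0 ν hν)⁻¹).1.det = (y / -ν) ^ 2 := by
      have h5 : (M * (g0 ν hν)⁻¹).1.det * (-ν) = M.1.det := by
        rw [← hg, ← Matrix.det_mul, ← Units.val_mul, inv_mul_cancel_right]
      have h6 : -ν ≠ 0 := neg_ne_zero.2 hν
      field_simp
      linear_combination (-ν) * h5 + hy
    obtain ⟨t, ht⟩ := cjP_sq _ _ h4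
    refine ⟨t, cjP (g0 ν hν), Or.inr rfl, fun s => ?_⟩
    rw [← ht, ← MulAut.mul_apply, ← map_mul, inv_mul_cancel_right]

/-- The model.

Proof. If `2 = 0` in `F` then every element is a square and `L = cen (s0 K)`, `sg2_tame`
(`s0_perf`, `s0_gen`), `sg2_mono`; `cjP M` is inner (`cjP_sq`) and `fP σ ∈ L` (`s0_fix`). If
`2 ≠ 0` then take `ν` from `s0_nonsq`, `τ = cjP (g0 ν)`, `L = lst (s0 K) τ`, `sg2_lst` with
`c = 125`: `g0_sq`, `s0_twist` (also for the stability of `s0 K`), `s0_perf`, `s0_gen` with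
`gen_mono`, `psl_cv` for `K` with `cv_congr` (`card K ≥ 5` as it is odd, or `card K ≥ 4` and not a
power of two), `s0_inn`. The last claim: `s0_split`, and `l * fP σ ∈ L`. -/
theorem psl_model [Finite F] (K : Subfield F) (hK : 4 ≤ Nat.card K)
    (hodd : Odd (Module.finrank K F)) :
    ∃ L : Subgroup (MulAut PSL(2, F)), SG2 126 PSL(2, F) (s0 K) L ∧
      ∀ (M : GL (Fin 2) F) (σ : F ≃+* F), (∀ x ∈ K, σ x = x) →
        ∃ t, ∃ l ∈ L, ∀ s, cjP M (fP σ s) = t * l s * t⁻¹ := by
  classical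
  have hf1 : Finite SL(2, F) := Finite.of_injective (fun A : SL(2, F) => A.1) Subtype.val_injective
  have hf2 : Finite PSL(2, F) := Finite.of_surjective _ QuotientGroup.mk_surjective
  have hnt : Nontrivial PSL(2, F) := by
    have h4 : 4 ≤ Nat.card F := hK.trans
      (Nat.card_le_card_of_injective (fun x : K => (x : F)) Subtype.val_injective)
    have h5 : IsSimpleGroup PSL(2, F) := Matrix.ProjectiveSpecialLinearGroup.rank_two_simple h4
    infer_instance
  by_cases h2 : (2 : F) = 0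
  · refine ⟨cen (s0 K), sg2_mono (by norm_num) (sg2_tame (s0 K) (s0_perf K hK)
      (s0_gen K hK hodd)), fun M σ hσ => ?_⟩
    have hc : ringChar F = 2 := by
      have h3 : ringChar F ∣ 2 := (ringChar.spec F 2).1 (by exact_mod_cast h2)
      rcases (Nat.dvd_prime Nat.prime_two).1 h3 with h4 | h4
      · exact absurd h4 (CharP.ringChar_ne_one (R := F))
      · exact h4
    obtain ⟨x, hx⟩ := FiniteField.isSquare_of_char_two hc M.1.det
    obtain ⟨t, ht⟩ := cjP_sq M x (by rw [hx, pow_two])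
    exact ⟨t, fP σ, fun s hs => s0_fix K σ hσ s hs, fun s => ht (fP σ s)⟩
  · obtain ⟨ν, hν, hνK, hns⟩ := s0_nonsq h2 K hodd
    obtain ⟨e, hν', he⟩ := s0_twist K ν hν hνK
    have hst : ∀ s ∈ s0 K, cjP (g0 ν hν) s ∈ s0 K := by
      intro s hs
      rw [← he ⟨s, hs⟩]
      exact (MulAut.congr e (cjP (g0 (⟨ν, hνK⟩ : K) hν')) ⟨s, hs⟩).2
    have hK5 : 5 ≤ Nat.card K := by
      have iK : Fintype K := Fintype.ofFinite K
      have hK2 : ringChar K ≠ 2 := by
        intro h
        have h1 : CharP K 2 := ringChar.of_eq h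
        have h3 : (2 : K) = 0 := CharTwo.two_eq_zero
        exact h2 (congrArg Subtype.val h3)
      have h3 := FiniteField.odd_card_of_char_ne_two hK2
      rw [Nat.card_eq_fintype_card] at hK ⊢
      omega
    have hfK : Finite SL(2, K) :=
      Finite.of_injective (fun A : SL(2, K) => A.1) Subtype.val_injective
    have hfK2 : Finite PSL(2, K) := Finite.of_surjective _ QuotientGroup.mk_surjective
    refine ⟨lst (s0 K) (cjP (g0 ν hν)) (g0_sq ν hν) hst, sg2_lst (s0 K) (cjP (g0 ν hν))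
      (g0_sq ν hν) hst (s0_perf K hK) (c := 125) (gen_mono (by norm_num) (s0_gen K hK hodd))
      ⟨MulAut.congr e (cjP (g0 (⟨ν, hνK⟩ : K) hν')), he, cv_congr e (psl_cv hK5 _ hν')⟩
      (s0_inn K ν hν hns), fun M σ hσ => ?_⟩
    obtain ⟨t, l, hl, ht⟩ := s0_split ν hν hns M
    refine ⟨t, l * fP σ, ?_, fun s => ht (fP σ s)⟩
    rcases hl with rfl | rfl
    · left
      intro s hs
      rw [one_mul]
      exact s0_fix K σ hσ s hs
    · right
      intro s hs
      rw [MulAut.mul_apply]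
      exact congrArg _ (s0_fix K σ hσ s hs)

end Pool.Agent.MPfe8e9bN
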