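import Mathlib
import Pool.Agent.Lib.MP_fe8e9b_al_N.Defs
import Pool.Agent.Lib.MP_fe8e9b_al_N.PslA
import Pool.Agent.Lib.MP_fe8e9b_al_N.PslD

/-!
# MP_fe8e9b_al, groups of bounded height: components of type `PSL_2`
-/

set_option autoImplicit false

open scoped BigOperators MatrixGroups

namespace Pool.Agent.MPfe8e9bN

open Pool.Agent.MPfe8e9b Pool.Agent.MPfe8e9bM
open Matrix

/-- `S` is isomorphic to `PSL_2` of a finite field `F`, which is of odd degree over a subfield `K`
with at least four elements, and the elements which normalize `S` act on it as conjugations by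
invertible matrices composed with automorphisms of `F` over `K`. -/
def PslComp {G : Type} [Group G] (S : Subgroup G) (q k : ℕ) : Prop :=
  ∃ (F : Type) (_ : Field F) (_ : Fintype F) (K : Subfield F),
    Fintype.card F = q ∧ Nat.card K = k ∧ 4 ≤ k ∧ Odd (Module.finrank K F) ∧
    ∃ φ : S ≃* PSL(2, F), ∀ g : G, (∀ s, s ∈ S ↔ g * s * g⁻¹ ∈ S) →
      ∃ (M : GL (Fin 2) F) (σ : F ≃+* F), (∀ x ∈ K, σ x = x) ∧
        ∀ s s' : S, (s' : G) = g * s * g⁻¹ → φ s' = cjP M (fP σ (φ s))

/-- A subfield is determined by its number of elements. -/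
private theorem psle_mem {F : Type} [Field F] [Fintype F] (K : Subfield F) (x : F) :
    x ∈ K ↔ x ^ Nat.card K = x := by
  classical
  have hfin : Finite K := inferInstance
  let _ : Fintype K := Fintype.ofFinite K
  have hk1 : 1 < Nat.card K := Finite.one_lt_card
  constructor
  · intro hx
    have h := FiniteField.pow_card (⟨x, hx⟩ : K)
    have h2 := congrArg (Subtype.val : K → F) h
    rw [Nat.card_eq_fintype_card]
    exact h2
  · intro hx
    let p : Polynomial F := Polynomial.X ^ Nat.card K - Polynomial.X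
    have hp0 : p ≠ 0 := FiniteField.X_pow_card_sub_X_ne_zero F hk1
    have hdeg : p.natDegree = Nat.card K := FiniteField.X_pow_card_sub_X_natDegree_eq F hk1
    let A : Finset F := Finset.univ.image (Subtype.val : K → F)
    have hA : A.card = Nat.card K := by
      rw [Finset.card_image_of_injective _ Subtype.val_injective, Nat.card_eq_fintype_card]
      rfl
    have hsub : A ⊆ p.roots.toFinset := by
      intro y hy
      obtain ⟨z, -, rfl⟩ := Finset.mem_image.1 hy
      rw [Multiset.mem_toFinset, Polynomial.mem_roots hp0]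
      show Polynomial.eval (z : F) (Polynomial.X ^ Nat.card K - Polynomial.X) = 0
      rw [Polynomial.eval_sub, Polynomial.eval_pow, Polynomial.eval_X, sub_eq_zero]
      have h := FiniteField.pow_card z
      rw [← Nat.card_eq_fintype_card] at h
      exact congrArg (Subtype.val : K → F) h
    have hcard : p.roots.toFinset.card ≤ A.card := by
      rw [hA, ← hdeg]
      exact (Multiset.toFinset_card_le _).trans (Polynomial.card_roots' p)
    have heq := Finset.eq_of_subset_of_card_le hsub hcard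
    have hx2 : x ∈ p.roots.toFinset := by
      rw [Multiset.mem_toFinset, Polynomial.mem_roots hp0]
      show Polynomial.eval x (Polynomial.X ^ Nat.card K - Polynomial.X) = 0
      rw [Polynomial.eval_sub, Polynomial.eval_pow, Polynomial.eval_X, sub_eq_zero]
      exact hx
    rw [← heq] at hx2
    obtain ⟨z, -, rfl⟩ := Finset.mem_image.1 hx2
    exact z.2

/-- Two pairs of finite fields with the same orders are isomorphic.

Proof. `FiniteField.ringEquivOfCardEq` or `FiniteField.algEquivOfCardEq` gives `σ : F ≃+* F'`. A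
subfield with `k` elements is the set of the roots of `X ^ k - X` (`FiniteField.pow_card`; at most
`k` roots), and `σ` preserves this set. -/
theorem pair_iso {F F' : Type} [Field F] [Fintype F] [Field F'] [Fintype F'] (K : Subfield F)
    (K' : Subfield F') (h : Fintype.card F = Fintype.card F') (hK : Nat.card K = Nat.card K') :
    ∃ σ : F ≃+* F', ∀ x, x ∈ K ↔ σ x ∈ K' := by
  refine ⟨FiniteField.ringEquivOfCardEq h, fun x => ?_⟩
  rw [psle_mem, psle_mem, ← hK, ← map_pow]
  exact (RingEquiv.injective _).eq_iff.symm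

/-- The model of the components of type `PSL_2`.

Proof. If there are a field with `q` elements and a subfield with `k ≥ 4` elements of odd degree,
fix one such pair `(F₀, K₀)` and take `T = PSL(2, F₀)`, `S0 = s0 K₀`, `L` from `psl_model`. For a
component with `(F, K, φ)` take `σ₀` from `pair_iso` and `φ₀ = φ.trans (fP σ₀)`. If `g` acts by `M`,
`σ` then `φ₀ s' = fP σ₀ (cjP M (fP σ (φ s))) = cjP (mG σ₀ M) (fP σ₀ (fP σ (φ s)))` (`fP_cjP`), and
`fP σ₀ (fP σ (φ s)) = fP (σ₀⁻¹ σ σ₀) (φ₀ s)` (`fP_trans`, `fP_symm`), where `σ₀⁻¹ σ σ₀` fixes `K₀`.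
Otherwise `PslComp S q k` is false and everything is trivial (`T = Unit`, say). -/
theorem psl_mod (q k : ℕ) : ∃ (T : Type) (_ : Group T) (S0 : Subgroup T)
    (L : Subgroup (MulAut T)), ∀ (G : Type) [Group G] [Finite G] (S : Subgroup G),
    PslComp S q k → ∃ φ : S ≃* T, SG2 126 T S0 L ∧
      ∀ g : G, (∀ s, s ∈ S ↔ g * s * g⁻¹ ∈ S) → ∃ t : T, ∃ l ∈ L,
        ∀ s s' : S, (s' : G) = g * s * g⁻¹ → φ s' = t * l (φ s) * t⁻¹ := by
  by_cases hex : ∃ (F : Type) (_ : Field F) (_ : Fintype F) (K : Subfield F),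
      Fintype.card F = q ∧ Nat.card K = k ∧ 4 ≤ k ∧ Odd (Module.finrank K F)
  · obtain ⟨F₀, _, _, K₀, hF₀, hK₀, hk, hodd⟩ := hex
    obtain ⟨L, hL, hLL⟩ := psl_model K₀ (hK₀ ▸ hk) hodd
    refine ⟨PSL(2, F₀), inferInstance, s0 K₀, L, fun G _ _ S hS => ?_⟩
    obtain ⟨F, _, _, K, hF, hK, -, -, φ, hφ⟩ := hS
    obtain ⟨σ₀, hσ₀⟩ := pair_iso K K₀ (hF.trans hF₀.symm) (hK.trans hK₀.symm)
    refine ⟨φ.trans (fP σ₀), hL, fun g hg => ?_⟩
    obtain ⟨M, σ, hσ, hMσ⟩ := hφ g hg
    have hfix : ∀ x ∈ K₀, ((σ₀.symm.trans σ).trans σ₀) x = x := by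
      intro x hx
      have h1 : σ₀.symm x ∈ K := by
        rw [hσ₀, RingEquiv.apply_symm_apply]
        exact hx
      show σ₀ (σ (σ₀.symm x)) = x
      rw [hσ _ h1, RingEquiv.apply_symm_apply]
    obtain ⟨t, l, hl, h⟩ := hLL (mG σ₀ M) ((σ₀.symm.trans σ).trans σ₀) hfix
    refine ⟨t, l, hl, fun s s' hs => ?_⟩
    show fP σ₀ (φ s') = t * l (fP σ₀ (φ s)) * t⁻¹
    rw [hMσ s s' hs, fP_cjP, ← h (fP σ₀ (φ s)), fP_trans, fP_trans]
    have h2 : σ₀.trans ((σ₀.symm.trans σ).trans σ₀) = σ.trans σ₀ := by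
      ext x
      show σ₀ (σ (σ₀.symm (σ₀ x))) = σ₀ (σ x)
      rw [RingEquiv.symm_apply_apply]
    rw [h2]
  · refine ⟨Unit, inferInstance, ⊥, ⊥, fun G _ _ S hS => ?_⟩
    exfalso
    obtain ⟨F, i1, i2, K, h1, h2, h3, h4, -⟩ := hS
    exact hex ⟨F, i1, i2, K, h1, h2, h3, h4⟩

/-- Components of type `PSL_2` are products of one image of `SL_2`, and the orders.

Proof. The quotient homomorphism is onto. `k ≤ q`: a subfield. -/
theorem psl_prod {G : Type} [Group G] (S : Subgroup G) (q k : ℕ) (h : PslComp S q k) (L : ℕ)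
    (hL : 1 ≤ L) : 4 ≤ q ∧ k ≤ q ∧
    ∃ (F : Type) (_ : Field F) (_ : Fintype F), Fintype.card F = q ∧ SLProduct L 2 F S := by
  obtain ⟨F, i1, i2, K, hF, hK, hk, -, φ, -⟩ := h
  have hkq : k ≤ q := by
    rw [← hK, ← hF, ← Nat.card_eq_fintype_card]
    exact Nat.card_le_card_of_injective (Subtype.val : K → F) Subtype.val_injective
  refine ⟨hk.trans hkq, hkq, F, i1, i2, hF, ?_⟩
  obtain ⟨L', rfl⟩ : ∃ L', L = L' + 1 := ⟨L - 1, by omega⟩
  refine ⟨fun _ => φ.symm.toMonoidHom.comp (QuotientGroup.mk' (Subgroup.center SL(2, F))),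
    fun g => ?_⟩
  obtain ⟨A, hA⟩ := QuotientGroup.mk_surjective (φ g)
  refine ⟨Fin.cons A fun _ => 1, ?_⟩
  rw [List.ofFn_succ, List.prod_cons]
  have h1 : (List.ofFn fun j : Fin L' =>
      (φ.symm.toMonoidHom.comp (QuotientGroup.mk' (Subgroup.center SL(2, F))))
        ((Fin.cons A fun _ => 1 : Fin (L' + 1) → SL(2, F)) j.succ)).prod = 1 := by
    refine List.prod_eq_one fun y hy => ?_
    obtain ⟨j, rfl⟩ := List.mem_ofFn.1 hy
    rw [Fin.cons_succ, map_one]
  rw [h1, mul_one, Fin.cons_zero]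
  show g = φ.symm (QuotientGroup.mk A)
  rw [hA, MulEquiv.symm_apply_apply]

end Pool.Agent.MPfe8e9bN
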