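import Mathlib
import Pool.Agent.Lib.MP_fe8e9b_al_M.Comm1
import Pool.Agent.Lib.MP_fe8e9b_al_N.Defs3

/-!
# MP_fe8e9b_al, groups of bounded height: gaps of twisted commutators, basic facts
-/

set_option autoImplicit false

open scoped BigOperators

namespace Pool.Agent.MPfe8e9bN

open Pool.Agent.MPfe8e9b Pool.Agent.MPfe8e9bA Pool.Agent.MPfe8e9bW Pool.Agent.MPfe8e9bV
open Pool.Agent.MPfe8e9bM

theorem tgl_mono {B B' : ℝ} (h : B ≤ B') {Λ T : Type} [Group T] {α : Λ → MulAut T}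
    (hg : TGL B α) : TGL B' α := by
  intro V _ _ _ ρ v e he h1 h2 x
  exact (hg V ρ v e he h1 h2 x).trans (mul_le_mul_of_nonneg_right h he)

/-- Fewer automorphisms. -/
theorem tgl_comp {B : ℝ} {Λ Λ' T : Type} [Group T] {α : Λ → MulAut T} (hg : TGL B α)
    (f : Λ' → Λ) (hf : Function.Injective f) : TGL B (fun i => α (f i)) := by
  classical
  intro V _ _ _ ρ v e he h1 h2 x
  obtain ⟨r, hr⟩ : ∃ r : (Λ → T) →* (Λ' → T), ∀ x i, r x i = x (f i) :=
    ⟨{ toFun := fun x i => x (f i)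
       map_one' := rfl
       map_mul' := fun _ _ => rfl }, fun _ _ => rfl⟩
  have h3 := hg V (ρ.comp r) v e he (fun k x => by
      have h4 : r ((fun _ => k) * x * (fun _ => k)⁻¹) =
          (fun _ => k) * r x * (fun _ => k)⁻¹ := by
        funext i
        rw [hr]
        simp only [Pi.mul_apply, Pi.inv_apply, hr]
      show ‖ρ (r _) v - v‖ = ‖ρ (r x) v - v‖
      rw [h4, h1]) (fun h t => by
      have h4 : r (fun l => cm h (α l t)) = fun i => cm h (α (f i) t) := by
        funext i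
        rw [hr]
      show ‖ρ (r _) v - v‖ ≤ e
      rw [h4]
      exact h2 h t)
  obtain ⟨x', hx'⟩ : ∃ x', r x' = x := by
    refine ⟨Function.extend f x 1, funext fun i => ?_⟩
    rw [hr, hf.extend_apply]
  rw [← hx']
  exact h3 x'

/-- Images. -/
theorem tgl_map {B : ℝ} {Λ T T' : Type} [Group T] [Group T'] {α : Λ → MulAut T}
    {α' : Λ → MulAut T'} (hg : TGL B α) (π : T →* T') (hπ : Function.Surjective π)
    (h : ∀ i t, π (α i t) = α' i (π t)) : TGL B α' := by
  intro V _ _ _ ρ v e he h1 h2 x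
  obtain ⟨r, hr⟩ : ∃ r : (Λ → T) →* (Λ → T'), ∀ x i, r x i = π (x i) :=
    ⟨{ toFun := fun x i => π (x i)
       map_one' := funext fun _ => map_one π
       map_mul' := fun _ _ => funext fun _ => map_mul π _ _ }, fun _ _ => rfl⟩
  have h3 := hg V (ρ.comp r) v e he (fun k x => by
      have h4 : r ((fun _ => k) * x * (fun _ => k)⁻¹) =
          (fun _ => π k) * r x * (fun _ => π k)⁻¹ := by
        funext i
        rw [hr]
        simp only [Pi.mul_apply, Pi.inv_apply, hr, map_mul, map_inv]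
      show ‖ρ (r _) v - v‖ = ‖ρ (r x) v - v‖
      rw [h4, h1]) (fun k t => by
      have h4 : r (fun l => cm k (α l t)) = fun i => cm (π k) (α' i (π t)) := by
        funext i
        rw [hr]
        simp only [cm, map_mul, map_inv, h]
      show ‖ρ (r _) v - v‖ ≤ e
      rw [h4]
      exact h2 _ _)
  choose g hg' using hπ
  have h4 : r (fun i => g (x i)) = x := by
    funext i
    rw [hr, hg']
  rw [← h4]
  exact h3 _

/-- Perfect groups, without twist.

Proof. `ρ' = ρ ∘ (fun t _ => t) : T →* ..`, `v' = v - av ρ' v`, so `ρ' g v' - v' = ρ' g v - v` for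
all `g` and `av ρ' v' = 0`. `comm_gap` (file M/Comm1): `c1 * ‖v'‖² ≤ mn .. ≤ e²`,
`c1 = 1 / 8192`, so `‖v'‖ ≤ 91 * e`, and every element moves `v` as it moves `v'`, at most
`2 * ‖v'‖`. Every
`x : Unit → T` is `fun _ => x ()`. -/
theorem tgl_bot {T : Type} [Group T] [Finite T] (hT : commutator T = ⊤) :
    TGL 182 (fun _ : Unit => (1 : MulAut T)) := by
  have : Fintype T := Fintype.ofFinite T
  intro V _ _ _ ρ v e he _ h2 x
  obtain ⟨r, hr⟩ : ∃ r : T →* (Unit → T), ∀ t, r t = fun _ => t :=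
    ⟨{ toFun := fun t _ => t
       map_one' := rfl
       map_mul' := fun _ _ => rfl }, fun _ => rfl⟩
  obtain ⟨σ, hσ⟩ : ∃ σ : T →* (V ≃ₗᵢ[ℂ] V), σ = ρ.comp r := ⟨_, rfl⟩
  have hσa : ∀ g w, σ g w = ρ (fun _ => g) w := by
    intro g w
    rw [hσ]
    show ρ (r g) w = _
    rw [hr]
  obtain ⟨w, hw⟩ : ∃ w, w = v - av σ v := ⟨_, rfl⟩
  have hav : av σ w = 0 := by
    rw [hw, map_sub, av_idem, sub_self]
  have hdis : ∀ g, σ g w - w = σ g v - v := by
    intro g
    rw [hw, map_sub, rho_av]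
    abel
  have h3 : mn (fun p : T × T => ‖σ (cm p.1 p.2) w - w‖ ^ 2) ≤ e ^ 2 := by
    apply mn_le
    intro p
    apply pow_le_pow_left₀ (norm_nonneg _)
    rw [hdis, hσa]
    exact h2 p.1 p.2
  have h4 := (comm_gap hT σ w hav).trans h3
  have h5 : ‖w‖ ≤ 91 * e := by
    apply le_of_sq_le_sq _ (by positivity)
    have h6 : c1 = 1 / 8192 := rfl
    rw [h6] at h4
    nlinarith [sq_nonneg e]
  have h7 : x = fun _ => x () := by
    funext i
    rfl
  rw [h7, ← hσa, ← hdis]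
  calc ‖σ (x ()) w - w‖ ≤ ‖σ (x ()) w‖ + ‖w‖ := norm_sub_le _ _
    _ = ‖w‖ + ‖w‖ := by rw [LinearIsometryEquiv.norm_map]
    _ ≤ 182 * e := by linarith

end Pool.Agent.MPfe8e9bN
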