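import Mathlib
import Pool.Agent.Lib.MP_fe8e9b_al_M.Defs
import Pool.Agent.Lib.MP_fe8e9b_al_N.Defs3

/-!
# MP_fe8e9b_al, groups of bounded height: displacement by the elements of a finite abelian group
-/

set_option autoImplicit false

open scoped BigOperators

namespace Pool.Agent.MPfe8e9bN

open Pool.Agent.MPfe8e9b Pool.Agent.MPfe8e9bA Pool.Agent.MPfe8e9bW Pool.Agent.MPfe8e9bV
open Pool.Agent.MPfe8e9bM

/-- The projection to a character. -/
noncomputable def tgP {A : Type} [AddCommGroup A] [Fintype A] {V : Type} [NormedAddCommGroup V]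
    [InnerProductSpace ℂ V] (ρ : Multiplicative A →* (V ≃ₗᵢ[ℂ] V)) (χ : AddChar A ℂ) (v : V) : V :=
  ((Fintype.card A : ℂ))⁻¹ • ∑ a : A, (χ (-a)) • ρ (Multiplicative.ofAdd a) v

/-- The values of characters have absolute value one (`AddChar.norm_apply` or
`AddChar.norm_eq_one`). -/
theorem tgb_norm {A : Type} [AddCommGroup A] [Finite A] (χ : AddChar A ℂ) (a : A) :
    ‖χ a‖ = 1 := by
  exact AddChar.norm_apply χ a

/-- `ρ b (P χ v) = χ b • P χ v`. Proof. Reindex the sum by `a ↦ a + b`. -/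
theorem tgb_eig {A : Type} [AddCommGroup A] [Fintype A] {V : Type} [NormedAddCommGroup V]
    [InnerProductSpace ℂ V] (ρ : Multiplicative A →* (V ≃ₗᵢ[ℂ] V)) (χ : AddChar A ℂ) (v : V)
    (b : A) : ρ (Multiplicative.ofAdd b) (tgP ρ χ v) = χ b • tgP ρ χ v := by
  have h1 : ∀ a : A, ρ (Multiplicative.ofAdd b) (ρ (Multiplicative.ofAdd a) v) =
      ρ (Multiplicative.ofAdd (b + a)) v := by
    intro a
    rw [ofAdd_add, map_mul]
    rfl
  unfold tgP
  rw [map_smul, map_sum, smul_comm (χ b)]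
  congr 1
  rw [Finset.smul_sum,
    ← Equiv.sum_comp (Equiv.addLeft b) fun a => χ b • χ (-a) • ρ (Multiplicative.ofAdd a) v]
  refine Finset.sum_congr rfl fun a _ => ?_
  have h2 : χ (-a) = χ (b + -(b + a)) := by
    congr 1
    rw [neg_add, add_neg_cancel_left]
  rw [map_smul, h1, Equiv.coe_addLeft, smul_smul, ← AddChar.map_add_eq_mul, h2]

/-- The sum of the projections. Proof. `∑ χ, χ (-a) = if a = 0 then card A else 0`
(`AddChar.sum_apply_eq_ite`). -/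
theorem tgb_sum {A : Type} [AddCommGroup A] [Fintype A] {V : Type} [NormedAddCommGroup V]
    [InnerProductSpace ℂ V] (ρ : Multiplicative A →* (V ≃ₗᵢ[ℂ] V)) (v : V) :
    ∑ χ : AddChar A ℂ, tgP ρ χ v = v := by
  classical
  unfold tgP
  rw [← Finset.smul_sum, Finset.sum_comm]
  have h1 : ∀ a : A, ∑ χ : AddChar A ℂ, χ (-a) • ρ (Multiplicative.ofAdd a) v =
      if a = 0 then (Fintype.card A : ℂ) • v else 0 := by
    intro a
    rw [← Finset.sum_smul, AddChar.sum_apply_eq_ite]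
    by_cases h : a = 0
    · subst h
      rw [if_pos neg_zero, if_pos rfl, ofAdd_zero, map_one]
      rfl
    · rw [if_neg (fun h2 => h (neg_eq_zero.1 h2)), if_neg h, zero_smul]
  rw [Finset.sum_congr rfl fun a _ => h1 a, Finset.sum_ite_eq' Finset.univ (0 : A),
    if_pos (Finset.mem_univ _), smul_smul, inv_mul_cancel₀, one_smul]
  exact Nat.cast_ne_zero.2 Fintype.card_ne_zero

/-- The projections to different characters are orthogonal.

Proof. For `b` with `χ b ≠ χ' b`: `⟨x, y⟩ = ⟨ρ b x, ρ b y⟩ = conj (χ b) * χ' b * ⟨x, y⟩`, and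
`conj (χ b) * χ' b ≠ 1` as `|χ b| = 1`. -/
theorem tgb_orth {A : Type} [AddCommGroup A] [Fintype A] {V : Type} [NormedAddCommGroup V]
    [InnerProductSpace ℂ V] (ρ : Multiplicative A →* (V ≃ₗᵢ[ℂ] V)) {χ χ' : AddChar A ℂ}
    (h : χ ≠ χ') (v v' : V) : inner ℂ (tgP ρ χ v) (tgP ρ χ' v') = 0 := by
  obtain ⟨b, hb⟩ : ∃ b, χ b ≠ χ' b := by
    by_contra hcon
    push Not at hcon
    exact h (DFunLike.ext _ _ hcon)
  have h1 : inner ℂ (tgP ρ χ v) (tgP ρ χ' v') =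
      starRingEnd ℂ (χ b) * (χ' b * inner ℂ (tgP ρ χ v) (tgP ρ χ' v')) := by
    rw [← inner_smul_right, ← inner_smul_left, ← tgb_eig, ← tgb_eig,
      LinearIsometryEquiv.inner_map_map]
  by_contra h2
  apply hb
  have h3 : starRingEnd ℂ (χ b) * χ' b = 1 := by
    have h4 : (starRingEnd ℂ (χ b) * χ' b) * inner ℂ (tgP ρ χ v) (tgP ρ χ' v') =
        1 * inner ℂ (tgP ρ χ v) (tgP ρ χ' v') := by
      rw [one_mul, mul_assoc]
      exact h1.symm
    exact mul_right_cancel₀ h2 h4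
  have h5 : χ b * starRingEnd ℂ (χ b) = 1 := by
    rw [Complex.mul_conj, Complex.normSq_eq_norm_sq, tgb_norm]
    norm_num
  calc χ b = χ b * (starRingEnd ℂ (χ b) * χ' b) := by rw [h3, mul_one]
    _ = χ' b := by rw [← mul_assoc, h5, one_mul]

/-- Pythagoras: for scalars `c χ` the square of the norm of `∑ χ, c χ • P χ v` is
`∑ χ, ‖c χ‖ ^ 2 * ‖P χ v‖ ^ 2`. -/
theorem tgb_pyth {A : Type} [AddCommGroup A] [Fintype A] {V : Type} [NormedAddCommGroup V]
    [InnerProductSpace ℂ V] (ρ : Multiplicative A →* (V ≃ₗᵢ[ℂ] V)) (v : V)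
    (c : AddChar A ℂ → ℂ) : ‖∑ χ : AddChar A ℂ, c χ • tgP ρ χ v‖ ^ 2 =
      ∑ χ : AddChar A ℂ, ‖c χ‖ ^ 2 * ‖tgP ρ χ v‖ ^ 2 := by
  classical
  have h1 : inner ℂ (∑ χ : AddChar A ℂ, c χ • tgP ρ χ v) (∑ χ : AddChar A ℂ, c χ • tgP ρ χ v) =
      ∑ χ : AddChar A ℂ, (((‖c χ‖ ^ 2 * ‖tgP ρ χ v‖ ^ 2 : ℝ)) : ℂ) := by
    rw [sum_inner]
    refine Finset.sum_congr rfl fun χ _ => ?_
    rw [inner_sum, Finset.sum_eq_single χ]
    · rw [inner_self_eq_norm_sq_to_K, norm_smul]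
      push_cast
      simp only [Complex.coe_algebraMap]
      ring
    · intro χ' _ hne
      rw [inner_smul_left, inner_smul_right, tgb_orth ρ (Ne.symm hne), mul_zero, mul_zero]
    · intro h
      exact absurd (Finset.mem_univ χ) h
  rw [inner_self_eq_norm_sq_to_K, ← Complex.ofReal_sum] at h1
  simp only [Complex.coe_algebraMap] at h1
  exact_mod_cast h1

/-- A family of elements which moves `v` little and on which every nontrivial character is often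
away from one: all elements move `v` little.

Proof. `w χ = P χ v`, `v = ∑ w χ`, `ρ b v - v = ∑ (χ b - 1) • w χ`. By `tgb_pyth` and the mean over
`j`: `e² ≥ mn_j ‖ρ (a j) v - v‖² = ∑ χ, mn_j ‖χ (a j) - 1‖² * ‖w χ‖² ≥ δ * ∑ χ ≠ 1, ‖w χ‖²`. And
`‖ρ x v - v‖² = ∑ χ, ‖χ x - 1‖² ‖w χ‖² ≤ 4 * ∑ χ ≠ 1, ‖w χ‖² ≤ 4 * e² / δ`. -/
theorem tg_ab {A J : Type} [AddCommGroup A] [Finite A] [Fintype J] [Nonempty J] {V : Type}
    [NormedAddCommGroup V] [InnerProductSpace ℂ V] (ρ : Multiplicative A →* (V ≃ₗᵢ[ℂ] V))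
    (v : V) (a : J → A) {e δ : ℝ} (he : 0 ≤ e) (hδ : 0 < δ)
    (hJ : ∀ j, ‖ρ (Multiplicative.ofAdd (a j)) v - v‖ ≤ e)
    (hχ : ∀ χ : AddChar A ℂ, χ ≠ 1 → δ ≤ mn (fun j => ‖χ (a j) - 1‖ ^ 2)) (x : A) :
    ‖ρ (Multiplicative.ofAdd x) v - v‖ ≤ 2 * e / Real.sqrt δ := by
  classical
  have := Fintype.ofFinite A
  have hexp : ∀ y : A, ‖ρ (Multiplicative.ofAdd y) v - v‖ ^ 2 =
      ∑ χ : AddChar A ℂ, ‖χ y - 1‖ ^ 2 * ‖tgP ρ χ v‖ ^ 2 := by
    intro y
    rw [← tgb_pyth ρ v fun χ => χ y - 1]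
    congr 2
    simp only [sub_smul, one_smul]
    rw [Finset.sum_sub_distrib, tgb_sum, ← Finset.sum_congr rfl fun χ _ => tgb_eig ρ χ v y,
      ← map_sum, tgb_sum]
  have hone : ∀ y : A, (1 : AddChar A ℂ) y = 1 := fun y => AddChar.one_apply y
  have h1 : mn (fun j => ‖ρ (Multiplicative.ofAdd (a j)) v - v‖ ^ 2) ≤ e ^ 2 :=
    mn_le fun j => pow_le_pow_left₀ (norm_nonneg _) (hJ j) 2
  have h2 : mn (fun j => ‖ρ (Multiplicative.ofAdd (a j)) v - v‖ ^ 2) =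
      ∑ χ : AddChar A ℂ, mn (fun j => ‖χ (a j) - 1‖ ^ 2) * ‖tgP ρ χ v‖ ^ 2 := by
    have h3 : (fun j => ‖ρ (Multiplicative.ofAdd (a j)) v - v‖ ^ 2) =
        fun j => ∑ χ : AddChar A ℂ, ‖χ (a j) - 1‖ ^ 2 * ‖tgP ρ χ v‖ ^ 2 :=
      funext fun j => hexp (a j)
    rw [h3, mn_sum]
    exact Finset.sum_congr rfl fun χ _ => mn_mul_right _ _
  have h4 : δ / 4 * ‖ρ (Multiplicative.ofAdd x) v - v‖ ^ 2 ≤ e ^ 2 := by
    refine le_trans ?_ h1
    rw [h2, hexp, Finset.mul_sum]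
    refine Finset.sum_le_sum fun χ _ => ?_
    rw [← mul_assoc]
    refine mul_le_mul_of_nonneg_right ?_ (sq_nonneg _)
    by_cases h5 : χ = 1
    · subst h5
      rw [hone x, sub_self, norm_zero]
      have h6 : (0 : ℝ) ≤ mn (fun j => ‖(1 : AddChar A ℂ) (a j) - 1‖ ^ 2) :=
        mn_nonneg fun j => sq_nonneg _
      simpa using h6
    · have h6 := hχ χ h5
      have h7 : ‖χ x - 1‖ ≤ 2 := by
        have h8 := norm_sub_le (χ x) 1
        rw [tgb_norm, norm_one] at h8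
        linarith
      have h8 : ‖χ x - 1‖ ^ 2 ≤ 4 := by
        have h9 := pow_le_pow_left₀ (norm_nonneg _) h7 2
        linarith
      have h9 : δ / 4 * ‖χ x - 1‖ ^ 2 ≤ δ / 4 * 4 :=
        mul_le_mul_of_nonneg_left h8 (by positivity)
      linarith
  have hs : 0 < Real.sqrt δ := Real.sqrt_pos.2 hδ
  rw [← pow_le_pow_iff_left₀ (norm_nonneg _) (by positivity) two_ne_zero, div_pow,
    Real.sq_sqrt hδ.le, le_div_iff₀ hδ]
  nlinarith

end Pool.Agent.MPfe8e9bN
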