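import Mathlib
import Pool.Agent.Lib.MP_fe8e9b_al_V.Defs

/-!
# MP_fe8e9b_al, groups of bounded height: counting in finite fields
-/

set_option autoImplicit false

open scoped BigOperators

namespace Pool.Agent.MPfe8e9bN

open Pool.Agent.MPfe8e9bV

private theorem tgc_odd {F : Type} [Field F] [Fintype F] (h2 : (2 : F) ≠ 0) :
    Fintype.card F % 2 = 1 := by
  refine FiniteField.odd_card_of_char_ne_two fun h => h2 ?_
  have h1 := ringChar.Nat.cast_ringChar (R := F)
  rw [h] at h1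
  exact_mod_cast h1

private theorem tgc_aux {F : Type} [Field F] [DecidableEq F] [Fintype Fˣ] (T : Finset F) (c d : F)
    (hc : c ≠ 0) :
    (Finset.univ.filter (fun a : Fˣ => c * (a : F) ^ 2 - d ∈ T)).card ≤ 2 * T.card ∧
      ((2 : F) = 0 →
        (Finset.univ.filter (fun a : Fˣ => c * (a : F) ^ 2 - d ∈ T)).card ≤ T.card) := by
  have hsq : ∀ a b : Fˣ, c * (a : F) ^ 2 - d = c * (b : F) ^ 2 - d → a = b ∨ a = -b := by
    intro a b h
    have h1 : (a : F) ^ 2 = (b : F) ^ 2 := mul_left_cancel₀ hc (by linear_combination h)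
    rcases sq_eq_sq_iff_eq_or_eq_neg.1 h1 with h3 | h3
    · exact Or.inl (Units.ext h3)
    · exact Or.inr (Units.ext (by rw [h3, Units.val_neg]))
  refine ⟨Finset.card_le_mul_card_image_of_maps_to
    (f := fun a : Fˣ => c * (a : F) ^ 2 - d) (fun a ha => (Finset.mem_filter.1 ha).2) 2 ?_, ?_⟩
  · intro b _
    by_cases he : ∃ a₀ : Fˣ, c * (a₀ : F) ^ 2 - d = b
    · obtain ⟨a₀, ha₀⟩ := he
      refine (Finset.card_le_card (t := {a₀, -a₀}) fun a ha => ?_).trans Finset.card_le_two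
      have h1 := (Finset.mem_filter.1 ha).2
      rw [← ha₀] at h1
      rw [Finset.mem_insert, Finset.mem_singleton]
      exact hsq a a₀ h1
    · refine (Finset.card_eq_zero.2 (Finset.filter_eq_empty_iff.2 fun a _ h => he ⟨a, h⟩)).le.trans
        (Nat.zero_le _)
  · intro h2
    refine Finset.card_le_card_of_injOn (fun a : Fˣ => c * (a : F) ^ 2 - d)
      (fun a ha => (Finset.mem_filter.1 (Finset.mem_coe.1 ha)).2) fun a _ b _ h => ?_
    rcases hsq a b h with h1 | h1
    · exact h1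
    · rw [h1]
      apply Units.ext
      rw [Units.val_neg, neg_eq_iff_add_eq_zero, ← two_mul, h2, zero_mul]

private theorem tgc_mn {T : Type} [Fintype T] [Nonempty T] (p : T → Prop) [DecidablePred p]
    (h : Fintype.card T ≤ 4 * (Fintype.card T - (Finset.univ.filter p).card)) :
    1 / 4 ≤ mn (fun t : T => ind (¬ p t)) := by
  have h1 : ∑ t : T, ind (¬ p t) = ((Finset.univ.filter (fun t => ¬ p t)).card : ℝ) := by
    rw [Finset.card_filter]
    push_cast
    refine Finset.sum_congr rfl fun t _ => ?_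
    by_cases ht : p t
    · rw [ind_false (not_not.2 ht), if_neg (not_not.2 ht)]
    · rw [ind_true ht, if_pos ht]
  have h2 := Finset.card_filter_add_card_filter_not (s := (Finset.univ : Finset T)) p
  rw [Finset.card_univ] at h2
  have h3 : Fintype.card T ≤ 4 * (Finset.univ.filter (fun t => ¬ p t)).card := by omega
  have h4 : (Fintype.card T : ℝ) ≤ 4 * ((Finset.univ.filter (fun t => ¬ p t)).card : ℝ) := by
    exact_mod_cast h3
  have h5 : (0 : ℝ) < Fintype.card T := by exact_mod_cast Fintype.card_pos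
  rw [mn, h1, inv_mul_eq_div, le_div_iff₀ h5]
  linarith

/-- A proper additive subgroup of a finite field of characteristic two has at most half of the
elements, in general at most a third: `2 * card W ≤ card F`, and `3 * card W ≤ card F` if `2 ≠ 0`.

Proof. Lagrange: `card F = card W * index`, the index is at least two; if `2 ≠ 0` then `card F` is
odd, so the index is odd and at least three. -/
theorem tgc_sub {F : Type} [Field F] [Fintype F] (W : AddSubgroup F) (hW : W ≠ ⊤) :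
    2 * Nat.card W ≤ Fintype.card F ∧
      ((2 : F) ≠ 0 → 3 * Nat.card W ≤ Fintype.card F) := by
  have h1 := W.card_mul_index
  rw [Nat.card_eq_fintype_card (α := F)] at h1
  have h2 : W.index ≠ 1 := fun h => hW (AddSubgroup.index_eq_one.1 h)
  have h3 : W.index ≠ 0 := AddSubgroup.index_ne_zero_of_finite
  have h4 : 2 ≤ W.index := by omega
  refine ⟨?_, fun h => ?_⟩
  · rw [← h1, mul_comm 2]
    exact Nat.mul_le_mul_left _ h4
  · have h5 := tgc_odd h
    have h6 : W.index ≠ 2 := by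
      intro h7
      rw [h7] at h1
      omega
    rw [← h1, mul_comm 3]
    exact Nat.mul_le_mul_left _ (by omega)

/-- The set of the units `a` with `c * a ^ 2 ∈ W`: at most `Nat.card W` elements if `2 = 0`, and at
most `2 * Nat.card W` elements in general.

Proof. `a ↦ c * a ^ 2` maps the set into `W`, at most two elements to one
(`a ^ 2 = b ^ 2 ↔ a = b ∨ a = -b`); it is injective if `2 = 0`. Moreover `0 ∈ W` is not a value. -/
theorem tgc_cnt {F : Type} [Field F] [Fintype F] (W : AddSubgroup F) (c : F) (hc : c ≠ 0)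
    (d : F) : Nat.card {a : Fˣ // c * (a : F) ^ 2 - d ∈ W} ≤ 2 * Nat.card W ∧
      ((2 : F) = 0 → Nat.card {a : Fˣ // c * (a : F) ^ 2 - d ∈ W} ≤ Nat.card W) := by
  classical
  have h1 := tgc_aux (Finset.univ.filter (fun x : F => x ∈ W)) c d hc
  have h2 : Nat.card W = (Finset.univ.filter (fun x : F => x ∈ W)).card := by
    rw [Nat.card_eq_fintype_card, ← Fintype.card_subtype]
  have h3 : Nat.card {a : Fˣ // c * (a : F) ^ 2 - d ∈ W} = (Finset.univ.filter (fun a : Fˣ =>
      c * (a : F) ^ 2 - d ∈ Finset.univ.filter (fun x : F => x ∈ W))).card := by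
    rw [Nat.card_eq_fintype_card, Fintype.card_subtype]
    simp only [Finset.mem_filter, Finset.mem_univ, true_and]
  rw [h2, h3]
  exact h1

/-- Many units `a` with `a ^ 2 - 1 ∉ W`.

Proof. `q = card F`, `w = Nat.card W`. The number of bad units is at most `w ≤ q / 2` if `2 = 0`
(`tgc_cnt` for `c = d = 1`), so at least `q / 2 - 1 ≥ (q - 1) / 4` are good (`q ≥ 4`, even). If
`2 ≠ 0` it is at most `2 w ≤ 2 q / 3`, so at least `q / 3 - 1` are good, which is at least
`(q - 1) / 4` if `q ≥ 9`. Remaining: `q = 5` and `q = 7` (odd orders of fields between 4 and 8),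
then `W = 0` (prime order, Lagrange) and at most `2` units are bad. -/
theorem tg_sq {F : Type} [Field F] [Fintype F] [Fintype Fˣ] (hF : 4 ≤ Fintype.card F)
    (W : AddSubgroup F) (hW : W ≠ ⊤) : 1 / 4 ≤ mn (fun a : Fˣ => ind ((a : F) ^ 2 - 1 ∉ W)) := by
  classical
  obtain ⟨k1, k2⟩ := tgc_sub W hW
  obtain ⟨m1, m2⟩ := tgc_cnt W 1 one_ne_zero 1
  have hu : Fintype.card Fˣ = Fintype.card F - 1 := by
    rw [← Nat.card_eq_fintype_card, Nat.card_units, Nat.card_eq_fintype_card]
  have h3 : Nat.card {a : Fˣ // 1 * (a : F) ^ 2 - 1 ∈ W} =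
      (Finset.univ.filter (fun a : Fˣ => (a : F) ^ 2 - 1 ∈ W)).card := by
    rw [Nat.card_eq_fintype_card, Fintype.card_subtype]
    simp only [one_mul]
  rw [h3] at m1 m2
  refine tgc_mn (fun a : Fˣ => (a : F) ^ 2 - 1 ∈ W) ?_
  rw [hu]
  by_cases h2 : (2 : F) = 0
  · have := m2 h2
    omega
  · have h4 := k2 h2
    have h5 := tgc_odd h2
    omega

/-- Many units `a` with `a ^ 2 * c ∉ W`.

Proof. As `tg_sq`; the zero is in `W` but it is not a value `a ^ 2 * c`, so the number of bad units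
is at most `w - 1` if `2 = 0` and at most `2 * (w - 1)` otherwise. -/
theorem tg_sq2 {F : Type} [Field F] [Fintype F] [Fintype Fˣ] (c : F) (hc : c ≠ 0)
    (W : AddSubgroup F) (hW : W ≠ ⊤) : 1 / 4 ≤ mn (fun a : Fˣ => ind ((a : F) ^ 2 * c ∉ W)) := by
  classical
  obtain ⟨k1, k2⟩ := tgc_sub W hW
  obtain ⟨m1, m2⟩ := tgc_aux ((Finset.univ.filter (fun x : F => x ∈ W)).erase 0) c 0 hc
  have hu : Fintype.card Fˣ = Fintype.card F - 1 := by
    rw [← Nat.card_eq_fintype_card, Nat.card_units, Nat.card_eq_fintype_card]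
  have hw : Nat.card W = (Finset.univ.filter (fun x : F => x ∈ W)).card := by
    rw [Nat.card_eq_fintype_card, ← Fintype.card_subtype]
  have h0 : (0 : F) ∈ Finset.univ.filter (fun x : F => x ∈ W) := by
    simp only [Finset.mem_filter, Finset.mem_univ, true_and]
    exact W.zero_mem
  have hw1 := Finset.card_erase_add_one h0
  rw [← hw] at hw1
  have h3 : (Finset.univ.filter (fun a : Fˣ => c * (a : F) ^ 2 - 0 ∈
      (Finset.univ.filter (fun x : F => x ∈ W)).erase 0)) =
      Finset.univ.filter (fun a : Fˣ => (a : F) ^ 2 * c ∈ W) := by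
    refine Finset.filter_congr fun a _ => ?_
    have h4 : c * (a : F) ^ 2 ≠ 0 := mul_ne_zero hc (pow_ne_zero 2 a.ne_zero)
    simp only [sub_zero, Finset.mem_erase, Finset.mem_filter, Finset.mem_univ, true_and]
    rw [mul_comm ((a : F) ^ 2) c]
    exact ⟨fun h => h.2, fun h => ⟨h4, h⟩⟩
  rw [h3] at m1 m2
  have hq : 1 < Fintype.card F := Fintype.one_lt_card
  refine tgc_mn (fun a : Fˣ => (a : F) ^ 2 * c ∈ W) ?_
  rw [hu]
  by_cases h2 : (2 : F) = 0
  · have := m2 h2
    omega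
  · have h4 := k2 h2
    omega

/-- Points on the circle.

Proof. For `t` with `1 + t ^ 2 ≠ 0` let `u = (t ^ 2 - 2 * t - 1) / (1 + t ^ 2)` and
`v = (1 - 2 * t - t ^ 2) / (1 + t ^ 2)`; then `u ^ 2 + v ^ 2 = 2`. We need `t ^ 2 - 2 * t - 1 ≠ 0`,
`1 - 2 * t - t ^ 2 ≠ 0`, `t ≠ -1` (then `u ≠ 1`) and `t ≠ 0`, `t ≠ 1` (then `u ≠ -1`): at most
`2 + 2 + 2 + 3 = 9` values of `t` are excluded (roots of polynomials; or the image of the elements:
the solutions of a quadratic equation `(t - 1) ^ 2 = 2` are at most two). -/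
theorem tg_uv {F : Type} [Field F] [Fintype F] (h2 : (2 : F) ≠ 0) (hF : 11 ≤ Fintype.card F) :
    ∃ u v : F, u ≠ 0 ∧ v ≠ 0 ∧ u ^ 2 + v ^ 2 = 2 ∧ u ^ 2 ≠ 1 := by
  obtain ⟨t, ht⟩ : ∃ t : F, Polynomial.eval t
      ((Polynomial.X ^ 2 + 1) * (Polynomial.X ^ 2 - 2 * Polynomial.X - 1) *
        (Polynomial.X ^ 2 + 2 * Polynomial.X - 1) * (Polynomial.X * (Polynomial.X - 1) *
          (Polynomial.X + 1)) : Polynomial F) ≠ 0 := by
    apply Polynomial.exists_eval_ne_zero_of_natDegree_lt_card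
    · refine mul_ne_zero (mul_ne_zero (mul_ne_zero ?_ ?_) ?_) (mul_ne_zero (mul_ne_zero ?_ ?_) ?_)
      · apply Polynomial.Monic.ne_zero
        monicity!
      · apply Polynomial.Monic.ne_zero
        monicity!
      · apply Polynomial.Monic.ne_zero
        monicity!
      · exact Polynomial.X_ne_zero
      · apply Polynomial.Monic.ne_zero
        monicity!
      · apply Polynomial.Monic.ne_zero
        monicity!
    · have h1 : ((Polynomial.X ^ 2 + 1) * (Polynomial.X ^ 2 - 2 * Polynomial.X - 1) *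
        (Polynomial.X ^ 2 + 2 * Polynomial.X - 1) * (Polynomial.X * (Polynomial.X - 1) *
          (Polynomial.X + 1)) : Polynomial F).natDegree ≤ 9 := by
        compute_degree
      rw [Cardinal.mk_fintype]
      exact_mod_cast lt_of_le_of_lt h1 (by omega)
  simp only [Polynomial.eval_mul, Polynomial.eval_add, Polynomial.eval_sub, Polynomial.eval_pow,
    Polynomial.eval_X, Polynomial.eval_one, Polynomial.eval_ofNat, ne_eq, mul_eq_zero,
    not_or] at ht
  obtain ⟨⟨⟨h1, h3⟩, h4⟩, ⟨h5, h6⟩, h7⟩ := ht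
  refine ⟨(t ^ 2 - 2 * t - 1) / (t ^ 2 + 1), (1 - 2 * t - t ^ 2) / (t ^ 2 + 1),
    div_ne_zero h3 h1, div_ne_zero (fun h => h4 (by linear_combination -h)) h1, ?_, ?_⟩
  · field_simp
    ring
  · intro h
    rw [div_pow, div_eq_one_iff_eq (pow_ne_zero 2 h1)] at h
    have h8 : 2 * 2 * (t * (t - 1) * (t + 1)) = 0 := by linear_combination -h
    have h9 : (2 : F) * 2 ≠ 0 := mul_ne_zero h2 h2
    exact (mul_ne_zero h9 (mul_ne_zero (mul_ne_zero h5 h6) h7)) h8

/-- The second sum is not zero.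

Proof. `u⁻² + v⁻² - 2 = (u² + v²) / (u² v²) - 2 = 2 (1 - u² v²) / (u² v²)`; with `x = u²`,
`v² = 2 - x`, `1 - x (2 - x) = (1 - x)² ≠ 0`. -/
theorem tg_uv2 {F : Type} [Field F] (h2 : (2 : F) ≠ 0) {u v : F} (hu : u ≠ 0) (hv : v ≠ 0)
    (h : u ^ 2 + v ^ 2 = 2) (h1 : u ^ 2 ≠ 1) : (u⁻¹) ^ 2 + (v⁻¹) ^ 2 - 2 ≠ 0 := by
  intro h3
  have h4 : v ^ 2 + u ^ 2 - 2 * (u ^ 2 * v ^ 2) = 0 := by
    have e : v ^ 2 + u ^ 2 - 2 * (u ^ 2 * v ^ 2) =
        ((u⁻¹) ^ 2 + (v⁻¹) ^ 2 - 2) * (u ^ 2 * v ^ 2) := by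
      field_simp
    rw [e, h3, zero_mul]
  have h5 : 2 * (u ^ 2 - 1) ^ 2 = 0 := by
    linear_combination h4 - h + 2 * u ^ 2 * h
  have h6 : (u ^ 2 - 1) ^ 2 = 0 := (mul_eq_zero.1 h5).resolve_left h2
  exact h1 (sub_eq_zero.1 (pow_eq_zero_iff two_ne_zero |>.1 h6))

end Pool.Agent.MPfe8e9bN
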