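import Mathlib
import Pool.Agent.Lib.MP_fe8e9b_al_N.Defs3
import Pool.Agent.Lib.MP_fe8e9b_al_N.PslA
import Pool.Agent.Lib.MP_fe8e9b_al_N.PslB
import Pool.Agent.Lib.MP_fe8e9b_al_N.TgB
import Pool.Agent.Lib.MP_fe8e9b_al_N.TgC

/-!
# MP_fe8e9b_al, groups of bounded height: the gap for the field automorphisms of `SL_2`
-/

set_option autoImplicit false

open scoped BigOperators MatrixGroups

namespace Pool.Agent.MPfe8e9bN

open Pool.Agent.MPfe8e9b Pool.Agent.MPfe8e9bA Pool.Agent.MPfe8e9bW Pool.Agent.MPfe8e9bV
open Pool.Agent.MPfe8e9bM Matrix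

/-- Independence of automorphisms: an additive subgroup of `Λ → E` which contains all the vectors
`(c * σ l b)_l` is everything.

Proof. The span over `E` of the vectors `(σ l b)_l`, `b : E`, is everything: otherwise there is a
nonzero linear functional which vanishes on it (`Submodule.exists_le_ker_of_lt_top` or the dot
product), `∑ l, y l * σ l b = 0` for all `b`, against `linearIndependent_monoidHom` (Dedekind) for
the distinct homomorphisms `σ l`. An element of the span is a finite sum of vectors `c • (σ l b)_l`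
(`Submodule.span_induction`; the additive subgroup is closed under the scalars on these
vectors). -/
theorem tgd_span {E Λ : Type} [Field E] [Fintype Λ] (σ : Λ → (E ≃+* E))
    (hσ : Function.Injective σ) (X : AddSubgroup (Λ → E))
    (h : ∀ c b, (fun l => c * σ l b) ∈ X) : X = ⊤ := by
  classical
  have hspan : Submodule.span E (Set.range fun b : E => (fun l => σ l b : Λ → E)) = ⊤ := by
    by_contra hne
    obtain ⟨f, hf0, hf⟩ := Submodule.exists_le_ker_of_lt_top _ (lt_top_iff_ne_top.2 hne)
    apply hf0
    have h1 : ∀ b : E, ∑ l, σ l b * f (fun j => if l = j then 1 else 0) = 0 := by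
      intro b
      have h2 : f (fun l => σ l b) = 0 :=
        LinearMap.mem_ker.1 (hf (Submodule.subset_span ⟨b, rfl⟩))
      rw [LinearMap.pi_apply_eq_sum_univ] at h2
      exact h2
    have h3 : LinearIndependent E (fun l : Λ => ((σ l).toMonoidHom : E → E)) := by
      refine (linearIndependent_monoidHom E E).comp
        (fun l => ((σ l).toRingHom.toMonoidHom : E →* E)) ?_
      intro l l' hll
      apply hσ
      ext b
      exact DFunLike.congr_fun hll b
    rw [Fintype.linearIndependent_iff] at h3
    have h4 := h3 (fun l => f (fun j => if l = j then 1 else 0)) (by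
      funext b
      rw [Finset.sum_apply]
      simp only [Pi.smul_apply, smul_eq_mul, Pi.zero_apply]
      refine Eq.trans (Finset.sum_congr rfl fun l _ => ?_) (h1 b)
      rw [mul_comm]
      rfl)
    ext l
    have h5 := h4 l
    simp only [LinearMap.comp_apply, LinearMap.zero_comp, LinearMap.zero_apply]
    rw [← h5]
    congr 1
    funext j
    simp [Pi.single_apply, eq_comm]
  rw [eq_top_iff]
  intro x _
  have hx : x ∈ Submodule.span E (Set.range fun b : E => (fun l => σ l b : Λ → E)) := by
    rw [hspan]
    exact Submodule.mem_top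
  rw [Finsupp.mem_span_range_iff_exists_finsupp] at hx
  obtain ⟨c, rfl⟩ := hx
  rw [Finsupp.sum]
  exact X.sum_mem fun b _ => h (c b) b

/-- A character of `Λ → E` composed with `b ↦ (c * σ l b)_l` has mean square distance two from one,
or is trivial.

Proof. The composition is a character of `E`; if it is not trivial the sum of its values is zero
(`AddChar.sum_eq_zero_of_ne_one` or `AddChar.sum_eq_ite`), and `‖z - 1‖² = 2 - 2 Re z` for
`‖z‖ = 1`. -/
theorem tgd_mean {E Λ : Type} [Field E] [Fintype E] [Finite Λ] (σ : Λ → (E ≃+* E))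
    (χ : AddChar (Λ → E) ℂ) (c : E) (h : ∃ b, χ (fun l => c * σ l b) ≠ 1) :
    mn (fun b : E => ‖χ (fun l => c * σ l b) - 1‖ ^ 2) = 2 := by
  classical
  let φ : E →+ (Λ → E) :=
    { toFun := fun b l => c * σ l b
      map_zero' := by
        funext l
        simp
      map_add' := fun a b => by
        funext l
        simp [mul_add] }
  let ψ : AddChar E ℂ := χ.compAddMonoidHom φ
  have hψ : ∀ b, ψ b = χ (fun l => c * σ l b) := fun b => rfl
  have h0 : ψ ≠ 0 := by
    obtain ⟨b, hb⟩ := h
    exact AddChar.ne_zero_iff.2 ⟨b, hb⟩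
  have hsum : ∑ b, ψ b = 0 := AddChar.sum_eq_zero_iff_ne_zero.2 h0
  have hterm : ∀ b, ‖χ (fun l => c * σ l b) - 1‖ ^ 2 = 2 - 2 * (ψ b).re := by
    intro b
    have h1 : ‖ψ b‖ = 1 := tgb_norm χ _
    rw [← hψ]
    have h2 : ‖ψ b - 1‖ ^ 2 = ‖ψ b‖ ^ 2 - 2 * (ψ b).re + 1 := by
      rw [← Complex.normSq_eq_norm_sq, ← Complex.normSq_eq_norm_sq, Complex.normSq_apply,
        Complex.normSq_apply]
      simp only [Complex.sub_re, Complex.one_re, Complex.sub_im, Complex.one_im]
      ring
    rw [h2, h1]
    ring
  have hne : (Fintype.card E : ℝ) ≠ 0 := by exact_mod_cast Fintype.card_ne_zero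
  have hre : ∑ b, (ψ b).re = 0 := by
    rw [← Complex.re_sum, hsum, Complex.zero_re]
  rw [mn]
  simp only [hterm]
  rw [Finset.sum_sub_distrib, ← Finset.mul_sum, hre, Finset.sum_const, Finset.card_univ,
    nsmul_eq_mul]
  field_simp
  ring

/-- Vectors which are moved little by the elements `(s j * σ l b)_l`.

Proof. `tg_ab` for the family indexed by `J × E`, `δ = 1 / 2`: for `χ ≠ 1` let
`W = {c | ∀ b, χ (fun l => c * σ l b) = 1}`, an additive subgroup of `E`, not everything by
`tgd_span` (for `X = {x | χ x = 1}`). For `s j ∉ W` the mean over `b` is `2` (`tgd_mean`), so the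
mean over `J × E` (`mn_prod`) is at least `2 * (1 / 4)`. `2 * e / √(1 / 2) ≤ 3 * e`. -/
theorem tg_fld {E Λ J : Type} [Field E] [Finite E] [Finite Λ] [Fintype J] [Nonempty J]
    (σ : Λ → (E ≃+* E)) (hσ : Function.Injective σ) (s : J → E)
    (hs : ∀ W : AddSubgroup E, W ≠ ⊤ → 1 / 4 ≤ mn (fun j => ind (s j ∉ W)))
    {V : Type} [NormedAddCommGroup V] [InnerProductSpace ℂ V]
    (ρ : Multiplicative (Λ → E) →* (V ≃ₗᵢ[ℂ] V)) (v : V) {e : ℝ} (he : 0 ≤ e)
    (h : ∀ j b, ‖ρ (Multiplicative.ofAdd fun l => s j * σ l b) v - v‖ ≤ e) (x : Λ → E) :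
    ‖ρ (Multiplicative.ofAdd x) v - v‖ ≤ 3 * e := by
  classical
  have : Fintype E := Fintype.ofFinite E
  have : Fintype Λ := Fintype.ofFinite Λ
  have hχ : ∀ χ : AddChar (Λ → E) ℂ, χ ≠ 1 →
      1 / 2 ≤ mn (fun p : J × E => ‖χ (fun l => s p.1 * σ l p.2) - 1‖ ^ 2) := by
    intro χ hne
    let W : AddSubgroup E :=
      { carrier := {c | ∀ b, χ (fun l => c * σ l b) = 1}
        add_mem' := fun {a b} ha hb d => by
          have h1 : (fun l => (a + b) * σ l d) = (fun l => a * σ l d) + fun l => b * σ l d := by
            funext l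
            simp [add_mul]
          rw [h1, AddChar.map_add_eq_mul, ha d, hb d, one_mul]
        zero_mem' := fun d => by
          have h1 : (fun l => (0 : E) * σ l d) = (0 : Λ → E) := by
            funext l
            simp
          rw [h1, AddChar.map_zero_eq_one]
        neg_mem' := fun {a} ha d => by
          have h1 : (fun l => (-a) * σ l d) = -(fun l => a * σ l d) := by
            funext l
            simp
          rw [h1, AddChar.map_neg_eq_inv, ha d, inv_one] }
    have hW : W ≠ ⊤ := by
      intro hW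
      let X : AddSubgroup (Λ → E) :=
        { carrier := {x | χ x = 1}
          add_mem' := fun {a b} ha hb => by
            show χ (a + b) = 1
            rw [AddChar.map_add_eq_mul, show χ a = 1 from ha, show χ b = 1 from hb, one_mul]
          zero_mem' := AddChar.map_zero_eq_one χ
          neg_mem' := fun {a} ha => by
            show χ (-a) = 1
            rw [AddChar.map_neg_eq_inv, show χ a = 1 from ha, inv_one] }
      have hX : X = ⊤ := tgd_span σ hσ X fun c b => by
        have h1 : c ∈ W := by
          rw [hW]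
          exact AddSubgroup.mem_top c
        exact h1 b
      apply hne
      rw [AddChar.eq_one_iff]
      intro x
      have h1 : x ∈ X := by
        rw [hX]
        exact AddSubgroup.mem_top x
      exact h1
    rw [mn_prod]
    have h1 : ∀ j, 2 * ind (s j ∉ W) ≤
        mn (fun b => ‖χ (fun l => s j * σ l b) - 1‖ ^ 2) := by
      intro j
      by_cases hj : s j ∉ W
      · rw [ind_true hj, mul_one]
        have h2 : ∃ b, χ (fun l => s j * σ l b) ≠ 1 := by
          by_contra hcon
          push Not at hcon
          exact hj hcon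
        exact (tgd_mean σ χ (s j) h2).ge
      · rw [ind_false hj, mul_zero]
        exact mn_nonneg fun b => by positivity
    have h2 := mn_mono h1
    rw [mn_mul_left] at h2
    have h3 := hs W hW
    linarith
  have h1 := tg_ab ρ v (fun p : J × E => (fun l => s p.1 * σ l p.2)) he
    (show (0 : ℝ) < 1 / 2 by norm_num) (fun p => h p.1 p.2) hχ x
  refine h1.trans ?_
  have h2 : (2 : ℝ) / 3 ≤ Real.sqrt (1 / 2) := by
    apply Real.le_sqrt_of_sq_le
    norm_num
  have h3 : 0 < Real.sqrt (1 / 2) := by linarith
  rw [div_le_iff₀ h3]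
  nlinarith

/-- The gap for `SL_2` and all field automorphisms.

Proof. `cm (dg a) (fS σ (uu b)) = uu ((a ^ 2 - 1) * σ b)`. So `tg_fld` with `J = Eˣ`,
`s a = a ^ 2 - 1` (`tg_sq`) and the representation of `Multiplicative (Λ → E)` by
`x ↦ ρ (fun l => uu (x l))`: all elements `fun l => uu (x l)` move `v` by at most `3 * e`. As
`ll x` is the conjugate of `uu (-x)` by `ww`, and the displacement is invariant under conjugation by
constants, the same for `fun l => ll (x l)`. `sl_four` (file PslB), for every coordinate: every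
element is a product of four of these. -/
theorem tgl_sl {E : Type} [Field E] [Finite E] (hE : 4 ≤ Nat.card E) :
    TGL 12 (fun σ : E ≃+* E => (fS σ : MulAut SL(2, E))) := by
  classical
  have : Fintype E := Fintype.ofFinite E
  have : Fintype Eˣ := Fintype.ofFinite Eˣ
  have hfin : Finite (E ≃+* E) :=
    Finite.of_injective (fun σ : E ≃+* E => (σ : E → E)) DFunLike.coe_injective
  intro V _ _ _ ρ v e he hconj hcm
  -- the representation of the functions with values in the field
  let ι : Multiplicative ((E ≃+* E) → E) →* ((E ≃+* E) → SL(2, E)) :=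
    { toFun := fun x l => uu (Multiplicative.toAdd x l)
      map_one' := by
        funext l
        refine pslb_ext ?_ ?_ ?_ ?_ <;> simp [uu]
      map_mul' := fun x y => by
        funext l
        refine pslb_ext ?_ ?_ ?_ ?_ <;>
          simp only [Pi.mul_apply, pslb_mul, pslb_uu, toAdd_mul, Pi.add_apply] <;> ring }
  have hι : ∀ x : (E ≃+* E) → E, ι (Multiplicative.ofAdd x) = fun l => uu (x l) := fun x => rfl
  have hcard : 4 ≤ Fintype.card E := by rwa [← Nat.card_eq_fintype_card]
  have huu : ∀ x : (E ≃+* E) → E, ‖ρ (fun l => uu (x l)) v - v‖ ≤ 3 * e := by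
    intro x
    have h1 := tg_fld (fun l : E ≃+* E => l) Function.injective_id
      (fun a : Eˣ => (a : E) ^ 2 - 1) (fun W hW => tg_sq hcard W hW) (ρ.comp ι) v he
      (fun a b => by
        have h2 := hcm (dg (a : E) a.ne_zero) (uu b)
        have h3 : (fun l : E ≃+* E => cm (dg (a : E) a.ne_zero) (fS l (uu b))) =
            ι (Multiplicative.ofAdd fun l => ((a : E) ^ 2 - 1) * l b) := by
          rw [hι]
          funext l
          have h4 : fS l (uu b) = uu (l b) := by
            refine pslb_ext ?_ ?_ ?_ ?_ <;> simp [fS_coe, uu]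
          rw [h4]
          have ha := a.ne_zero
          unfold cm
          refine pslb_ext ?_ ?_ ?_ ?_ <;>
            simp only [pslb_mul, pslb_uu, pslb_dg, pslb_inv] <;> field_simp <;> ring
        rw [MonoidHom.comp_apply, ← h3]
        exact h2) x
    rw [MonoidHom.comp_apply, hι] at h1
    exact h1
  have hll : ∀ x : (E ≃+* E) → E, ‖ρ (fun l => ll (x l)) v - v‖ ≤ 3 * e := by
    intro x
    have h1 := hconj (ww : SL(2, E))⁻¹ (fun l => uu (-x l))
    have h2 : ((fun _ => (ww : SL(2, E))⁻¹) * (fun l => uu (-x l)) *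
        (fun _ => (ww : SL(2, E))⁻¹)⁻¹ : (E ≃+* E) → SL(2, E)) = fun l => ll (x l) := by
      funext l
      show ww⁻¹ * uu (-x l) * (ww⁻¹)⁻¹ = ll (x l)
      rw [inv_inv]
      refine pslb_ext ?_ ?_ ?_ ?_ <;> simp only [pslb_mul, pslb_uu, pslb_ll, pslb_ww, pslb_inv] <;>
        ring
    rw [h2] at h1
    rw [h1]
    exact huu fun l => -x l
  have hmul : ∀ a b : (E ≃+* E) → SL(2, E), ‖ρ (a * b) v - v‖ ≤
      ‖ρ a v - v‖ + ‖ρ b v - v‖ := by
    intro a b
    have h1 : ρ (a * b) v - v = ρ a (ρ b v - v) + (ρ a v - v) := by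
      rw [map_mul, map_sub]
      show ρ a (ρ b v) - v = ρ a (ρ b v) - ρ a v + (ρ a v - v)
      abel
    rw [h1]
    refine (norm_add_le _ _).trans ?_
    rw [LinearIsometryEquiv.norm_map]
    linarith
  intro x
  choose a b c d habcd using fun l => sl_four (x l)
  have h1 : x = (fun l => ll (a l)) * (fun l => uu (b l)) * (fun l => ll (c l)) *
      (fun l => uu (d l)) := by
    funext l
    exact habcd l
  rw [h1]
  have h2 := hmul ((fun l => ll (a l)) * (fun l => uu (b l)) * (fun l => ll (c l)))
    (fun l => uu (d l))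
  have h3 := hmul ((fun l => ll (a l)) * (fun l => uu (b l))) (fun l => ll (c l))
  have h4 := hmul (fun l => ll (a l)) (fun l => uu (b l))
  have h5 := hll a
  have h6 := huu b
  have h7 := hll c
  have h8 := huu d
  linarith

end Pool.Agent.MPfe8e9bN
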