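import Mathlib
import Pool.Agent.Lib.MP_fe8e9b_al_N.Defs3

/-!
# MP_fe8e9b_al, groups of bounded height: gaps of twisted commutators, small simple groups
-/

set_option autoImplicit false

open scoped BigOperators

namespace Pool.Agent.MPfe8e9bN

open Pool.Agent.MPfe8e9b Pool.Agent.MPfe8e9bA Pool.Agent.MPfe8e9bW Pool.Agent.MPfe8e9bV
open Pool.Agent.MPfe8e9bM

/-- The twisted commutators and their conjugates by constants, and their inverses. -/
def TgsW {Λ T : Type} [Group T] (α : Λ → MulAut T) : Set (Λ → T) :=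
  {x | ∃ k h t : T, x = (fun _ => k) * (fun l => cm h (α l t)) * (fun _ => k)⁻¹ ∨
    x = (fun _ => k) * (fun l => cm h (α l t))⁻¹ * (fun _ => k)⁻¹}

theorem tgs_conj_mem {G : Type} [Group G] {W : Set G} (d : G)
    (h : ∀ w ∈ W, d * w * d⁻¹ ∈ Subgroup.closure W) {x : G} (hx : x ∈ Subgroup.closure W) :
    d * x * d⁻¹ ∈ Subgroup.closure W := by
  induction hx using Subgroup.closure_induction with
  | mem x hx => exact h x hx
  | one => simp
  | mul x y _ _ hx hy =>
    have h1 : d * (x * y) * d⁻¹ = (d * x * d⁻¹) * (d * y * d⁻¹) := by group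
    rw [h1]
    exact mul_mem hx hy
  | inv x _ hx =>
    have h1 : d * x⁻¹ * d⁻¹ = (d * x * d⁻¹)⁻¹ := by group
    rw [h1]
    exact inv_mem hx

theorem tgs_inv {Λ T : Type} [Group T] (α : Λ → MulAut T) :
    ∀ x ∈ TgsW α, x⁻¹ ∈ TgsW α := by
  rintro x ⟨k, h, t, h1 | h1⟩
  · refine ⟨k, h, t, Or.inr ?_⟩
    rw [h1]
    group
  · refine ⟨k, h, t, Or.inl ?_⟩
    rw [h1]
    group

theorem tgs_z {Λ T : Type} [Group T] (α : Λ → MulAut T) (h t : T) :
    (fun l => cm h (α l t)) ∈ Subgroup.closure (TgsW α) := by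
  apply Subgroup.subset_closure
  refine ⟨1, h, t, Or.inl ?_⟩
  funext l
  simp

theorem tgs_center {T : Type} [Group T] [IsSimpleGroup T] (hn : ∃ a b : T, a * b ≠ b * a)
    {x : T} (hx : ∀ y : T, x * y = y * x) : x = 1 := by
  rcases IsSimpleGroup.eq_bot_or_eq_top_of_normal (Subgroup.center T) inferInstance with h | h
  · have h1 : x ∈ Subgroup.center T := Subgroup.mem_center_iff.2 fun y => (hx y).symm
    rw [h] at h1
    exact Subgroup.mem_bot.1 h1
  · obtain ⟨a, b, hab⟩ := hn
    have h1 : a ∈ Subgroup.center T := by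
      rw [h]
      exact Subgroup.mem_top a
    exact absurd ((Subgroup.mem_center_iff.1 h1 b).symm) hab

/-- The subgroup generated by the twisted commutators is normalized by the constants.

Proof. Conjugation by a constant maps `TgsW α` to itself; `Subgroup.closure_induction`. -/
theorem tgs_const {Λ T : Type} [Group T] (α : Λ → MulAut T) (k : T) {x : Λ → T}
    (hx : x ∈ Subgroup.closure (TgsW α)) :
    (fun _ => k) * x * (fun _ => k)⁻¹ ∈ Subgroup.closure (TgsW α) := by
  refine tgs_conj_mem _ ?_ hx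
  rintro w ⟨k', h, t, h1 | h1⟩
  · apply Subgroup.subset_closure
    refine ⟨k * k', h, t, Or.inl ?_⟩
    rw [h1]
    funext l
    simp only [Pi.mul_apply, Pi.inv_apply]
    group
  · apply Subgroup.subset_closure
    refine ⟨k * k', h, t, Or.inr ?_⟩
    rw [h1]
    funext l
    simp only [Pi.mul_apply, Pi.inv_apply]
    group

/-- The subgroup generated by the twisted commutators is normalized by the twisted elements
`fun l => α l t`.

Proof. `z h t = fun l => cm h (α l t)`. As
`cm h (a * b) = cm h a * (a * cm h b * a⁻¹)`, `t' z h t t'⁻¹ = (z h t')⁻¹ * z h (t' * t)` (`t'` also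
for the twisted element `fun l => α l t'`) is in the subgroup. For a conjugate by a constant `k`:
`t' k z k⁻¹ t'⁻¹ = (t' k t'⁻¹ k⁻¹) * (k (t' z t'⁻¹) k⁻¹) * (t' k t'⁻¹ k⁻¹)⁻¹`, and
`t' k t'⁻¹ k⁻¹ = (z k t')⁻¹`. Inverses are clear. -/
theorem tgs_twist {Λ T : Type} [Group T] (α : Λ → MulAut T) (t : T) {x : Λ → T}
    (hx : x ∈ Subgroup.closure (TgsW α)) :
    (fun l => α l t) * x * (fun l => α l t)⁻¹ ∈ Subgroup.closure (TgsW α) := by
  have key : ∀ k h s : T, (fun l => α l t) * ((fun _ => k) * (fun l => cm h (α l s)) *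
      (fun _ => k)⁻¹) * (fun l => α l t)⁻¹ ∈ Subgroup.closure (TgsW α) := by
    intro k h s
    have h1 : (fun l => α l t) * (fun l => cm h (α l s)) * (fun l => α l t)⁻¹ =
        (fun l => cm h (α l t))⁻¹ * (fun l => cm h (α l (t * s))) := by
      funext l
      simp only [Pi.mul_apply, Pi.inv_apply, cm, map_mul]
      group
    have h2 : (fun l => α l t) * (fun l => cm h (α l s)) * (fun l => α l t)⁻¹ ∈
        Subgroup.closure (TgsW α) := by
      rw [h1]
      exact mul_mem (inv_mem (tgs_z α h t)) (tgs_z α h (t * s))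
    have h3 := tgs_const α k h2
    have h4 := tgs_z α k t
    have h5 : (fun l => α l t) * ((fun _ => k) * (fun l => cm h (α l s)) *
        (fun _ => k)⁻¹) * (fun l => α l t)⁻¹ =
        (fun l => cm k (α l t))⁻¹ * ((fun _ => k) * ((fun l => α l t) *
        (fun l => cm h (α l s)) * (fun l => α l t)⁻¹) * (fun _ => k)⁻¹) *
        (fun l => cm k (α l t)) := by
      funext l
      simp only [Pi.mul_apply, Pi.inv_apply, cm]
      group
    rw [h5]
    exact mul_mem (mul_mem (inv_mem h4) h3) h4
  refine tgs_conj_mem _ ?_ hx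
  rintro w ⟨k, h, s, h1 | h1⟩
  · rw [h1]
    exact key k h s
  · have h2 := inv_mem (key k h s)
    have h3 : (fun l => α l t) * w * (fun l => α l t)⁻¹ =
        ((fun l => α l t) * ((fun _ => k) * (fun l => cm h (α l s)) *
        (fun _ => k)⁻¹) * (fun l => α l t)⁻¹)⁻¹ := by
      rw [h1]
      group
    rw [h3]
    exact h2

/-- Every coordinate of the subgroup is everything.

Proof. The set of the `l₀`-th coordinates is a subgroup (`Subgroup.map` under the evaluation),
normal by `tgs_const`, not trivial: `cm h (α l₀ t) ≠ 1` for elements `h`, `α l₀ t` which do not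
commute. `IsSimpleGroup.eq_bot_or_eq_top_of_normal`. -/
theorem tgs_coord {Λ T : Type} [Group T] [IsSimpleGroup T] (hn : ∃ a b : T, a * b ≠ b * a)
    (α : Λ → MulAut T) (l₀ : Λ) (t : T) : ∃ x ∈ Subgroup.closure (TgsW α), x l₀ = t := by
  obtain ⟨a, b, hab⟩ := hn
  have hnorm : ((Subgroup.closure (TgsW α)).map
      (Pi.evalMonoidHom (fun _ : Λ => T) l₀)).Normal := by
    refine ⟨?_⟩
    rintro n ⟨x, hx, rfl⟩ g
    refine ⟨_, tgs_const α g hx, ?_⟩
    simp
  rcases IsSimpleGroup.eq_bot_or_eq_top_of_normal _ hnorm with h | h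
  · exfalso
    have h1 : cm a b ∈ (Subgroup.closure (TgsW α)).map
        (Pi.evalMonoidHom (fun _ : Λ => T) l₀) := by
      refine ⟨_, tgs_z α a ((α l₀).symm b), ?_⟩
      simp
    rw [h, Subgroup.mem_bot] at h1
    apply hab
    have h2 : a * b * a⁻¹ * b⁻¹ = 1 := h1
    have h3 : a * b = (a * b * a⁻¹ * b⁻¹) * (b * a) := by group
    rw [h3, h2, one_mul]
  · have h1 : t ∈ (Subgroup.closure (TgsW α)).map
        (Pi.evalMonoidHom (fun _ : Λ => T) l₀) := by
      rw [h]
      exact Subgroup.mem_top t
    obtain ⟨x, hx, hxt⟩ := h1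
    exact ⟨x, hx, hxt⟩

/-- Two coordinates.

Proof. `α l₀ ≠ α l₁`: `t` with `a = α l₀ t * (α l₁ t)⁻¹ ≠ 1`. The element `d = t̂ * (α l₁ t)⁻¹`
(`t̂` the twisted element, `α l₁ t` the constant) normalizes the subgroup (`tgs_const`,
`tgs_twist`), `d l₁ = 1`, `d l₀ = a`. For `x` in the subgroup `d * x * d⁻¹ * x⁻¹` is in the
subgroup, with coordinate `1` at `l₁` and `cm a (x l₀)` at `l₀`; by `tgs_coord` `x l₀` is
arbitrary, and the centre of `T` is trivial (a normal subgroup; if it were `⊤` then `T` would be abelian). -/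
theorem tgs_pair {Λ T : Type} [Group T] [IsSimpleGroup T] (hn : ∃ a b : T, a * b ≠ b * a)
    (α : Λ → MulAut T) {l₀ l₁ : Λ} (h : α l₀ ≠ α l₁) :
    ∃ x ∈ Subgroup.closure (TgsW α), x l₁ = 1 ∧ x l₀ ≠ 1 := by
  obtain ⟨t, ht⟩ : ∃ t, α l₀ t ≠ α l₁ t := by
    by_contra hcon
    push Not at hcon
    exact h (MulEquiv.ext hcon)
  have ha : α l₀ t * (α l₁ t)⁻¹ ≠ 1 := fun h1 => ht (mul_inv_eq_one.1 h1)
  obtain ⟨y, hy⟩ : ∃ y : T, (α l₀ t * (α l₁ t)⁻¹) * y ≠ y * (α l₀ t * (α l₁ t)⁻¹) := by
    by_contra hcon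
    push Not at hcon
    exact ha (tgs_center hn hcon)
  obtain ⟨x, hx, hxy⟩ := tgs_coord hn α l₀ y
  have h1 := tgs_twist α t (tgs_const α (α l₁ t)⁻¹ hx)
  refine ⟨_, mul_mem h1 (inv_mem hx), ?_, ?_⟩
  · simp only [Pi.mul_apply, Pi.inv_apply]
    group
  · simp only [Pi.mul_apply, Pi.inv_apply, hxy]
    intro h2
    apply hy
    have h3 : α l₀ t * (α l₁ t)⁻¹ * y = (α l₀ t * ((α l₁ t)⁻¹ * y * (α l₁ t)⁻¹⁻¹) *
        (α l₀ t)⁻¹ * y⁻¹) * (y * (α l₀ t * (α l₁ t)⁻¹)) := by group
    rw [h3, h2, one_mul]

/-- Many coordinates.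

Proof. Induction on `S`. `∅`: `tgs_coord`. `insert l₁ S`: `x` for `S`, `y` from `tgs_pair`; the
conjugates of `y l₀` generate `T` (`tgs_const`; the normal closure of a nontrivial element is `⊤`),
so some conjugate `k * y l₀ * k⁻¹` does not commute with `x l₀` (otherwise `x l₀` is central, so
`1`); the commutator of `x` and `k y k⁻¹`. -/
theorem tgs_many {Λ T : Type} [Group T] [IsSimpleGroup T] (hn : ∃ a b : T, a * b ≠ b * a)
    (α : Λ → MulAut T) (hα : Function.Injective α) (l₀ : Λ) (S : Finset Λ) (hS : l₀ ∉ S) :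
    ∃ x ∈ Subgroup.closure (TgsW α), (∀ l ∈ S, x l = 1) ∧ x l₀ ≠ 1 := by
  classical
  induction S using Finset.induction_on with
  | empty =>
    obtain ⟨a, b, hab⟩ := id hn
    obtain ⟨x, hx, hxa⟩ := tgs_coord hn α l₀ a
    refine ⟨x, hx, by simp, ?_⟩
    rw [hxa]
    rintro rfl
    exact hab (by simp)
  | insert l₁ S hl ih =>
    have h01 : l₀ ≠ l₁ := fun h => hS (h ▸ Finset.mem_insert_self l₁ S)
    obtain ⟨x, hx, hxS, hx0⟩ := ih fun h => hS (Finset.mem_insert_of_mem h)
    obtain ⟨y, hy, hy1, hy0⟩ := tgs_pair hn α (l₀ := l₀) (l₁ := l₁) fun h => h01 (hα h)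
    obtain ⟨k, hk⟩ : ∃ k, x l₀ * (k * y l₀ * k⁻¹) ≠ (k * y l₀ * k⁻¹) * x l₀ := by
      by_contra hcon
      push Not at hcon
      apply hx0
      apply tgs_center hn
      have h1 : Subgroup.normalClosure {y l₀} = ⊤ := by
        rcases IsSimpleGroup.eq_bot_or_eq_top_of_normal (Subgroup.normalClosure {y l₀})
          inferInstance with h | h
        · exfalso
          apply hy0
          have h2 : y l₀ ∈ Subgroup.normalClosure {y l₀} :=
            Subgroup.subset_normalClosure rfl
          rw [h] at h2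
          exact Subgroup.mem_bot.1 h2
        · exact h
      have h2 : Subgroup.normalClosure {y l₀} ≤ Subgroup.centralizer {x l₀} := by
        unfold Subgroup.normalClosure
        rw [Subgroup.closure_le]
        intro z hz
        rw [Group.mem_conjugatesOfSet_iff] at hz
        obtain ⟨w, hw, hwz⟩ := hz
        rw [Set.mem_singleton_iff] at hw
        subst hw
        obtain ⟨c, hc⟩ := isConj_iff.1 hwz
        rw [SetLike.mem_coe, Subgroup.mem_centralizer_iff]
        intro u hu
        rw [Set.mem_singleton_iff] at hu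
        subst hu
        rw [← hc]
        exact hcon c
      intro z
      have h3 : z ∈ Subgroup.centralizer {x l₀} := by
        apply h2
        rw [h1]
        exact Subgroup.mem_top z
      exact Subgroup.mem_centralizer_iff.1 h3 _ rfl
    have hu := tgs_const α k hy
    refine ⟨_, mul_mem (mul_mem (mul_mem hx hu) (inv_mem hx)) (inv_mem hu), ?_, ?_⟩
    · intro l hl'
      rcases Finset.mem_insert.1 hl' with h | h
      · subst h
        simp only [Pi.mul_apply, Pi.inv_apply, hy1]
        group
      · simp only [Pi.mul_apply, Pi.inv_apply, hxS l h]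
        group
    · simp only [Pi.mul_apply, Pi.inv_apply]
      intro h2
      apply hk
      have h3 : x l₀ * (k * y l₀ * k⁻¹) = (x l₀ * (k * y l₀ * k⁻¹) * (x l₀)⁻¹ *
          (k * y l₀ * k⁻¹)⁻¹) * ((k * y l₀ * k⁻¹) * x l₀) := by group
      rw [h3, h2, one_mul]

/-- The subgroup is everything.

Proof. For every `l₀` the set `{t | Pi.mulSingle l₀ t ∈ closure}` is a normal subgroup
(`tgs_const`), nontrivial by `tgs_many` for `S = univ.erase l₀`, so `⊤`. Every function is a product
of `Pi.mulSingle`s (`Finset.noncommProd` or `Subgroup.pi_le_iff`, `Pi.mulSingle` induction;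
`Subgroup.iSup`..). -/
theorem tgs_top {Λ T : Type} [Finite Λ] [Group T] [IsSimpleGroup T]
    (hn : ∃ a b : T, a * b ≠ b * a) (α : Λ → MulAut T) (hα : Function.Injective α) :
    Subgroup.closure (TgsW α) = ⊤ := by
  classical
  have := Fintype.ofFinite Λ
  have h0 : ∀ (l₀ : Λ) (t : T), Pi.mulSingle l₀ t ∈ Subgroup.closure (TgsW α) := by
    intro l₀ t
    have hnorm : ((Subgroup.closure (TgsW α)).comap
        (MonoidHom.mulSingle (fun _ : Λ => T) l₀)).Normal := by
      refine ⟨?_⟩
      intro n hn' g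
      rw [Subgroup.mem_comap] at hn' ⊢
      have h1 := tgs_const α g hn'
      have h2 : (MonoidHom.mulSingle (fun _ : Λ => T) l₀) (g * n * g⁻¹) =
          (fun _ => g) * (MonoidHom.mulSingle (fun _ : Λ => T) l₀) n * (fun _ => g)⁻¹ := by
        funext l
        simp only [MonoidHom.mulSingle_apply, Pi.mul_apply, Pi.inv_apply]
        by_cases hl : l = l₀
        · subst hl
          simp
        · simp [Pi.mulSingle_eq_of_ne hl]
      rw [h2]
      exact h1
    rcases IsSimpleGroup.eq_bot_or_eq_top_of_normal _ hnorm with h | h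
    · exfalso
      obtain ⟨x, hx, hx1, hx0⟩ := tgs_many hn α hα l₀ (Finset.univ.erase l₀) (by simp)
      apply hx0
      have h1 : x l₀ ∈ (Subgroup.closure (TgsW α)).comap
          (MonoidHom.mulSingle (fun _ : Λ => T) l₀) := by
        rw [Subgroup.mem_comap]
        have h2 : (MonoidHom.mulSingle (fun _ : Λ => T) l₀) (x l₀) = x := by
          funext l
          simp only [MonoidHom.mulSingle_apply]
          by_cases hl : l = l₀
          · subst hl
            simp
          · rw [Pi.mulSingle_eq_of_ne hl]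
            exact (hx1 l (by simp [hl])).symm
        rw [h2]
        exact hx
      rw [h] at h1
      exact Subgroup.mem_bot.1 h1
    · have h1 : t ∈ (Subgroup.closure (TgsW α)).comap
          (MonoidHom.mulSingle (fun _ : Λ => T) l₀) := by
        rw [h]
        exact Subgroup.mem_top t
      exact h1
  have h1 : ∀ (S : Finset Λ) (x : Λ → T), (∀ l, l ∉ S → x l = 1) →
      x ∈ Subgroup.closure (TgsW α) := by
    intro S
    induction S using Finset.induction_on with
    | empty =>
      intro x hx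
      have h2 : x = 1 := funext fun l => hx l (Finset.notMem_empty l)
      rw [h2]
      exact one_mem _
    | insert l₁ S hl ih =>
      intro x hx
      have h2 : x = Pi.mulSingle l₁ (x l₁) * Function.update x l₁ 1 := by
        funext l
        by_cases h : l = l₁
        · subst h
          simp
        · simp [Pi.mulSingle_eq_of_ne h, Function.update_of_ne h]
      rw [h2]
      refine mul_mem (h0 _ _) (ih _ fun l hl' => ?_)
      by_cases h : l = l₁
      · subst h
        simp
      · rw [Function.update_of_ne h]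
        apply hx
        intro h3
        rcases Finset.mem_insert.1 h3 with h4 | h4
        · exact h h4
        · exact hl' h4
  rw [eq_top_iff]
  intro x _
  exact h1 Finset.univ x fun l hl => absurd (Finset.mem_univ l) hl

/-- Bounded words: in a finite group generated by a set `W` closed under inverses every element is a
product of at most `Nat.card G` elements of `W`.

Proof. `Subgroup.closure_induction` gives a list; take a list `l` with product `x` of minimal
length (`Nat.find`). If it is longer than `Nat.card G`, two of the products of its initial segments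
are equal (pigeonhole), and the part between them can be dropped. -/
theorem tgs_word {G : Type} [Group G] [Finite G] {W : Set G} (hW : ∀ x ∈ W, x⁻¹ ∈ W)
    (h : Subgroup.closure W = ⊤) (x : G) :
    ∃ l : List G, l.length ≤ Nat.card G ∧ (∀ y ∈ l, y ∈ W) ∧ l.prod = x := by
  classical
  have := Fintype.ofFinite G
  have key : ∀ (n : ℕ) (l : List G), l.length = n → (∀ y ∈ l, y ∈ W) → l.prod = x →
      ∃ l : List G, l.length ≤ Nat.card G ∧ (∀ y ∈ l, y ∈ W) ∧ l.prod = x := by
    intro n
    induction n using Nat.strong_induction_on with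
    | _ n ih =>
      intro l hl hlW hlx
      by_cases hc : l.length ≤ Nat.card G
      · exact ⟨l, hc, hlW, hlx⟩
      · push Not at hc
        have h1 : ¬ Function.Injective (fun i : Fin (l.length + 1) => (l.take i.1).prod) := by
          intro hinj
          have h2 := Fintype.card_le_of_injective _ hinj
          rw [Fintype.card_fin, ← Nat.card_eq_fintype_card] at h2
          omega
        have h2 : ∃ i j : ℕ, i < j ∧ j ≤ l.length ∧ (l.take i).prod = (l.take j).prod := by
          unfold Function.Injective at h1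
          push Not at h1
          obtain ⟨a, b, hab, hne⟩ := h1
          rcases lt_or_gt_of_ne (fun h => hne (Fin.ext h) : a.1 ≠ b.1) with h | h
          · exact ⟨a.1, b.1, h, by omega, hab⟩
          · exact ⟨b.1, a.1, h, by omega, hab.symm⟩
        obtain ⟨i, j, hij, hj, hp⟩ := h2
        refine ih (l.take i ++ l.drop j).length ?_ (l.take i ++ l.drop j) rfl ?_ ?_
        · rw [List.length_append, List.length_take, List.length_drop]
          omega
        · intro y hy
          rcases List.mem_append.1 hy with h | h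
          · exact hlW y (List.mem_of_mem_take h)
          · exact hlW y (List.mem_of_mem_drop h)
        · rw [List.prod_append, hp, ← List.prod_append, List.take_append_drop, hlx]
  have h1 : x ∈ Subgroup.closure W := by
    rw [h]
    exact Subgroup.mem_top x
  rw [← Subgroup.mem_toSubmonoid, Subgroup.closure_toSubmonoid] at h1
  obtain ⟨l, hl, hlx⟩ := Submonoid.exists_list_of_mem_closure h1
  refine key l.length l rfl ?_ hlx
  intro y hy
  rcases hl y hy with h2 | h2
  · exact h2
  · have h3 := hW _ (Set.mem_inv.1 h2)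
    rwa [inv_inv] at h3

/-- The gap for a simple group.

Proof. `tgs_top`, `tgs_word`: every `x` is a product of at most `Nat.card (Λ → T)` elements of
`TgsW α`; each of them moves `v` by at most `e` (invariance under conjugation by constants;
`‖ρ x⁻¹ v - v‖ = ‖ρ x v - v‖`), and displacements add up. -/
theorem tgl_simple {Λ T : Type} [Finite Λ] [Group T] [Finite T] [IsSimpleGroup T]
    (hn : ∃ a b : T, a * b ≠ b * a) (α : Λ → MulAut T) (hα : Function.Injective α) :
    TGL (Nat.card (Λ → T)) α := by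
  intro V _ _ _ ρ v e he h1 h2 x
  have hadd : ∀ a b : Λ → T, ‖ρ (a * b) v - v‖ ≤ ‖ρ a v - v‖ + ‖ρ b v - v‖ := by
    intro a b
    have h3 : ρ (a * b) v - v = ρ a (ρ b v - v) + (ρ a v - v) := by
      rw [map_mul, map_sub]
      show ρ a (ρ b v) - v = _
      abel
    rw [h3]
    calc ‖ρ a (ρ b v - v) + (ρ a v - v)‖ ≤ ‖ρ a (ρ b v - v)‖ + ‖ρ a v - v‖ := norm_add_le _ _
      _ = ‖ρ b v - v‖ + ‖ρ a v - v‖ := by rw [LinearIsometryEquiv.norm_map]
      _ = _ := add_comm _ _
  have hinv : ∀ a : Λ → T, ‖ρ a⁻¹ v - v‖ = ‖ρ a v - v‖ := by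
    intro a
    have h3 : ρ a (ρ a⁻¹ v - v) = v - ρ a v := by
      rw [map_sub]
      have h4 : ρ a (ρ a⁻¹ v) = (ρ a * ρ a⁻¹) v := rfl
      rw [h4, ← map_mul, mul_inv_cancel, map_one]
      rfl
    rw [← LinearIsometryEquiv.norm_map (ρ a), h3, norm_sub_rev]
  have hW : ∀ w ∈ TgsW α, ‖ρ w v - v‖ ≤ e := by
    rintro w ⟨k, h, t, h3 | h3⟩
    · rw [h3, h1]
      exact h2 h t
    · rw [h3, h1, hinv]
      exact h2 h t
  have hl : ∀ l : List (Λ → T), (∀ y ∈ l, y ∈ TgsW α) →
      ‖ρ l.prod v - v‖ ≤ (l.length : ℝ) * e := by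
    intro l
    induction l with
    | nil =>
      intro _
      rw [List.prod_nil, map_one]
      show ‖v - v‖ ≤ _
      simp
    | cons a l ih =>
      intro hy
      rw [List.prod_cons]
      have h3 := hadd a l.prod
      have h4 := hW a (hy a List.mem_cons_self)
      have h5 := ih fun y hyl => hy y (List.mem_cons_of_mem a hyl)
      rw [List.length_cons]
      push_cast
      linarith
  obtain ⟨l, hl1, hl2, hl3⟩ := tgs_word (tgs_inv α) (tgs_top hn α hα) x
  rw [← hl3]
  refine (hl l hl2).trans ?_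
  exact mul_le_mul_of_nonneg_right (by exact_mod_cast hl1) he

/-- The gap for the simple groups of bounded order.

Proof. `B = ((N ^ (N ^ N) : ℕ) : ℝ) + 1`: an injective map to `MulAut T` has a domain with at most
`N ^ N` elements (`MulAut T` injects into the functions), so `Nat.card (Λ → T) ≤ N ^ (N ^ N)`.
`TGL` is monotone in `B` (as in N/TgA). -/
theorem tgl_small (N : ℕ) : ∃ B : ℝ, 1 ≤ B ∧ ∀ (T : Type) [Group T] [Finite T]
    [IsSimpleGroup T], (∃ a b : T, a * b ≠ b * a) → Nat.card T ≤ N → ∀ (Λ : Type)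
    (α : Λ → MulAut T), Function.Injective α → TGL B α := by
  refine ⟨((N ^ (N ^ N) : ℕ) : ℝ) + 1, ?_, ?_⟩
  · have : (0 : ℝ) ≤ ((N ^ (N ^ N) : ℕ) : ℝ) := Nat.cast_nonneg _
    linarith
  · intro T _ _ _ hn hc Λ α hα
    have hf : Function.Injective (fun f : MulAut T => (f : T → T)) :=
      fun f g hfg => MulEquiv.ext fun x => congrFun hfg x
    have : Finite (MulAut T) := Finite.of_injective _ hf
    have : Finite Λ := Finite.of_injective _ hα
    have h1 : Nat.card Λ ≤ N ^ N := by
      calc Nat.card Λ ≤ Nat.card (MulAut T) := Nat.card_le_card_of_injective _ hα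
        _ ≤ Nat.card (T → T) := Nat.card_le_card_of_injective _ hf
        _ = Nat.card T ^ Nat.card T := by rw [Nat.card_fun]
        _ ≤ N ^ Nat.card T := Nat.pow_le_pow_left hc _
        _ ≤ N ^ N := Nat.pow_le_pow_right (lt_of_lt_of_le Nat.card_pos hc) hc
    have h2 : Nat.card (Λ → T) ≤ N ^ (N ^ N) := by
      calc Nat.card (Λ → T) = Nat.card T ^ Nat.card Λ := by rw [Nat.card_fun]
        _ ≤ N ^ Nat.card Λ := Nat.pow_le_pow_left hc _
        _ ≤ N ^ (N ^ N) := Nat.pow_le_pow_right (lt_of_lt_of_le Nat.card_pos hc) h1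
    have h3 := tgl_simple hn α hα
    intro V _ _ _ ρ v e he h4 h5 x
    refine (h3 V ρ v e he h4 h5 x).trans (mul_le_mul_of_nonneg_right ?_ he)
    have h6 : (Nat.card (Λ → T) : ℝ) ≤ ((N ^ (N ^ N) : ℕ) : ℝ) := by exact_mod_cast h2
    linarith

end Pool.Agent.MPfe8e9bN
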