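import Mathlib
import Pool.Agent.Lib.MP_fe8e9b_al_N.Defs
import Pool.Agent.Lib.MP_fe8e9b_al_N.Defs3
import Pool.Agent.Lib.MP_fe8e9b_al_N.SGT2
import Pool.Agent.Lib.MP_fe8e9b_al_N.PslA
import Pool.Agent.Lib.MP_fe8e9b_al_N.PslB
import Pool.Agent.Lib.MP_fe8e9b_al_N.TgA
import Pool.Agent.Lib.MP_fe8e9b_al_N.TgS
import Pool.Agent.Lib.MP_fe8e9b_al_N.TgD

/-!
# MP_fe8e9b_al, groups of bounded height: structures on the model groups, third version
-/

set_option autoImplicit false

open scoped BigOperators MatrixGroups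

namespace Pool.Agent.MPfe8e9bN

open Pool.Agent.MPfe8e9b Pool.Agent.MPfe8e9bA Pool.Agent.MPfe8e9bW Pool.Agent.MPfe8e9bV
open Pool.Agent.MPfe8e9bM

/-- Larger constants. -/
theorem sg3_mono {T : Type} [Group T] [Finite T] {S0 : Subgroup T} {L : Subgroup (MulAut T)}
    {c c' : ℕ} {B B' : ℝ} (hc : c ≤ c') (hB : B ≤ B') (h : SG3 c B T S0 L) :
    SG3 c' B' T S0 L where
  prf := h.prf
  inn := h.inn
  stb := h.stb
  gen := gen_mono hc h.gen
  crd := h.crd.trans (Nat.pow_le_pow_right Nat.card_pos hc)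
  typ := by
    obtain ⟨Λ, i, α, h1, h2⟩ := h.typ
    exact ⟨Λ, i, α, tgl_mono hB h1, h2⟩

/-- Transport. -/
theorem sg3_transport {T T' : Type} [Group T] [Finite T] [Group T'] (e : T ≃* T')
    {S0 : Subgroup T} {L : Subgroup (MulAut T)} {c : ℕ} {B : ℝ} (h : SG3 c B T S0 L) :
    SG3 c B T' (S0.map e.toMonoidHom) (L.map (MulAut.congr e).toMonoidHom) where
  prf := by
    have h1 := Subgroup.map_commutator (⊤ : Subgroup S0) ⊤ (e.toMonoidHom.subgroupMap S0)
    have h2 := MonoidHom.range_eq_top.2 (e.toMonoidHom.subgroupMap_surjective S0)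
    have h3 := h.prf
    rw [commutator_def] at h3 ⊢
    rw [h3, ← MonoidHom.range_eq_map, h2] at h1
    exact h1.symm
  inn := by
    rintro t' ⟨l', ⟨l, hl, rfl⟩, h1⟩ s' ⟨s, hs, rfl⟩
    have h2 := h.inn (e.symm t') ⟨l, hl, fun r => ?_⟩ s hs
    · have h3 := congrArg e h2
      rw [map_mul, map_mul, e.apply_symm_apply] at h3
      exact h3
    · have h3 := congrArg e.symm (h1 (e r))
      rw [map_mul, map_mul, map_inv, e.symm_apply_apply] at h3
      rw [h3]
      show e.symm (e (l (e.symm (e r)))) = l r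
      rw [e.symm_apply_apply, e.symm_apply_apply]
  stb := by
    rintro l' ⟨l, hl, rfl⟩ s' ⟨s, hs, rfl⟩
    refine ⟨l s, h.stb l hl s hs, ?_⟩
    show e (l s) = e (l (e.symm (e s)))
    rw [e.symm_apply_apply]
  gen := by
    obtain ⟨h', hh⟩ := h.gen
    refine ⟨fun j => e (h' j), fun R hR => ?_⟩
    have h1 := hh (R.comap e.toMonoidHom) (fun j s hs => by
      rw [Subgroup.mem_comap]
      show e (h' j * s * (h' j)⁻¹) ∈ R
      rw [map_mul, map_mul, map_inv]
      exact hR j (e s) ⟨s, hs, rfl⟩)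
    rw [eq_top_iff]
    intro t' _
    have h2 : e.symm t' ∈ R.comap e.toMonoidHom := by
      rw [h1]
      exact Subgroup.mem_top _
    have h3 : e (e.symm t') ∈ R := h2
    rwa [e.apply_symm_apply] at h3
  crd := by
    rw [← Nat.card_congr e.toEquiv]
    refine le_trans (le_of_eq ?_) h.crd
    exact (Nat.card_congr (L.equivMapOfInjective (MulAut.congr e).toMonoidHom
      (MulAut.congr e).injective).toEquiv).symm
  typ := by
    obtain ⟨Λ, iΛ, α, h1, h2⟩ := h.typ
    obtain ⟨f, hf⟩ : ∃ f : S0 ≃* S0.map e.toMonoidHom, ∀ s, ((f s : _) : T') = e s :=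
      ⟨S0.equivMapOfInjective e.toMonoidHom e.injective, fun s => rfl⟩
    refine ⟨Λ, iΛ, fun i => MulAut.congr f (α i), tgl_map h1 f.toMonoidHom f.surjective
      (fun i t => ?_), ?_⟩
    · show f (α i t) = f (α i (f.symm (f t)))
      rw [f.symm_apply_apply]
    · rintro l' ⟨l, hl, rfl⟩
      obtain ⟨i, hi⟩ := h2 l hl
      refine ⟨i, fun s' => ?_⟩
      show e (l (e.symm s')) = ((f (α i (f.symm s')) : _) : T')
      rw [hf, ← hi (f.symm s')]
      have h5 := hf (f.symm s')
      rw [f.apply_symm_apply] at h5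
      rw [h5, e.symm_apply_apply]

/-- Tame structures.

Proof. `inn`: `l s = s` for `s ∈ S0`. `crd`: `L ≤ cen S0`, `cen_card2`. `typ`: `Λ = Unit`,
`tgl_bot`. -/
theorem sg3_tame {T : Type} [Group T] [Finite T] (S0 : Subgroup T) {c : ℕ}
    (hp : commutator S0 = ⊤) (h : GenC c T S0) (L : Subgroup (MulAut T))
    (hL : ∀ l ∈ L, ∀ s ∈ S0, l s = s) : SG3 c 182 T S0 L where
  prf := hp
  inn := by
    rintro t ⟨l, hl, h1⟩ s hs
    have h2 := h1 s
    rw [hL l hl s hs] at h2
    exact mul_inv_eq_iff_eq_mul.1 h2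
  stb := fun l hl s hs => by rw [hL l hl s hs]; exact hs
  gen := h
  crd := (Subgroup.card_le_of_le (K := cen S0) fun l hl s hs => hL l hl s hs).trans
    (cen_card2 S0 h)
  typ := ⟨Unit, inferInstance, fun _ => 1, tgl_bot hp, fun l hl => ⟨(), fun s => hL l hl s s.2⟩⟩

private theorem sgt3_uu_add {E : Type} [Field E] (x y : E) : uu (x + y) = uu x * uu y := by
  refine pslb_ext ?_ ?_ ?_ ?_ <;> simp only [pslb_mul, pslb_uu] <;> ring

private theorem sgt3_uu_zero {E : Type} [Field E] : uu (0 : E) = 1 := by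
  refine pslb_ext ?_ ?_ ?_ ?_ <;> simp [uu]

private theorem sgt3_uu_neg {E : Type} [Field E] (x : E) : uu (-x) = (uu x)⁻¹ := by
  rw [eq_inv_iff_mul_eq_one, ← sgt3_uu_add, neg_add_cancel, sgt3_uu_zero]

private theorem sgt3_dg {E : Type} [Field E] (a b : E) (ha : a ≠ 0) :
    dg a ha * uu b * (dg a ha)⁻¹ = uu (a ^ 2 * b) := by
  refine pslb_ext ?_ ?_ ?_ ?_ <;>
    simp only [pslb_mul, pslb_uu, pslb_dg, pslb_inv] <;> field_simp <;> ring

private theorem sgt3_ww {E : Type} [Field E] (x : E) : ww⁻¹ * uu (-x) * ww = ll x := by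
  refine pslb_ext ?_ ?_ ?_ ?_ <;> simp only [pslb_mul, pslb_uu, pslb_ll, pslb_ww, pslb_inv] <;>
    ring

/-- A nontrivial homomorphism from `SL_2` of a field with at least four elements is injective on the
upper unipotent matrices; so the field has at most as many elements as the target.

Proof. If `φ (uu b) = 1`, `b ≠ 0`: conjugation by `dg a` gives `φ (uu (a ^ 2 * b)) = 1` for all
`a ≠ 0`, and sums of two squares are everything (`ZMod`.. or: the additive subgroup
`{x | φ (uu (x * b)) = 1}` contains all squares; in a finite field every element is a sum of two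
squares, `FiniteField.exists_root_sum_quadratic`; in characteristic two every element is a square).
So `φ` kills all `uu x`, by `ww` all `ll x`, and `sl_four` gives `φ = 1`. -/
theorem sgt3_inj {E T : Type} [Field E] [Finite E] [Group T] [Finite T] (φ : SL(2, E) →* T)
    (h : ∃ A, φ A ≠ 1) : Nat.card E ≤ Nat.card T := by
  refine Nat.card_le_card_of_injective (fun x : E => φ (uu x)) ?_
  intro x y hxy
  by_contra hne
  have hb : x - y ≠ 0 := sub_ne_zero.2 hne
  obtain ⟨b, hbd⟩ : ∃ b, b = x - y := ⟨_, rfl⟩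
  rw [← hbd] at hb
  have h1 : φ (uu b) = 1 := by
    rw [hbd, sub_eq_add_neg, sgt3_uu_add, sgt3_uu_neg, map_mul, map_inv]
    have h2 : φ (uu x) = φ (uu y) := hxy
    rw [h2, mul_inv_cancel]
  have h2 : ∀ a : E, φ (uu (a ^ 2 * b)) = 1 := by
    intro a
    by_cases ha : a = 0
    · rw [ha]
      simp [sgt3_uu_zero]
    · rw [← sgt3_dg a b ha, map_mul, map_mul, map_inv, h1, mul_one, mul_inv_cancel]
  have h3 : ∀ c : E, φ (uu c) = 1 := by
    intro c
    by_cases h4 : ringChar E = 2
    · obtain ⟨a, ha⟩ := FiniteField.isSquare_of_char_two h4 (c / b)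
      have h5 : c = a ^ 2 * b := by
        rw [pow_two, ← ha, div_mul_cancel₀ _ hb]
      rw [h5]
      exact h2 a
    · have h5 : (2 : E) ≠ 0 := Ring.two_ne_zero h4
      have h6 : c = ((c / b + 1) / 2) ^ 2 * b + -(((c / b - 1) / 2) ^ 2 * b) := by
        field_simp
        ring
      rw [h6, sgt3_uu_add, sgt3_uu_neg, map_mul, map_inv, h2, h2, inv_one, mul_one]
  have h4 : ∀ c : E, φ (ll c) = 1 := by
    intro c
    rw [← sgt3_ww, map_mul, map_mul, h3, mul_one, ← map_mul, inv_mul_cancel, map_one]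
  obtain ⟨A, hA⟩ := h
  apply hA
  obtain ⟨a, b', c, d, hA'⟩ := sl_four A
  rw [hA', map_mul, map_mul, map_mul, h3, h3, h4, h4, one_mul, one_mul, one_mul]

private theorem sgt3_fin (E : Type) [Field E] [Finite E] : Finite (E ≃+* E) :=
  Finite.of_injective (fun σ : E ≃+* E => (σ : E → E)) DFunLike.coe_injective

/-- The number of automorphisms of a finite field.

Proof. An automorphism is determined by the image of a generator of the units. -/
theorem sgt3_aut {E : Type} [Field E] [Finite E] : Nat.card (E ≃+* E) ≤ Nat.card E := by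
  obtain ⟨g, hg⟩ := IsCyclic.exists_generator (α := Eˣ)
  refine Nat.card_le_card_of_injective (fun σ : E ≃+* E => σ (g : E)) ?_
  intro σ τ h
  have h0 : σ (g : E) = τ (g : E) := h
  have h1 : Units.map (σ : E →* E) g = Units.map (τ : E →* E) g := by
    apply Units.ext
    exact h0
  refine RingEquiv.ext fun x => ?_
  by_cases hx : x = 0
  · rw [hx, map_zero, map_zero]
  · obtain ⟨k, hk⟩ := Subgroup.mem_zpowers_iff.1 (hg (Units.mk0 x hx))
    have h2 : Units.map (σ : E →* E) (Units.mk0 x hx) =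
        Units.map (τ : E →* E) (Units.mk0 x hx) := by
      rw [← hk, map_zpow, map_zpow, h1]
    exact congrArg Units.val h2

/-- The restriction of an automorphism to a stable subgroup. -/
private theorem sgt3_res {T : Type} [Group T] {S0 : Subgroup T} (l : MulAut T)
    (h1 : ∀ s ∈ S0, l s ∈ S0) (h2 : ∀ s ∈ S0, ∃ t ∈ S0, l t = s) :
    ∃ τ : MulAut S0, ∀ s : S0, ((τ s : S0) : T) = l s := by
  refine ⟨MulEquiv.ofBijective ((l.toMonoidHom.comp S0.subtype).codRestrict S0
    fun s => h1 s s.2) ⟨?_, ?_⟩, fun s => rfl⟩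
  · intro s t hst
    exact Subtype.ext (l.injective (congrArg Subtype.val hst))
  · intro s
    obtain ⟨t, ht, hts⟩ := h2 s s.2
    exact ⟨⟨t, ht⟩, Subtype.ext hts⟩

/-- Structures with field automorphisms.

Proof. `stb`: `l (φ x) = φ (fS σ x)` is in the range. `crd`: an element of `L` is determined by `σ`
and by the images of the conjugating elements of `h` (`gen_ext`), so
`card L ≤ card (E ≃+* E) * card T ^ c`, `sgt3_aut`, `sgt3_inj` (if `φ` is trivial then `S0 = ⊥`, and
`T` is trivial by `h`, everything is clear). `typ`: `Λ = {σ : E ≃+* E // ∃ l ∈ L, ∀ x,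
l (φ x) = φ (fS σ x)}`, `α σ` the restriction to `S0` of one such `l` (a bijection of `S0` by
`stb` for `l` and `l⁻¹`); `tgl_sl`, `tgl_comp` for the inclusion, `tgl_map` for
`φ.rangeRestrict` (and `hφ`). -/
theorem sg3_fld {T : Type} [Group T] [Finite T] (S0 : Subgroup T) {c : ℕ}
    (hp : commutator S0 = ⊤) (h : GenC c T S0) (L : Subgroup (MulAut T))
    (hin : ∀ t : T, (∃ l ∈ L, ∀ s, t * s * t⁻¹ = l s) → ∀ s ∈ S0, t * s = s * t)
    {E : Type} [Field E] [Fintype E] (hE : 4 ≤ Fintype.card E) (φ : SL(2, E) →* T)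
    (hφ : φ.range = S0) (hL : ∀ l ∈ L, ∃ σ : E ≃+* E, ∀ x, l (φ x) = φ (fS σ x)) :
    SG3 (c + 1) 12 T S0 L := by
  have hfin := sgt3_fin E
  have hm : ∀ x, φ x ∈ S0 := fun x => by
    rw [← hφ]
    exact ⟨x, rfl⟩
  have hs : ∀ s ∈ S0, ∃ x, φ x = s := fun s hs => by
    rw [← hφ] at hs
    exact hs
  have hst : ∀ l ∈ L, ∀ s ∈ S0, l s ∈ S0 := by
    intro l hl s hs'
    obtain ⟨x, rfl⟩ := hs s hs'
    obtain ⟨σ, hσ⟩ := hL l hl
    rw [hσ]
    exact hm _
  refine ⟨hp, hin, hst, gen_mono (Nat.le_succ c) h, ?_, ?_⟩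
  · obtain ⟨h', hh⟩ := h
    by_cases htr : ∃ A, φ A ≠ 1
    · choose! σ hσ using hL
      have h1 : Nat.card L ≤ Nat.card ((E ≃+* E) × (Fin c → T)) := by
        refine Nat.card_le_card_of_injective
          (fun l : L => (σ l, fun j => (l : MulAut T) (h' j))) ?_
        intro l l' hll
        have e1 : σ l = σ l' := congrArg Prod.fst hll
        have e2 : (fun j => (l : MulAut T) (h' j)) = fun j => (l' : MulAut T) (h' j) :=
          congrArg Prod.snd hll
        refine Subtype.ext (gen_ext hh _ _ (fun j => congrFun e2 j) fun s hs' => ?_)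
        obtain ⟨x, rfl⟩ := hs s hs'
        rw [hσ l l.2, hσ l' l'.2, e1]
      refine h1.trans ?_
      have h2 : Nat.card (Fin c → T) = Nat.card T ^ c := by
        rw [Nat.card_pi, Finset.prod_const, Finset.card_univ, Fintype.card_fin]
      rw [Nat.card_prod, h2, pow_succ, mul_comm]
      exact Nat.mul_le_mul_left _ (sgt3_aut.trans (sgt3_inj φ htr))
    · push Not at htr
      have h1 : (⊥ : Subgroup T) = ⊤ := by
        refine hh ⊥ fun j s hs' => ?_
        obtain ⟨x, rfl⟩ := hs s hs'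
        rw [htr, mul_one, mul_inv_cancel]
        exact Subgroup.one_mem _
      have h2 : Subsingleton T := by
        refine ⟨fun a b => ?_⟩
        have h3 : ∀ a : T, a = 1 := fun a => by
          have h4 : a ∈ (⊥ : Subgroup T) := by
            rw [h1]
            exact Subgroup.mem_top a
          exact Subgroup.mem_bot.1 h4
        rw [h3 a, h3 b]
      have h3 : Subsingleton L := by
        refine ⟨fun a b => Subtype.ext (MulEquiv.ext fun t => Subsingleton.elim _ _)⟩
      have h4 : Nat.card L = 1 := Nat.card_eq_one_iff_unique.2 ⟨h3, ⟨1⟩⟩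
      rw [h4]
      exact Nat.one_le_pow _ _ Nat.card_pos
  · have hres : ∀ σ : {σ : E ≃+* E // ∃ l ∈ L, ∀ x, l (φ x) = φ (fS σ x)},
        ∃ τ : MulAut S0, ∀ x, τ ⟨φ x, hm x⟩ = ⟨φ (fS σ.1 x), hm _⟩ := by
      rintro ⟨σ, l, hl, hσ⟩
      obtain ⟨τ, hτ⟩ := sgt3_res (S0 := S0) l (hst l hl) (by
        intro s hs'
        obtain ⟨x, rfl⟩ := hs s hs'
        refine ⟨φ ((fS σ).symm x), hm _, ?_⟩
        rw [hσ, MulEquiv.apply_symm_apply])
      refine ⟨τ, fun x => Subtype.ext ?_⟩
      rw [hτ]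
      exact hσ x
    choose α hα using hres
    refine ⟨{σ : E ≃+* E // ∃ l ∈ L, ∀ x, l (φ x) = φ (fS σ x)}, Fintype.ofFinite _, α, ?_, ?_⟩
    · have hE' : 4 ≤ Nat.card E := by rwa [Nat.card_eq_fintype_card]
      have h1 := tgl_comp (tgl_sl hE') (fun σ : {σ : E ≃+* E // ∃ l ∈ L, ∀ x,
        l (φ x) = φ (fS σ x)} => σ.1) Subtype.val_injective
      refine tgl_map h1 (φ.codRestrict S0 hm) (fun s => ?_) (fun i t => ?_)
      · obtain ⟨x, hx⟩ := hs s s.2
        exact ⟨x, Subtype.ext hx⟩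
      · exact (hα i t).symm
    · intro l hl
      obtain ⟨σ, hσ⟩ := hL l hl
      refine ⟨⟨σ, l, hl, hσ⟩, fun s => ?_⟩
      obtain ⟨x, hx⟩ := hs s s.2
      have h1 : s = ⟨φ x, hm x⟩ := Subtype.ext hx.symm
      rw [h1, hα]
      exact hσ x

private theorem sgt3_perf {T : Type} [Group T] [IsSimpleGroup T]
    (hn : ∃ a b : T, a * b ≠ b * a) : commutator T = ⊤ := by
  rcases IsSimpleGroup.eq_bot_or_eq_top_of_normal (commutator T) inferInstance with h | h
  · exfalso
    obtain ⟨a, b, hab⟩ := hn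
    have h1 : a * b * a⁻¹ * b⁻¹ ∈ commutator T := by
      rw [commutator_def]
      exact Subgroup.commutator_mem_commutator (Subgroup.mem_top a) (Subgroup.mem_top b)
    rw [h, Subgroup.mem_bot] at h1
    apply hab
    have h2 : a * b = (a * b * a⁻¹ * b⁻¹) * (b * a) := by group
    rw [h2, h1, one_mul]
  · exact h

/-- Structures on the groups of bounded order.

Proof. `inn`: `hin` and `S0 = ⊤`. `stb` clear, `gen`: `gen_top`, `gen_mono`. `crd`:
`card (MulAut T) ≤ card T ^ card T`. `typ`: `Λ = L` (`Fintype.ofFinite`), `α l` the automorphism of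
`S0 = ⊤` given by `l` (`MulAut.congr Subgroup.topEquiv.symm`), injective; `hB` is for `T`, transport
by `tgl_map`. -/
theorem sg3_small {T : Type} [Group T] [Finite T] [IsSimpleGroup T] {S0 : Subgroup T}
    (h0 : S0 = ⊤) (hn : ∃ a b : T, a * b ≠ b * a) (L : Subgroup (MulAut T))
    (hin : ∀ t : T, (∃ l ∈ L, ∀ s, t * s * t⁻¹ = l s) → ∀ s ∈ S0, t * s = s * t) {B : ℝ}
    (hB : ∀ (Λ : Type) (α : Λ → MulAut T), Function.Injective α → TGL B α) :
    SG3 (Nat.card T) B T S0 L := by
  subst h0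
  refine ⟨?_, hin, fun l _ s _ => Subgroup.mem_top _, gen_mono Nat.card_pos gen_top, ?_, ?_⟩
  · have h1 := Subgroup.map_commutator (⊤ : Subgroup T) ⊤
      (Subgroup.topEquiv (G := T)).symm.toMonoidHom
    have h2 : (⊤ : Subgroup T).map (Subgroup.topEquiv (G := T)).symm.toMonoidHom = ⊤ := by
      rw [← MonoidHom.range_eq_map]
      exact MonoidHom.range_eq_top.2 (Subgroup.topEquiv (G := T)).symm.surjective
    have h3 := sgt3_perf hn
    rw [commutator_def] at h3 ⊢
    rw [h3, h2] at h1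
    exact h1.symm
  · have h1 : Nat.card (T → T) = Nat.card T ^ Nat.card T := Nat.card_fun
    rw [← h1]
    refine Nat.card_le_card_of_injective (fun (l : L) (t : T) => (l : MulAut T) t) ?_
    intro l l' hll
    exact Subtype.ext (MulEquiv.ext fun t => congrFun hll t)
  · have hf : Finite L := Finite.of_injective (fun (l : L) (t : T) => (l : MulAut T) t)
      fun l l' hll => Subtype.ext (MulEquiv.ext fun t => congrFun hll t)
    refine ⟨L, Fintype.ofFinite L, fun l => MulAut.congr Subgroup.topEquiv.symm l.1, ?_,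
      fun l hl => ⟨⟨l, hl⟩, fun s => rfl⟩⟩
    exact tgl_map (hB L (fun l => l.1) Subtype.val_injective)
      (Subgroup.topEquiv (G := T)).symm.toMonoidHom (Subgroup.topEquiv (G := T)).symm.surjective
      fun i t => rfl

end Pool.Agent.MPfe8e9bN
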