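import Mathlib
import Pool.Agent.Lib.MP_fe8e9b_al_N.Defs3
import Pool.Agent.Lib.MP_fe8e9b_al_N.PslA
import Pool.Agent.Lib.MP_fe8e9b_al_N.PslB
import Pool.Agent.Lib.MP_fe8e9b_al_N.PslC
import Pool.Agent.Lib.MP_fe8e9b_al_N.TgC
import Pool.Agent.Lib.MP_fe8e9b_al_N.TgD

/-!
# MP_fe8e9b_al, groups of bounded height: the gap for the diagonal and field automorphisms of `SL_2`
-/

set_option autoImplicit false

open scoped BigOperators MatrixGroups

namespace Pool.Agent.MPfe8e9bN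

open Pool.Agent.MPfe8e9b Pool.Agent.MPfe8e9bA Pool.Agent.MPfe8e9bW Pool.Agent.MPfe8e9bV
open Pool.Agent.MPfe8e9bM Matrix

/-- The automorphisms: field automorphisms, and their compositions with the conjugation by
`g0 ν`. -/
noncomputable def aT {F : Type} [Field F] (ν : F) (hν : ν ≠ 0) (p : Bool × (F ≃+* F)) :
    MulAut SL(2, F) :=
  (if p.1 = true then cjS (g0 ν hν) else 1) * fS p.2

/-- The values on the upper unipotent matrices. -/
theorem aT_uu {F : Type} [Field F] (ν : F) (hν : ν ≠ 0) (σ : F ≃+* F) (b : F) :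
    aT ν hν (false, σ) (uu b) = uu (σ b) ∧ aT ν hν (true, σ) (uu b) = ll (ν⁻¹ * σ b) := by
  have h1 : fS σ (uu b) = uu (σ b) := by
    refine pslb_ext ?_ ?_ ?_ ?_ <;> rw [fS_coe]
    · show σ 1 = 1
      exact map_one σ
    · rfl
    · show σ 0 = 0
      exact map_zero σ
    · show σ 1 = 1
      exact map_one σ
  refine ⟨?_, ?_⟩
  · show (1 * fS σ : MulAut SL(2, F)) (uu b) = _
    rw [one_mul]
    exact h1
  · show cjS (g0 ν hν) (fS σ (uu b)) = _
    rw [h1]
    apply Subtype.ext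
    rw [g0_conj ν hν 1 (σ b) 0 1 (uu (σ b)) rfl, mul_zero]
    rfl

/-- Commutators with the diagonal matrices. -/
theorem tge_cm {F : Type} [Field F] (a : F) (ha : a ≠ 0) (b : F) :
    cm (dg a ha) (uu b) = uu ((a ^ 2 - 1) * b) ∧
      cm (dg a ha) (ll b) = ll (((a⁻¹) ^ 2 - 1) * b) := by
  constructor
  · refine pslb_ext ?_ ?_ ?_ ?_ <;>
      simp only [cm, pslb_mul, pslb_dg, pslb_inv, pslb_uu] <;> field_simp <;> ring
  · refine pslb_ext ?_ ?_ ?_ ?_ <;>
      simp only [cm, pslb_mul, pslb_dg, pslb_inv, pslb_ll] <;> field_simp <;> ring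

theorem tge_uu_add {F : Type} [Field F] (x y : F) : uu (x + y) = uu x * uu y := by
  refine pslb_ext ?_ ?_ ?_ ?_ <;> simp only [pslb_mul, pslb_uu] <;> ring

theorem tge_ll_add {F : Type} [Field F] (x y : F) : ll (x + y) = ll x * ll y := by
  refine pslb_ext ?_ ?_ ?_ ?_ <;> simp only [pslb_mul, pslb_ll] <;> ring

theorem tge_uu_zero {F : Type} [Field F] : uu (0 : F) = 1 := by
  have h : ((1 : SL(2, F)) : Matrix (Fin 2) (Fin 2) F) = 1 := rfl
  refine pslb_ext ?_ ?_ ?_ ?_ <;> rw [h] <;> simp [uu]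

theorem tge_ll_zero {F : Type} [Field F] : ll (0 : F) = 1 := by
  have h : ((1 : SL(2, F)) : Matrix (Fin 2) (Fin 2) F) = 1 := rfl
  refine pslb_ext ?_ ?_ ?_ ?_ <;> rw [h] <;> simp [ll]

/-- Conjugation by the diagonal matrices and by `ww`. -/
theorem tge_conj_dg {F : Type} [Field F] (a : F) (ha : a ≠ 0) (x : F) :
    dg a ha * uu x * (dg a ha)⁻¹ = uu (a ^ 2 * x) ∧
      dg a ha * ll x * (dg a ha)⁻¹ = ll ((a⁻¹) ^ 2 * x) := by
  constructor
  · refine pslb_ext ?_ ?_ ?_ ?_ <;>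
      simp only [pslb_mul, pslb_dg, pslb_inv, pslb_uu] <;> field_simp <;> ring
  · refine pslb_ext ?_ ?_ ?_ ?_ <;>
      simp only [pslb_mul, pslb_dg, pslb_inv, pslb_ll] <;> field_simp <;> ring

theorem tge_conj_ww {F : Type} [Field F] (x : F) :
    ww * uu x * ww⁻¹ = ll (-x) ∧ ww * ll x * ww⁻¹ = uu (-x) := by
  constructor
  · refine pslb_ext ?_ ?_ ?_ ?_ <;> simp only [pslb_mul, pslb_ww, pslb_inv, pslb_uu, pslb_ll] <;>
      ring
  · refine pslb_ext ?_ ?_ ?_ ?_ <;> simp only [pslb_mul, pslb_ww, pslb_inv, pslb_uu, pslb_ll] <;>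
      ring

/-- The displacement of a product. -/
theorem tge_mul {H : Type} [Group H] {V : Type} [NormedAddCommGroup V] [InnerProductSpace ℂ V]
    (ρ : H →* (V ≃ₗᵢ[ℂ] V)) (v : V) (x y : H) {a b : ℝ} (hx : ‖ρ x v - v‖ ≤ a)
    (hy : ‖ρ y v - v‖ ≤ b) : ‖ρ (x * y) v - v‖ ≤ a + b := by
  have h1 : ρ (x * y) v - v = ρ x (ρ y v - v) + (ρ x v - v) := by
    rw [map_mul, map_sub]
    show ρ x (ρ y v) - v = _
    abel
  rw [h1]
  refine (norm_add_le _ _).trans ?_
  rw [LinearIsometryEquiv.norm_map]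
  linarith

/-- Elements supported on one of the two halves.

Proof. `u`, `v` from `tg_uv`. First half (`i = false`): the product of the twisted commutators
`cm (dg u⁻¹) (aT p (uu b))` and `cm (dg v⁻¹) (aT p (uu b))`, `p : Bool × (F ≃+* F)`: at `(false, σ)`
it is `uu ((u⁻¹ ^ 2 + v⁻¹ ^ 2 - 2) * σ b)`, at `(true, σ)` it is
`ll ((u ^ 2 + v ^ 2 - 2) * (ν⁻¹ * σ b)) = 1`. Second half: `dg u` and `dg v`, at `(true, σ)` it is
`ll ((u⁻¹ ^ 2 + v⁻¹ ^ 2 - 2) * (ν⁻¹ * σ b))`, at `(false, σ)` it is `1`. The constant is not zero by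
`tg_uv2`. The displacement is at most `2 * e`. -/
theorem tge_half {F : Type} [Field F] [Finite F] (h2 : (2 : F) ≠ 0) (hF : 11 ≤ Nat.card F) (ν : F)
    (hν : ν ≠ 0) {V : Type} [NormedAddCommGroup V] [InnerProductSpace ℂ V]
    (ρ : (Bool × (F ≃+* F) → SL(2, F)) →* (V ≃ₗᵢ[ℂ] V)) (v : V) (e : ℝ)
    (h : ∀ h t : SL(2, F), ‖ρ (fun p => cm h (aT ν hν p t)) v - v‖ ≤ e) :
    ∃ c : F, c ≠ 0 ∧
      (∀ b, ‖ρ (fun p => if p.1 = true then 1 else uu (c * p.2 b)) v - v‖ ≤ 2 * e) ∧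
      ∀ b, ‖ρ (fun p => if p.1 = true then ll (c * (ν⁻¹ * p.2 b)) else 1) v - v‖ ≤ 2 * e := by
  have := Fintype.ofFinite F
  rw [Nat.card_eq_fintype_card] at hF
  obtain ⟨x, y, hx, hy, hxy, hx1⟩ := tg_uv h2 hF
  refine ⟨(x⁻¹) ^ 2 + (y⁻¹) ^ 2 - 2, tg_uv2 h2 hx hy hxy hx1, fun b => ?_, fun b => ?_⟩
  · have h1 := h (dg x⁻¹ (inv_ne_zero hx)) (uu b)
    have h3 := h (dg y⁻¹ (inv_ne_zero hy)) (uu b)
    have h4 := tge_mul ρ v _ _ h1 h3
    have e1 : ((fun p => cm (dg x⁻¹ (inv_ne_zero hx)) (aT ν hν p (uu b))) *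
        (fun p => cm (dg y⁻¹ (inv_ne_zero hy)) (aT ν hν p (uu b))) :
          Bool × (F ≃+* F) → SL(2, F)) =
        fun p => if p.1 = true then 1 else uu (((x⁻¹) ^ 2 + (y⁻¹) ^ 2 - 2) * p.2 b) := by
      funext p
      obtain ⟨i, σ⟩ := p
      cases i
      · show cm _ (aT ν hν (false, σ) (uu b)) * cm _ (aT ν hν (false, σ) (uu b)) = uu _
        rw [(aT_uu ν hν σ b).1, (tge_cm _ _ _).1, (tge_cm _ _ _).1, ← tge_uu_add]
        congr 1
        ring
      · show cm _ (aT ν hν (true, σ) (uu b)) * cm _ (aT ν hν (true, σ) (uu b)) = 1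
        rw [(aT_uu ν hν σ b).2, (tge_cm _ _ _).2, (tge_cm _ _ _).2, ← tge_ll_add, ← tge_ll_zero]
        congr 1
        rw [inv_inv, inv_inv]
        linear_combination (ν⁻¹ * σ b) * hxy
    rw [e1] at h4
    linarith
  · have h1 := h (dg x hx) (uu b)
    have h3 := h (dg y hy) (uu b)
    have h4 := tge_mul ρ v _ _ h1 h3
    have e1 : ((fun p => cm (dg x hx) (aT ν hν p (uu b))) *
        (fun p => cm (dg y hy) (aT ν hν p (uu b))) : Bool × (F ≃+* F) → SL(2, F)) =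
        fun p => if p.1 = true then ll (((x⁻¹) ^ 2 + (y⁻¹) ^ 2 - 2) * (ν⁻¹ * p.2 b)) else 1 := by
      funext p
      obtain ⟨i, σ⟩ := p
      cases i
      · show cm _ (aT ν hν (false, σ) (uu b)) * cm _ (aT ν hν (false, σ) (uu b)) = 1
        rw [(aT_uu ν hν σ b).1, (tge_cm _ _ _).1, (tge_cm _ _ _).1, ← tge_uu_add, ← tge_uu_zero]
        congr 1
        linear_combination (σ b) * hxy
      · show cm _ (aT ν hν (true, σ) (uu b)) * cm _ (aT ν hν (true, σ) (uu b)) = ll _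
        rw [(aT_uu ν hν σ b).2, (tge_cm _ _ _).2, (tge_cm _ _ _).2, ← tge_ll_add]
        congr 1
        ring
    rw [e1] at h4
    linarith

/-- Functions supported on one of the two halves. -/
def tgeE {Λ T : Type} [Group T] (i : Bool) : (Λ → T) →* (Bool × Λ → T) where
  toFun y := fun p => if p.1 = i then y p.2 else 1
  map_one' := by
    funext p
    by_cases h : p.1 = i <;> simp [h]
  map_mul' y y' := by
    funext p
    by_cases h : p.1 = i <;> simp [h]

theorem tgeE_apply {Λ T : Type} [Group T] (i : Bool) (y : Λ → T) (p : Bool × Λ) :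
    tgeE i y p = if p.1 = i then y p.2 else 1 := rfl

theorem tgeE_conj {Λ T : Type} [Group T] (i : Bool) (k : T) (y : Λ → T) :
    (fun _ => k) * tgeE i y * (fun _ => k)⁻¹ = tgeE i (fun l => k * y l * k⁻¹) := by
  funext p
  rw [tgeE_apply]
  show k * tgeE i y p * k⁻¹ = _
  rw [tgeE_apply]
  by_cases h : p.1 = i
  · rw [if_pos h, if_pos h]
  · rw [if_neg h, if_neg h, mul_one, mul_inv_cancel]

/-- The unipotent functions. -/
def tgeU {F : Type} [Field F] (Λ : Type) : Multiplicative (Λ → F) →* (Λ → SL(2, F)) where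
  toFun x := fun l => uu (x.toAdd l)
  map_one' := by
    funext l
    exact tge_uu_zero
  map_mul' x y := by
    funext l
    exact tge_uu_add _ _

/-- The unipotent functions. -/
def tgeL {F : Type} [Field F] (Λ : Type) : Multiplicative (Λ → F) →* (Λ → SL(2, F)) where
  toFun x := fun l => ll (x.toAdd l)
  map_one' := by
    funext l
    exact tge_ll_zero
  map_mul' x y := by
    funext l
    exact tge_ll_add _ _

/-- From the unipotent functions to all functions on one half. -/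
theorem tge_gen {F Λ : Type} [Field F] {V : Type} [NormedAddCommGroup V]
    [InnerProductSpace ℂ V] (ρ : (Bool × Λ → SL(2, F)) →* (V ≃ₗᵢ[ℂ] V)) (v : V) {e : ℝ} (i : Bool)
    (hu : ∀ x : Λ → F, ‖ρ (tgeE i fun l => uu (x l)) v - v‖ ≤ e)
    (hl : ∀ x : Λ → F, ‖ρ (tgeE i fun l => ll (x l)) v - v‖ ≤ e) (y : Λ → SL(2, F)) :
    ‖ρ (tgeE i y) v - v‖ ≤ 4 * e := by
  choose x1 x2 x3 x4 hx using fun l => sl_four (y l)
  have h1 : y = (fun l => ll (x1 l)) * (fun l => uu (x2 l)) * (fun l => ll (x3 l)) *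
      fun l => uu (x4 l) := by
    funext l
    exact hx l
  have h3 : tgeE i y = tgeE i (fun l => ll (x1 l)) * tgeE i (fun l => uu (x2 l)) *
      tgeE i (fun l => ll (x3 l)) * tgeE i (fun l => uu (x4 l)) := by
    rw [h1, (tgeE i).map_mul, (tgeE i).map_mul, (tgeE i).map_mul]
  rw [h3]
  have h2 := tge_mul ρ v _ _ (tge_mul ρ v _ _ (tge_mul ρ v _ _ (hl x1) (hu x2)) (hl x3)) (hu x4)
  refine h2.trans (le_of_eq ?_)
  ring

theorem tge_appU {F Λ : Type} [Field F] {V : Type} [NormedAddCommGroup V]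
    [InnerProductSpace ℂ V] (ρ : (Bool × Λ → SL(2, F)) →* (V ≃ₗᵢ[ℂ] V)) (i : Bool) (f : Λ → F) :
    (ρ.comp ((tgeE i).comp (tgeU Λ))) (Multiplicative.ofAdd f) =
      ρ (tgeE i fun l => uu (f l)) := rfl

theorem tge_appL {F Λ : Type} [Field F] {V : Type} [NormedAddCommGroup V]
    [InnerProductSpace ℂ V] (ρ : (Bool × Λ → SL(2, F)) →* (V ≃ₗᵢ[ℂ] V)) (i : Bool) (f : Λ → F) :
    (ρ.comp ((tgeE i).comp (tgeL Λ))) (Multiplicative.ofAdd f) =
      ρ (tgeE i fun l => ll (f l)) := rfl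

/-- All upper unipotent functions on one half. -/
theorem tge_fldU {F : Type} [Field F] [Finite F] {V : Type} [NormedAddCommGroup V]
    [InnerProductSpace ℂ V] (ρ : (Bool × (F ≃+* F) → SL(2, F)) →* (V ≃ₗᵢ[ℂ] V)) (v : V) {e : ℝ}
    (he : 0 ≤ e) (i : Bool) {c : F} (hc : c ≠ 0)
    (h : ∀ (a : Fˣ) (b : F), ‖ρ (tgeE i fun σ => uu ((a : F) ^ 2 * c * σ b)) v - v‖ ≤ e)
    (x : (F ≃+* F) → F) : ‖ρ (tgeE i fun σ => uu (x σ)) v - v‖ ≤ 3 * e := by
  have := Fintype.ofFinite F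
  have := Fintype.ofFinite Fˣ
  have : Finite (F ≃+* F) :=
    Finite.of_injective (fun σ : F ≃+* F => (σ : F → F)) DFunLike.coe_injective
  have h1 := tg_fld (J := Fˣ) (fun σ : F ≃+* F => σ) Function.injective_id
    (fun a => (a : F) ^ 2 * c) (fun W hW => tg_sq2 c hc W hW)
    (ρ.comp ((tgeE i).comp (tgeU (F ≃+* F)))) v he (fun a b => by
      rw [tge_appU]
      exact h a b) x
  rw [tge_appU] at h1
  exact h1

/-- All lower unipotent functions on one half. -/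
theorem tge_fldL {F : Type} [Field F] [Finite F] {V : Type} [NormedAddCommGroup V]
    [InnerProductSpace ℂ V] (ρ : (Bool × (F ≃+* F) → SL(2, F)) →* (V ≃ₗᵢ[ℂ] V)) (v : V) {e : ℝ}
    (he : 0 ≤ e) (i : Bool) {c : F} (hc : c ≠ 0)
    (h : ∀ (a : Fˣ) (b : F), ‖ρ (tgeE i fun σ => ll ((a : F) ^ 2 * c * σ b)) v - v‖ ≤ e)
    (x : (F ≃+* F) → F) : ‖ρ (tgeE i fun σ => ll (x σ)) v - v‖ ≤ 3 * e := by
  have := Fintype.ofFinite F
  have := Fintype.ofFinite Fˣ
  have : Finite (F ≃+* F) :=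
    Finite.of_injective (fun σ : F ≃+* F => (σ : F → F)) DFunLike.coe_injective
  have h1 := tg_fld (J := Fˣ) (fun σ : F ≃+* F => σ) Function.injective_id
    (fun a => (a : F) ^ 2 * c) (fun W hW => tg_sq2 c hc W hW)
    (ρ.comp ((tgeE i).comp (tgeL (F ≃+* F)))) v he (fun a b => by
      rw [tge_appL]
      exact h a b) x
  rw [tge_appL] at h1
  exact h1

/-- The gap for `SL_2` and the automorphisms `aT`.

Proof. Let `c` be from `tge_half`. First half: conjugation by the constant `dg a` gives that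
`fun p => if p.1 then 1 else uu (a ^ 2 * c * p.2 b)` moves `v` by at most `2 * e`; `tg_fld` (file
TgD) for `Λ = F ≃+* F`, `J = Fˣ`, `s a = a ^ 2 * c` (`tg_sq2`): all
`fun p => if p.1 then 1 else uu (x p.2)` move `v` by at most `6 * e`; conjugation by the constant
`ww`: the same for `ll`; `sl_four`: all functions supported on the first half move `v` by at most
`24 * e`. Second half: the same with `ll` and `uu` exchanged (conjugation of `ll y` by `dg a` is
`ll (a⁻¹ ^ 2 * y)`; use `b` and `a⁻¹`, `s a = a ^ 2 * (c * ν⁻¹)`). Every function is a product of a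
function supported on the first half and one supported on the second. -/
theorem tgl_slt {F : Type} [Field F] [Finite F] (h2 : (2 : F) ≠ 0) (hF : 11 ≤ Nat.card F)
    (ν : F) (hν : ν ≠ 0) : TGL 48 (aT ν hν) := by
  intro V _ _ _ ρ v e he hinv h x
  obtain ⟨c, hc, hf, hs⟩ := tge_half h2 hF ν hν ρ v e h
  have hconj : ∀ (i : Bool) (k : SL(2, F)) (y z : (F ≃+* F) → SL(2, F)),
      (∀ l, k * y l * k⁻¹ = z l) → ‖ρ (tgeE i z) v - v‖ = ‖ρ (tgeE i y) v - v‖ := by
    intro i k y z hz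
    rw [← hinv k (tgeE i y), tgeE_conj, funext hz]
  -- first half
  have f1 : ∀ b, ‖ρ (tgeE false fun σ : F ≃+* F => uu (c * σ b)) v - v‖ ≤ 2 * e := by
    intro b
    have e1 : (fun p : Bool × (F ≃+* F) => if p.1 = true then 1 else uu (c * p.2 b)) =
        tgeE false fun σ : F ≃+* F => uu (c * σ b) := by
      funext p
      rw [tgeE_apply]
      cases p.1 <;> simp
    rw [← e1]
    exact hf b
  have f2 : ∀ x : (F ≃+* F) → F, ‖ρ (tgeE false fun σ => uu (x σ)) v - v‖ ≤ 3 * (2 * e) := by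
    refine tge_fldU ρ v (by linarith) false hc fun a b => ?_
    rw [hconj false (dg (a : F) a.ne_zero) (fun σ : F ≃+* F => uu (c * σ b)) _ fun l => ?_]
    · exact f1 b
    · rw [(tge_conj_dg _ _ _).1, mul_assoc]
  have f3 : ∀ x : (F ≃+* F) → F, ‖ρ (tgeE false fun σ => ll (x σ)) v - v‖ ≤ 3 * (2 * e) := by
    intro x
    rw [hconj false ww (fun σ => uu (-x σ)) _ fun l => ?_]
    · exact f2 fun σ => -x σ
    · rw [(tge_conj_ww _).1, neg_neg]
  have f4 := tge_gen ρ v false f2 f3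
  -- second half
  have s1 : ∀ b, ‖ρ (tgeE true fun σ : F ≃+* F => ll (c * (ν⁻¹ * σ b))) v - v‖ ≤ 2 * e := by
    intro b
    have e1 : (fun p : Bool × (F ≃+* F) => if p.1 = true then ll (c * (ν⁻¹ * p.2 b)) else 1) =
        tgeE true fun σ : F ≃+* F => ll (c * (ν⁻¹ * σ b)) := by
      funext p
      rw [tgeE_apply]
    rw [← e1]
    exact hs b
  have s2 : ∀ x : (F ≃+* F) → F, ‖ρ (tgeE true fun σ => ll (x σ)) v - v‖ ≤ 3 * (2 * e) := by
    refine tge_fldL ρ v (by linarith) true (c := c * ν⁻¹)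
      (mul_ne_zero hc (inv_ne_zero hν)) fun a b => ?_
    rw [hconj true (dg (a : F)⁻¹ (inv_ne_zero a.ne_zero))
      (fun σ : F ≃+* F => ll (c * (ν⁻¹ * σ b))) _ fun l => ?_]
    · exact s1 b
    · rw [(tge_conj_dg _ _ _).2, inv_inv, mul_assoc, mul_assoc]
  have s3 : ∀ x : (F ≃+* F) → F, ‖ρ (tgeE true fun σ => uu (x σ)) v - v‖ ≤ 3 * (2 * e) := by
    intro x
    rw [hconj true ww (fun σ => ll (-x σ)) _ fun l => ?_]
    · exact s2 fun σ => -x σ
    · rw [(tge_conj_ww _).2, neg_neg]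
  have s4 := tge_gen ρ v true s3 s2
  -- together
  have hx : x = tgeE false (fun σ => x (false, σ)) * tgeE true (fun σ => x (true, σ)) := by
    funext p
    obtain ⟨i, σ⟩ := p
    rw [Pi.mul_apply, tgeE_apply, tgeE_apply]
    cases i <;> simp
  rw [hx]
  refine (tge_mul ρ v _ _ (f4 _) (s4 _)).trans (le_of_eq ?_)
  ring

end Pool.Agent.MPfe8e9bN
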