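import Mathlib
import Pool.Agent.Lib.MP_fe8e9b_al_N.Defs3
import Pool.Agent.Lib.MP_fe8e9b_al_N.PslA
import Pool.Agent.Lib.MP_fe8e9b_al_N.PslB
import Pool.Agent.Lib.MP_fe8e9b_al_N.PslC
import Pool.Agent.Lib.MP_fe8e9b_al_N.PslD
import Pool.Agent.Lib.MP_fe8e9b_al_N.TgA
import Pool.Agent.Lib.MP_fe8e9b_al_N.TgS
import Pool.Agent.Lib.MP_fe8e9b_al_N.TgD
import Pool.Agent.Lib.MP_fe8e9b_al_N.TgE
import Pool.Agent.Lib.MP_fe8e9b_al_N.SGT3

/-!
# MP_fe8e9b_al, groups of bounded height: the models `PSL_2`, third version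
-/

set_option autoImplicit false

open scoped BigOperators MatrixGroups

namespace Pool.Agent.MPfe8e9bN

open Pool.Agent.MPfe8e9b Pool.Agent.MPfe8e9bM Pool.Agent.MPfe8e9bV
open Matrix

/-- The field automorphisms of `PSL_2`. -/
def lF (F : Type) [Field F] : Subgroup (MulAut PSL(2, F)) where
  carrier := {l | ∃ σ : F ≃+* F, ∀ s, l s = fP σ s}
  mul_mem' := by
    rintro a b ⟨σ, hσ⟩ ⟨σ', hσ'⟩
    refine ⟨σ'.trans σ, fun s => ?_⟩
    rw [MulAut.mul_apply, hσ', hσ, fP_trans]
  one_mem' := ⟨RingEquiv.refl F, fun s => by rw [fP_refl, MulAut.one_apply]⟩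
  inv_mem' := by
    rintro a ⟨σ, hσ⟩
    refine ⟨σ.symm, fun s => ?_⟩
    rw [MulAut.inv_apply, MulEquiv.symm_apply_eq, hσ]
    have h1 := fP_symm σ.symm s
    rw [RingEquiv.symm_symm] at h1
    exact h1.symm

/-- The field automorphisms over `K` and their compositions with the twist. -/
def lK {F : Type} [Field F] (K : Subfield F) (ν : F) (hν : ν ≠ 0) (hνK : ν ∈ K) :
    Subgroup (MulAut PSL(2, F)) where
  carrier := {l | ∃ σ : F ≃+* F, (∀ x ∈ K, σ x = x) ∧
    ((∀ s, l s = fP σ s) ∨ ∀ s, l s = cjP (g0 ν hν) (fP σ s))}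
  mul_mem' := by
    have hc : ∀ σ : F ≃+* F, (∀ x ∈ K, σ x = x) → ∀ s,
        fP σ (cjP (g0 ν hν) s) = cjP (g0 ν hν) (fP σ s) := by
      intro σ hσ s
      rw [fP_cjP]
      congr 2
      refine Units.ext ?_
      show (g0 ν hν).1.map σ = (g0 ν hν).1
      rw [g0_coe]
      ext i j
      fin_cases i <;> fin_cases j <;> simp [hσ ν hνK]
    have hs : ∀ s, cjP (g0 ν hν) (cjP (g0 ν hν) s) = s := by
      intro s
      rw [← MulAut.mul_apply, g0_sq, MulAut.one_apply]
    rintro a b ⟨σ, hσ, ha⟩ ⟨σ', hσ', hb⟩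
    refine ⟨σ'.trans σ, fun x hx => ?_, ?_⟩
    · show σ (σ' x) = x
      rw [hσ' x hx, hσ x hx]
    · rcases ha with ha | ha <;> rcases hb with hb | hb
      · left
        intro s
        rw [MulAut.mul_apply, hb, ha, fP_trans]
      · right
        intro s
        rw [MulAut.mul_apply, hb, ha, hc σ hσ, fP_trans]
      · right
        intro s
        rw [MulAut.mul_apply, hb, ha, fP_trans]
      · left
        intro s
        rw [MulAut.mul_apply, hb, ha, hc σ hσ, hs, fP_trans]
  one_mem' := ⟨RingEquiv.refl F, fun _ _ => rfl, Or.inl fun s => by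
    rw [fP_refl, MulAut.one_apply]⟩
  inv_mem' := by
    have hc : ∀ σ : F ≃+* F, (∀ x ∈ K, σ x = x) → ∀ s,
        fP σ (cjP (g0 ν hν) s) = cjP (g0 ν hν) (fP σ s) := by
      intro σ hσ s
      rw [fP_cjP]
      congr 2
      refine Units.ext ?_
      show (g0 ν hν).1.map σ = (g0 ν hν).1
      rw [g0_coe]
      ext i j
      fin_cases i <;> fin_cases j <;> simp [hσ ν hνK]
    have hs : ∀ s, cjP (g0 ν hν) (cjP (g0 ν hν) s) = s := by
      intro s
      rw [← MulAut.mul_apply, g0_sq, MulAut.one_apply]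
    have hy : ∀ (σ : F ≃+* F) (s : PSL(2, F)), fP σ (fP σ.symm s) = s := by
      intro σ s
      have h1 := fP_symm σ.symm s
      rw [RingEquiv.symm_symm] at h1
      exact h1
    rintro a ⟨σ, hσ, ha⟩
    have hσ2 : ∀ x ∈ K, σ.symm x = x := fun x hx => by
      rw [RingEquiv.symm_apply_eq, hσ x hx]
    refine ⟨σ.symm, hσ2, ?_⟩
    rcases ha with ha | ha
    · left
      intro s
      rw [MulAut.inv_apply, MulEquiv.symm_apply_eq, ha, hy]
    · right
      intro s
      rw [MulAut.inv_apply, MulEquiv.symm_apply_eq, ha, hc σ hσ, hs, hy]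

/-- Automorphisms of a finite field which map every element to itself or to its negative.

Proof. `σ (x ^ 2) = x ^ 2`, and every element is a sum of two squares
(`FiniteField.exists_root_sum_quadratic`, `FiniteField.sum_sq` or in characteristic two every
element is a square). -/
theorem pslm_id {F : Type} [Field F] [Finite F] (σ : F ≃+* F)
    (h : ∀ x, σ x = x ∨ σ x = -x) (x : F) : σ x = x := by
  rcases h x with h1 | h1
  · exact h1
  · have h2 : σ (1 + x) = 1 - x := by
      rw [map_add, map_one, h1]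
      ring
    have h3 : x = -x := by
      rcases h (1 + x) with h4 | h4
      · rw [h2] at h4
        linear_combination -h4
      · rw [h2] at h4
        have h5 : (2 : F) = 0 := by linear_combination h4
        have h6 : (2 : F) * x = 0 := by rw [h5, zero_mul]
        linear_combination h6
    rw [h1]
    exact h3.symm

/-- If a conjugation is a field automorphism on `PSL_2` then the field automorphism is trivial.

Proof. For a matrix `A` in `SL_2` with trace `x` the matrices `M * A * M⁻¹` and `σ A` differ by a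
scalar `z`, `z ^ 2 = 1` (the centre), so `z = 1` or `z = -1`; the traces give `x = z * σ x`.
`pslm_id`. -/
theorem pslm_fld {F : Type} [Field F] [Finite F] (M : GL (Fin 2) F) (σ : F ≃+* F)
    (h : ∀ s : PSL(2, F), cjP M s = fP σ s) (x : F) : σ x = x := by
  refine pslm_id σ (fun y => ?_) x
  let A : SL(2, F) := ⟨!![y, -1; 1, 0], by rw [Matrix.det_fin_two_of]; ring⟩
  have hA : A.1 = !![y, -1; 1, 0] := rfl
  have h1 := h (QuotientGroup.mk A)
  rw [cjP_mk, fP_mk, QuotientGroup.eq] at h1
  obtain ⟨r, hr, hr2⟩ := Matrix.SpecialLinearGroup.mem_center_iff.1 h1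
  rw [Fintype.card_fin] at hr
  have h2 : fS σ A = cjS M A * ((cjS M A)⁻¹ * fS σ A) := by rw [mul_inv_cancel_left]
  have h3 : (fS σ A).1 = r • (M.1 * A.1 * M⁻¹.1) := by
    have h4 : (fS σ A).1 = (cjS M A).1 * ((cjS M A)⁻¹ * fS σ A).1 := congrArg Subtype.val h2
    rw [← hr2, cjS_coe] at h4
    rw [Matrix.scalar_apply, ← Matrix.smul_one_eq_diagonal, Matrix.mul_smul, Matrix.mul_one] at h4
    exact h4
  have hMM : M⁻¹.1 * M.1 = 1 := by rw [← Units.val_mul, inv_mul_cancel, Units.val_one]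
  have h5 := congrArg Matrix.trace h3
  rw [Matrix.trace_smul, Matrix.trace_mul_comm, ← Matrix.mul_assoc, hMM, Matrix.one_mul,
    Matrix.trace_fin_two, Matrix.trace_fin_two, fS_coe, fS_coe, hA, smul_eq_mul] at h5
  have h6 : σ y = r * y := by
    have h7 : σ y + σ 0 = r * (y + 0) := h5
    rw [map_zero, add_zero, add_zero] at h7
    exact h7
  have h8 : (r - 1) * (r + 1) = 0 := by linear_combination hr
  rcases mul_eq_zero.1 h8 with h9 | h9
  · left
    rw [h6, sub_eq_zero.1 h9, one_mul]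
  · right
    rw [h6, eq_neg_of_add_eq_zero_left h9]
    ring

theorem pslm3_fix {F : Type} [Field F] (σ : F ≃+* F) (hσ : ∀ x, σ x = x) (s : PSL(2, F)) :
    fP σ s = s := by
  have h1 : σ = RingEquiv.refl F := RingEquiv.ext hσ
  rw [h1, fP_refl]

/-- The condition `inn` for the field automorphisms: only the trivial element acts as a field
automorphism. Proof. `pslm_fld` for a representative of `t` (`cjP_coe`), so `t` is central, and the
centre is trivial (`cjP_eq_one`: a representative is a scalar matrix, in the centre of `SL_2`). -/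
theorem pslm_inn {F : Type} [Field F] [Finite F] (t : PSL(2, F)) (σ : F ≃+* F)
    (h : ∀ s, t * s * t⁻¹ = fP σ s) : t = 1 := by
  obtain ⟨A, rfl⟩ := QuotientGroup.mk_surjective t
  have h1 : ∀ s : PSL(2, F), cjP (A : GL (Fin 2) F) s = fP σ s := fun s => by
    rw [cjP_coe]
    exact h s
  have h2 : ∀ s : PSL(2, F), cjP (A : GL (Fin 2) F) s = s := fun s => by
    rw [h1]
    exact pslm3_fix σ (pslm_fld _ σ h1) s
  obtain ⟨x, hx⟩ := cjP_eq_one (A : GL (Fin 2) F) (fun B _ => h2 _) (fun B _ => h2 _)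
  rw [QuotientGroup.eq_one_iff, psld_center]
  have hx' : A.1 = x • (1 : Matrix (Fin 2) (Fin 2) F) := hx
  rw [hx']
  simp

/-- No element acts as the twist times a field automorphism.

Proof. For a representative `A` of `t`: `cjP (g0⁻¹ * A) s = fP σ s`, so `σ = 1` on the elements of
`F` (`pslm_fld`), and `t` acts as `cjP (g0 ν)` (`fP σ s = s`: `fP_refl`), against `s0_inn` for
`K = ⊤`. -/
theorem pslm_inn2 {F : Type} [Field F] [Finite F] (ν : F) (hν : ν ≠ 0)
    (hns : ∀ y : F, y ^ 2 ≠ -ν) (t : PSL(2, F)) (σ : F ≃+* F)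
    (h : ∀ s, t * s * t⁻¹ = cjP (g0 ν hν) (fP σ s)) : False := by
  obtain ⟨A, rfl⟩ := QuotientGroup.mk_surjective t
  have h1 : ∀ s : PSL(2, F), cjP ((g0 ν hν)⁻¹ * (A : GL (Fin 2) F)) s = fP σ s := fun s => by
    rw [map_mul, MulAut.mul_apply, cjP_coe, h s, map_inv, MulAut.inv_apply_self]
  have h2 := pslm_fld _ σ h1
  refine s0_inn (⊤ : Subfield F) ν hν hns (QuotientGroup.mk A) fun s _ => ?_
  rw [h s, pslm3_fix σ h2]

theorem pslm3_fin (F : Type) [Field F] [Finite F] : Finite SL(2, F) ∧ Finite PSL(2, F) := by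
  have hf1 : Finite SL(2, F) := Finite.of_injective (fun A : SL(2, F) => A.1) Subtype.val_injective
  exact ⟨hf1, Finite.of_surjective _ QuotientGroup.mk_surjective⟩

theorem pslm3_perf {F : Type} [Field F] [Finite F] (hF : 4 ≤ Nat.card F) :
    Group.IsPerfect PSL(2, F) := by
  obtain ⟨x, hx⟩ : IsCyclic Fˣ := by infer_instance
  have h2 : (x : F) ^ 2 ≠ 1 := by
    intro h
    have h1 : x ^ 2 = 1 := Units.ext (by simpa using h)
    have h3 := orderOf_le_of_pow_eq_one (by norm_num : 0 < 2) h1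
    have h4 := orderOf_eq_card_of_forall_mem_zpowers hx
    have h5 := Nat.card_eq_card_units_add_one F
    omega
  have h3 : Group.IsPerfect SL(2, F) := ⟨SL2.commutator_eq_top (Units.ne_zero x) h2⟩
  exact Group.IsPerfect.ofSurjective
    (QuotientGroup.mk'_surjective (Subgroup.center SL(2, F)))

theorem pslm3_prf {F : Type} [Field F] [Finite F] (hF : 4 ≤ Nat.card F) :
    commutator (⊤ : Subgroup PSL(2, F)) = ⊤ := by
  have h := pslm3_perf hF
  exact (Group.IsPerfect.top_iff.2 h).commutator_eq_top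

theorem pslm3_nt {F : Type} [Field F] [Finite F] (hF : 4 ≤ Nat.card F) :
    Nontrivial PSL(2, F) := by
  have h5 : IsSimpleGroup PSL(2, F) := Matrix.ProjectiveSpecialLinearGroup.rank_two_simple hF
  infer_instance

theorem pslm3_nonab {F : Type} [Field F] [Finite F] (hF : 4 ≤ Nat.card F) :
    ∃ a b : PSL(2, F), a * b ≠ b * a := by
  by_contra hcon
  push Not at hcon
  have h1 := (pslm3_perf hF).commutator_eq_top
  have h3 : commutator PSL(2, F) = ⊥ := by
    rw [commutator_eq_bot_iff_center_eq_top, eq_top_iff]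
    intro a _
    rw [Subgroup.mem_center_iff]
    exact fun b => hcon b a
  rw [h1] at h3
  obtain ⟨x, y, hxy⟩ := (pslm3_nt hF).exists_pair_ne
  have h5 : ∀ z : PSL(2, F), z = 1 := by
    intro z
    have h6 : z ∈ (⊤ : Subgroup PSL(2, F)) := Subgroup.mem_top z
    rw [h3] at h6
    exact Subgroup.mem_bot.1 h6
  exact hxy ((h5 x).trans (h5 y).symm)

/-- The field has at most as many elements as the group. -/
theorem pslm3_card {F : Type} [Field F] [Finite F] (hF : 4 ≤ Nat.card F) :
    Nat.card F ≤ Nat.card PSL(2, F) := by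
  have := (pslm3_fin F).2
  refine sgt3_inj (QuotientGroup.mk' (Subgroup.center SL(2, F))) ?_
  have hnt := pslm3_nt hF
  obtain ⟨x, hx⟩ := exists_ne (1 : PSL(2, F))
  obtain ⟨A, hA⟩ := QuotientGroup.mk_surjective x
  exact ⟨A, fun h => hx (hA.symm.trans h)⟩

theorem pslm3_autfin (F : Type) [Field F] [Finite F] : Finite (F ≃+* F) :=
  Finite.of_injective (fun σ : F ≃+* F => (σ : F → F)) DFunLike.coe_injective

/-- The quotient map to the full subgroup. -/
def pslm3P (F : Type) [Field F] : SL(2, F) →* (⊤ : Subgroup PSL(2, F)) :=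
  (Subgroup.topEquiv (G := PSL(2, F))).symm.toMonoidHom.comp
    (QuotientGroup.mk' (Subgroup.center SL(2, F)))

theorem pslm3P_surj (F : Type) [Field F] : Function.Surjective (pslm3P F) := by
  rintro ⟨x, hx⟩
  obtain ⟨A, rfl⟩ := QuotientGroup.mk_surjective x
  exact ⟨A, rfl⟩

/-- An automorphism of the group as an automorphism of the full subgroup. -/
def pslm3A {T : Type} [Group T] (l : MulAut T) : MulAut (⊤ : Subgroup T) :=
  MulAut.congr (Subgroup.topEquiv (G := T)).symm l

theorem pslm3A_coe {T : Type} [Group T] (l : MulAut T) (s : (⊤ : Subgroup T)) :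
    ((pslm3A l s : (⊤ : Subgroup T)) : T) = l s := rfl

/-- The structure with the field automorphisms.

Proof. `prf`: `PSL_2` is perfect (`s0_perf` for `K = ⊤`, or `SL2Simple.PSL_commutator_eq_top` as in
Cor2.psl_nonab). `inn`: `pslm_inn`. `gen`: `gen_top`, `gen_mono`. `crd`: `lF F` injects into
`F ≃+* F` (a choice of `σ`), `sgt3_aut`, `sgt3_inj` for the quotient map. `typ`: `Λ = F ≃+* F`
(`Fintype.ofFinite`), `tgl_sl`, `tgl_map` for the quotient map (`fP_mk`) and then for the inverse of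
`Subgroup.topEquiv`. -/
theorem psl_sgF {F : Type} [Field F] [Finite F] (hF : 4 ≤ Nat.card F) :
    SG3 2 12 PSL(2, F) (⊤ : Subgroup PSL(2, F)) (lF F) := by
  have hf := (pslm3_fin F).2
  have hfa := pslm3_autfin F
  refine
    { prf := pslm3_prf hF
      inn := ?_
      stb := fun _ _ _ _ => Subgroup.mem_top _
      gen := gen_mono (by norm_num) gen_top
      crd := ?_
      typ := ?_ }
  · rintro t ⟨l, ⟨σ, hσ⟩, hl⟩ s _
    have ht : t = 1 := pslm_inn t σ fun s => (hl s).trans (hσ s)
    rw [ht, one_mul, mul_one]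
  · choose f hf' using fun l : lF F => l.2
    have h1 : Nat.card (lF F) ≤ Nat.card (F ≃+* F) := by
      refine Nat.card_le_card_of_injective f ?_
      intro l l' hll
      refine Subtype.ext (MulEquiv.ext fun s => ?_)
      rw [hf' l s, hf' l' s, hll]
    have h2 : Nat.card (F ≃+* F) ≤ Nat.card F := sgt3_aut
    have h3 := pslm3_card hF
    have h4 : 1 ≤ Nat.card PSL(2, F) := Nat.card_pos
    nlinarith
  · refine ⟨F ≃+* F, Fintype.ofFinite _, fun σ => pslm3A (fP σ), ?_, ?_⟩
    · exact tgl_map (tgl_sl hF) (pslm3P F) (pslm3P_surj F) fun σ A => rfl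
    · rintro l ⟨σ, hσ⟩
      refine ⟨σ, fun s => ?_⟩
      rw [pslm3A_coe, hσ]

/-- The structure with the twist.

Proof. `B = max 48 B'`, `B'` from `tgl_small 1000`. `prf`, `gen` as in `psl_sgF`, `inn`: `pslm_inn`,
`pslm_inn2`. `crd`: `lK` injects into `Bool × (F ≃+* F)`, and `2 * card F ≤ card T ^ 2`. `typ`: if
`card F ≥ 11` then `Λ = Bool × (F ≃+* F)`, `tgl_slt`, `tgl_map` as in `psl_sgF` (`cjP_mk`, `fP_mk`).
If `card F ≤ 10` then `card T ≤ 1000` (`sl_card_le`), `Λ = lK ..` and the inclusion, with `B'`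
(`PSL_2` is simple, `Matrix.ProjectiveSpecialLinearGroup.rank_two_simple`; not abelian,
`Cor2.psl_nonab`; copy its proof). -/
theorem psl_sgK : ∃ B : ℝ, 1 ≤ B ∧ ∀ (F : Type) [Field F] [Finite F], 4 ≤ Nat.card F →
    (2 : F) ≠ 0 → ∀ (K : Subfield F) (ν : F) (hν : ν ≠ 0) (hνK : ν ∈ K),
    (∀ y : F, y ^ 2 ≠ -ν) →
    SG3 2 B PSL(2, F) (⊤ : Subgroup PSL(2, F)) (lK K ν hν hνK) := by
  obtain ⟨B', hB'1, hB'⟩ := tgl_small 1000
  refine ⟨max 48 B', le_max_of_le_right hB'1, ?_⟩
  intro F _ _ hF h2 K ν hν hνK hns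
  have hfS := (pslm3_fin F).1
  have hf := (pslm3_fin F).2
  have hfa := pslm3_autfin F
  refine
    { prf := pslm3_prf hF
      inn := ?_
      stb := fun _ _ _ _ => Subgroup.mem_top _
      gen := gen_mono (by norm_num) gen_top
      crd := ?_
      typ := ?_ }
  · rintro t ⟨l, ⟨σ, -, hσ⟩, hl⟩ s _
    rcases hσ with hσ | hσ
    · have ht : t = 1 := pslm_inn t σ fun s => (hl s).trans (hσ s)
      rw [ht, one_mul, mul_one]
    · exact (pslm_inn2 ν hν hns t σ fun s => (hl s).trans (hσ s)).elim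
  · have h0 : ∀ l : lK K ν hν hνK, ∃ p : Bool × (F ≃+* F), ∀ s, l.1 s =
        if p.1 = true then cjP (g0 ν hν) (fP p.2 s) else fP p.2 s := by
      rintro ⟨l, σ, -, hσ | hσ⟩
      · exact ⟨(false, σ), fun s => by simpa using hσ s⟩
      · exact ⟨(true, σ), fun s => by simpa using hσ s⟩
    choose f hf' using h0
    have h1 : Nat.card (lK K ν hν hνK) ≤ Nat.card (Bool × (F ≃+* F)) := by
      refine Nat.card_le_card_of_injective f ?_
      intro l l' hll
      refine Subtype.ext (MulEquiv.ext fun s => ?_)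
      rw [hf' l s, hf' l' s, hll]
    rw [Nat.card_prod, Nat.card_eq_fintype_card (α := Bool), Fintype.card_bool] at h1
    have h2' : Nat.card (F ≃+* F) ≤ Nat.card F := sgt3_aut
    have h3 := pslm3_card hF
    nlinarith
  · by_cases hc : 11 ≤ Nat.card F
    · refine ⟨Bool × (F ≃+* F), Fintype.ofFinite _,
        fun p => pslm3A ((if p.1 = true then cjP (g0 ν hν) else 1) * fP p.2), ?_, ?_⟩
      · refine tgl_mono (le_max_left _ _) (tgl_map (tgl_slt h2 hc ν hν) (pslm3P F)
          (pslm3P_surj F) ?_)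
        rintro ⟨i, σ⟩ A
        cases i <;> rfl
      · rintro l ⟨σ, -, hσ | hσ⟩
        · refine ⟨(false, σ), fun s => ?_⟩
          rw [pslm3A_coe, hσ]
          rfl
        · refine ⟨(true, σ), fun s => ?_⟩
          rw [pslm3A_coe, hσ]
          rfl
    · have hT : Nat.card PSL(2, F) ≤ 1000 := by
        have e1 : Nat.card PSL(2, F) ≤ Nat.card SL(2, F) :=
          Nat.card_le_card_of_surjective _ QuotientGroup.mk_surjective
        have e2 := sl_card_le (F := F)
        have e3 : Nat.card F ^ 3 ≤ 10 ^ 3 := Nat.pow_le_pow_left (by omega) 3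
        omega
      have hs : IsSimpleGroup PSL(2, F) :=
        Matrix.ProjectiveSpecialLinearGroup.rank_two_simple hF
      have hfm : Finite (MulAut PSL(2, F)) := Finite.of_injective
        (fun f : MulAut PSL(2, F) => (f : PSL(2, F) → PSL(2, F))) DFunLike.coe_injective
      refine ⟨lK K ν hν hνK, Fintype.ofFinite _, fun l => pslm3A l.1, ?_, ?_⟩
      · have e4 := hB' PSL(2, F) (pslm3_nonab hF) hT (lK K ν hν hνK) (fun l => l.1)
          Subtype.val_injective
        exact tgl_mono (le_max_right _ _) (tgl_map e4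
          (Subgroup.topEquiv (G := PSL(2, F))).symm.toMonoidHom
          (Subgroup.topEquiv (G := PSL(2, F))).symm.surjective fun l t => rfl)
      · intro l hl
        exact ⟨⟨l, hl⟩, fun s => rfl⟩

end Pool.Agent.MPfe8e9bN
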