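import Mathlib
import Pool.Agent.Lib.MP_fe8e9b_al_N.Defs3
import Pool.Agent.Lib.MP_fe8e9b_al_N.PslA
import Pool.Agent.Lib.MP_fe8e9b_al_N.PslD
import Pool.Agent.Lib.MP_fe8e9b_al_N.PslE
import Pool.Agent.Lib.MP_fe8e9b_al_N.SGT3
import Pool.Agent.Lib.MP_fe8e9b_al_N.PslM3

/-!
# MP_fe8e9b_al, groups of bounded height: components of type `PSL_2`, third version
-/

set_option autoImplicit false

open scoped BigOperators MatrixGroups

namespace Pool.Agent.MPfe8e9bN

open Pool.Agent.MPfe8e9b Pool.Agent.MPfe8e9bM Pool.Agent.MPfe8e9bV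
open Matrix

/-- `S` is isomorphic to `PSL_2` of a field `F` with `q ≥ 4` elements, and the elements which
normalize `S` act on it as compositions of conjugations by matrices and field automorphisms, where
either all matrices have determinant one (`k = 0`), or the matrices are invertible and the field
automorphisms fix the elements of a subfield with `k` elements, over which `F` has odd degree. -/
def PslComp3 {G : Type} [Group G] (S : Subgroup G) (q k : ℕ) : Prop :=
  4 ≤ q ∧ ∃ (F : Type) (_ : Field F) (_ : Fintype F), Fintype.card F = q ∧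
    ∃ φ : S ≃* PSL(2, F),
      (k = 0 ∧ ∀ g : G, (∀ s, s ∈ S ↔ g * s * g⁻¹ ∈ S) → ∃ (M : SL(2, F)) (σ : F ≃+* F),
        ∀ s s' : S, (s' : G) = g * s * g⁻¹ → φ s' = cjP (M : GL (Fin 2) F) (fP σ (φ s))) ∨
      ∃ K : Subfield F, Nat.card K = k ∧ Odd (Module.finrank K F) ∧
        ∀ g : G, (∀ s, s ∈ S ↔ g * s * g⁻¹ ∈ S) → ∃ (M : GL (Fin 2) F) (σ : F ≃+* F),
          (∀ x ∈ K, σ x = x) ∧
          ∀ s s' : S, (s' : G) = g * s * g⁻¹ → φ s' = cjP M (fP σ (φ s))

/-- The action in the model. -/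
private theorem psle3_act {F F₀ : Type} [Field F] [Field F₀] {G : Type} [Group G]
    {S : Subgroup G} (φ : S ≃* PSL(2, F)) (σ₀ : F ≃+* F₀) (M : GL (Fin 2) F) (σ : F ≃+* F)
    (g : G) (h : ∀ s s' : S, (s' : G) = g * s * g⁻¹ → φ s' = cjP M (fP σ (φ s))) :
    ∀ s s' : S, (s' : G) = g * s * g⁻¹ → (φ.trans (fP σ₀)) s' =
      cjP (mG σ₀ M) (fP ((σ₀.symm.trans σ).trans σ₀) ((φ.trans (fP σ₀)) s)) := by
  intro s s' hs
  show fP σ₀ (φ s') = cjP (mG σ₀ M) (fP ((σ₀.symm.trans σ).trans σ₀) (fP σ₀ (φ s)))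
  rw [h s s' hs, fP_cjP, fP_trans, fP_trans]
  have h2 : σ₀.trans ((σ₀.symm.trans σ).trans σ₀) = σ.trans σ₀ := by
    ext x
    show σ₀ (σ (σ₀.symm (σ₀ x))) = σ₀ (σ x)
    rw [RingEquiv.symm_apply_apply]
  rw [h2]

/-- The determinant of the image of a matrix of determinant one. -/
private theorem psle3_det {F F₀ : Type} [Field F] [Field F₀] (σ₀ : F ≃+* F₀) (M : SL(2, F)) :
    (mG σ₀ (M : GL (Fin 2) F)).1.det = 1 ^ 2 := by
  have h1 : (mG σ₀ (M : GL (Fin 2) F)).1 = (fS σ₀ M).1 := rfl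
  rw [h1, (fS σ₀ M).2, one_pow]

/-- Finiteness of the model. -/
private theorem psle3_fin (F : Type) [Field F] [Finite F] : Finite PSL(2, F) := by
  have hf1 : Finite SL(2, F) :=
    Finite.of_injective (fun A : SL(2, F) => A.1) Subtype.val_injective
  exact Finite.of_surjective _ QuotientGroup.mk_surjective

/-- In characteristic two every matrix acts as an inner automorphism. -/
private theorem psle3_two {F : Type} [Field F] [Finite F] (h2 : (2 : F) = 0)
    (M : GL (Fin 2) F) : ∃ t : PSL(2, F), ∀ s, cjP M s = t * s * t⁻¹ := by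
  have hc : ringChar F = 2 := by
    have h3 : ringChar F ∣ 2 := (ringChar.spec F 2).1 (by exact_mod_cast h2)
    rcases (Nat.dvd_prime Nat.prime_two).1 h3 with h4 | h4
    · exact absurd h4 (CharP.ringChar_ne_one (R := F))
    · exact h4
  obtain ⟨x, hx⟩ := FiniteField.isSquare_of_char_two hc M.1.det
  exact cjP_sq M x (by rw [hx, pow_two])

/-- A subfield of a finite field has elements. -/
private theorem psle3_ne {F : Type} [Field F] [Finite F] (K : Subfield F) : Nat.card K ≠ 0 :=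
  Nat.card_pos.ne'

/-- The models of the components of type `PSL_2`.

Proof. `B` is the maximum of `12` and the constant of `psl_sgK`. If there is no field with `q`
elements, or `q < 4`, everything is trivial (`T = Unit`). `k = 0`: fix a field `F₀` with `q`
elements, `T = PSL(2, F₀)`, `L = lF F₀` (`psl_sgF`). `k ≠ 0`: if there are a field `F₀` with `q`
elements and a subfield `K₀` with `k` elements of odd degree fix them; if `2 = 0` in `F₀` then
`L = lF F₀`, otherwise `ν` from `s0_nonsq`, `L = lK K₀ ν`. For a component with `(F, K, φ)` take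
`σ₀` from `pair_iso` (or `FiniteField.ringEquivOfCardEq` for `k = 0`; a subfield has `k ≠ 0`
elements, so the two cases are exclusive) and `φ₀ = φ.trans (fP σ₀)`. If `g` acts by `M`, `σ` then
as in `psl_mod` (file PslE) `φ₀ s' = cjP (mG σ₀ M) (fP (σ₀⁻¹ σ σ₀) (φ₀ s))`. For `k = 0` and `M` in
`SL_2` the matrix `mG σ₀ M` has determinant one and acts as an inner automorphism (`cjP_sq` with `x = 1`),
`l = fP (σ₀⁻¹ σ σ₀)`. For `k ≠ 0`, `2 = 0`: every determinant is a square (`cjP_sq`,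
`FiniteField.isSquare_of_char_two`). For `k ≠ 0`, `2 ≠ 0`: `s0_split`. -/
theorem psl_mod3 : ∃ B : ℝ, 1 ≤ B ∧ ∀ q k : ℕ, ∃ (T : Type) (_ : Group T)
    (L : Subgroup (MulAut T)), ∀ (G : Type) [Group G] [Finite G] (S : Subgroup G),
    PslComp3 S q k → ∃ φ : S ≃* T, SG3 2 B T (⊤ : Subgroup T) L ∧
      ∀ g : G, (∀ s, s ∈ S ↔ g * s * g⁻¹ ∈ S) → ∃ t : T, ∃ l ∈ L,
        ∀ s s' : S, (s' : G) = g * s * g⁻¹ → φ s' = t * l (φ s) * t⁻¹ := by
  obtain ⟨B', hB', hsK⟩ := psl_sgK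
  refine ⟨max 12 B', le_max_of_le_right hB', fun q k => ?_⟩
  by_cases hq : 4 ≤ q
  swap
  · exact ⟨Unit, inferInstance, ⊥, fun G _ _ S hS => absurd hS.1 hq⟩
  by_cases hk : k = 0
  · by_cases hex : ∃ (F : Type) (_ : Field F) (_ : Fintype F), Fintype.card F = q
    · obtain ⟨F₀, _, _, hF₀⟩ := hex
      have hf2 : Finite PSL(2, F₀) := psle3_fin F₀
      have h4 : 4 ≤ Nat.card F₀ := by
        rw [Nat.card_eq_fintype_card, hF₀]
        exact hq
      refine ⟨PSL(2, F₀), inferInstance, lF F₀, fun G _ _ S hS => ?_⟩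
      obtain ⟨-, F, _, _, hF, φ, h⟩ := hS
      rcases h with ⟨-, h⟩ | ⟨K, hKk, -⟩
      · obtain ⟨σ₀, -⟩ : ∃ σ₀ : F ≃+* F₀, True :=
          ⟨FiniteField.ringEquivOfCardEq (hF.trans hF₀.symm), trivial⟩
        refine ⟨φ.trans (fP σ₀), sg3_mono le_rfl (le_max_left _ _) (psl_sgF h4),
          fun g hg => ?_⟩
        obtain ⟨M, σ, hMσ⟩ := h g hg
        have hact := psle3_act φ σ₀ (M : GL (Fin 2) F) σ g hMσ
        obtain ⟨t, ht⟩ := cjP_sq (mG σ₀ (M : GL (Fin 2) F)) 1 (psle3_det σ₀ M)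
        refine ⟨t, fP ((σ₀.symm.trans σ).trans σ₀), ⟨_, fun s => rfl⟩, fun s s' hs => ?_⟩
        rw [hact s s' hs, ht]
      · exact absurd (hKk.trans hk) (psle3_ne K)
    · refine ⟨Unit, inferInstance, ⊥, fun G _ _ S hS => ?_⟩
      exfalso
      obtain ⟨-, F, i1, i2, h1, -⟩ := hS
      exact hex ⟨F, i1, i2, h1⟩
  · by_cases hex : ∃ (F : Type) (_ : Field F) (_ : Fintype F) (K : Subfield F),
        Fintype.card F = q ∧ Nat.card K = k ∧ Odd (Module.finrank K F)
    · obtain ⟨F₀, _, _, K₀, hF₀, hK₀, hodd⟩ := hex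
      have hf2 : Finite PSL(2, F₀) := psle3_fin F₀
      have h4 : 4 ≤ Nat.card F₀ := by
        rw [Nat.card_eq_fintype_card, hF₀]
        exact hq
      -- the transport of a component
      have key : ∀ L : Subgroup (MulAut PSL(2, F₀)),
          SG3 2 (max 12 B') PSL(2, F₀) (⊤ : Subgroup PSL(2, F₀)) L →
          (∀ (M : GL (Fin 2) F₀) (σ : F₀ ≃+* F₀), (∀ x ∈ K₀, σ x = x) →
            ∃ t, ∃ l ∈ L, ∀ s, cjP M (fP σ s) = t * l s * t⁻¹) →
          ∀ (G : Type) [Group G] [Finite G] (S : Subgroup G),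
          PslComp3 S q k → ∃ φ : S ≃* PSL(2, F₀), SG3 2 (max 12 B') PSL(2, F₀)
            (⊤ : Subgroup PSL(2, F₀)) L ∧
            ∀ g : G, (∀ s, s ∈ S ↔ g * s * g⁻¹ ∈ S) → ∃ t, ∃ l ∈ L,
              ∀ s s' : S, (s' : G) = g * s * g⁻¹ → φ s' = t * l (φ s) * t⁻¹ := by
        intro L hL hLL G _ _ S hS
        obtain ⟨-, F, _, _, hF, φ, h⟩ := hS
        rcases h with ⟨hk0, -⟩ | ⟨K, hK, -, h⟩
        · exact absurd hk0 hk
        · obtain ⟨σ₀, hσ₀⟩ := pair_iso K K₀ (hF.trans hF₀.symm) (hK.trans hK₀.symm)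
          refine ⟨φ.trans (fP σ₀), hL, fun g hg => ?_⟩
          obtain ⟨M, σ, hσ, hMσ⟩ := h g hg
          have hfix : ∀ x ∈ K₀, ((σ₀.symm.trans σ).trans σ₀) x = x := by
            intro x hx
            have h1 : σ₀.symm x ∈ K := by
              rw [hσ₀, RingEquiv.apply_symm_apply]
              exact hx
            show σ₀ (σ (σ₀.symm x)) = x
            rw [hσ _ h1, RingEquiv.apply_symm_apply]
          have hact := psle3_act φ σ₀ M σ g hMσ
          obtain ⟨t, l, hl, ht⟩ := hLL (mG σ₀ M) ((σ₀.symm.trans σ).trans σ₀) hfix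
          refine ⟨t, l, hl, fun s s' hs => ?_⟩
          rw [hact s s' hs, ht]
      by_cases h2 : (2 : F₀) = 0
      · refine ⟨PSL(2, F₀), inferInstance, lF F₀, key (lF F₀)
          (sg3_mono le_rfl (le_max_left _ _) (psl_sgF h4)) fun M σ _ => ?_⟩
        obtain ⟨t, ht⟩ := psle3_two h2 M
        exact ⟨t, fP σ, ⟨σ, fun s => rfl⟩, fun s => ht _⟩
      · obtain ⟨ν, hν, hνK, hns⟩ := s0_nonsq h2 K₀ hodd
        refine ⟨PSL(2, F₀), inferInstance, lK K₀ ν hν hνK, key (lK K₀ ν hν hνK)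
          (sg3_mono le_rfl (le_max_right _ _) (hsK F₀ h4 h2 K₀ ν hν hνK hns))
          fun M σ hσ => ?_⟩
        obtain ⟨t, l, hl, ht⟩ := s0_split ν hν hns M
        refine ⟨t, l * fP σ, ⟨σ, hσ, ?_⟩, fun s => ht _⟩
        rcases hl with rfl | rfl
        · left
          intro s
          rw [one_mul]
        · right
          intro s
          rw [MulAut.mul_apply]
    · refine ⟨Unit, inferInstance, ⊥, fun G _ _ S hS => ?_⟩
      exfalso
      obtain ⟨-, F, i1, i2, h1, φ, h⟩ := hS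
      rcases h with ⟨hk0, -⟩ | ⟨K, hK, hodd, -⟩
      · exact hk hk0
      · exact hex ⟨F, i1, i2, K, h1, hK, hodd⟩

/-- Components of type `PSL_2` are products of one image of `SL_2`, and the orders.

Proof. As `psl_prod` (file PslE). -/
theorem psl_prod3 {G : Type} [Group G] (S : Subgroup G) (q k : ℕ) (h : PslComp3 S q k) (L : ℕ)
    (hL : 1 ≤ L) : 4 ≤ q ∧ k ≤ q ∧
    ∃ (F : Type) (_ : Field F) (_ : Fintype F), Fintype.card F = q ∧ SLProduct L 2 F S := by
  obtain ⟨hq, F, i1, i2, hF, φ, h⟩ := h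
  have hkq : k ≤ q := by
    rcases h with ⟨hk, -⟩ | ⟨K, hK, -⟩
    · rw [hk]
      exact Nat.zero_le q
    · rw [← hK, ← hF, ← Nat.card_eq_fintype_card]
      exact Nat.card_le_card_of_injective (Subtype.val : K → F) Subtype.val_injective
  refine ⟨hq, hkq, F, i1, i2, hF, ?_⟩
  obtain ⟨L', rfl⟩ : ∃ L', L = L' + 1 := ⟨L - 1, by omega⟩
  refine ⟨fun _ => φ.symm.toMonoidHom.comp (QuotientGroup.mk' (Subgroup.center SL(2, F))),
    fun g => ?_⟩
  obtain ⟨A, hA⟩ := QuotientGroup.mk_surjective (φ g)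
  refine ⟨Fin.cons A fun _ => 1, ?_⟩
  rw [List.ofFn_succ, List.prod_cons]
  have h1 : (List.ofFn fun j : Fin L' =>
      (φ.symm.toMonoidHom.comp (QuotientGroup.mk' (Subgroup.center SL(2, F))))
        ((Fin.cons A fun _ => 1 : Fin (L' + 1) → SL(2, F)) j.succ)).prod = 1 := by
    refine List.prod_eq_one fun y hy => ?_
    obtain ⟨j, rfl⟩ := List.mem_ofFn.1 hy
    rw [Fin.cons_succ, map_one]
  rw [h1, mul_one, Fin.cons_zero]
  show g = φ.symm (QuotientGroup.mk A)
  rw [hA, MulEquiv.symm_apply_apply]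

end Pool.Agent.MPfe8e9bN
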