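import Mathlib
import Pool.Agent.Lib.MP_fe8e9b_al_M.AltCor
import Pool.Agent.Lib.MP_fe8e9b_al_N.Defs
import Pool.Agent.Lib.MP_fe8e9b_al_N.PslE3
import Pool.Agent.Lib.MP_fe8e9b_al_N.AutP

/-!
# MP_fe8e9b_al, groups of bounded height: components without conditions
-/

set_option autoImplicit false

open scoped BigOperators MatrixGroups

namespace Pool.Agent.MPfe8e9bN

open Pool.Agent.MPfe8e9b Pool.Agent.MPfe8e9bM
open Matrix

/-- `T` is isomorphic to an alternating group of degree at least five and different from six, or to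
`PSL_2` of a field with at least four elements whose number of elements is even or an odd power of a
prime. -/
def Clean (T : Type) [Group T] : Prop :=
  (∃ n, 5 ≤ n ∧ n ≠ 6 ∧ Nonempty (T ≃* alternatingGroup (Fin n))) ∨
  ∃ (F : Type) (_ : Field F) (_ : Fintype F), 4 ≤ Fintype.card F ∧
    (Even (Fintype.card F) ∨ ∃ p f : ℕ, p.Prime ∧ Odd f ∧ Fintype.card F = p ^ f) ∧
    Nonempty (T ≃* PSL(2, F))

/-- The action of the elements which normalize `S`. -/
theorem cln3_act {G : Type} [Group G] (S : Subgroup G) {F : Type} [Field F] [Fintype F]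
    (φ : S ≃* PSL(2, F)) (g : G) (hg : ∀ s, s ∈ S ↔ g * s * g⁻¹ ∈ S) :
    ∃ (M : GL (Fin 2) F) (σ : F ≃+* F),
      ∀ s s' : S, (s' : G) = g * s * g⁻¹ → φ s' = cjP M (fP σ (φ s)) := by
  obtain ⟨M, σ, hσ⟩ := aut_psl ((φ.symm.trans (AltCor.cj S g hg)).trans φ)
  refine ⟨M, σ, fun s s' hs => ?_⟩
  have h1 := hσ (φ s)
  have h2 : ((φ.symm.trans (AltCor.cj S g hg)).trans φ) (φ s) = φ s' := by
    show φ (AltCor.cj S g hg (φ.symm (φ s))) = φ s'
    rw [φ.symm_apply_apply]
    exact congrArg φ (Subtype.ext hs.symm)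
  rw [h2] at h1
  exact h1

/-- In characteristic two every matrix acts as a matrix of determinant one. -/
theorem cln3_even {F : Type} [Field F] [Fintype F] (h : Even (Fintype.card F))
    (M : GL (Fin 2) F) : ∃ A : SL(2, F), ∀ s, cjP M s = cjP (A : GL (Fin 2) F) s := by
  have h2 : ringChar F = 2 := FiniteField.even_card_iff_char_two.2 (Nat.even_iff.1 h)
  obtain ⟨x, hx⟩ := FiniteField.isSquare_of_char_two h2 M.1.det
  obtain ⟨t, ht⟩ := cjP_sq M x (by rw [hx, pow_two])
  obtain ⟨A, rfl⟩ := QuotientGroup.mk_surjective t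
  exact ⟨A, fun s => (ht s).trans (cjP_coe A s).symm⟩

/-- Such subgroups are components of one of the two types.

Proof. As `Cor2.comp` (file Cor2). Alternating groups: `aut_alt` (as there). `PSL_2`, `card F` even:
`2 = 0` in `F`, the automorphism given by `g` is `cjP M` composed with `fP σ` (`aut_psl`), `det M`
is a square (`FiniteField.isSquare_of_char_two`), `cjP_sq` gives `t = mk A`, and `cjP A` is the
conjugation by `t` (`cjP_coe`), so `PslComp3 S q 0`. `card F = p ^ f` with `f` odd: the prime field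
`K` (`Cor2.pslComp`), `PslComp3 S q p`. -/
theorem clean_comp {G : Type} [Group G] (S : Subgroup G) (h : Clean S) :
    (∃ n, AltComp S n) ∨ ∃ q k, PslComp3 S q k := by
  rcases h with ⟨n, hn, h6, ⟨e⟩⟩ | ⟨F, _, _, h4, hF, ⟨φ⟩⟩
  · exact Or.inl ⟨n, AltCor.altComp S hn h6 e⟩
  · refine Or.inr ⟨Fintype.card F, ?_⟩
    rcases hF with hF | ⟨p, f, hp, hf, hF⟩
    · refine ⟨0, h4, F, inferInstance, inferInstance, rfl, φ, Or.inl ⟨rfl, fun g hg => ?_⟩⟩
      obtain ⟨M, σ, hσ⟩ := cln3_act S φ g hg
      obtain ⟨A, hA⟩ := cln3_even hF M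
      exact ⟨A, σ, fun s s' hs => (hσ s s' hs).trans (hA _)⟩
    · have hpf : Fact p.Prime := ⟨hp⟩
      have hch : CharP F p := charP_of_card_eq_prime_pow hF
      have hcard : Nat.card (⊥ : Subfield F) = p := Subfield.card_bot F p
      refine ⟨p, h4, F, inferInstance, inferInstance, rfl, φ, Or.inr ⟨⊥, hcard, ?_,
        fun g hg => ?_⟩⟩
      · have h1 : Fintype (⊥ : Subfield F) := Fintype.ofFinite _
        have h2 : Fintype.card F = Fintype.card (⊥ : Subfield F) ^
            Module.finrank (⊥ : Subfield F) F := Module.card_eq_pow_finrank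
        rw [← Nat.card_eq_fintype_card (α := (⊥ : Subfield F)), hcard, hF] at h2
        rw [← Nat.pow_right_injective hp.two_le h2]
        exact hf
      · obtain ⟨M, σ, hσ⟩ := cln3_act S φ g hg
        refine ⟨M, σ, fun x hx => ?_, hσ⟩
        have h1 : (⊥ : Subfield F) ≤ σ.toRingHom.eqLocusField (RingHom.id F) := bot_le
        exact h1 hx

end Pool.Agent.MPfe8e9bN
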