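import Mathlib
import Pool.Agent.Lib.MP_fe8e9b_al_M.Defs
import Pool.Agent.Lib.MP_fe8e9b_al_M.MnF
import Pool.Agent.Lib.MP_fe8e9b_al_M.Code
import Pool.Agent.Lib.MP_fe8e9b_al_M.LDat
import Pool.Agent.Lib.MP_fe8e9b_al_M.CmpD
import Pool.Agent.Lib.MP_fe8e9b_al_M.CmpB
import Pool.Agent.Lib.MP_fe8e9b_al_M.PsiX
import Pool.Agent.Lib.MP_fe8e9b_al_M.LdX
import Pool.Agent.Lib.MP_fe8e9b_al_M.MltX
import Pool.Agent.Lib.MP_fe8e9b_al_N.Defs
import Pool.Agent.Lib.MP_fe8e9b_al_N.LdX2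

/-!
# MP_fe8e9b_al, groups of bounded height: codes for the components, second version
-/

set_option autoImplicit false

open scoped BigOperators

namespace Pool.Agent.MPfe8e9bN

open Pool.Agent.MPfe8e9b Pool.Agent.MPfe8e9bA Pool.Agent.MPfe8e9bW Pool.Agent.MPfe8e9bV
open Pool.Agent.MPfe8e9bM

/-- The code for one type, mean over the whole group. -/
private theorem codX_code {G X : Type} [Group G] [Fintype G] [Finite X] {C : X → Subgroup G}
    {act : G →* Equiv.Perm X} (hC : Cmp C act) {L : ∀ x, Subgroup (MulAut (C x))}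
    (D : Crd C act L) (S0 : ∀ x, Subgroup (C x)) {c : ℕ}
    (hSG : ∀ x, SG2 c (C x) (S0 x) (L x)) (d : ℕ)
    (hd : ∃ T : Finset G, T.card ≤ d ∧ Subgroup.closure (T : Set G) = ⊤) (k : D.K) :
    ∃ L0 : D.Y k → Fin (64 * (Nat.card (D.T k) ^ ((1 + c) * d)) ^ 2),
      ∀ y y', y ≠ y' → mn (fun p : G => ind (L0 (D.ac k p y) = L0 (D.ac k p y'))) ≤ 3 / 4 := by
  classical
  have : Fintype (D.Y k) := Fintype.ofFinite _
  refine code (D.ac k) (Nat.card (D.T k) ^ ((1 + c) * d)) ?_ ?_ (by rw [Fintype.card_fin])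
  · exact Nat.one_le_pow _ _ Nat.card_pos
  · intro y
    refine (mlt_x hC D d hd k y).trans ?_
    refine Nat.pow_le_pow_left ?_ _
    rw [pow_mul]
    refine Nat.pow_le_pow_left ?_ _
    rw [pow_add, pow_one]
    exact Nat.mul_le_mul_left _ (hSG (D.rep k)).crd

private theorem codX_ms {Y T : Type} [One T] (d1 d2 : DecidableEq Y) (y : Y) (t : T) :
    @Pi.mulSingle Y (fun _ => T) (fun _ => inferInstance) d1 y t =
      @Pi.mulSingle Y (fun _ => T) (fun _ => inferInstance) d2 y t := by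
  rw [Subsingleton.elim d1 d2]

/-- Every element acts on the components as an element of the supplement. -/
private theorem codX_sub {G X : Type} [Group G] [Fintype G] [Finite X] {C : X → Subgroup G}
    {act : G →* Equiv.Perm X} (hC : Cmp C act) {L : ∀ x, Subgroup (MulAut (C x))}
    (D : Crd C act L) (S0 : ∀ x, Subgroup (C x)) {c : ℕ}
    (hSG : ∀ x, SG2 c (C x) (S0 x) (L x)) (k : D.K) (p : G) :
    ∃ q ∈ D.Hs, D.ac k q = D.ac k p := by
  classical
  have := D.fK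
  obtain ⟨Ψ, hΨ⟩ := psi_ex (fun k => D.Y k) (fun k => D.T k) D.ι (crd_comm hC D)
  have hld : LD2 c Ψ (fun k => S0 (D.rep k)) D.Hs := by
    refine ld_x2 hC D S0 hSG Ψ fun k y t => ?_
    rw [← hΨ k y t]
    refine congrArg (fun u : D.Y k → D.T k => Ψ (Pi.mulSingle k u)) ?_
    exact codX_ms _ _ y t
  obtain ⟨h, hh, n, hn, e⟩ := hld.cov p
  refine ⟨h, hh, ?_⟩
  rw [psi_range D.ι Ψ hΨ, crd_sup D] at hn
  have h1 : D.ac k n = 1 := by
    ext y
    change act n y.1 = y.1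
    rw [cmp_act hC n hn, Equiv.Perm.one_apply]
  rw [e, map_mul, h1, mul_one]

/-- Codes for the components.

Proof. `code` for `P = G`, `Y = D.Y k`, the action `D.ac k`, `B = Nat.card (D.T k) ^ ((1 + c) * d)`
(at least one), `S = Fin (64 * B ^ 2)`: the hypothesis is `mlt_x` and
`(card T * card L) ^ d ≤ (card T ^ (1 + c)) ^ d = B`. The mean over `G` is the mean over `D.Hs` by
`mn_sub_act`: for `g : G` there is `h ∈ D.Hs` with `D.ac k h = D.ac k g` (`ld_x2` `cov`: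
`g = h * n`, `n` in the range, acts trivially, `cmp_act`, `psi_range`, `crd_sup`; `Ψ` from
`psi_ex`). -/
theorem cod_x2 {G X : Type} [Group G] [Fintype G] [Finite X] {C : X → Subgroup G}
    {act : G →* Equiv.Perm X} (hC : Cmp C act) {L : ∀ x, Subgroup (MulAut (C x))}
    (D : Crd C act L) (S0 : ∀ x, Subgroup (C x)) {c : ℕ}
    (hSG : ∀ x, SG2 c (C x) (S0 x) (L x)) (d : ℕ)
    (hd : ∃ T : Finset G, T.card ≤ d ∧ Subgroup.closure (T : Set G) = ⊤) [Fintype D.Hs] :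
    ∃ lab : ∀ k, D.Y k → Fin (64 * (Nat.card (D.T k) ^ ((1 + c) * d)) ^ 2),
      ∀ k y y', y ≠ y' → mn (fun h : D.Hs =>
        ind (lab k (D.ac k h.1 y) = lab k (D.ac k h.1 y'))) ≤ 3 / 4 := by
  have hL : ∀ k : D.K, ∃ L0 : D.Y k → Fin (64 * (Nat.card (D.T k) ^ ((1 + c) * d)) ^ 2),
      ∀ y y', y ≠ y' → mn (fun p : G => ind (L0 (D.ac k p y) = L0 (D.ac k p y'))) ≤ 3 / 4 :=
    fun k => codX_code hC D S0 hSG d hd k
  choose lab hlab using hL
  refine ⟨lab, fun k y y' hne => ?_⟩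
  have h1 := mn_sub_act (D.ac k) D.Hs (codX_sub hC D S0 hSG k)
    (fun π : Equiv.Perm (D.Y k) => ind (lab k (π y) = lab k (π y')))
  rw [← h1]
  exact hlab k y y' hne

end Pool.Agent.MPfe8e9bN
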