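import Mathlib
import Pool.Agent.Lib.MP_fe8e9b_al_M.Defs
import Pool.Agent.Lib.MP_fe8e9b_al_M.LDat
import Pool.Agent.Lib.MP_fe8e9b_al_M.CmpD
import Pool.Agent.Lib.MP_fe8e9b_al_M.CmpB
import Pool.Agent.Lib.MP_fe8e9b_al_M.PsiX
import Pool.Agent.Lib.MP_fe8e9b_al_M.LdX
import Pool.Agent.Lib.MP_fe8e9b_al_N.Defs

/-!
# MP_fe8e9b_al, groups of bounded height: the data of a layer of components, second version
-/

set_option autoImplicit false

open scoped BigOperators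

namespace Pool.Agent.MPfe8e9bN

open Pool.Agent.MPfe8e9b Pool.Agent.MPfe8e9bA Pool.Agent.MPfe8e9bW Pool.Agent.MPfe8e9bV
open Pool.Agent.MPfe8e9bM

open Classical in
/-- The data of the layer.

Proof. `nml`: the range of `Ψ` is `⨆ x, C x` (`psi_range`, `crd_sup`), `cmp_normal`.
`cov`: for `g` take `t k y`, `l k y` from `D.cnj g k y`, `n = Ψ u` with
`u k (D.ac k g y) = t k y` (`u k y = t k ((D.ac k g)⁻¹ y)`). For the element `n⁻¹ * g`: by
`psi_inner` for `Ψ u⁻¹`, `n⁻¹ * (g * ι k y s * g⁻¹) * n = ι k (D.ac k g y) (l s)`, and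
`D.ac k (n⁻¹ * g) y = D.ac k g y` as `n` acts trivially (`cmp_act`). So `h = n⁻¹ * g ∈ D.Hs` and
`g = h * (h⁻¹ * n * h)`.
`cmA`: `a = Ψ w ∈ D.Hs`; for `k`, `y`: `D.ac k a y = y` (`cmp_act`), so
`ι k y (w k y * s * (w k y)⁻¹) = a * ι k y s * a⁻¹ = ι k y (l s)` with `l ∈ L`, so by `(hSG _).inn`
`w k y` commutes with the elements of `S0`, and `a` commutes with `ι k y s`, `s ∈ S0`; `u0` is a
product of such elements (`psi_conj` with `π = 1`, `l y = ` conjugation by `w k y`: the right side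
is the same function).
`nrm`: `h ∈ D.Hs`: choose `l y ∈ L` for `y : D.Y k`; `psi_conj`:
`h * u0 Ψ T0 k u * h⁻¹ = u0 Ψ T0 k (e u)`, `e u y = l (π⁻¹ y) (u (π⁻¹ y))`, `π = D.ac k h`, in `S0`
by `(hSG _).stb`; `e` is a bijection: its inverse is `u ↦ (y ↦ (l y)⁻¹ (u (π y)))`
(`(l y)⁻¹ ∈ L` as well).
`gen`: `(hSG _).gen`. -/
theorem ld_x2 {G X : Type} [Group G] [Finite X] {C : X → Subgroup G}
    {act : G →* Equiv.Perm X} (hC : Cmp C act) {L : ∀ x, Subgroup (MulAut (C x))}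
    (D : Crd C act L) (S0 : ∀ x, Subgroup (C x)) {c : ℕ}
    (hSG : ∀ x, SG2 c (C x) (S0 x) (L x)) (Ψ : (∀ k, D.Y k → D.T k) →* G)
    (hΨ : ∀ k y t, Ψ (Pi.mulSingle k (Pi.mulSingle y t)) = D.ι k y t) :
    LD2 c Ψ (fun k => S0 (D.rep k)) D.Hs := by
  have hfK : Fintype D.K := D.fK
  have hΨ' : ∀ (k : D.K) (y : D.Y k) (t : D.T k),
      Ψ (Pi.mulSingle k (@Pi.mulSingle (D.Y k) (fun _ => D.T k) _
        (fun a b => Classical.propDecidable (a = b)) y t)) = D.ι k y t := by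
    intro k y t
    rw [← hΨ k y t]
    congr 2
    exact congrArg (fun i => @Pi.mulSingle (D.Y k) (fun _ => D.T k) _ i y t)
      (Subsingleton.elim _ _)
  have hcm := crd_comm hC D
  have hR : Ψ.range = ⨆ x, C x := (psi_range D.ι Ψ hΨ').trans (crd_sup D)
  have hnor : Ψ.range.Normal := by
    rw [hR]
    exact cmp_normal hC
  have hac : ∀ n ∈ Ψ.range, ∀ k, D.ac k n = 1 := by
    intro n hn k
    have h1 : act n = 1 := cmp_act hC n (by rwa [← hR])
    ext y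
    show act n y.1 = y.1
    rw [h1, Equiv.Perm.one_apply]
  have hin := psi_inner D.ι hcm Ψ hΨ'
  refine ⟨hnor, fun g => ?_, fun a ha har k u => ?_, fun h hh k => ?_, ?_⟩
  · choose t l hl hg using D.cnj g
    obtain ⟨u, hu⟩ : ∃ u : ∀ k, D.Y k → D.T k, ∀ k y, u k y = t k ((D.ac k g)⁻¹ y) :=
      ⟨fun k y => t k ((D.ac k g)⁻¹ y), fun _ _ => rfl⟩
    have hn : Ψ u ∈ Ψ.range := ⟨u, rfl⟩
    refine ⟨(Ψ u)⁻¹ * g, fun k y => ⟨l k y, hl k y, fun s => ?_⟩,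
      ((Ψ u)⁻¹ * g)⁻¹ * Ψ u * ((Ψ u)⁻¹ * g), ?_, ?_⟩
    · have e1 : D.ac k ((Ψ u)⁻¹ * g) y = D.ac k g y := by
        rw [map_mul, hac _ (inv_mem hn) k, one_mul]
      have e2 : u k (D.ac k g y) = t k y := by
        rw [hu, ldx_ia]
      have e3 : g * D.ι k y s * g⁻¹ = D.ι k (D.ac k g y) (t k y * l k y s * (t k y)⁻¹) :=
        hg k y s
      have e4 := hin u⁻¹ k (D.ac k g y) (t k y * l k y s * (t k y)⁻¹)
      have e5 : (u⁻¹) k (D.ac k g y) = (t k y)⁻¹ := by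
        show (u k (D.ac k g y))⁻¹ = _
        rw [e2]
      rw [e5, map_inv, inv_inv, inv_inv] at e4
      have e6 : (t k y)⁻¹ * (t k y * l k y s * (t k y)⁻¹) * t k y = l k y s := by group
      rw [e6] at e4
      rw [e1, ← e4, ← e3]
      group
    · have h1 := hnor.conj_mem _ hn ((Ψ u)⁻¹ * g)⁻¹
      rwa [inv_inv] at h1
    · group
  · obtain ⟨w, rfl⟩ := har
    have h1 : ∀ (y : D.Y k) (s : D.T k), Ψ w * D.ι k y s * (Ψ w)⁻¹ =
        D.ι k ((1 : Equiv.Perm (D.Y k)) y) (MulAut.conj (w k y) s) := by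
      intro y s
      rw [Equiv.Perm.one_apply, MulAut.conj_apply]
      exact hin w k y s
    have h2 := psi_conj D.ι Ψ hΨ' (Ψ w) k 1 (fun y => MulAut.conj (w k y)) h1
      (fun y => (u y : D.T k))
    have h3 : (fun y : D.Y k => MulAut.conj (w k ((1 : Equiv.Perm (D.Y k))⁻¹ y))
        ((u ((1 : Equiv.Perm (D.Y k))⁻¹ y) : S0 (D.rep k)) : D.T k)) =
        fun y => (u y : D.T k) := by
      funext y
      rw [inv_one, Equiv.Perm.one_apply, MulAut.conj_apply]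
      obtain ⟨l, hl, hl'⟩ := ha k y
      have h4 : ∀ s, w k y * s * (w k y)⁻¹ = l s := by
        intro s
        apply D.inj k y
        have h5 := hl' s
        rw [hac _ ⟨w, rfl⟩ k, Equiv.Perm.one_apply] at h5
        rw [← h5]
        exact (hin w k y s).symm
      have h6 := (hSG (D.rep k)).inn (w k y) ⟨l, hl, h4⟩ (u y) (u y).2
      rw [h6, mul_inv_cancel_right]
    rw [h3] at h2
    exact mul_inv_eq_iff_eq_mul.1 h2
  · choose l hl hlh using hh k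
    have hst := (hSG (D.rep k)).stb
    refine ⟨⟨fun u y => ⟨l ((D.ac k h)⁻¹ y) (u ((D.ac k h)⁻¹ y)),
      hst _ (hl _) _ (u _).2⟩, fun u y => ⟨(l y)⁻¹ (u (D.ac k h y)),
      hst _ (inv_mem (hl _)) _ (u _).2⟩, fun u => ?_, fun u => ?_⟩, fun u => ?_⟩
    · funext y
      apply Subtype.ext
      show (l y)⁻¹ (l ((D.ac k h)⁻¹ (D.ac k h y))
        ((u ((D.ac k h)⁻¹ (D.ac k h y)) : S0 (D.rep k)) : D.T k)) = u y
      rw [ldx_ia, MulAut.inv_apply_self]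
    · funext y
      apply Subtype.ext
      show l ((D.ac k h)⁻¹ y) ((l ((D.ac k h)⁻¹ y))⁻¹
        ((u (D.ac k h ((D.ac k h)⁻¹ y)) : S0 (D.rep k)) : D.T k)) = u y
      rw [ldx_ai, MulAut.apply_inv_self]
    · exact psi_conj D.ι Ψ hΨ' h k (D.ac k h) l hlh (fun y => (u y : D.T k))
  · exact fun k => (hSG (D.rep k)).gen

end Pool.Agent.MPfe8e9bN
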