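import Mathlib
import Pool.Agent.Lib.MP_fe8e9b_al_N.Defs
import Pool.Agent.Lib.MP_fe8e9b_al_M.PairT

/-!
# MP_fe8e9b_al, groups of bounded height: twisted labels with a twisted gap
-/

set_option autoImplicit false

open scoped BigOperators

namespace Pool.Agent.MPfe8e9bN

open Pool.Agent.MPfe8e9b Pool.Agent.MPfe8e9bA Pool.Agent.MPfe8e9bW Pool.Agent.MPfe8e9bV
open Pool.Agent.MPfe8e9bM

/-- The displacement by a commutator with an element which fixes the vector. -/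
private theorem tws_cm {H V : Type} [Group H] [NormedAddCommGroup V] [InnerProductSpace ℂ V]
    (ρ : H →* (V ≃ₗᵢ[ℂ] V)) (a k : H) (v : V) (ha : ρ a v = v) :
    ‖ρ (cm a k) v - v‖ ≤ 2 * ‖ρ k v - v‖ := by
  have hm : ∀ x y : H, ∀ w : V, ρ (x * y) w = ρ x (ρ y w) := by
    intro x y w
    rw [map_mul]
    rfl
  have hinv : ∀ x : H, ∀ w : V, ρ x (ρ x⁻¹ w) = w := by
    intro x w
    rw [← hm, mul_inv_cancel, map_one]
    rfl
  have ha' : ρ a⁻¹ v = v := by
    have h := hinv a⁻¹ v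
    rw [inv_inv, ha] at h
    exact h
  have h1 : ‖ρ (cm a k) v - v‖ = ‖ρ k (ρ a⁻¹ (ρ k⁻¹ v)) - v‖ := by
    have h2 : ρ (cm a k) v - v = ρ a (ρ k (ρ a⁻¹ (ρ k⁻¹ v)) - v) := by
      rw [map_sub, ha, cm, hm, hm, hm]
    rw [h2, LinearIsometryEquiv.norm_map]
  have h3 : ‖ρ k (ρ a⁻¹ (ρ k⁻¹ v)) - v‖ ≤ ‖ρ a⁻¹ (ρ k⁻¹ v) - v‖ + ‖ρ k v - v‖ := by
    have h4 : ρ k (ρ a⁻¹ (ρ k⁻¹ v)) - v = ρ k (ρ a⁻¹ (ρ k⁻¹ v) - v) + (ρ k v - v) := by
      rw [map_sub]
      abel
    rw [h4]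
    refine (norm_add_le _ _).trans ?_
    rw [LinearIsometryEquiv.norm_map]
  have h5 : ‖ρ a⁻¹ (ρ k⁻¹ v) - v‖ = ‖ρ k⁻¹ v - v‖ := by
    have h6 : ρ a⁻¹ (ρ k⁻¹ v) - v = ρ a⁻¹ (ρ k⁻¹ v - v) := by
      rw [map_sub, ha']
    rw [h6, LinearIsometryEquiv.norm_map]
  have h7 : ‖ρ k⁻¹ v - v‖ = ‖ρ k v - v‖ := by
    have h8 : ρ k (ρ k⁻¹ v - v) = v - ρ k v := by
      rw [map_sub, hinv]
    rw [← LinearIsometryEquiv.norm_map (ρ k) (ρ k⁻¹ v - v), h8, norm_sub_rev]
  rw [h1]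
  linarith

private theorem tws_av {H V : Type} [Group H] [NormedAddCommGroup V] [InnerProductSpace ℂ V]
    (i1 i2 : Fintype H) (ρ : H →* (V ≃ₗᵢ[ℂ] V)) (v : V) :
    @av H _ i1 V _ _ ρ v = @av H _ i2 V _ _ ρ v := by
  rw [Subsingleton.elim i1 i2]

open Classical in
private theorem tws_tlf {Z T : Type} [Group T] (α : MulAut T) (c : Z → Bool) (R C : Finset Z)
    (h t : T) :
    cm (dl T R h) (tlf α c C (fun _ => ()) (fun _ => t)) =
      clf T (R ∩ C) c (fun s => cm h (if s = true then α t else t)) := by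
  funext y
  have hcm : ∀ a b : Z → T, cm a b y = cm (a y) (b y) := fun a b => rfl
  rw [hcm]
  have htl : tlf α c C (fun _ => ()) (fun _ => t) y =
      if y ∈ C then (if c y = true then α t else t) else 1 := rfl
  rw [htl]
  by_cases hR : y ∈ R
  · by_cases hC : y ∈ C
    · rw [dl_apply h hR, if_pos hC, clf_apply _ (Finset.mem_inter.2 ⟨hR, hC⟩)]
    · rw [if_neg hC, cm_one_right, clf_apply_out _ fun hh => hC (Finset.mem_inter.1 hh).2]
  · rw [dl_apply_out h hR, cm_one_left, clf_apply_out _ fun hh => hR (Finset.mem_inter.1 hh).1]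

open Classical in
/-- One site, twisted.

Proof. As `tw_site` (file M/PairS): `z = cm (dl T R h) k`, `k` the twisted constant
`tlf τ c C (fun _ => ()) (fun _ => t)`, is
`clf T (R ∩ C) c (fun s => cm h (if s then τ t else t))`, and it moves `v` by at most `2 D t`,
`D t = ‖ρ k v - v‖`. `TGap` for the representation `ρ.comp (clf T (R ∩ C) c)`
(`Al ρ (R ∩ C) c v = 0` is the hypothesis): `γ ‖v‖² ≤ mn_{h,t} ≤ 4 mn_t D t² =
8 (‖v‖² - ‖Tw v‖²)` (`mn_disp`; reindex `Unit → T` by `T`). -/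
theorem tws_site {T : Type} [Group T] [Fintype T] {τ : MulAut T} {γ : ℝ} (hγ : 0 < γ)
    (hg : TGap γ T τ) {Z : Type} {V : Type} [NormedAddCommGroup V] [InnerProductSpace ℂ V]
    [FiniteDimensional ℂ V] (ρ : (Z → T) →* (V ≃ₗᵢ[ℂ] V)) (c : Z → Bool) (R C : Finset Z)
    (v : V) (hR : Pc ρ R v = v) (h0 : Al ρ (R ∩ C) c v = 0) :
    ‖Tw ρ τ c C (fun _ => ()) v‖ ^ 2 ≤ (1 - γ / 8) * ‖v‖ ^ 2 := by
  obtain ⟨D, hD⟩ : ∃ D : T → ℝ, D = fun t =>
    ‖ρ (tlf τ c C (fun _ => ()) (fun _ => t)) v - v‖ := ⟨_, rfl⟩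
  have h1 : ∀ p : T × T, ‖(ρ.comp (clf T (R ∩ C) c)) (fun s => cm p.1
      (if s = true then τ p.2 else p.2)) v - v‖ ^ 2 ≤ 4 * D p.2 ^ 2 := by
    rintro ⟨h, t⟩
    change ‖ρ (clf T (R ∩ C) c (fun s => cm h (if s = true then τ t else t))) v - v‖ ^ 2 ≤ _
    rw [← tws_tlf]
    have h2 := tws_cm ρ (dl T R h) (tlf τ c C (fun _ => ()) (fun _ => t)) v
      ((pc_fix ρ R v).1 hR h)
    have h3 : ‖ρ (tlf τ c C (fun _ => ()) (fun _ => t)) v - v‖ = D t := by rw [hD]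
    rw [h3] at h2
    have h4 := pow_le_pow_left₀ (norm_nonneg _) h2 2
    refine h4.trans (le_of_eq ?_)
    ring
  have h4 : av (ρ.comp (clf T (R ∩ C) c)) v = 0 := (tws_av _ _ _ _).trans h0
  have h5 := hg V (ρ.comp (clf T (R ∩ C) c)) v h4
  have h6 : mn (fun p : T × T => 4 * D p.2 ^ 2) = 4 * mn (fun t => D t ^ 2) := by
    rw [mn_prod]
    show mn (fun _ : T => mn (fun t : T => 4 * D t ^ 2)) = _
    rw [mn_const, mn_mul_left]
  have h7 : mn (fun t => D t ^ 2) = 2 * (‖v‖ ^ 2 - ‖Tw ρ τ c C (fun _ => ()) v‖ ^ 2) := by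
    have h8 := mn_disp (ρ.comp (tlf τ c C (fun _ : Z => ()))) v
    have h9 := mn_equiv (Equiv.funUnique Unit T).symm
      (fun f : Unit → T => ‖(ρ.comp (tlf τ c C (fun _ : Z => ()))) f v - v‖ ^ 2)
    have h10 : av (ρ.comp (tlf τ c C (fun _ : Z => ()))) v = Tw ρ τ c C (fun _ => ()) v :=
      tws_av _ _ _ _
    rw [h8, h10] at h9
    rw [hD, ← h9]
    rfl
  have h11 := h5.trans ((mn_mono h1).trans (h6.trans (by rw [h7])).le)
  linarith

/-- The angle, twisted. Proof. As `tw_ang` (file M/PairT), with `tws_site`. -/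
theorem tws_ang {T : Type} [Group T] [Fintype T] {τ : MulAut T} {γ : ℝ} (hγ : 0 < γ)
    (hg : TGap γ T τ) {Z S1 S2 : Type} [Fintype Z] [Fintype S1] [Fintype S2] {V : Type}
    [NormedAddCommGroup V] [InnerProductSpace ℂ V] [FiniteDimensional ℂ V]
    (ρ : (Z → T) →* (V ≃ₗᵢ[ℂ] V)) (a : Z → S1) (b : Z → S2) (c : Z → Bool) (v : V)
    (hv : Al ρ Finset.univ a v = v)
    (h0 : Al ρ Finset.univ (fun y => (a y, b y, c y)) v = 0) :
    ‖Tw ρ τ c Finset.univ b v‖ ^ 2 ≤ (1 - γ / 8) * ‖v‖ ^ 2 := by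
  classical
  obtain ⟨site, hsite⟩ : ∃ site : S1 × S2 → Finset Z, ∀ s y, y ∈ site s ↔ (a y, b y) = s :=
    ⟨fun s => Finset.univ.filter (fun y => (a y, b y) = s), fun s y => by simp⟩
  obtain ⟨Ps, hPs⟩ : ∃ Ps : List (V →ₗ[ℂ] V), ∀ P, P ∈ Ps ↔ ∃ s, Al ρ (site s) c = P := by
    refine ⟨(Finset.univ : Finset (S1 × S2)).toList.map (fun s => Al ρ (site s) c), fun P => ?_⟩
    simp
  have hIs : ∀ P ∈ Ps, IsP P := by
    intro P hP
    obtain ⟨s, rfl⟩ := (hPs P).1 hP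
    exact al_isP ρ _ _
  have hPP : ∀ P ∈ Ps, ∀ P' ∈ Ps, ∀ v, P (P' v) = P' (P v) := by
    intro P hP P' hP' v
    obtain ⟨s, rfl⟩ := (hPs P).1 hP
    obtain ⟨s', rfl⟩ := (hPs P').1 hP'
    refine al_comm_al ρ _ _ c c (fun y hy y' hy' hl => ⟨?_, fun _ => hl⟩) v
    rw [hsite, hsite, (hsite s y).1 hy, (hsite s y').1 hy']
  refine tel (Tw ρ τ c Finset.univ b) (LinearMap.eqLocus (Al ρ Finset.univ a) LinearMap.id) Ps
    (fun P hP => ⟨hIs P hP, ?_, ?_⟩) hPP (1 - γ / 8) ?_ v ?_ ?_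
  · intro u
    obtain ⟨s, rfl⟩ := (hPs P).1 hP
    refine tw_al_comm ρ τ c Finset.univ b (site s) c (Finset.subset_univ _)
      (fun y hy y' hy' hl => ⟨hl, ?_⟩) u
    have h1 := (hsite s y).1 hy
    have h2 := (hsite s y').1 hy'
    exact congrArg Prod.snd (h1.trans h2.symm)
  · intro u hu
    obtain ⟨s, rfl⟩ := (hPs P).1 hP
    rw [LinearMap.mem_eqLocus, LinearMap.id_apply] at hu ⊢
    rw [← al_comm_al ρ (site s) Finset.univ c a (fun y hy y' hy' _ => ⟨by simp, fun _ => ?_⟩) u,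
      hu]
    have h1 := (hsite s y).1 hy
    have h2 := (hsite s y').1 hy'
    exact congrArg Prod.fst (h1.trans h2.symm)
  · intro P hP u hu h1
    obtain ⟨s, rfl⟩ := (hPs P).1 hP
    rw [LinearMap.mem_eqLocus, LinearMap.id_apply] at hu
    have hR := (al_part ρ Finset.univ a u).1 hu s.1
    have hRC : (Finset.univ.filter fun y => a y = s.1) ∩ (Finset.univ.filter fun y => b y = s.2) =
        site s := by
      ext y
      rw [hsite, Finset.mem_inter, Finset.mem_filter, Finset.mem_filter, Prod.ext_iff]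
      simp
    have h2 := tws_site hγ hg ρ c (Finset.univ.filter fun y => a y = s.1)
      (Finset.univ.filter fun y => b y = s.2) u hR (by rw [hRC]; exact h1)
    refine le_trans ?_ h2
    refine pow_le_pow_left₀ (norm_nonneg _) ?_ 2
    refine isP_le_norm (tw_isP ρ τ c _ _) (tw_isP ρ τ c _ _) (fun w hw => ?_) u
    rw [tw_fix] at hw ⊢
    intro f
    have h3 : tlf τ c (Finset.univ.filter fun y => b y = s.2) (fun _ => ()) f =
        tlf τ c Finset.univ b (fun t => if t = s.2 then f () else 1) := by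
      funext y
      rw [pairt_tlf_apply τ _ (Finset.mem_univ y)]
      by_cases hy : b y = s.2
      · rw [pairt_tlf_apply τ (y := y) f (Finset.mem_filter.2 ⟨Finset.mem_univ _, hy⟩), if_pos hy]
      · rw [pairt_tlf_out τ (y := y) f (fun h4 => hy (Finset.mem_filter.1 h4).2), if_neg hy,
          map_one, ite_self]
    rw [h3]
    exact hw _
  · rw [LinearMap.mem_eqLocus, LinearMap.id_apply]
    exact hv
  · have h1 := pairt_foldr_fix v Ps hIs hPP
    have h2 := pairt_foldr_comm (Al ρ Finset.univ (fun y => (a y, b y, c y))) v Ps (by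
      intro P hP u
      obtain ⟨s, rfl⟩ := (hPs P).1 hP
      refine al_comm_al ρ Finset.univ (site s) _ c (fun y _ y' _ hl => ⟨?_, fun _ => ?_⟩) u
      · have h3 : a y = a y' := congrArg Prod.fst hl
        have h4 : b y = b y' := congrArg (fun p : S1 × S2 × Bool => p.2.1) hl
        rw [hsite, hsite, h3, h4]
      · exact congrArg (fun p : S1 × S2 × Bool => p.2.2) hl)
    rw [h0, pairt_foldr_zero] at h2
    rw [← h2]
    refine ((al_part ρ Finset.univ (fun y => (a y, b y, c y)) _).2 fun s => ?_).symm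
    have h3 := h1 (Al ρ (site (s.1, s.2.1)) c) ((hPs _).2 ⟨_, rfl⟩)
    have h4 := (al_part ρ (site (s.1, s.2.1)) c _).1 h3 s.2.2
    have h5 : ∀ (X Y : Finset Z) (w : V), (∀ y, y ∈ X ↔ y ∈ Y) → Pc ρ Y w = w →
        Pc ρ X w = w := by
      intro X Y w h hw
      rw [Finset.ext h]
      exact hw
    refine h5 _ _ _ (fun y => ?_) h4
    simp [hsite, Prod.ext_iff, and_assoc]

/-- Joins, twisted. Proof. As `tw_join` (file M/PairT), with `tws_ang`;
`1 - √(1 - γ / 8) ≥ γ / 16`. -/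
theorem tws_join {T : Type} [Group T] [Fintype T] {τ : MulAut T} {γ : ℝ} (hγ : 0 < γ)
    (hγ1 : γ ≤ 1) (hg : TGap γ T τ) {Z S1 S2 : Type} [Fintype Z] [Fintype S1] [Fintype S2]
    {V : Type} [NormedAddCommGroup V] [InnerProductSpace ℂ V] [FiniteDimensional ℂ V]
    (ρ : (Z → T) →* (V ≃ₗᵢ[ℂ] V)) (a : Z → S1) (b : Z → S2) (c : Z → Bool) (v : V) :
    γ / 16 * ‖v - Al ρ Finset.univ (fun y => (a y, b y, c y)) v‖ ^ 2 ≤
      ‖v - Al ρ Finset.univ a v‖ ^ 2 + ‖v - Tw ρ τ c Finset.univ b v‖ ^ 2 := by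
  classical
  have hη0 : 0 ≤ Real.sqrt (1 - γ / 8) := Real.sqrt_nonneg _
  have hη2 : Real.sqrt (1 - γ / 8) ^ 2 = 1 - γ / 8 := Real.sq_sqrt (by linarith)
  have hη1 : Real.sqrt (1 - γ / 8) ≤ 1 - γ / 16 := by
    rw [Real.sqrt_le_left (by linarith)]
    nlinarith
  have hP := al_isP (G := T) ρ Finset.univ (fun y => (a y, b y, c y))
  have hPa := al_isP (G := T) ρ Finset.univ a
  have hPb := tw_isP ρ τ c Finset.univ b
  have hca := isP_le hPa hP (fun w hw => al_coarse ρ Finset.univ a (fun y => (a y, b y, c y))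
    (fun y _ y' _ h => congrArg Prod.fst h) w hw)
  have hcb := isP_le hPb hP (fun w hw => by
    rw [tw_fix]
    rw [al_fix] at hw
    intro f
    have h3 : tlf τ c Finset.univ b f = clf T Finset.univ (fun y => (a y, b y, c y))
        (fun s => if s.2.2 = true then τ (f s.2.1) else f s.2.1) := by
      funext y
      rw [pairt_tlf_apply τ _ (Finset.mem_univ y), clf_apply _ (Finset.mem_univ y)]
    rw [h3]
    exact hw _)
  obtain ⟨u, hu⟩ : ∃ u, u = v - Al ρ Finset.univ (fun y => (a y, b y, c y)) v := ⟨_, rfl⟩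
  have h0 : Al ρ Finset.univ (fun y => (a y, b y, c y)) u = 0 := by
    rw [hu, map_sub, hP.2, sub_self]
  have h1 : v - Al ρ Finset.univ a v = u - Al ρ Finset.univ a u := by
    rw [hu, map_sub, hca.1]
    abel
  have h2 : v - Tw ρ τ c Finset.univ b v = u - Tw ρ τ c Finset.univ b u := by
    rw [hu, map_sub, hcb.1]
    abel
  rw [h1, h2, ← hu]
  have h4 := two_proj hPa hPb hη0 u (by
    have h3 := tws_ang hγ hg ρ a b c (Al ρ Finset.univ a u) (hPa.2 u) (by rw [hca.2, h0])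
    refine (pow_le_pow_iff_left₀ (norm_nonneg _) (by positivity) two_ne_zero).1 ?_
    rw [mul_pow, hη2]
    exact h3)
  refine le_trans ?_ h4
  exact mul_le_mul_of_nonneg_right (by linarith) (by positivity)

end Pool.Agent.MPfe8e9bN
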