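import Mathlib
import Pool.Agent.Lib.MP_fe8e9b_al_N.Defs
import Pool.Agent.Lib.MP_fe8e9b_al_N.TwS
import Pool.Agent.Lib.MP_fe8e9b_al_M.ThmM3
import Pool.Agent.Lib.MP_fe8e9b_al_M.TypB

/-!
# MP_fe8e9b_al, groups of bounded height: one type, with a twisted gap
-/

set_option autoImplicit false

open scoped BigOperators

namespace Pool.Agent.MPfe8e9bN

open Pool.Agent.MPfe8e9b Pool.Agent.MPfe8e9bA Pool.Agent.MPfe8e9bW Pool.Agent.MPfe8e9bV
open Pool.Agent.MPfe8e9bM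

/-- One type, with a twist which has a twisted gap.

Proof. As `typ_b0` (file M/TypB), with `tws_join`: `κ₁` from `thmM3 (3 / 4)`,
`κ = κ₁ * γ / 32`. -/
theorem typ_c {γ : ℝ} (hγ : 0 < γ) (hγ1 : γ ≤ 1) : ∃ κ : ℝ, 0 < κ ∧ κ ≤ 1 ∧
    ∀ (T : Type) [Group T] [Fintype T], commutator T = ⊤ → ∀ τ : MulAut T, TGap γ T τ →
    ∀ (Y S H : Type) [Fintype Y] [Fintype S] [Group H] [Fintype H] (act : H →* Equiv.Perm Y)
      (c : H → Y → Bool) (lab : Y → S), (∀ y y', y ≠ y' →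
        mn (fun h => ind (lab (act h y) = lab (act h y'))) ≤ 3 / 4) →
    ∀ (V : Type) [NormedAddCommGroup V] [InnerProductSpace ℂ V] [FiniteDimensional ℂ V]
      (ρ : (Y → T) →* (V ≃ₗᵢ[ℂ] V)) (β : H →* (V ≃ₗᵢ[ℂ] V)),
      (∀ h u v, β h (ρ u v) =
        ρ (fun y => if c h y = true then τ (u ((act h)⁻¹ y)) else u ((act h)⁻¹ y)) (β h v)) →
      ∀ x : V, (∀ h, β h x = x) →
      κ * ‖x - Al ρ Finset.univ (fun y : Y => y) x‖ ^ 2 ≤
        ‖x - Al ρ Finset.univ lab x‖ ^ 2 := by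
  obtain ⟨κ₁, hκ₁, hκ₁', h1⟩ := thmM3 (3 / 4) (by norm_num)
  refine ⟨κ₁ * γ / 32, by positivity, ?_, ?_⟩
  · have h3 : κ₁ * γ ≤ 1 := mul_le_one₀ hκ₁' hγ.le hγ1
    linarith
  intro T _ _ hT τ hg Y S H _ _ _ _ act c lab hlab V _ _ _ ρ β hβ x hx
  have h3 : ∀ y y' : Y, y ≠ y' →
      ag (fun (h : H) (z : Y) => (lab z, lab ((act h)⁻¹ z), c h z)) y y' ≤ 3 / 4 := by
    intro y y' hy
    unfold ag
    have h4 : mn (fun h : H => ind (lab ((act h)⁻¹ y) = lab ((act h)⁻¹ y'))) ≤ 3 / 4 := by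
      have h5 := mn_inv (fun h : H => ind (lab (act h y) = lab (act h y')))
      have h6 : (fun p : H => ind (lab (act p⁻¹ y) = lab (act p⁻¹ y'))) =
          fun h : H => ind (lab ((act h)⁻¹ y) = lab ((act h)⁻¹ y')) := by
        funext p
        rw [map_inv]
      rw [← h6]
      rw [h5]
      exact hlab y y' hy
    refine (mn_mono fun h => ?_).trans h4
    refine ind_mono fun hh => ?_
    have h7 := congrArg (fun s : S × S × Bool => s.2.1) hh
    exact h7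
  have h4 := h1 T hT Y (S × S × Bool) H
    (fun (h : H) (z : Y) => (lab z, lab ((act h)⁻¹ z), c h z)) h3 V ρ x
  have h5 : ∀ h : H, γ / 16 * ‖x - Al ρ Finset.univ
      (fun z => (lab z, lab ((act h)⁻¹ z), c h z)) x‖ ^ 2 ≤
        2 * ‖x - Al ρ Finset.univ lab x‖ ^ 2 := by
    intro h
    have h6 := tws_join hγ hγ1 hg ρ lab (fun z => lab ((act h)⁻¹ z)) (c h) x
    rw [typb_conj τ c act lab ρ β hβ x hx h] at h6
    have h7 : ‖x - β h (Al ρ Finset.univ lab x)‖ = ‖x - Al ρ Finset.univ lab x‖ := by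
      have h8 : x - β h (Al ρ Finset.univ lab x) = β h (x - Al ρ Finset.univ lab x) := by
        rw [map_sub, hx]
      rw [h8, LinearIsometryEquiv.norm_map]
    rw [h7] at h6
    linarith
  have h6 := mn_mono h5
  rw [mn_mul_left, mn_const] at h6
  have h7 : γ / 16 * (κ₁ * ‖x - Al ρ Finset.univ (fun y : Y => y) x‖ ^ 2) ≤
      γ / 16 * mn (fun h : H => ‖x - Al ρ Finset.univ
        (fun z => (lab z, lab ((act h)⁻¹ z), c h z)) x‖ ^ 2) :=
    mul_le_mul_of_nonneg_left h4 (by positivity)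
  have h8 := h7.trans h6
  nlinarith

end Pool.Agent.MPfe8e9bN
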