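import Mathlib
import Pool.Agent.Lib.MP_fe8e9b_al_M.Defs
import Pool.Agent.Lib.MP_fe8e9b_al_M.LemS
import Pool.Agent.Lib.MP_fe8e9b_al_M.LDat
import Pool.Agent.Lib.MP_fe8e9b_al_M.TypA
import Pool.Agent.Lib.MP_fe8e9b_al_M.CmpD
import Pool.Agent.Lib.MP_fe8e9b_al_M.CmpB
import Pool.Agent.Lib.MP_fe8e9b_al_M.PsiX
import Pool.Agent.Lib.MP_fe8e9b_al_N.Defs
import Pool.Agent.Lib.MP_fe8e9b_al_N.LdX2
import Pool.Agent.Lib.MP_fe8e9b_al_N.TypC
import Pool.Agent.Lib.MP_fe8e9b_al_N.CVG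

/-!
# MP_fe8e9b_al, groups of bounded height: the estimates for the types, second version
-/

set_option autoImplicit false

open scoped BigOperators

namespace Pool.Agent.MPfe8e9bN

open Pool.Agent.MPfe8e9b Pool.Agent.MPfe8e9bA Pool.Agent.MPfe8e9bW Pool.Agent.MPfe8e9bV
open Pool.Agent.MPfe8e9bM

open Classical in
/-- The estimates for the types.

Proof. `κ` is the minimum of the constants of `typ_a` and of `typ_c` for `γ = 1 / (32 * c ^ 3)`
(`tg_of_cv`). For a type `k` and a vector `x` fixed by `ad G h`, `h ∈ D.Hs`: the representation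
`ρ' = (lm G).comp (u0 Ψ T0 k)` of `D.Y k → T0 k` and `β = (ad G).comp D.Hs.subtype`, the action
`(D.ac k).comp D.Hs.subtype`. By `ad_lm` and `psi_conj`, with `l y ∈ L` from `h ∈ D.Hs`:
`β h (ρ' u v) = lm G (h * u0 u * h⁻¹) (β h v)`, and
`h * u0 u * h⁻¹ = u0 (y ↦ l (π⁻¹ y) (u (π⁻¹ y)))`. First case of `(hSG _).typ`: `l` fixes the
elements of `S0`, `typ_a`. Second case: `typ_c` with `τ`, and `c h y = true` if and only if the
chosen `l (π⁻¹ y)` does not fix all elements of `S0`. -/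
theorem est_x2 (c : ℕ) : ∃ κ : ℝ, 0 < κ ∧ κ ≤ 1 ∧ ∀ (G X : Type) [Group G] [Fintype G] [Finite X]
    (C : X → Subgroup G) (act : G →* Equiv.Perm X) (_ : Cmp C act)
    (L : ∀ x, Subgroup (MulAut (C x))) (D : Crd C act L) (S0 : ∀ x, Subgroup (C x))
    (_ : ∀ x, SG2 c (C x) (S0 x) (L x)) (Ψ : (∀ k, D.Y k → D.T k) →* G)
    (_ : ∀ k y t, Ψ (Pi.mulSingle k (Pi.mulSingle y t)) = D.ι k y t)
    [∀ k, Fintype (D.Y k)] [∀ k, Fintype (S0 (D.rep k))] [Fintype D.Hs] (S : D.K → Type)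
    [∀ k, Fintype (S k)] (lab : ∀ k, D.Y k → S k)
    (_ : ∀ k y y', y ≠ y' → mn (fun h : D.Hs =>
      ind (lab k (D.ac k h.1 y) = lab k (D.ac k h.1 y'))) ≤ 3 / 4),
    Est Ψ (fun k => S0 (D.rep k)) D.Hs lab κ := by
  obtain ⟨κ₁, hκ₁, hκ₁', h1⟩ := typ_a
  obtain ⟨γ, hγ⟩ : ∃ γ : ℝ, γ = 1 / (32 * ((c + 1 : ℕ) : ℝ) ^ 3) := ⟨_, rfl⟩
  have hγ0 : 0 < γ := by
    rw [hγ]
    positivity
  have hγ1 : γ ≤ 1 := by
    rw [hγ, div_le_one (by positivity)]
    have h2 : (1 : ℝ) ≤ ((c + 1 : ℕ) : ℝ) := by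
      exact_mod_cast Nat.succ_le_succ (Nat.zero_le c)
    have h3 : (1 : ℝ) ≤ ((c + 1 : ℕ) : ℝ) ^ 3 := one_le_pow₀ h2
    linarith
  obtain ⟨κ₂, hκ₂, hκ₂', h2⟩ := typ_c hγ0 hγ1
  refine ⟨min κ₁ κ₂, lt_min hκ₁ hκ₂, (min_le_left _ _).trans hκ₁', ?_⟩
  intro G X _ _ _ C act hC L D S0 hSG Ψ hΨ _ _ _ S _ lab hlab k x hx
  have hfK : Fintype D.K := D.fK
  have hΨ' : ∀ (k : D.K) (y : D.Y k) (t : D.T k),
      Ψ (Pi.mulSingle k (@Pi.mulSingle (D.Y k) (fun _ => D.T k) _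
        (fun a b => Classical.propDecidable (a = b)) y t)) = D.ι k y t := by
    intro k y t
    rw [← hΨ k y t]
    congr 2
    exact congrArg (fun i => @Pi.mulSingle (D.Y k) (fun _ => D.T k) _ i y t)
      (Subsingleton.elim _ _)
  -- the action of the supplement
  have hch : ∀ (h : D.Hs) (y : D.Y k), ∃ l ∈ L (D.rep k),
      ∀ s, h.1 * D.ι k y s * h.1⁻¹ = D.ι k (D.ac k h.1 y) (l s) := fun h y => h.2 k y
  choose l hl hlh using hch
  have hconj : ∀ (h : D.Hs) (u : D.Y k → S0 (D.rep k)) (w : EuclideanSpace ℂ (G × G))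
      (u' : D.Y k → S0 (D.rep k)), (∀ y, ((u' y : S0 (D.rep k)) : D.T k) =
        l h ((D.ac k h.1)⁻¹ y) (u ((D.ac k h.1)⁻¹ y) : D.T k)) →
      ad G h.1 (lm G (u0 Ψ (fun k => S0 (D.rep k)) k u) w) =
        lm G (u0 Ψ (fun k => S0 (D.rep k)) k u') (ad G h.1 w) := by
    intro h u w u' hu'
    rw [ad_lm]
    congr 2
    have h4 := psi_conj D.ι Ψ hΨ' h.1 k (D.ac k h.1) (l h) (hlh h) (fun y => (u y : D.T k))
    refine h4.trans ?_
    show Ψ (Pi.mulSingle k _) = Ψ (Pi.mulSingle k _)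
    congr 2
    funext y
    exact (hu' y).symm
  have hβx : ∀ h : D.Hs, ((ad G).comp D.Hs.subtype) h x = x := fun h => hx h.1 h.2
  have hlab' : ∀ y y' : D.Y k, y ≠ y' → mn (fun h : D.Hs =>
      ind (lab k (((D.ac k).comp D.Hs.subtype) h y) =
        lab k (((D.ac k).comp D.Hs.subtype) h y'))) ≤ 3 / 4 := fun y y' hy => hlab k y y' hy
  set R := ‖x - Al ((lm G).comp (u0 Ψ (fun k => S0 (D.rep k)) k)) Finset.univ
    (fun y : D.Y k => y) x‖ ^ 2 with hR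
  have hR0 : 0 ≤ R := sq_nonneg _
  rcases (hSG (D.rep k)).typ with h4 | ⟨τ, hcv, hτ⟩
  · have h5 := h1 (S0 (D.rep k)) (hSG (D.rep k)).prf (D.Y k) (S k) D.Hs
      ((D.ac k).comp D.Hs.subtype) (lab k) hlab' (EuclideanSpace ℂ (G × G))
      ((lm G).comp (u0 Ψ (fun k => S0 (D.rep k)) k)) ((ad G).comp D.Hs.subtype)
      (fun h u v => hconj h u v _ fun y => (h4 _ (hl h _) _ (u _).2).symm) x hβx
    exact (mul_le_mul_of_nonneg_right (min_le_left _ _) hR0).trans h5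
  · have hcv' : CV (c + 1) (S0 (D.rep k)) τ := by
      refine hcv.trans ((Nat.mul_le_mul_right _ (Nat.le_succ c)).trans
        (Nat.mul_le_mul_left _ ?_))
      refine Nat.card_le_card_of_injective
        (fun t : {t : S0 (D.rep k) // Cov c (cm t (τ t))} =>
          (⟨t.1, fun x => ?_⟩ : {t : S0 (D.rep k) // Cov (c + 1) (cm t (τ t))})) ?_
      · obtain ⟨l', h6, h7⟩ := t.2 x
        exact ⟨l', h6.trans (Nat.le_succ c), h7⟩
      · intro a b hab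
        exact Subtype.ext (Subtype.mk.inj hab)
    have hg : TGap γ (S0 (D.rep k)) τ := by
      rw [hγ]
      exact tg_of_cv hcv'
    refine (mul_le_mul_of_nonneg_right (min_le_right _ _) hR0).trans ?_
    refine h2 (S0 (D.rep k)) (hSG (D.rep k)).prf τ hg (D.Y k) (S k) D.Hs
      ((D.ac k).comp D.Hs.subtype)
      (fun h y => decide (¬ ∀ s : S0 (D.rep k), l h ((D.ac k h.1)⁻¹ y) (s : D.T k) = s))
      (lab k) hlab' (EuclideanSpace ℂ (G × G)) _ ((ad G).comp D.Hs.subtype) ?_ x hβx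
    intro h u v
    refine hconj h u v _ fun y => ?_
    show ((if decide (¬ ∀ s : S0 (D.rep k), l h ((D.ac k h.1)⁻¹ y) (s : D.T k) = s) = true
      then τ (u ((D.ac k h.1)⁻¹ y)) else u ((D.ac k h.1)⁻¹ y) : S0 (D.rep k)) : D.T k) = _
    by_cases hc : ∀ s : S0 (D.rep k), l h ((D.ac k h.1)⁻¹ y) (s : D.T k) = s
    · rw [if_neg (by simpa using hc)]
      exact (hc _).symm
    · rw [if_pos (by simpa using hc)]
      rcases hτ _ (hl h ((D.ac k h.1)⁻¹ y)) with h5 | h5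
      · exact absurd h5 hc
      · exact (h5 _).symm

end Pool.Agent.MPfe8e9bN
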