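import Mathlib
import Pool.Agent.Lib.MP_fe8e9b_al_N.Defs
import Pool.Agent.Lib.MP_fe8e9b_al_V.Irr
import Pool.Agent.Lib.MP_fe8e9b_al_M.PrB

/-!
# MP_fe8e9b_al, groups of bounded height: invariants of a subgroup
-/

set_option autoImplicit false

open scoped BigOperators

namespace Pool.Agent.MPfe8e9bN

open Pool.Agent.MPfe8e9b Pool.Agent.MPfe8e9bA Pool.Agent.MPfe8e9bW Pool.Agent.MPfe8e9bV
open Pool.Agent.MPfe8e9bM

private theorem diml_int {V : Type} [NormedAddCommGroup V] [InnerProductSpace ℂ V]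
    [FiniteDimensional ℂ V] (U : Submodule ℂ V) {J : Type} (W : J → Submodule ℂ V) (d : ℕ)
    (hW : ∀ j, W j ≤ U) (hd : ∀ j, Module.finrank ℂ (W j) = d) (s : Finset J) :
    Module.finrank ℂ U ≤ s.card * (Module.finrank ℂ U - d) +
      Module.finrank ℂ (U ⊓ s.inf W : Submodule ℂ V) := by
  classical
  induction s using Finset.induction_on with
  | empty =>
    rw [Finset.inf_empty, inf_top_eq]
    omega
  | insert a s ha ih =>
    rw [Finset.card_insert_of_notMem ha, Finset.inf_insert]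
    have h1 := Submodule.finrank_sup_add_finrank_inf_eq (U ⊓ s.inf W) (W a)
    have h2 : Module.finrank ℂ ((U ⊓ s.inf W) ⊔ W a : Submodule ℂ V) ≤ Module.finrank ℂ U :=
      Submodule.finrank_mono (sup_le inf_le_left (hW a))
    have h3 : (U ⊓ (W a ⊓ s.inf W) : Submodule ℂ V) = (U ⊓ s.inf W) ⊓ W a := by
      rw [inf_comm (W a), inf_assoc]
    have h4 := hd a
    have h5 : Module.finrank ℂ (W a) ≤ Module.finrank ℂ U := Submodule.finrank_mono (hW a)
    rw [h3, add_mul, one_mul]
    omega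

/-- Dimensions. Let `U` be a finite-dimensional invariant subspace without `T`-invariants, and `T`
generated by `c` conjugates of `S0`. Then `c * (dim U - dim U^{S0}) ≥ dim U`.

Proof. The invariants of `h j * S0 * (h j)⁻¹` in `U` are `ρ (h j)` applied to `W = U^{S0}`, of the
same dimension. The intersection over `j` is zero (the stabilizer of a vector in it is a subgroup
containing all the conjugates, so it is `⊤`). The codimension of an intersection is at most the sum
of the codimensions (induction on the number of subspaces,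
`Submodule.finrank_sup_add_finrank_inf_eq`). -/
theorem diml_dim {T : Type} [Group T] {S0 : Subgroup T} {c : ℕ} (hg : GenC c T S0) {V : Type}
    [NormedAddCommGroup V] [InnerProductSpace ℂ V] [FiniteDimensional ℂ V]
    (ρ : T →* (V ≃ₗᵢ[ℂ] V)) (U : Submodule ℂ V) (hU : InvS ρ U)
    (h0 : ∀ x ∈ U, (∀ t, ρ t x = x) → x = 0) (W : Submodule ℂ V)
    (hW : ∀ x, x ∈ W ↔ x ∈ U ∧ ∀ s ∈ S0, ρ s x = x) :
    Module.finrank ℂ U ≤ c * (Module.finrank ℂ U - Module.finrank ℂ W) := by
  obtain ⟨h, hh⟩ := hg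
  have h1 := diml_int U (fun j : Fin c => W.map (ρ (h j)).toLinearEquiv.toLinearMap)
    (Module.finrank ℂ W) (fun j => ?_) (fun j => ?_) Finset.univ
  · have h2 : (U ⊓ Finset.univ.inf
        (fun j : Fin c => W.map (ρ (h j)).toLinearEquiv.toLinearMap) : Submodule ℂ V) = ⊥ := by
      rw [eq_bot_iff]
      rintro x ⟨hxU, hx⟩
      rw [Submodule.mem_bot]
      refine h0 x hxU ?_
      let R : Subgroup T :=
        { carrier := {t | ρ t x = x}
          mul_mem' := fun {a b} ha hb => by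
            show ρ (a * b) x = x
            rw [map_mul]
            show ρ a (ρ b x) = x
            rw [show ρ b x = x from hb, show ρ a x = x from ha]
          one_mem' := by
            show ρ 1 x = x
            rw [map_one]
            rfl
          inv_mem' := fun {a} ha => by
            show ρ a⁻¹ x = x
            have ha' : ρ a x = x := ha
            have h3 : ρ a⁻¹ (ρ a x) = (ρ (a⁻¹ * a)) x := by
              rw [map_mul]
              rfl
            rw [ha', inv_mul_cancel, map_one] at h3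
            exact h3 }
      have hR : R = ⊤ := by
        refine hh R fun j s hs => ?_
        have hxj : x ∈ W.map (ρ (h j)).toLinearEquiv.toLinearMap :=
          (Finset.inf_le (f := fun j : Fin c => W.map (ρ (h j)).toLinearEquiv.toLinearMap)
            (Finset.mem_univ j)) hx
        obtain ⟨w, hw, hwx⟩ := hxj
        have hwx' : ρ (h j) w = x := hwx
        show ρ (h j * s * (h j)⁻¹) x = x
        rw [← hwx']
        have h3 : ρ (h j * s * (h j)⁻¹) (ρ (h j) w) = ρ (h j) (ρ s w) := by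
          have h4 : ρ (h j * s * (h j)⁻¹) (ρ (h j) w) = ρ (h j * s * (h j)⁻¹ * h j) w := by
            rw [map_mul ρ (h j * s * (h j)⁻¹) (h j)]
            rfl
          rw [h4, inv_mul_cancel_right, map_mul]
          rfl
        rw [h3, ((hW w).1 hw).2 s hs]
      intro t
      have ht : t ∈ R := by
        rw [hR]
        trivial
      exact ht
    rw [h2, finrank_bot, Finset.card_univ, Fintype.card_fin, add_zero] at h1
    exact h1
  · rintro _ ⟨w, hw, rfl⟩
    exact hU (h j) w ((hW w).1 hw).1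
  · exact LinearEquiv.finrank_map_eq (ρ (h j)).toLinearEquiv W

private theorem diml_isP {H : Type} [Group H] [Fintype H] {V : Type} [NormedAddCommGroup V]
    [InnerProductSpace ℂ V] (ρ : H →* (V ≃ₗᵢ[ℂ] V)) : IsP (av ρ) :=
  ⟨av_symm ρ, av_idem ρ⟩

private theorem diml_rho {T : Type} [Group T] {V : Type} [NormedAddCommGroup V]
    [InnerProductSpace ℂ V] (ρ : T →* (V ≃ₗᵢ[ℂ] V)) (a b : T) (v : V) :
    ρ a (ρ b v) = ρ (a * b) v := by
  rw [map_mul]
  rfl

private theorem diml_av_mem {H : Type} [Group H] [Fintype H] {V : Type} [NormedAddCommGroup V]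
    [InnerProductSpace ℂ V] (ρ : H →* (V ≃ₗᵢ[ℂ] V)) {U : Submodule ℂ V}
    (hU : ∀ h, ∀ x ∈ U, ρ h x ∈ U) {x : V} (hx : x ∈ U) : av ρ x ∈ U := by
  rw [av_apply]
  exact U.smul_mem _ (U.sum_mem fun h _ => hU h x hx)

/-- The trace of the mean of the conjugates of a projection. -/
private theorem diml_tr {T : Type} [Group T] [Fintype T] {V : Type} [NormedAddCommGroup V]
    [InnerProductSpace ℂ V] [FiniteDimensional ℂ V] (ρ : T →* (V ≃ₗᵢ[ℂ] V)) (P : V →ₗ[ℂ] V)
    (hP : ∀ v, P (P v) = P v) (U : Submodule ℂ V) (hU : InvS ρ U) (hPU : ∀ x ∈ U, P x ∈ U)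
    (z : ℂ) (hz : ∀ x ∈ U, ((Fintype.card T : ℂ))⁻¹ • ∑ t, ρ t⁻¹ (P (ρ t x)) = z • x)
    (W : Submodule ℂ V) (hW : ∀ x, x ∈ W ↔ x ∈ U ∧ P x = x) :
    z * (Module.finrank ℂ U : ℂ) = (Module.finrank ℂ W : ℂ) := by
  let r : T → (U →ₗ[ℂ] U) := fun t =>
    ((ρ t).toLinearEquiv.toLinearMap).restrict (p := U) (q := U) fun x hx => hU t x hx
  let PU : U →ₗ[ℂ] U := P.restrict (p := U) (q := U) hPU
  have hr : ∀ t, r t * r t⁻¹ = 1 := by
    intro t
    ext x
    show ρ t (ρ t⁻¹ (x : V)) = x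
    rw [diml_rho, mul_inv_cancel, map_one]
    rfl
  have h1 : ((Fintype.card T : ℂ))⁻¹ • ∑ t, r t⁻¹ * (PU * r t) = z • (1 : U →ₗ[ℂ] U) := by
    ext x
    have h2 := hz x x.2
    rw [LinearMap.smul_apply, LinearMap.smul_apply, LinearMap.sum_apply]
    rw [Submodule.coe_smul, Submodule.coe_smul, Submodule.coe_sum]
    exact h2
  have h2 := congrArg (LinearMap.trace ℂ U) h1
  rw [map_smul, map_smul, map_sum, LinearMap.trace_one, smul_eq_mul, smul_eq_mul] at h2
  have h3 : ∀ t, LinearMap.trace ℂ U (r t⁻¹ * (PU * r t)) = LinearMap.trace ℂ U PU := by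
    intro t
    rw [LinearMap.trace_mul_comm, mul_assoc, hr, mul_one]
  have hc : (Fintype.card T : ℂ) ≠ 0 := by exact_mod_cast Fintype.card_ne_zero
  rw [Finset.sum_congr rfl fun t _ => h3 t, Finset.sum_const, Finset.card_univ, nsmul_eq_mul,
    inv_mul_cancel_left₀ hc] at h2
  rw [← h2]
  let W' : Submodule ℂ U := W.comap U.subtype
  have h4 : LinearMap.IsProj W' PU := by
    refine ⟨fun x => ?_, fun x hx => ?_⟩
    · show P (x : V) ∈ W
      exact (hW _).2 ⟨hPU _ x.2, hP _⟩
    · exact Subtype.ext ((hW _).1 hx).2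
  rw [h4.trace]
  congr 1
  have h5 : W'.map U.subtype = W := by
    rw [Submodule.map_comap_subtype, inf_eq_right]
    exact fun x hx => ((hW x).1 hx).1
  rw [← h5, Submodule.finrank_map_subtype_eq]

/-- The mean norm of the projection of the orbit of a vector on the `S0`-invariants.

Proof. `P = av (ρ.comp S0.subtype)`, `Z = mean over t of ρ t⁻¹ ∘ P ∘ ρ t`, which commutes with
`ρ`; `Re ⟨Z x, x⟩ = mn_t ‖P (ρ t x)‖²` (`isP_re`). `irr_ind` with `C x := av ρ x = 0` and
`Q x := Re ⟨Z x, x⟩ ≤ (1 - 1 / c) ‖x‖²`. Additive on orthogonal invariant pieces. On a minimal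
invariant subspace `U` (with `x ∈ U`, `av ρ x = 0`, `x ≠ 0`) `Z` is a scalar `z` (`schur`),
`z * dim U = trace of Z on U = trace of P on U = dim U^{S0}`: with an orthonormal basis `e` of
`U`: `∑ i, mn_t ‖P (ρ t (e i))‖² = mn_t ∑ i, ‖P (ρ t (e i))‖²`, and for every `t` the `ρ t (e i)`
are an orthonormal basis of `U`, so the inner sum is the trace of the projection `P` restricted to
`U`, the dimension of its range (`LinearMap.IsProj.trace`; the trace of `P` on `U` does not depend
on the basis). `U` has no `T`-invariants: they form an invariant subspace of `U`, it is `⊥` or `U`;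
if it is `U` then `x = av ρ x = 0`. `diml_dim` gives `z ≤ 1 - 1 / c`. -/
theorem dim_l {T : Type} [Group T] [Fintype T] (S0 : Subgroup T) [Fintype S0] {c : ℕ}
    (hg : GenC c T S0) {V : Type} [NormedAddCommGroup V] [InnerProductSpace ℂ V]
    [FiniteDimensional ℂ V] (ρ : T →* (V ≃ₗᵢ[ℂ] V)) (v : V) (hv : av ρ v = 0) :
    mn (fun t : T => ‖av (ρ.comp S0.subtype) (ρ t v)‖ ^ 2) ≤ (1 - 1 / (c : ℝ)) * ‖v‖ ^ 2 := by
  have hP := diml_isP (ρ.comp S0.subtype)
  refine irr_ind ρ (fun x => av ρ x = 0) (fun x => mn (fun t : T =>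
    ‖av (ρ.comp S0.subtype) (ρ t x)‖ ^ 2) ≤ (1 - 1 / (c : ℝ)) * ‖x‖ ^ 2) ?_ ?_ ?_ v hv
  · intro F hF x hx
    show av ρ (F x) = 0
    have hx' : av ρ x = 0 := hx
    have h1 : av ρ (F x) = F (av ρ x) := by
      rw [av_apply, av_apply, map_smul, map_sum]
      congr 1
      exact Finset.sum_congr rfl fun t _ => (hF t x).symm
    rw [h1, hx', map_zero]
  · intro U hmin x hxU hx
    have hx' : av ρ x = 0 := hx
    by_cases hx0 : x = 0
    · subst hx0
      have h1 : ∀ t : T, ‖av (ρ.comp S0.subtype) (ρ t 0)‖ ^ 2 = 0 := fun t => by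
        rw [map_zero, map_zero, norm_zero]
        ring
      show mn (fun t : T => ‖av (ρ.comp S0.subtype) (ρ t 0)‖ ^ 2) ≤ _
      simp only [h1]
      rw [mn_const, norm_zero]
      norm_num
    have hPU : ∀ y ∈ U, av (ρ.comp S0.subtype) y ∈ U := fun y hy =>
      diml_av_mem (ρ.comp S0.subtype) (fun s w hw => hmin.1 _ w hw) hy
    let Z : V →ₗ[ℂ] V := ((Fintype.card T : ℂ))⁻¹ • ∑ t : T,
      (ρ t⁻¹).toLinearEquiv.toLinearMap ∘ₗ (av (ρ.comp S0.subtype)) ∘ₗ
        (ρ t).toLinearEquiv.toLinearMap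
    have hZ : ∀ y, Z y = ((Fintype.card T : ℂ))⁻¹ •
        ∑ t, ρ t⁻¹ (av (ρ.comp S0.subtype) (ρ t y)) := by
      intro y
      show (((Fintype.card T : ℂ))⁻¹ • ∑ t : T,
        (ρ t⁻¹).toLinearEquiv.toLinearMap ∘ₗ (av (ρ.comp S0.subtype)) ∘ₗ
          (ρ t).toLinearEquiv.toLinearMap) y = _
      rw [LinearMap.smul_apply, LinearMap.sum_apply]
      rfl
    obtain ⟨z, hz⟩ := schur ρ U hmin Z (fun g y => by
      rw [hZ, hZ, map_smul, map_sum]
      congr 1
      refine Fintype.sum_equiv (Equiv.mulRight g) _ _ fun t => ?_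
      rw [Equiv.coe_mulRight, diml_rho, diml_rho, mul_inv_rev, mul_inv_cancel_left])
      (fun y hy => by
        rw [hZ]
        exact U.smul_mem _ (U.sum_mem fun t _ => hmin.1 _ _ (hPU _ (hmin.1 _ _ hy))))
    let W : Submodule ℂ V := U ⊓ LinearMap.ker (av (ρ.comp S0.subtype) - LinearMap.id)
    have hW : ∀ y, y ∈ W ↔ y ∈ U ∧ av (ρ.comp S0.subtype) y = y := by
      intro y
      rw [Submodule.mem_inf, LinearMap.mem_ker, LinearMap.sub_apply, LinearMap.id_apply,
        sub_eq_zero]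
    have htr := diml_tr ρ (av (ρ.comp S0.subtype)) hP.2 U hmin.1 hPU z
      (fun y hy => by rw [← hZ, hz y hy]) W hW
    have hU0 : ∀ y ∈ U, (∀ t, ρ t y = y) → y = 0 := by
      let U' : Submodule ℂ V := U ⊓ LinearMap.ker (av ρ - LinearMap.id)
      have hU' : ∀ y, y ∈ U' ↔ y ∈ U ∧ av ρ y = y := by
        intro y
        rw [Submodule.mem_inf, LinearMap.mem_ker, LinearMap.sub_apply, LinearMap.id_apply,
          sub_eq_zero]
      have hinv : InvS ρ U' := by
        intro g y hy
        have h2 := (hU' y).1 hy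
        have h3 : ρ g y = y := (av_eq_iff ρ).1 h2.2 g
        rw [h3]
        exact hy
      rcases hmin.2 U' inf_le_left hinv with h1 | h1
      · intro y hy hfix
        have h2 : y ∈ U' := (hU' y).2 ⟨hy, av_of_fix ρ hfix⟩
        rw [h1, Submodule.mem_bot] at h2
        exact h2
      · exfalso
        rw [← h1] at hxU
        have h2 := ((hU' x).1 hxU).2
        rw [hx'] at h2
        exact hx0 h2.symm
    have hdim := diml_dim hg ρ U hmin.1 hU0 W fun y => by
      rw [hW, av_eq_iff]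
      exact ⟨fun h => ⟨h.1, fun s hs => h.2 ⟨s, hs⟩⟩, fun h => ⟨h.1, fun s => h.2 s s.2⟩⟩
    have hWU : Module.finrank ℂ W ≤ Module.finrank ℂ U := Submodule.finrank_mono inf_le_left
    have hUpos : 0 < Module.finrank ℂ U := by
      rw [Module.finrank_pos_iff_exists_ne_zero]
      exact ⟨⟨x, hxU⟩, fun h => hx0 (congrArg Subtype.val h)⟩
    have hzr : z.re * (Module.finrank ℂ U : ℝ) = (Module.finrank ℂ W : ℝ) := by
      have h1 := congrArg Complex.re htr
      rw [Complex.mul_re, Complex.natCast_re, Complex.natCast_im, Complex.natCast_re, mul_zero,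
        sub_zero] at h1
      exact h1
    have hc : 0 < c := by
      rcases Nat.eq_zero_or_pos c with h1 | h1
      · rw [h1, zero_mul] at hdim
        omega
      · exact h1
    have hle : z.re ≤ 1 - 1 / (c : ℝ) := by
      have hc' : (0 : ℝ) < c := by exact_mod_cast hc
      have hU' : (0 : ℝ) < Module.finrank ℂ U := by exact_mod_cast hUpos
      have h1 : (Module.finrank ℂ U : ℝ) ≤
          c * ((Module.finrank ℂ U : ℝ) - Module.finrank ℂ W) := by
        have h2 : ((Module.finrank ℂ U : ℕ) : ℝ) ≤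
            ((c * (Module.finrank ℂ U - Module.finrank ℂ W) : ℕ) : ℝ) := by exact_mod_cast hdim
        rwa [Nat.cast_mul, Nat.cast_sub hWU] at h2
      rw [← hzr] at h1
      have h3 : 1 ≤ c * (1 - z.re) := by
        have h4 : (Module.finrank ℂ U : ℝ) * 1 ≤ Module.finrank ℂ U * (c * (1 - z.re)) := by
          linarith
        exact le_of_mul_le_mul_left h4 hU'
      have h5 : 1 / (c : ℝ) ≤ 1 - z.re := by
        rw [div_le_iff₀ hc', mul_comm]
        exact h3
      linarith
    have hval : mn (fun t : T => ‖av (ρ.comp S0.subtype) (ρ t x)‖ ^ 2) = z.re * ‖x‖ ^ 2 := by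
      have h1 : ∀ t : T, ‖av (ρ.comp S0.subtype) (ρ t x)‖ ^ 2 =
          (inner ℂ (ρ t⁻¹ (av (ρ.comp S0.subtype) (ρ t x))) x).re := by
        intro t
        rw [av_inner_rho, inv_inv, isP_re hP]
      simp only [h1]
      have h2 : inner ℂ (Z x) x = ((((Fintype.card T : ℝ))⁻¹ : ℝ) : ℂ) *
          ∑ t, inner ℂ (ρ t⁻¹ (av (ρ.comp S0.subtype) (ρ t x))) x := by
        rw [hZ, inner_smul_left, sum_inner, map_inv₀, Complex.conj_natCast]
        push_cast
        rfl
      have h3 : inner ℂ (Z x) x = (starRingEnd ℂ) z * ((‖x‖ ^ 2 : ℝ) : ℂ) := by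
        rw [hz x hxU, inner_smul_left, inner_self_eq_norm_sq_to_K]
        norm_cast
      rw [h2] at h3
      have h4 := congrArg Complex.re h3
      rw [Complex.re_ofReal_mul, Complex.re_sum, Complex.re_mul_ofReal, Complex.conj_re] at h4
      exact h4
    show mn (fun t : T => ‖av (ρ.comp S0.subtype) (ρ t x)‖ ^ 2) ≤ _
    rw [hval]
    exact mul_le_mul_of_nonneg_right hle (sq_nonneg _)
  · intro x y hx hy horth h1 h2
    have h3 : ∀ t : T, ‖av (ρ.comp S0.subtype) (ρ t (x + y))‖ ^ 2 =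
        ‖av (ρ.comp S0.subtype) (ρ t x)‖ ^ 2 + ‖av (ρ.comp S0.subtype) (ρ t y)‖ ^ 2 := by
      intro t
      have h4 : inner ℂ (av (ρ.comp S0.subtype) (ρ t x)) (av (ρ.comp S0.subtype) (ρ t y)) = 0 := by
        rw [← hP.1, hP.2, av_apply, inner_smul_left, sum_inner]
        rw [Finset.sum_eq_zero fun s _ => ?_, mul_zero]
        show inner ℂ (ρ (s : T) (ρ t x)) (ρ t y) = 0
        rw [diml_rho]
        exact horth _ _
      rw [map_add, map_add]
      have h5 := norm_add_sq (𝕜 := ℂ) (av (ρ.comp S0.subtype) (ρ t x))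
        (av (ρ.comp S0.subtype) (ρ t y))
      rw [h4] at h5
      rw [h5]
      simp
    have h4 : ‖x + y‖ ^ 2 = ‖x‖ ^ 2 + ‖y‖ ^ 2 := by
      have h5 := norm_add_sq (𝕜 := ℂ) x y
      have h6 := horth 1 1
      rw [map_one] at h6
      have h7 : inner ℂ x y = 0 := h6
      rw [h7] at h5
      rw [h5]
      simp
    show mn (fun t : T => ‖av (ρ.comp S0.subtype) (ρ t (x + y))‖ ^ 2) ≤ _
    simp only [h3]
    rw [mn_add, h4, mul_add]
    exact add_le_add h1 h2

end Pool.Agent.MPfe8e9bN
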