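import Mathlib
import Pool.Agent.Lib.MP_fe8e9b_al_N.Defs
import Pool.Agent.Lib.MP_fe8e9b_al_N.DimL
import Pool.Agent.Lib.MP_fe8e9b_al_M.PrB
import Pool.Agent.Lib.MP_fe8e9b_al_M.Ang1
import Pool.Agent.Lib.MP_fe8e9b_al_M.Ang
import Pool.Agent.Lib.MP_fe8e9b_al_M.TwoP
import Pool.Agent.Lib.MP_fe8e9b_al_M.PsiX

/-!
# MP_fe8e9b_al, groups of bounded height: the functions with values in subgroups and the constants
-/

set_option autoImplicit false

open scoped BigOperators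

namespace Pool.Agent.MPfe8e9bN

open Pool.Agent.MPfe8e9b Pool.Agent.MPfe8e9bA Pool.Agent.MPfe8e9bW Pool.Agent.MPfe8e9bV
open Pool.Agent.MPfe8e9bM

private theorem jnc_av_comm {H : Type} [Group H] [Fintype H] {V : Type} [NormedAddCommGroup V]
    [InnerProductSpace ℂ V] (ρ : H →* (V ≃ₗᵢ[ℂ] V)) (P : V →ₗ[ℂ] V)
    (h : ∀ h v, P (ρ h v) = ρ h (P v)) (v : V) : P (av ρ v) = av ρ (P v) := by
  rw [av_apply, av_apply, map_smul, map_sum]
  exact congrArg _ (Finset.sum_congr rfl fun x _ => h x v)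

private theorem jnc_isP {H : Type} [Group H] [Fintype H] {V : Type} [NormedAddCommGroup V]
    [InnerProductSpace ℂ V] (ρ : H →* (V ≃ₗᵢ[ℂ] V)) : IsP (av ρ) :=
  ⟨av_symm ρ, av_idem ρ⟩

private theorem jnc_map {G : Type} [Group G] {V : Type} [NormedAddCommGroup V]
    [InnerProductSpace ℂ V] (ρ : G →* (V ≃ₗᵢ[ℂ] V)) (x y : G) (w : V) :
    ρ (x * y) w = ρ x (ρ y w) := by
  rw [map_mul]
  rfl

private theorem jnc_iso {V : Type} [NormedAddCommGroup V] [InnerProductSpace ℂ V]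
    (T : V ≃ₗᵢ[ℂ] V) (x y : V) : ‖T x - T y‖ = ‖x - y‖ := by
  rw [← map_sub, LinearIsometryEquiv.norm_map]

private theorem jnc_inv {G : Type} [Group G] {V : Type} [NormedAddCommGroup V]
    [InnerProductSpace ℂ V] (ρ : G →* (V ≃ₗᵢ[ℂ] V)) (x : G) (w : V) :
    ρ x (ρ x⁻¹ w) = w := by
  rw [← jnc_map, mul_inv_cancel, map_one]
  rfl

private theorem jnc_inv2 {G : Type} [Group G] {V : Type} [NormedAddCommGroup V]
    [InnerProductSpace ℂ V] (ρ : G →* (V ≃ₗᵢ[ℂ] V)) {x : G} {w : V} (h : ρ x w = w) :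
    ρ x⁻¹ w = w := by
  conv_lhs => rw [← h]
  rw [← jnc_map, inv_mul_cancel, map_one]
  rfl

private theorem jnc_disp {G : Type} [Group G] {V : Type} [NormedAddCommGroup V]
    [InnerProductSpace ℂ V] (ρ : G →* (V ≃ₗᵢ[ℂ] V)) {a : G} (b : G) {v : V}
    (ha : ρ a v = v) : ‖ρ (cm a b) v - v‖ ≤ 2 * ‖ρ b v - v‖ := by
  have h1 : ‖ρ (cm a b) v - v‖ = ‖ρ b (ρ a⁻¹ (ρ b⁻¹ v)) - v‖ := by
    have h2 : ρ (cm a b) v = ρ a (ρ b (ρ a⁻¹ (ρ b⁻¹ v))) := by
      rw [← jnc_map, ← jnc_map, ← jnc_map, cm, mul_assoc, mul_assoc]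
    rw [h2]
    conv_lhs => rw [← ha]
    rw [jnc_iso, ha]
  have h2 : ‖ρ b (ρ a⁻¹ (ρ b⁻¹ v)) - ρ b v‖ = ‖ρ b v - v‖ := by
    rw [jnc_iso]
    conv_lhs => rw [← jnc_inv2 ρ ha]
    rw [jnc_iso, jnc_inv2 ρ ha, ← jnc_iso (ρ b), jnc_inv, norm_sub_rev]
  rw [h1]
  refine (norm_sub_le_norm_sub_add_norm_sub _ (ρ b v) _).trans ?_
  rw [h2, two_mul]

private theorem jnc_disp2 {G : Type} [Group G] {V : Type} [NormedAddCommGroup V]
    [InnerProductSpace ℂ V] (σ : G →* (V ≃ₗᵢ[ℂ] V)) {s : G} (t : G) {v : V}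
    (hs : σ s v = v) : ‖σ (cm s t) v - v‖ = ‖σ s⁻¹ (σ t⁻¹ v) - σ t⁻¹ v‖ := by
  have h1 : σ (cm s t) v = σ s (σ t (σ s⁻¹ (σ t⁻¹ v))) := by
    rw [← jnc_map, ← jnc_map, ← jnc_map, cm, mul_assoc, mul_assoc]
  have h2 : σ s (σ t (σ t⁻¹ v)) = v := by
    rw [jnc_inv, hs]
  rw [h1]
  conv_lhs => rw [← h2]
  rw [jnc_iso, jnc_iso, h2]

open Classical in
/-- The elements at one site. -/
private noncomputable def jncS {K : Type} {Y T : K → Type} [∀ k, Group (T k)] (k : K)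
    (y : Y k) : T k →* (∀ k, Y k → T k) where
  toFun t := Pi.mulSingle k (Pi.mulSingle y t)
  map_one' := by
    rw [Pi.mulSingle_one, Pi.mulSingle_one]
  map_mul' a b := by
    rw [Pi.mulSingle_mul, Pi.mulSingle_mul]

private theorem jncS_same {K : Type} {Y T : K → Type} [∀ k, Group (T k)] (k : K)
    (y : Y k) (t : T k) : jncS k y t k y = t := by
  classical
  change (Pi.mulSingle k (Pi.mulSingle y t) : ∀ k, Y k → T k) k y = t
  rw [Pi.mulSingle_eq_same, Pi.mulSingle_eq_same]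

private theorem jncS_ne1 {K : Type} {Y T : K → Type} [∀ k, Group (T k)] (k : K)
    (y : Y k) (t : T k) {k' : K} (y' : Y k') (h : k' ≠ k) : jncS k y t k' y' = 1 := by
  classical
  change (Pi.mulSingle k (Pi.mulSingle y t) : ∀ k, Y k → T k) k' y' = 1
  rw [Pi.mulSingle_eq_of_ne h]
  rfl

private theorem jncS_ne2 {K : Type} {Y T : K → Type} [∀ k, Group (T k)] (k : K)
    (y : Y k) (t : T k) (y' : Y k) (h : y' ≠ y) : jncS k y t k y' = 1 := by
  classical
  change (Pi.mulSingle k (Pi.mulSingle y t) : ∀ k, Y k → T k) k y' = 1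
  rw [Pi.mulSingle_eq_same, Pi.mulSingle_eq_of_ne h]

private theorem jncS_comm {K : Type} {Y T : K → Type} [∀ k, Group (T k)] (k : K)
    (y : Y k) (t : T k) (g : ∀ k, Y k → T k) :
    g * jncS k y t = jncS k y (g k y * t * (g k y)⁻¹) * g := by
  funext k' y'
  rw [Pi.mul_apply, Pi.mul_apply, Pi.mul_apply, Pi.mul_apply]
  by_cases hk : k' = k
  · subst hk
    by_cases hy : y' = y
    · subst hy
      rw [jncS_same, jncS_same]
      group
    · rw [jncS_ne2 _ _ _ _ hy, jncS_ne2 _ _ _ _ hy, mul_one, one_mul]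
  · rw [jncS_ne1 _ _ _ _ hk, jncS_ne1 _ _ _ _ hk, mul_one, one_mul]

/-- The constants. -/
private def jncC {K : Type} (Y T : K → Type) [∀ k, Group (T k)] :
    (∀ k, T k) →* (∀ k, Y k → T k) where
  toFun q := fun k _ => q k
  map_one' := rfl
  map_mul' _ _ := rfl

open Classical in
/-- The constants of one type. -/
private noncomputable def jncK {K : Type} (Y T : K → Type) [∀ k, Group (T k)] (k : K) :
    T k →* (∀ k, Y k → T k) where
  toFun t := Pi.mulSingle k (fun _ => t)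
  map_one' := by
    change (Pi.mulSingle k (1 : Y k → T k) : ∀ k, Y k → T k) = 1
    rw [Pi.mulSingle_one]
  map_mul' a b := by
    change (Pi.mulSingle k ((fun _ => a) * (fun _ => b) : Y k → T k) : ∀ k, Y k → T k) = _
    rw [Pi.mulSingle_mul]

private theorem jncK_same {K : Type} (Y T : K → Type) [∀ k, Group (T k)] (k : K)
    (t : T k) (y : Y k) : jncK Y T k t k y = t := by
  classical
  change (Pi.mulSingle k (fun _ => t) : ∀ k, Y k → T k) k y = t
  rw [Pi.mulSingle_eq_same]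

private theorem jncK_ne {K : Type} (Y T : K → Type) [∀ k, Group (T k)] (k : K)
    (t : T k) {k' : K} (y : Y k') (h : k' ≠ k) : jncK Y T k t k' y = 1 := by
  classical
  change (Pi.mulSingle k (fun _ => t) : ∀ k, Y k → T k) k' y = 1
  rw [Pi.mulSingle_eq_of_ne h]
  rfl

open Classical in
private theorem jncK_eq {K : Type} (Y T : K → Type) [∀ k, Group (T k)] (k : K)
    (t : T k) : jncK Y T k t = jncC Y T (Pi.mulSingle k t) := by
  funext k' y
  change _ = (Pi.mulSingle k t : ∀ k, T k) k'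
  by_cases hk : k' = k
  · subst hk
    rw [jncK_same, Pi.mulSingle_eq_same]
  · rw [jncK_ne _ _ _ _ _ hk, Pi.mulSingle_eq_of_ne hk]

private theorem jnc_cm {K : Type} {Y T : K → Type} [∀ k, Group (T k)] (k : K)
    (y : Y k) (s t : T k) : jncS k y (cm s t) = cm (jncS k y s) (jncK Y T k t) := by
  funext k' y'
  change _ = jncS k y s k' y' * jncK Y T k t k' y' * (jncS k y s k' y')⁻¹ *
    (jncK Y T k t k' y')⁻¹
  by_cases hk : k' = k
  · subst hk
    by_cases hy : y' = y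
    · subst hy
      rw [jncS_same, jncS_same, jncK_same]
      rfl
    · rw [jncS_ne2 _ _ _ _ hy, jncS_ne2 _ _ _ _ hy]
      group
  · rw [jncS_ne1 _ _ _ _ hk, jncS_ne1 _ _ _ _ hk]
    group

open Classical in
/-- One site: `v` is fixed by the elements with values in `T0`, and has no invariants under the
elements at the site `(k, y)`. Then the mean displacement by the constants of type `k` is large.

Proof. `σ t = ρ (mulSingle k (mulSingle y t))`, `q t = mulSingle k (fun _ => t)`,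
`D t = ‖ρ (q t) v - v‖`. For `s ∈ T0 k` the element `cm (single s) (q t)` is `single (cm s t)`
(check at all points), and `σ s` fixes `v`, so `‖σ (cm s t) v - v‖ ≤ 2 D t`; and
`‖σ (cm s t) v - v‖ = ‖σ s⁻¹ w - w‖` with `w = σ t⁻¹ v` (`σ s v = v`). So
`‖w - av (σ.comp (T0 k).subtype) w‖ ≤ 2 D t` (`norm_sub_av_le`), so
`‖v‖² - ‖av (..) (σ t⁻¹ v)‖² ≤ 4 D t²`. `dim_l` for `σ` (mean over `t⁻¹`):
`‖v‖² / C ≤ 4 mn_t D t²`. -/
theorem jnc_site {K : Type} {Y T : K → Type} [∀ k, Group (T k)] [∀ k, Fintype (T k)] {C : ℕ}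
    {T0 : ∀ k, Subgroup (T k)} (hg : ∀ k, GenC C (T k) (T0 k)) {V : Type}
    [NormedAddCommGroup V] [InnerProductSpace ℂ V] [FiniteDimensional ℂ V]
    (ρ : (∀ k, Y k → T k) →* (V ≃ₗᵢ[ℂ] V)) (k : K) (y : Y k) (v : V)
    (hv : ∀ s ∈ T0 k, ρ (Pi.mulSingle k (Pi.mulSingle y s)) v = v)
    (h0 : ∑ t : T k, ρ (Pi.mulSingle k (Pi.mulSingle y t)) v = 0) :
    1 / (C : ℝ) * ‖v‖ ^ 2 ≤ 4 * mn (fun t : T k =>
      ‖ρ (Pi.mulSingle k (fun _ => t)) v - v‖ ^ 2) := by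
  have : Fintype (T0 k) := Fintype.ofFinite _
  obtain ⟨σ, hσ⟩ : ∃ σ : T k →* (V ≃ₗᵢ[ℂ] V), σ = ρ.comp (jncS k y) := ⟨_, rfl⟩
  have hσv : ∀ s ∈ T0 k, σ s v = v := by
    intro s hs
    rw [hσ]
    exact hv s hs
  have hav : av σ v = 0 := by
    rw [av_apply, hσ]
    have h1 : ∑ t : T k, (ρ.comp (jncS k y)) t v = 0 := h0
    rw [h1, smul_zero]
  have key : ∀ t : T k, ‖v‖ ^ 2 - ‖av (σ.comp (T0 k).subtype) (σ t⁻¹ v)‖ ^ 2 ≤
      4 * ‖ρ (Pi.mulSingle k (fun _ => t)) v - v‖ ^ 2 := by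
    intro t
    have e1 : ∀ s : T0 k, ‖(σ.comp (T0 k).subtype) s (σ t⁻¹ v) - σ t⁻¹ v‖ ≤
        2 * ‖ρ (Pi.mulSingle k (fun _ => t)) v - v‖ := by
      intro s
      have e2 := jnc_disp2 σ (s := (s : T k)⁻¹) t (hσv _ ((T0 k).inv_mem s.2))
      rw [inv_inv] at e2
      change ‖σ (s : T k) (σ t⁻¹ v) - σ t⁻¹ v‖ ≤ _
      rw [← e2, hσ]
      change ‖ρ (jncS k y (cm (s : T k)⁻¹ t)) v - v‖ ≤ _
      rw [jnc_cm]
      exact jnc_disp ρ (jncK Y T k t) (hv _ ((T0 k).inv_mem s.2))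
    have e4 := norm_sub_av_le _ _ e1
    have e5 := isP_norm_sq (jnc_isP (σ.comp (T0 k).subtype)) (σ t⁻¹ v)
    rw [LinearIsometryEquiv.norm_map] at e5
    have e6 := norm_nonneg (σ t⁻¹ v - av (σ.comp (T0 k).subtype) (σ t⁻¹ v))
    nlinarith
  have h5 := dim_l (T0 k) (hg k) σ v hav
  have h6 : mn (fun t : T k => ‖av (σ.comp (T0 k).subtype) (σ t⁻¹ v)‖ ^ 2) =
      mn (fun t : T k => ‖av (σ.comp (T0 k).subtype) (σ t v)‖ ^ 2) :=
    mn_equiv (Equiv.inv (T k)) (fun t => ‖av (σ.comp (T0 k).subtype) (σ t v)‖ ^ 2)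
  have h7 := mn_mono key
  rw [mn_sub, mn_const, mn_mul_left, h6] at h7
  linarith

open Classical in
/-- The displacement version of the join: if all elements with values in `T0` move `v` by at most
`δ`, and all constants (one element of `T k` for every type) move `v` by at most `δ`, and `v` has no
invariants, then `‖v‖² ≤ 32 C δ²`, roughly.

Proof. Let `P0` be the average over the group `∀ k, Y k → T0 k`, `Pc` the average over the group
`∀ k, T k` of the constants, `P_s` the average over the elements at the site `s = (k, y)`. The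
`P_s` commute with all elements (their groups are normal). Claim: if `P0 u = u` and `av ρ u = 0`
then `‖Pc u‖² ≤ (1 - 1 / (8 C)) ‖u‖²`: `tel` (file M/Ang) with `Q = Pc`, `U` the space of the
vectors fixed by `P0`, `Ps` the list of the `P_s` over all sites; the product of the `P_s` is
`av ρ` (a vector fixed by all `P_s` is fixed by everything, `psi_ind`). For a site: `jnc_site` and
`mn_disp` for the representation `t ↦ ρ (mulSingle k (fun _ => t))` with average `Pk`: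
`‖u‖² / C ≤ 8 (‖u‖² - ‖Pk u‖²)`, `‖Pc u‖ ≤ ‖Pk u‖`. Then `two_proj` (file M/TwoP) with `A = P0`,
`A' = Pc`, `η = √(1 - 1 / (8 C))`, `1 - η ≥ 1 / (16 C)`, applied to `v` (`av ρ (P0 v) =
P0-invariant and average zero`): `‖v‖² / (16 C) ≤ ‖v - P0 v‖² + ‖v - Pc v‖² ≤ 2 δ²`
(`norm_sub_av_le`). If `C = 0` then all `T k` are trivial. -/
theorem jn_c {K : Type} [Fintype K] {Y T : K → Type} [∀ k, Fintype (Y k)] [∀ k, Group (T k)]
    [∀ k, Fintype (T k)] [Fintype (∀ k, Y k → T k)] {C : ℕ} {T0 : ∀ k, Subgroup (T k)}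
    (hg : ∀ k, GenC C (T k) (T0 k)) {V : Type}
    [NormedAddCommGroup V] [InnerProductSpace ℂ V] [FiniteDimensional ℂ V]
    (ρ : (∀ k, Y k → T k) →* (V ≃ₗᵢ[ℂ] V)) (v : V) (hv : av ρ v = 0) {δ : ℝ} (hδ : 0 ≤ δ)
    (h1 : ∀ u : ∀ k, Y k → T k, (∀ k y, u k y ∈ T0 k) → ‖ρ u v - v‖ ≤ δ)
    (h2 : ∀ q : ∀ k, T k, ‖ρ (fun k _ => q k) v - v‖ ≤ δ) :
    ‖v‖ ^ 2 ≤ 32 * (C : ℝ) * δ ^ 2 := by
  rcases Nat.eq_zero_or_pos C with hC | hC
  · subst hC
    have ht : ∀ k (t : T k), t = 1 := by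
      intro k t
      obtain ⟨h, hh⟩ := hg k
      have h3 := hh ⊥ fun j => j.elim0
      have h4 : t ∈ (⊥ : Subgroup (T k)) := by
        rw [h3]
        exact Subgroup.mem_top t
      exact h4
    have h3 : av ρ v = v := av_of_fix ρ fun u => by
      have h4 : u = 1 := funext fun k => funext fun y => ht k _
      rw [h4, map_one]
      rfl
    rw [← h3, hv]
    simp
  have hC1 : (1 : ℝ) ≤ C := by exact_mod_cast hC
  have i1 : Fintype (∀ k, Y k → T0 k) := Fintype.ofFinite _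
  have i2 : Fintype (∀ k, T k) := Fintype.ofFinite _
  obtain ⟨ι0, hι0⟩ : ∃ ι0 : (∀ k, Y k → T0 k) →* (∀ k, Y k → T k),
      ∀ u k y, ι0 u k y = u k y :=
    ⟨{ toFun := fun u k y => u k y, map_one' := rfl, map_mul' := fun _ _ => rfl },
      fun _ _ _ => rfl⟩
  have hsite : ∀ k (y : Y k) (g : ∀ k, Y k → T k) (w : V),
      av (ρ.comp (jncS k y)) (ρ g w) = ρ g (av (ρ.comp (jncS k y)) w) := by
    intro k y g w
    refine (av_comm (ρ.comp (jncS k y)) (ρ g) (MulAut.conj (g k y)).toEquiv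
      (fun t x => ?_) w).symm
    change ρ g (ρ (jncS k y t) x) = ρ (jncS k y (g k y * t * (g k y)⁻¹)) (ρ g x)
    rw [← jnc_map, ← jnc_map, jncS_comm]
  have hall : ∀ (g : ∀ k, Y k → T k) (w : V), av ρ (ρ g w) = ρ g (av ρ w) := by
    intro g w
    refine (av_comm ρ (ρ g) (MulAut.conj g).toEquiv (fun t x => ?_) w).symm
    change ρ g (ρ t x) = ρ (g * t * g⁻¹) (ρ g x)
    rw [← jnc_map, ← jnc_map, inv_mul_cancel_right]
  obtain ⟨Ps, hPs⟩ : ∃ Ps : List (V →ₗ[ℂ] V), ∀ P, P ∈ Ps ↔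
      ∃ k, ∃ y : Y k, P = av (ρ.comp (jncS k y)) := by
    refine ⟨(Finset.univ : Finset (Σ k, Y k)).toList.map
      fun s => av (ρ.comp (jncS s.1 s.2)), fun P => ?_⟩
    rw [List.mem_map]
    constructor
    · rintro ⟨s, -, rfl⟩
      exact ⟨s.1, s.2, rfl⟩
    · rintro ⟨k, y, rfl⟩
      exact ⟨⟨k, y⟩, Finset.mem_toList.2 (Finset.mem_univ _), rfl⟩
  have hI : ∀ P ∈ Ps, IsP P := by
    intro P hP
    obtain ⟨k, y, rfl⟩ := (hPs P).1 hP
    exact jnc_isP _
  have hPP : ∀ P ∈ Ps, ∀ P' ∈ Ps, ∀ v, P (P' v) = P' (P v) := by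
    intro P hP P' hP' w
    obtain ⟨k, y, rfl⟩ := (hPs P).1 hP
    obtain ⟨k', y', rfl⟩ := (hPs P').1 hP'
    exact jnc_av_comm (ρ.comp (jncS k' y')) _ (fun t x => hsite k y _ x) w
  have hP0 : ∀ x, av (ρ.comp ι0) x = x ↔ ∀ u : ∀ k, Y k → T k, (∀ k y, u k y ∈ T0 k) →
      ρ u x = x := by
    intro x
    rw [av_eq_iff]
    constructor
    · intro h u hu
      have h3 : ι0 (fun k y => ⟨u k y, hu k y⟩) = u := funext fun k => funext fun y => hι0 _ k y
      have h4 := h fun k y => ⟨u k y, hu k y⟩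
      change ρ (ι0 _) x = x at h4
      rwa [h3] at h4
    · intro h u
      refine h (ι0 u) fun k y => ?_
      rw [hι0]
      exact (u k y).2
  have hprod : ∀ x, av ρ x = 0 → Ps.foldr (fun P x => P x) x = 0 := by
    intro x hx
    rw [← angPi_apply]
    have h3 : av ρ (angPi Ps x) = angPi Ps x := by
      refine av_of_fix ρ fun g => ?_
      refine psi_ind (fun g => ρ g (angPi Ps x) = angPi Ps x) ?_ ?_ ?_ g
      · rw [map_one]
        rfl
      · intro a b ha hb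
        rw [jnc_map, hb, ha]
      · intro k y t
        have h4 : av (ρ.comp (jncS k y)) (angPi Ps x) = angPi Ps x :=
          angPi_fix Ps hI hPP _ ((hPs _).2 ⟨k, y, rfl⟩) x
        exact (av_eq_iff _).1 h4 t
    have h4 : angPi Ps (av ρ x) = av ρ (angPi Ps x) := by
      refine angPi_comm _ Ps (fun P hP w => ?_) x
      obtain ⟨k, y, rfl⟩ := (hPs P).1 hP
      exact jnc_av_comm ρ _ (fun t x => hsite k y _ x) w
    rw [← h3, ← h4, hx, map_zero]
  have hclaim : ∀ x, av (ρ.comp ι0) x = x → av ρ x = 0 →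
      ‖av (ρ.comp (jncC Y T)) x‖ ^ 2 ≤ (1 - 1 / (8 * (C : ℝ))) * ‖x‖ ^ 2 := by
    intro x hx0 hx1
    have hU : ∀ w : V, w ∈ LinearMap.ker (av (ρ.comp ι0) - LinearMap.id) ↔
        av (ρ.comp ι0) w = w := by
      intro w
      rw [LinearMap.mem_ker, LinearMap.sub_apply, LinearMap.id_apply, sub_eq_zero]
    refine tel (av (ρ.comp (jncC Y T))) (LinearMap.ker (av (ρ.comp ι0) - LinearMap.id)) Ps
      (fun P hP => ?_) hPP _ (fun P hP w hw h3 => ?_) x ((hU x).2 hx0) (hprod x hx1)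
    · obtain ⟨k, y, rfl⟩ := (hPs P).1 hP
      refine ⟨jnc_isP _, fun w => ?_, fun w hw => ?_⟩
      · exact jnc_av_comm (ρ.comp (jncC Y T)) _ (fun t x => hsite k y _ x) w
      · rw [hU] at hw ⊢
        rw [← jnc_av_comm (ρ.comp ι0) _ (fun t x => hsite k y _ x) w, hw]
    · obtain ⟨k, y, rfl⟩ := (hPs P).1 hP
      rw [hU, hP0] at hw
      have h4 : 1 / (C : ℝ) * ‖w‖ ^ 2 ≤ 4 * mn (fun t : T k =>
          ‖(ρ.comp (jncK Y T k)) t w - w‖ ^ 2) := by
        refine jnc_site hg ρ k y w (fun s hs => ?_) ?_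
        · refine hw (jncS k y s) fun k' y' => ?_
          by_cases hk : k' = k
          · subst hk
            by_cases hy : y' = y
            · subst hy
              rw [jncS_same]
              exact hs
            · rw [jncS_ne2 _ _ _ _ hy]
              exact (T0 k').one_mem
          · rw [jncS_ne1 _ _ _ _ hk]
            exact (T0 k').one_mem
        · rw [av_apply, smul_eq_zero] at h3
          rcases h3 with h3 | h3
          · rw [inv_eq_zero, Nat.cast_eq_zero] at h3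
            exact absurd h3 Fintype.card_ne_zero
          · exact h3
      rw [mn_disp] at h4
      have h5 : ‖av (ρ.comp (jncC Y T)) w‖ ≤ ‖av (ρ.comp (jncK Y T k)) w‖ := by
        classical
        refine isP_le_norm (jnc_isP _) (jnc_isP _) (fun u hu => ?_) w
        rw [av_eq_iff] at hu ⊢
        intro t
        have h6 := hu (Pi.mulSingle k t)
        change ρ (jncK Y T k t) u = u
        rw [jncK_eq]
        exact h6
      have h6 := pow_le_pow_left₀ (norm_nonneg _) h5 2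
      have h7 : 1 / (8 * (C : ℝ)) * ‖w‖ ^ 2 = 1 / 8 * (1 / (C : ℝ) * ‖w‖ ^ 2) := by
        field_simp
      nlinarith
  have hx1 : (0 : ℝ) < 1 / (8 * (C : ℝ)) := by positivity
  have hx2 : 1 / (8 * (C : ℝ)) ≤ 1 := by
    rw [div_le_one (by positivity)]
    linarith
  obtain ⟨x, hx⟩ : ∃ x : ℝ, x = 1 / (8 * (C : ℝ)) := ⟨_, rfl⟩
  rw [← hx] at hx1 hx2 hclaim
  have hA : IsP (av (ρ.comp ι0)) := jnc_isP _
  have hη : Real.sqrt (1 - x) ≤ 1 - x / 2 := by
    refine Real.sqrt_le_iff.2 ⟨by linarith, ?_⟩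
    nlinarith [sq_nonneg x]
  have h3 := two_proj hA (jnc_isP (ρ.comp (jncC Y T))) (Real.sqrt_nonneg (1 - x)) v (by
    have h4 := hclaim (av (ρ.comp ι0) v) (hA.2 v) (by
      rw [jnc_av_comm (ρ.comp ι0) (av ρ) (fun t x => hall _ x) v, hv, map_zero])
    refine le_of_sq_le_sq ?_ (mul_nonneg (Real.sqrt_nonneg _) (norm_nonneg _))
    rw [mul_pow, Real.sq_sqrt (by linarith)]
    exact h4)
  have h4 : ‖v - av (ρ.comp ι0) v‖ ≤ δ := norm_sub_av_le _ _ fun u =>
    h1 (ι0 u) fun k y => by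
      rw [hι0]
      exact (u k y).2
  have h5 : ‖v - av (ρ.comp (jncC Y T)) v‖ ≤ δ := norm_sub_av_le _ _ fun q => h2 q
  have h6 := pow_le_pow_left₀ (norm_nonneg _) h4 2
  have h7 := pow_le_pow_left₀ (norm_nonneg _) h5 2
  have h8 : x / 2 * ‖v‖ ^ 2 ≤ 2 * δ ^ 2 := by
    nlinarith [sq_nonneg ‖v‖]
  have h9 : ‖v‖ ^ 2 = 16 * (C : ℝ) * (x / 2 * ‖v‖ ^ 2) := by
    rw [hx]
    field_simp
    ring
  rw [h9]
  calc 16 * (C : ℝ) * (x / 2 * ‖v‖ ^ 2) ≤ 16 * (C : ℝ) * (2 * δ ^ 2) :=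
        mul_le_mul_of_nonneg_left h8 (by positivity)
    _ = 32 * (C : ℝ) * δ ^ 2 := by ring

end Pool.Agent.MPfe8e9bN
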