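import Mathlib
import Pool.Agent.Lib.MP_fe8e9b_al_N.Defs
import Pool.Agent.Lib.MP_fe8e9b_al_N.JnC
import Pool.Agent.Lib.MP_fe8e9b_al_M.MainE

/-!
# MP_fe8e9b_al, groups of bounded height: the main estimate, second version
-/

set_option autoImplicit false

open scoped BigOperators

namespace Pool.Agent.MPfe8e9bN

open Pool.Agent.MPfe8e9b Pool.Agent.MPfe8e9bA Pool.Agent.MPfe8e9bW Pool.Agent.MPfe8e9bV
open Pool.Agent.MPfe8e9bM

/-- Many types: from the letters to the elements with coordinates in `T0`.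

Let `x1` be invariant under `ad H`, and let all `lm G (Ψ (phi lab f))`, `f` with values in `T0`,
move `x1` by at most `δ`. Then all elements `Ψ u`, `u` with values in `T0`, move `x1` by at most
`2 δ / √κ`.

Proof. `tele2` with `K`, `P k = Al ((lm G).comp (u0 Ψ T0 k)) univ (fun y => y)`,
`Q k = Al ((lm G).comp (u0 Ψ T0 k)) univ (lab k)`, `U` the space of the vectors fixed by `ad G h`,
`h ∈ H`. `hle`: `al_coarse`. Commutation for `j ≠ k`: the elements `u0 Ψ T0 j u` and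
`u0 Ψ T0 k u'` commute (`Pi.mulSingle_commute`, `Ψ` is a homomorphism), so the averages commute
(`av_apply`, sums). `hU`: for `h ∈ H` and `e` from `hD.nrm h`, `ad G h (lm G (u0 Ψ T0 k u) v) =
lm G (u0 Ψ T0 k (e u)) (ad G h v)` (`ad_lm`), so `ad G h` commutes with `P k` (`P k` is the average
over all `u : Y k → T0 k`: reindex by `e`; `clf _ univ (fun y => y)` is the identity). `h` is
`hE`. `z` = the average of `x1` over the group `∀ k, S k → T0 k` acting by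
`lm G (Ψ (phi lab (coe f)))`; `‖x1 - z‖ ≤ δ` (`norm_sub_av_le`), `Q k z = z` for all `k` (`al_fix`:
`u0 Ψ T0 k (clf _ univ (lab k) f) = Ψ (phi lab (mulSingle k f))`). So there is `y` fixed by all
`P k` with `κ ‖x1 - y‖² ≤ δ²`. `Ψ u` for `u` with values in `T0` is the product over `k` of the
`u0 Ψ T0 k (u k)` (they commute; by induction on a finite set of types, or
`Finset.noncommProd`), so it fixes `y`, and moves `x1` by at most `2 ‖x1 - y‖`
(`disp_le_of_fix`). -/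
theorem me_types2 {G K : Type} [Group G] [Fintype G] [Fintype K] {Y S T : K → Type}
    [∀ k, Fintype (Y k)] [∀ k, Fintype (S k)] [∀ k, Group (T k)] [∀ k, Fintype (T k)]
    {C : ℕ} {Ψ : (∀ k, Y k → T k) →* G} {T0 : ∀ k, Subgroup (T k)} [∀ k, Fintype (T0 k)]
    {H : Subgroup G} (hD : LD2 C Ψ T0 H) (lab : ∀ k, Y k → S k) {κ : ℝ} (hκ : 0 < κ)
    (hE : Est Ψ T0 H lab κ) (x1 : EuclideanSpace ℂ (G × G)) (hx1 : ∀ h ∈ H, ad G h x1 = x1)
    {δ : ℝ} (hδ : 0 ≤ δ)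
    (hf : ∀ f : ∀ k, S k → T k, (∀ k s, f k s ∈ T0 k) → ‖lm G (Ψ (phi lab f)) x1 - x1‖ ≤ δ)
    (u : ∀ k, Y k → T k) (hu : ∀ k y, u k y ∈ T0 k) :
    ‖lm G (Ψ u) x1 - x1‖ ≤ 2 * (δ / Real.sqrt κ) := by
  classical
  set P : ∀ k, EuclideanSpace ℂ (G × G) →ₗ[ℂ] EuclideanSpace ℂ (G × G) := fun k =>
    Al ((lm G).comp (u0 Ψ T0 k)) Finset.univ (fun y : Y k => y) with hP
  set Q : ∀ k, EuclideanSpace ℂ (G × G) →ₗ[ℂ] EuclideanSpace ℂ (G × G) := fun k =>
    Al ((lm G).comp (u0 Ψ T0 k)) Finset.univ (lab k) with hQ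
  have hlm : ∀ (a b : G) (w : EuclideanSpace ℂ (G × G)), lm G a (lm G b w) = lm G (a * b) w := by
    intro a b w
    rw [map_mul]
    rfl
  have hcom : ∀ j k, j ≠ k → ∀ (u : Y j → T0 j) (u' : Y k → T0 k)
      (w : EuclideanSpace ℂ (G × G)), lm G (u0 Ψ T0 j u) (lm G (u0 Ψ T0 k u') w) =
        lm G (u0 Ψ T0 k u') (lm G (u0 Ψ T0 j u) w) := by
    intro j k hjk u u' w
    rw [hlm, hlm, maine_comm Ψ T0 hjk]
  let U : Submodule ℂ (EuclideanSpace ℂ (G × G)) :=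
    { carrier := {x | ∀ h ∈ H, ad G h x = x}
      add_mem' := fun {a b} ha hb h hh => by rw [map_add, ha h hh, hb h hh]
      zero_mem' := fun h _ => map_zero _
      smul_mem' := fun c a ha h hh => by rw [map_smul, ha h hh] }
  have hU : ∀ k, ∀ w ∈ U, P k w ∈ U := by
    intro k w hw h hh
    obtain ⟨e, he⟩ := hD.nrm h hh k
    have h1 := av_comm (((lm G).comp (u0 Ψ T0 k)).comp (clf (T0 k) Finset.univ
      (fun y : Y k => y))) (ad G h) e (fun f w' => by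
        change ad G h (lm G (u0 Ψ T0 k (clf (T0 k) Finset.univ (fun y : Y k => y) f)) w') =
          lm G (u0 Ψ T0 k (clf (T0 k) Finset.univ (fun y : Y k => y) (e f))) (ad G h w')
        rw [maine_clf, maine_clf, ad_lm, he]) w
    rw [hw h hh] at h1
    exact h1
  -- the average over the functions of the labels
  let cz : (∀ k, S k → T0 k) →* (∀ k, S k → T k) :=
    { toFun := fun f k s => (f k s : T k)
      map_one' := rfl
      map_mul' := fun _ _ => rfl }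
  let β : (∀ k, S k → T0 k) →* (EuclideanSpace ℂ (G × G) ≃ₗᵢ[ℂ] EuclideanSpace ℂ (G × G)) :=
    (lm G).comp (Ψ.comp ((phi lab).comp cz))
  have hz1 : ‖x1 - av β x1‖ ≤ δ :=
    norm_sub_av_le β x1 fun f => hf (cz f) fun k s => (f k s).2
  have hz2 : ∀ k, Q k (av β x1) = av β x1 := by
    intro k
    refine (al_fix ((lm G).comp (u0 Ψ T0 k)) Finset.univ (lab k) (av β x1)).2 fun f => ?_
    have h1 := rho_av β (Pi.mulSingle k f) x1
    have h2 : Ψ (phi lab (cz (Pi.mulSingle k f))) =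
        u0 Ψ T0 k (clf (T0 k) Finset.univ (lab k) f) := by
      change Ψ _ = Ψ _
      congr 1
      funext k' y
      change ((Pi.mulSingle k f : ∀ k, S k → T0 k) k' (lab k' y) : T k') =
        (Pi.mulSingle k (fun y => ((clf (T0 k) Finset.univ (lab k) f y : T0 k) : T k)) :
          ∀ k, Y k → T k) k' y
      by_cases hk : k' = k
      · subst hk
        rw [Pi.mulSingle_eq_same, Pi.mulSingle_eq_same, clf_apply f (Finset.mem_univ y)]
      · rw [Pi.mulSingle_eq_of_ne hk, Pi.mulSingle_eq_of_ne hk]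
        rfl
    change lm G (Ψ (phi lab (cz (Pi.mulSingle k f)))) (av β x1) = av β x1 at h1
    rw [h2] at h1
    exact h1
  obtain ⟨y, hy1, hy2⟩ := tele2 P Q (fun k => al_isP _ _ _) (fun k => al_isP _ _ _)
    (fun k v hv => al_coarse ((lm G).comp (u0 Ψ T0 k)) Finset.univ (lab k) (fun y : Y k => y)
      (fun y _ y' _ h => by rw [h]) v hv)
    (fun j k hjk v => maine_av _ _ (fun a b w => hcom j k hjk _ _ w) v)
    (fun j k hjk v => maine_av _ _ (fun a b w => hcom j k hjk _ _ w) v)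
    (fun j k hjk v => maine_av _ _ (fun a b w => hcom j k hjk _ _ w) v)
    U hU hκ.le (fun k x hx => hE k x hx) x1 hx1 (av β x1) hz2
  have hfix : lm G (Ψ u) y = y := by
    refine maine_ind Ψ T0 (fun g => lm G g y = y) ?_ ?_ ?_ u hu
    · rw [map_one]
      rfl
    · intro a b ha hb
      rw [← hlm, show lm G b y = y from hb, show lm G a y = y from ha]
    · intro k f
      have h1 := (al_fix ((lm G).comp (u0 Ψ T0 k)) Finset.univ (fun y : Y k => y) y).1 (hy1 k) f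
      rw [maine_clf] at h1
      exact h1
  have h1 : ‖x1 - y‖ ≤ δ / Real.sqrt κ := by
    have h2 : κ * ‖x1 - y‖ ^ 2 ≤ δ ^ 2 := hy2.trans (pow_le_pow_left₀ (norm_nonneg _) hz1 2)
    have h3 : 0 < Real.sqrt κ := Real.sqrt_pos.2 hκ
    rw [le_div_iff₀ h3]
    refine le_of_sq_le_sq ?_ hδ
    rw [mul_pow, Real.sq_sqrt hκ.le]
    linarith
  have h2 := disp_le_of_fix (v := x1) (lm G) hfix
  linarith


/-- The elements with coordinates in `T0` commute with the intersection of `H` and the range.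

Proof. `hD.cmA` and the product decomposition of `Ψ u` (see `me_types`). -/
theorem me_comm2 {G K : Type} [Group G] [Fintype K] {Y T : K → Type} [∀ k, Group (T k)]
    {C : ℕ} {Ψ : (∀ k, Y k → T k) →* G} {T0 : ∀ k, Subgroup (T k)} {H : Subgroup G}
    (hD : LD2 C Ψ T0 H) (a : G) (ha : a ∈ H) (ha' : a ∈ Ψ.range) (u : ∀ k, Y k → T k)
    (hu : ∀ k y, u k y ∈ T0 k) : a * Ψ u = Ψ u * a := by
  refine maine_ind Ψ T0 (fun g => a * g = g * a) (by rw [mul_one, one_mul]) ?_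
    (fun k f => hD.cmA a ha ha' k f) u hu
  intro g g' h h'
  rw [← mul_assoc, h, mul_assoc, h', mul_assoc]

/-- The main estimate.

Proof. Choose `δ₀` below; suppose that all letters move the unit vector `v` by at most `δ ≤ δ₀`.
(1) `gap_disp` for the group `∀ k, S k → T k`, the tuple `xs` and the representation
`ρ.comp (Ψ.comp (phi lab))`: all `Ψ (phi lab f)` move `v` by at most `δ1 = 2 √(kK / κK) δ`.
(2) `lem_s` for `A = H ⊓ Ψ.range` (normal in `H` as the range is normal) gives `x`, `‖x‖ = 1`.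
(3) `quot_gap` for the group `H`, `π : H →* G ⧸ N` (`N = Ψ.range`; onto by `hD.cov`; the kernel is
`A`), the tuple `s`, `β = (ad G).comp H.subtype`: with `x1 = av β x` (fixed by all `ad G h`,
`h ∈ H`): `κQ ‖x - x1‖² ≤ ∑ ‖ad G (s i) x - x‖² ≤ 2 kQ δ`. Let `θ = ‖x - x1‖`,
`θ² ≤ 2 kQ δ / κQ`.
(4) For `f` with values in `T0`: `Ψ (phi lab f)` commutes with `A` (`me_comm`), so it moves `x` as
it moves `v` (`lem_s`), at most `δ1`, and `x1` at most `δ1 + 2 θ`.
(5) `me_types`: `Ψ u`, `u` with values in `T0`, moves `x1` by at most `2 (δ1 + 2 θ) / √κ1`, `x` by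
at most that plus `2 θ`, and `v` by the same (`me_comm`, `lem_s`).
(6) `jn_c` for `ρ.comp Ψ`, whose average kills `v` (the range of `Ψ` is `N`):
`1 = ‖v‖² ≤ 32 C δ'²` with `δ' = δ1 + 2 (δ1 + 2 θ) / √κ1 + 2 θ`. As `δ1 ≤ c₁ δ ≤ c₁ √δ` and
`θ ≤ c₂ √δ` for `δ ≤ 1`, `√(32 C) δ'` is at most `c₃ √δ` and `δ₀ = (1 / (c₃ + 1))²` is fine. -/
theorem main_e2 (kK kQ C : ℕ) {κK κQ κ1 : ℝ} (hκK : 0 < κK) (hκQ : 0 < κQ) (hκ1 : 0 < κ1) :
    ∃ δ₀ : ℝ, 0 < δ₀ ∧ ∀ (G K : Type) [Group G] [Fintype G] [Fintype K] (Y S T : K → Type)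
    [∀ k, Fintype (Y k)] [∀ k, Fintype (S k)] [∀ k, Group (T k)] [∀ k, Fintype (T k)]
    [Fintype (∀ k, S k → T k)]
    (Ψ : (∀ k, Y k → T k) →* G) (T0 : ∀ k, Subgroup (T k)) [∀ k, Fintype (T0 k)]
    (H : Subgroup G) (_ : LD2 C Ψ T0 H) (lab : ∀ k, Y k → S k) (_ : Est Ψ T0 H lab κ1)
    (N : Subgroup G) [N.Normal] [Fintype (G ⧸ N)] [Fintype N] (_ : N = Ψ.range)
    (s : Fin kQ → G) (_ : ∀ i, s i ∈ H) (_ : Gap (fun i => (s i : G ⧸ N)) κQ)
    (xs : Fin kK → ∀ k, S k → T k) (_ : Gap xs κK)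
    (V : Type) [NormedAddCommGroup V] [InnerProductSpace ℂ V] [FiniteDimensional ℂ V]
    (ρ : G →* (V ≃ₗᵢ[ℂ] V)) (v : V), av (ρ.comp N.subtype) v = 0 → ‖v‖ = 1 →
    (∃ i, δ₀ < ‖ρ (s i) v - v‖) ∨ ∃ j, δ₀ < ‖ρ (Ψ (phi lab (xs j))) v - v‖ := by
  classical
  obtain ⟨c1', hc1'⟩ : ∃ c, c = 2 * Real.sqrt ((kK : ℝ) / κK) := ⟨_, rfl⟩
  obtain ⟨c2', hc2'⟩ : ∃ c, c = Real.sqrt (2 * (kQ : ℝ) / κQ) := ⟨_, rfl⟩
  have hc1 : 0 ≤ c1' := by rw [hc1']; positivity
  have hc2 : 0 ≤ c2' := by rw [hc2']; positivity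
  have hr : 0 < Real.sqrt κ1 := Real.sqrt_pos.2 hκ1
  obtain ⟨c3, hc3'⟩ : ∃ c, c = Real.sqrt (32 * (C : ℝ)) * (c1' +
    (2 * ((c1' + 2 * c2') / Real.sqrt κ1) + 2 * c2')) := ⟨_, rfl⟩
  have hc3 : 0 ≤ c3 := by rw [hc3']; positivity
  obtain ⟨e, he'⟩ : ∃ e : ℝ, e = 1 / (c3 + 1) := ⟨_, rfl⟩
  have he : 0 < e := by rw [he']; positivity
  have he1 : e ≤ 1 := by
    rw [he', div_le_one (by linarith)]
    linarith
  have hce : c3 * e < 1 := by
    rw [he', mul_one_div, div_lt_one (by linarith)]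
    linarith
  refine ⟨e ^ 2, by positivity, ?_⟩
  intro G K _ _ _ Y S T _ _ _ _ _ Ψ T0 _ H hD lab hE N _ _ _ hN s hs hgs xs hxs V _ _ _ ρ v
    hv hv1
  by_contra hcon
  push Not at hcon
  obtain ⟨hc4, hc5⟩ := hcon
  have hee : e ^ 2 ≤ e := by nlinarith
  -- (1)
  have hA1 : ∀ f : ∀ k, S k → T k, ‖ρ (Ψ (phi lab f)) v - v‖ ≤ c1' * e := by
    intro f
    have h1 := gap_disp hκK hxs (ρ.comp (Ψ.comp (phi lab))) v (sq_nonneg e) (fun j => hc5 j) f
    change ‖ρ (Ψ (phi lab f)) v - v‖ ≤ _ at h1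
    rw [← hc1'] at h1
    exact h1.trans (mul_le_mul_of_nonneg_left hee hc1)
  -- (2)
  obtain ⟨x, hx1, hx2, hx3, hx4⟩ := lem_s (H ⊓ Ψ.range) H (fun h hh a ha =>
    ⟨H.mul_mem (H.mul_mem hh ha.1) (H.inv_mem hh), hD.nml.conj_mem a ha.2 h⟩) ρ v
  have hx5 : ∀ u : ∀ k, Y k → T k, (∀ k y, u k y ∈ T0 k) →
      ‖lm G (Ψ u) x - x‖ = ‖ρ (Ψ u) v - v‖ := fun u hu =>
    hx2 (Ψ u) fun a ha => me_comm2 hD a ha.1 ha.2 u hu
  -- (3)
  have : Fintype H := Fintype.ofFinite H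
  have hsurj : Function.Surjective ((QuotientGroup.mk' N).comp H.subtype) := by
    intro q
    obtain ⟨g, rfl⟩ := QuotientGroup.mk_surjective q
    obtain ⟨h, hh, n, hn, rfl⟩ := hD.cov g
    refine ⟨⟨h, hh⟩, ?_⟩
    change (QuotientGroup.mk h : G ⧸ N) = QuotientGroup.mk (h * n)
    rw [QuotientGroup.eq, inv_mul_cancel_left, hN]
    exact hn
  have hq := quot_gap ((QuotientGroup.mk' N).comp H.subtype) hsurj
    (s := fun i => (⟨s i, hs i⟩ : H)) (κ := κQ) hgs ((ad G).comp H.subtype) x (by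
      intro a ha
      have h1 : (a : G) ∈ N := (QuotientGroup.eq_one_iff (a : G)).1 ha
      rw [hN] at h1
      exact hx4 a ⟨a.2, h1⟩)
  obtain ⟨x1, hx1'⟩ : ∃ w, w = av ((ad G).comp H.subtype) x := ⟨_, rfl⟩
  rw [← hx1'] at hq
  have hfix : ∀ h ∈ H, ad G h x1 = x1 := by
    intro h hh
    rw [hx1']
    exact rho_av ((ad G).comp H.subtype) ⟨h, hh⟩ x
  have hth : ‖x - x1‖ ≤ c2' * e := by
    have h1 : ∀ i : Fin kQ, ‖ad G (s i) x - x‖ ^ 2 ≤ 2 * e ^ 2 := by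
      intro i
      refine (hx3 (s i) (hs i)).trans ?_
      rw [hv1, mul_one]
      exact mul_le_mul_of_nonneg_left (hc4 i) zero_le_two
    have h2 : κQ * ‖x - x1‖ ^ 2 ≤ kQ * (2 * e ^ 2) := by
      refine hq.trans ((Finset.sum_le_sum fun i _ => h1 i).trans_eq ?_)
      rw [Finset.sum_const, Finset.card_univ, Fintype.card_fin, nsmul_eq_mul]
    refine le_of_sq_le_sq ?_ (mul_nonneg hc2 he.le)
    rw [mul_pow, hc2', Real.sq_sqrt (by positivity), div_mul_eq_mul_div, le_div_iff₀ hκQ]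
    linarith
  -- (4), (5)
  have hB : ∀ u : ∀ k, Y k → T k, (∀ k y, u k y ∈ T0 k) → ‖ρ (Ψ u) v - v‖ ≤
      2 * ((c1' * e + 2 * (c2' * e)) / Real.sqrt κ1) + 2 * (c2' * e) := by
    intro u hu
    have h1 := me_types2 hD lab hκ1 hE x1 hfix (δ := c1' * e + 2 * (c2' * e)) (by positivity)
      (fun f hf => by
        have h2 := maine_near (lm G) x x1 (Ψ (phi lab f))
        rw [hx5 (phi lab f) fun k y => hf k (lab k y)] at h2
        have h3 := hA1 f
        linarith) u hu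
    have h2 := maine_near (lm G) x1 x (Ψ u)
    rw [hx5 u hu, norm_sub_rev x1 x] at h2
    linarith
  -- (6)
  let _ : Fintype (∀ k, Y k → T k) := Fintype.ofFinite _
  have hav : av (ρ.comp Ψ) v = 0 := by
    have hfx : ∀ n : N, ρ (n : G) (av (ρ.comp Ψ) v) = av (ρ.comp Ψ) v := by
      intro n
      have hn : (n : G) ∈ Ψ.range := by
        rw [← hN]
        exact n.2
      obtain ⟨t, ht⟩ := hn
      rw [← ht]
      exact rho_av (ρ.comp Ψ) t v
    have h1 := isP_le ⟨av_symm (ρ.comp Ψ), av_idem (ρ.comp Ψ)⟩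
      ⟨av_symm (ρ.comp N.subtype), av_idem (ρ.comp N.subtype)⟩ (fun x hx => by
        rw [av_eq_iff] at hx ⊢
        intro t
        have h2 : Ψ t ∈ N := by
          rw [hN]
          exact ⟨t, rfl⟩
        exact hx ⟨Ψ t, h2⟩)
    have h2 : av (ρ.comp N.subtype) (av (ρ.comp Ψ) v) = av (ρ.comp Ψ) v :=
      av_of_fix (ρ.comp N.subtype) hfx
    rw [← h2, h1.2, hv]
  have hδ' : 0 ≤ c1' * e + (2 * ((c1' * e + 2 * (c2' * e)) / Real.sqrt κ1) + 2 * (c2' * e)) := by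
    positivity
  have hF := jn_c hD.gen (ρ.comp Ψ) v hav hδ' (fun u hu => by
      refine (hB u hu).trans ?_
      have : 0 ≤ c1' * e := by positivity
      linarith) (fun q => by
      have h1 := hA1 (fun k _ => q k)
      refine h1.trans ?_
      have : 0 ≤ 2 * ((c1' * e + 2 * (c2' * e)) / Real.sqrt κ1) + 2 * (c2' * e) := by
        positivity
      linarith)
  have h3 : 32 * (C : ℝ) * (c1' * e + (2 * ((c1' * e + 2 * (c2' * e)) / Real.sqrt κ1) +
      2 * (c2' * e))) ^ 2 = (c3 * e) ^ 2 := by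
    have h4 : c3 * e = Real.sqrt (32 * (C : ℝ)) * (c1' * e +
        (2 * ((c1' * e + 2 * (c2' * e)) / Real.sqrt κ1) + 2 * (c2' * e))) := by
      rw [hc3']
      field_simp
    rw [h4, mul_pow, Real.sq_sqrt (by positivity)]
  rw [hv1, h3] at hF
  have h5 : 0 ≤ c3 * e := by positivity
  nlinarith

end Pool.Agent.MPfe8e9bN
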