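import Mathlib
import Pool.Agent.Lib.MP_fe8e9b_al_M.Defs
import Pool.Agent.Lib.MP_fe8e9b_al_M.PrB
import Pool.Agent.Lib.MP_fe8e9b_al_M.QGap
import Pool.Agent.Lib.MP_fe8e9b_al_M.LDat
import Pool.Agent.Lib.MP_fe8e9b_al_M.MainE
import Pool.Agent.Lib.MP_fe8e9b_al_N.Defs
import Pool.Agent.Lib.MP_fe8e9b_al_N.MainE2
import Pool.Agent.Lib.MP_fe8e9b_al.FinalG

/-!
# MP_fe8e9b_al, groups of bounded height: from the main estimate to a gap, second version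
-/

set_option autoImplicit false

open scoped BigOperators

namespace Pool.Agent.MPfe8e9bN

open Pool.Agent.MPfe8e9b Pool.Agent.MPfe8e9bA Pool.Agent.MPfe8e9bW Pool.Agent.MPfe8e9bV
open Pool.Agent.MPfe8e9bM

/-- A gap for `G` from the gap of the quotient and the main estimate.

Proof. `δ₀` from `main_e`, `κ = min κQ (δ₀²)`. `FExpd (G ⧸ N) kQ κQ` gives a tuple `q` with
`Gap q κQ` (`FExpd.expd`); lift `q i` to `s i ∈ H` (`hD.cov`). `FExpd (∀ k, S k → T k) kK κK` gives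
`xs`. The tuple of `G` is `Fin.append s (fun j => Ψ (phi lab (xs j)))`. `gap_of_rep`: let
`av ρ v = 0`, `vN = av (ρ.comp N.subtype) v`, `v' = v - vN`. `G` commutes with the average over `N`
(`av_comm`, normality), so for every letter `‖ρ l v - v‖² = ‖ρ l vN - vN‖² + ‖ρ l v' - v'‖²`
(`ρ l vN - vN` is fixed and `ρ l v' - v'` is killed by the average). `quot_gap` for `H := G`,
`π = QuotientGroup.mk' N`, `x = vN` (fixed by `N`; `av ρ vN = 0`): `κQ ‖vN‖² ≤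
∑ ‖ρ (s i) vN - vN‖²`. `main_e` for `v' / ‖v'‖` (if `v' ≠ 0`): some letter moves `v'` by more than
`δ₀ ‖v'‖`, so `δ₀² ‖v'‖² ≤ ∑`. -/
theorem main_g2 (kK kQ C : ℕ) {κK κQ κ1 : ℝ} (hκK : 0 < κK) (hκQ : 0 < κQ) (hκ1 : 0 < κ1) :
    ∃ κ : ℝ, 0 < κ ∧ ∀ (G K : Type) [Group G] [Fintype G] [Fintype K] (Y S T : K → Type)
    [∀ k, Fintype (Y k)] [∀ k, Fintype (S k)] [∀ k, Group (T k)] [∀ k, Fintype (T k)]
    (Ψ : (∀ k, Y k → T k) →* G) (T0 : ∀ k, Subgroup (T k)) [∀ k, Fintype (T0 k)]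
    (H : Subgroup G) (_ : LD2 C Ψ T0 H) (lab : ∀ k, Y k → S k) (_ : Est Ψ T0 H lab κ1)
    (N : Subgroup G) [N.Normal] (_ : N = Ψ.range) (_ : FExpd (G ⧸ N) kQ κQ)
    (_ : FExpd (∀ k, S k → T k) kK κK), FExpd G (kQ + kK) κ := by
  obtain ⟨δ₀, hδ, hmain⟩ := main_e2 kK kQ C hκK hκQ hκ1
  refine ⟨min κQ (δ₀ ^ 2), lt_min hκQ (by positivity), ?_⟩
  intro G K _ _ _ Y S T _ _ _ _ Ψ T0 _ H hD lab hE N _ hN hQ hX
  classical
  let _ : Fintype (G ⧸ N) := Fintype.ofFinite _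
  let _ : Fintype N := Fintype.ofFinite _
  let _ : Fintype (∀ k, S k → T k) := Fintype.ofFinite _
  obtain ⟨q, hq⟩ := hQ.expd
  obtain ⟨xs, hxs⟩ := hX.expd
  have hlift : ∀ i, ∃ h ∈ H, ((h : G) : G ⧸ N) = q i := by
    intro i
    obtain ⟨g, hg⟩ := QuotientGroup.mk_surjective (q i)
    obtain ⟨h, hh, n, hn, hgn⟩ := hD.cov g
    refine ⟨h, hh, ?_⟩
    rw [← hg, QuotientGroup.eq, hgn, inv_mul_cancel_left, hN]
    exact hn
  choose s hs hsq using hlift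
  have hgap : Gap (fun i => (s i : G ⧸ N)) κQ := by
    have h1 : (fun i => (s i : G ⧸ N)) = q := funext hsq
    rw [h1]
    exact hq
  refine ⟨inferInstance, Fin.append s (fun j => Ψ (phi lab (xs j))), ?_⟩
  refine gap_of_rep (fun V _ _ _ ρ v hv => ?_)
  rw [Fin.sum_univ_add]
  simp only [Fin.append_left, Fin.append_right]
  obtain ⟨ρN, hρN⟩ : ∃ r : N →* (V ≃ₗᵢ[ℂ] V), r = ρ.comp N.subtype := ⟨_, rfl⟩
  have eN : ∀ (n : N) x, ρN n x = ρ n.1 x := by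
    intro n x
    rw [hρN]
    rfl
  have hP : IsP (av ρN) := ⟨av_symm _, av_idem _⟩
  have hP' : IsP (av ρ) := ⟨av_symm _, av_idem _⟩
  have hcomm : ∀ g x, ρ g (av ρN x) = av ρN (ρ g x) := by
    intro g x
    refine av_comm ρN (ρ g) (MulAut.conjNormal g).toEquiv (fun n y => ?_) x
    rw [eN, eN]
    have h1 : ρ (g * n.1) y = ρ ((MulAut.conjNormal g n : N).1 * g) y := by
      rw [MulAut.conjNormal_apply, inv_mul_cancel_right]
    rw [map_mul, map_mul] at h1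
    exact h1
  obtain ⟨vN, hvN⟩ : ∃ x, x = av ρN v := ⟨_, rfl⟩
  obtain ⟨v', hv'⟩ : ∃ x, x = v - av ρN v := ⟨_, rfl⟩
  have hsplit : ∀ g, ‖ρ g v - v‖ ^ 2 = ‖ρ g vN - vN‖ ^ 2 + ‖ρ g v' - v'‖ ^ 2 := by
    intro g
    have h1 := isP_norm_sq hP (ρ g v - v)
    have h2 : av ρN (ρ g v - v) = ρ g vN - vN := by
      rw [map_sub, ← hcomm, hvN]
    have h3 : ρ g v - v - (ρ g vN - vN) = ρ g v' - v' := by
      rw [hv', map_sub, ← hvN]
      abel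
    rw [h2, h3] at h1
    exact h1
  have hnorm : ‖v‖ ^ 2 = ‖vN‖ ^ 2 + ‖v'‖ ^ 2 := by
    rw [hvN, hv']
    exact isP_norm_sq hP v
  have h0 : av ρ vN = 0 := by
    have h1 := (isP_le hP hP' (fun x hx => by
      rw [av_eq_iff] at hx ⊢
      intro n
      rw [eN]
      exact hx n.1)).2 v
    rw [hvN, h1, hv]
  have hq1 := quot_gap (QuotientGroup.mk' N) (QuotientGroup.mk'_surjective N) hgap ρ vN (by
    intro a ha
    have ha' : a ∈ N := (QuotientGroup.eq_one_iff a).1 ha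
    have h1 := rho_av ρN ⟨a, ha'⟩ v
    rw [eN] at h1
    rw [hvN]
    exact h1)
  rw [h0, sub_zero] at hq1
  have hv0 : av ρN v' = 0 := by
    rw [hv', map_sub, av_idem, sub_self]
  have hmove : δ₀ ^ 2 * ‖v'‖ ^ 2 ≤ ∑ i, ‖ρ (s i) v' - v'‖ ^ 2 +
      ∑ j, ‖ρ (Ψ (phi lab (xs j))) v' - v'‖ ^ 2 := by
    have hA : 0 ≤ ∑ i, ‖ρ (s i) v' - v'‖ ^ 2 := Finset.sum_nonneg fun i _ => by positivity
    have hB : 0 ≤ ∑ j, ‖ρ (Ψ (phi lab (xs j))) v' - v'‖ ^ 2 :=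
      Finset.sum_nonneg fun i _ => by positivity
    by_cases hz : v' = 0
    · rw [hz, norm_zero]
      rw [hz] at hA hB
      have : δ₀ ^ 2 * (0 : ℝ) ^ 2 = 0 := by ring
      rw [this]
      exact add_nonneg hA hB
    · have hn : 0 < ‖v'‖ := norm_pos_iff.2 hz
      have hc : ‖(((‖v'‖)⁻¹ : ℝ) : ℂ)‖ = (‖v'‖)⁻¹ := by
        rw [Complex.norm_real, Real.norm_of_nonneg (inv_nonneg.2 hn.le)]
      have hlet : ∀ g, ρ g ((((‖v'‖)⁻¹ : ℝ) : ℂ) • v') - (((‖v'‖)⁻¹ : ℝ) : ℂ) • v' =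
          (((‖v'‖)⁻¹ : ℝ) : ℂ) • (ρ g v' - v') := by
        intro g
        rw [map_smul, smul_sub]
      have hlet2 : ∀ g, δ₀ < ‖ρ g ((((‖v'‖)⁻¹ : ℝ) : ℂ) • v') - (((‖v'‖)⁻¹ : ℝ) : ℂ) • v'‖ →
          δ₀ ^ 2 * ‖v'‖ ^ 2 ≤ ‖ρ g v' - v'‖ ^ 2 := by
        intro g hg
        rw [hlet, norm_smul, hc, inv_mul_eq_div, lt_div_iff₀ hn] at hg
        rw [← mul_pow]
        exact pow_le_pow_left₀ (by positivity) hg.le 2
      rcases hmain G K Y S T Ψ T0 H hD lab hE N hN s hs hgap xs hxs V ρ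
          ((((‖v'‖)⁻¹ : ℝ) : ℂ) • v') (by
            rw [← hρN, map_smul, hv0, smul_zero]) (by
            rw [norm_smul, hc, inv_mul_cancel₀ hn.ne']) with ⟨i, hi⟩ | ⟨j, hj⟩
      · have h1 := hlet2 _ hi
        have h2 := Finset.single_le_sum (f := fun i => ‖ρ (s i) v' - v'‖ ^ 2)
          (fun i _ => by positivity) (Finset.mem_univ i)
        linarith
      · have h1 := hlet2 _ hj
        have h2 := Finset.single_le_sum (f := fun j => ‖ρ (Ψ (phi lab (xs j))) v' - v'‖ ^ 2)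
          (fun i _ => by positivity) (Finset.mem_univ j)
        linarith
  have hC : 0 ≤ ∑ j, ‖ρ (Ψ (phi lab (xs j))) vN - vN‖ ^ 2 :=
    Finset.sum_nonneg fun i _ => by positivity
  rw [Finset.sum_congr rfl fun i _ => hsplit (s i),
    Finset.sum_congr rfl fun j _ => hsplit (Ψ (phi lab (xs j))), Finset.sum_add_distrib,
    Finset.sum_add_distrib, hnorm, mul_add]
  have h1 : min κQ (δ₀ ^ 2) * ‖vN‖ ^ 2 ≤ κQ * ‖vN‖ ^ 2 :=
    mul_le_mul_of_nonneg_right (min_le_left _ _) (by positivity)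
  have h2 : min κQ (δ₀ ^ 2) * ‖v'‖ ^ 2 ≤ δ₀ ^ 2 * ‖v'‖ ^ 2 :=
    mul_le_mul_of_nonneg_right (min_le_right _ _) (by positivity)
  linarith

end Pool.Agent.MPfe8e9bN
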