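import Mathlib
import Pool.Agent.Lib.MP_fe8e9b_al_M.SGA
import Pool.Agent.Lib.MP_fe8e9b_al_N.Defs
import Pool.Agent.Lib.MP_fe8e9b_al_N.SGT2

/-!
# MP_fe8e9b_al, groups of bounded height: the structure on alternating groups, second version
-/

set_option autoImplicit false

open scoped BigOperators

namespace Pool.Agent.MPfe8e9bN

open Pool.Agent.MPfe8e9b Pool.Agent.MPfe8e9bA Pool.Agent.MPfe8e9bW Pool.Agent.MPfe8e9bV
open Pool.Agent.MPfe8e9bM

/-- One good element is enough in a group with at most 400 elements. -/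
private theorem sga2_cv {T : Type} [Group T] [Finite T] [IsSimpleGroup T] {τ : MulAut T}
    (hc : Nat.card T ≤ 400) {t : T} (ht : cm t (τ t) ≠ 1) : CV 400 T τ := by
  have h1 : Cov 400 (cm t (τ t)) := cov_mono hc (cov_simple ht)
  have h2 : 0 < Nat.card {t : T // Cov 400 (cm t (τ t))} := by
    have : Nonempty {t : T // Cov 400 (cm t (τ t))} := ⟨⟨t, h1⟩⟩
    exact Nat.card_pos
  show Nat.card T ≤ _
  exact hc.trans (Nat.le_mul_of_pos_right 400 h2)

private theorem sga2_card (n : ℕ) (hn : 2 ≤ n) :
    2 * Nat.card (alternatingGroup (Fin n)) = n.factorial := by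
  have : Nontrivial (Fin n) := Fin.nontrivial_iff_two_le.mpr hn
  rw [nat_card_alternatingGroup, Nat.card_eq_fintype_card, Fintype.card_fin]
  exact Nat.mul_div_cancel' ((Nat.dvd_factorial (by norm_num) hn))

/-- Covering in the alternating group of degree five.

Proof. One good element is enough, as the group has at most 400 elements: the 3-cycle `t = (1 2 3)`
and its conjugate `(0 2 3)` by the transposition `(0 1)` do not commute (evaluate); `cov_simple`,
`cov_mono`. The group has 60 elements. -/
theorem cv_alt5 : CV 400 (alternatingGroup (Fin 5))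
    (MulAut.conjNormal (Equiv.swap (0 : Fin 5) 1)) := by
  have hs : IsSimpleGroup (alternatingGroup (Fin 5)) :=
    alternatingGroup.isSimpleGroup (by simp)
  have hc := sga2_card 5 (by norm_num)
  have h120 : (5 : ℕ).factorial = 120 := rfl
  refine sga2_cv (by omega)
    (t := ⟨Equiv.swap (1 : Fin 5) 2 * Equiv.swap 2 3, by
      rw [Equiv.Perm.mem_alternatingGroup]; decide⟩) fun h => ?_
  have h1 := congrArg (fun g : alternatingGroup (Fin 5) => (g : Equiv.Perm (Fin 5)) 0) h
  simp only [cm] at h1
  revert h1
  decide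

/-- Covering in the alternating group of degree six. Proof. As `cv_alt5`; 360 elements. -/
theorem cv_alt6 : CV 400 (alternatingGroup (Fin 6))
    (MulAut.conjNormal (Equiv.swap (0 : Fin 6) 1)) := by
  have hs : IsSimpleGroup (alternatingGroup (Fin 6)) :=
    alternatingGroup.isSimpleGroup (by simp)
  have hc := sga2_card 6 (by norm_num)
  have h720 : (6 : ℕ).factorial = 720 := rfl
  refine sga2_cv (by omega)
    (t := ⟨Equiv.swap (1 : Fin 6) 2 * Equiv.swap 2 3, by
      rw [Equiv.Perm.mem_alternatingGroup]; decide⟩) fun h => ?_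
  have h1 := congrArg (fun g : alternatingGroup (Fin 6) => (g : Equiv.Perm (Fin 6)) 0) h
  simp only [cm] at h1
  revert h1
  decide

/-- The structure on the alternating group. -/
theorem sg_alt2 {n : ℕ} (hn : 5 ≤ n) : SG2 400 (alternatingGroup (Fin n)) (A0 n) (L0 n) := by
  have h := sg_alt hn
  refine ⟨h.prf, h.inn, h.stb, gen_mono (by norm_num) (gen_of_prd h.prd),
    h.crd.trans (Nat.pow_le_pow_right Nat.card_pos (by norm_num)), ?_⟩
  rcases h.typ with h1 | ⟨h1, φ, h2⟩ | ⟨h1, φ, h2⟩
  · exact Or.inl h1
  · refine Or.inr (typ_top h1 (cv_congr φ.symm cv_alt5) fun l hl => ?_)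
    rcases h2 l hl with h3 | h3
    · exact Or.inl h3
    · right
      refine MulEquiv.ext fun t => φ.injective ?_
      rw [h3]
      exact (φ.apply_symm_apply _).symm
  · refine Or.inr (typ_top h1 (cv_congr φ.symm cv_alt6) fun l hl => ?_)
    rcases h2 l hl with h3 | h3
    · exact Or.inl h3
    · right
      refine MulEquiv.ext fun t => φ.injective ?_
      rw [h3]
      exact (φ.apply_symm_apply _).symm

end Pool.Agent.MPfe8e9bN
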