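import Mathlib
import Pool.Agent.Lib.MP_fe8e9b_al_M.LayB
import Pool.Agent.Lib.MP_fe8e9b_al_N.Defs
import Pool.Agent.Lib.MP_fe8e9b_al_N.SGT2
import Pool.Agent.Lib.MP_fe8e9b_al_N.SGA2
import Pool.Agent.Lib.MP_fe8e9b_al_N.LayA2
import Pool.Agent.Lib.MP_fe8e9b_al_N.PslE

/-!
# MP_fe8e9b_al, groups of bounded height: a layer of components, second version
-/

set_option autoImplicit false

open scoped BigOperators

namespace Pool.Agent.MPfe8e9bN

open Pool.Agent.MPfe8e9b Pool.Agent.MPfe8e9bA Pool.Agent.MPfe8e9bW Pool.Agent.MPfe8e9bV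
open Pool.Agent.MPfe8e9bM

/-- `S` is a product of `L` images of `SL m F`, `F` a field of order `q`; it is generated by `C`
conjugates (under elements of `S`) of the perfect subgroup `S₀`, and the elements which normalize
`S` act on `S₀` as elements of `S`. -/
def LieComp2 {G : Type} [Group G] (L C : ℕ) (S S₀ : Subgroup G) (m q : ℕ) : Prop :=
  2 ≤ m ∧ (∃ (F : Type) (_ : Field F) (_ : Fintype F), Fintype.card F = q ∧
    SLProduct L m F S) ∧ S₀ ≤ S ∧ commutator S₀ = ⊤ ∧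
  (∃ h : Fin C → G, (∀ j, h j ∈ S) ∧
    ∀ R : Subgroup G, (∀ j, ∀ x ∈ S₀, h j * x * (h j)⁻¹ ∈ R) → S ≤ R) ∧
  ∀ g : G, (∀ s, s ∈ S ↔ g * s * g⁻¹ ∈ S) → ∃ t ∈ S, ∀ x ∈ S₀, g * x * g⁻¹ = t * x * t⁻¹

/-- `G` is generated by `d` elements, and `𝒮` is a set of pairwise commuting nonabelian simple
subgroups of `G`, closed under conjugation. Those not in `𝒯` are alternating groups (`AltComp`) or
groups `PSL_2` (`PslComp`); those in `𝒯` are of Lie type and tame (`LieComp2`), with few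
isomorphism classes of pairs `(S, S₀)`. -/
def CompLayer2 (d L C : ℕ) (G : Type) [Group G] (𝒮 : Set (Subgroup G)) : Prop :=
  (∃ T : Finset G, T.card ≤ d ∧ Subgroup.closure (T : Set G) = ⊤) ∧
  (∀ S ∈ 𝒮, ∀ g : G, S.map (MulAut.conj g).toMonoidHom ∈ 𝒮) ∧
  (∀ S ∈ 𝒮, IsSimpleGroup S ∧ ∃ a ∈ S, ∃ b ∈ S, a * b ≠ b * a) ∧
  (∀ S ∈ 𝒮, ∀ S' ∈ 𝒮, S ≠ S' → ∀ a ∈ S, ∀ b ∈ S', a * b = b * a) ∧
  ∃ (𝒯 : Set (Subgroup G)) (S₀ : Subgroup G → Subgroup G) (m q c : Subgroup G → ℕ),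
    (∀ S ∈ 𝒮, S ∉ 𝒯 → (∃ n, AltComp S n) ∨ ∃ q' k, PslComp S q' k) ∧
    (∀ S ∈ 𝒮, S ∈ 𝒯 → LieComp2 L C S (S₀ S) (m S) (q S) ∧ c S < q S ^ (C * m S ^ 2)) ∧
    ∀ S ∈ 𝒮, S ∈ 𝒯 → ∀ S' ∈ 𝒮, S' ∈ 𝒯 → m S = m S' → q S = q S' → c S = c S' →
      ∃ e : S ≃* S', ∀ s : S, (s : G) ∈ S₀ S ↔ (e s : G) ∈ S₀ S'

private theorem layb2_perf_of_equiv {A B : Type} [Group A] [Group B] (e : A ≃* B)
    (h : commutator A = ⊤) : commutator B = ⊤ := by
  have h1 := Subgroup.map_commutator (⊤ : Subgroup A) ⊤ e.toMonoidHom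
  have h2 : Subgroup.map e.toMonoidHom (⊤ : Subgroup A) = ⊤ :=
    Subgroup.map_top_of_surjective _ e.surjective
  have h3 : ⁅(⊤ : Subgroup A), ⊤⁆ = ⊤ := h
  rw [h3, h2] at h1
  exact h1.symm

open scoped commutatorElement in
private theorem layb2_perf_simple {A : Type} [Group A] (hs : IsSimpleGroup A)
    (h : ∃ a b : A, a * b ≠ b * a) : commutator A = ⊤ := by
  rcases IsSimpleGroup.eq_bot_or_eq_top_of_normal (commutator A) inferInstance with h1 | h1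
  · obtain ⟨a, b, hab⟩ := h
    exfalso
    have h2 : ⁅a, b⁆ ∈ commutator A := Subgroup.commutator_mem_commutator
      (Subgroup.mem_top a) (Subgroup.mem_top b)
    rw [h1, Subgroup.mem_bot, commutatorElement_eq_one_iff_mul_comm] at h2
    exact hab h2
  · exact h1

/-- The family of the components. -/
theorem layb2_cmp {G : Type} [Group G] {𝒮 : Set (Subgroup G)}
    (hcj : ∀ S ∈ 𝒮, ∀ g : G, S.map (MulAut.conj g).toMonoidHom ∈ 𝒮)
    (hsm : ∀ S ∈ 𝒮, IsSimpleGroup S ∧ ∃ a ∈ S, ∃ b ∈ S, a * b ≠ b * a)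
    (hcm : ∀ S ∈ 𝒮, ∀ S' ∈ 𝒮, S ≠ S' → ∀ a ∈ S, ∀ b ∈ S', a * b = b * a) :
    ∃ act : G →* Equiv.Perm 𝒮, Cmp (fun x : 𝒮 => x.1) act := by
  obtain ⟨f, hf⟩ : ∃ f : G → 𝒮 → 𝒮, ∀ g x, (f g x).1 = x.1.map (MulAut.conj g).toMonoidHom :=
    ⟨fun g x => ⟨x.1.map (MulAut.conj g).toMonoidHom, hcj x.1 x.2 g⟩, fun g x => rfl⟩
  have hf1 : ∀ x, f 1 x = x := by
    intro x
    refine Subtype.ext ?_
    rw [hf]
    ext a
    rw [Subgroup.mem_map]
    constructor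
    · rintro ⟨b, hb, rfl⟩
      change (1 : G) * b * 1⁻¹ ∈ x.1
      rw [one_mul, inv_one, mul_one]
      exact hb
    · intro ha
      refine ⟨a, ha, ?_⟩
      change (1 : G) * a * 1⁻¹ = a
      rw [one_mul, inv_one, mul_one]
  have hfm : ∀ a b x, f (a * b) x = f a (f b x) := by
    intro a b x
    refine Subtype.ext ?_
    rw [hf, hf, hf, Subgroup.map_map]
    refine congrArg (fun φ => x.1.map φ) ?_
    refine MonoidHom.ext fun y => ?_
    change a * b * y * (a * b)⁻¹ = a * (b * y * b⁻¹) * a⁻¹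
    group
  refine ⟨{ toFun := fun g => ⟨f g, f g⁻¹, fun x => ?_, fun x => ?_⟩
            map_one' := ?_
            map_mul' := ?_ }, ?_⟩
  · rw [← hfm, inv_mul_cancel, hf1]
  · rw [← hfm, mul_inv_cancel, hf1]
  · exact Equiv.ext fun x => hf1 x
  · intro a b
    exact Equiv.ext fun x => hfm a b x
  · refine ⟨fun x => (hsm x.1 x.2).1, fun x => ?_, fun x y hxy => ?_, fun g x a ha => ?_⟩
    · obtain ⟨h1, a, ha, b, hb, hab⟩ := hsm x.1 x.2
      refine layb2_perf_simple h1 ⟨⟨a, ha⟩, ⟨b, hb⟩, fun h2 => hab ?_⟩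
      exact congrArg Subtype.val h2
    · exact hcm x.1 x.2 y.1 y.2 fun h => hxy (Subtype.ext h)
    · change g * a * g⁻¹ ∈ (f g x).1
      rw [hf, Subgroup.mem_map]
      exact ⟨a, ha, rfl⟩

/-- One component with a model. -/
theorem layb2_mod {G : Type} [Group G] [Finite G] (S : Subgroup G) {T : Type} [Group T]
    [Finite T] {c : ℕ} {S0 : Subgroup T} {L : Subgroup (MulAut T)} (φ : S ≃* T)
    (h1 : SG2 c T S0 L)
    (h2 : ∀ g : G, (∀ s, s ∈ S ↔ g * s * g⁻¹ ∈ S) → ∃ t : T, ∃ l ∈ L,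
      ∀ s s' : S, (s' : G) = g * s * g⁻¹ → φ s' = t * l (φ s) * t⁻¹) :
    SG2 c S (S0.map φ.symm.toMonoidHom) (L.map (MulAut.congr φ.symm).toMonoidHom) ∧
      ∀ g : G, (∀ s, s ∈ S ↔ g * s * g⁻¹ ∈ S) → ∃ t : S,
        ∃ l ∈ L.map (MulAut.congr φ.symm).toMonoidHom, ∀ s : S,
          g * (s : G) * g⁻¹ = ((t * l s * t⁻¹ : S) : G) := by
  refine ⟨sg2_transport φ.symm h1, fun g hg => ?_⟩
  obtain ⟨t, l, hl, htl⟩ := h2 g hg
  refine ⟨φ.symm t, MulAut.congr φ.symm l, Subgroup.mem_map_of_mem _ hl, fun s => ?_⟩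
  obtain ⟨s', hs'⟩ : ∃ s' : S, (s' : G) = g * s * g⁻¹ := ⟨⟨_, (hg s).1 s.2⟩, rfl⟩
  have h3 : s' = φ.symm t * MulAut.congr φ.symm l s * (φ.symm t)⁻¹ := by
    apply φ.injective
    rw [htl s s' hs', map_mul, map_mul, map_inv, MulEquiv.apply_symm_apply]
    change t * l (φ s) * t⁻¹ = t * φ (φ.symm (l (φ s))) * t⁻¹
    rw [MulEquiv.apply_symm_apply]
  rw [← hs', h3]

/-- One component of alternating type. -/
theorem layb2_alt {G : Type} [Group G] [Finite G] (S : Subgroup G) (n : ℕ) (h : AltComp S n) :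
    ∃ φ : S ≃* alternatingGroup (Fin n),
      SG2 400 S ((A0 n).map φ.symm.toMonoidHom)
        ((L0 n).map (MulAut.congr φ.symm).toMonoidHom) ∧
      ∀ g : G, (∀ s, s ∈ S ↔ g * s * g⁻¹ ∈ S) → ∃ t : S,
        ∃ l ∈ (L0 n).map (MulAut.congr φ.symm).toMonoidHom, ∀ s : S,
          g * (s : G) * g⁻¹ = ((t * l s * t⁻¹ : S) : G) := by
  obtain ⟨hn, φ, hφ⟩ := h
  refine ⟨φ, layb2_mod S φ (sg_alt2 hn) fun g hg => ?_⟩
  obtain ⟨σ, hσ⟩ := hφ g hg
  obtain ⟨t, l, hl, htl⟩ := alt_auto hn σ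
  refine ⟨t, l, hl, fun s s' hs => ?_⟩
  rw [← htl]
  exact Subtype.ext (hσ s s' hs)

/-- One component of Lie type. -/
theorem layb2_lie {G : Type} [Group G] [Finite G] (L C : ℕ) (S S₀ : Subgroup G) (m q : ℕ)
    (h : LieComp2 L C S S₀ m q) :
    SG2 C S (S₀.subgroupOf S) (cen (S₀.subgroupOf S)) ∧
      ∀ g : G, (∀ s, s ∈ S ↔ g * s * g⁻¹ ∈ S) → ∃ t : S,
        ∃ l ∈ cen (S₀.subgroupOf S), ∀ s : S,
          g * (s : G) * g⁻¹ = ((t * l s * t⁻¹ : S) : G) := by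
  obtain ⟨-, -, hle, hpf, ⟨c, hc, hcx⟩, hno⟩ := h
  constructor
  · refine sg2_tame (S₀.subgroupOf S)
      (layb2_perf_of_equiv (Subgroup.subgroupOfEquivOfLe hle).symm hpf) ?_
    refine ⟨fun j => ⟨c j, hc j⟩, fun R hR => ?_⟩
    have h1 := hcx (R.map S.subtype) (fun j x hx => by
      have h2 := hR j ⟨x, hle hx⟩ (Subgroup.mem_subgroupOf.2 hx)
      exact ⟨_, h2, rfl⟩)
    rw [eq_top_iff]
    intro s _
    obtain ⟨r, hr, hrs⟩ := h1 s.2
    have h2 : r = s := Subtype.ext hrs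
    rwa [← h2]
  · intro g hg
    obtain ⟨t, ht, htx⟩ := hno g hg
    have h1 : ∀ s, s ∈ S → t⁻¹ * (g * s * g⁻¹) * t ∈ S := fun s hs =>
      S.mul_mem (S.mul_mem (S.inv_mem ht) ((hg s).1 hs)) ht
    have h2 : ∀ s, s ∈ S → g⁻¹ * (t * s * t⁻¹) * g ∈ S := fun s hs => by
      refine (hg _).2 ?_
      have h3 : g * (g⁻¹ * (t * s * t⁻¹) * g) * g⁻¹ = t * s * t⁻¹ := by group
      rw [h3]
      exact S.mul_mem (S.mul_mem ht hs) (S.inv_mem ht)
    refine ⟨⟨t, ht⟩, { toFun := fun s => ⟨_, h1 s s.2⟩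
                       invFun := fun s => ⟨_, h2 s s.2⟩
                       left_inv := fun s => Subtype.ext ?_
                       right_inv := fun s => Subtype.ext ?_
                       map_mul' := fun a b => Subtype.ext ?_ }, fun s hs => Subtype.ext ?_,
      fun s => ?_⟩
    · change g⁻¹ * (t * (t⁻¹ * (g * s * g⁻¹) * t) * t⁻¹) * g = s
      group
    · change t⁻¹ * (g * (g⁻¹ * (t * s * t⁻¹) * g) * g⁻¹) * t = s
      group
    · change t⁻¹ * (g * (a * b : G) * g⁻¹) * t =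
        (t⁻¹ * (g * a * g⁻¹) * t) * (t⁻¹ * (g * b * g⁻¹) * t)
      group
    · change t⁻¹ * (g * s * g⁻¹) * t = s
      rw [htx s (Subgroup.mem_subgroupOf.1 hs)]
      group
    · change g * (s : G) * g⁻¹ = t * (t⁻¹ * (g * s * g⁻¹) * t) * t⁻¹
      group

private theorem layb2_map_iff {T A : Type} [Group T] [Group A] (φ : T ≃* A)
    (L : Subgroup (MulAut A)) (l : MulAut T) :
    l ∈ L.map (MulAut.congr φ.symm).toMonoidHom ↔ MulAut.congr φ l ∈ L := by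
  have h2 : ∀ l : MulAut T, MulAut.congr φ.symm (MulAut.congr φ l) = l := by
    intro l
    refine MulEquiv.ext fun s => ?_
    change φ.symm (φ (l (φ.symm (φ s)))) = l s
    rw [MulEquiv.symm_apply_apply, MulEquiv.symm_apply_apply]
  have h3 : ∀ l : MulAut A, MulAut.congr φ (MulAut.congr φ.symm l) = l := by
    intro l
    refine MulEquiv.ext fun s => ?_
    change φ (φ.symm (l (φ (φ.symm s)))) = l s
    rw [MulEquiv.apply_symm_apply, MulEquiv.apply_symm_apply]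
  rw [Subgroup.mem_map]
  constructor
  · rintro ⟨l', hl', rfl⟩
    change MulAut.congr φ (MulAut.congr φ.symm l') ∈ L
    rw [h3]
    exact hl'
  · intro h
    exact ⟨_, h, h2 l⟩

/-- Two components with the same model. -/
theorem layb2_iso {A B T : Type} [Group A] [Group B] [Group T] (L : Subgroup (MulAut T))
    (φ : A ≃* T) (ψ : B ≃* T) : ∃ e : A ≃* B, ∀ l : MulAut A,
      l ∈ L.map (MulAut.congr φ.symm).toMonoidHom ↔
        MulAut.congr e l ∈ L.map (MulAut.congr ψ.symm).toMonoidHom := by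
  refine ⟨φ.trans ψ.symm, fun l => ?_⟩
  rw [layb2_map_iff, layb2_map_iff]
  have h2 : MulAut.congr ψ (MulAut.congr (φ.trans ψ.symm) l) = MulAut.congr φ l := by
    refine MulEquiv.ext fun s => ?_
    change ψ (ψ.symm (φ (l (φ.symm (ψ (ψ.symm s)))))) = φ (l (φ.symm s))
    rw [MulEquiv.apply_symm_apply, MulEquiv.apply_symm_apply]
  rw [h2]

/-- More images. -/
theorem layb2_prod {L m : ℕ} {F S : Type} [Field F] [Group S] (h : SLProduct L m F S) :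
    SLProduct (L + 1) m F S := by
  obtain ⟨φ, hφ⟩ := h
  refine ⟨Fin.cons 1 φ, fun g => ?_⟩
  obtain ⟨x, hx⟩ := hφ g
  refine ⟨Fin.cons 1 x, ?_⟩
  rw [List.ofFn_succ, List.prod_cons, hx]
  simp only [Fin.cons_zero, Fin.cons_succ, map_one, one_mul]

/-- The bound for the keys. -/
theorem layb2_key (C m q c : ℕ) (hm : 2 ≤ m) (hq : 2 ≤ q) (hc : c < q ^ (C * m ^ 2)) :
    c + q + 1 < q ^ ((C + 1) * m ^ 2) := by
  have h1 : q ^ 4 ≤ q ^ (m ^ 2) := Nat.pow_le_pow_right (by omega) (by nlinarith)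
  have h2 : q + 2 ≤ q ^ 4 := by
    have h3 : 2 ^ 3 ≤ q ^ 3 := Nat.pow_le_pow_left hq 3
    have h4 : q ^ 4 = q ^ 3 * q := pow_succ q 3
    nlinarith
  have h3 : 1 ≤ q ^ (C * m ^ 2) := Nat.one_le_pow _ _ (by omega)
  rw [add_mul, one_mul, pow_add]
  have h5 : q ^ (C * m ^ 2) * (q + 2) ≤ q ^ (C * m ^ 2) * q ^ (m ^ 2) :=
    Nat.mul_le_mul_left _ (h2.trans h1)
  nlinarith

/-- The structures for all components, with a key. -/
theorem layb2_data {d L C : ℕ} {G : Type} [Group G] [Finite G] {𝒮 : Set (Subgroup G)}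
    (h : CompLayer2 d L C G 𝒮) (act : G →* Equiv.Perm 𝒮)
    (hC : Cmp (fun x : 𝒮 => x.1) act) :
    ∃ (L' : ∀ x : 𝒮, Subgroup (MulAut x.1)) (S0 : ∀ x : 𝒮, Subgroup x.1)
      (key : 𝒮 → ℕ ⊕ (ℕ × ℕ × ℕ)),
      (∀ (x : 𝒮) (g : G), act g x = x → ∃ t : x.1, ∃ l ∈ L' x, ∀ s : x.1,
        g * (s : G) * g⁻¹ = ((t * l s * t⁻¹ : x.1) : G)) ∧
      (∀ x, SG2 (400 + C) x.1 (S0 x) (L' x)) ∧
      (∀ x y, key x = key y → ∃ e : x.1 ≃* y.1,
        ∀ l : MulAut x.1, l ∈ L' x ↔ MulAut.congr e l ∈ L' y) ∧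
      ∀ x, (∃ n, key x = Sum.inl n ∧ 5 ≤ n ∧ Nonempty (x.1 ≃* alternatingGroup (Fin n))) ∨
        ∃ m q c', key x = Sum.inr (m, q, c') ∧ 2 ≤ m ∧ c' < q ^ ((C + 1) * m ^ 2) ∧
          ∃ (F : Type) (_ : Field F) (_ : Fintype F), Fintype.card F = q ∧
            SLProduct (L + 1) m F x.1 := by
  obtain ⟨-, -, -, -, 𝒯, S₀, m, q, c, hty1, hty2, hiso⟩ := h
  have hno : ∀ (x : 𝒮) (g : G), act g x = x → ∀ s, s ∈ x.1 ↔ g * s * g⁻¹ ∈ x.1 := by
    intro x g hgx s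
    constructor
    · intro hs
      have h1 : g * s * g⁻¹ ∈ (act g x).1 := hC.cnj g x s hs
      rw [hgx] at h1
      exact h1
    · intro hs
      obtain ⟨a, ha, hab⟩ := cmp_onto hC g x (g * s * g⁻¹) (by
        rw [hgx]
        exact hs)
      have h1 : s = a := mul_left_cancel (mul_right_cancel hab)
      rw [h1]
      exact ha
  choose PT PG PS PL hP using psl_mod
  have hone : ∀ x : 𝒮, ∃ (L' : Subgroup (MulAut x.1)) (S0 : Subgroup x.1)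
      (key : ℕ ⊕ (ℕ × ℕ × ℕ)),
      (∀ g : G, (∀ s, s ∈ x.1 ↔ g * s * g⁻¹ ∈ x.1) → ∃ t : x.1, ∃ l ∈ L', ∀ s : x.1,
        g * (s : G) * g⁻¹ = ((t * l s * t⁻¹ : x.1) : G)) ∧
      SG2 (400 + C) x.1 S0 L' ∧
      ((∃ n, key = Sum.inl n ∧ 5 ≤ n ∧ ∃ φ : x.1 ≃* alternatingGroup (Fin n),
        L' = (L0 n).map (MulAut.congr φ.symm).toMonoidHom) ∨
      (∃ q' k, key = Sum.inr (2, q', k) ∧ PslComp x.1 q' k ∧
        ∃ φ : x.1 ≃* PT q' k, L' = (PL q' k).map (MulAut.congr φ.symm).toMonoidHom) ∨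
      (key = Sum.inr (m x.1, q x.1, c x.1 + q x.1 + 1) ∧
        LieComp2 L C x.1 (S₀ x.1) (m x.1) (q x.1) ∧
        c x.1 < q x.1 ^ (C * m x.1 ^ 2) ∧ x.1 ∈ 𝒯 ∧ L' = cen ((S₀ x.1).subgroupOf x.1))) := by
    intro x
    by_cases hx : x.1 ∈ 𝒯
    · obtain ⟨hl, hc⟩ := hty2 x.1 x.2 hx
      obtain ⟨h1, h2⟩ := layb2_lie L C x.1 (S₀ x.1) (m x.1) (q x.1) hl
      exact ⟨_, _, Sum.inr (m x.1, q x.1, c x.1 + q x.1 + 1), h2,
        sg2_mono (Nat.le_add_left C 400) h1, Or.inr (Or.inr ⟨rfl, hl, hc, hx, rfl⟩)⟩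
    · rcases hty1 x.1 x.2 hx with ⟨n, hn⟩ | ⟨q', k, hk⟩
      · obtain ⟨φ, h1, h2⟩ := layb2_alt x.1 n hn
        exact ⟨_, _, Sum.inl n, h2, sg2_mono (Nat.le_add_right 400 C) h1,
          Or.inl ⟨n, rfl, hn.1, φ, rfl⟩⟩
      · obtain ⟨φ, h1, h2⟩ := hP q' k G x.1 hk
        have : Finite (PT q' k) := Finite.of_equiv _ φ.toEquiv
        obtain ⟨h3, h4⟩ := layb2_mod x.1 φ h1 h2
        exact ⟨_, _, Sum.inr (2, q', k), h4,
          sg2_mono ((show 126 ≤ 400 by norm_num).trans (Nat.le_add_right 400 C)) h3,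
          Or.inr (Or.inl ⟨q', k, rfl, hk, φ, rfl⟩)⟩
  choose L' S0 key hno' hSG hkey using hone
  refine ⟨L', S0, key, fun x g hgx => hno' x g (hno x g hgx), hSG, fun x y hxy => ?_,
    fun x => ?_⟩
  · rcases hkey x with ⟨n, hx1, -, φ, hφ⟩ | ⟨q₁, k₁, hx1, hx2, φ, hφ⟩ | ⟨hx1, hx2, -, hxT, hx4⟩
    · rcases hkey y with ⟨n', hy1, -, ψ, hψ⟩ | ⟨q₂, k₂, hy1, -, ψ, hψ⟩ | ⟨hy1, -, -, -⟩
      · have hnn : n = n' := Sum.inl_injective (hx1.symm.trans (hxy.trans hy1))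
        subst hnn
        rw [hφ, hψ]
        exact layb2_iso (L0 n) φ ψ
      · exact absurd (hx1.symm.trans (hxy.trans hy1)) (by simp)
      · exact absurd (hx1.symm.trans (hxy.trans hy1)) (by simp)
    · rcases hkey y with ⟨n', hy1, -, ψ, hψ⟩ | ⟨q₂, k₂, hy1, -, ψ, hψ⟩ | ⟨hy1, hy2, -, -⟩
      · exact absurd (hx1.symm.trans (hxy.trans hy1)) (by simp)
      · have h1 := Sum.inr_injective (hx1.symm.trans (hxy.trans hy1))
        have h2 : q₁ = q₂ := congrArg (fun p => p.2.1) h1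
        have h3 : k₁ = k₂ := congrArg (fun p => p.2.2) h1
        subst h2
        subst h3
        rw [hφ, hψ]
        exact layb2_iso (PL q₁ k₁) φ ψ
      · exfalso
        have h1 := Sum.inr_injective (hx1.symm.trans (hxy.trans hy1))
        have h3 : q₁ = q y.1 := congrArg (fun p => p.2.1) h1
        have h4 : k₁ = c y.1 + q y.1 + 1 := congrArg (fun p => p.2.2) h1
        have h5 := (psl_prod x.1 q₁ k₁ hx2 1 le_rfl).2.1
        omega
    · rcases hkey y with ⟨n', hy1, -, ψ, hψ⟩ | ⟨q₂, k₂, hy1, hy2, ψ, hψ⟩ |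
        ⟨hy1, hy2, -, hyT, hy4⟩
      · exact absurd (hx1.symm.trans (hxy.trans hy1)) (by simp)
      · exfalso
        have h1 := Sum.inr_injective (hx1.symm.trans (hxy.trans hy1))
        have h3 : q x.1 = q₂ := congrArg (fun p => p.2.1) h1
        have h4 : c x.1 + q x.1 + 1 = k₂ := congrArg (fun p => p.2.2) h1
        have h5 := (psl_prod y.1 q₂ k₂ hy2 1 le_rfl).2.1
        omega
      · have h1 := Sum.inr_injective (hx1.symm.trans (hxy.trans hy1))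
        have h2 : m x.1 = m y.1 := congrArg Prod.fst h1
        have h3 : q x.1 = q y.1 := congrArg (fun p => p.2.1) h1
        have h4 : c x.1 + q x.1 + 1 = c y.1 + q y.1 + 1 := congrArg (fun p => p.2.2) h1
        obtain ⟨e, he⟩ := hiso x.1 x.2 hxT y.1 y.2 hyT h2 h3 (by omega)
        refine ⟨e, fun l => ?_⟩
        rw [hx4, hy4]
        refine cen_congr e _ _ (fun s => ?_) l
        rw [Subgroup.mem_subgroupOf, Subgroup.mem_subgroupOf]
        exact he s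
  · rcases hkey x with ⟨n, hx1, hx2, φ, -⟩ | ⟨q', k, hx1, hx2, -⟩ | ⟨hx1, hx2, hx3, -⟩
    · exact Or.inl ⟨n, hx1, hx2, ⟨φ⟩⟩
    · right
      obtain ⟨h1, h2, h3⟩ := psl_prod x.1 q' k hx2 (L + 1) (Nat.le_add_left 1 L)
      refine ⟨2, q', k, hx1, le_rfl, ?_, h3⟩
      have h4 := layb2_key C 2 q' 0 le_rfl (by omega) (Nat.pow_pos (by omega))
      omega
    · right
      obtain ⟨F, iF, iF', hF, hFS⟩ := hx2.2.1
      refine ⟨_, _, _, hx1, hx2.1, ?_, F, iF, iF', hF, layb2_prod hFS⟩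
      refine layb2_key C _ _ _ hx2.1 ?_ hx3
      rw [← hF]
      exact Fintype.one_lt_card

/-- The step of the main theorem. -/
theorem lay_m2 (d L C kQ : ℕ) {κQ : ℝ} (hκQ : 0 < κQ) : ∃ (k : ℕ) (κ : ℝ), 0 < κ ∧
    ∀ (G : Type) [Group G] [Finite G] (𝒮 : Set (Subgroup G)), CompLayer2 d L C G 𝒮 →
    ∀ (N : Subgroup G) [N.Normal], N = sSup 𝒮 → FExpd (G ⧸ N) kQ κQ → FExpd G k κ := by
  obtain ⟨k, κ, hκ, hall⟩ := lay_a2 d (400 + C) (L + 1) (C + 1) kQ hκQ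
  refine ⟨k, κ, hκ, fun G _ _ 𝒮 h N _ hN hQ => ?_⟩
  obtain ⟨act, hact⟩ := layb2_cmp h.2.1 h.2.2.1 h.2.2.2.1
  obtain ⟨L', S0, key, h1, h2, h3, h4⟩ := layb2_data h act hact
  exact hall G 𝒮 (fun x : 𝒮 => x.1) act hact L' h1 S0 h2 key h3 h4 h.1 N
    (hN.trans (sSup_eq_iSup' 𝒮)) hQ

end Pool.Agent.MPfe8e9bN
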