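import Mathlib
import Pool.Agent.Lib.MP_fe8e9b_al_M.ClsF
import Pool.Agent.Lib.MP_fe8e9b_al_N.LayB2

/-!
# MP_fe8e9b_al, groups of bounded height: the class and the main theorem, second version
-/

set_option autoImplicit false

open scoped BigOperators Pointwise

namespace Pool.Agent.MPfe8e9bN

open Pool.Agent.MPfe8e9b Pool.Agent.MPfe8e9bA Pool.Agent.MPfe8e9bW Pool.Agent.MPfe8e9bV
open Pool.Agent.MPfe8e9bM

/-- The groups obtained in at most `l` steps from layers: by extensions of two groups of the class,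
and by extensions of a group of the class by the normal subgroup generated by a layer of
components of a `d`-generated group. -/
inductive Cls2 (d L C : ℕ) : ℕ → (G : Type) → Group G → Prop
  | layer (l : ℕ) (G : Type) (inst : Group G) (h : Layer d L C G) : Cls2 d L C l G inst
  | ext (l : ℕ) (G : Type) (inst : Group G) (hG : Finite G) (N : Subgroup G) (hN : N.Normal)
      (h₁ : Cls2 d L C l N inferInstance) (h₂ : Cls2 d L C l (G ⧸ N) inferInstance) :
      Cls2 d L C (l + 1) G inst
  | comp (l : ℕ) (G : Type) (inst : Group G) (hG : Finite G) (𝒮 : Set (Subgroup G))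
      (h : CompLayer2 d L C G 𝒮) (N : Subgroup G) (hN : N.Normal) (hNS : N = sSup 𝒮)
      (h₂ : Cls2 d L C l (G ⧸ N) inferInstance) : Cls2 d L C (l + 1) G inst
  | iso (l : ℕ) (G H : Type) (instG : Group G) (instH : Group H) (e : G ≃* H)
      (hG : Cls2 d L C l G instG) : Cls2 d L C l H instH

/-- The groups of the class have a tuple of bounded length with a uniform spectral gap.

Proof. Induction on `l`: `∃ k κ, 0 < κ ∧ ∀ G inst, Cls2 d L C l G inst → FExpd G k κ`. `l = 0`: by
induction on the derivation only `layer` and `iso` occur (`layer_expd`, `FExpd.surj` for the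
isomorphism); to handle the index use `generalize` or a statement of the form
`∀ l', Cls2 d L C l' G inst → l' = 0 → ..`. Step: let `(k, κ)` be for `l`, `(k₀, κ₀)` for layers,
`(k₁, κ₁)` from `lay_m2 d L C k` for `κQ = κ`; for `l + 1` take `k₀ + 2 * k + k₁` and the minimum of
`κ₀`, `κ`, `κ₁`: a derivation is a layer, `ext` (`FExpd.ext`, both from the induction hypothesis
for `l`), `comp` (`lay_m2`), or `iso` (induction on the derivation); `FExpd.mono`. -/
theorem cls2_fexpd (d L C l : ℕ) : ∃ (k : ℕ) (κ : ℝ), 0 < κ ∧ ∀ (G : Type) (inst : Group G),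
    Cls2 d L C l G inst → FExpd G k κ := by
  obtain ⟨k₀, κ₀, hκ₀, h₀⟩ := layer_expd d L C
  induction l with
  | zero =>
    refine ⟨k₀, κ₀, hκ₀, fun G inst h => ?_⟩
    have key : ∀ (l' : ℕ) (G : Type) (inst : Group G), Cls2 d L C l' G inst → l' = 0 →
        @FExpd G inst k₀ κ₀ := by
      intro l' G inst h
      induction h with
      | layer l G inst h => exact fun _ => h₀ G h
      | ext l G inst hG N hN h₁ h₂ ih₁ ih₂ => exact fun h3 => absurd h3 (Nat.succ_ne_zero l)
      | comp l G inst hG 𝒮 h N hN hNS h₂ ih₂ => exact fun h3 => absurd h3 (Nat.succ_ne_zero l)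
      | iso l G H instG instH e hG ih =>
        exact fun h3 => FExpd.surj e.toMonoidHom e.surjective (ih h3)
    exact key 0 G inst h rfl
  | succ l ih =>
    obtain ⟨k, κ, hκ, hl⟩ := ih
    obtain ⟨k₁, κ₁, hκ₁, h₁⟩ := lay_m2 d L C k hκ
    have e₀ : min (min κ₀ κ) κ₁ ≤ κ₀ := (min_le_left _ _).trans (min_le_left _ _)
    have e : min (min κ₀ κ) κ₁ ≤ κ := (min_le_left _ _).trans (min_le_right _ _)
    have e₁ : min (min κ₀ κ) κ₁ ≤ κ₁ := min_le_right _ _
    refine ⟨k₀ + 2 * k + k₁, min (min κ₀ κ) κ₁, lt_min (lt_min hκ₀ hκ) hκ₁,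
      fun G inst h => ?_⟩
    have key : ∀ (l' : ℕ) (G : Type) (inst : Group G), Cls2 d L C l' G inst → l' = l + 1 →
        @FExpd G inst (k₀ + 2 * k + k₁) (min (min κ₀ κ) κ₁) := by
      intro l' G inst h
      induction h with
      | layer l' G inst h => exact fun _ => (h₀ G h).mono (by omega) e₀
      | ext l' G inst hG N hN h₂ h₃ ih₂ ih₃ =>
        intro h4
        have h5 : l' = l := Nat.succ.inj h4
        subst h5
        have h6 : FExpd N k (min (min κ₀ κ) κ₁) := (hl N _ h₂).mono le_rfl e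
        have h7 : FExpd (G ⧸ N) k (min (min κ₀ κ) κ₁) := (hl (G ⧸ N) _ h₃).mono le_rfl e
        exact (FExpd.ext N h6 h7).mono (by omega) le_rfl
      | comp l' G inst hG 𝒮 hc N hN hNS h₂ ih₂ =>
        intro h4
        have h5 : l' = l := Nat.succ.inj h4
        subst h5
        have h7 : FExpd (G ⧸ N) k κ := hl (G ⧸ N) _ h₂
        exact (h₁ G 𝒮 hc N hNS h7).mono (by omega) e₁
      | iso l' G H instG instH e hG ih =>
        exact fun h3 => FExpd.surj e.toMonoidHom e.surjective (ih h3)
    exact key _ G inst h rfl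

/-- The main theorem. Proof. `cls2_fexpd`, `expd_vertex` (see the end of the proof of `tower_gen` in
MP_fe8e9b_al/Final3). -/
theorem cls_main2 (d L C l : ℕ) : ∃ (k : ℕ) (ε : ℝ), 0 < ε ∧
    ∀ (G : Type) [inst : Group G] [Fintype G] [DecidableEq G], Cls2 d L C l G inst →
      ∃ S : Finset G, S.card ≤ k ∧ Subgroup.closure (S : Set G) = ⊤ ∧
        ∀ A : Finset G, 2 * A.card ≤ Fintype.card G →
          (1 + ε) * (A.card : ℝ) ≤ ((A ∪ S * A).card : ℝ) := by
  obtain ⟨k, κ, hκ, h⟩ := cls2_fexpd d L C l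
  refine ⟨k, κ / (4 * (k + 1)), by positivity, ?_⟩
  intro G inst _ _ hG
  exact expd_vertex hκ (h G inst hG).expd

end Pool.Agent.MPfe8e9bN
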