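import Mathlib
import Pool.Agent.Lib.MP_fe8e9b_al_M.Defs
import Pool.Agent.Lib.MP_fe8e9b_al_M.LemS
import Pool.Agent.Lib.MP_fe8e9b_al_M.LDat
import Pool.Agent.Lib.MP_fe8e9b_al_M.TypA
import Pool.Agent.Lib.MP_fe8e9b_al_M.CmpD
import Pool.Agent.Lib.MP_fe8e9b_al_M.CmpB
import Pool.Agent.Lib.MP_fe8e9b_al_M.PsiX
import Pool.Agent.Lib.MP_fe8e9b_al_N.Defs
import Pool.Agent.Lib.MP_fe8e9b_al_N.Defs3
import Pool.Agent.Lib.MP_fe8e9b_al_N.LdX3
import Pool.Agent.Lib.MP_fe8e9b_al_N.TypL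

/-!
# MP_fe8e9b_al, groups of bounded height: the estimates for the types, third version
-/

set_option autoImplicit false

open scoped BigOperators

namespace Pool.Agent.MPfe8e9bN

open Pool.Agent.MPfe8e9b Pool.Agent.MPfe8e9bA Pool.Agent.MPfe8e9bW Pool.Agent.MPfe8e9bV
open Pool.Agent.MPfe8e9bM

open Classical in
/-- The estimates for the types.

Proof. `κ` is the constant of `typ_l`. For a type `k` and a vector `x` fixed by `ad G h`,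
`h ∈ D.Hs`: the representation `ρ' = (lm G).comp (u0 Ψ T0 k)` of `D.Y k → T0 k` and
`β = (ad G).comp D.Hs.subtype`, the action `(D.ac k).comp D.Hs.subtype`. By `ad_lm` and
`psi_conj`, with `l y ∈ L` from `h ∈ D.Hs`: `β h (ρ' u v) = lm G (h * u0 u * h⁻¹) (β h v)`, and
`h * u0 u * h⁻¹ = u0 (y ↦ l (π⁻¹ y) (u (π⁻¹ y)))`. `typ_l` with `c h y` the index of
`l (π⁻¹ y)`. -/
theorem est_x3 {B : ℝ} (hB : 1 ≤ B) : ∃ κ : ℝ, 0 < κ ∧ κ ≤ 1 ∧
    ∀ (G X : Type) [Group G] [Fintype G] [Finite X]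
    (C : X → Subgroup G) (act : G →* Equiv.Perm X) (_ : Cmp C act)
    (L : ∀ x, Subgroup (MulAut (C x))) (D : Crd C act L) (S0 : ∀ x, Subgroup (C x)) (c : ℕ)
    (_ : ∀ x, SG3 c B (C x) (S0 x) (L x)) (Ψ : (∀ k, D.Y k → D.T k) →* G)
    (_ : ∀ k y t, Ψ (Pi.mulSingle k (Pi.mulSingle y t)) = D.ι k y t)
    [∀ k, Fintype (D.Y k)] [∀ k, Fintype (S0 (D.rep k))] [Fintype D.Hs] (S : D.K → Type)
    [∀ k, Fintype (S k)] (lab : ∀ k, D.Y k → S k)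
    (_ : ∀ k y y', y ≠ y' → mn (fun h : D.Hs =>
      ind (lab k (D.ac k h.1 y) = lab k (D.ac k h.1 y'))) ≤ 3 / 4),
    Est Ψ (fun k => S0 (D.rep k)) D.Hs lab κ := by
  obtain ⟨κ₁, hκ₁, hκ₁', h1⟩ := typ_l hB
  refine ⟨κ₁, hκ₁, hκ₁', ?_⟩
  intro G X _ _ _ C act hC L D S0 c hSG Ψ hΨ _ _ _ S _ lab hlab k x hx
  have hfK : Fintype D.K := D.fK
  have hΨ' : ∀ (k : D.K) (y : D.Y k) (t : D.T k),
      Ψ (Pi.mulSingle k (@Pi.mulSingle (D.Y k) (fun _ => D.T k) _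
        (fun a b => Classical.propDecidable (a = b)) y t)) = D.ι k y t := by
    intro k y t
    rw [← hΨ k y t]
    congr 2
    exact congrArg (fun i => @Pi.mulSingle (D.Y k) (fun _ => D.T k) _ i y t)
      (Subsingleton.elim _ _)
  -- the action of the supplement
  have hch : ∀ (h : D.Hs) (y : D.Y k), ∃ l ∈ L (D.rep k),
      ∀ s, h.1 * D.ι k y s * h.1⁻¹ = D.ι k (D.ac k h.1 y) (l s) := fun h y => h.2 k y
  choose l hl hlh using hch
  have hconj : ∀ (h : D.Hs) (u : D.Y k → S0 (D.rep k)) (w : EuclideanSpace ℂ (G × G))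
      (u' : D.Y k → S0 (D.rep k)), (∀ y, ((u' y : S0 (D.rep k)) : D.T k) =
        l h ((D.ac k h.1)⁻¹ y) (u ((D.ac k h.1)⁻¹ y) : D.T k)) →
      ad G h.1 (lm G (u0 Ψ (fun k => S0 (D.rep k)) k u) w) =
        lm G (u0 Ψ (fun k => S0 (D.rep k)) k u') (ad G h.1 w) := by
    intro h u w u' hu'
    rw [ad_lm]
    congr 2
    have h4 := psi_conj D.ι Ψ hΨ' h.1 k (D.ac k h.1) (l h) (hlh h) (fun y => (u y : D.T k))
    refine h4.trans ?_
    show Ψ (Pi.mulSingle k _) = Ψ (Pi.mulSingle k _)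
    congr 2
    funext y
    exact (hu' y).symm
  have hβx : ∀ h : D.Hs, ((ad G).comp D.Hs.subtype) h x = x := fun h => hx h.1 h.2
  have hlab' : ∀ y y' : D.Y k, y ≠ y' → mn (fun h : D.Hs =>
      ind (lab k (((D.ac k).comp D.Hs.subtype) h y) =
        lab k (((D.ac k).comp D.Hs.subtype) h y'))) ≤ 3 / 4 := fun y y' hy => hlab k y y' hy
  obtain ⟨Λ, _, α, hα, hαL⟩ := (hSG (D.rep k)).typ
  choose c' hc' using fun (h : D.Hs) (y : D.Y k) => hαL (l h y) (hl h y)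
  refine h1 (S0 (D.rep k)) (hSG (D.rep k)).prf Λ α hα (D.Y k) (S k) D.Hs
    ((D.ac k).comp D.Hs.subtype) (fun h y => c' h ((D.ac k h.1)⁻¹ y)) (lab k) hlab'
    (EuclideanSpace ℂ (G × G)) _ ((ad G).comp D.Hs.subtype) ?_ x hβx
  intro h u v
  exact hconj h u v _ fun y => (hc' h ((D.ac k h.1)⁻¹ y) (u ((D.ac k h.1)⁻¹ y))).symm

end Pool.Agent.MPfe8e9bN
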