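import Mathlib
import Pool.Agent.Lib.MP_fe8e9b_al_M.Defs
import Pool.Agent.Lib.MP_fe8e9b_al_M.LDat
import Pool.Agent.Lib.MP_fe8e9b_al_M.MainG
import Pool.Agent.Lib.MP_fe8e9b_al_M.CmpD
import Pool.Agent.Lib.MP_fe8e9b_al_M.CmpB
import Pool.Agent.Lib.MP_fe8e9b_al_M.Coor
import Pool.Agent.Lib.MP_fe8e9b_al_M.PsiX
import Pool.Agent.Lib.MP_fe8e9b_al_M.LdX
import Pool.Agent.Lib.MP_fe8e9b_al_M.EstX
import Pool.Agent.Lib.MP_fe8e9b_al_M.CodX
import Pool.Agent.Lib.MP_fe8e9b_al_M.KEx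
import Pool.Agent.Lib.MP_fe8e9b_al_N.Defs
import Pool.Agent.Lib.MP_fe8e9b_al_N.MainG2
import Pool.Agent.Lib.MP_fe8e9b_al_N.Defs3
import Pool.Agent.Lib.MP_fe8e9b_al_N.LdX3
import Pool.Agent.Lib.MP_fe8e9b_al_N.EstX3
import Pool.Agent.Lib.MP_fe8e9b_al_N.CodX3

/-!
# MP_fe8e9b_al, groups of bounded height: a layer of components, abstract form, third version
-/

set_option autoImplicit false

open scoped BigOperators

namespace Pool.Agent.MPfe8e9bN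

open Pool.Agent.MPfe8e9b Pool.Agent.MPfe8e9bA Pool.Agent.MPfe8e9bW Pool.Agent.MPfe8e9bV
open Pool.Agent.MPfe8e9bM

private theorem layA_ms {Y T : Type} [One T] (d1 d2 : DecidableEq Y) (y : Y) (t : T) :
    @Pi.mulSingle Y (fun _ => T) (fun _ => inferInstance) d1 y t =
      @Pi.mulSingle Y (fun _ => T) (fun _ => inferInstance) d2 y t := by
  rw [Subsingleton.elim d1 d2]

/-- A layer of components with structures `SG3`.

Proof. `κ1` from `est_x`, `kK`, `κK` from `kex ((1 + c) * d) L C`, `k = kQ + kK`, `κ` from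
`main_g kK kQ c`. For the group: `coords` (with `key`) gives `D`; `psi_ex` (with `crd_comm`) gives
`Ψ`; `ld_x`; `cod_x` gives `lab`; `est_x` gives `Est`; `kex` for `K = D.K`, `T k = D.T k`,
`key' k = key (D.rep k)` (injective by `coords`; the hypotheses `htyp`, nontriviality of simple
groups); `N = ⨆ x, C x = Ψ.range` (`psi_range`, `crd_sup`). Use `Fintype.ofFinite` for the
`Fintype` instances. -/
theorem lay_a3 (d c L C kQ : ℕ) {B κQ : ℝ} (hB : 1 ≤ B) (hκQ : 0 < κQ) : ∃ (k : ℕ) (κ : ℝ), 0 < κ ∧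
    ∀ (G X : Type) [Group G] [Finite G] [Finite X] (Cc : X → Subgroup G)
    (act : G →* Equiv.Perm X) (_ : Cmp Cc act) (L' : ∀ x, Subgroup (MulAut (Cc x)))
    (_ : ∀ x g, act g x = x → ∃ t : Cc x, ∃ l ∈ L' x, ∀ s : Cc x,
      g * (s : G) * g⁻¹ = ((t * l s * t⁻¹ : Cc x) : G))
    (S0 : ∀ x, Subgroup (Cc x)) (_ : ∀ x, SG3 c B (Cc x) (S0 x) (L' x))
    (key : X → ℕ ⊕ (ℕ × ℕ × ℕ)) (_ : ∀ x y, key x = key y →
      ∃ e : Cc x ≃* Cc y, ∀ l : MulAut (Cc x), l ∈ L' x ↔ MulAut.congr e l ∈ L' y)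
    (_ : ∀ x, (∃ n, key x = Sum.inl n ∧ 5 ≤ n ∧
        Nonempty (Cc x ≃* alternatingGroup (Fin n))) ∨
      ∃ m q c', key x = Sum.inr (m, q, c') ∧ 2 ≤ m ∧ c' < q ^ (C * m ^ 2) ∧
        ∃ (F : Type) (_ : Field F) (_ : Fintype F), Fintype.card F = q ∧
          SLProduct L m F (Cc x))
    (_ : ∃ T : Finset G, T.card ≤ d ∧ Subgroup.closure (T : Set G) = ⊤)
    (N : Subgroup G) [N.Normal] (_ : N = ⨆ x, Cc x) (_ : FExpd (G ⧸ N) kQ κQ),
    FExpd G k κ := by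
  obtain ⟨κ1, hκ1, -, hest⟩ := est_x3 hB
  obtain ⟨kK, κK, hκK, hkex⟩ := kex ((1 + c) * d) L C
  obtain ⟨κ, hκ, hmain⟩ := main_g2 kK kQ c hκK hκQ hκ1
  refine ⟨kQ + kK, κ, hκ, ?_⟩
  intro G X _ _ _ Cc act hC L' hauto S0 hSG key hkey htyp hd N _ hN hQ
  classical
  let _ : Fintype G := Fintype.ofFinite G
  obtain ⟨D, hD⟩ := coords hC L' hauto key hkey
  let _ : Fintype D.K := D.fK
  let _ : ∀ k, Fintype (D.Y k) := fun k => Fintype.ofFinite _
  let _ : ∀ k, Fintype (D.T k) := fun k => Fintype.ofFinite _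
  let _ : ∀ k, Fintype (S0 (D.rep k)) := fun k => Fintype.ofFinite _
  let _ : Fintype D.Hs := Fintype.ofFinite _
  obtain ⟨Ψ, hΨ'⟩ := psi_ex (fun k => D.Y k) (fun k => D.T k) D.ι (crd_comm hC D)
  have hΨ : ∀ k y t, Ψ (Pi.mulSingle k (Pi.mulSingle y t)) = D.ι k y t := by
    intro k y t
    rw [← hΨ' k y t]
    refine congrArg (fun u : D.Y k → D.T k => Ψ (Pi.mulSingle k u)) ?_
    exact layA_ms _ _ y t
  have hld : LD2 c Ψ (fun k => S0 (D.rep k)) D.Hs := ld_x3 hC D S0 hSG Ψ hΨ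
  obtain ⟨lab, hlab⟩ := cod_x3 hC D S0 hSG d hd
  have hE : Est Ψ (fun k => S0 (D.rep k)) D.Hs lab κ1 :=
    hest G X Cc act hC L' D S0 c hSG Ψ hΨ
      (fun k => Fin (64 * (Nat.card (D.T k) ^ ((1 + c) * d)) ^ 2)) lab hlab
  have hR : N = Ψ.range := by
    rw [hN, psi_range D.ι Ψ hΨ', crd_sup D]
  have hK : FExpd (∀ k, Fin (64 * (Nat.card (D.T k) ^ ((1 + c) * d)) ^ 2) → D.T k) kK κK := by
    refine hkex D.K (fun k => D.T k) (fun k => key (D.rep k)) (fun k k' h => hD k k' h) ?_ ?_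
    · intro k
      have := hC.smp (D.rep k)
      exact this.toNontrivial
    · intro k
      exact htyp (D.rep k)
  exact hmain G D.K (fun k => D.Y k)
    (fun k => Fin (64 * (Nat.card (D.T k) ^ ((1 + c) * d)) ^ 2)) (fun k => D.T k) Ψ
    (fun k => S0 (D.rep k)) D.Hs hld lab hE N hR hQ hK

end Pool.Agent.MPfe8e9bN
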