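import Mathlib
import Pool.Agent.Lib.MP_fe8e9b_al_M.LayB
import Pool.Agent.Lib.MP_fe8e9b_al_N.Defs
import Pool.Agent.Lib.MP_fe8e9b_al_N.Defs3
import Pool.Agent.Lib.MP_fe8e9b_al_N.SGT3

/-!
# MP_fe8e9b_al, groups of bounded height: the models of Lie type
-/

set_option autoImplicit false

open scoped BigOperators MatrixGroups

namespace Pool.Agent.MPfe8e9bN

open Pool.Agent.MPfe8e9b Pool.Agent.MPfe8e9bA Pool.Agent.MPfe8e9bW Pool.Agent.MPfe8e9bV
open Pool.Agent.MPfe8e9bM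

/-- A model: a group `T` which is a product of `L` images of `SL m F`, `F` a field with `q`
elements, a perfect subgroup `S₀` such that `T` is generated by `C` conjugates of `S₀`, and a group
`A` of automorphisms of `T` such that the elements of `T` which act on `T` as elements of `A`
centralize `S₀`, and `A` acts trivially on `S₀`, or `S₀` is an image of `SL_2` of a field with at
least four elements on which `A` acts by field automorphisms, or `S₀ = T` has at most `C`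
elements. -/
def Mdl (L C m q : ℕ) (T : Type) [Group T] (S₀ : Subgroup T) (A : Subgroup (MulAut T)) : Prop :=
  2 ≤ m ∧ (∃ (F : Type) (_ : Field F) (_ : Fintype F), Fintype.card F = q ∧
    SLProduct L m F T) ∧ commutator S₀ = ⊤ ∧ GenC C T S₀ ∧
  (∀ t : T, (∃ l ∈ A, ∀ s, t * s * t⁻¹ = l s) → ∀ s ∈ S₀, t * s = s * t) ∧
  ((∀ l ∈ A, ∀ s ∈ S₀, l s = s) ∨
    (∃ (E : Type) (_ : Field E) (_ : Fintype E) (φ : SL(2, E) →* T), 4 ≤ Fintype.card E ∧
      φ.range = S₀ ∧ ∀ l ∈ A, ∃ σ : E ≃+* E, ∀ x, l (φ x) = φ (fS σ x)) ∨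
    (S₀ = ⊤ ∧ Nat.card T ≤ C))

/-- `S` is isomorphic to `T` such that the elements which normalize `S` act on `T` as inner
automorphisms composed with elements of `A`. -/
def ModComp {G : Type} [Group G] (S : Subgroup G) (T : Type) [Group T]
    (A : Subgroup (MulAut T)) : Prop :=
  ∃ φ : S ≃* T, ∀ g : G, (∀ s, s ∈ S ↔ g * s * g⁻¹ ∈ S) → ∃ t : T, ∃ l ∈ A,
    ∀ s s' : S, (s' : G) = g * s * g⁻¹ → φ s' = t * l (φ s) * t⁻¹

/-- The structure of a model.

Proof. `B = max 182 B'`, `B'` from `tgl_small C`. The three cases: `sg3_tame`, `sg3_fld`,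
`sg3_small`, and `sg3_mono`. -/
theorem mdl_sg3 (C : ℕ) : ∃ B : ℝ, 1 ≤ B ∧ ∀ (L m q : ℕ) (T : Type) [Group T] [Finite T]
    [IsSimpleGroup T], (∃ a b : T, a * b ≠ b * a) → ∀ (S₀ : Subgroup T)
    (A : Subgroup (MulAut T)), Mdl L C m q T S₀ A → SG3 (C + 1) B T S₀ A := by
  obtain ⟨B', -, hB'⟩ := tgl_small C
  refine ⟨max 182 B', le_trans (by norm_num) (le_max_left _ _), ?_⟩
  rintro L m q T _ _ _ hn S₀ A ⟨-, -, h1, h2, h3, h4 | ⟨E, _, _, φ, hE, hφ, hA⟩ | ⟨h4, h5⟩⟩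
  · exact sg3_mono (Nat.le_succ C) (le_max_left _ _) (sg3_tame S₀ h1 h2 A h4)
  · exact sg3_mono le_rfl (le_trans (by norm_num) (le_max_left _ _))
      (sg3_fld S₀ h1 h2 A h3 hE φ hφ hA)
  · exact sg3_mono (h5.trans (Nat.le_succ C)) (le_max_right _ _)
      (sg3_small h4 hn A h3 fun Λ α hα => hB' T hn h5 Λ α hα)

end Pool.Agent.MPfe8e9bN
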