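import Mathlib
import Pool.Agent.Lib.MP_fe8e9b_al_M.SGA
import Pool.Agent.Lib.MP_fe8e9b_al_N.Defs
import Pool.Agent.Lib.MP_fe8e9b_al_N.Defs3
import Pool.Agent.Lib.MP_fe8e9b_al_N.SGT3

/-!
# MP_fe8e9b_al, groups of bounded height: the structure on alternating groups, third version
-/

set_option autoImplicit false

open scoped BigOperators

namespace Pool.Agent.MPfe8e9bN

open Pool.Agent.MPfe8e9b Pool.Agent.MPfe8e9bA Pool.Agent.MPfe8e9bW Pool.Agent.MPfe8e9bV
open Pool.Agent.MPfe8e9bM

private theorem sga3_nonab {n : ℕ} (hn : 5 ≤ n) :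
    ∃ a b : alternatingGroup (Fin n), a * b ≠ b * a := by
  by_contra hcon
  push Not at hcon
  have hs : IsSimpleGroup (alternatingGroup (Fin n)) := alternatingGroup.isSimpleGroup (by
    rw [Nat.card_eq_fintype_card, Fintype.card_fin]
    exact hn)
  have h1 := alternatingGroup.center_eq_bot (α := Fin n)
    (by rw [Nat.card_eq_fintype_card, Fintype.card_fin]; omega)
  obtain ⟨x, y, hxy⟩ := hs.exists_pair_ne
  have h5 : ∀ z : alternatingGroup (Fin n), z = 1 := by
    intro z
    have : z ∈ Subgroup.center (alternatingGroup (Fin n)) := by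
      rw [Subgroup.mem_center_iff]
      exact fun b => hcon b z
    rw [h1] at this
    exact Subgroup.mem_bot.1 this
  exact hxy ((h5 x).trans (h5 y).symm)

private theorem sga3_card (n : ℕ) (hn : 2 ≤ n) :
    2 * Nat.card (alternatingGroup (Fin n)) = n.factorial := by
  have : Nontrivial (Fin n) := Fin.nontrivial_iff_two_le.mpr hn
  rw [nat_card_alternatingGroup, Nat.card_eq_fintype_card, Fintype.card_fin]
  exact Nat.mul_div_cancel' ((Nat.dvd_factorial (by norm_num) hn))

private theorem sga3_le {n : ℕ} (h : Nonempty (alternatingGroup (Fin n) ≃*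
    alternatingGroup (Fin 5)) ∨ Nonempty (alternatingGroup (Fin n) ≃*
      alternatingGroup (Fin 6))) : Nat.card (alternatingGroup (Fin n)) ≤ 400 := by
  rcases h with ⟨⟨φ⟩⟩ | ⟨⟨φ⟩⟩
  · rw [Nat.card_congr φ.toEquiv]
    have hc := sga3_card 5 (by norm_num)
    have h120 : (5 : ℕ).factorial = 120 := rfl
    omega
  · rw [Nat.card_congr φ.toEquiv]
    have hc := sga3_card 6 (by norm_num)
    have h720 : (6 : ℕ).factorial = 720 := rfl
    omega

/-- The structure on the alternating groups.

Proof. `B = max 182 B'`, `B'` from `tgl_small 400`. `h = sg_alt hn` (file M/SGA, constant `3`),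
`gen_of_prd h.prd`. If `h.typ` is the first case: `sg3_tame`, `sg3_mono`. Otherwise `A0 n = ⊤` and
`T` is isomorphic to the alternating group of degree five or six, with at most `400` elements
(`nat_card_alternatingGroup`), simple and not abelian: `sg3_small` (with `h.inn`), `sg3_mono`
(`Nat.card T ≤ 400`). -/
theorem sg_alt3 : ∃ B : ℝ, 1 ≤ B ∧ ∀ n : ℕ, 5 ≤ n →
    SG3 400 B (alternatingGroup (Fin n)) (A0 n) (L0 n) := by
  obtain ⟨B', hB1, hB⟩ := tgl_small 400
  refine ⟨max 182 B', hB1.trans (le_max_right _ _), fun n hn => ?_⟩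
  have h := sg_alt hn
  have key : A0 n = ⊤ → Nat.card (alternatingGroup (Fin n)) ≤ 400 →
      SG3 400 (max 182 B') (alternatingGroup (Fin n)) (A0 n) (L0 n) := by
    intro h1 hc
    have hs : IsSimpleGroup (alternatingGroup (Fin n)) := alternatingGroup.isSimpleGroup (by
      rw [Nat.card_eq_fintype_card, Fintype.card_fin]
      exact hn)
    exact sg3_mono hc (le_max_right _ _) (sg3_small h1 (sga3_nonab hn) (L0 n) h.inn
      fun Λ α hα => hB _ (sga3_nonab hn) hc Λ α hα)
  rcases h.typ with h1 | ⟨h1, φ, -⟩ | ⟨h1, φ, -⟩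
  · exact sg3_mono (by norm_num) (le_max_left _ _)
      (sg3_tame (A0 n) h.prf (gen_of_prd h.prd) (L0 n) h1)
  · exact key h1 (sga3_le (Or.inl ⟨φ⟩))
  · exact key h1 (sga3_le (Or.inr ⟨φ⟩))

end Pool.Agent.MPfe8e9bN
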