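import Mathlib
import Pool.Agent.Lib.MP_fe8e9b_al_M.LayB
import Pool.Agent.Lib.MP_fe8e9b_al_N.Defs
import Pool.Agent.Lib.MP_fe8e9b_al_N.Defs3
import Pool.Agent.Lib.MP_fe8e9b_al_N.SGT3
import Pool.Agent.Lib.MP_fe8e9b_al_N.SGA3
import Pool.Agent.Lib.MP_fe8e9b_al_N.LayA3
import Pool.Agent.Lib.MP_fe8e9b_al_N.LayB2
import Pool.Agent.Lib.MP_fe8e9b_al_N.PslE3
import Pool.Agent.Lib.MP_fe8e9b_al_N.Mdl3
import Pool.Agent.Lib.MP_fe8e9b_al_N.Cln3

/-!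
# MP_fe8e9b_al, groups of bounded height: a layer of components, third version
-/

set_option autoImplicit false

open scoped BigOperators

namespace Pool.Agent.MPfe8e9bN

open Pool.Agent.MPfe8e9b Pool.Agent.MPfe8e9bA Pool.Agent.MPfe8e9bW Pool.Agent.MPfe8e9bV
open Pool.Agent.MPfe8e9bM

/-- `G` is generated by `d` elements, and `𝒮` is a set of pairwise commuting nonabelian simple
subgroups of `G`, closed under conjugation. They are alternating groups or groups `PSL_2` (`Clean`,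
or with a condition on the normalizer, `AltComp`, `PslComp3`), or isomorphic to models (`Mdl`,
`ModComp`), at most `q ^ (C * m ^ 2)` models for every `m` and `q`. -/
def CompLayer3 (d L C : ℕ) (G : Type) [Group G] (𝒮 : Set (Subgroup G)) : Prop :=
  (∃ T : Finset G, T.card ≤ d ∧ Subgroup.closure (T : Set G) = ⊤) ∧
  (∀ S ∈ 𝒮, ∀ g : G, S.map (MulAut.conj g).toMonoidHom ∈ 𝒮) ∧
  (∀ S ∈ 𝒮, IsSimpleGroup S ∧ ∃ a ∈ S, ∃ b ∈ S, a * b ≠ b * a) ∧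
  (∀ S ∈ 𝒮, ∀ S' ∈ 𝒮, S ≠ S' → ∀ a ∈ S, ∀ b ∈ S', a * b = b * a) ∧
  ∃ (T : ℕ → ℕ → ℕ → Type) (_ : ∀ m q c, Group (T m q c)) (S₀ : ∀ m q c, Subgroup (T m q c))
    (A : ∀ m q c, Subgroup (MulAut (T m q c))),
    ∀ S ∈ 𝒮, Clean S ∨ (∃ n, AltComp S n) ∨ (∃ q k, PslComp3 S q k) ∨
      ∃ m q c, c < q ^ (C * m ^ 2) ∧ Mdl L C m q (T m q c) (S₀ m q c) (A m q c) ∧
        ModComp S (T m q c) (A m q c)

/-- One component with a model. -/
theorem layb3_mod {G : Type} [Group G] [Finite G] (S : Subgroup G) {T : Type} [Group T]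
    [Finite T] {c : ℕ} {B : ℝ} {S0 : Subgroup T} {L : Subgroup (MulAut T)} (φ : S ≃* T)
    (h1 : SG3 c B T S0 L)
    (h2 : ∀ g : G, (∀ s, s ∈ S ↔ g * s * g⁻¹ ∈ S) → ∃ t : T, ∃ l ∈ L,
      ∀ s s' : S, (s' : G) = g * s * g⁻¹ → φ s' = t * l (φ s) * t⁻¹) :
    SG3 c B S (S0.map φ.symm.toMonoidHom) (L.map (MulAut.congr φ.symm).toMonoidHom) ∧
      ∀ g : G, (∀ s, s ∈ S ↔ g * s * g⁻¹ ∈ S) → ∃ t : S,
        ∃ l ∈ L.map (MulAut.congr φ.symm).toMonoidHom, ∀ s : S,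
          g * (s : G) * g⁻¹ = ((t * l s * t⁻¹ : S) : G) := by
  refine ⟨sg3_transport φ.symm h1, fun g hg => ?_⟩
  obtain ⟨t, l, hl, htl⟩ := h2 g hg
  refine ⟨φ.symm t, MulAut.congr φ.symm l, Subgroup.mem_map_of_mem _ hl, fun s => ?_⟩
  obtain ⟨s', hs'⟩ : ∃ s' : S, (s' : G) = g * s * g⁻¹ := ⟨⟨_, (hg s).1 s.2⟩, rfl⟩
  have h3 : s' = φ.symm t * MulAut.congr φ.symm l s * (φ.symm t)⁻¹ := by
    apply φ.injective
    rw [htl s s' hs', map_mul, map_mul, map_inv, MulEquiv.apply_symm_apply]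
    change t * l (φ s) * t⁻¹ = t * φ (φ.symm (l (φ s))) * t⁻¹
    rw [MulEquiv.apply_symm_apply]
  rw [← hs', h3]

/-- One component of alternating type. -/
theorem layb3_alt {B : ℝ} (hB : ∀ n : ℕ, 5 ≤ n →
    SG3 400 B (alternatingGroup (Fin n)) (A0 n) (L0 n)) {G : Type} [Group G] [Finite G]
    (S : Subgroup G) (n : ℕ) (h : AltComp S n) :
    ∃ φ : S ≃* alternatingGroup (Fin n),
      SG3 400 B S ((A0 n).map φ.symm.toMonoidHom)
        ((L0 n).map (MulAut.congr φ.symm).toMonoidHom) ∧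
      ∀ g : G, (∀ s, s ∈ S ↔ g * s * g⁻¹ ∈ S) → ∃ t : S,
        ∃ l ∈ (L0 n).map (MulAut.congr φ.symm).toMonoidHom, ∀ s : S,
          g * (s : G) * g⁻¹ = ((t * l s * t⁻¹ : S) : G) := by
  obtain ⟨hn, φ, hφ⟩ := h
  refine ⟨φ, layb3_mod S φ (hB n hn) fun g hg => ?_⟩
  obtain ⟨σ, hσ⟩ := hφ g hg
  obtain ⟨t, l, hl, htl⟩ := alt_auto hn σ
  refine ⟨t, l, hl, fun s s' hs => ?_⟩
  rw [← htl]
  exact Subtype.ext (hσ s s' hs)

/-- Isomorphisms of simple groups. -/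
private theorem layb3_simple {A T : Type} [Group A] [Group T] (φ : A ≃* T)
    (h : IsSimpleGroup A) : IsSimpleGroup T := by
  have := h
  have hn : Nontrivial T := φ.symm.toEquiv.nontrivial
  exact IsSimpleGroup.isSimpleGroup_of_surjective φ.toMonoidHom φ.surjective

/-- The structures for all components, with a key. -/
theorem layb3_data (C : ℕ) : ∃ B : ℝ, 1 ≤ B ∧ ∀ (d L : ℕ) (G : Type) [Group G] [Finite G]
    (𝒮 : Set (Subgroup G)) (_ : CompLayer3 d L C G 𝒮) (act : G →* Equiv.Perm 𝒮)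
    (_ : Cmp (fun x : 𝒮 => x.1) act),
    ∃ (L' : ∀ x : 𝒮, Subgroup (MulAut x.1)) (S0 : ∀ x : 𝒮, Subgroup x.1)
      (key : 𝒮 → ℕ ⊕ (ℕ × ℕ × ℕ)),
      (∀ (x : 𝒮) (g : G), act g x = x → ∃ t : x.1, ∃ l ∈ L' x, ∀ s : x.1,
        g * (s : G) * g⁻¹ = ((t * l s * t⁻¹ : x.1) : G)) ∧
      (∀ x, SG3 (401 + C) B x.1 (S0 x) (L' x)) ∧
      (∀ x y, key x = key y → ∃ e : x.1 ≃* y.1,
        ∀ l : MulAut x.1, l ∈ L' x ↔ MulAut.congr e l ∈ L' y) ∧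
      ∀ x, (∃ n, key x = Sum.inl n ∧ 5 ≤ n ∧ Nonempty (x.1 ≃* alternatingGroup (Fin n))) ∨
        ∃ m q c', key x = Sum.inr (m, q, c') ∧ 2 ≤ m ∧ c' < q ^ ((C + 1) * m ^ 2) ∧
          ∃ (F : Type) (_ : Field F) (_ : Fintype F), Fintype.card F = q ∧
            SLProduct (L + 1) m F x.1 := by
  obtain ⟨B1, hB1, hPsl⟩ := psl_mod3
  obtain ⟨B2, hB2, hAlt⟩ := sg_alt3
  obtain ⟨B3, hB3, hMdl⟩ := mdl_sg3 C
  have e1 : B1 ≤ max B1 (max B2 B3) := le_max_left _ _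
  have e2 : B2 ≤ max B1 (max B2 B3) := (le_max_left _ _).trans (le_max_right _ _)
  have e3 : B3 ≤ max B1 (max B2 B3) := (le_max_right _ _).trans (le_max_right _ _)
  refine ⟨max B1 (max B2 B3), hB1.trans e1, ?_⟩
  intro d L G _ _ 𝒮 h act hC
  obtain ⟨-, -, hsim, -, MT, MG, MS, MA, hty⟩ := h
  have hno : ∀ (x : 𝒮) (g : G), act g x = x → ∀ s, s ∈ x.1 ↔ g * s * g⁻¹ ∈ x.1 := by
    intro x g hgx s
    constructor
    · intro hs
      have h1 : g * s * g⁻¹ ∈ (act g x).1 := hC.cnj g x s hs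
      rw [hgx] at h1
      exact h1
    · intro hs
      obtain ⟨a, ha, hab⟩ := cmp_onto hC g x (g * s * g⁻¹) (by
        rw [hgx]
        exact hs)
      have h1 : s = a := mul_left_cancel (mul_right_cancel hab)
      rw [h1]
      exact ha
  choose PT PG PL hP using hPsl
  have hone : ∀ x : 𝒮, ∃ (L' : Subgroup (MulAut x.1)) (S0 : Subgroup x.1)
      (key : ℕ ⊕ (ℕ × ℕ × ℕ)),
      (∀ g : G, (∀ s, s ∈ x.1 ↔ g * s * g⁻¹ ∈ x.1) → ∃ t : x.1, ∃ l ∈ L', ∀ s : x.1,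
        g * (s : G) * g⁻¹ = ((t * l s * t⁻¹ : x.1) : G)) ∧
      SG3 (401 + C) (max B1 (max B2 B3)) x.1 S0 L' ∧
      ((∃ n, key = Sum.inl n ∧ 5 ≤ n ∧ ∃ φ : x.1 ≃* alternatingGroup (Fin n),
        L' = (L0 n).map (MulAut.congr φ.symm).toMonoidHom) ∨
      (∃ q' k, key = Sum.inr (2, q', k) ∧ PslComp3 x.1 q' k ∧
        ∃ φ : x.1 ≃* PT q' k, L' = (PL q' k).map (MulAut.congr φ.symm).toMonoidHom) ∨
      (∃ m q c, key = Sum.inr (m, q, c + q + 1) ∧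
        Mdl L C m q (MT m q c) (MS m q c) (MA m q c) ∧ c < q ^ (C * m ^ 2) ∧
        ∃ φ : x.1 ≃* MT m q c, L' = (MA m q c).map (MulAut.congr φ.symm).toMonoidHom)) := by
    intro x
    have halt : ∀ n, AltComp x.1 n → ∃ (L' : Subgroup (MulAut x.1)) (S0 : Subgroup x.1),
        (∀ g : G, (∀ s, s ∈ x.1 ↔ g * s * g⁻¹ ∈ x.1) → ∃ t : x.1, ∃ l ∈ L', ∀ s : x.1,
          g * (s : G) * g⁻¹ = ((t * l s * t⁻¹ : x.1) : G)) ∧
        SG3 (401 + C) (max B1 (max B2 B3)) x.1 S0 L' ∧ 5 ≤ n ∧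
        ∃ φ : x.1 ≃* alternatingGroup (Fin n),
          L' = (L0 n).map (MulAut.congr φ.symm).toMonoidHom := by
      intro n hn
      obtain ⟨φ, h1, h2⟩ := layb3_alt hAlt x.1 n hn
      exact ⟨_, _, h2, sg3_mono (by omega) e2 h1, hn.1, φ, rfl⟩
    have hpsl : ∀ q' k, PslComp3 x.1 q' k → ∃ (L' : Subgroup (MulAut x.1))
        (S0 : Subgroup x.1),
        (∀ g : G, (∀ s, s ∈ x.1 ↔ g * s * g⁻¹ ∈ x.1) → ∃ t : x.1, ∃ l ∈ L', ∀ s : x.1,
          g * (s : G) * g⁻¹ = ((t * l s * t⁻¹ : x.1) : G)) ∧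
        SG3 (401 + C) (max B1 (max B2 B3)) x.1 S0 L' ∧
        ∃ φ : x.1 ≃* PT q' k, L' = (PL q' k).map (MulAut.congr φ.symm).toMonoidHom := by
      intro q' k hk
      obtain ⟨φ, h1, h2⟩ := hP q' k G x.1 hk
      have : Finite (PT q' k) := Finite.of_equiv _ φ.toEquiv
      obtain ⟨h3, h4⟩ := layb3_mod x.1 φ h1 h2
      exact ⟨_, _, h4, sg3_mono (by omega) e1 h3, φ, rfl⟩
    have hor : (∃ n, AltComp x.1 n) ∨ (∃ q k, PslComp3 x.1 q k) ∨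
        ∃ m q c, c < q ^ (C * m ^ 2) ∧ Mdl L C m q (MT m q c) (MS m q c) (MA m q c) ∧
          ModComp x.1 (MT m q c) (MA m q c) := by
      rcases hty x.1 x.2 with h1 | h1 | h1 | h1
      · rcases clean_comp x.1 h1 with h2 | h2
        · exact Or.inl h2
        · exact Or.inr (Or.inl h2)
      · exact Or.inl h1
      · exact Or.inr (Or.inl h1)
      · exact Or.inr (Or.inr h1)
    rcases hor with ⟨n, hn⟩ | ⟨q', k, hk⟩ | ⟨m, q, c, hc, hm, φ, hφ⟩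
    · obtain ⟨L', S0, h1, h2, h3, h4⟩ := halt n hn
      exact ⟨L', S0, Sum.inl n, h1, h2, Or.inl ⟨n, rfl, h3, h4⟩⟩
    · obtain ⟨L', S0, h1, h2, h3⟩ := hpsl q' k hk
      exact ⟨L', S0, Sum.inr (2, q', k), h1, h2, Or.inr (Or.inl ⟨q', k, rfl, hk, h3⟩)⟩
    · have hfin : Finite (MT m q c) := Finite.of_equiv _ φ.toEquiv
      have hs := hsim x.1 x.2
      have hsimp : IsSimpleGroup (MT m q c) := layb3_simple φ hs.1
      have hna : ∃ a b : MT m q c, a * b ≠ b * a := by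
        obtain ⟨-, a, ha, b, hb, hab⟩ := hs
        refine ⟨φ ⟨a, ha⟩, φ ⟨b, hb⟩, fun h1 => hab ?_⟩
        rw [← map_mul, ← map_mul] at h1
        exact congrArg Subtype.val (φ.injective h1)
      obtain ⟨h3, h4⟩ := layb3_mod x.1 φ (hMdl L m q (MT m q c) hna _ _ hm) hφ
      exact ⟨_, _, Sum.inr (m, q, c + q + 1), h4, sg3_mono (by omega) e3 h3,
        Or.inr (Or.inr ⟨m, q, c, rfl, hm, hc, φ, rfl⟩)⟩
  choose L' S0 key hno' hSG hkey using hone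
  refine ⟨L', S0, key, fun x g hgx => hno' x g (hno x g hgx), hSG, fun x y hxy => ?_,
    fun x => ?_⟩
  · rcases hkey x with ⟨n, hx1, -, φ, hφ⟩ | ⟨q₁, k₁, hx1, hx2, φ, hφ⟩ |
      ⟨m₁, q₁, c₁, hx1, -, -, φ, hφ⟩
    · rcases hkey y with ⟨n', hy1, -, ψ, hψ⟩ | ⟨q₂, k₂, hy1, -, ψ, hψ⟩ |
        ⟨m₂, q₂, c₂, hy1, -, -, -⟩
      · have hnn : n = n' := Sum.inl_injective (hx1.symm.trans (hxy.trans hy1))
        subst hnn
        rw [hφ, hψ]
        exact layb2_iso (L0 n) φ ψ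
      · exact absurd (hx1.symm.trans (hxy.trans hy1)) (by simp)
      · exact absurd (hx1.symm.trans (hxy.trans hy1)) (by simp)
    · rcases hkey y with ⟨n', hy1, -, ψ, hψ⟩ | ⟨q₂, k₂, hy1, -, ψ, hψ⟩ |
        ⟨m₂, q₂, c₂, hy1, -, -, -⟩
      · exact absurd (hx1.symm.trans (hxy.trans hy1)) (by simp)
      · have h1 := Sum.inr_injective (hx1.symm.trans (hxy.trans hy1))
        have h2 : q₁ = q₂ := congrArg (fun p => p.2.1) h1
        have h3 : k₁ = k₂ := congrArg (fun p => p.2.2) h1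
        subst h2
        subst h3
        rw [hφ, hψ]
        exact layb2_iso (PL q₁ k₁) φ ψ
      · exfalso
        have h1 := Sum.inr_injective (hx1.symm.trans (hxy.trans hy1))
        have h3 : q₁ = q₂ := congrArg (fun p => p.2.1) h1
        have h4 : k₁ = c₂ + q₂ + 1 := congrArg (fun p => p.2.2) h1
        have h5 := (psl_prod3 x.1 q₁ k₁ hx2 1 le_rfl).2.1
        omega
    · rcases hkey y with ⟨n', hy1, -, ψ, hψ⟩ | ⟨q₂, k₂, hy1, hy2, ψ, hψ⟩ |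
        ⟨m₂, q₂, c₂, hy1, -, -, ψ, hψ⟩
      · exact absurd (hx1.symm.trans (hxy.trans hy1)) (by simp)
      · exfalso
        have h1 := Sum.inr_injective (hx1.symm.trans (hxy.trans hy1))
        have h3 : q₁ = q₂ := congrArg (fun p => p.2.1) h1
        have h4 : c₁ + q₁ + 1 = k₂ := congrArg (fun p => p.2.2) h1
        have h5 := (psl_prod3 y.1 q₂ k₂ hy2 1 le_rfl).2.1
        omega
      · have h1 := Sum.inr_injective (hx1.symm.trans (hxy.trans hy1))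
        have h2 : m₁ = m₂ := congrArg Prod.fst h1
        have h3 : q₁ = q₂ := congrArg (fun p => p.2.1) h1
        have h4 : c₁ + q₁ + 1 = c₂ + q₂ + 1 := congrArg (fun p => p.2.2) h1
        have h5 : c₁ = c₂ := by omega
        subst h2
        subst h3
        subst h5
        rw [hφ, hψ]
        exact layb2_iso (MA m₁ q₁ c₁) φ ψ
  · rcases hkey x with ⟨n, hx1, hx2, φ, -⟩ | ⟨q', k, hx1, hx2, -⟩ |
      ⟨m, q, c, hx1, hx2, hx3, φ, -⟩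
    · exact Or.inl ⟨n, hx1, hx2, ⟨φ⟩⟩
    · right
      obtain ⟨h1, h2, h3⟩ := psl_prod3 x.1 q' k hx2 (L + 1) (Nat.le_add_left 1 L)
      refine ⟨2, q', k, hx1, le_rfl, ?_, h3⟩
      have h4 := layb2_key C 2 q' 0 le_rfl (by omega) (Nat.pow_pos (by omega))
      omega
    · right
      obtain ⟨F, iF, iF', hF, hFS⟩ := hx2.2.1
      refine ⟨m, q, _, hx1, hx2.1, ?_, F, iF, iF', hF, ?_⟩
      · refine layb2_key C _ _ _ hx2.1 ?_ hx3
        rw [← hF]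
        exact Fintype.one_lt_card
      · refine layb2_prod ?_
        obtain ⟨ψ, hψ⟩ := hFS
        refine ⟨fun i => φ.symm.toMonoidHom.comp (ψ i), fun s => ?_⟩
        obtain ⟨z, hz⟩ := hψ (φ s)
        refine ⟨z, ?_⟩
        rw [← φ.symm_apply_apply s, hz, map_list_prod, List.map_ofFn]
        rfl

/-- The step of the main theorem. -/
theorem lay_m3 (d L C kQ : ℕ) {κQ : ℝ} (hκQ : 0 < κQ) : ∃ (k : ℕ) (κ : ℝ), 0 < κ ∧
    ∀ (G : Type) [Group G] [Finite G] (𝒮 : Set (Subgroup G)), CompLayer3 d L C G 𝒮 →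
    ∀ (N : Subgroup G) [N.Normal], N = sSup 𝒮 → FExpd (G ⧸ N) kQ κQ → FExpd G k κ := by
  obtain ⟨B, hB, hdata⟩ := layb3_data C
  obtain ⟨k, κ, hκ, hall⟩ := lay_a3 d (401 + C) (L + 1) (C + 1) kQ hB hκQ
  refine ⟨k, κ, hκ, fun G _ _ 𝒮 h N _ hN hQ => ?_⟩
  obtain ⟨act, hact⟩ := layb2_cmp h.2.1 h.2.2.1 h.2.2.2.1
  obtain ⟨L', S0, key, h1, h2, h3, h4⟩ := hdata d L G 𝒮 h act hact
  exact hall G 𝒮 (fun x : 𝒮 => x.1) act hact L' h1 S0 h2 key h3 h4 h.1 N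
    (hN.trans (sSup_eq_iSup' 𝒮)) hQ

end Pool.Agent.MPfe8e9bN
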