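import Mathlib
import Pool.Agent.Lib.MP_fe8e9b_al_N.Defs3
import Pool.Agent.Lib.MP_fe8e9b_al_N.TgB
import Pool.Agent.Lib.MP_fe8e9b_al_N.TgC
import Pool.Agent.Lib.MP_fe8e9b_al_N.TgD

/-!
# MP_fe8e9b_al, groups of bounded height: displacement by twisted matrices
-/

set_option autoImplicit false

open scoped BigOperators

namespace Pool.Agent.MPfe8e9bN

open Pool.Agent.MPfe8e9b Pool.Agent.MPfe8e9bA Pool.Agent.MPfe8e9bW Pool.Agent.MPfe8e9bV
open Pool.Agent.MPfe8e9bM

/-- An additive subgroup of `Λ → M_m(E)` which contains all the vectors `(Y * σ l X)_l` is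
everything.

Proof. For `i`, `j` the set of the `x : Λ → E` with `fun l => Matrix.single i j (x l)` in the
subgroup is an additive subgroup of `Λ → E` which contains all `(c * σ l b)_l`
(`Y = single i i c`, `X = single i j b`), so it is everything by `tgd_span` (file TgD). Every
element is a sum over `i`, `j` of such elements (`Matrix.matrix_eq_sum_single`). -/
theorem tgh_span {E Λ : Type} [Field E] [Fintype Λ] (m : ℕ) (σ : Λ → (E ≃+* E))
    (hσ : Function.Injective σ) (W : AddSubgroup (Λ → Matrix (Fin m) (Fin m) E))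
    (h : ∀ Y X : Matrix (Fin m) (Fin m) E, (fun l => Y * X.map (σ l)) ∈ W) : W = ⊤ := by
  classical
  have h1 : ∀ (i j : Fin m) (x : Λ → E), (fun l => Matrix.single i j (x l)) ∈ W := by
    intro i j x
    let φ : (Λ → E) →+ (Λ → Matrix (Fin m) (Fin m) E) :=
      { toFun := fun x l => Matrix.single i j (x l)
        map_zero' := by
          funext l
          simp
        map_add' := fun x y => by
          funext l
          simp [Matrix.single_add] }
    have h2 : W.comap φ = ⊤ := by
      refine tgd_span σ hσ _ fun c b => ?_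
      rw [AddSubgroup.mem_comap]
      have h3 := h (Matrix.single i i c) (Matrix.single i j b)
      have h4 : (fun l => Matrix.single i i c * (Matrix.single i j b).map (σ l)) =
          φ (fun l => c * σ l b) := by
        funext l
        rw [Matrix.map_single, Matrix.single_mul_single_same]
        rfl
      rw [h4] at h3
      exact h3
    have h5 : x ∈ W.comap φ := by
      rw [h2]
      exact AddSubgroup.mem_top x
    exact h5
  rw [eq_top_iff]
  intro Z _
  have h2 : Z = ∑ i, ∑ j, (fun l => Matrix.single i j (Z l i j)) := by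
    funext l
    rw [Finset.sum_apply]
    simp only [Finset.sum_apply]
    exact Matrix.matrix_eq_sum_single (Z l)
  rw [h2]
  exact W.sum_mem fun i _ => W.sum_mem fun j _ => h1 i j fun l => Z l i j

/-- A proper additive subgroup has at most half of the elements.

Proof. Lagrange: the mean of the indicator of the complement is at least `1 / 2`. -/
theorem tgh_half {A : Type} [AddCommGroup A] [Fintype A] (W : AddSubgroup A) (hW : W ≠ ⊤) :
    1 / 2 ≤ mn (fun a : A => ind (a ∉ W)) := by
  obtain ⟨a₀, ha₀⟩ : ∃ a, a ∉ W := by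
    by_contra hcon
    push Not at hcon
    exact hW (eq_top_iff.2 fun a _ => hcon a)
  have h1 : mn (fun a : A => ind (a + a₀ ∉ W)) = mn (fun a : A => ind (a ∉ W)) :=
    mn_equiv (Equiv.addRight a₀) fun a => ind (a ∉ W)
  have h2 : ∀ a : A, (1 : ℝ) ≤ ind (a ∉ W) + ind (a + a₀ ∉ W) := by
    intro a
    by_cases ha : a ∈ W
    · have h3 : a + a₀ ∉ W := fun h4 => ha₀ ((W.add_mem_cancel_left ha).1 h4)
      rw [ind_true h3]
      linarith [ind_nonneg (a ∉ W)]
    · rw [ind_true ha]
      linarith [ind_nonneg (a + a₀ ∉ W)]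
  have h3 := le_mn h2
  rw [mn_add, h1] at h3
  linarith

/-- The mean square distance of a nontrivial character from one is two. -/
private theorem tgh_mean {A : Type} [AddCommGroup A] [Fintype A] (ψ : AddChar A ℂ) (h0 : ψ ≠ 0) :
    mn (fun b : A => ‖ψ b - 1‖ ^ 2) = 2 := by
  classical
  have hsum : ∑ b, ψ b = 0 := AddChar.sum_eq_zero_iff_ne_zero.2 h0
  have hterm : ∀ b, ‖ψ b - 1‖ ^ 2 = 2 - 2 * (ψ b).re := by
    intro b
    have h1 : ‖ψ b‖ = 1 := tgb_norm ψ _
    have h2 : ‖ψ b - 1‖ ^ 2 = ‖ψ b‖ ^ 2 - 2 * (ψ b).re + 1 := by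
      rw [← Complex.normSq_eq_norm_sq, ← Complex.normSq_eq_norm_sq, Complex.normSq_apply,
        Complex.normSq_apply]
      simp only [Complex.sub_re, Complex.one_re, Complex.sub_im, Complex.one_im]
      ring
    rw [h2, h1]
    ring
  have hne : (Fintype.card A : ℝ) ≠ 0 := by exact_mod_cast Fintype.card_ne_zero
  have hre : ∑ b, (ψ b).re = 0 := by
    rw [← Complex.re_sum, hsum, Complex.zero_re]
  rw [mn]
  simp only [hterm]
  rw [Finset.sum_sub_distrib, ← Finset.mul_sum, hre, Finset.sum_const, Finset.card_univ,
    nsmul_eq_mul]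
  field_simp
  ring

/-- Displacement by twisted matrices.

Proof. `tg_ab` (file TgB) for the family of the `(Y * σ l X)_l` indexed by `(Y, X)`, `δ = 1`: for
`χ ≠ 1` let `W = {Y | ∀ X, χ (fun l => Y * X.map (σ l)) = 1}`, an additive subgroup, not everything
by `tgh_span` (applied to `{x | χ x = 1}`). For `Y ∉ W` the function
`X ↦ χ (fun l => Y * X.map (σ l))` is a nontrivial additive character, the mean of
`‖χ (..) - 1‖²` is `2` (as `tgd_mean` in file TgD). So the mean over the pairs is at least
`2 * (1 / 2)` (`mn_prod`, `tgh_half`). -/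
theorem tg_mat {E Λ : Type} [Field E] [Finite E] [Finite Λ] (m : ℕ) (σ : Λ → (E ≃+* E))
    (hσ : Function.Injective σ) {V : Type} [NormedAddCommGroup V] [InnerProductSpace ℂ V]
    (ρ : Multiplicative (Λ → Matrix (Fin m) (Fin m) E) →* (V ≃ₗᵢ[ℂ] V)) (v : V) {e : ℝ}
    (he : 0 ≤ e) (h : ∀ Y X : Matrix (Fin m) (Fin m) E,
      ‖ρ (Multiplicative.ofAdd fun l => Y * X.map (σ l)) v - v‖ ≤ e)
    (x : Λ → Matrix (Fin m) (Fin m) E) : ‖ρ (Multiplicative.ofAdd x) v - v‖ ≤ 2 * e := by
  classical
  have : Fintype E := Fintype.ofFinite E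
  have : Fintype Λ := Fintype.ofFinite Λ
  have hχ : ∀ χ : AddChar (Λ → Matrix (Fin m) (Fin m) E) ℂ, χ ≠ 1 →
      1 ≤ mn (fun p : Matrix (Fin m) (Fin m) E × Matrix (Fin m) (Fin m) E =>
        ‖χ (fun l => p.1 * p.2.map (σ l)) - 1‖ ^ 2) := by
    intro χ hne
    let W : AddSubgroup (Matrix (Fin m) (Fin m) E) :=
      { carrier := {Y | ∀ X : Matrix (Fin m) (Fin m) E, χ (fun l => Y * X.map (σ l)) = 1}
        add_mem' := fun {a b} ha hb X => by
          have h1 : (fun l => (a + b) * X.map (σ l)) =
              (fun l => a * X.map (σ l)) + fun l => b * X.map (σ l) := by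
            funext l
            exact Matrix.add_mul _ _ _
          rw [h1, AddChar.map_add_eq_mul, ha X, hb X, one_mul]
        zero_mem' := fun X => by
          have h1 : (fun l => (0 : Matrix (Fin m) (Fin m) E) * X.map (σ l)) =
              (0 : Λ → Matrix (Fin m) (Fin m) E) := by
            funext l
            exact Matrix.zero_mul _
          rw [h1, AddChar.map_zero_eq_one]
        neg_mem' := fun {a} ha X => by
          have h1 : (fun l => (-a) * X.map (σ l)) = -(fun l => a * X.map (σ l)) := by
            funext l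
            exact Matrix.neg_mul _ _
          rw [h1, AddChar.map_neg_eq_inv, ha X, inv_one] }
    have hW : W ≠ ⊤ := by
      intro hW
      let Z : AddSubgroup (Λ → Matrix (Fin m) (Fin m) E) :=
        { carrier := {x | χ x = 1}
          add_mem' := fun {a b} ha hb => by
            show χ (a + b) = 1
            rw [AddChar.map_add_eq_mul, show χ a = 1 from ha, show χ b = 1 from hb, one_mul]
          zero_mem' := AddChar.map_zero_eq_one χ
          neg_mem' := fun {a} ha => by
            show χ (-a) = 1
            rw [AddChar.map_neg_eq_inv, show χ a = 1 from ha, inv_one] }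
      have hZ : Z = ⊤ := tgh_span m σ hσ Z fun Y X => by
        have h1 : Y ∈ W := by
          rw [hW]
          exact AddSubgroup.mem_top Y
        exact h1 X
      apply hne
      rw [AddChar.eq_one_iff]
      intro x
      have h1 : x ∈ Z := by
        rw [hZ]
        exact AddSubgroup.mem_top x
      exact h1
    rw [mn_prod]
    have h1 : ∀ Y : Matrix (Fin m) (Fin m) E, 2 * ind (Y ∉ W) ≤
        mn (fun X : Matrix (Fin m) (Fin m) E => ‖χ (fun l => Y * X.map (σ l)) - 1‖ ^ 2) := by
      intro Y
      by_cases hY : Y ∉ W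
      · rw [ind_true hY, mul_one]
        let φ : Matrix (Fin m) (Fin m) E →+ (Λ → Matrix (Fin m) (Fin m) E) :=
          { toFun := fun X l => Y * X.map (σ l)
            map_zero' := by
              funext l
              rw [Matrix.map_zero _ (map_zero (σ l))]
              exact Matrix.mul_zero _
            map_add' := fun X X' => by
              funext l
              rw [Matrix.map_add _ (map_add (σ l))]
              exact Matrix.mul_add _ _ _ }
        have h0 : χ.compAddMonoidHom φ ≠ 0 := by
          intro h0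
          refine hY fun X => ?_
          have h2 := DFunLike.congr_fun h0 X
          exact h2
        exact (tgh_mean _ h0).ge
      · rw [ind_false hY, mul_zero]
        exact mn_nonneg fun b => by positivity
    have h2 := mn_mono h1
    rw [mn_mul_left] at h2
    have h3 := tgh_half W hW
    linarith
  have h1 := tg_ab ρ v (fun p : Matrix (Fin m) (Fin m) E × Matrix (Fin m) (Fin m) E =>
    (fun l => p.1 * p.2.map (σ l))) he one_pos (fun p => h p.1 p.2) hχ x
  rwa [Real.sqrt_one, div_one] at h1

end Pool.Agent.MPfe8e9bN
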