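import Mathlib
import Pool.Agent.Lib.MP_fe8e9b_al.El3
import Pool.Agent.Lib.MP_fe8e9b_al.BoundGen
import Pool.Agent.Lib.MP_fe8e9b_al_N.Defs3
import Pool.Agent.Lib.MP_fe8e9b_al_N.DefN
import Pool.Agent.Lib.MP_fe8e9b_al_N.TgH

/-!
# MP_fe8e9b_al, groups of bounded height: the gap for `SL_{3 m}` with the inverse transpose
-/

set_option autoImplicit false

open scoped BigOperators MatrixGroups

namespace Pool.Agent.MPfe8e9bN

open Pool.Agent.MPfe8e9b Pool.Agent.MPfe8e9bA Pool.Agent.MPfe8e9bW Pool.Agent.MPfe8e9bV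
open Pool.Agent.MPfe8e9bM Matrix

variable {E : Type} [Field E] {m : ℕ}

/-- The block elementary matrices. -/
def eB (i j : Fin 3) (X : Matrix (Fin m) (Fin m) E) : Matrix (Fin 3 × Fin m) (Fin 3 × Fin m) E :=
  Matrix.comp (Fin 3) (Fin 3) (Fin m) (Fin m) E (el i j X)

/-- Products of block elementary matrices. Proof. `Matrix.compRingEquiv` and `El3.el_mul`,
`El3.el_zero`. -/
theorem eB_mul {i j : Fin 3} (h : i ≠ j) (X Y : Matrix (Fin m) (Fin m) E) :
    eB i j X * eB i j Y = eB i j (X + Y) ∧ eB i j (0 : Matrix (Fin m) (Fin m) E) = 1 := by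
  constructor
  · have h1 := map_mul (Matrix.compRingEquiv (Fin 3) (Fin m) E) (el i j X) (el i j Y)
    rw [El3.el_mul i j h] at h1
    exact h1.symm
  · have h1 := map_one (Matrix.compRingEquiv (Fin 3) (Fin m) E)
    unfold eB
    rw [El3.el_zero]
    exact h1

theorem tgi_eB_comm {i j k l : Fin 3} (h1 : j ≠ k) (h2 : l ≠ i)
    (X Y : Matrix (Fin m) (Fin m) E) : eB i j X * eB k l Y = eB k l Y * eB i j X := by
  have h3 := map_mul (Matrix.compRingEquiv (Fin 3) (Fin m) E) (el i j X) (el k l Y)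
  have h4 := map_mul (Matrix.compRingEquiv (Fin 3) (Fin m) E) (el k l Y) (el i j X)
  rw [El3.el_comm i j k l h1 h2, h4] at h3
  exact h3.symm

theorem tgi_eB_form {a b c : Fin 3} (h1 : a ≠ b) (h2 : b ≠ c) (h3 : a ≠ c)
    (X Y : Matrix (Fin m) (Fin m) E) :
    eB a b X * eB b c Y * eB a b (-X) * eB b c (-Y) = eB a c (X * Y) := by
  have h4 := congrArg (Matrix.compRingEquiv (Fin 3) (Fin m) E)
    (El3.el_comm_form a b c h1 h2 h3 X Y)
  rw [map_mul, map_mul, map_mul] at h4
  exact h4.symm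

theorem tgi_eB_apply (i j : Fin 3) (X : Matrix (Fin m) (Fin m) E) (a b : Fin 3) (k l : Fin m) :
    eB i j X (a, k) (b, l) =
      (if a = b then (if k = l then 1 else 0) else 0) + (if i = a ∧ j = b then X k l else 0) := by
  have h1 : eB i j X (a, k) (b, l) = (el i j X a b) k l := rfl
  rw [h1, el, Matrix.add_apply, Matrix.add_apply, Matrix.one_apply, Matrix.single_apply]
  congr 1
  · split_ifs with h2 h3
    · rw [h3, Matrix.one_apply_eq]
    · rw [Matrix.one_apply_ne h3]
    · rfl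
  · split_ifs
    · rfl
    · rfl

/-- The determinant is one. Proof. See `cdet_ELs` in file BoundGen, or: the matrix is unipotent
block triangular up to reindexing. -/
theorem eB_det {i j : Fin 3} (h : i ≠ j) (X : Matrix (Fin m) (Fin m) E) : (eB i j X).det = 1 :=
  El3.cdet_el m E i j h X

/-- The block elementary elements of the special linear group. -/
noncomputable def eS (i j : Fin 3) (h : i ≠ j) (X : Matrix (Fin m) (Fin m) E) :
    SpecialLinearGroup (Fin 3 × Fin m) E :=
  ⟨eB i j X, eB_det h X⟩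

/-- The inverse. -/
theorem eS_inv {i j : Fin 3} (h : i ≠ j) (X : Matrix (Fin m) (Fin m) E) :
    (eS i j h X)⁻¹ = eS i j h (-X) := by
  apply inv_eq_of_mul_eq_one_right
  apply Subtype.ext
  have h1 := (eB_mul h X (-X)).1
  rw [add_neg_cancel, (eB_mul h X X).2] at h1
  exact h1

theorem tgi_eS_mul {i j : Fin 3} (h : i ≠ j) (X Y : Matrix (Fin m) (Fin m) E) :
    eS i j h X * eS i j h Y = eS i j h (X + Y) ∧ eS i j h (0 : Matrix (Fin m) (Fin m) E) = 1 :=
  ⟨Subtype.ext (eB_mul h X Y).1, Subtype.ext (eB_mul h X Y).2⟩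

/-- Field automorphisms and the inverse transpose on the block elementary elements. -/
theorem aN_eS {i j : Fin 3} (h : i ≠ j) (X : Matrix (Fin m) (Fin m) E) (σ : E ≃+* E) :
    aN (false, σ) (eS i j h X) = eS i j h (X.map σ) ∧
      aN (true, σ) (eS i j h X) = eS j i h.symm (-(X.map σ)ᵀ) := by
  have h1 : fM σ (eS i j h X) = eS i j h (X.map σ) := by
    apply Subtype.ext
    ext ⟨a, k⟩ ⟨b, l⟩
    rw [fM_coe]
    show σ (eB i j X (a, k) (b, l)) = eB i j (X.map σ) (a, k) (b, l)
    rw [tgi_eB_apply, tgi_eB_apply, map_add]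
    congr 1
    · split_ifs
      · exact map_one σ
      · exact map_zero σ
      · exact map_zero σ
    · split_ifs
      · rfl
      · exact map_zero σ
  refine ⟨h1, ?_⟩
  rw [aN_true, h1]
  apply Subtype.ext
  rw [iT_val, eS_inv]
  ext ⟨a, k⟩ ⟨b, l⟩
  rw [Matrix.transpose_apply]
  show eB i j (-(X.map σ)) (b, l) (a, k) = eB j i (-(X.map σ)ᵀ) (a, k) (b, l)
  rw [tgi_eB_apply, tgi_eB_apply]
  congr 1
  · split_ifs with h2 h3 h4 h5 h6 h7 h8 h9
    all_goals first | rfl | (exfalso; simp_all)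
  · split_ifs with h2 h3 h4
    · rfl
    · exact absurd ⟨h2.2, h2.1⟩ h3
    · exact absurd ⟨h4.2, h4.1⟩ h2
    · rfl

/-- Commutators. Proof. `El3.el_comm`, `El3.el_comm_form` (`k i j` distinct). -/
theorem eS_cm {i j k : Fin 3} (hij : i ≠ j) (hki : k ≠ i) (hkj : k ≠ j)
    (Y X : Matrix (Fin m) (Fin m) E) :
    cm (eS k i hki Y) (eS i j hij X) = eS k j hkj (Y * X) ∧
      cm (eS k i hki Y) (eS j i hij.symm X) = 1 := by
  constructor
  · unfold cm
    rw [eS_inv, eS_inv]
    exact Subtype.ext (tgi_eB_form hki hij hkj Y X)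
  · unfold cm
    have h1 : eS k i hki Y * eS j i hij.symm X = eS j i hij.symm X * eS k i hki Y :=
      Subtype.ext (tgi_eB_comm hij hki.symm Y X)
    rw [h1]
    group

theorem tgi_list (l : List {ρ : Fin 3 × Fin 3 // ρ.1 ≠ ρ.2}) :
    ∀ {g : Matrix (Fin 3) (Fin 3) (Matrix (Fin m) (Fin m) E)}, g ∈ ELs (l.map Subtype.val) →
    ∃ X : Fin l.length → Matrix (Fin m) (Fin m) E,
      Matrix.comp (Fin 3) (Fin 3) (Fin m) (Fin m) E g = ((List.ofFn fun k : Fin l.length =>
        eS (l.get k).1.1 (l.get k).1.2 (l.get k).2 (X k)).prod).1 := by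
  induction l with
  | nil =>
    intro g hg
    have hg' : g = 1 := hg
    refine ⟨fun k => k.elim0, ?_⟩
    rw [hg']
    exact map_one (Matrix.compRingEquiv (Fin 3) (Fin m) E)
  | cons ρ l ih =>
    intro g hg
    obtain ⟨r, y, hy, rfl⟩ := hg
    obtain ⟨X, hX⟩ := ih hy
    refine ⟨Fin.cons r X, ?_⟩
    have h1 : (List.ofFn fun k : Fin (ρ :: l).length =>
        eS ((ρ :: l).get k).1.1 ((ρ :: l).get k).1.2 ((ρ :: l).get k).2
          ((Fin.cons r X : Fin (l.length + 1) → Matrix (Fin m) (Fin m) E) k)) =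
        eS ρ.1.1 ρ.1.2 ρ.2 r :: List.ofFn fun k : Fin l.length =>
          eS (l.get k).1.1 (l.get k).1.2 (l.get k).2 (X k) :=
      List.ofFn_succ
    have h2 := map_mul (Matrix.compRingEquiv (Fin 3) (Fin m) E) (el ρ.1.1 ρ.1.2 r) y
    refine h2.trans ?_
    have h3 : (List.ofFn fun k : Fin (ρ :: l).length =>
        eS ((ρ :: l).get k).1.1 ((ρ :: l).get k).1.2 ((ρ :: l).get k).2
          ((Fin.cons r X : Fin (l.length + 1) → Matrix (Fin m) (Fin m) E) k)).prod =
        eS ρ.1.1 ρ.1.2 ρ.2 r * (List.ofFn fun k : Fin l.length =>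
          eS (l.get k).1.1 (l.get k).1.2 (l.get k).2 (X k)).prod := by
      rw [h1, List.prod_cons]
    refine Eq.trans ?_ (congrArg Subtype.val h3).symm
    exact congrArg (fun z => eB ρ.1.1 ρ.1.2 r * z) hX

/-- Every element of `SL_{3 m}` is a product of block elementary elements with a fixed pattern.

Proof. `bound_gen` and induction on the list. -/
theorem eS_gen : ∃ l : List {ρ : Fin 3 × Fin 3 // ρ.1 ≠ ρ.2}, ∀ (E : Type) [Field E] (m : ℕ)
    (g : SpecialLinearGroup (Fin 3 × Fin m) E), ∃ X : Fin l.length → Matrix (Fin m) (Fin m) E,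
      g = (List.ofFn fun k : Fin l.length =>
        eS (l.get k).1.1 (l.get k).1.2 (l.get k).2 (X k)).prod := by
  obtain ⟨l, hl, hgen⟩ := bound_gen
  refine ⟨l.pmap Subtype.mk hl, fun E _ m g => ?_⟩
  have h1 : (l.pmap Subtype.mk hl).map Subtype.val = l := by
    rw [List.map_pmap, List.pmap_eq_map, List.map_id']
  have h2 := hgen E m ((Matrix.comp (Fin 3) (Fin 3) (Fin m) (Fin m) E).symm g.1)
    (by rw [Equiv.apply_symm_apply]; exact g.2)
  rw [← h1] at h2
  obtain ⟨X, hX⟩ := tgi_list (l.pmap Subtype.mk hl) h2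
  rw [Equiv.apply_symm_apply] at hX
  exact ⟨X, Subtype.ext hX⟩

theorem tgi_disp {G V : Type} [Group G] [NormedAddCommGroup V] [InnerProductSpace ℂ V]
    (ρ : G →* (V ≃ₗᵢ[ℂ] V)) (v : V) (a b : G) :
    ‖ρ (a * b) v - v‖ ≤ ‖ρ a v - v‖ + ‖ρ b v - v‖ := by
  have h1 : ρ (a * b) v - v = (ρ a v - v) + ρ a (ρ b v - v) := by
    rw [map_mul, map_sub]
    show ρ a (ρ b v) - v = _
    abel
  rw [h1]
  refine (norm_add_le _ _).trans ?_
  rw [LinearIsometryEquiv.norm_map]

theorem tgi_dispL {G V : Type} [Group G] [NormedAddCommGroup V] [InnerProductSpace ℂ V]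
    (ρ : G →* (V ≃ₗᵢ[ℂ] V)) (v : V) (c : ℝ) (L : List G) (h : ∀ g ∈ L, ‖ρ g v - v‖ ≤ c) :
    ‖ρ L.prod v - v‖ ≤ L.length * c := by
  induction L with
  | nil => simp
  | cons g L ih =>
    rw [List.prod_cons, List.length_cons]
    have h1 := h g (List.mem_cons_self ..)
    have h2 := ih (fun g hg => h g (List.mem_cons_of_mem _ hg))
    have h3 := tgi_disp ρ v g L.prod
    push_cast
    linarith

theorem tgi_pi {I G : Type} [Group G] {n : ℕ} (F : Fin n → I → G) (p : I) :
    (List.ofFn F).prod p = (List.ofFn fun k => F k p).prod := by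
  have h1 := map_list_prod (Pi.evalMonoidHom (fun _ : I => G) p) (List.ofFn F)
  rw [List.map_ofFn] at h1
  exact h1

/-- One half. -/
theorem tgi_half {E V : Type} [Field E] [Finite E] [NormedAddCommGroup V] [InnerProductSpace ℂ V]
    {m : ℕ} (ρ : (Bool × (E ≃+* E) → SpecialLinearGroup (Fin 3 × Fin m) E) →* (V ≃ₗᵢ[ℂ] V))
    (v : V) {e : ℝ} (he : 0 ≤ e) (s : Bool)
    (h : ∀ (k j : Fin 3) (hkj : k ≠ j) (Y X : Matrix (Fin m) (Fin m) E),
      ‖ρ (fun p => if p.1 = s then eS k j hkj (Y * X.map p.2) else 1) v - v‖ ≤ e)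
    (l : List {ρ : Fin 3 × Fin 3 // ρ.1 ≠ ρ.2})
    (hl : ∀ g : SpecialLinearGroup (Fin 3 × Fin m) E,
      ∃ X : Fin l.length → Matrix (Fin m) (Fin m) E, g = (List.ofFn fun k : Fin l.length =>
        eS (l.get k).1.1 (l.get k).1.2 (l.get k).2 (X k)).prod)
    (x : Bool × (E ≃+* E) → SpecialLinearGroup (Fin 3 × Fin m) E) :
    ‖ρ (fun p => if p.1 = s then x p else 1) v - v‖ ≤ l.length * (2 * e) := by
  have : Finite (E ≃+* E) :=
    Finite.of_injective (fun f : E ≃+* E => (f : E → E)) DFunLike.coe_injective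
  have h1 : ∀ (k j : Fin 3) (hkj : k ≠ j) (x : (E ≃+* E) → Matrix (Fin m) (Fin m) E),
      ‖ρ (fun p => if p.1 = s then eS k j hkj (x p.2) else 1) v - v‖ ≤ 2 * e := by
    intro k j hkj x
    obtain ⟨φ, hφ⟩ : ∃ φ : Multiplicative ((E ≃+* E) → Matrix (Fin m) (Fin m) E) →*
        (Bool × (E ≃+* E) → SpecialLinearGroup (Fin 3 × Fin m) E),
        ∀ y, φ (Multiplicative.ofAdd y) =
          fun p => if p.1 = s then eS k j hkj (y p.2) else 1 :=
      ⟨{ toFun := fun y p => if p.1 = s then eS k j hkj (y.toAdd p.2) else 1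
         map_one' := by
          funext p
          split_ifs
          · exact (tgi_eS_mul hkj 0 0).2
          · rfl
         map_mul' := fun y z => by
          funext p
          show _ = (if p.1 = s then eS k j hkj (y.toAdd p.2) else 1) *
            (if p.1 = s then eS k j hkj (z.toAdd p.2) else 1)
          split_ifs
          · exact (tgi_eS_mul hkj _ _).1.symm
          · exact (one_mul 1).symm }, fun _ => rfl⟩
    have h2 := tg_mat m (fun σ : E ≃+* E => σ) (fun _ _ h => h) (ρ.comp φ) v he (fun Y X => by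
      have h3 := h k j hkj Y X
      rw [← hφ (fun σ => Y * X.map σ)] at h3
      exact h3) x
    have h4 : (ρ.comp φ) (Multiplicative.ofAdd x) = ρ (φ (Multiplicative.ofAdd x)) := rfl
    rw [h4, hφ] at h2
    exact h2
  choose X hX using fun p => hl (x p)
  have h5 : (fun p => if p.1 = s then x p else 1) =
      (List.ofFn fun (k : Fin l.length) (p : Bool × (E ≃+* E)) =>
        if p.1 = s then eS (l.get k).1.1 (l.get k).1.2 (l.get k).2 (X (s, p.2) k) else 1).prod := by
    funext p
    rw [tgi_pi]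
    by_cases hp : p.1 = s
    · simp only [if_pos hp]
      have h6 : p = (s, p.2) := Prod.ext hp rfl
      conv_lhs => rw [h6]
      exact hX (s, p.2)
    · simp only [if_neg hp]
      rw [List.ofFn_const, List.prod_replicate, one_pow]
  rw [h5]
  have h7 := tgi_dispL ρ v (2 * e) (List.ofFn fun (k : Fin l.length) (p : Bool × (E ≃+* E)) =>
        if p.1 = s then eS (l.get k).1.1 (l.get k).1.2 (l.get k).2 (X (s, p.2) k) else 1)
    (fun g hg => by
      obtain ⟨k, rfl⟩ := (List.mem_ofFn' _ _).1 hg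
      exact h1 _ _ _ (fun σ => X (s, σ) k))
  rw [List.length_ofFn] at h7
  exact h7

/-- The gap for `SL_{3 m}`, the field automorphisms and the inverse transpose.

Proof. Let `l` be from `eS_gen`, `B = 4 * l.length + 1`. The index set is `Bool × (E ≃+* E)`. For
distinct `i j k`: the twisted commutator of the constant `eS k i Y` and `eS i j X` is
`eS k j (Y * X.map σ)` at `(false, σ)`, and at `(true, σ)` it is
`cm (eS k i Y) (eS j i ..) = 1` (`aN_eS`, `eS_cm`). By `tg_mat` (`Λ = E ≃+* E`, the homomorphism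
`x ↦ (fun p => if p.1 then 1 else eS k j (x p.2))`) all `fun p => if p.1 then 1 else eS k j (x p.2)`
move `v` by at most `2 * e` (every pair `k ≠ j` has a third index `i`). The twisted commutator of
`eS k j Y` and `eS i j X` is `1` at `(false, σ)` (`eS_cm` for `cm (eS k j Y) (eS i j ..)`) and
`cm (eS k j Y) (eS j i (-(X.map σ)ᵀ)) = eS k i (-(Y * (X.map σ)ᵀ))` at `(true, σ)`; put
`X = -(X')ᵀ`: this is `eS k i (Y * X'.map σ)`; so the same for the second half. Every element is a
product of an element supported on the first half and one supported on the second, and each of them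
is a product of `l.length` of the above with the fixed pattern `l`. -/
theorem tgl_sl3 : ∃ B : ℝ, 1 ≤ B ∧ ∀ (E : Type) [Field E] [Finite E] (m : ℕ),
    TGL B (aN : Bool × (E ≃+* E) → MulAut (SpecialLinearGroup (Fin 3 × Fin m) E)) := by
  obtain ⟨l, hl⟩ := eS_gen
  refine ⟨4 * l.length + 1, by linarith [Nat.cast_nonneg (α := ℝ) l.length], ?_⟩
  intro E _ _ m V _ _ _ ρ v e he _ h2 x
  have hf := tgi_half ρ v he false (fun k j hkj Y X => by
    obtain ⟨i, hki, hij⟩ := El3.exists_third k j hkj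
    have h3 := h2 (eS k i hki Y) (eS i j hij X)
    have h4 : (fun p => cm (eS k i hki Y) (aN p (eS i j hij X))) =
        fun p : Bool × (E ≃+* E) => if p.1 = false then eS k j hkj (Y * X.map p.2) else 1 := by
      funext ⟨b, σ⟩
      cases b
      · rw [(aN_eS hij X σ).1, (eS_cm hij hki hkj Y _).1]
        rfl
      · rw [(aN_eS hij X σ).2, (eS_cm hij hki hkj Y _).2]
        rfl
    rw [h4] at h3
    exact h3) l (hl E m) x
  have ht := tgi_half ρ v he true (fun k j hkj Y X => by
    obtain ⟨i, hki, hij⟩ := El3.exists_third k j hkj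
    have h3 := h2 (eS k i hki Y) (eS j i hij.symm (-Xᵀ))
    have h4 : (fun p => cm (eS k i hki Y) (aN p (eS j i hij.symm (-Xᵀ)))) =
        fun p : Bool × (E ≃+* E) => if p.1 = true then eS k j hkj (Y * X.map p.2) else 1 := by
      funext ⟨b, σ⟩
      cases b
      · rw [(aN_eS hij.symm (-Xᵀ) σ).1, (eS_cm hij hki hkj Y _).2]
        rfl
      · have h5 : -((-Xᵀ).map σ)ᵀ = X.map σ := by
          ext a b
          rw [Matrix.neg_apply, Matrix.transpose_apply, Matrix.map_apply, Matrix.map_apply,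
            Matrix.neg_apply, Matrix.transpose_apply, map_neg, neg_neg]
        rw [(aN_eS hij.symm (-Xᵀ) σ).2, h5, (eS_cm hij hki hkj Y _).1]
        rfl
    rw [h4] at h3
    exact h3) l (hl E m) x
  have h6 : x = (fun p => if p.1 = false then x p else 1) *
      (fun p => if p.1 = true then x p else 1) := by
    funext ⟨b, σ⟩
    cases b
    · exact (mul_one _).symm
    · exact (one_mul _).symm
  have h7 := tgi_disp ρ v (fun p => if p.1 = false then x p else 1)
    (fun p => if p.1 = true then x p else 1)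
  rw [← h6] at h7
  nlinarith

end Pool.Agent.MPfe8e9bN
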