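import Mathlib
import Pool.Agent.Lib.MP_fe8e9b_al.Sl3Images
import Pool.Agent.Lib.MP_fe8e9b_al.SlSucc
import Pool.Agent.Lib.MP_fe8e9b_al_N.Defs3
import Pool.Agent.Lib.MP_fe8e9b_al_N.DefN
import Pool.Agent.Lib.MP_fe8e9b_al_N.TgA
import Pool.Agent.Lib.MP_fe8e9b_al_N.TgI

/-!
# MP_fe8e9b_al, groups of bounded height: the gap for `SL_n`
-/

set_option autoImplicit false

open scoped BigOperators MatrixGroups

namespace Pool.Agent.MPfe8e9bN

open Pool.Agent.MPfe8e9b Pool.Agent.MPfe8e9bA Pool.Agent.MPfe8e9bW Pool.Agent.MPfe8e9bV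
open Pool.Agent.MPfe8e9bM Matrix Pool.Agent.MPfe8e9b.SlSucc

/-- displacements add up -/
private theorem tgj_list {H V : Type} [Group H] [NormedAddCommGroup V] [InnerProductSpace ℂ V]
    (ρ : H →* (V ≃ₗᵢ[ℂ] V)) (v : V) (d : ℝ) (l : List H)
    (hl : ∀ y ∈ l, ‖ρ y v - v‖ ≤ d) : ‖ρ l.prod v - v‖ ≤ l.length * d := by
  induction l with
  | nil =>
    rw [List.prod_nil, map_one]
    show ‖v - v‖ ≤ _
    simp
  | cons a l ih =>
    rw [List.prod_cons]
    have h3 : ρ (a * l.prod) v - v = ρ a (ρ l.prod v - v) + (ρ a v - v) := by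
      rw [map_mul, map_sub]
      show ρ a (ρ l.prod v) - v = _
      abel
    have h4 := hl a List.mem_cons_self
    have h5 := ih fun y hyl => hl y (List.mem_cons_of_mem a hyl)
    have h6 : ‖ρ (a * l.prod) v - v‖ ≤ ‖ρ l.prod v - v‖ + ‖ρ a v - v‖ := by
      rw [h3]
      refine (norm_add_le _ _).trans ?_
      rw [LinearIsometryEquiv.norm_map]
    rw [List.length_cons]
    push_cast
    linarith

/-- The gap for a product of images.

Proof. For every `j` the representation `x ↦ ρ (fun l => φ j (x l))` of `Λ → T0` satisfies the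
hypotheses of `hg` (conjugation by `φ j k`, twisted commutators of `φ j h` and `φ j t`), so all
`fun l => φ j (x l)` move `v` by at most `B * e`. Every element of `Λ → T` is a product of `C` of
them (coordinatewise `h2`; choose). Displacements add up. -/
theorem tgl_img {B : ℝ} {Λ T0 T : Type} [Group T0] [Group T] {α0 : Λ → MulAut T0}
    {α : Λ → MulAut T} (hg : TGL B α0) {C : ℕ} (φ : Fin C → (T0 →* T))
    (h1 : ∀ j l t, φ j (α0 l t) = α l (φ j t))
    (h2 : ∀ t : T, ∃ x : Fin C → T0, t = (List.ofFn fun j => φ j (x j)).prod) :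
    TGL (C * B) α := by
  intro V _ _ _ ρ v e he h3 h4 x
  obtain ⟨r, hr⟩ : ∃ r : Fin C → ((Λ → T0) →* (Λ → T)), ∀ j x i, r j x i = φ j (x i) :=
    ⟨fun j => { toFun := fun x i => φ j (x i)
                map_one' := funext fun _ => map_one (φ j)
                map_mul' := fun _ _ => funext fun _ => map_mul (φ j) _ _ },
      fun _ _ _ => rfl⟩
  have h5 : ∀ (j : Fin C) (y : Λ → T0), ‖ρ (r j y) v - v‖ ≤ B * e := by
    intro j y
    refine hg V (ρ.comp (r j)) v e he (fun k x => ?_) (fun k t => ?_) y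
    · have h6 : r j ((fun _ => k) * x * (fun _ => k)⁻¹) =
          (fun _ => φ j k) * r j x * (fun _ => φ j k)⁻¹ := by
        funext i
        rw [hr]
        simp only [Pi.mul_apply, Pi.inv_apply, hr, map_mul, map_inv]
      show ‖ρ (r j _) v - v‖ = ‖ρ (r j x) v - v‖
      rw [h6, h3]
    · have h6 : r j (fun l => cm k (α0 l t)) = fun i => cm (φ j k) (α i (φ j t)) := by
        funext i
        rw [hr]
        simp only [cm, map_mul, map_inv, h1]
      show ‖ρ (r j _) v - v‖ ≤ e
      rw [h6]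
      exact h4 _ _
  choose y hy using h2
  have h6 : x = (List.ofFn fun j => r j (fun l => y (x l) j)).prod := by
    funext l
    have h7 := map_list_prod (Pi.evalMonoidHom (fun _ : Λ => T) l)
      (List.ofFn fun j => r j (fun l => y (x l) j))
    rw [List.map_ofFn] at h7
    refine (hy (x l)).trans (Eq.trans ?_ h7.symm)
    congr 2
    funext j
    exact (hr j (fun l => y (x l) j) l).symm
  have h7 := tgj_list ρ v (B * e) (List.ofFn fun j => r j (fun l => y (x l) j)) (by
    intro z hz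
    rw [List.mem_ofFn] at hz
    obtain ⟨j, rfl⟩ := hz
    exact h5 j _)
  rw [← h6, List.length_ofFn] at h7
  rw [mul_assoc]
  exact h7

/-- A group which is a product of `C` images of special linear groups, compatible with the
automorphisms `aN`. -/
def ImgN (C : ℕ) (ι κ : Type) [Fintype ι] [DecidableEq ι] [Fintype κ] [DecidableEq κ]
    (E : Type) [Field E] : Prop :=
  ∃ φ : Fin C → (SpecialLinearGroup ι E →* SpecialLinearGroup κ E),
    (∀ j (p : Bool × (E ≃+* E)) x, φ j (aN p x) = aN p (φ j x)) ∧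
    ∀ t : SpecialLinearGroup κ E, ∃ x : Fin C → SpecialLinearGroup ι E,
      t = (List.ofFn fun j => φ j (x j)).prod

private theorem tgj_aN {ι κ : Type} [Fintype ι] [DecidableEq ι] [Fintype κ] [DecidableEq κ]
    {E : Type} [Field E] (φ : SpecialLinearGroup ι E →* SpecialLinearGroup κ E)
    (h1 : ∀ (σ : E ≃+* E) x, φ (fM σ x) = fM σ (φ x))
    (h2 : ∀ x, φ x.transpose = (φ x).transpose) (p : Bool × (E ≃+* E))
    (x : SpecialLinearGroup ι E) : φ (aN p x) = aN p (φ x) := by
  obtain ⟨b, σ⟩ := p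
  cases b
  · rw [aN_false, aN_false, h1]
  · rw [aN_true, aN_true]
    show φ ((fM σ x)⁻¹.transpose) = (fM σ (φ x))⁻¹.transpose
    rw [h2, map_inv, h1]

/-- Composition. Proof. As `Sl3Images.comp`. -/
theorem imgN_comp {C C' : ℕ} {ι κ μ : Type} [Fintype ι] [DecidableEq ι] [Fintype κ]
    [DecidableEq κ] [Fintype μ] [DecidableEq μ] {E : Type} [Field E] (h : ImgN C ι κ E)
    (h' : ImgN C' κ μ E) : ImgN (C' * C) ι μ E := by
  obtain ⟨φ, h1, h2⟩ := h
  obtain ⟨ψ, h3, h4⟩ := h'
  refine ⟨fun k => (ψ (finProdFinEquiv.symm k).1).comp (φ (finProdFinEquiv.symm k).2),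
    fun k p x => ?_, fun t => ?_⟩
  · show ψ _ (φ _ (aN p x)) = aN p (ψ _ (φ _ x))
    rw [h1, h3]
  · obtain ⟨x, hx⟩ := h4 t
    choose y hy using h2
    refine ⟨fun k => y (x (finProdFinEquiv.symm k).1) (finProdFinEquiv.symm k).2, ?_⟩
    have h5 : ∀ f : Fin C' × Fin C → SpecialLinearGroup μ E,
        (List.ofFn fun k => f (finProdFinEquiv.symm k)).prod =
          (List.ofFn fun i => (List.ofFn fun j => f (i, j)).prod).prod := by
      intro f
      rw [List.ofFn_mul, List.prod_flatten, List.map_ofFn]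
      congr 2
      funext i
      show (List.ofFn _).prod = _
      congr 2
      funext j
      have h6 : (finProdFinEquiv.symm ⟨i.val * C + j.val, by
          calc i.val * C + j.val < (i.val + 1) * C := by
                rw [add_mul, one_mul]
                exact Nat.add_lt_add_left j.2 _
            _ ≤ C' * C := Nat.mul_le_mul_right _ i.2⟩ : Fin C' × Fin C) = (i, j) := by
        rw [Equiv.symm_apply_eq]
        apply Fin.ext
        show i.val * C + j.val = j.val + C * i.val
        ring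
      exact congrArg f h6
    have h6 := h5 fun q => (ψ q.1).comp (φ q.2) (y (x q.1) q.2)
    refine Eq.trans ?_ h6.symm
    rw [hx]
    congr 2
    funext i
    show ψ i (x i) = (List.ofFn fun j => ψ i (φ j (y (x i) j))).prod
    have h7 := congrArg (ψ i) (hy (x i))
    rw [map_list_prod, List.map_ofFn] at h7
    exact h7

/-- Reindexing. Proof. `Sl3Images.reindexSL`, which commutes with `aN`. -/
theorem imgN_reindex {ι κ : Type} [Fintype ι] [DecidableEq ι] [Fintype κ] [DecidableEq κ]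
    (e : ι ≃ κ) (E : Type) [Field E] : ImgN 1 ι κ E := by
  refine ⟨fun _ => Sl3Images.reindexSL e E, fun _ p x => ?_, fun t => ?_⟩
  · refine tgj_aN _ (fun σ x => ?_) (fun x => ?_) p x
    · apply Subtype.ext
      ext i j
      rfl
    · apply Subtype.ext
      ext i j
      rfl
  · obtain ⟨x, hx⟩ := Sl3Images.reindexSL_surj e E t
    refine ⟨fun _ => x, ?_⟩
    rw [List.ofFn_succ, List.ofFn_zero, List.prod_cons, List.prod_nil, mul_one]
    exact hx.symm

/-- One more dimension.

Proof. The proof of `sl_succ` (file SlSucc) with the same homomorphisms `![em (e₁ n) E,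
em (e₂ n) E, em (e₁ n) E, em (e₂ n) E, em (e₁ n) E]`; `SlSucc.em` commutes with field
automorphisms and with the inverse transpose (block diagonal matrices). -/
theorem imgN_succ (n : ℕ) (hn : 2 ≤ n) (E : Type) [Field E] :
    ImgN 5 (Fin n) (Fin (n + 1)) E := by
  have key : ∀ (e : Fin n ⊕ Fin 1 ≃ Fin (n + 1)) (p : Bool × (E ≃+* E))
      (x : SpecialLinearGroup (Fin n) E), em e E (aN p x) = aN p (em e E x) := by
    intro e
    refine tgj_aN _ (fun σ x => ?_) (fun x => ?_)
    · apply Subtype.ext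
      rw [em_val, fM_val, fM_val, em_val]
      ext i j
      simp only [Matrix.reindex_apply, Matrix.submatrix_apply, Matrix.map_apply]
      rcases e.symm i with i' | i' <;> rcases e.symm j with j' | j'
      · rfl
      · simp
      · simp
      · simp only [Matrix.fromBlocks_apply₂₂]
        have hi : i' = j' := Subsingleton.elim _ _
        rw [hi, Matrix.one_apply_eq, map_one]
    · apply Subtype.ext
      rw [em_val]
      show _ = (em e E x).1ᵀ
      rw [em_val, Matrix.transpose_reindex, Matrix.fromBlocks_transpose, Matrix.transpose_zero,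
        Matrix.transpose_zero, Matrix.transpose_one]
      rfl
  refine ⟨![em (e₁ n) E, em (e₂ n) E, em (e₁ n) E, em (e₂ n) E, em (e₁ n) E], ?_, ?_⟩
  · intro j p x
    fin_cases j <;> exact key _ p x
  intro g
  -- make the last column trivial
  obtain ⟨k, k', hk⟩ := col hn (g.1 *ᵥ Pi.single (Fin.last n) 1) (by
    intro h
    have h1 : (g⁻¹).1 *ᵥ (g.1 *ᵥ Pi.single (Fin.last n) 1) = 0 := by
      rw [h, Matrix.mulVec_zero]
    rw [Matrix.mulVec_mulVec, ← Matrix.SpecialLinearGroup.coe_mul, inv_mul_cancel,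
      Matrix.SpecialLinearGroup.coe_one, Matrix.one_mulVec] at h1
    have := congrFun h1 (Fin.last n)
    rw [Pi.single_eq_same] at this
    exact one_ne_zero this)
  obtain ⟨G, w, hG⟩ := factor (em (e₂ n) E k' * em (e₁ n) E k * g) (by
    rw [Matrix.SpecialLinearGroup.coe_mul, Matrix.SpecialLinearGroup.coe_mul,
      ← Matrix.mulVec_mulVec, ← Matrix.mulVec_mulVec]
    exact hk)
  obtain ⟨y, z, hyz⟩ : ∃ y z : Matrix.SpecialLinearGroup (Fin n) E,
      lw w = em (e₁ n) E y * em (e₂ n) E z * em (e₁ n) E y⁻¹ := by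
    by_cases hw : w = 0
    · refine ⟨1, 1, ?_⟩
      rw [map_one, map_one, inv_one, map_one, one_mul, one_mul]
      apply Subtype.ext
      show Matrix.reindex (e₁ n) (e₁ n) _ = 1
      rw [hw]
      have : Matrix.replicateRow (Fin 1) (0 : Fin n → E) = 0 := by
        ext; rfl
      rw [this, Matrix.fromBlocks_one]
      simp
    · obtain ⟨A, hA⟩ := trans2 hn w hw ⟨1, by omega⟩
      obtain ⟨z, hz⟩ := lw_mem (n := n) (F := E) hn
      refine ⟨A.transpose, z, ?_⟩
      rw [← hz]
      apply lw_conj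
      rw [Matrix.SpecialLinearGroup.coe_transpose, Matrix.vecMul_transpose]
      exact hA
  refine ⟨![k⁻¹, k'⁻¹, y, z, y⁻¹ * G], ?_⟩
  have h1 : g = em (e₁ n) E k⁻¹ * (em (e₂ n) E k'⁻¹ * (em (e₁ n) E y *
      (em (e₂ n) E z * em (e₁ n) E (y⁻¹ * G)))) := by
    have h2 : g = (em (e₁ n) E k)⁻¹ * ((em (e₂ n) E k')⁻¹ *
        (em (e₂ n) E k' * em (e₁ n) E k * g)) := by group
    rw [h2, hG, hyz]
    simp only [map_inv, map_mul, mul_assoc]
  rw [h1]
  simp [List.ofFn_succ]

/-- Padding. Proof. Use the trivial homomorphism for the new factors. -/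
theorem imgN_mono {C C' : ℕ} (hC : C ≤ C') {ι κ : Type} [Fintype ι] [DecidableEq ι] [Fintype κ]
    [DecidableEq κ] {E : Type} [Field E] (h : ImgN C ι κ E) : ImgN C' ι κ E := by
  obtain ⟨k, rfl⟩ := Nat.exists_eq_add_of_le hC
  obtain ⟨φ, h1, h2⟩ := h
  obtain ⟨ψ, a1, a2⟩ : ∃ ψ : Fin (C + k) → (SpecialLinearGroup ι E →*
      SpecialLinearGroup κ E), (∀ i, ψ (Fin.castAdd k i) = φ i) ∧ ∀ i, ψ (Fin.natAdd C i) = 1 :=
    ⟨fun j => Fin.addCases φ (fun _ => 1) j, fun i => Fin.addCases_left i,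
      fun i => Fin.addCases_right i⟩
  refine ⟨ψ, fun j p x => ?_, fun t => ?_⟩
  · refine Fin.addCases (fun i => ?_) (fun i => ?_) j
    · rw [a1, h1]
    · rw [a2, MonoidHom.one_apply, MonoidHom.one_apply, map_one]
  · obtain ⟨x, hx⟩ := h2 t
    obtain ⟨y, b1⟩ : ∃ y : Fin (C + k) → SpecialLinearGroup ι E,
        ∀ i, y (Fin.castAdd k i) = x i :=
      ⟨fun j => Fin.addCases x (fun _ => 1) j, fun i => Fin.addCases_left i⟩
    refine ⟨y, ?_⟩
    have e0 := List.ofFn_add (m := k) (n := C) (f := fun j => ψ j (y j))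
    rw [e0, List.prod_append]
    have e1 : (List.ofFn fun j : Fin k => ψ (Fin.natAdd C j) (y (Fin.natAdd C j))).prod =
        1 := by
      simp [a2]
    have e2 : (fun i : Fin C => ψ (Fin.castAdd k i) (y (Fin.castAdd k i))) =
        fun i => φ i (x i) := by
      funext i
      rw [a1, b1]
    rw [e1, mul_one, hx]
    exact congrArg (fun f : Fin C → SpecialLinearGroup κ E => (List.ofFn f).prod) e2.symm

private theorem tgj_add (N : ℕ) (hN : 2 ≤ N) (E : Type) [Field E] (r : ℕ) :
    ImgN (5 ^ r) (Fin N) (Fin (N + r)) E := by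
  induction r with
  | zero => exact imgN_reindex (Equiv.refl _) E
  | succ r ih =>
    have h1 := imgN_comp ih (imgN_succ (N + r) (by omega) E)
    rwa [← pow_succ'] at h1

/-- From `SL_{3 (n / 3)}` to `SL_n`. Proof. As `sl3_images` (file Sl3Images). -/
theorem imgN_sl3 (n : ℕ) (hn : 3 ≤ n) (E : Type) [Field E] :
    ImgN 25 (Fin 3 × Fin (n / 3)) (Fin n) E := by
  have h1 : ImgN 1 (Fin 3 × Fin (n / 3)) (Fin (3 * (n / 3))) E :=
    imgN_reindex finProdFinEquiv E
  have h2 := tgj_add (3 * (n / 3)) (by omega) E (n % 3)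
  have h3 : 3 * (n / 3) + n % 3 = n := Nat.div_add_mod n 3
  rw [h3] at h2
  refine imgN_mono ?_ (imgN_comp h1 h2)
  rw [mul_one]
  calc 5 ^ (n % 3) ≤ 5 ^ 2 := Nat.pow_le_pow_right (by norm_num) (by omega)
    _ = 25 := by norm_num

/-- The gap for `SL_n`. -/
theorem tgl_slN : ∃ B : ℝ, 1 ≤ B ∧ ∀ (E : Type) [Field E] [Finite E] (n : ℕ), 3 ≤ n →
    TGL B (aN : Bool × (E ≃+* E) → MulAut (SpecialLinearGroup (Fin n) E)) := by
  obtain ⟨B, hB, h⟩ := tgl_sl3
  refine ⟨(25 : ℕ) * B, by push_cast; linarith, fun E _ _ n hn => ?_⟩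
  obtain ⟨φ, h1, h2⟩ := imgN_sl3 n hn E
  exact tgl_img (h E (n / 3)) φ h1 h2

end Pool.Agent.MPfe8e9bN
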