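import Mathlib
import Pool.Agent.Lib.MP_fe8e9b_al.SlSucc
import Pool.Agent.Lib.MP_fe8e9b_al_N.Defs
import Pool.Agent.Lib.MP_fe8e9b_al_N.AnD
import Pool.Agent.Lib.MP_fe8e9b_al_N.AnB
import Pool.Agent.Lib.MP_fe8e9b_al_N.AnH
import Pool.Agent.Lib.MP_fe8e9b_al_N.TgJ

/-!
# MP_fe8e9b_al, groups of bounded height: the block `SL_n` in `PSL_{n+1}`
-/

set_option autoImplicit false

open scoped BigOperators MatrixGroups

namespace Pool.Agent.MPfe8e9bN

open Pool.Agent.MPfe8e9b Pool.Agent.MPfe8e9b.SlSucc Matrix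

variable {n : ℕ} {F : Type} [Field F]

/-- `SL_n` is perfect. Proof. `ev_comm`, `ev_gen`. -/
theorem sl_perf (hn : 3 ≤ n) : commutator SL(n, F) = ⊤ := by
  have hthird : ∀ i j : Fin n, ∃ k, k ≠ i ∧ k ≠ j := by
    intro i j
    by_contra hcon
    push Not at hcon
    have h1 : (Finset.univ : Finset (Fin n)) ⊆ {i, j} := by
      intro k _
      rw [Finset.mem_insert, Finset.mem_singleton]
      by_cases hk : k = i
      · exact Or.inl hk
      · exact Or.inr (hcon k hk)
    have h2 := Finset.card_le_card h1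
    rw [Finset.card_univ, Fintype.card_fin] at h2
    have h3 : ({i, j} : Finset (Fin n)).card ≤ 2 := Finset.card_le_two
    omega
  refine ev_gen (by omega) _ (fun i j hij x => ?_)
  obtain ⟨k, hk1, hk2⟩ := hthird i j
  have h1 := ev_comm hk1.symm hk2 hij x (1 : F)
  rw [mul_one] at h1
  rw [← h1, commutator_def]
  exact Subgroup.commutator_mem_commutator (Subgroup.mem_top (ev i k x))
    (Subgroup.mem_top (ev k j (1 : F)))

theorem mna_aN {ι κ : Type} [Fintype ι] [DecidableEq ι] [Fintype κ] [DecidableEq κ]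
    {E : Type} [Field E] (φ : SpecialLinearGroup ι E →* SpecialLinearGroup κ E)
    (h1 : ∀ (σ : E ≃+* E) x, φ (fM σ x) = fM σ (φ x))
    (h2 : ∀ x, φ x.transpose = (φ x).transpose) (p : Bool × (E ≃+* E))
    (x : SpecialLinearGroup ι E) : φ (aN p x) = aN p (φ x) := by
  obtain ⟨b, σ⟩ := p
  cases b
  · rw [aN_false, aN_false, h1]
  · rw [aN_true, aN_true]
    show φ ((fM σ x)⁻¹.transpose) = (fM σ (φ x))⁻¹.transpose
    rw [h2, map_inv, h1]

/-- The block and the automorphisms. Proof. As `key` in the proof of `imgN_succ` (file TgJ). -/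
theorem em_aN (e : Fin n ⊕ Fin 1 ≃ Fin (n + 1)) (p : Bool × (F ≃+* F)) (x : SL(n, F)) :
    em e F (aN p x) = aN p (em e F x) := by
  refine mna_aN _ (fun σ x => ?_) (fun x => ?_) p x
  · apply Subtype.ext
    rw [em_val, fM_val, fM_val, em_val]
    ext i j
    simp only [Matrix.reindex_apply, Matrix.submatrix_apply, Matrix.map_apply]
    rcases e.symm i with i' | i' <;> rcases e.symm j with j' | j'
    · rfl
    · simp
    · simp
    · simp only [Matrix.fromBlocks_apply₂₂]
      have hi : i' = j' := Subsingleton.elim _ _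
      rw [hi, Matrix.one_apply_eq, map_one]
  · apply Subtype.ext
    rw [em_val]
    show _ = (em e F x).1ᵀ
    rw [em_val, Matrix.transpose_reindex, Matrix.fromBlocks_transpose, Matrix.transpose_zero,
      Matrix.transpose_zero, Matrix.transpose_one]
    rfl

/-- The trace of a block. Proof. `em_val`, `Matrix.trace_fromBlocks`, reindexing. -/
theorem em_tr (e : Fin n ⊕ Fin 1 ≃ Fin (n + 1)) (x : SL(n, F)) :
    (em e F x).1.trace = x.1.trace + 1 := by
  rw [em_val]
  have h1 : ∀ M : Matrix (Fin n ⊕ Fin 1) (Fin n ⊕ Fin 1) F,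
      (Matrix.reindex e e M).trace = M.trace := by
    intro M
    simp only [Matrix.trace, Matrix.diag_apply, Matrix.reindex_apply, Matrix.submatrix_apply]
    exact Equiv.sum_comp e.symm (fun i => M i i)
  rw [h1]
  simp [Matrix.trace, Fintype.sum_sum_type]

/-- A diagonal matrix which commutes with the block.

Proof. `D = reindex e e (fromBlocks 1 0 0 (d • 1))`. -/
theorem em_diag (e : Fin n ⊕ Fin 1 ≃ Fin (n + 1)) (d : F) (hd : d ≠ 0) :
    ∃ D : GL (Fin (n + 1)) F, D.1.det = d ∧ ∀ x, cM D (em e F x) = em e F x := by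
  have hmul : ∀ a b : F, a * b = 1 →
      Matrix.reindex e e (Matrix.fromBlocks (1 : Matrix (Fin n) (Fin n) F) 0 0
          (a • (1 : Matrix (Fin 1) (Fin 1) F))) *
        Matrix.reindex e e (Matrix.fromBlocks (1 : Matrix (Fin n) (Fin n) F) 0 0
          (b • (1 : Matrix (Fin 1) (Fin 1) F))) = 1 := by
    intro a b hab
    rw [Matrix.reindex_apply, Matrix.reindex_apply, Matrix.submatrix_mul_equiv,
      Matrix.fromBlocks_multiply]
    have hab' : b * a = 1 := by rw [mul_comm]; exact hab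
    simp only [Matrix.mul_one, Matrix.mul_zero, add_zero, zero_add, Matrix.mul_smul,
      smul_smul, hab', one_smul, smul_zero]
    rw [Matrix.fromBlocks_one]
    simp
  refine ⟨⟨_, _, hmul d d⁻¹ (mul_inv_cancel₀ hd), hmul d⁻¹ d (inv_mul_cancel₀ hd)⟩, ?_, ?_⟩
  · show (Matrix.reindex e e (Matrix.fromBlocks (1 : Matrix (Fin n) (Fin n) F) 0 0
          (d • (1 : Matrix (Fin 1) (Fin 1) F)))).det = d
    rw [Matrix.det_reindex_self, Matrix.det_fromBlocks_zero₂₁, Matrix.det_one, one_mul]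
    simp
  · intro x
    apply Subtype.ext
    rw [cM_val]
    show Matrix.reindex e e (Matrix.fromBlocks (1 : Matrix (Fin n) (Fin n) F) 0 0
          (d • (1 : Matrix (Fin 1) (Fin 1) F))) * (em e F x).1 *
        Matrix.reindex e e (Matrix.fromBlocks (1 : Matrix (Fin n) (Fin n) F) 0 0
          (d⁻¹ • (1 : Matrix (Fin 1) (Fin 1) F))) = (em e F x).1
    rw [em_val, Matrix.reindex_apply, Matrix.reindex_apply, Matrix.reindex_apply,
      Matrix.submatrix_mul_equiv, Matrix.submatrix_mul_equiv, Matrix.fromBlocks_multiply,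
      Matrix.fromBlocks_multiply]
    simp only [Matrix.mul_one, Matrix.mul_zero, add_zero, Matrix.zero_mul, zero_add,
      Matrix.mul_smul, Matrix.one_mul, smul_smul, one_smul, inv_mul_cancel₀ hd, smul_zero]

/-- The two blocks are conjugate.

Proof. Let `W` be the permutation matrix of `(e₁ n).symm.trans (e₂ n)`, so that
`W * (em (e₁ n) F x).1 * W⁻¹ = (em (e₂ n) F x).1`, and `D` the diagonal matrix of `em_diag` for
`e₁ n` with the determinant `(det W)⁻¹ = ± 1`; `w = W * D`. -/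
theorem em_conj : ∃ w : SL(n + 1, F), ∀ x, w * em (e₁ n) F x * w⁻¹ = em (e₂ n) F x := by
  obtain ⟨σ, hσ⟩ : ∃ σ : Equiv.Perm (Fin (n + 1)), σ = (e₂ n).symm.trans (e₁ n) := ⟨_, rfl⟩
  obtain ⟨s, hs⟩ : ∃ s : F, s = ((Equiv.Perm.sign σ : ℤˣ) : ℤ) := ⟨_, rfl⟩
  have hss : s * s = 1 := by
    rw [hs]
    rcases Int.units_eq_one_or (Equiv.Perm.sign σ) with h1 | h1
    · rw [h1]
      simp
    · rw [h1]
      simp
  have hs0 : s ≠ 0 := by
    rintro rfl
    rw [zero_mul] at hss
    exact zero_ne_one hss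
  obtain ⟨D, hD, hDc⟩ := em_diag (F := F) (e₁ n) s hs0
  have hdet : (D.1.submatrix σ id).det = 1 := by
    rw [Matrix.det_permute, hD, ← hs, hss]
  refine ⟨⟨_, hdet⟩, fun x => ?_⟩
  rw [mul_inv_eq_iff_eq_mul]
  apply Subtype.ext
  show D.1.submatrix σ id * (em (e₁ n) F x).1 = (em (e₂ n) F x).1 * D.1.submatrix σ id
  have h1 : D.1 * (em (e₁ n) F x).1 = (em (e₁ n) F x).1 * D.1 := by
    have h2 := congrArg Subtype.val (hDc x)
    rw [cM_val] at h2
    have h3 : D⁻¹.1 * D.1 = 1 := by rw [← Units.val_mul, inv_mul_cancel, Units.val_one]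
    calc D.1 * (em (e₁ n) F x).1 = D.1 * (em (e₁ n) F x).1 * (D⁻¹.1 * D.1) := by
          rw [h3, Matrix.mul_one]
      _ = (D.1 * (em (e₁ n) F x).1 * D⁻¹.1) * D.1 := by simp only [Matrix.mul_assoc]
      _ = _ := by rw [h2]
  have h4 : (em (e₂ n) F x).1 = (em (e₁ n) F x).1.submatrix σ σ := by
    rw [em_val, em_val, hσ]
    ext i j
    simp only [Matrix.reindex_apply, Matrix.submatrix_apply, Equiv.trans_apply,
      Equiv.symm_apply_apply]
  have h5 : D.1.submatrix σ id * (em (e₁ n) F x).1 =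
      (D.1 * (em (e₁ n) F x).1).submatrix σ id := by
    have h6 := Matrix.submatrix_mul_equiv D.1 (em (e₁ n) F x).1 σ (Equiv.refl _) id
    exact h6
  rw [h5, h4, Matrix.submatrix_mul_equiv, h1]

/-- Products of elements of the blocks.

Proof. This is shown in the proof of `sl_succ` (file SlSucc) and in the proof of `imgN_succ`
(file TgJ): `g = em (e₁ n) E k⁻¹ * (em (e₂ n) E k'⁻¹ * (em (e₁ n) E y * (em (e₂ n) E z *
em (e₁ n) E (y⁻¹ * G))))`. -/
theorem em_prod (hn : 2 ≤ n) (g : SL(n + 1, F)) : ∃ a b c d e : SL(n, F),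
    g = em (e₁ n) F a * em (e₂ n) F b * em (e₁ n) F c * em (e₂ n) F d * em (e₁ n) F e := by
  -- make the last column trivial
  obtain ⟨k, k', hk⟩ := col hn (g.1 *ᵥ Pi.single (Fin.last n) 1) (by
    intro h
    have h1 : (g⁻¹).1 *ᵥ (g.1 *ᵥ Pi.single (Fin.last n) 1) = 0 := by
      rw [h, Matrix.mulVec_zero]
    rw [Matrix.mulVec_mulVec, ← Matrix.SpecialLinearGroup.coe_mul, inv_mul_cancel,
      Matrix.SpecialLinearGroup.coe_one, Matrix.one_mulVec] at h1
    have := congrFun h1 (Fin.last n)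
    rw [Pi.single_eq_same] at this
    exact one_ne_zero this)
  obtain ⟨G, w, hG⟩ := factor (em (e₂ n) F k' * em (e₁ n) F k * g) (by
    rw [Matrix.SpecialLinearGroup.coe_mul, Matrix.SpecialLinearGroup.coe_mul,
      ← Matrix.mulVec_mulVec, ← Matrix.mulVec_mulVec]
    exact hk)
  obtain ⟨y, z, hyz⟩ : ∃ y z : Matrix.SpecialLinearGroup (Fin n) F,
      lw w = em (e₁ n) F y * em (e₂ n) F z * em (e₁ n) F y⁻¹ := by
    by_cases hw : w = 0
    · refine ⟨1, 1, ?_⟩
      rw [map_one, map_one, inv_one, map_one, one_mul, one_mul]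
      apply Subtype.ext
      show Matrix.reindex (e₁ n) (e₁ n) _ = 1
      rw [hw]
      have : Matrix.replicateRow (Fin 1) (0 : Fin n → F) = 0 := by
        ext; rfl
      rw [this, Matrix.fromBlocks_one]
      simp
    · obtain ⟨A, hA⟩ := trans2 hn w hw ⟨1, by omega⟩
      obtain ⟨z, hz⟩ := lw_mem (n := n) (F := F) hn
      refine ⟨A.transpose, z, ?_⟩
      rw [← hz]
      apply lw_conj
      rw [Matrix.SpecialLinearGroup.coe_transpose, Matrix.vecMul_transpose]
      exact hA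
  refine ⟨k⁻¹, k'⁻¹, y, z, y⁻¹ * G, ?_⟩
  have h2 : g = (em (e₁ n) F k)⁻¹ * ((em (e₂ n) F k')⁻¹ *
      (em (e₂ n) F k' * em (e₁ n) F k * g)) := by group
  rw [h2, hG, hyz]
  simp only [map_inv, map_mul, mul_assoc]

/-- The block in `PSL_{n+1}`. -/
noncomputable def eP (n : ℕ) (F : Type) [Field F] : SL(n, F) →* PN (n + 1) F :=
  (QuotientGroup.mk' (Subgroup.center SL(n + 1, F))).comp (em (e₁ n) F)

theorem eP_apply (x : SL(n, F)) : eP n F x = mk (em (e₁ n) F x) := rfl

/-- Two conjugates of the block generate.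

Proof. The conjugating elements are `1` and `mk w`, `w` from `em_conj`; `em_prod`. -/
theorem eP_gen (hn : 2 ≤ n) : GenC 2 (PN (n + 1) F) (eP n F).range := by
  obtain ⟨w, hw⟩ := em_conj (n := n) (F := F)
  refine ⟨![1, mk w], fun R hR => ?_⟩
  have h1 : ∀ a : SL(n, F), mk (em (e₁ n) F a) ∈ R := by
    intro a
    have h3 := hR 0 (eP n F a) ⟨a, rfl⟩
    rw [Matrix.cons_val_zero, one_mul, inv_one, mul_one] at h3
    exact h3
  have h2 : ∀ a : SL(n, F), mk (em (e₂ n) F a) ∈ R := by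
    intro a
    have h3 := hR 1 (eP n F a) ⟨a, rfl⟩
    rw [← hw a]
    exact h3
  rw [eq_top_iff]
  intro t _
  obtain ⟨g, rfl⟩ := mk_surj t
  obtain ⟨a, b, c, d, e, hg⟩ := em_prod hn g
  rw [hg, mk_mul, mk_mul, mk_mul, mk_mul]
  exact R.mul_mem (R.mul_mem (R.mul_mem (R.mul_mem (h1 a) (h2 b)) (h1 c)) (h2 d)) (h1 e)

/-- Images of perfect groups are perfect. Proof. `Subgroup.map_commutator`, as in
`sg3_transport` (file SGT3). -/
theorem mn_perf {A T : Type} [Group A] [Group T] (hA : commutator A = ⊤) (φ : A →* T) :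
    commutator φ.range = ⊤ := by
  have h1 := Subgroup.map_commutator (⊤ : Subgroup A) ⊤ φ.rangeRestrict
  have h2 := MonoidHom.range_eq_top.2 φ.rangeRestrict_surjective
  rw [commutator_def] at hA ⊢
  rw [hA, ← MonoidHom.range_eq_map, h2] at h1
  exact h1.symm

end Pool.Agent.MPfe8e9bN
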