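import Mathlib
import Pool.Agent.Lib.MP_fe8e9b_al_N.AnD
import Pool.Agent.Lib.MP_fe8e9b_al_N.AnB

/-!
# MP_fe8e9b_al, groups of bounded height: inner automorphisms and the automorphisms of a block
-/

set_option autoImplicit false

open scoped BigOperators MatrixGroups

namespace Pool.Agent.MPfe8e9bN

open Matrix

variable {m n : ℕ} {F : Type} [Field F]

/-- Homomorphisms from a perfect group with equal classes modulo the centre. -/
private theorem mnb_hom {G H : Type*} [Group G] [Group H] (hp : commutator G = ⊤)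
    (f₁ f₂ : G →* H) (h : ∀ x, (f₁ x)⁻¹ * f₂ x ∈ Subgroup.center H) (x : G) : f₁ x = f₂ x := by
  have key : ∀ x y, (f₁ (x * y))⁻¹ * f₂ (x * y) = (f₁ x)⁻¹ * f₂ x * ((f₁ y)⁻¹ * f₂ y) := by
    intro x y
    have hc := Subgroup.mem_center_iff.1 (h x) (f₁ y)⁻¹
    rw [map_mul f₁, map_mul f₂]
    calc (f₁ x * f₁ y)⁻¹ * (f₂ x * f₂ y) = (f₁ y)⁻¹ * ((f₁ x)⁻¹ * f₂ x) * f₂ y := by group
      _ = (f₁ x)⁻¹ * f₂ x * (f₁ y)⁻¹ * f₂ y := by rw [hc]
      _ = _ := by group
  have h1 : ∀ y, (f₁ (1 : G))⁻¹ * f₂ (1 : G) = (f₁ y)⁻¹ * f₂ y * ((f₁ y⁻¹)⁻¹ * f₂ y⁻¹) := by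
    intro y
    rw [← key, mul_inv_cancel]
  simp only [map_one, inv_one, mul_one] at h1
  have h2 : commutator G ≤ f₁.eqLocus f₂ := by
    rw [commutator_def, Subgroup.commutator_le]
    intro a _ b _
    change f₁ _ = f₂ _
    rw [← inv_mul_eq_one, commutatorElement_def, key, key, key]
    have hc := Subgroup.mem_center_iff.1 (h a⁻¹) ((f₁ b)⁻¹ * f₂ b)
    calc (f₁ a)⁻¹ * f₂ a * ((f₁ b)⁻¹ * f₂ b) * ((f₁ a⁻¹)⁻¹ * f₂ a⁻¹) *
        ((f₁ b⁻¹)⁻¹ * f₂ b⁻¹) = (f₁ a)⁻¹ * f₂ a * (((f₁ b)⁻¹ * f₂ b) *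
        ((f₁ a⁻¹)⁻¹ * f₂ a⁻¹)) * ((f₁ b⁻¹)⁻¹ * f₂ b⁻¹) := by simp only [mul_assoc]
      _ = ((f₁ a)⁻¹ * f₂ a * ((f₁ a⁻¹)⁻¹ * f₂ a⁻¹)) * (((f₁ b)⁻¹ * f₂ b) *
        ((f₁ b⁻¹)⁻¹ * f₂ b⁻¹)) := by rw [hc]; simp only [mul_assoc]
      _ = 1 := by rw [← h1, ← h1, mul_one]
  exact h2 (by rw [hp]; exact Subgroup.mem_top x)

private theorem mnb_map (σ : F ≃+* F) (A : Matrix (Fin n) (Fin n) F) :
    (A.map σ).trace = σ A.trace := by
  simp only [Matrix.trace, Matrix.diag_apply, Matrix.map_apply, map_sum]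

/-- Traces.

Proof. By `mk_eq` there are `c x ≠ 0` with `(e (α x)).1 = c x • (g * e x * g⁻¹).1`. The matrices are
invertible and `n ≥ 1`, so `c` is unique and `c (x * y) = c x * c y`: `c` is a homomorphism from
`SL(m, F)` to `Fˣ`, so it is trivial (`hp`; `Abelianization`, or: its kernel contains the commutator
subgroup). So `e (α x) = g * e x * g⁻¹`, and the traces are equal (`Matrix.trace_mul_cycle`). -/
theorem mn_tr (hp : commutator SL(m, F) = ⊤) (hn : 1 ≤ n) (e : SL(m, F) →* SL(n, F)) (g : SL(n, F))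
    (α : MulAut SL(m, F)) (h : ∀ x, mk g * mk (e x) * (mk g)⁻¹ = mk (e (α x))) (x : SL(m, F)) :
    (e (α x)).1.trace = (e x).1.trace := by
  have h3 : g * e x * g⁻¹ = e (α x) :=
    mnb_hom hp ((MulAut.conj g).toMonoidHom.comp e) (e.comp α.toMonoidHom)
      (fun x => QuotientGroup.eq.1 (h x)) x
  have h4 : g⁻¹.1 * g.1 = 1 := congrArg Subtype.val (inv_mul_cancel g)
  rw [← h3]
  show (g.1 * (e x).1 * g⁻¹.1).trace = (e x).1.trace
  rw [Matrix.trace_mul_cycle, h4, Matrix.one_mul]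

/-- Matrices with a given trace.

Proof. In the first two coordinates `!![t, -1; 1, 0]`, the identity in the others: the product
`ev 0 1 (t - 1) * ev 1 0 1 * ev 0 1 (-1)` has the block `!![t, -t + t - 1; 1, 0]`; its trace is
`t + (m - 2)`. -/
theorem mn_val (hm : 2 ≤ m) (t : F) : ∃ x : SL(m, F), x.1.trace = t + ((m : F) - 2) := by
  let i : Fin m := ⟨0, by omega⟩
  let j : Fin m := ⟨1, by omega⟩
  have hij : i ≠ j := by
    intro h
    have := congrArg Fin.val h
    simp [i, j] at this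
  refine ⟨ev i j (t - 2) * ev j i 1, ?_⟩
  show ((ev i j (t - 2)).1 * (ev j i (1 : F)).1).trace = _
  rw [ev_val hij, ev_val hij.symm]
  simp only [Matrix.mul_add, Matrix.add_mul, Matrix.one_mul, Matrix.mul_one, Matrix.trace_add,
    Matrix.trace_one, Fintype.card_fin, Matrix.single_mul_single_same,
    Matrix.trace_single_eq_same, Matrix.trace_single_eq_of_ne _ _ _ hij,
    Matrix.trace_single_eq_of_ne _ _ _ hij.symm]
  ring

/-- A matrix whose trace is different from the trace of its inverse.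

Proof. The block `!![0, 0, 1; 1, 0, 0; 0, 1, 1]` in the first three coordinates, with the inverse
`!![0, 1, 0; -1, 0, 1; 1, 0, 0]` (check), and the identity in the others; the traces are
`1 + (m - 3)` and `m - 3`. It is a product of elementary matrices, or use
`Matrix.reindex`, `Matrix.fromBlocks` for `Fin 3 ⊕ Fin (m - 3) ≃ Fin m`. -/
theorem mn_comp (hm : 3 ≤ m) : ∃ x : SL(m, F), x.1.trace = (m : F) - 2 ∧
    (x⁻¹).1.trace = (m : F) - 3 := by
  let i : Fin m := ⟨0, by omega⟩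
  let j : Fin m := ⟨1, by omega⟩
  let k : Fin m := ⟨2, by omega⟩
  have hij : i ≠ j := by
    intro h
    have := congrArg Fin.val h
    simp [i, j] at this
  have hjk : j ≠ k := by
    intro h
    have := congrArg Fin.val h
    simp [j, k] at this
  have hik : i ≠ k := by
    intro h
    have := congrArg Fin.val h
    simp [i, k] at this
  have hne : ∀ (a b c d : Fin m) (x y : F), b ≠ c →
      Matrix.single a b x * Matrix.single c d y = 0 := fun a b c d x y h =>
    Matrix.single_mul_single_of_ne x a b c h y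
  refine ⟨ev i j 1 * ev j k 1 * ev k i 1 * ev j i (-3), ?_, ?_⟩
  · show ((ev i j (1 : F)).1 * (ev j k (1 : F)).1 * (ev k i (1 : F)).1 *
      (ev j i (-3 : F)).1).trace = _
    rw [ev_val hij, ev_val hij.symm, ev_val hjk, ev_val hik.symm]
    simp only [Matrix.mul_add, Matrix.add_mul, Matrix.one_mul, Matrix.mul_one, Matrix.trace_add,
      Matrix.trace_one, Fintype.card_fin, Matrix.single_mul_single_same,
      hne _ _ _ _ _ _ hij,
      hne _ _ _ _ _ _ hjk, hne _ _ _ _ _ _ hjk.symm,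

      Matrix.trace_single_eq_same, Matrix.trace_single_eq_of_ne _ _ _ hij,
      Matrix.trace_single_eq_of_ne _ _ _ hij.symm, Matrix.trace_single_eq_of_ne _ _ _ hjk,
       Matrix.trace_single_eq_of_ne _ _ _ hik,
      Matrix.trace_single_eq_of_ne _ _ _ hik.symm, Matrix.trace_zero, Matrix.mul_zero,
      Matrix.zero_mul]
    ring
  · rw [_root_.mul_inv_rev, _root_.mul_inv_rev, _root_.mul_inv_rev, ev_inv, ev_inv, ev_inv,
      ev_inv, neg_neg]
    show ((ev j i (3 : F)).1 * ((ev k i (-1 : F)).1 * ((ev j k (-1 : F)).1 *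
      (ev i j (-1 : F)).1))).trace = _
    rw [ev_val hij, ev_val hij.symm, ev_val hjk, ev_val hik.symm]
    simp only [Matrix.mul_add, Matrix.add_mul, Matrix.one_mul, Matrix.mul_one, Matrix.trace_add,
      Matrix.trace_one, Fintype.card_fin, Matrix.single_mul_single_same,
      hne _ _ _ _ _ _ hij,

      hne _ _ _ _ _ _ hik, hne _ _ _ _ _ _ hik.symm,
      Matrix.trace_single_eq_same, Matrix.trace_single_eq_of_ne _ _ _ hij,
      Matrix.trace_single_eq_of_ne _ _ _ hij.symm, Matrix.trace_single_eq_of_ne _ _ _ hjk,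
      Matrix.trace_single_eq_of_ne _ _ _ hjk.symm, Matrix.trace_single_eq_of_ne _ _ _ hik,
      Matrix.trace_single_eq_of_ne _ _ _ hik.symm, Matrix.trace_zero, Matrix.mul_zero,
      Matrix.zero_mul]
    ring

private theorem mnb_inn2 (hm : 2 ≤ m) (hp : commutator SL(m, F) = ⊤) (hn : 1 ≤ n)
    (e : SL(m, F) →* SL(n, F)) (c₀ : F) (he : ∀ x, (e x).1.trace = x.1.trace + c₀) (g : SL(n, F))
    (σ : F ≃+* F) (h : ∀ x, mk g * mk (e x) * (mk g)⁻¹ = mk (e (fM σ x)))
    (x : SL(m, F)) : fM σ x = x := by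
  have h1 : ∀ y : SL(m, F), σ (y.1.trace) = y.1.trace := by
    intro y
    have h2 := mn_tr hp hn e g (fM σ) h y
    rw [he, he, add_left_inj] at h2
    exact (mnb_map σ _).symm.trans h2
  have h3 : ∀ t : F, σ t = t := by
    intro t
    obtain ⟨y, hy⟩ := mn_val hm t
    have h4 := h1 y
    rw [hy, map_add, map_sub, map_natCast, map_ofNat, add_left_inj] at h4
    exact h4
  apply Subtype.ext
  ext i j
  rw [fM_coe]
  exact h3 _

/-- Inner automorphisms which preserve a block and act on it by a field automorphism or its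
composition with the inverse transpose act trivially.

Proof. `mn_tr` and `he`: `(aN p x).1.trace = x.1.trace` for all `x`. If `p = (false, σ)` then
`σ (x.1.trace) = x.1.trace` (`map_trace`, `fM_val`), and with `mn_val` `σ` is the identity (`σ`
fixes `(m : F) - 2`). If `p = (true, σ)` then `(iT (fM σ x)).1.trace = σ ((x⁻¹).1.trace)`, which for
the matrix of `mn_comp` gives `(m : F) - 3 = (m : F) - 2`, a contradiction. -/
theorem mn_inn (hm : 3 ≤ m) (hp : commutator SL(m, F) = ⊤) (hn : 1 ≤ n)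
    (e : SL(m, F) →* SL(n, F)) (c₀ : F) (he : ∀ x, (e x).1.trace = x.1.trace + c₀) (g : SL(n, F))
    (p : Bool × (F ≃+* F)) (h : ∀ x, mk g * mk (e x) * (mk g)⁻¹ = mk (e (aN p x)))
    (x : SL(m, F)) : aN p x = x := by
  obtain ⟨b, σ⟩ := p
  cases b with
  | false => exact mnb_inn2 (by omega) hp hn e c₀ he g σ h x
  | true =>
    exfalso
    obtain ⟨y, hy1, hy2⟩ := mn_comp (F := F) hm
    have h1 := mn_tr hp hn e g (aN (true, σ)) h y
    rw [he, he] at h1
    have h2 : (aN (true, σ) y).1.trace = σ ((y⁻¹).1.trace) := by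
      rw [aN_true, iT_val, Matrix.trace_transpose, ← map_inv, fM_val]
      exact mnb_map σ _
    rw [h2, hy1, hy2, map_sub, map_natCast, map_ofNat] at h1
    have h3 : (1 : F) = 0 := by linear_combination -h1
    exact one_ne_zero h3

/-- The same for field automorphisms and `m ≥ 2`. -/
theorem mn_inn2 (hm : 2 ≤ m) (hp : commutator SL(m, F) = ⊤) (hn : 1 ≤ n)
    (e : SL(m, F) →* SL(n, F)) (c₀ : F) (he : ∀ x, (e x).1.trace = x.1.trace + c₀) (g : SL(n, F))
    (σ : F ≃+* F) (h : ∀ x, mk g * mk (e x) * (mk g)⁻¹ = mk (e (fM σ x)))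
    (x : SL(m, F)) : fM σ x = x := by
  exact mnb_inn2 hm hp hn e c₀ he g σ h x

end Pool.Agent.MPfe8e9bN
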