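import Mathlib
import Pool.Agent.Lib.MP_fe8e9b_al_N.Defs3
import Pool.Agent.Lib.MP_fe8e9b_al_N.AnD
import Pool.Agent.Lib.MP_fe8e9b_al_N.AnB
import Pool.Agent.Lib.MP_fe8e9b_al_N.AnH
import Pool.Agent.Lib.MP_fe8e9b_al_N.TgA
import Pool.Agent.Lib.MP_fe8e9b_al_N.TgJ
import Pool.Agent.Lib.MP_fe8e9b_al_N.SGT2
import Pool.Agent.Lib.MP_fe8e9b_al_N.SGT3

/-!
# MP_fe8e9b_al, groups of bounded height: structures with the automorphisms of `SL_r`
-/

set_option autoImplicit false

open scoped BigOperators MatrixGroups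

namespace Pool.Agent.MPfe8e9bN

open Pool.Agent.MPfe8e9b Pool.Agent.MPfe8e9bM Matrix

private theorem mnd_ex {r : ℕ} (hr : 3 ≤ r) (a b : Fin r) : ∃ c, c ≠ a ∧ c ≠ b := by
  by_contra h
  push Not at h
  have h1 : (Finset.univ : Finset (Fin r)) ⊆ {a, b} := by
    intro c _
    rw [Finset.mem_insert, Finset.mem_singleton]
    by_cases hc : c = a
    · exact Or.inl hc
    · exact Or.inr (h c hc)
  have h2 := (Finset.card_le_card h1).trans Finset.card_le_two
  rw [Finset.card_univ, Fintype.card_fin] at h2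
  omega

private theorem mnd_all {r : ℕ} (hr : 3 ≤ r) (P : Fin r → Fin r → Prop)
    (hA : ∀ i j k, i ≠ j → j ≠ k → i ≠ k → P i j → P i k)
    (hB : ∀ i j k, k ≠ i → i ≠ j → k ≠ j → P i j → P k j) (i k : Fin r) (hik : i ≠ k)
    (h : P i k) (a b : Fin r) (hab : a ≠ b) : P a b := by
  have h1 : ∀ l, i ≠ l → P i l := by
    intro l hl
    by_cases hkl : k = l
    · rw [← hkl]
      exact h
    · exact hA i k l hik hkl hl h
  have h2 : ∀ a b, a ≠ b → i ≠ b → P a b := by
    intro a b hab hib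
    by_cases hai : a = i
    · rw [hai]
      exact h1 b hib
    · exact hB i b a hai hib hab (h1 b hib)
  by_cases hib : i = b
  · obtain ⟨c, hca, hcb⟩ := mnd_ex hr a b
    have hic : i ≠ c := by
      rw [hib]
      exact hcb.symm
    exact hA a c b hca.symm hcb hab (h2 a c hca.symm hic)
  · exact h2 a b hab hib

/-- A nontrivial homomorphism from `SL_r`, `r ≥ 3`, is injective on the elementary subgroups; so
the field has at most as many elements as the target.

Proof. As `sgt3_inj` (file SGT3). If `φ (ev i j b) = 1` with `b ≠ 0` then, by `ev_comm`,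
`φ (ev i k y) = 1` for all `y` and `k ≠ i, j` (commutator of `ev i j b` and `ev j k (b⁻¹ * y)`),
and again by commutators `φ (ev k l y) = 1` for all `k ≠ l` and `y`, so `φ` is trivial (`ev_gen`).
So `x ↦ φ (ev i j x)` is injective (`ev_add`, `ev_inv`). -/
theorem mnd_inj {r : ℕ} (hr : 3 ≤ r) {E T : Type} [Field E] [Finite E] [Group T] [Finite T]
    (φ : SL(r, E) →* T) (h : ∃ A, φ A ≠ 1) : Nat.card E ≤ Nat.card T := by
  have h0 : (⟨0, by omega⟩ : Fin r) ≠ ⟨1, by omega⟩ := by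
    intro h1
    exact absurd (congrArg Fin.val h1) (by norm_num)
  obtain ⟨i, j, hij⟩ : ∃ i j : Fin r, i ≠ j := ⟨_, _, h0⟩
  refine Nat.card_le_card_of_injective (fun x : E => φ (ev i j x)) ?_
  intro x y hxy
  by_contra hne
  have hb : x - y ≠ 0 := sub_ne_zero.2 hne
  obtain ⟨b, hbd⟩ : ∃ b, b = x - y := ⟨_, rfl⟩
  rw [← hbd] at hb
  have h1 : φ (ev i j b) = 1 := by
    rw [hbd, sub_eq_add_neg, ev_add, ← ev_inv, map_mul, map_inv]
    have h2 : φ (ev i j x) = φ (ev i j y) := hxy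
    rw [h2, mul_inv_cancel]
  obtain ⟨k, hki, hkj⟩ := mnd_ex hr i j
  have h2 : ∀ y, φ (ev i k y) = 1 := by
    intro y
    have h3 := ev_comm hij hkj.symm hki.symm b (b⁻¹ * y)
    rw [mul_inv_cancel_left₀ hb] at h3
    rw [← h3, map_mul, map_mul, map_mul, map_inv, map_inv, h1, one_mul, inv_one, mul_one,
      mul_inv_cancel]
  have h4 := mnd_all hr (fun i j => ∀ y, φ (ev i j y) = 1)
    (fun a b c hab hbc hac hP y => by
      have h3 := ev_comm hab hbc hac (1 : E) y
      rw [one_mul] at h3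
      rw [← h3, map_mul, map_mul, map_mul, map_inv, map_inv, hP, one_mul, inv_one, mul_one,
        mul_inv_cancel])
    (fun a b c hca hab hcb hP y => by
      have h3 := ev_comm hca hab hcb (1 : E) y
      rw [one_mul] at h3
      rw [← h3, map_mul, map_mul, map_mul, map_inv, map_inv, hP, mul_one, inv_one, mul_one,
        mul_inv_cancel]) i k hki.symm h2
  have h5 := ev_gen (by omega : 2 ≤ r) φ.ker (fun a b hab x => by
    rw [MonoidHom.mem_ker]
    exact h4 a b hab x)
  obtain ⟨A, hA⟩ := h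
  apply hA
  have h6 : A ∈ φ.ker := by
    rw [h5]
    exact Subgroup.mem_top A
  exact h6

private theorem mnd_fin (E : Type) [Field E] [Finite E] : Finite (E ≃+* E) :=
  Finite.of_injective (fun σ : E ≃+* E => (σ : E → E)) DFunLike.coe_injective

/-- The restriction of an automorphism to a stable subgroup. -/
private theorem mnd_res {T : Type} [Group T] {S0 : Subgroup T} (l : MulAut T)
    (h1 : ∀ s ∈ S0, l s ∈ S0) (h2 : ∀ s ∈ S0, ∃ t ∈ S0, l t = s) :
    ∃ τ : MulAut S0, ∀ s : S0, ((τ s : S0) : T) = l s := by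
  refine ⟨MulEquiv.ofBijective ((l.toMonoidHom.comp S0.subtype).codRestrict S0
    fun s => h1 s s.2) ⟨?_, ?_⟩, fun s => rfl⟩
  · intro s t hst
    exact Subtype.ext (l.injective (congrArg Subtype.val hst))
  · intro s
    obtain ⟨t, ht, hts⟩ := h2 s s.2
    exact ⟨⟨t, ht⟩, Subtype.ext hts⟩

/-- Structures with field automorphisms and inverse transposes.

Proof. As `sg3_fld` (file SGT3), with `aN p` in place of `fS σ`: `B` from `tgl_slN`. `crd`: an
element of `L` is determined by `p` and by the images of the conjugating elements of `h`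
(`gen_ext`), so `card L ≤ card Bool * card (E ≃+* E) * card T ^ c`, `sgt3_aut`, `mnd_inj` (if `φ`
is trivial then `S0 = ⊥`, and `T` is trivial by `h`, everything is clear); if `φ` is not trivial
then `2 ≤ card T`. `typ`: `Λ = {p : Bool × (E ≃+* E) // ∃ l ∈ L, ∀ x, l (φ x) = φ (aN p x)}`. -/
theorem sg3_aN : ∃ B : ℝ, 1 ≤ B ∧ ∀ (T : Type) [Group T] [Finite T] (S0 : Subgroup T) (c : ℕ),
    commutator S0 = ⊤ → GenC c T S0 → ∀ (L : Subgroup (MulAut T)),
    (∀ t : T, (∃ l ∈ L, ∀ s, t * s * t⁻¹ = l s) → ∀ s ∈ S0, t * s = s * t) →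
    ∀ (E : Type) [Field E] [Finite E] (r : ℕ), 3 ≤ r → ∀ φ : SL(r, E) →* T, φ.range = S0 →
    (∀ l ∈ L, ∃ p : Bool × (E ≃+* E), ∀ x, l (φ x) = φ (aN p x)) → SG3 (c + 2) B T S0 L := by
  obtain ⟨B, hB, hgap⟩ := tgl_slN
  refine ⟨B, hB, ?_⟩
  intro T _ _ S0 c hp h L hin E _ _ r hr φ hφ hL
  have hfin := mnd_fin E
  have hm : ∀ x, φ x ∈ S0 := fun x => by
    rw [← hφ]
    exact ⟨x, rfl⟩
  have hs : ∀ s ∈ S0, ∃ x, φ x = s := fun s hs => by
    rw [← hφ] at hs
    exact hs
  have hst : ∀ l ∈ L, ∀ s ∈ S0, l s ∈ S0 := by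
    intro l hl s hs'
    obtain ⟨x, rfl⟩ := hs s hs'
    obtain ⟨σ, hσ⟩ := hL l hl
    rw [hσ]
    exact hm _
  refine ⟨hp, hin, hst, gen_mono (Nat.le_add_right c 2) h, ?_, ?_⟩
  · obtain ⟨h', hh⟩ := h
    by_cases htr : ∃ A, φ A ≠ 1
    · choose! σ hσ using hL
      have h1 : Nat.card L ≤ Nat.card ((Bool × (E ≃+* E)) × (Fin c → T)) := by
        refine Nat.card_le_card_of_injective
          (fun l : L => (σ l, fun j => (l : MulAut T) (h' j))) ?_
        intro l l' hll
        have e1 : σ l = σ l' := congrArg Prod.fst hll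
        have e2 : (fun j => (l : MulAut T) (h' j)) = fun j => (l' : MulAut T) (h' j) :=
          congrArg Prod.snd hll
        refine Subtype.ext (gen_ext hh _ _ (fun j => congrFun e2 j) fun s hs' => ?_)
        obtain ⟨x, rfl⟩ := hs s hs'
        rw [hσ l l.2, hσ l' l'.2, e1]
      refine h1.trans ?_
      have h2 : Nat.card (Fin c → T) = Nat.card T ^ c := by
        rw [Nat.card_pi, Finset.prod_const, Finset.card_univ, Fintype.card_fin]
      have h3 : Nat.card Bool ≤ Nat.card T := by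
        obtain ⟨A, hA⟩ := htr
        have hnt : Nontrivial T := ⟨⟨φ A, 1, hA⟩⟩
        have h4 : 1 < Nat.card T := Finite.one_lt_card
        rw [Nat.card_eq_fintype_card, Fintype.card_bool]
        exact h4
      rw [Nat.card_prod, Nat.card_prod, h2, pow_add, mul_comm (Nat.card T ^ c), pow_two]
      exact Nat.mul_le_mul_right _ (Nat.mul_le_mul h3 (sgt3_aut.trans (mnd_inj hr φ htr)))
    · push Not at htr
      have h1 : (⊥ : Subgroup T) = ⊤ := by
        refine hh ⊥ fun j s hs' => ?_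
        obtain ⟨x, rfl⟩ := hs s hs'
        rw [htr, mul_one, mul_inv_cancel]
        exact Subgroup.one_mem _
      have h2 : Subsingleton T := by
        refine ⟨fun a b => ?_⟩
        have h3 : ∀ a : T, a = 1 := fun a => by
          have h4 : a ∈ (⊥ : Subgroup T) := by
            rw [h1]
            exact Subgroup.mem_top a
          exact Subgroup.mem_bot.1 h4
        rw [h3 a, h3 b]
      have h3 : Subsingleton L := by
        refine ⟨fun a b => Subtype.ext (MulEquiv.ext fun t => Subsingleton.elim _ _)⟩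
      have h4 : Nat.card L = 1 := Nat.card_eq_one_iff_unique.2 ⟨h3, ⟨1⟩⟩
      rw [h4]
      exact Nat.one_le_pow _ _ Nat.card_pos
  · have hres : ∀ σ : {σ : Bool × (E ≃+* E) // ∃ l ∈ L, ∀ x, l (φ x) = φ (aN σ x)},
        ∃ τ : MulAut S0, ∀ x, τ ⟨φ x, hm x⟩ = ⟨φ (aN σ.1 x), hm _⟩ := by
      rintro ⟨σ, l, hl, hσ⟩
      obtain ⟨τ, hτ⟩ := mnd_res (S0 := S0) l (hst l hl) (by
        intro s hs'
        obtain ⟨x, rfl⟩ := hs s hs'
        refine ⟨φ ((aN σ).symm x), hm _, ?_⟩
        rw [hσ, MulEquiv.apply_symm_apply])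
      refine ⟨τ, fun x => Subtype.ext ?_⟩
      rw [hτ]
      exact hσ x
    choose α hα using hres
    refine ⟨{σ : Bool × (E ≃+* E) // ∃ l ∈ L, ∀ x, l (φ x) = φ (aN σ x)}, Fintype.ofFinite _, α,
      ?_, ?_⟩
    · have h1 := tgl_comp (hgap E r hr) (fun σ : {σ : Bool × (E ≃+* E) // ∃ l ∈ L, ∀ x,
        l (φ x) = φ (aN σ x)} => σ.1) Subtype.val_injective
      refine tgl_map h1 (φ.codRestrict S0 hm) (fun s => ?_) (fun i t => ?_)
      · obtain ⟨x, hx⟩ := hs s s.2
        exact ⟨x, Subtype.ext hx⟩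
      · exact (hα i t).symm
    · intro l hl
      obtain ⟨σ, hσ⟩ := hL l hl
      refine ⟨⟨σ, l, hl, hσ⟩, fun s => ?_⟩
      obtain ⟨x, hx⟩ := hs s s.2
      have h1 : s = ⟨φ x, hm x⟩ := Subtype.ext hx.symm
      rw [h1, hα]
      exact hσ x

end Pool.Agent.MPfe8e9bN
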