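import Mathlib
import Pool.Agent.Lib.MP_fe8e9b_al.Perf
import Pool.Agent.Lib.MP_fe8e9b_al.SlSucc
import Pool.Agent.Lib.MP_fe8e9b_al_N.AnD
import Pool.Agent.Lib.MP_fe8e9b_al_N.AnJ
import Pool.Agent.Lib.MP_fe8e9b_al_N.MnA
import Pool.Agent.Lib.MP_fe8e9b_al_N.MnB
import Pool.Agent.Lib.MP_fe8e9b_al_N.MnD
import Pool.Agent.Lib.MP_fe8e9b_al_N.SGT3
import Pool.Agent.Lib.MP_fe8e9b_al_N.PslM3

/-!
# MP_fe8e9b_al, groups of bounded height: the models `PSL_n`
-/

set_option autoImplicit false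

open scoped BigOperators MatrixGroups

namespace Pool.Agent.MPfe8e9bN

open Pool.Agent.MPfe8e9b Pool.Agent.MPfe8e9b.SlSucc Pool.Agent.MPfe8e9bM Matrix

section aux

variable {m : ℕ} {F : Type} [Field F]

private theorem mne_fM (σ τ : F ≃+* F) (x : SL(m, F)) : fM σ (fM τ x) = fM (τ.trans σ) x := rfl

private theorem mne_fM1 (x : SL(m, F)) : fM (RingEquiv.refl F) x = x :=
  Subtype.ext (Matrix.ext fun _ _ => rfl)

private theorem mne_iT (x : SL(m, F)) : iT (iT x) = x := defn_inv x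

private theorem mne_iTfM (σ : F ≃+* F) (x : SL(m, F)) : iT (fM σ x) = fM σ (iT x) := by
  apply Subtype.ext
  ext i j
  rw [iT_val, ← map_inv, fM_coe]
  rfl

private theorem mne_aN (p p' : Bool × (F ≃+* F)) (x : SL(m, F)) :
    aN p (aN p' x) = aN (xor p.1 p'.1, p'.2.trans p.2) x := by
  obtain ⟨b, σ⟩ := p
  obtain ⟨b', σ'⟩ := p'
  cases b <;> cases b' <;>
    simp only [aN_true, aN_false, Bool.xor_false, Bool.xor_true, Bool.not_false, Bool.not_true,
      mne_fM, mne_iTfM, mne_iT]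

private theorem mne_symm (σ : F ≃+* F) : σ.symm.trans σ = RingEquiv.refl F :=
  RingEquiv.ext fun x => σ.apply_symm_apply x

private theorem mne_aNi (p : Bool × (F ≃+* F)) (x : SL(m, F)) :
    aN p (aN (p.1, p.2.symm) x) = x := by
  rw [mne_aN, Bool.xor_self, aN_false, mne_symm, mne_fM1]

end aux

/-- The automorphisms of `T` which act on the image of `SL_m` by field automorphisms or their
compositions with the inverse transpose.

Proof. `aN p * aN p'` is `aN p''`, as `iT` commutes with `fM σ` (entries) and `iT * iT = 1`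
(`defn_inv`); inverses are similar. -/
def lN {m : ℕ} {F T : Type} [Field F] [Group T] (φ : SL(m, F) →* T) : Subgroup (MulAut T) where
  carrier := {l | ∃ p : Bool × (F ≃+* F), ∀ x, l (φ x) = φ (aN p x)}
  mul_mem' := by
    rintro a b ⟨p, hp⟩ ⟨p', hp'⟩
    exact ⟨(xor p.1 p'.1, p'.2.trans p.2), fun x => by
      rw [MulAut.mul_apply, hp', hp, mne_aN]⟩
  one_mem' := by
    exact ⟨(false, RingEquiv.refl F), fun x => by rw [aN_false, mne_fM1, MulAut.one_apply]⟩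
  inv_mem' := by
    rintro a ⟨p, hp⟩
    exact ⟨(p.1, p.2.symm), fun x => by
      rw [MulAut.inv_apply, MulEquiv.symm_apply_eq, hp, mne_aNi]⟩

theorem lN_mem {m : ℕ} {F T : Type} [Field F] [Group T] (φ : SL(m, F) →* T) (l : MulAut T) :
    l ∈ lN φ ↔ ∃ p : Bool × (F ≃+* F), ∀ x, l (φ x) = φ (aN p x) := Iff.rfl

/-- The automorphisms of `T` which act on the image of `SL_m` by field automorphisms. -/
def lG {m : ℕ} {F T : Type} [Field F] [Group T] (φ : SL(m, F) →* T) : Subgroup (MulAut T) where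
  carrier := {l | ∃ σ : F ≃+* F, ∀ x, l (φ x) = φ (fM σ x)}
  mul_mem' := by
    rintro a b ⟨σ, hσ⟩ ⟨σ', hσ'⟩
    exact ⟨σ'.trans σ, fun x => by rw [MulAut.mul_apply, hσ', hσ, mne_fM]⟩
  one_mem' := by
    exact ⟨RingEquiv.refl F, fun x => by rw [mne_fM1, MulAut.one_apply]⟩
  inv_mem' := by
    rintro a ⟨σ, hσ⟩
    exact ⟨σ.symm, fun x => by
      rw [MulAut.inv_apply, MulEquiv.symm_apply_eq, hσ, mne_fM, mne_symm, mne_fM1]⟩

theorem lG_mem {m : ℕ} {F T : Type} [Field F] [Group T] (φ : SL(m, F) →* T) (l : MulAut T) :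
    l ∈ lG φ ↔ ∃ σ : F ≃+* F, ∀ x, l (φ x) = φ (fM σ x) := Iff.rfl

/-- A matrix of determinant one. -/
private theorem mne_sl {n : ℕ} {F : Type} [Field F] (M : GL (Fin n) F) (h : M.1.det = 1) :
    ∃ g : SL(n, F), (g : GL (Fin n) F) = M :=
  ⟨⟨M.1, h⟩, Units.ext rfl⟩

/-- Automorphisms of `PSL_{m+1}` and the block.

Proof. `aut_psln` gives `M`, `p`. Let `D` be from `em_diag (e₁ m)` with the determinant of `M`; then
`g = M * D⁻¹` has determinant one, and `f (mk (em x)) = mk (cM M (aN p (em x)))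
= mk (g * cM D (em (aN p x)) * g⁻¹)` (`em_aN`) `= mk (g * em (aN p x) * g⁻¹)`. -/
theorem mn_aut {m : ℕ} {F : Type} [Field F] [Finite F] (hm : 2 ≤ m) (f : MulAut (PN (m + 1) F)) :
    ∃ (t : PN (m + 1) F) (p : Bool × (F ≃+* F)), ∀ x, f (eP m F x) = t * eP m F (aN p x) * t⁻¹ := by
  obtain ⟨M, p, hM⟩ := aut_psln (by omega : 3 ≤ m + 1) f
  have hd : M.1.det ≠ 0 := ((Matrix.isUnit_iff_isUnit_det M.1).1 M.isUnit).ne_zero
  obtain ⟨D, hD, hDc⟩ := em_diag (F := F) (e₁ m) M.1.det hd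
  obtain ⟨g, hg⟩ := mne_sl (M * D⁻¹) (by
    have h1 : (M * D⁻¹).1 = M.1 * D⁻¹.1 := rfl
    have h2 : D.1 * D⁻¹.1 = 1 := congrArg Units.val (mul_inv_cancel D)
    have h3 : D.1.det * D⁻¹.1.det = 1 := by rw [← Matrix.det_mul, h2, Matrix.det_one]
    rw [h1, Matrix.det_mul, ← hD]
    exact h3)
  refine ⟨mk g, p, fun x => ?_⟩
  rw [eP_apply, eP_apply, hM, ← em_aN, ← mk_inv, ← mk_mul, ← mk_mul, ← cM_coe, hg, cM_mul,
    MulAut.mul_apply, cM_inv]
  congr 2
  rw [MulAut.inv_apply, eq_comm, MulEquiv.symm_apply_eq, hDc]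

/-- In `SL_2` the inverse transpose is inner. Proof. The matrix `!![0, 1; -1, 0]`. -/
theorem mn_iT2 {F : Type} [Field F] : ∃ j : SL(2, F), ∀ x, iT x = j * x * j⁻¹ := by
  obtain ⟨j, hj⟩ : ∃ j : SL(2, F), j.1 = !![0, 1; -1, 0] :=
    ⟨⟨!![0, 1; -1, 0], by simp [Matrix.det_fin_two]⟩, rfl⟩
  refine ⟨j, fun x => ?_⟩
  apply Subtype.ext
  have h2 : (iT x).1 = (Matrix.adjugate x.1)ᵀ := rfl
  have h3 : (j * x * j⁻¹).1 = j.1 * x.1 * Matrix.adjugate j.1 := rfl
  rw [h2, h3, hj, Matrix.adjugate_fin_two, Matrix.adjugate_fin_two]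
  ext i j
  fin_cases i <;> fin_cases j <;>
    simp [Matrix.mul_apply, Matrix.vecMul, dotProduct, Fin.sum_univ_two]

private theorem mne_fin (n : ℕ) (F : Type) [Field F] [Finite F] : Finite (PN n F) := by
  have h1 : Finite SL(n, F) :=
    inferInstanceAs (Finite {A : Matrix (Fin n) (Fin n) F // A.det = 1})
  exact inferInstance

/-- Coverings. -/
private theorem mne_cov {T : Type} [Group T] (f : MulAut T) (t : T) (L : Subgroup (MulAut T))
    (h : ∀ l : MulAut T, (∀ s, l s = t⁻¹ * f s * t) → l ∈ L) :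
    ∃ t, ∃ l ∈ L, ∀ s, f s = t * l s * t⁻¹ := by
  have h1 : ∀ s, (MulAut.conj t⁻¹ * f) s = t⁻¹ * f s * t := fun s => by
    rw [MulAut.mul_apply, MulAut.conj_apply, inv_inv]
  refine ⟨t, MulAut.conj t⁻¹ * f, h _ h1, fun s => ?_⟩
  rw [h1]
  group

/-- The structure on `PSL_{m+1}`, `m ≥ 3`.

Proof. `sg3_aN` with `φ = eP m F`, `L = lN φ`, `c = 2` (`eP_gen`, `sl_perf`, `mn_perf`). The
condition on inner automorphisms: `t = mk g` (`mk_surj`), `t * eP x * t⁻¹ = eP (aN p x)`, so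
`mn_inn` (`em_tr`, `c₀ = 1`) gives `aN p x = x`, and `t` commutes with `eP x`. Covering: `mn_aut`
gives `t`, `p`, and `l = MulAut.conj t⁻¹ * f` is in `L`. -/
theorem psln_sgA : ∃ B : ℝ, 1 ≤ B ∧ ∀ (m : ℕ) (F : Type) [Field F] [Finite F], 3 ≤ m →
    ∃ (S0 : Subgroup (PN (m + 1) F)) (L : Subgroup (MulAut (PN (m + 1) F))),
      SG3 4 B (PN (m + 1) F) S0 L ∧
      ∀ f : MulAut (PN (m + 1) F), ∃ t, ∃ l ∈ L, ∀ s, f s = t * l s * t⁻¹ := by
  obtain ⟨B, hB1, hB⟩ := sg3_aN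
  refine ⟨B, hB1, fun m F _ _ hm => ?_⟩
  have hfin := mne_fin (m + 1) F
  have hp : commutator SL(m, F) = ⊤ := sl_perf hm
  refine ⟨(eP m F).range, lN (eP m F), ?_, fun f => ?_⟩
  · refine hB (PN (m + 1) F) (eP m F).range 2 (mn_perf hp (eP m F)) (eP_gen (by omega))
      (lN (eP m F)) ?_ F m hm (eP m F) rfl fun l hl => (lN_mem _ l).1 hl
    rintro t ⟨l, hl, h⟩ s ⟨x, rfl⟩
    obtain ⟨p, hp'⟩ := (lN_mem _ l).1 hl
    obtain ⟨g, rfl⟩ := mk_surj t
    have h1 : ∀ x, mk g * mk (em (e₁ m) F x) * (mk g)⁻¹ = mk (em (e₁ m) F (aN p x)) := fun x => by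
      rw [← eP_apply, ← eP_apply, h, hp']
    have h2 := mn_inn hm hp (by omega) (em (e₁ m) F) 1 (fun x => em_tr _ x) g p h1 x
    have h3 := h1 x
    rw [h2, mul_inv_eq_iff_eq_mul] at h3
    exact h3
  · obtain ⟨t, p, h⟩ := mn_aut (by omega) f
    exact mne_cov f t (lN (eP m F)) fun l hl => (lN_mem _ l).2 ⟨p, fun x => by
      rw [hl, h]
      group⟩

/-- The structure on `PSL_3` of a field with at least four elements.

Proof. `sg3_fld` with `φ = eP 2 F`, `L = lG φ`, `c = 2` (`eP_gen`; `SL_2` is perfect: `sl2_perfect`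
in the file MP_fe8e9b_al/Perf, or Mathlib, or `pslm3_perf`; `fM` and `fS` are the same function).
The condition on inner automorphisms by `mn_inn2`. Covering: `mn_aut`, and if `p = (true, σ)` then
`aN p x = j * fM σ x * j⁻¹` (`mn_iT2`), so replace `t` by `t * eP j`. -/
theorem psln_sgB {F : Type} [Field F] [Finite F] (hF : 4 ≤ Nat.card F) :
    ∃ (S0 : Subgroup (PN 3 F)) (L : Subgroup (MulAut (PN 3 F))), SG3 4 12 (PN 3 F) S0 L ∧
      ∀ f : MulAut (PN 3 F), ∃ t, ∃ l ∈ L, ∀ s, f s = t * l s * t⁻¹ := by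
  classical
  have hfin := mne_fin 3 F
  have hFt : Fintype F := Fintype.ofFinite F
  have hF' : 4 ≤ Fintype.card F := by rwa [← Nat.card_eq_fintype_card]
  have hp : commutator SL(2, F) = ⊤ := sl2_perfect F hF'
  refine ⟨(eP 2 F).range, lG (eP 2 F), ?_, fun f => ?_⟩
  · refine sg3_mono (c := 3) (by norm_num) le_rfl ?_
    refine sg3_fld (c := 2) (eP 2 F).range (mn_perf hp (eP 2 F)) (eP_gen le_rfl) (lG (eP 2 F)) ?_
      hF' (eP 2 F) rfl fun l hl => ?_
    · rintro t ⟨l, hl, h⟩ s ⟨x, rfl⟩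
      obtain ⟨σ, hσ⟩ := (lG_mem _ l).1 hl
      obtain ⟨g, rfl⟩ := mk_surj t
      have h1 : ∀ x, mk g * mk (em (e₁ 2) F x) * (mk g)⁻¹ = mk (em (e₁ 2) F (fM σ x)) :=
        fun x => by rw [← eP_apply, ← eP_apply, h, hσ]
      have h2 := mn_inn2 le_rfl hp (by omega) (em (e₁ 2) F) 1 (fun x => em_tr _ x) g σ h1 x
      have h3 := h1 x
      rw [h2, mul_inv_eq_iff_eq_mul] at h3
      exact h3
    · obtain ⟨σ, hσ⟩ := (lG_mem _ l).1 hl
      exact ⟨σ, fun x => (hσ x).trans rfl⟩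
  · obtain ⟨t, ⟨b, σ⟩, h⟩ := mn_aut le_rfl f
    cases b with
    | false =>
      exact mne_cov f t (lG (eP 2 F)) fun l hl => (lG_mem _ l).2 ⟨σ, fun x => by
        rw [hl, h, aN_false]
        group⟩
    | true =>
      obtain ⟨j, hj⟩ := mn_iT2 (F := F)
      exact mne_cov f (t * eP 2 F j) (lG (eP 2 F)) fun l hl => (lG_mem _ l).2 ⟨σ, fun x => by
        rw [hl, h, aN_true, hj, map_mul, map_mul, map_inv]
        group⟩

private theorem mne_sq {F : Type} [Field F] [Finite F] (hF : Nat.card F ≤ 3) {c : F}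
    (hc : c ≠ 0) : c ^ 2 = 1 := by
  classical
  have hFt : Fintype F := Fintype.ofFinite F
  rw [Nat.card_eq_fintype_card] at hF
  by_cases h1 : c = 1
  · rw [h1, one_pow]
  by_cases h2 : c = -1
  · rw [h2]
    ring
  by_cases h3 : (1 : F) = -1
  · have h4 : c + 1 ≠ 0 := fun h => h2 (eq_neg_of_add_eq_zero_left h)
    have h5 : ({0, 1, c, c + 1} : Finset F).card = 4 := by
      rw [Finset.card_insert_of_notMem, Finset.card_insert_of_notMem,
        Finset.card_insert_of_notMem, Finset.card_singleton]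
      · rw [Finset.mem_singleton]
        intro h
        exact one_ne_zero (left_eq_add.1 h)
      · rw [Finset.mem_insert, Finset.mem_singleton]
        rintro (h | h)
        · exact h1 h.symm
        · exact hc (right_eq_add.1 h)
      · rw [Finset.mem_insert, Finset.mem_insert, Finset.mem_singleton]
        rintro (h | h | h)
        · exact zero_ne_one h
        · exact hc h.symm
        · exact h4 h.symm
    have h6 := Finset.card_le_univ ({0, 1, c, c + 1} : Finset F)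
    omega
  · have h5 : ({0, 1, -1, c} : Finset F).card = 4 := by
      rw [Finset.card_insert_of_notMem, Finset.card_insert_of_notMem,
        Finset.card_insert_of_notMem, Finset.card_singleton]
      · rw [Finset.mem_singleton]
        exact fun h => h2 h.symm
      · rw [Finset.mem_insert, Finset.mem_singleton]
        rintro (h | h)
        · exact h3 h
        · exact h1 h.symm
      · rw [Finset.mem_insert, Finset.mem_insert, Finset.mem_singleton]
        rintro (h | h | h)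
        · exact zero_ne_one h
        · exact neg_ne_zero.2 one_ne_zero h.symm
        · exact hc h.symm
    have h6 := Finset.card_le_univ ({0, 1, -1, c} : Finset F)
    omega

private theorem mne_scal {F : Type} [Field F] (M : GL (Fin 3) F) (h : M.1.det ^ 2 = 1) :
    ∃ g : SL(3, F), ∀ A, g * A * g⁻¹ = cM M A := by
  have hd : (M.1.det • M.1).det = 1 := by
    rw [Matrix.det_smul, Fintype.card_fin]
    calc M.1.det ^ 3 * M.1.det = (M.1.det ^ 2) ^ 2 := by ring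
      _ = 1 := by rw [h, one_pow]
  refine ⟨⟨M.1.det • M.1, hd⟩, fun A => ?_⟩
  have h0 : M.1.det ≠ 0 := fun h0 => by
    rw [h0] at h
    norm_num at h
  rw [mul_inv_eq_iff_eq_mul]
  apply Subtype.ext
  have h1 : M⁻¹.1 * M.1 = 1 := congrArg Units.val (inv_mul_cancel M)
  show (M.1.det • M.1) * A.1 = (M.1 * A.1 * M⁻¹.1) * (M.1.det • M.1)
  rw [Matrix.mul_smul, Matrix.mul_assoc (M.1 * A.1), h1, Matrix.mul_one, Matrix.smul_mul]

/-- The structure on `PSL_3` of a field with two or three elements.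

Proof. `sg3_aN` with `φ = QuotientGroup.mk'`, `S0 = ⊤`, `L = lN φ`, `c = 1` (`gen_top`, `sl_perf`,
`mn_perf`). The condition on inner automorphisms by `mn_inn` with `e` the identity. Covering:
`aut_psln` gives `M`, `p`; every nonzero `c` in `F` satisfies `c ^ 2 = 1`, so for `c = det M` the
matrix `c • M` has determinant `c ^ 4 = 1`, and it gives the same conjugation as `M`. -/
theorem psln_sgC : ∃ B : ℝ, 1 ≤ B ∧ ∀ (F : Type) [Field F] [Finite F], Nat.card F ≤ 3 →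
    ∃ (S0 : Subgroup (PN 3 F)) (L : Subgroup (MulAut (PN 3 F))), SG3 4 B (PN 3 F) S0 L ∧
      ∀ f : MulAut (PN 3 F), ∃ t, ∃ l ∈ L, ∀ s, f s = t * l s * t⁻¹ := by
  obtain ⟨B, hB1, hB⟩ := sg3_aN
  refine ⟨B, hB1, fun F _ _ hF => ?_⟩
  have hfin := mne_fin 3 F
  have hp : commutator SL(3, F) = ⊤ := sl_perf le_rfl
  obtain ⟨φ, hφ⟩ : ∃ φ : SL(3, F) →* PN 3 F, ∀ x, φ x = mk x :=
    ⟨QuotientGroup.mk' (Subgroup.center SL(3, F)), fun _ => rfl⟩
  have hr : φ.range = ⊤ := MonoidHom.range_eq_top.2 fun t => by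
    obtain ⟨g, rfl⟩ := mk_surj t
    exact ⟨g, hφ g⟩
  refine ⟨φ.range, lN φ, ?_, fun f => ?_⟩
  · refine sg3_mono (c := 3) (by norm_num) le_rfl ?_
    refine hB (PN 3 F) φ.range 1 (mn_perf hp φ) (by rw [hr]; exact gen_top) (lN φ) ?_ F 3 le_rfl
      φ rfl fun l hl => (lN_mem _ l).1 hl
    rintro t ⟨l, hl, h⟩ s ⟨x, rfl⟩
    obtain ⟨p, hp'⟩ := (lN_mem _ l).1 hl
    obtain ⟨g, rfl⟩ := mk_surj t
    have h1 : ∀ x, mk g * mk (MonoidHom.id SL(3, F) x) * (mk g)⁻¹ =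
        mk (MonoidHom.id SL(3, F) (aN p x)) := fun x => by
      show mk g * mk x * (mk g)⁻¹ = mk (aN p x)
      rw [← hφ x, ← hφ (aN p x), h, hp']
    have h2 := mn_inn le_rfl hp (by omega) (MonoidHom.id SL(3, F)) 0
      (fun x => (add_zero _).symm) g p h1 x
    have h3 : mk g * mk x * (mk g)⁻¹ = mk (aN p x) := h1 x
    rw [h2, mul_inv_eq_iff_eq_mul] at h3
    rw [hφ]
    exact h3
  · obtain ⟨M, p, hM⟩ := aut_psln le_rfl f
    have hd : M.1.det ≠ 0 := ((Matrix.isUnit_iff_isUnit_det M.1).1 M.isUnit).ne_zero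
    have hd2 := mne_sq hF hd
    obtain ⟨g, hg⟩ := mne_scal M hd2
    exact mne_cov f (mk g) (lN φ) fun l hl => (lN_mem _ l).2 ⟨p, fun x => by
      rw [hl, hφ, hφ, hM, ← hg, mk_mul, mk_mul, mk_inv]
      group⟩

/-- The structure on `PSL_n`. Proof. The three cases; `sg3_mono`. -/
theorem psln_sg : ∃ B : ℝ, 1 ≤ B ∧ ∀ (n : ℕ) (F : Type) [Field F] [Finite F], 3 ≤ n →
    ∃ (S0 : Subgroup (PN n F)) (L : Subgroup (MulAut (PN n F))), SG3 4 B (PN n F) S0 L ∧
      ∀ f : MulAut (PN n F), ∃ t, ∃ l ∈ L, ∀ s, f s = t * l s * t⁻¹ := by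
  obtain ⟨BA, hA1, hA⟩ := psln_sgA
  obtain ⟨BC, hC1, hC⟩ := psln_sgC
  refine ⟨max BA (max 12 BC), hA1.trans (le_max_left _ _), fun n F _ _ hn => ?_⟩
  have hfin := mne_fin n F
  obtain ⟨m, rfl⟩ : ∃ m, n = m + 1 := ⟨n - 1, by omega⟩
  rcases Nat.lt_or_ge m 3 with hm | hm
  · obtain rfl : m = 2 := by omega
    rcases Nat.lt_or_ge (Nat.card F) 4 with hF | hF
    · obtain ⟨S0, L, h1, h2⟩ := hC F (by omega)
      exact ⟨S0, L, sg3_mono le_rfl ((le_max_right _ _).trans (le_max_right _ _)) h1, h2⟩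
    · obtain ⟨S0, L, h1, h2⟩ := psln_sgB hF
      exact ⟨S0, L, sg3_mono le_rfl ((le_max_left _ _).trans (le_max_right _ _)) h1, h2⟩
  · obtain ⟨S0, L, h1, h2⟩ := hA m F hm
    exact ⟨S0, L, sg3_mono le_rfl (le_max_left _ _) h1, h2⟩

/-- Isomorphisms of fields. Proof. `QuotientGroup.congr`, `fM`, `map_center`. -/
theorem psln_iso (n : ℕ) {F F' : Type} [Field F] [Field F'] (σ : F ≃+* F') :
    Nonempty (PN n F ≃* PN n F') := by
  exact ⟨QuotientGroup.congr _ _ (fM σ) (map_center (fM σ))⟩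

/-- Conjugation by an element which normalizes `S`. -/
private theorem mne_cj {G : Type} [Group G] (S : Subgroup G) (g : G)
    (h : ∀ s, s ∈ S ↔ g * s * g⁻¹ ∈ S) : ∃ c : MulAut S, ∀ s : S, (c s : G) = g * s * g⁻¹ :=
  ⟨{ toFun := fun s => ⟨g * s * g⁻¹, (h s).1 s.2⟩
     invFun := fun s => ⟨g⁻¹ * s * g, (h _).2 (by
      have : g * (g⁻¹ * (s : G) * g) * g⁻¹ = s := by group
      rw [this]
      exact s.2)⟩
     left_inv := fun s => Subtype.ext (by
      show g⁻¹ * (g * (s : G) * g⁻¹) * g = s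
      group)
     right_inv := fun s => Subtype.ext (by
      show g * (g⁻¹ * (s : G) * g) * g⁻¹ = s
      group)
     map_mul' := fun s t => Subtype.ext (by
      show g * ((s : G) * t) * g⁻¹ = g * s * g⁻¹ * (g * t * g⁻¹)
      group) }, fun _ => rfl⟩

/-- The models of the components `PSL_n`.

Proof. If there is a field with `q` elements fix one, `F₀`, `T = PN n F₀`, `psln_sg`. Otherwise
everything is trivial (`T = Unit`; `q ≠ 0` and `Nat.card F = q` give a finite field). For a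
component `S` with `F`: `F ≃+* F₀` (`FiniteField.ringEquivOfCardEq`), `psln_iso`, so `φ : S ≃* T`.
The conjugation by `g` is an automorphism `c` of `S` (as in `AltCor.cj`, file M/AltCor), and `f =
φ.symm.trans (c.trans φ)` is an automorphism of `T`, `f (φ s) = φ (c s)`. -/
theorem psln_mod : ∃ B : ℝ, 1 ≤ B ∧ ∀ n q : ℕ, ∃ (T : Type) (_ : Group T) (S0 : Subgroup T)
    (L : Subgroup (MulAut T)), ∀ (G : Type) [Group G] [Finite G] (S : Subgroup G), 3 ≤ n →
    2 ≤ q → (∃ (F : Type) (_ : Field F), Nat.card F = q ∧ Nonempty (S ≃* PN n F)) →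
    ∃ φ : S ≃* T, SG3 4 B T S0 L ∧
      ∀ g : G, (∀ s, s ∈ S ↔ g * s * g⁻¹ ∈ S) → ∃ t : T, ∃ l ∈ L,
        ∀ s s' : S, (s' : G) = g * s * g⁻¹ → φ s' = t * l (φ s) * t⁻¹ := by
  obtain ⟨B, hB1, hB⟩ := psln_sg
  refine ⟨B, hB1, fun n q => ?_⟩
  by_cases h : ∃ (F₀ : Type) (_ : Field F₀), Nat.card F₀ = q ∧ 2 ≤ q ∧ 3 ≤ n
  · obtain ⟨F₀, i0, hc, hq, hn⟩ := h
    have hf0 : Finite F₀ := Nat.finite_of_card_ne_zero (by omega)
    obtain ⟨S0, L, hSG, hcov⟩ := hB n F₀ hn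
    refine ⟨PN n F₀, inferInstance, S0, L, ?_⟩
    rintro G _ _ S - - ⟨F, iF, hF, ⟨φ0⟩⟩
    have hf : Finite F := Nat.finite_of_card_ne_zero (by omega)
    have hFt : Fintype F := Fintype.ofFinite F
    have hFt0 : Fintype F₀ := Fintype.ofFinite F₀
    have hcc : Fintype.card F = Fintype.card F₀ := by
      rw [← Nat.card_eq_fintype_card, ← Nat.card_eq_fintype_card, hF, hc]
    obtain ⟨ψ⟩ := psln_iso n (FiniteField.ringEquivOfCardEq hcc)
    obtain ⟨φ, hφ⟩ : ∃ φ : S ≃* PN n F₀, φ = φ0.trans ψ := ⟨_, rfl⟩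
    refine ⟨φ, hSG, fun g hg => ?_⟩
    obtain ⟨c, hc'⟩ := mne_cj S g hg
    obtain ⟨t, l, hl, h1⟩ := hcov ((φ.symm.trans c).trans φ)
    refine ⟨t, l, hl, fun s s' hs => ?_⟩
    rw [← h1]
    show φ s' = φ (c (φ.symm (φ s)))
    rw [φ.symm_apply_apply]
    exact congrArg φ (Subtype.ext (hs.trans (hc' s).symm))
  · refine ⟨Unit, inferInstance, ⊥, ⊥, ?_⟩
    rintro G _ _ S hn hq ⟨F, iF, hF, -⟩
    exact absurd ⟨F, iF, hF, hq, hn⟩ h

end Pool.Agent.MPfe8e9bN
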