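import Mathlib
import Pool.Agent.Lib.MP_fe8e9b_al_M.LayB
import Pool.Agent.Lib.MP_fe8e9b_al_N.Defs
import Pool.Agent.Lib.MP_fe8e9b_al_N.Defs3
import Pool.Agent.Lib.MP_fe8e9b_al_N.SGT3
import Pool.Agent.Lib.MP_fe8e9b_al_N.SGA3
import Pool.Agent.Lib.MP_fe8e9b_al_N.LayA3
import Pool.Agent.Lib.MP_fe8e9b_al_N.LayB2
import Pool.Agent.Lib.MP_fe8e9b_al_N.LayB3
import Pool.Agent.Lib.MP_fe8e9b_al_N.PslE3
import Pool.Agent.Lib.MP_fe8e9b_al_N.Mdl3
import Pool.Agent.Lib.MP_fe8e9b_al_N.Mdl4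
import Pool.Agent.Lib.MP_fe8e9b_al_N.MnE
import Pool.Agent.Lib.MP_fe8e9b_al_N.Cln3

/-!
# MP_fe8e9b_al, groups of bounded height: a layer of components, fourth version
-/

set_option autoImplicit false

open scoped BigOperators MatrixGroups

namespace Pool.Agent.MPfe8e9bN

open Pool.Agent.MPfe8e9b Pool.Agent.MPfe8e9bA Pool.Agent.MPfe8e9bW Pool.Agent.MPfe8e9bV
open Pool.Agent.MPfe8e9bM

/-- `S` is isomorphic to `PSL_n` of a field with `q` elements, `n ≥ 3`. -/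
def PnComp (S : Type) [Group S] (n q : ℕ) : Prop :=
  3 ≤ n ∧ 2 ≤ q ∧ ∃ (F : Type) (_ : Field F), Nat.card F = q ∧ Nonempty (S ≃* PN n F)

/-- `G` is generated by `d` elements, and `𝒮` is a set of pairwise commuting nonabelian simple
subgroups of `G`, closed under conjugation. They are alternating groups or groups `PSL_2` (`Clean`,
or with a condition on the normalizer, `PslComp3`), or groups `PSL_n`, `n ≥ 3`, or isomorphic to
models (`Mdl`, `MdlN`, `ModComp`), at most `q ^ (C * m ^ 2)` models for every `m` and `q`. -/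
def CompLayer4 (d L C : ℕ) (G : Type) [Group G] (𝒮 : Set (Subgroup G)) : Prop :=
  (∃ T : Finset G, T.card ≤ d ∧ Subgroup.closure (T : Set G) = ⊤) ∧
  (∀ S ∈ 𝒮, ∀ g : G, S.map (MulAut.conj g).toMonoidHom ∈ 𝒮) ∧
  (∀ S ∈ 𝒮, IsSimpleGroup S ∧ ∃ a ∈ S, ∃ b ∈ S, a * b ≠ b * a) ∧
  (∀ S ∈ 𝒮, ∀ S' ∈ 𝒮, S ≠ S' → ∀ a ∈ S, ∀ b ∈ S', a * b = b * a) ∧
  ∃ (T : ℕ → ℕ → ℕ → Type) (_ : ∀ m q c, Group (T m q c)) (S₀ : ∀ m q c, Subgroup (T m q c))
    (A : ∀ m q c, Subgroup (MulAut (T m q c))),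
    ∀ S ∈ 𝒮, Clean S ∨ (∃ n q, PnComp S n q) ∨ (∃ q k, PslComp3 S q k) ∨
      ∃ m q c, c < q ^ (C * m ^ 2) ∧ (Mdl L C m q (T m q c) (S₀ m q c) (A m q c) ∨
        MdlN L C m q (T m q c) (S₀ m q c) (A m q c)) ∧ ModComp S (T m q c) (A m q c)

/-- Isomorphisms of simple groups. -/
private theorem layb4_simple {A T : Type} [Group A] [Group T] (φ : A ≃* T)
    (h : IsSimpleGroup A) : IsSimpleGroup T := by
  have := h
  have hn : Nontrivial T := φ.symm.toEquiv.nontrivial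
  exact IsSimpleGroup.isSimpleGroup_of_surjective φ.toMonoidHom φ.surjective

/-- The components `PSL_n` are products. -/
private theorem layb4_prod {S : Type} [Group S] {n q : ℕ} (h : PnComp S n q) (L : ℕ) :
    ∃ (F : Type) (_ : Field F) (_ : Fintype F), Fintype.card F = q ∧
      SLProduct (L + 1) n F S := by
  obtain ⟨-, hq, F, iF, hF, ⟨φ⟩⟩ := h
  have hfin : Finite F := Nat.finite_of_card_ne_zero (by omega)
  have iF' : Fintype F := Fintype.ofFinite F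
  refine ⟨F, iF, iF', by rw [← Nat.card_eq_fintype_card, hF], ?_⟩
  refine ⟨fun j => φ.symm.toMonoidHom.comp (QuotientGroup.mk' (Subgroup.center SL(n, F))),
    fun s => ?_⟩
  obtain ⟨A, hA⟩ := mk_surj (φ s)
  refine ⟨Fin.cons A fun _ => 1, ?_⟩
  rw [List.ofFn_succ, List.prod_cons]
  have h2 : (List.ofFn fun j : Fin L => (φ.symm.toMonoidHom.comp
      (QuotientGroup.mk' (Subgroup.center SL(n, F))))
      ((Fin.cons A fun _ => 1 : Fin (L + 1) → SL(n, F)) j.succ)).prod = 1 := by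
    apply List.prod_eq_one
    intro y hy
    obtain ⟨j, rfl⟩ := List.mem_ofFn.1 hy
    rw [Fin.cons_succ, map_one]
  rw [h2, mul_one, Fin.cons_zero]
  show s = φ.symm (mk A)
  rw [hA, φ.symm_apply_apply]

/-- The structures for all components, with a key. -/
theorem layb4_data (C : ℕ) : ∃ B : ℝ, 1 ≤ B ∧ ∀ (d L : ℕ) (G : Type) [Group G] [Finite G]
    (𝒮 : Set (Subgroup G)) (_ : CompLayer4 d L C G 𝒮) (act : G →* Equiv.Perm 𝒮)
    (_ : Cmp (fun x : 𝒮 => x.1) act),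
    ∃ (L' : ∀ x : 𝒮, Subgroup (MulAut x.1)) (S0 : ∀ x : 𝒮, Subgroup x.1)
      (key : 𝒮 → ℕ ⊕ (ℕ × ℕ × ℕ)),
      (∀ (x : 𝒮) (g : G), act g x = x → ∃ t : x.1, ∃ l ∈ L' x, ∀ s : x.1,
        g * (s : G) * g⁻¹ = ((t * l s * t⁻¹ : x.1) : G)) ∧
      (∀ x, SG3 (402 + C) B x.1 (S0 x) (L' x)) ∧
      (∀ x y, key x = key y → ∃ e : x.1 ≃* y.1,
        ∀ l : MulAut x.1, l ∈ L' x ↔ MulAut.congr e l ∈ L' y) ∧
      ∀ x, (∃ n, key x = Sum.inl n ∧ 5 ≤ n ∧ Nonempty (x.1 ≃* alternatingGroup (Fin n))) ∨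
        ∃ m q c', key x = Sum.inr (m, q, c') ∧ 2 ≤ m ∧ c' < q ^ ((C + 1) * m ^ 2) ∧
          ∃ (F : Type) (_ : Field F) (_ : Fintype F), Fintype.card F = q ∧
            SLProduct (L + 1) m F x.1 := by
  obtain ⟨B1, hB1, hPsl⟩ := psl_mod3
  obtain ⟨B2, hB2, hAlt⟩ := sg_alt3
  obtain ⟨B3, hB3, hMdl⟩ := mdl_sg4 C
  obtain ⟨B4, hB4, hPn⟩ := psln_mod
  obtain ⟨B, hB, e1, e2, e3, e4⟩ : ∃ B : ℝ, 1 ≤ B ∧ B1 ≤ B ∧ B2 ≤ B ∧ B3 ≤ B ∧ B4 ≤ B :=
    ⟨max (max B1 B2) (max B3 B4), hB1.trans ((le_max_left _ _).trans (le_max_left _ _)),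
      (le_max_left _ _).trans (le_max_left _ _), (le_max_right _ _).trans (le_max_left _ _),
      (le_max_left _ _).trans (le_max_right _ _), (le_max_right _ _).trans (le_max_right _ _)⟩
  refine ⟨B, hB, ?_⟩
  intro d L G _ _ 𝒮 h act hC
  obtain ⟨-, -, hsim, -, MT, MG, MS, MA, hty⟩ := h
  have hno : ∀ (x : 𝒮) (g : G), act g x = x → ∀ s, s ∈ x.1 ↔ g * s * g⁻¹ ∈ x.1 := by
    intro x g hgx s
    constructor
    · intro hs
      have h1 : g * s * g⁻¹ ∈ (act g x).1 := hC.cnj g x s hs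
      rw [hgx] at h1
      exact h1
    · intro hs
      obtain ⟨a, ha, hab⟩ := cmp_onto hC g x (g * s * g⁻¹) (by
        rw [hgx]
        exact hs)
      have h1 : s = a := mul_left_cancel (mul_right_cancel hab)
      rw [h1]
      exact ha
  choose PT PG PL hP using hPsl
  choose NT NG NS NL hN using hPn
  have hone : ∀ x : 𝒮, ∃ (L' : Subgroup (MulAut x.1)) (S0 : Subgroup x.1)
      (key : ℕ ⊕ (ℕ × ℕ × ℕ)),
      (∀ g : G, (∀ s, s ∈ x.1 ↔ g * s * g⁻¹ ∈ x.1) → ∃ t : x.1, ∃ l ∈ L', ∀ s : x.1,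
        g * (s : G) * g⁻¹ = ((t * l s * t⁻¹ : x.1) : G)) ∧
      SG3 (402 + C) B x.1 S0 L' ∧
      ((∃ n, key = Sum.inl n ∧ 5 ≤ n ∧ ∃ φ : x.1 ≃* alternatingGroup (Fin n),
        L' = (L0 n).map (MulAut.congr φ.symm).toMonoidHom) ∨
      (∃ q' k, key = Sum.inr (2, q', k) ∧ PslComp3 x.1 q' k ∧
        ∃ φ : x.1 ≃* PT q' k, L' = (PL q' k).map (MulAut.congr φ.symm).toMonoidHom) ∨
      (∃ m q c, key = Sum.inr (m, q, c + q + 1) ∧
        (Mdl L C m q (MT m q c) (MS m q c) (MA m q c) ∨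
          MdlN L C m q (MT m q c) (MS m q c) (MA m q c)) ∧ c < q ^ (C * m ^ 2) ∧
        ∃ φ : x.1 ≃* MT m q c, L' = (MA m q c).map (MulAut.congr φ.symm).toMonoidHom) ∨
      (∃ n q, key = Sum.inr (n, q, 0) ∧ PnComp x.1 n q ∧
        ∃ φ : x.1 ≃* NT n q, L' = (NL n q).map (MulAut.congr φ.symm).toMonoidHom)) := by
    intro x
    have halt : ∀ n, AltComp x.1 n → ∃ (L' : Subgroup (MulAut x.1)) (S0 : Subgroup x.1),
        (∀ g : G, (∀ s, s ∈ x.1 ↔ g * s * g⁻¹ ∈ x.1) → ∃ t : x.1, ∃ l ∈ L', ∀ s : x.1,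
          g * (s : G) * g⁻¹ = ((t * l s * t⁻¹ : x.1) : G)) ∧
        SG3 (402 + C) B x.1 S0 L' ∧ 5 ≤ n ∧
        ∃ φ : x.1 ≃* alternatingGroup (Fin n),
          L' = (L0 n).map (MulAut.congr φ.symm).toMonoidHom := by
      intro n hn
      obtain ⟨φ, h1, h2⟩ := layb3_alt hAlt x.1 n hn
      exact ⟨_, _, h2, sg3_mono (by omega) e2 h1, hn.1, φ, rfl⟩
    have hpsl : ∀ q' k, PslComp3 x.1 q' k → ∃ (L' : Subgroup (MulAut x.1))
        (S0 : Subgroup x.1),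
        (∀ g : G, (∀ s, s ∈ x.1 ↔ g * s * g⁻¹ ∈ x.1) → ∃ t : x.1, ∃ l ∈ L', ∀ s : x.1,
          g * (s : G) * g⁻¹ = ((t * l s * t⁻¹ : x.1) : G)) ∧
        SG3 (402 + C) B x.1 S0 L' ∧
        ∃ φ : x.1 ≃* PT q' k, L' = (PL q' k).map (MulAut.congr φ.symm).toMonoidHom := by
      intro q' k hk
      obtain ⟨φ, h1, h2⟩ := hP q' k G x.1 hk
      have : Finite (PT q' k) := Finite.of_equiv _ φ.toEquiv
      obtain ⟨h3, h4⟩ := layb3_mod x.1 φ h1 h2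
      exact ⟨_, _, h4, sg3_mono (by omega) e1 h3, φ, rfl⟩
    have hor : (∃ n, AltComp x.1 n) ∨ (∃ q k, PslComp3 x.1 q k) ∨
        (∃ m q c, c < q ^ (C * m ^ 2) ∧ (Mdl L C m q (MT m q c) (MS m q c) (MA m q c) ∨
          MdlN L C m q (MT m q c) (MS m q c) (MA m q c)) ∧
          ModComp x.1 (MT m q c) (MA m q c)) ∨ ∃ n q, PnComp x.1 n q := by
      rcases hty x.1 x.2 with h1 | h1 | h1 | h1
      · rcases clean_comp x.1 h1 with h2 | h2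
        · exact Or.inl h2
        · exact Or.inr (Or.inl h2)
      · exact Or.inr (Or.inr (Or.inr h1))
      · exact Or.inr (Or.inl h1)
      · exact Or.inr (Or.inr (Or.inl h1))
    rcases hor with ⟨n, hn⟩ | ⟨q', k, hk⟩ | ⟨m, q, c, hc, hm, φ, hφ⟩ | ⟨n, q, hnq⟩
    · obtain ⟨L', S0, h1, h2, h3, h4⟩ := halt n hn
      exact ⟨L', S0, Sum.inl n, h1, h2, Or.inl ⟨n, rfl, h3, h4⟩⟩
    · obtain ⟨L', S0, h1, h2, h3⟩ := hpsl q' k hk
      exact ⟨L', S0, Sum.inr (2, q', k), h1, h2, Or.inr (Or.inl ⟨q', k, rfl, hk, h3⟩)⟩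
    · have hfin : Finite (MT m q c) := Finite.of_equiv _ φ.toEquiv
      have hs := hsim x.1 x.2
      have hsimp : IsSimpleGroup (MT m q c) := layb4_simple φ hs.1
      have hna : ∃ a b : MT m q c, a * b ≠ b * a := by
        obtain ⟨-, a, ha, b, hb, hab⟩ := hs
        refine ⟨φ ⟨a, ha⟩, φ ⟨b, hb⟩, fun h1 => hab ?_⟩
        rw [← map_mul, ← map_mul] at h1
        exact congrArg Subtype.val (φ.injective h1)
      obtain ⟨h3, h4⟩ := layb3_mod x.1 φ (hMdl L m q (MT m q c) hna _ _ hm) hφ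
      exact ⟨_, _, Sum.inr (m, q, c + q + 1), h4, sg3_mono (by omega) e3 h3,
        Or.inr (Or.inr (Or.inl ⟨m, q, c, rfl, hm, hc, φ, rfl⟩))⟩
    · obtain ⟨φ, h1, h2⟩ := hN n q G x.1 hnq.1 hnq.2.1 hnq.2.2
      have : Finite (NT n q) := Finite.of_equiv _ φ.toEquiv
      obtain ⟨h3, h4⟩ := layb3_mod x.1 φ h1 h2
      exact ⟨_, _, Sum.inr (n, q, 0), h4, sg3_mono (by omega) e4 h3,
        Or.inr (Or.inr (Or.inr ⟨n, q, rfl, hnq, φ, rfl⟩))⟩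
  choose L' S0 key hno' hSG hkey using hone
  refine ⟨L', S0, key, fun x g hgx => hno' x g (hno x g hgx), hSG, fun x y hxy => ?_,
    fun x => ?_⟩
  · have inr3 : ∀ {a b c a' b' c' : ℕ}, (Sum.inr (a, b, c) : ℕ ⊕ (ℕ × ℕ × ℕ)) =
        Sum.inr (a', b', c') → a = a' ∧ b = b' ∧ c = c' := by
      intro a b c a' b' c' h1
      have h2 := Sum.inr_injective h1
      exact ⟨congrArg Prod.fst h2, congrArg (fun p => p.2.1) h2, congrArg (fun p => p.2.2) h2⟩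
    rcases hkey x with ⟨n, hx1, -, φ, hφ⟩ | ⟨q₁, k₁, hx1, hx2, φ, hφ⟩ |
      ⟨m₁, q₁, c₁, hx1, -, -, φ, hφ⟩ | ⟨n₁, q₁, hx1, hx2, φ, hφ⟩
    · rcases hkey y with ⟨n', hy1, -, ψ, hψ⟩ | ⟨q₂, k₂, hy1, -, ψ, hψ⟩ |
        ⟨m₂, q₂, c₂, hy1, -, -, -⟩ | ⟨n₂, q₂, hy1, -, -⟩
      · have hnn : n = n' := Sum.inl_injective (hx1.symm.trans (hxy.trans hy1))
        subst hnn
        rw [hφ, hψ]
        exact layb2_iso (L0 n) φ ψ
      · exact absurd (hx1.symm.trans (hxy.trans hy1)) (by simp)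
      · exact absurd (hx1.symm.trans (hxy.trans hy1)) (by simp)
      · exact absurd (hx1.symm.trans (hxy.trans hy1)) (by simp)
    · rcases hkey y with ⟨n', hy1, -, ψ, hψ⟩ | ⟨q₂, k₂, hy1, -, ψ, hψ⟩ |
        ⟨m₂, q₂, c₂, hy1, -, -, -⟩ | ⟨n₂, q₂, hy1, hy2, -⟩
      · exact absurd (hx1.symm.trans (hxy.trans hy1)) (by simp)
      · obtain ⟨-, h2, h3⟩ := inr3 (hx1.symm.trans (hxy.trans hy1))
        subst h2
        subst h3
        rw [hφ, hψ]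
        exact layb2_iso (PL q₁ k₁) φ ψ
      · exfalso
        obtain ⟨-, h3, h4⟩ := inr3 (hx1.symm.trans (hxy.trans hy1))
        have h5 := (psl_prod3 x.1 q₁ k₁ hx2 1 le_rfl).2.1
        omega
      · exfalso
        obtain ⟨h2, -, -⟩ := inr3 (hx1.symm.trans (hxy.trans hy1))
        have h5 := hy2.1
        omega
    · rcases hkey y with ⟨n', hy1, -, ψ, hψ⟩ | ⟨q₂, k₂, hy1, hy2, ψ, hψ⟩ |
        ⟨m₂, q₂, c₂, hy1, -, -, ψ, hψ⟩ | ⟨n₂, q₂, hy1, hy2, -⟩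
      · exact absurd (hx1.symm.trans (hxy.trans hy1)) (by simp)
      · exfalso
        obtain ⟨-, h3, h4⟩ := inr3 (hx1.symm.trans (hxy.trans hy1))
        have h5 := (psl_prod3 y.1 q₂ k₂ hy2 1 le_rfl).2.1
        omega
      · obtain ⟨h2, h3, h4⟩ := inr3 (hx1.symm.trans (hxy.trans hy1))
        have h5 : c₁ = c₂ := by omega
        subst h2
        subst h3
        subst h5
        rw [hφ, hψ]
        exact layb2_iso (MA m₁ q₁ c₁) φ ψ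
      · exfalso
        obtain ⟨-, -, h4⟩ := inr3 (hx1.symm.trans (hxy.trans hy1))
        omega
    · rcases hkey y with ⟨n', hy1, -, ψ, hψ⟩ | ⟨q₂, k₂, hy1, hy2, ψ, hψ⟩ |
        ⟨m₂, q₂, c₂, hy1, -, -, ψ, hψ⟩ | ⟨n₂, q₂, hy1, hy2, ψ, hψ⟩
      · exact absurd (hx1.symm.trans (hxy.trans hy1)) (by simp)
      · exfalso
        obtain ⟨h2, -, -⟩ := inr3 (hx1.symm.trans (hxy.trans hy1))
        have h5 := hx2.1
        omega
      · exfalso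
        obtain ⟨-, -, h4⟩ := inr3 (hx1.symm.trans (hxy.trans hy1))
        omega
      · obtain ⟨h2, h3, -⟩ := inr3 (hx1.symm.trans (hxy.trans hy1))
        subst h2
        subst h3
        rw [hφ, hψ]
        exact layb2_iso (NL n₁ q₁) φ ψ
  · rcases hkey x with ⟨n, hx1, hx2, φ, -⟩ | ⟨q', k, hx1, hx2, -⟩ |
      ⟨m, q, c, hx1, hx2, hx3, φ, -⟩ | ⟨n, q, hx1, hx2, -⟩
    · exact Or.inl ⟨n, hx1, hx2, ⟨φ⟩⟩
    · right
      obtain ⟨h1, h2, h3⟩ := psl_prod3 x.1 q' k hx2 (L + 1) (Nat.le_add_left 1 L)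
      refine ⟨2, q', k, hx1, le_rfl, ?_, h3⟩
      have h4 := layb2_key C 2 q' 0 le_rfl (by omega) (Nat.pow_pos (by omega))
      omega
    · right
      obtain ⟨hm2, F, iF, iF', hF, hFS⟩ : 2 ≤ m ∧ ∃ (F : Type) (_ : Field F) (_ : Fintype F),
          Fintype.card F = q ∧ SLProduct L m F (MT m q c) := by
        rcases hx2 with h1 | h1
        · exact ⟨h1.1, h1.2.1⟩
        · exact ⟨h1.1, h1.2.1⟩
      refine ⟨m, q, _, hx1, hm2, ?_, F, iF, iF', hF, ?_⟩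
      · refine layb2_key C _ _ _ hm2 ?_ hx3
        rw [← hF]
        exact Fintype.one_lt_card
      · refine layb2_prod ?_
        obtain ⟨ψ, hψ⟩ := hFS
        refine ⟨fun i => φ.symm.toMonoidHom.comp (ψ i), fun s => ?_⟩
        obtain ⟨z, hz⟩ := hψ (φ s)
        refine ⟨z, ?_⟩
        rw [← φ.symm_apply_apply s, hz, map_list_prod, List.map_ofFn]
        rfl
    · right
      have h1 := hx2.1
      exact ⟨n, q, 0, hx1, by omega, Nat.pow_pos (by have := hx2.2.1; omega),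
        layb4_prod hx2 L⟩

/-- The step of the main theorem. -/
theorem lay_m4 (d L C kQ : ℕ) {κQ : ℝ} (hκQ : 0 < κQ) : ∃ (k : ℕ) (κ : ℝ), 0 < κ ∧
    ∀ (G : Type) [Group G] [Finite G] (𝒮 : Set (Subgroup G)), CompLayer4 d L C G 𝒮 →
    ∀ (N : Subgroup G) [N.Normal], N = sSup 𝒮 → FExpd (G ⧸ N) kQ κQ → FExpd G k κ := by
  obtain ⟨B, hB, hdata⟩ := layb4_data C
  obtain ⟨k, κ, hκ, hall⟩ := lay_a3 d (402 + C) (L + 1) (C + 1) kQ hB hκQ
  refine ⟨k, κ, hκ, fun G _ _ 𝒮 h N _ hN hQ => ?_⟩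
  obtain ⟨act, hact⟩ := layb2_cmp h.2.1 h.2.2.1 h.2.2.2.1
  obtain ⟨L', S0, key, h1, h2, h3, h4⟩ := hdata d L G 𝒮 h act hact
  exact hall G 𝒮 (fun x : 𝒮 => x.1) act hact L' h1 S0 h2 key h3 h4 h.1 N
    (hN.trans (sSup_eq_iSup' 𝒮)) hQ

end Pool.Agent.MPfe8e9bN
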