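import Mathlib
import Pool.Agent.Lib.MP_fe8e9b_al_W.Cheeg
import Pool.Agent.Lib.MP_fe8e9b_al_M.ClsF
import Pool.Agent.Lib.MP_fe8e9b_al_N.LayB4

/-!
# MP_fe8e9b_al, groups of bounded height: the class and the main theorem, fourth version
-/

set_option autoImplicit false

open scoped BigOperators Pointwise

namespace Pool.Agent.MPfe8e9bN

open Pool.Agent.MPfe8e9b Pool.Agent.MPfe8e9bA Pool.Agent.MPfe8e9bW Pool.Agent.MPfe8e9bV
open Pool.Agent.MPfe8e9bM

/-- The groups obtained in at most `l` steps from layers and from groups with vertex expansion `ε`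
for `k` elements: by extensions of two groups of the class, and by extensions of a group of the
class by the normal subgroup generated by a layer of components of a `d`-generated group. -/
inductive Cls4 (d L C k : ℕ) (ε : ℝ) : ℕ → (G : Type) → Group G → Prop
  | base (l : ℕ) (G : Type) (inst : Group G) (h : VExp k ε G) : Cls4 d L C k ε l G inst
  | layer (l : ℕ) (G : Type) (inst : Group G) (h : Layer d L C G) : Cls4 d L C k ε l G inst
  | ext (l : ℕ) (G : Type) (inst : Group G) (hG : Finite G) (N : Subgroup G) (hN : N.Normal)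
      (h₁ : Cls4 d L C k ε l N inferInstance) (h₂ : Cls4 d L C k ε l (G ⧸ N) inferInstance) :
      Cls4 d L C k ε (l + 1) G inst
  | comp (l : ℕ) (G : Type) (inst : Group G) (hG : Finite G) (𝒮 : Set (Subgroup G))
      (h : CompLayer4 d L C G 𝒮) (N : Subgroup G) (hN : N.Normal) (hNS : N = sSup 𝒮)
      (h₂ : Cls4 d L C k ε l (G ⧸ N) inferInstance) : Cls4 d L C k ε (l + 1) G inst
  | iso (l : ℕ) (G H : Type) (instG : Group G) (instH : Group H) (e : G ≃* H)
      (hG : Cls4 d L C k ε l G instG) : Cls4 d L C k ε l H instH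

/-- The groups of the class have a tuple of bounded length with a uniform spectral gap. -/
theorem cls4_fexpd (d L C k' : ℕ) {ε : ℝ} (hε : 0 < ε) (l : ℕ) : ∃ (k : ℕ) (κ : ℝ), 0 < κ ∧
    ∀ (G : Type) (inst : Group G), Cls4 d L C k' ε l G inst → FExpd G k κ := by
  obtain ⟨k₀, κ₀, hκ₀, h₀⟩ : ∃ (k : ℕ) (κ : ℝ), 0 < κ ∧ (∀ (G : Type) [Group G],
      Layer d L C G → FExpd G k κ) ∧ ∀ (G : Type) [Group G], VExp k' ε G → FExpd G k κ := by
    obtain ⟨k₀, κ₀, hκ₀, h₀⟩ := layer_expd d L C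
    have hκ₁ : 0 < ε ^ 2 / (4 * ((k' : ℝ) + 1)) := by positivity
    refine ⟨k₀ + k', min κ₀ (ε ^ 2 / (4 * ((k' : ℝ) + 1))), lt_min hκ₀ hκ₁, fun G _ h => ?_,
      fun G _ h => ?_⟩
    · exact (h₀ G h).mono (Nat.le_add_right _ _) (min_le_left _ _)
    · exact (vexp_fexpd hε h).mono (Nat.le_add_left _ _) (min_le_right _ _)
  induction l with
  | zero =>
    refine ⟨k₀, κ₀, hκ₀, fun G inst h => ?_⟩
    have key : ∀ (l' : ℕ) (G : Type) (inst : Group G), Cls4 d L C k' ε l' G inst → l' = 0 →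
        @FExpd G inst k₀ κ₀ := by
      intro l' G inst h
      induction h with
      | base l G inst h => exact fun _ => h₀.2 G h
      | layer l G inst h => exact fun _ => h₀.1 G h
      | ext l G inst hG N hN h₁ h₂ ih₁ ih₂ => exact fun h3 => absurd h3 (Nat.succ_ne_zero l)
      | comp l G inst hG 𝒮 h N hN hNS h₂ ih₂ => exact fun h3 => absurd h3 (Nat.succ_ne_zero l)
      | iso l G H instG instH e hG ih =>
        exact fun h3 => FExpd.surj e.toMonoidHom e.surjective (ih h3)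
    exact key 0 G inst h rfl
  | succ l ih =>
    obtain ⟨k, κ, hκ, hl⟩ := ih
    obtain ⟨k₁, κ₁, hκ₁, h₁⟩ := lay_m4 d L C k hκ
    have e₀ : min (min κ₀ κ) κ₁ ≤ κ₀ := (min_le_left _ _).trans (min_le_left _ _)
    have e : min (min κ₀ κ) κ₁ ≤ κ := (min_le_left _ _).trans (min_le_right _ _)
    have e₁ : min (min κ₀ κ) κ₁ ≤ κ₁ := min_le_right _ _
    refine ⟨k₀ + 2 * k + k₁, min (min κ₀ κ) κ₁, lt_min (lt_min hκ₀ hκ) hκ₁,
      fun G inst h => ?_⟩
    have key : ∀ (l' : ℕ) (G : Type) (inst : Group G), Cls4 d L C k' ε l' G inst →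
        l' = l + 1 → @FExpd G inst (k₀ + 2 * k + k₁) (min (min κ₀ κ) κ₁) := by
      intro l' G inst h
      induction h with
      | base l' G inst h => exact fun _ => (h₀.2 G h).mono (by omega) e₀
      | layer l' G inst h => exact fun _ => (h₀.1 G h).mono (by omega) e₀
      | ext l' G inst hG N hN h₂ h₃ ih₂ ih₃ =>
        intro h4
        have h5 : l' = l := Nat.succ.inj h4
        subst h5
        have h6 : FExpd N k (min (min κ₀ κ) κ₁) := (hl N _ h₂).mono le_rfl e
        have h7 : FExpd (G ⧸ N) k (min (min κ₀ κ) κ₁) := (hl (G ⧸ N) _ h₃).mono le_rfl e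
        exact (FExpd.ext N h6 h7).mono (by omega) le_rfl
      | comp l' G inst hG 𝒮 hc N hN hNS h₂ ih₂ =>
        intro h4
        have h5 : l' = l := Nat.succ.inj h4
        subst h5
        have h7 : FExpd (G ⧸ N) k κ := hl (G ⧸ N) _ h₂
        exact (h₁ G 𝒮 hc N hNS h7).mono (by omega) e₁
      | iso l' G H instG instH e hG ih =>
        exact fun h3 => FExpd.surj e.toMonoidHom e.surjective (ih h3)
    exact key _ G inst h rfl

/-- The main theorem. -/
theorem cls_main4 (d L C k₀ : ℕ) {ε₀ : ℝ} (hε₀ : 0 < ε₀) (l : ℕ) :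
    ∃ (k : ℕ) (ε : ℝ), 0 < ε ∧
    ∀ (G : Type) [inst : Group G] [Fintype G] [DecidableEq G], Cls4 d L C k₀ ε₀ l G inst →
      ∃ S : Finset G, S.card ≤ k ∧ Subgroup.closure (S : Set G) = ⊤ ∧
        ∀ A : Finset G, 2 * A.card ≤ Fintype.card G →
          (1 + ε) * (A.card : ℝ) ≤ ((A ∪ S * A).card : ℝ) := by
  obtain ⟨k, κ, hκ, h⟩ := cls4_fexpd d L C k₀ hε₀ l
  refine ⟨k, κ / (4 * (k + 1)), by positivity, ?_⟩
  intro G inst _ _ hG
  exact expd_vertex hκ (h G inst hG).expd

end Pool.Agent.MPfe8e9bN
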