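import Mathlib
import Pool.Agent.Lib.MP_fe8e9b_al_N.Defs
import Pool.Agent.Lib.MP_fe8e9b_al_M.LDat
import Pool.Agent.Lib.MP_fe8e9b_al_M.CmpD

/-!
# MP_fe8e9b_al, groups of bounded height: definitions for the sixth version

The text of the proof is in the docstrings of the modules of this folder. In this version every
component is generated by boundedly many elements whose classes are invariant under the normalizer
of the component.
-/

set_option autoImplicit false

open scoped BigOperators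

namespace Pool.Agent.MPfe8e9bN

open Pool.Agent.MPfe8e9b Pool.Agent.MPfe8e9bA Pool.Agent.MPfe8e9bW Pool.Agent.MPfe8e9bV
open Pool.Agent.MPfe8e9bM

/-- The elements of the family generate the group. -/
def Gnr {T : Type} [Group T] {m : ℕ} (z : Fin m → T) : Prop :=
  ∀ R : Subgroup T, (∀ i, z i ∈ R) → R = ⊤

/-- The automorphisms which map every element of the family to a conjugate. -/
def ccl {T : Type} [Group T] {m : ℕ} (z : Fin m → T) : Subgroup (MulAut T) where
  carrier := {l | ∀ i, ∃ t, l (z i) = t * z i * t⁻¹}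
  mul_mem' := by
    intro a b ha hb i
    obtain ⟨s, hs⟩ := ha i
    obtain ⟨t, ht⟩ := hb i
    refine ⟨a t * s, ?_⟩
    rw [MulAut.mul_apply, ht, map_mul, map_mul, hs, map_inv, mul_inv_rev]
    simp only [mul_assoc]
  one_mem' := fun i => ⟨1, by rw [one_mul, inv_one, mul_one]; rfl⟩
  inv_mem' := by
    intro a ha i
    obtain ⟨t, ht⟩ := ha i
    refine ⟨(a⁻¹ t)⁻¹, ?_⟩
    have h1 := congrArg (fun x => a⁻¹ x) ht
    simp only [MulAut.inv_apply_self, map_mul, map_inv] at h1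
    calc a⁻¹ (z i) = (a⁻¹ t)⁻¹ * (a⁻¹ t * a⁻¹ (z i) * (a⁻¹ t)⁻¹) * a⁻¹ t := by group
      _ = (a⁻¹ t)⁻¹ * z i * (a⁻¹ t)⁻¹⁻¹ := by rw [← h1, inv_inv]

theorem mem_ccl {T : Type} [Group T] {m : ℕ} (z : Fin m → T) (l : MulAut T) :
    l ∈ ccl z ↔ ∀ i, ∃ t, l (z i) = t * z i * t⁻¹ := Iff.rfl

theorem ccl_cj {T : Type} [Group T] (l : MulAut T) {a : T} (h : ∃ t, l a = t * a * t⁻¹) (x : T) :
    ∃ t, l (x * a * x⁻¹) = t * (x * a * x⁻¹) * t⁻¹ := by
  obtain ⟨t, ht⟩ := h
  refine ⟨l x * t * x⁻¹, ?_⟩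
  rw [map_mul, map_mul, map_inv, ht]
  group

/-- A family with more elements. -/
theorem gnr_pad {T : Type} [Group T] {m m' : ℕ} (h : m ≤ m') (z : Fin m → T) (hz : Gnr z) :
    ∃ z' : Fin m' → T, Gnr z' ∧ ∀ l, l ∈ ccl z → l ∈ ccl z' := by
  obtain ⟨z', h1, h2⟩ : ∃ z' : Fin m' → T, (∀ (i : Fin m') (hi : i.1 < m), z' i = z ⟨i.1, hi⟩) ∧
      ∀ i : Fin m', ¬ i.1 < m → z' i = 1 :=
    ⟨fun i => if hi : i.1 < m then z ⟨i.1, hi⟩ else 1, fun i hi => dif_pos hi,
      fun i hi => dif_neg hi⟩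
  refine ⟨z', fun R hR => hz R fun i => ?_, fun l hl i => ?_⟩
  · have h3 := hR ⟨i.1, lt_of_lt_of_le i.2 h⟩
    rw [h1 ⟨i.1, lt_of_lt_of_le i.2 h⟩ i.2] at h3
    exact h3
  · by_cases hi : i.1 < m
    · rw [h1 i hi]
      exact hl ⟨i.1, hi⟩
    · rw [h2 i hi]
      exact ⟨1, by rw [map_one]; group⟩

/-- The data of a layer: the range of `Ψ` is normal and acts trivially on the sets `Y k`; for every
`i` the subgroup `H i` is a supplement which acts on the functions whose values are powers of the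
elements `z i k` by permutations of the coordinates. -/
structure LD6 {G K : Type} [Group G] {Y T : K → Type} [∀ k, Group (T k)] {m : ℕ}
    (Ψ : (∀ k, Y k → T k) →* G) (ac : ∀ k, G →* Equiv.Perm (Y k)) (z : Fin m → ∀ k, T k)
    (H : Fin m → Subgroup G) : Prop where
  nml : Ψ.range.Normal
  act : ∀ n ∈ Ψ.range, ∀ k, ac k n = 1
  cov : ∀ i (g : G), ∃ h ∈ H i, ∃ n ∈ Ψ.range, g = h * n
  nrm : ∀ i, ∀ h ∈ H i, ∀ u : ∀ k, Y k → T k, (∀ k y, u k y ∈ Subgroup.zpowers (z i k)) →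
    h * Ψ u * h⁻¹ = Ψ (fun k y => u k ((ac k h)⁻¹ y))
  gen : ∀ k, Gnr (fun i => z i k)

/-- The elements which map the element `z i` of every component to the element `z i` (in the
coordinates). -/
def cHz {G X : Type} [Group G] {C : X → Subgroup G} {act : G →* Equiv.Perm X}
    {L : ∀ x, Subgroup (MulAut (C x))} (D : Crd C act L) {m : ℕ} (z : ∀ x, Fin m → C x)
    (i : Fin m) : Subgroup G where
  carrier := {g | ∀ (k : D.K) (y : D.Y k),
    g * D.ι k y (z (D.rep k) i) * g⁻¹ = D.ι k (D.ac k g y) (z (D.rep k) i)}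
  mul_mem' := by
    intro a b ha hb k y
    calc a * b * D.ι k y (z (D.rep k) i) * (a * b)⁻¹
        = a * (b * D.ι k y (z (D.rep k) i) * b⁻¹) * a⁻¹ := by group
      _ = D.ι k (D.ac k a (D.ac k b y)) (z (D.rep k) i) := by rw [hb k y, ha k (D.ac k b y)]
      _ = D.ι k (D.ac k (a * b) y) (z (D.rep k) i) := by
        rw [map_mul]
        rfl
  one_mem' := by
    intro k y
    rw [map_one]
    simp
  inv_mem' := by
    intro a ha k y
    have h1 := ha k (D.ac k a⁻¹ y)
    have h2 : D.ac k a (D.ac k a⁻¹ y) = y := by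
      rw [← Equiv.Perm.mul_apply, ← map_mul, mul_inv_cancel, map_one, Equiv.Perm.one_apply]
    rw [h2] at h1
    rw [← h1]
    group

end Pool.Agent.MPfe8e9bN
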