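import Mathlib
import Pool.Agent.Lib.MP_fe8e9b_al_M.Defs
import Pool.Agent.Lib.MP_fe8e9b_al_M.LDat
import Pool.Agent.Lib.MP_fe8e9b_al_M.CmpD
import Pool.Agent.Lib.MP_fe8e9b_al_M.CmpB
import Pool.Agent.Lib.MP_fe8e9b_al_M.PsiX
import Pool.Agent.Lib.MP_fe8e9b_al_M.LdX
import Pool.Agent.Lib.MP_fe8e9b_al_N.Defs
import Pool.Agent.Lib.MP_fe8e9b_al_N.Defs6

/-!
# MP_fe8e9b_al, groups of bounded height: the data of a layer of components, sixth version
-/

set_option autoImplicit false

open scoped BigOperators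

namespace Pool.Agent.MPfe8e9bN

open Pool.Agent.MPfe8e9b Pool.Agent.MPfe8e9bA Pool.Agent.MPfe8e9bW Pool.Agent.MPfe8e9bV
open Pool.Agent.MPfe8e9bM

/-- The number of automorphisms of a group generated by `m` elements.

Proof. An automorphism is determined by the images of the generators (the elements on which two
automorphisms agree form a subgroup): `Nat.card (MulAut T) ≤ Nat.card (Fin m → T)`
(`Nat.card_le_card_of_injective`), and `Nat.card (Fin m → T) = Nat.card T ^ m`. -/
theorem ccl_card {T : Type} [Group T] [Finite T] {m : ℕ} (z : Fin m → T) (hz : Gnr z)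
    (L : Subgroup (MulAut T)) : Nat.card L ≤ Nat.card T ^ m := by
  have hinj : Function.Injective fun (l : L) (i : Fin m) => (l : MulAut T) (z i) := by
    intro l l' hll
    apply Subtype.ext
    refine MulEquiv.ext fun t => ?_
    have h1 : ((l : MulAut T) : T →* T).eqLocus ((l' : MulAut T) : T →* T) = ⊤ :=
      hz _ fun i => congrFun hll i
    have h2 : t ∈ ((l : MulAut T) : T →* T).eqLocus ((l' : MulAut T) : T →* T) := by
      rw [h1]
      exact Subgroup.mem_top t
    exact h2
  have h3 := Nat.card_le_card_of_injective _ hinj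
  rwa [Nat.card_fun, Nat.card_eq_fintype_card (α := Fin m), Fintype.card_fin] at h3

open Classical in
/-- The data of the layer.

Proof. `nml`, `act`: as in `ld_x3` (file N/LdX3): the range of `Ψ` is `⨆ x, C x` (`psi_range`,
`crd_sup`), `cmp_normal`, `cmp_act`. `cov`: for `g` take `t k y`, `l k y ∈ ccl (z (rep k))` from
`D.cnj g k y`, and `r k y` with `l k y (z i) = r k y * z i * (r k y)⁻¹` (`mem_ccl`; `z i` is `z
(D.rep k) i`); then `g * ι k y (z i) * g⁻¹ = ι k (ac k g y) (t r * z i * (t r)⁻¹)`; `n = Ψ u` with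
`u k y = (t * r) k ((ac k g)⁻¹ y)`, `h = n⁻¹ * g ∈ cHz D z i`, `g = h * (h⁻¹ * n * h)`, as in
`ld_x3`. `nrm`: let `h ∈ cHz D z i`. For `k`, `y` let `l' k y = MulAut.conj t * l` with `t`, `l`
from `D.cnj h k y`; `h * ι k y s * h⁻¹ = ι k (ac k h y) (l' k y s)` for all `s`; by injectivity of
`ι` and `h ∈ cHz`, `l' k y (z i) = z i`, so `l' k y` fixes the powers of `z i`. `psi_conj` for one
`k`: `h * Ψ (mulSingle k v) * h⁻¹ = Ψ (mulSingle k (y ↦ v (π⁻¹ y)))` for `v : Y k → T k` with
values powers of `z i`. For general `u` use that `u` is the product of its parts `mulSingle k (u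
k)`: for a finite set `U` of types, the function which is `u k` for `k ∈ U` and `1` outside
(induction on `U`, as in `maine_ind`, file M/MainE). `gen`: `hg (D.rep k)`. -/
theorem ld_x6 {G X : Type} [Group G] [Finite X] {C : X → Subgroup G}
    {act : G →* Equiv.Perm X} (hC : Cmp C act) {m : ℕ} (z : ∀ x, Fin m → C x)
    (hg : ∀ x, Gnr (z x)) (D : Crd C act (fun x => ccl (z x)))
    (Ψ : (∀ k, D.Y k → D.T k) →* G)
    (hΨ : ∀ k y t, Ψ (Pi.mulSingle k (Pi.mulSingle y t)) = D.ι k y t) :
    LD6 Ψ D.ac (fun i k => z (D.rep k) i) (cHz D z) := by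
  have hfK : Fintype D.K := D.fK
  have hΨ' : ∀ (k : D.K) (y : D.Y k) (t : D.T k),
      Ψ (Pi.mulSingle k (@Pi.mulSingle (D.Y k) (fun _ => D.T k) _
        (fun a b => Classical.propDecidable (a = b)) y t)) = D.ι k y t := by
    intro k y t
    rw [← hΨ k y t]
    congr 2
    exact congrArg (fun i => @Pi.mulSingle (D.Y k) (fun _ => D.T k) _ i y t)
      (Subsingleton.elim _ _)
  have hcm := crd_comm hC D
  have hR : Ψ.range = ⨆ x, C x := (psi_range D.ι Ψ hΨ').trans (crd_sup D)
  have hnor : Ψ.range.Normal := by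
    rw [hR]
    exact cmp_normal hC
  have hac : ∀ n ∈ Ψ.range, ∀ k, D.ac k n = 1 := by
    intro n hn k
    have h1 : act n = 1 := cmp_act hC n (by rwa [← hR])
    ext y
    show act n y.1 = y.1
    rw [h1, Equiv.Perm.one_apply]
  have hin := psi_inner D.ι hcm Ψ hΨ'
  refine ⟨hnor, hac, fun i g => ?_, fun i h hh => ?_, fun k => hg (D.rep k)⟩
  · choose t l hl hg' using D.cnj g
    have hr : ∀ (k : D.K) (y : D.Y k), ∃ r : D.T k,
        l k y (z (D.rep k) i) = r * z (D.rep k) i * r⁻¹ := fun k y => hl k y i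
    choose r hr using hr
    obtain ⟨u, hu⟩ : ∃ u : ∀ k, D.Y k → D.T k, ∀ k y, u k y =
        t k ((D.ac k g)⁻¹ y) * r k ((D.ac k g)⁻¹ y) :=
      ⟨fun k y => t k ((D.ac k g)⁻¹ y) * r k ((D.ac k g)⁻¹ y), fun _ _ => rfl⟩
    have hn : Ψ u ∈ Ψ.range := ⟨u, rfl⟩
    refine ⟨(Ψ u)⁻¹ * g, fun k y => ?_, ((Ψ u)⁻¹ * g)⁻¹ * Ψ u * ((Ψ u)⁻¹ * g), ?_, ?_⟩
    · have e1 : D.ac k ((Ψ u)⁻¹ * g) y = D.ac k g y := by
        rw [map_mul, hac _ (inv_mem hn) k, one_mul]
      have e2 : u k (D.ac k g y) = t k y * r k y := by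
        rw [hu, ldx_ia]
      have e3 : g * D.ι k y (z (D.rep k) i) * g⁻¹ = D.ι k (D.ac k g y)
          (t k y * (r k y * z (D.rep k) i * (r k y)⁻¹) * (t k y)⁻¹) := by
        rw [← hr k y]
        exact hg' k y (z (D.rep k) i)
      have e4 := hin u⁻¹ k (D.ac k g y)
        (t k y * (r k y * z (D.rep k) i * (r k y)⁻¹) * (t k y)⁻¹)
      have e5 : (u⁻¹) k (D.ac k g y) = (t k y * r k y)⁻¹ := by
        show (u k (D.ac k g y))⁻¹ = _
        rw [e2]
      rw [e5, map_inv, inv_inv, inv_inv] at e4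
      have e6 : (t k y * r k y)⁻¹ * (t k y * (r k y * z (D.rep k) i * (r k y)⁻¹) *
          (t k y)⁻¹) * (t k y * r k y) = z (D.rep k) i := by group
      rw [e6] at e4
      rw [e1, ← e4, ← e3]
      group
    · have h1 := hnor.conj_mem _ hn ((Ψ u)⁻¹ * g)⁻¹
      rwa [inv_inv] at h1
    · group
  · choose t l hl hg' using D.cnj h
    obtain ⟨l', hl'⟩ : ∃ l' : ∀ k, D.Y k → MulAut (D.T k), ∀ k y s,
        l' k y s = t k y * l k y s * (t k y)⁻¹ :=
      ⟨fun k y => MulAut.conj (t k y) * l k y, fun k y s => by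
        rw [MulAut.mul_apply, MulAut.conj_apply]⟩
    have hc : ∀ (k : D.K) (y : D.Y k) (s : D.T k),
        h * D.ι k y s * h⁻¹ = D.ι k (D.ac k h y) (l' k y s) := by
      intro k y s
      rw [hl']
      exact hg' k y s
    have hfix : ∀ (k : D.K) (y : D.Y k) (s : D.T k),
        s ∈ Subgroup.zpowers (z (D.rep k) i) → l' k y s = s := by
      intro k y s hs
      have h1 : l' k y (z (D.rep k) i) = z (D.rep k) i := by
        apply D.inj k (D.ac k h y)
        rw [← hc]
        exact hh k y
      obtain ⟨j, rfl⟩ := Subgroup.mem_zpowers_iff.1 hs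
      rw [map_zpow, h1]
    have key : ∀ (U : Finset D.K) (u : ∀ k, D.Y k → D.T k),
        (∀ k y, u k y ∈ Subgroup.zpowers (z (D.rep k) i)) → (∀ k, k ∉ U → u k = 1) →
        h * Ψ u * h⁻¹ = Ψ (fun k y => u k ((D.ac k h)⁻¹ y)) := by
      intro U
      induction U using Finset.induction_on with
      | empty =>
        intro u _ h1
        have h2 : u = 1 := funext fun k => h1 k (Finset.notMem_empty k)
        rw [h2, map_one, mul_one, mul_inv_cancel]
        symm
        exact map_one Ψ
      | insert k0 U hk0 ih =>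
        intro u hu h1
        obtain ⟨u', h2, h3⟩ : ∃ u' : ∀ k, D.Y k → D.T k, u' k0 = 1 ∧
            ∀ k, k ≠ k0 → u' k = u k :=
          ⟨Function.update u k0 1, Function.update_self _ _ _,
            fun k hk => Function.update_of_ne hk _ _⟩
        have h4 : u = Pi.mulSingle k0 (u k0) * u' := by
          funext k
          by_cases hk : k = k0
          · subst hk
            rw [Pi.mul_apply, Pi.mulSingle_eq_same, h2, mul_one]
          · rw [Pi.mul_apply, Pi.mulSingle_eq_of_ne hk, h3 k hk, one_mul]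
        have h5 := psi_conj D.ι Ψ hΨ' h k0 (D.ac k0 h) (l' k0) (fun y s => hc k0 y s) (u k0)
        have h6 := ih u' (fun k y => by
          by_cases hk : k = k0
          · subst hk
            rw [h2]
            exact one_mem _
          · rw [h3 k hk]
            exact hu k y) (fun k hk => by
          by_cases hk' : k = k0
          · rw [hk', h2]
          · rw [h3 k hk']
            exact h1 k fun hm => (Finset.mem_insert.1 hm).elim hk' hk)
        have h7 : (fun y : D.Y k0 => l' k0 ((D.ac k0 h)⁻¹ y) (u k0 ((D.ac k0 h)⁻¹ y))) =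
            fun y => u k0 ((D.ac k0 h)⁻¹ y) := by
          funext y
          exact hfix k0 _ _ (hu k0 _)
        rw [h7] at h5
        have h8 : (fun k y => u k ((D.ac k h)⁻¹ y) : ∀ k, D.Y k → D.T k) =
            Pi.mulSingle k0 (fun y => u k0 ((D.ac k0 h)⁻¹ y)) *
              (fun k y => u' k ((D.ac k h)⁻¹ y)) := by
          funext k
          by_cases hk : k = k0
          · subst hk
            rw [Pi.mul_apply, Pi.mulSingle_eq_same, h2]
            funext y
            rw [Pi.mul_apply, Pi.one_apply, mul_one]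
          · rw [Pi.mul_apply, Pi.mulSingle_eq_of_ne hk, h3 k hk, one_mul]
        rw [h8, map_mul, ← h5, ← h6]
        conv_lhs => rw [h4, map_mul]
        group
    exact fun u hu => key Finset.univ u hu fun k hk => absurd (Finset.mem_univ k) hk

end Pool.Agent.MPfe8e9bN
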