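import Mathlib
import Pool.Agent.Lib.MP_fe8e9b_al_N.Defs6
import Pool.Agent.Lib.MP_fe8e9b_al_N.DimL
import Pool.Agent.Lib.MP_fe8e9b_al_V.Irr
import Pool.Agent.Lib.MP_fe8e9b_al_M.PrB

/-!
# MP_fe8e9b_al, groups of bounded height: invariants of a family of subgroups
-/

set_option autoImplicit false

open scoped BigOperators

namespace Pool.Agent.MPfe8e9bN

open Pool.Agent.MPfe8e9b Pool.Agent.MPfe8e9bA Pool.Agent.MPfe8e9bW Pool.Agent.MPfe8e9bV
open Pool.Agent.MPfe8e9bM

private theorem dimf_int {V : Type} [NormedAddCommGroup V] [InnerProductSpace ℂ V]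
    [FiniteDimensional ℂ V] (U : Submodule ℂ V) {J : Type} (W : J → Submodule ℂ V)
    (hW : ∀ j, W j ≤ U) (s : Finset J) :
    Module.finrank ℂ U ≤ ∑ j ∈ s, (Module.finrank ℂ U - Module.finrank ℂ (W j)) +
      Module.finrank ℂ (U ⊓ s.inf W : Submodule ℂ V) := by
  classical
  induction s using Finset.induction_on with
  | empty =>
    rw [Finset.inf_empty, inf_top_eq]
    omega
  | insert a s ha ih =>
    rw [Finset.sum_insert ha, Finset.inf_insert]
    have h1 := Submodule.finrank_sup_add_finrank_inf_eq (U ⊓ s.inf W) (W a)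
    have h2 : Module.finrank ℂ ((U ⊓ s.inf W) ⊔ W a : Submodule ℂ V) ≤ Module.finrank ℂ U :=
      Submodule.finrank_mono (sup_le inf_le_left (hW a))
    have h3 : (U ⊓ (W a ⊓ s.inf W) : Submodule ℂ V) = (U ⊓ s.inf W) ⊓ W a := by
      rw [inf_comm (W a), inf_assoc]
    have h5 : Module.finrank ℂ (W a) ≤ Module.finrank ℂ U := Submodule.finrank_mono (hW a)
    rw [h3]
    omega

/-- The stabilizer of a vector. -/
private def dimf_stab {T : Type} [Group T] {V : Type} [NormedAddCommGroup V]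
    [InnerProductSpace ℂ V] (ρ : T →* (V ≃ₗᵢ[ℂ] V)) (x : V) : Subgroup T where
  carrier := {t | ρ t x = x}
  mul_mem' := fun {a b} ha hb => by
    show ρ (a * b) x = x
    rw [map_mul]
    show ρ a (ρ b x) = x
    rw [show ρ b x = x from hb, show ρ a x = x from ha]
  one_mem' := by
    show ρ 1 x = x
    rw [map_one]
    rfl
  inv_mem' := fun {a} ha => by
    show ρ a⁻¹ x = x
    have ha' : ρ a x = x := ha
    have h3 : ρ a⁻¹ (ρ a x) = (ρ (a⁻¹ * a)) x := by
      rw [map_mul]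
      rfl
    rw [ha', inv_mul_cancel, map_one] at h3
    exact h3

/-- Dimensions. Let `U` be a finite-dimensional invariant subspace without `T`-invariants, and `T`
generated by the subgroups `S i`, `W i` the space of the `S i`-invariants in `U`. Then
`dim U ≤ ∑ i, (dim U - dim (W i))`.

Proof. As `diml_dim` (file N/DimL, whose auxiliary lemmas are private, copy them): the intersection
of `U` and the `W i` is zero (the stabilizer of a vector in it is a subgroup containing all `S i`,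
so it is `⊤`), and the codimension of an intersection is at most the sum of the codimensions
(induction on a finite set of indices, `Submodule.finrank_sup_add_finrank_inf_eq`). -/
theorem dimf_dim {T : Type} [Group T] {m : ℕ} (S : Fin m → Subgroup T)
    (hg : ∀ R : Subgroup T, (∀ i, S i ≤ R) → R = ⊤) {V : Type} [NormedAddCommGroup V]
    [InnerProductSpace ℂ V] [FiniteDimensional ℂ V] (ρ : T →* (V ≃ₗᵢ[ℂ] V)) (U : Submodule ℂ V)
    (h0 : ∀ x ∈ U, (∀ t, ρ t x = x) → x = 0) (W : Fin m → Submodule ℂ V)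
    (hW : ∀ i x, x ∈ W i ↔ x ∈ U ∧ ∀ s ∈ S i, ρ s x = x) :
    Module.finrank ℂ U ≤ ∑ i, (Module.finrank ℂ U - Module.finrank ℂ (W i)) := by
  have hWU : ∀ i, W i ≤ U := fun i y hy => ((hW i y).1 hy).1
  have h1 := dimf_int U W hWU Finset.univ
  have h2 : (U ⊓ Finset.univ.inf W : Submodule ℂ V) = ⊥ := by
    rw [eq_bot_iff]
    rintro x ⟨hxU, hx⟩
    rw [Submodule.mem_bot]
    refine h0 x hxU fun t => ?_
    have hR : dimf_stab ρ x = ⊤ := by
      refine hg (dimf_stab ρ x) fun i s hs => ?_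
      have hxi : x ∈ W i := (Finset.inf_le (f := W) (Finset.mem_univ i)) hx
      exact ((hW i x).1 hxi).2 s hs
    have ht : t ∈ dimf_stab ρ x := by
      rw [hR]
      trivial
    exact ht
  rw [h2, finrank_bot, add_zero] at h1
  exact h1

private theorem dimf_isP {H : Type} [Group H] [Fintype H] {V : Type} [NormedAddCommGroup V]
    [InnerProductSpace ℂ V] (ρ : H →* (V ≃ₗᵢ[ℂ] V)) : IsP (av ρ) :=
  ⟨av_symm ρ, av_idem ρ⟩

private theorem dimf_rho {T : Type} [Group T] {V : Type} [NormedAddCommGroup V]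
    [InnerProductSpace ℂ V] (ρ : T →* (V ≃ₗᵢ[ℂ] V)) (a b : T) (v : V) :
    ρ a (ρ b v) = ρ (a * b) v := by
  rw [map_mul]
  rfl

private theorem dimf_av_mem {H : Type} [Group H] [Fintype H] {V : Type} [NormedAddCommGroup V]
    [InnerProductSpace ℂ V] (ρ : H →* (V ≃ₗᵢ[ℂ] V)) {U : Submodule ℂ V}
    (hU : ∀ h, ∀ x ∈ U, ρ h x ∈ U) {x : V} (hx : x ∈ U) : av ρ x ∈ U := by
  rw [av_apply]
  exact U.smul_mem _ (U.sum_mem fun h _ => hU h x hx)

/-- The trace of the mean of the conjugates of a projection. -/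
private theorem dimf_tr {T : Type} [Group T] [Fintype T] {V : Type} [NormedAddCommGroup V]
    [InnerProductSpace ℂ V] [FiniteDimensional ℂ V] (ρ : T →* (V ≃ₗᵢ[ℂ] V)) (P : V →ₗ[ℂ] V)
    (hP : ∀ v, P (P v) = P v) (U : Submodule ℂ V) (hU : InvS ρ U) (hPU : ∀ x ∈ U, P x ∈ U)
    (z : ℂ) (hz : ∀ x ∈ U, ((Fintype.card T : ℂ))⁻¹ • ∑ t, ρ t⁻¹ (P (ρ t x)) = z • x)
    (W : Submodule ℂ V) (hW : ∀ x, x ∈ W ↔ x ∈ U ∧ P x = x) :
    z * (Module.finrank ℂ U : ℂ) = (Module.finrank ℂ W : ℂ) := by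
  let r : T → (U →ₗ[ℂ] U) := fun t =>
    ((ρ t).toLinearEquiv.toLinearMap).restrict (p := U) (q := U) fun x hx => hU t x hx
  let PU : U →ₗ[ℂ] U := P.restrict (p := U) (q := U) hPU
  have hr : ∀ t, r t * r t⁻¹ = 1 := by
    intro t
    ext x
    show ρ t (ρ t⁻¹ (x : V)) = x
    rw [dimf_rho, mul_inv_cancel, map_one]
    rfl
  have h1 : ((Fintype.card T : ℂ))⁻¹ • ∑ t, r t⁻¹ * (PU * r t) = z • (1 : U →ₗ[ℂ] U) := by
    ext x
    have h2 := hz x x.2
    rw [LinearMap.smul_apply, LinearMap.smul_apply, LinearMap.sum_apply]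
    rw [Submodule.coe_smul, Submodule.coe_smul, Submodule.coe_sum]
    exact h2
  have h2 := congrArg (LinearMap.trace ℂ U) h1
  rw [map_smul, map_smul, map_sum, LinearMap.trace_one, smul_eq_mul, smul_eq_mul] at h2
  have h3 : ∀ t, LinearMap.trace ℂ U (r t⁻¹ * (PU * r t)) = LinearMap.trace ℂ U PU := by
    intro t
    rw [LinearMap.trace_mul_comm, mul_assoc, hr, mul_one]
  have hc : (Fintype.card T : ℂ) ≠ 0 := by exact_mod_cast Fintype.card_ne_zero
  rw [Finset.sum_congr rfl fun t _ => h3 t, Finset.sum_const, Finset.card_univ, nsmul_eq_mul,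
    inv_mul_cancel_left₀ hc] at h2
  rw [← h2]
  let W' : Submodule ℂ U := W.comap U.subtype
  have h4 : LinearMap.IsProj W' PU := by
    refine ⟨fun x => ?_, fun x hx => ?_⟩
    · show P (x : V) ∈ W
      exact (hW _).2 ⟨hPU _ x.2, hP _⟩
    · exact Subtype.ext ((hW _).1 hx).2
  rw [h4.trace]
  congr 1
  have h5 : W'.map U.subtype = W := by
    rw [Submodule.map_comap_subtype, inf_eq_right]
    exact fun x hx => ((hW x).1 hx).1
  rw [← h5, Submodule.finrank_map_subtype_eq]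

/-- A minimal invariant subspace and a subgroup. -/
private theorem dimf_min {T : Type} [Group T] [Fintype T] (S0 : Subgroup T) [Fintype S0]
    {V : Type} [NormedAddCommGroup V] [InnerProductSpace ℂ V] [FiniteDimensional ℂ V]
    (ρ : T →* (V ≃ₗᵢ[ℂ] V)) (U : Submodule ℂ V) (hmin : MinS ρ U) :
    ∃ (r : ℝ) (W : Submodule ℂ V), (∀ y, y ∈ W ↔ y ∈ U ∧ ∀ s ∈ S0, ρ s y = y) ∧
      r * (Module.finrank ℂ U : ℝ) = (Module.finrank ℂ W : ℝ) ∧
      ∀ x ∈ U, mn (fun t : T => ‖av (ρ.comp S0.subtype) (ρ t x)‖ ^ 2) = r * ‖x‖ ^ 2 := by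
  have hP := dimf_isP (ρ.comp S0.subtype)
  have hPU : ∀ y ∈ U, av (ρ.comp S0.subtype) y ∈ U := fun y hy =>
    dimf_av_mem (ρ.comp S0.subtype) (fun s w hw => hmin.1 _ w hw) hy
  let Z : V →ₗ[ℂ] V := ((Fintype.card T : ℂ))⁻¹ • ∑ t : T,
    (ρ t⁻¹).toLinearEquiv.toLinearMap ∘ₗ (av (ρ.comp S0.subtype)) ∘ₗ
      (ρ t).toLinearEquiv.toLinearMap
  have hZ : ∀ y, Z y = ((Fintype.card T : ℂ))⁻¹ •
      ∑ t, ρ t⁻¹ (av (ρ.comp S0.subtype) (ρ t y)) := by
    intro y
    show (((Fintype.card T : ℂ))⁻¹ • ∑ t : T,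
      (ρ t⁻¹).toLinearEquiv.toLinearMap ∘ₗ (av (ρ.comp S0.subtype)) ∘ₗ
        (ρ t).toLinearEquiv.toLinearMap) y = _
    rw [LinearMap.smul_apply, LinearMap.sum_apply]
    rfl
  obtain ⟨z, hz⟩ := schur ρ U hmin Z (fun g y => by
    rw [hZ, hZ, map_smul, map_sum]
    congr 1
    refine Fintype.sum_equiv (Equiv.mulRight g) _ _ fun t => ?_
    rw [Equiv.coe_mulRight, dimf_rho, dimf_rho, mul_inv_rev, mul_inv_cancel_left])
    (fun y hy => by
      rw [hZ]
      exact U.smul_mem _ (U.sum_mem fun t _ => hmin.1 _ _ (hPU _ (hmin.1 _ _ hy))))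
  let W : Submodule ℂ V := U ⊓ LinearMap.ker (av (ρ.comp S0.subtype) - LinearMap.id)
  have hW : ∀ y, y ∈ W ↔ y ∈ U ∧ av (ρ.comp S0.subtype) y = y := by
    intro y
    rw [Submodule.mem_inf, LinearMap.mem_ker, LinearMap.sub_apply, LinearMap.id_apply,
      sub_eq_zero]
  have htr := dimf_tr ρ (av (ρ.comp S0.subtype)) hP.2 U hmin.1 hPU z
    (fun y hy => by rw [← hZ, hz y hy]) W hW
  refine ⟨z.re, W, fun y => ?_, ?_, fun x hxU => ?_⟩
  · rw [hW, av_eq_iff]
    exact ⟨fun h => ⟨h.1, fun s hs => h.2 ⟨s, hs⟩⟩, fun h => ⟨h.1, fun s => h.2 s s.2⟩⟩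
  · have h1 := congrArg Complex.re htr
    rw [Complex.mul_re, Complex.natCast_re, Complex.natCast_im, Complex.natCast_re, mul_zero,
      sub_zero] at h1
    exact h1
  · have h1 : ∀ t : T, ‖av (ρ.comp S0.subtype) (ρ t x)‖ ^ 2 =
        (inner ℂ (ρ t⁻¹ (av (ρ.comp S0.subtype) (ρ t x))) x).re := by
      intro t
      rw [av_inner_rho, inv_inv, isP_re hP]
    simp only [h1]
    have h2 : inner ℂ (Z x) x = ((((Fintype.card T : ℝ))⁻¹ : ℝ) : ℂ) *
        ∑ t, inner ℂ (ρ t⁻¹ (av (ρ.comp S0.subtype) (ρ t x))) x := by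
      rw [hZ, inner_smul_left, sum_inner, map_inv₀, Complex.conj_natCast]
      push_cast
      rfl
    have h3 : inner ℂ (Z x) x = (starRingEnd ℂ) z * ((‖x‖ ^ 2 : ℝ) : ℂ) := by
      rw [hz x hxU, inner_smul_left, inner_self_eq_norm_sq_to_K]
      norm_cast
    rw [h2] at h3
    have h4 := congrArg Complex.re h3
    rw [Complex.re_ofReal_mul, Complex.re_sum, Complex.re_mul_ofReal, Complex.conj_re] at h4
    exact h4

/-- Additivity on orthogonal invariant pieces. -/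
private theorem dimf_add {T : Type} [Group T] [Fintype T] (S0 : Subgroup T) [Fintype S0]
    {V : Type} [NormedAddCommGroup V] [InnerProductSpace ℂ V] [FiniteDimensional ℂ V]
    (ρ : T →* (V ≃ₗᵢ[ℂ] V)) (x y : V) (horth : ∀ γ γ', inner ℂ (ρ γ x) (ρ γ' y) = 0) :
    mn (fun t : T => ‖av (ρ.comp S0.subtype) (ρ t (x + y))‖ ^ 2) =
      mn (fun t : T => ‖av (ρ.comp S0.subtype) (ρ t x)‖ ^ 2) +
      mn (fun t : T => ‖av (ρ.comp S0.subtype) (ρ t y)‖ ^ 2) := by
  have hP := dimf_isP (ρ.comp S0.subtype)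
  have h3 : ∀ t : T, ‖av (ρ.comp S0.subtype) (ρ t (x + y))‖ ^ 2 =
      ‖av (ρ.comp S0.subtype) (ρ t x)‖ ^ 2 + ‖av (ρ.comp S0.subtype) (ρ t y)‖ ^ 2 := by
    intro t
    have h4 : inner ℂ (av (ρ.comp S0.subtype) (ρ t x)) (av (ρ.comp S0.subtype) (ρ t y)) = 0 := by
      rw [← hP.1, hP.2, av_apply, inner_smul_left, sum_inner]
      rw [Finset.sum_eq_zero fun s _ => ?_, mul_zero]
      show inner ℂ (ρ (s : T) (ρ t x)) (ρ t y) = 0
      rw [dimf_rho]
      exact horth _ _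
    rw [map_add, map_add]
    have h5 := norm_add_sq (𝕜 := ℂ) (av (ρ.comp S0.subtype) (ρ t x))
      (av (ρ.comp S0.subtype) (ρ t y))
    rw [h4] at h5
    rw [h5]
    simp
  simp only [h3]
  rw [mn_add]

/-- The mean norms of the projections of the orbit of a vector on the invariants of a family of
subgroups which generate the group.

Proof. As `dim_l` (file N/DimL; copy the private lemmas you need, `diml_tr` etc.): `irr_ind` with
`C x := av ρ x = 0` and the property of the statement. It is additive on orthogonal invariant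
pieces (same proof for every `i`, sum over `i`). On a minimal invariant subspace `U` with a vector
`x ≠ 0`, `av ρ x = 0`: for every `i` the operator `Z i` = mean over `t` of `ρ t⁻¹ ∘ P i ∘ ρ t`,
`P i = av (ρ.comp (S i).subtype)`, is a scalar `z i` (`schur`) with `z i * dim U = dim (W i)`, and
`mn_t ‖P i (ρ t x)‖² = (z i).re * ‖x‖²`; by `dimf_dim`, `∑ i, (1 - (z i).re) ≥ 1`. -/
theorem dim_f {T : Type} [Group T] [Fintype T] {m : ℕ} (S : Fin m → Subgroup T)
    [∀ i, Fintype (S i)] (hg : ∀ R : Subgroup T, (∀ i, S i ≤ R) → R = ⊤) {V : Type}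
    [NormedAddCommGroup V] [InnerProductSpace ℂ V] [FiniteDimensional ℂ V]
    (ρ : T →* (V ≃ₗᵢ[ℂ] V)) (v : V) (hv : av ρ v = 0) :
    ‖v‖ ^ 2 ≤ ∑ i, (‖v‖ ^ 2 -
      mn (fun t : T => ‖av (ρ.comp (S i).subtype) (ρ t v)‖ ^ 2)) := by
  refine irr_ind ρ (fun x => av ρ x = 0) (fun x => ‖x‖ ^ 2 ≤ ∑ i, (‖x‖ ^ 2 -
      mn (fun t : T => ‖av (ρ.comp (S i).subtype) (ρ t x)‖ ^ 2))) ?_ ?_ ?_ v hv
  · intro F hF x hx
    show av ρ (F x) = 0
    have hx' : av ρ x = 0 := hx
    have h1 : av ρ (F x) = F (av ρ x) := by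
      rw [av_apply, av_apply, map_smul, map_sum]
      congr 1
      exact Finset.sum_congr rfl fun t _ => (hF t x).symm
    rw [h1, hx', map_zero]
  · intro U hmin x hxU hx
    have hx' : av ρ x = 0 := hx
    choose r W hW hr hval using fun i => dimf_min (S i) ρ U hmin
    show ‖x‖ ^ 2 ≤ ∑ i, (‖x‖ ^ 2 -
      mn (fun t : T => ‖av (ρ.comp (S i).subtype) (ρ t x)‖ ^ 2))
    have h1 : ∀ i, ‖x‖ ^ 2 - mn (fun t : T => ‖av (ρ.comp (S i).subtype) (ρ t x)‖ ^ 2) =
        (1 - r i) * ‖x‖ ^ 2 := by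
      intro i
      rw [hval i x hxU]
      ring
    rw [Finset.sum_congr rfl fun i _ => h1 i, ← Finset.sum_mul]
    by_cases hx0 : x = 0
    · subst hx0
      rw [norm_zero]
      norm_num
    have hU0 : ∀ y ∈ U, (∀ t, ρ t y = y) → y = 0 := by
      let U' : Submodule ℂ V := U ⊓ LinearMap.ker (av ρ - LinearMap.id)
      have hU' : ∀ y, y ∈ U' ↔ y ∈ U ∧ av ρ y = y := by
        intro y
        rw [Submodule.mem_inf, LinearMap.mem_ker, LinearMap.sub_apply, LinearMap.id_apply,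
          sub_eq_zero]
      have hinv : InvS ρ U' := by
        intro g y hy
        have h2 := (hU' y).1 hy
        have h3 : ρ g y = y := (av_eq_iff ρ).1 h2.2 g
        rw [h3]
        exact hy
      rcases hmin.2 U' inf_le_left hinv with h1 | h1
      · intro y hy hfix
        have h2 : y ∈ U' := (hU' y).2 ⟨hy, av_of_fix ρ hfix⟩
        rw [h1, Submodule.mem_bot] at h2
        exact h2
      · exfalso
        rw [← h1] at hxU
        have h2 := ((hU' x).1 hxU).2
        rw [hx'] at h2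
        exact hx0 h2.symm
    have hdim := dimf_dim S hg ρ U hU0 W hW
    have hUpos : 0 < Module.finrank ℂ U := by
      rw [Module.finrank_pos_iff_exists_ne_zero]
      exact ⟨⟨x, hxU⟩, fun h => hx0 (congrArg Subtype.val h)⟩
    have hUp' : (0 : ℝ) < Module.finrank ℂ U := by exact_mod_cast hUpos
    have hWU : ∀ i, Module.finrank ℂ (W i) ≤ Module.finrank ℂ U := fun i =>
      Submodule.finrank_mono fun y hy => ((hW i y).1 hy).1
    have h2 : (Module.finrank ℂ U : ℝ) ≤ ∑ i, (1 - r i) * (Module.finrank ℂ U : ℝ) := by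
      have h3 : ((Module.finrank ℂ U : ℕ) : ℝ) ≤
          ((∑ i, (Module.finrank ℂ U - Module.finrank ℂ (W i)) : ℕ) : ℝ) := by
        exact_mod_cast hdim
      rw [Nat.cast_sum] at h3
      refine h3.trans (le_of_eq (Finset.sum_congr rfl fun i _ => ?_))
      rw [Nat.cast_sub (hWU i), ← hr i]
      ring
    rw [← Finset.sum_mul] at h2
    have h4 : 1 ≤ ∑ i, (1 - r i) := by
      have h5 : 1 * (Module.finrank ℂ U : ℝ) ≤ (∑ i, (1 - r i)) * (Module.finrank ℂ U : ℝ) := by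
        rw [one_mul]
        exact h2
      exact le_of_mul_le_mul_right h5 hUp'
    nlinarith [sq_nonneg ‖x‖]
  · intro x y hx hy horth h1 h2
    have h4 : ‖x + y‖ ^ 2 = ‖x‖ ^ 2 + ‖y‖ ^ 2 := by
      have h5 := norm_add_sq (𝕜 := ℂ) x y
      have h6 := horth 1 1
      rw [map_one] at h6
      have h7 : inner ℂ x y = 0 := h6
      rw [h7] at h5
      rw [h5]
      simp
    show ‖x + y‖ ^ 2 ≤ ∑ i, (‖x + y‖ ^ 2 -
      mn (fun t : T => ‖av (ρ.comp (S i).subtype) (ρ t (x + y))‖ ^ 2))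
    have h5 : ∀ i, ‖x + y‖ ^ 2 -
        mn (fun t : T => ‖av (ρ.comp (S i).subtype) (ρ t (x + y))‖ ^ 2) =
        (‖x‖ ^ 2 - mn (fun t : T => ‖av (ρ.comp (S i).subtype) (ρ t x)‖ ^ 2)) +
        (‖y‖ ^ 2 - mn (fun t : T => ‖av (ρ.comp (S i).subtype) (ρ t y)‖ ^ 2)) := by
      intro i
      rw [dimf_add (S i) ρ x y horth, h4]
      ring
    rw [Finset.sum_congr rfl fun i _ => h5 i, Finset.sum_add_distrib, h4]
    exact add_le_add h1 h2

end Pool.Agent.MPfe8e9bN
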