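import Mathlib
import Pool.Agent.Lib.MP_fe8e9b_al_N.Defs6
import Pool.Agent.Lib.MP_fe8e9b_al_M.PrB
import Pool.Agent.Lib.MP_fe8e9b_al_M.Tele2

/-!
# MP_fe8e9b_al, groups of bounded height: telescoping with several families of projections
-/

set_option autoImplicit false

open scoped BigOperators

namespace Pool.Agent.MPfe8e9bN

open Pool.Agent.MPfe8e9b Pool.Agent.MPfe8e9bA Pool.Agent.MPfe8e9bW Pool.Agent.MPfe8e9bV
open Pool.Agent.MPfe8e9bM

/-- The product of the operators of a list. -/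
private noncomputable def tele6_L {V K : Type} [NormedAddCommGroup V] [InnerProductSpace ℂ V]
    (P : K → V →ₗ[ℂ] V) : List K → V →ₗ[ℂ] V
  | [] => LinearMap.id
  | k :: L => P k ∘ₗ tele6_L P L

section

variable {V K : Type} [NormedAddCommGroup V] [InnerProductSpace ℂ V]

private theorem tele6_cons (P : K → V →ₗ[ℂ] V) (k : K) (L : List K) (v : V) :
    tele6_L P (k :: L) v = P k (tele6_L P L v) := rfl

private theorem tele6_comm (P : K → V →ₗ[ℂ] V) (A : V →ₗ[ℂ] V) (L : List K)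
    (h : ∀ j ∈ L, ∀ v, A (P j v) = P j (A v)) (v : V) :
    A (tele6_L P L v) = tele6_L P L (A v) := by
  induction L with
  | nil => rfl
  | cons k L ih =>
    rw [tele6_cons, tele6_cons, h k List.mem_cons_self,
      ih fun j hj => h j (List.mem_cons_of_mem k hj)]

private theorem tele6_isP (P : K → V →ₗ[ℂ] V) (hP : ∀ k, IsP (P k))
    (hPP : ∀ j k, j ≠ k → ∀ v, P j (P k v) = P k (P j v)) (L : List K) (hL : L.Nodup) :
    IsP (tele6_L P L) := by
  induction L with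
  | nil => exact isP_id
  | cons k L ih =>
    have h1 := List.nodup_cons.1 hL
    refine isP_comp (hP k) (ih h1.2) fun v => ?_
    exact tele6_comm P (P k) L (fun j hj w => hPP k j (fun e => h1.1 (e ▸ hj)) w) v

private theorem tele6_fix (P : K → V →ₗ[ℂ] V) (hP : ∀ k, IsP (P k))
    (hPP : ∀ j k, j ≠ k → ∀ v, P j (P k v) = P k (P j v)) (L : List K) (hL : L.Nodup)
    (k : K) (hk : k ∈ L) (v : V) : P k (tele6_L P L v) = tele6_L P L v := by
  induction L with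
  | nil => exact absurd hk (by simp)
  | cons j L ih =>
    have h1 := List.nodup_cons.1 hL
    rw [tele6_cons]
    by_cases hkj : k = j
    · rw [hkj, (hP j).2]
    · rw [hPP k j hkj, ih h1.2 ((List.mem_cons.1 hk).resolve_left hkj)]

private theorem tele6_pyth {A : V →ₗ[ℂ] V} (hA : IsP A) (a b : V) (ha : A a = 0) (hb : A b = b) :
    ‖a + b‖ ^ 2 = ‖a‖ ^ 2 + ‖b‖ ^ 2 := by
  have h1 := isP_norm_sq hA (a + b)
  rw [map_add, ha, hb, zero_add, add_sub_cancel_right] at h1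
  rw [h1]
  ring

private theorem tele6_step (P : K → V →ₗ[ℂ] V) (hP : ∀ k, IsP (P k))
    (hPP : ∀ j k, j ≠ k → ∀ v, P j (P k v) = P k (P j v)) (k : K) (L : List K)
    (hL : (k :: L).Nodup) (x : V) :
    ‖x - tele6_L P (k :: L) x‖ ^ 2 =
      ‖x - P k x‖ ^ 2 + ‖P k x - tele6_L P L (P k x)‖ ^ 2 := by
  have h1 := List.nodup_cons.1 hL
  have hc : ∀ v, P k (tele6_L P L v) = tele6_L P L (P k v) := fun v =>
    tele6_comm P (P k) L (fun j hj w => hPP k j (fun e => h1.1 (e ▸ hj)) w) v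
  have h2 : x - tele6_L P (k :: L) x = (x - P k x) + (P k x - tele6_L P L (P k x)) := by
    rw [tele6_cons, hc]
    abel
  rw [h2]
  refine tele6_pyth (hP k) _ _ ?_ ?_
  · rw [map_sub, (hP k).2, sub_self]
  · rw [map_sub, (hP k).2, hc, (hP k).2]

private theorem tele6_main {m : ℕ} (P : K → V →ₗ[ℂ] V) (Q : Fin m → K → V →ₗ[ℂ] V)
    (hP : ∀ k, IsP (P k)) (hQ : ∀ i k, IsP (Q i k)) (hle : ∀ i k v, P k v = v → Q i k v = v)
    (hPP : ∀ j k, j ≠ k → ∀ v, P j (P k v) = P k (P j v))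
    (hPQ : ∀ i j k, j ≠ k → ∀ v, P j (Q i k v) = Q i k (P j v))
    (hQQ : ∀ i j k, j ≠ k → ∀ v, Q i j (Q i k v) = Q i k (Q i j v)) (U : Submodule ℂ V)
    (hU : ∀ k, ∀ v ∈ U, P k v ∈ U)
    (h : ∀ k, ∀ x ∈ U, ‖x - P k x‖ ^ 2 ≤ ∑ i, ‖x - Q i k x‖ ^ 2) (L : List K) (hL : L.Nodup) :
    ∀ x ∈ U, ‖x - tele6_L P L x‖ ^ 2 ≤ ∑ i, ‖x - tele6_L (Q i) L x‖ ^ 2 := by
  induction L with
  | nil =>
    intro x _
    change ‖x - x‖ ^ 2 ≤ ∑ i : Fin m, ‖x - x‖ ^ 2
    rw [sub_self, norm_zero]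
    simp
  | cons k L ih =>
    intro x hx
    have h1 := List.nodup_cons.1 hL
    have h2 := ih h1.2 (P k x) (hU k x hx)
    have h6 := h k x hx
    have h8 : ∀ i, ‖P k x - tele6_L (Q i) L (P k x)‖ ^ 2 ≤
        ‖Q i k x - tele6_L (Q i) L (Q i k x)‖ ^ 2 := by
      intro i
      have h3 : P k x - tele6_L (Q i) L (P k x) = P k (x - tele6_L (Q i) L x) := by
        rw [map_sub, tele6_comm (Q i) (P k) L
          fun j hj w => hPQ i k j (fun e => h1.1 (e ▸ hj)) w]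
      have h4 : Q i k x - tele6_L (Q i) L (Q i k x) = Q i k (x - tele6_L (Q i) L x) := by
        rw [map_sub, tele6_comm (Q i) (Q i k) L
          fun j hj w => hQQ i k j (fun e => h1.1 (e ▸ hj)) w]
      rw [h3, h4]
      exact pow_le_pow_left₀ (norm_nonneg _)
        (isP_le_norm (hQ i k) (hP k) (hle i k) _) 2
    have h9 : ∑ i, ‖x - tele6_L (Q i) (k :: L) x‖ ^ 2 =
        ∑ i, ‖x - Q i k x‖ ^ 2 + ∑ i, ‖Q i k x - tele6_L (Q i) L (Q i k x)‖ ^ 2 := by
      rw [← Finset.sum_add_distrib]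
      exact Finset.sum_congr rfl fun i _ => tele6_step (Q i) (hQ i) (hQQ i) k L hL x
    rw [tele6_step P hP hPP k L hL x, h9]
    exact add_le_add h6 (h2.trans (Finset.sum_le_sum fun i _ => h8 i))

end

/-- Telescoping with several families `Q i` of projections.

Proof. As `tele2` (file M/Tele2; its auxiliary lemmas are private, copy them): for a list `L` of
indices `k` without repetitions let `P_L`, `Q_{i,L}` be the products. By induction on `L`, for
`x ∈ U`: `‖x - P_L x‖² ≤ ∑ i, ‖x - Q_{i,L} x‖²` (`‖x - P_{k::L} x‖² = ‖x - P k x‖² +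
‖P k x - P_L (P k x)‖²`; the first term by `h`, the second by induction for `P k x ∈ U`, and
`P k x - Q_{i,L} (P k x) = P k (x - Q_{i,L} x)`, `‖P k w‖ ≤ ‖Q i k w‖`). At the end
`‖x - Q_{i,L} x‖ ≤ ‖x - z i‖` as `Q_{i,L} (z i) = z i`. -/
theorem tele6 {V : Type} [NormedAddCommGroup V] [InnerProductSpace ℂ V] {K : Type} [Fintype K]
    {m : ℕ} (P : K → V →ₗ[ℂ] V) (Q : Fin m → K → V →ₗ[ℂ] V) (hP : ∀ k, IsP (P k))
    (hQ : ∀ i k, IsP (Q i k)) (hle : ∀ i k v, P k v = v → Q i k v = v)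
    (hPP : ∀ j k, j ≠ k → ∀ v, P j (P k v) = P k (P j v))
    (hPQ : ∀ i j k, j ≠ k → ∀ v, P j (Q i k v) = Q i k (P j v))
    (hQQ : ∀ i j k, j ≠ k → ∀ v, Q i j (Q i k v) = Q i k (Q i j v)) (U : Submodule ℂ V)
    (hU : ∀ k, ∀ v ∈ U, P k v ∈ U)
    (h : ∀ k, ∀ x ∈ U, ‖x - P k x‖ ^ 2 ≤ ∑ i, ‖x - Q i k x‖ ^ 2) (x : V) (hx : x ∈ U)
    (z : Fin m → V) (hz : ∀ i k, Q i k (z i) = z i) :
    ∃ y, (∀ k, P k y = y) ∧ ‖x - y‖ ^ 2 ≤ ∑ i, ‖x - z i‖ ^ 2 := by
  have hL : (Finset.univ : Finset K).toList.Nodup := Finset.nodup_toList _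
  obtain ⟨L, hLe⟩ : ∃ L, L = (Finset.univ : Finset K).toList := ⟨_, rfl⟩
  rw [← hLe] at hL
  refine ⟨tele6_L P L x, fun k => ?_, ?_⟩
  · refine tele6_fix P hP hPP L hL k ?_ x
    rw [hLe]
    exact Finset.mem_toList.2 (Finset.mem_univ k)
  · refine (tele6_main P Q hP hQ hle hPP hPQ hQQ U hU h L hL x hx).trans ?_
    refine Finset.sum_le_sum fun i _ => ?_
    have hz' : ∀ L : List K, tele6_L (Q i) L (z i) = z i := by
      intro L
      induction L with
      | nil => rfl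
      | cons k L ih => rw [tele6_cons, ih, hz]
    have h1 := isP_norm_sq (tele6_isP (Q i) (hQ i) (hQQ i) L hL) (x - z i)
    have h2 : x - z i - tele6_L (Q i) L (x - z i) = x - tele6_L (Q i) L x := by
      rw [map_sub, hz' L]
      abel
    rw [h2] at h1
    rw [h1]
    linarith [sq_nonneg ‖tele6_L (Q i) L (x - z i)‖]

end Pool.Agent.MPfe8e9bN
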