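import Mathlib
import Pool.Agent.Lib.MP_fe8e9b_al_N.Defs6
import Pool.Agent.Lib.MP_fe8e9b_al_N.DimF
import Pool.Agent.Lib.MP_fe8e9b_al_N.Tele6
import Pool.Agent.Lib.MP_fe8e9b_al_N.JnC
import Pool.Agent.Lib.MP_fe8e9b_al_M.PrB
import Pool.Agent.Lib.MP_fe8e9b_al_M.PsiX

/-!
# MP_fe8e9b_al, groups of bounded height: functions with values in cyclic subgroups and constants
-/

set_option autoImplicit false

open scoped BigOperators

namespace Pool.Agent.MPfe8e9bN

open Pool.Agent.MPfe8e9b Pool.Agent.MPfe8e9bA Pool.Agent.MPfe8e9bW Pool.Agent.MPfe8e9bV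
open Pool.Agent.MPfe8e9bM

open Classical in
/-- The elements at one site. -/
noncomputable def siF {K : Type} {S T : K → Type} [∀ k, Group (T k)] (k : K)
    (s : S k) : T k →* (∀ k, S k → T k) where
  toFun t := Pi.mulSingle k (Pi.mulSingle s t)
  map_one' := by
    rw [Pi.mulSingle_one, Pi.mulSingle_one]
  map_mul' a b := by
    rw [Pi.mulSingle_mul, Pi.mulSingle_mul]

private theorem jnf_av_comm {H : Type} [Group H] [Fintype H] {V : Type} [NormedAddCommGroup V]
    [InnerProductSpace ℂ V] (ρ : H →* (V ≃ₗᵢ[ℂ] V)) (P : V →ₗ[ℂ] V)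
    (h : ∀ h v, P (ρ h v) = ρ h (P v)) (v : V) : P (av ρ v) = av ρ (P v) := by
  rw [av_apply, av_apply, map_smul, map_sum]
  exact congrArg _ (Finset.sum_congr rfl fun x _ => h x v)

private theorem jnf_isP {H : Type} [Group H] [Fintype H] {V : Type} [NormedAddCommGroup V]
    [InnerProductSpace ℂ V] (ρ : H →* (V ≃ₗᵢ[ℂ] V)) : IsP (av ρ) :=
  ⟨av_symm ρ, av_idem ρ⟩

private theorem jnf_map {G : Type} [Group G] {V : Type} [NormedAddCommGroup V]
    [InnerProductSpace ℂ V] (ρ : G →* (V ≃ₗᵢ[ℂ] V)) (x y : G) (w : V) :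
    ρ (x * y) w = ρ x (ρ y w) := by
  rw [map_mul]
  rfl

private theorem jnfS_same {K : Type} {Y T : K → Type} [∀ k, Group (T k)] (k : K)
    (y : Y k) (t : T k) : siF k y t k y = t := by
  classical
  change (Pi.mulSingle k (Pi.mulSingle y t) : ∀ k, Y k → T k) k y = t
  rw [Pi.mulSingle_eq_same, Pi.mulSingle_eq_same]

private theorem jnfS_ne1 {K : Type} {Y T : K → Type} [∀ k, Group (T k)] (k : K)
    (y : Y k) (t : T k) {k' : K} (y' : Y k') (h : k' ≠ k) : siF k y t k' y' = 1 := by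
  classical
  change (Pi.mulSingle k (Pi.mulSingle y t) : ∀ k, Y k → T k) k' y' = 1
  rw [Pi.mulSingle_eq_of_ne h]
  rfl

private theorem jnfS_ne2 {K : Type} {Y T : K → Type} [∀ k, Group (T k)] (k : K)
    (y : Y k) (t : T k) (y' : Y k) (h : y' ≠ y) : siF k y t k y' = 1 := by
  classical
  change (Pi.mulSingle k (Pi.mulSingle y t) : ∀ k, Y k → T k) k y' = 1
  rw [Pi.mulSingle_eq_same, Pi.mulSingle_eq_of_ne h]

private theorem jnfS_comm {K : Type} {Y T : K → Type} [∀ k, Group (T k)] (k : K)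
    (y : Y k) (t : T k) (g : ∀ k, Y k → T k) :
    g * siF k y t = siF k y (g k y * t * (g k y)⁻¹) * g := by
  funext k' y'
  rw [Pi.mul_apply, Pi.mul_apply, Pi.mul_apply, Pi.mul_apply]
  by_cases hk : k' = k
  · subst hk
    by_cases hy : y' = y
    · subst hy
      rw [jnfS_same, jnfS_same]
      group
    · rw [jnfS_ne2 _ _ _ _ hy, jnfS_ne2 _ _ _ _ hy, mul_one, one_mul]
  · rw [jnfS_ne1 _ _ _ _ hk, jnfS_ne1 _ _ _ _ hk, mul_one, one_mul]

private theorem jnf_site_comm {K : Type} {S T : K → Type} [∀ k, Group (T k)]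
    [∀ k, Fintype (T k)] {V : Type} [NormedAddCommGroup V] [InnerProductSpace ℂ V]
    (σ : (∀ k, S k → T k) →* (V ≃ₗᵢ[ℂ] V)) (k : K) (s : S k) (g : ∀ k, S k → T k) (w : V) :
    av (σ.comp (siF k s)) (σ g w) = σ g (av (σ.comp (siF k s)) w) := by
  refine (av_comm (σ.comp (siF k s)) (σ g) (MulAut.conj (g k s)).toEquiv
    (fun t x => ?_) w).symm
  change σ g (σ (siF k s t) x) = σ (siF k s (g k s * t * (g k s)⁻¹)) (σ g x)
  rw [← jnf_map, ← jnf_map, jnfS_comm]

private theorem jnf_sub_comm {K : Type} {S T : K → Type} [∀ k, Group (T k)]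
    {V : Type} [NormedAddCommGroup V] [InnerProductSpace ℂ V]
    (σ : (∀ k, S k → T k) →* (V ≃ₗᵢ[ℂ] V)) (k : K) (s : S k) (A : Subgroup (T k)) [Fintype A]
    (g : ∀ k, S k → T k) (hg : g k s = 1) (w : V) :
    av ((σ.comp (siF k s)).comp A.subtype) (σ g w) =
      σ g (av ((σ.comp (siF k s)).comp A.subtype) w) := by
  refine (av_comm ((σ.comp (siF k s)).comp A.subtype) (σ g) (Equiv.refl A)
    (fun t x => ?_) w).symm
  change σ g (σ (siF k s (t : T k)) x) = σ (siF k s (t : T k)) (σ g x)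
  rw [← jnf_map, ← jnf_map, jnfS_comm, hg, one_mul, inv_one, mul_one]

/-- One site: `v` is fixed by all constants. Then the distances of `v` from the invariants of the
powers of the `z i k` at the site control the distance from the invariants of the site.

Proof. Let `τ = σ.comp (siF k s)`, `P = av τ`, `P i = av (τ.comp (zpowers (z i k)).subtype)`,
`w = v - P v`. Then `av τ w = 0`, and `P i (P v) = P v`, so `w - P i w = v - P i v` and
`‖w‖² - ‖P i w‖² = ‖v - P i v‖²` (`isP_norm_sq`). For `t : T k` let `c t` be the constant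
`fun k' _ => (Pi.mulSingle k t) k'`; `c t = siF k s t * r t` where `r t` is one at the site `(k, s)`
and commutes with all `siF k s u`. `σ (c t)` fixes `v`, and it commutes with `P` (`av_comm`, the
site group is normal), so it fixes `w`: `τ t w = σ (r t)⁻¹ w`, and `σ (r t)⁻¹` commutes with `P i`,
so `‖P i (τ t w)‖ = ‖P i w‖`. `dim_f` for `τ`, the subgroups `zpowers (z i k)` and `w` gives
`‖w‖² ≤ ∑ i, (‖w‖² - ‖P i w‖²)`. -/
theorem jnf_site {K : Type} [Fintype K] {S T : K → Type} [∀ k, Fintype (S k)]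
    [∀ k, Group (T k)] [∀ k, Fintype (T k)] {m : ℕ} {z : Fin m → ∀ k, T k}
    (hg : ∀ k, Gnr (fun i => z i k)) [∀ i k, Fintype (Subgroup.zpowers (z i k))] {V : Type}
    [NormedAddCommGroup V] [InnerProductSpace ℂ V] [FiniteDimensional ℂ V]
    (σ : (∀ k, S k → T k) →* (V ≃ₗᵢ[ℂ] V)) (k : K) (s : S k) (v : V)
    (hv : ∀ q : ∀ k, T k, σ (fun k _ => q k) v = v) :
    ‖v - av (σ.comp (siF k s)) v‖ ^ 2 ≤
      ∑ i, ‖v - av ((σ.comp (siF k s)).comp (Subgroup.zpowers (z i k)).subtype) v‖ ^ 2 := by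
  obtain ⟨τ, hτ⟩ : ∃ τ : T k →* (V ≃ₗᵢ[ℂ] V), τ = σ.comp (siF k s) := ⟨_, rfl⟩
  rw [← hτ]
  obtain ⟨w, hw⟩ : ∃ w : V, w = v - av τ v := ⟨_, rfl⟩
  have hw0 : av τ w = 0 := by
    rw [hw, map_sub, av_idem, sub_self]
  have hsub : ∀ i, ‖w‖ ^ 2 - ‖av (τ.comp (Subgroup.zpowers (z i k)).subtype) w‖ ^ 2 =
      ‖v - av (τ.comp (Subgroup.zpowers (z i k)).subtype) v‖ ^ 2 := by
    intro i
    have e1 : av (τ.comp (Subgroup.zpowers (z i k)).subtype) (av τ v) = av τ v :=
      av_of_fix _ fun t => rho_av τ (t : T k) v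
    have e2 := isP_norm_sq (jnf_isP (τ.comp (Subgroup.zpowers (z i k)).subtype)) w
    have e3 : w - av (τ.comp (Subgroup.zpowers (z i k)).subtype) w =
        v - av (τ.comp (Subgroup.zpowers (z i k)).subtype) v := by
      rw [hw, map_sub, e1]
      abel
    rw [e3] at e2
    rw [e2]
    ring
  have hmove : ∀ t : T k, ∃ g : ∀ k, S k → T k, g k s = 1 ∧ τ t w = σ g w := by
    intro t
    classical
    obtain ⟨c, hc⟩ : ∃ c : ∀ k, S k → T k, c = fun k' _ => (Pi.mulSingle k t : ∀ k, T k) k' :=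
      ⟨_, rfl⟩
    have hck : c k s = t := by
      rw [hc]
      exact Pi.mulSingle_eq_same k t
    have hcv : σ c v = v := by
      rw [hc]
      exact hv (Pi.mulSingle k t)
    have hcw : σ c w = w := by
      rw [hw, map_sub, hcv, hτ, ← jnf_site_comm, hcv]
    refine ⟨siF k s t * c⁻¹, ?_, ?_⟩
    · rw [Pi.mul_apply, Pi.mul_apply, Pi.inv_apply, Pi.inv_apply, hck, jnfS_same,
        mul_inv_cancel]
    · conv_rhs => rw [← hcw]
      rw [← jnf_map, inv_mul_cancel_right, hτ]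
      rfl
  have hmn : ∀ i, mn (fun t : T k =>
      ‖av (τ.comp (Subgroup.zpowers (z i k)).subtype) (τ t w)‖ ^ 2) =
      ‖av (τ.comp (Subgroup.zpowers (z i k)).subtype) w‖ ^ 2 := by
    intro i
    have e1 : (fun t : T k =>
        ‖av (τ.comp (Subgroup.zpowers (z i k)).subtype) (τ t w)‖ ^ 2) = fun _ : T k =>
        ‖av (τ.comp (Subgroup.zpowers (z i k)).subtype) w‖ ^ 2 := by
      funext t
      obtain ⟨g, hg1, hg2⟩ := hmove t
      rw [hg2, hτ, jnf_sub_comm σ k s (Subgroup.zpowers (z i k)) g hg1,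
        LinearIsometryEquiv.norm_map]
    rw [e1, mn_const]
  have h1 := dim_f (fun i => Subgroup.zpowers (z i k)) (fun R hR => hg k R fun i =>
    hR i (Subgroup.mem_zpowers (z i k))) τ w hw0
  rw [← hw]
  refine h1.trans (le_of_eq (Finset.sum_congr rfl fun i _ => ?_))
  rw [hmn, hsub]

/-- If all functions whose values are powers of the elements `z i k` (one `i`) and all constants
move `v` by at most `δ` then `v` is close to the invariants.

Proof. Let `C` be the group `∀ k, T k` of the constants, `v' = av (constants) v`, `‖v - v'‖ ≤ δ`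
(`norm_sub_av_le`), fixed by all constants. `tele6` for the sites (index type `Σ k, S k`),
`P (k, s) = av (σ.comp (siF k s))`,
`Q i (k, s) = av ((σ.comp (siF k s)).comp (zpowers (z i k)).subtype)`, `U` the space of the vectors
fixed by the constants (`P (k, s)` preserves it: `σ c` commutes with `P (k, s)`, `av_comm`),
`h` is `jnf_site`. `z i` = the average of `v` over the functions with values in the
`zpowers (z i k)`, `‖v - z i‖ ≤ δ`, so `‖v' - z i‖ ≤ 2 δ`. Commutation: elements at different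
sites commute. The result `y` is fixed by all sites, so by everything (`psi_ind`), and
`‖v' - y‖² ≤ 4 m δ²`; `‖v - av σ v‖ ≤ ‖v - y‖` (`av σ` is the projection on the invariants,
e.g. `v - av σ v = (v - y) - av σ (v - y)`). -/
theorem jn_f {K : Type} [Fintype K] {S T : K → Type} [∀ k, Fintype (S k)]
    [∀ k, Group (T k)] [∀ k, Fintype (T k)] [Fintype (∀ k, S k → T k)] {m : ℕ}
    {z : Fin m → ∀ k, T k} (hg : ∀ k, Gnr (fun i => z i k)) {V : Type}
    [NormedAddCommGroup V] [InnerProductSpace ℂ V] [FiniteDimensional ℂ V]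
    (σ : (∀ k, S k → T k) →* (V ≃ₗᵢ[ℂ] V)) (v : V) {δ : ℝ} (hδ : 0 ≤ δ)
    (h1 : ∀ i, ∀ u : ∀ k, S k → T k, (∀ k s, u k s ∈ Subgroup.zpowers (z i k)) →
      ‖σ u v - v‖ ≤ δ)
    (h2 : ∀ q : ∀ k, T k, ‖σ (fun k _ => q k) v - v‖ ≤ δ) :
    ‖v - av σ v‖ ≤ (1 + 2 * Real.sqrt m) * δ := by
  have i1 : ∀ i k, Fintype (Subgroup.zpowers (z i k)) := fun i k => Fintype.ofFinite _
  have i2 : ∀ i, Fintype (∀ k, S k → Subgroup.zpowers (z i k)) := fun i => Fintype.ofFinite _
  have i3 : Fintype (∀ k, T k) := Fintype.ofFinite _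
  obtain ⟨ιC, hιC⟩ : ∃ ιC : (∀ k, T k) →* (∀ k, S k → T k), ∀ q, ιC q = fun k _ => q k :=
    ⟨{ toFun := fun q k _ => q k, map_one' := rfl, map_mul' := fun _ _ => rfl }, fun _ => rfl⟩
  obtain ⟨ι, hι⟩ : ∃ ι : ∀ i, (∀ k, S k → Subgroup.zpowers (z i k)) →* (∀ k, S k → T k),
      ∀ i u, ι i u = fun k s => (u k s : T k) :=
    ⟨fun i => { toFun := fun u k s => u k s, map_one' := rfl, map_mul' := fun _ _ => rfl },
      fun _ _ => rfl⟩
  have hC : ∀ x, av (σ.comp ιC) x = x ↔ ∀ q : ∀ k, T k, σ (fun k _ => q k) x = x := by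
    intro x
    rw [av_eq_iff]
    refine ⟨fun h q => ?_, fun h q => ?_⟩
    · have h3 := h q
      rw [← hιC q]
      exact h3
    · change σ (ιC q) x = x
      rw [hιC q]
      exact h q
  obtain ⟨v', hv'⟩ : ∃ v' : V, v' = av (σ.comp ιC) v := ⟨_, rfl⟩
  have hvv : ‖v - v'‖ ≤ δ := by
    rw [hv']
    refine norm_sub_av_le _ _ fun q => ?_
    change ‖σ (ιC q) v - v‖ ≤ δ
    rw [hιC q]
    exact h2 q
  obtain ⟨z', hz'⟩ : ∃ z' : Fin m → V, ∀ i, z' i = av (σ.comp (ι i)) v := ⟨_, fun _ => rfl⟩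
  have hvz : ∀ i, ‖v - z' i‖ ≤ δ := by
    intro i
    rw [hz']
    refine norm_sub_av_le _ _ fun u => ?_
    change ‖σ (ι i u) v - v‖ ≤ δ
    refine h1 i (ι i u) fun k s => ?_
    rw [hι]
    exact (u k s).2
  have hU : ∀ w : V, w ∈ LinearMap.ker (av (σ.comp ιC) - LinearMap.id) ↔
      av (σ.comp ιC) w = w := by
    intro w
    rw [LinearMap.mem_ker, LinearMap.sub_apply, LinearMap.id_apply, sub_eq_zero]
  obtain ⟨y, hy1, hy2⟩ := tele6 (K := Σ k, S k)
    (fun p => av (σ.comp (siF p.1 p.2)))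
    (fun i p => av ((σ.comp (siF p.1 p.2)).comp (Subgroup.zpowers (z i p.1)).subtype))
    (fun p => jnf_isP _) (fun i p => jnf_isP _)
    (fun i p w hw => av_of_fix _ fun t => (av_eq_iff _).1 hw (t : T p.1))
    (fun p q _ w => jnf_av_comm (σ.comp (siF q.1 q.2)) _
      (fun t x => jnf_site_comm σ p.1 p.2 _ x) w)
    (fun i p q _ w => jnf_av_comm
      ((σ.comp (siF q.1 q.2)).comp (Subgroup.zpowers (z i q.1)).subtype) _
      (fun t x => jnf_site_comm σ p.1 p.2 _ x) w)
    (fun i p q hpq w => jnf_av_comm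
      ((σ.comp (siF q.1 q.2)).comp (Subgroup.zpowers (z i q.1)).subtype) _
      (fun t x => jnf_sub_comm σ p.1 p.2 _ (siF q.1 q.2 (t : T q.1)) (by
        obtain ⟨k, s⟩ := p
        obtain ⟨k', s'⟩ := q
        by_cases hk : k = k'
        · subst hk
          exact jnfS_ne2 _ _ _ _ fun h => hpq (by
            have h' : s = s' := h
            rw [h'])
        · exact jnfS_ne1 _ _ _ _ hk) x) w)
    (LinearMap.ker (av (σ.comp ιC) - LinearMap.id))
    (fun p w hw => by
      rw [hU] at hw ⊢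
      rw [← jnf_av_comm (σ.comp ιC) _ (fun t x => jnf_site_comm σ p.1 p.2 _ x) w, hw])
    (fun p x hx => jnf_site hg σ p.1 p.2 x ((hC x).1 ((hU x).1 hx)))
    v' ((hU v').2 (by rw [hv', av_idem])) z' (fun i p => by
      refine av_of_fix _ fun t => ?_
      change σ (siF p.1 p.2 (t : T p.1)) (z' i) = z' i
      obtain ⟨u, hu⟩ : ∃ u : ∀ k, S k → Subgroup.zpowers (z i k),
          ι i u = siF p.1 p.2 (t : T p.1) := by
        refine ⟨fun k s => ⟨siF p.1 p.2 (t : T p.1) k s, ?_⟩, ?_⟩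
        · obtain ⟨k', s'⟩ := p
          by_cases hk : k = k'
          · subst hk
            by_cases hs : s = s'
            · subst hs
              rw [jnfS_same]
              exact t.2
            · rw [jnfS_ne2 _ _ _ _ hs]
              exact one_mem _
          · rw [jnfS_ne1 _ _ _ _ hk]
            exact one_mem _
        · rw [hι]
      rw [← hu, hz']
      exact rho_av (σ.comp (ι i)) u v)
  have hfix : av σ y = y := by
    refine av_of_fix σ fun g => ?_
    refine psi_ind (fun g => σ g y = y) ?_ ?_ ?_ g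
    · rw [map_one]
      rfl
    · intro a b ha hb
      rw [jnf_map, hb, ha]
    · intro k s t
      exact (av_eq_iff _).1 (hy1 ⟨k, s⟩) t
  have hle : ∀ i, ‖v' - z' i‖ ≤ 2 * δ := by
    intro i
    have e1 := norm_sub_le_norm_sub_add_norm_sub v' v (z' i)
    have e2 := hvz i
    rw [norm_sub_rev v' v] at e1
    linarith
  have hsum : ‖v' - y‖ ^ 2 ≤ (m : ℝ) * (2 * δ) ^ 2 := by
    refine hy2.trans ?_
    have e1 : ∑ i : Fin m, ‖v' - z' i‖ ^ 2 ≤ ∑ _i : Fin m, (2 * δ) ^ 2 :=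
      Finset.sum_le_sum fun i _ => pow_le_pow_left₀ (norm_nonneg _) (hle i) 2
    rw [Finset.sum_const, Finset.card_univ, Fintype.card_fin, nsmul_eq_mul] at e1
    exact e1
  have hn : ‖v' - y‖ ≤ 2 * Real.sqrt m * δ := by
    refine le_of_sq_le_sq ?_ (by positivity)
    refine hsum.trans (le_of_eq ?_)
    rw [mul_pow, mul_pow, mul_pow, Real.sq_sqrt (Nat.cast_nonneg m)]
    ring
  have hfin : ‖v - av σ v‖ ≤ ‖v - y‖ := by
    have e1 : v - av σ v = (v - y) - av σ (v - y) := by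
      rw [map_sub, hfix]
      abel
    rw [e1]
    refine le_of_sq_le_sq ?_ (norm_nonneg _)
    rw [isP_norm_sq (jnf_isP σ) (v - y)]
    exact le_add_of_nonneg_left (sq_nonneg _)
  have htri := norm_sub_le_norm_sub_add_norm_sub v v' y
  calc ‖v - av σ v‖ ≤ ‖v - y‖ := hfin
    _ ≤ ‖v - v'‖ + ‖v' - y‖ := htri
    _ ≤ δ + 2 * Real.sqrt m * δ := add_le_add hvv hn
    _ = (1 + 2 * Real.sqrt m) * δ := by ring

end Pool.Agent.MPfe8e9bN
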