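import Mathlib
import Pool.Agent.Lib.MP_fe8e9b_al_N.Defs6
import Pool.Agent.Lib.MP_fe8e9b_al_M.ThmM3

/-!
# MP_fe8e9b_al, groups of bounded height: random labels for several perfect groups
-/

set_option autoImplicit false

open scoped BigOperators

namespace Pool.Agent.MPfe8e9bN

open Pool.Agent.MPfe8e9b Pool.Agent.MPfe8e9bA Pool.Agent.MPfe8e9bW Pool.Agent.MPfe8e9bV
open Pool.Agent.MPfe8e9bM

/-- Evaluation of the component of the type of the point. -/
def thm6_pl {K : Type} {Y T : K → Type} [∀ k, Group (T k)] :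
    ((Σ k, Y k) → ∀ k, T k) →* (∀ k, Y k → T k) where
  toFun u := fun k y => u ⟨k, y⟩ k
  map_one' := rfl
  map_mul' _ _ := rfl

theorem thm6_perf {K : Type} [Fintype K] {T : K → Type} [∀ k, Group (T k)]
    (h : ∀ k, commutator (T k) = ⊤) : commutator (∀ k, T k) = ⊤ := by
  have h1 := Subgroup.commutator_pi_pi_of_finite (η := K) (Gs := T) (fun _ => ⊤) (fun _ => ⊤)
  rw [Subgroup.pi_top] at h1
  have h2 : ∀ k, ⁅(⊤ : Subgroup (T k)), (⊤ : Subgroup (T k))⁆ = ⊤ := fun k => h k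
  simp only [h2] at h1
  rw [Subgroup.pi_top] at h1
  exact h1

theorem thm6_le {V : Type} [NormedAddCommGroup V] [InnerProductSpace ℂ V] {A B : V →ₗ[ℂ] V}
    (hA : IsP A) (hB : IsP B) (h : ∀ v, B v = v → A v = v) (v : V) :
    ‖v - A v‖ ^ 2 ≤ ‖v - B v‖ ^ 2 := by
  have h1 := isP_le_norm hA hB h v
  have h2 := isP_norm_sq hA v
  have h3 := isP_norm_sq hB v
  have h4 : ‖B v‖ ^ 2 ≤ ‖A v‖ ^ 2 := pow_le_pow_left₀ (norm_nonneg _) h1 2
  linarith

theorem thm6_ag {K Ω : Type} {Y S : K → Type} [Fintype Ω] [Nonempty Ω]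
    (lab : Ω → ∀ k, Y k → S k)
    (h : ∀ k y y', y ≠ y' → mn (fun w => ind (lab w k y = lab w k y')) ≤ 3 / 4)
    (z z' : Σ k, Y k) (hz : z ≠ z') :
    ag (fun w (z : Σ k, Y k) => (⟨z.1, lab w z.1 z.2⟩ : Σ k, S k)) z z' ≤ 3 / 4 := by
  obtain ⟨k, y⟩ := z
  obtain ⟨k', y'⟩ := z'
  unfold ag
  by_cases hk : k = k'
  · subst hk
    have hy : y ≠ y' := by
      rintro rfl
      exact hz rfl
    refine le_of_eq_of_le ?_ (h k y y' hy)
    congr 1
    funext w
    congr 1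
    exact propext ⟨fun h1 => eq_of_heq (Sigma.mk.inj_iff.1 h1).2, fun h1 => by
      show (⟨k, lab w k y⟩ : Σ k, S k) = ⟨k, lab w k y'⟩
      rw [h1]⟩
  · refine mn_le fun w => ?_
    have h1 : ¬ ((⟨k, lab w k y⟩ : Σ k, S k) = ⟨k', lab w k' y'⟩) := fun h2 =>
      hk (Sigma.mk.inj_iff.1 h2).1
    rw [ind, if_neg h1]
    norm_num

/-- Random labels for several perfect groups.

Proof. `thmM3 (3 / 4)` for the group `∀ k, T k` (perfect: `commutator (∀ k, T k) = ⊤` by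
`Subgroup.commutator_pi_pi_of_finite`), `Z = Σ k, Y k`, `S = Σ k, S k`, the labels
`w ↦ (⟨k, y⟩ ↦ ⟨k, lab w k y⟩)` (agreement zero for points of different types, at most `3 / 4` for
different points of one type), and the representation `ρ' = ρ.comp pl`, `pl u = fun k y =>
u ⟨k, y⟩ k`, a surjective homomorphism `((Σ k, Y k) → ∀ k, T k) →* (∀ k, Y k → T k)`. The vector
`Al ρ' univ (fun y => y) v` is fixed by all `ρ' u` (`al_fix`), so by all `ρ u`, and so
`‖v - av ρ v‖ ≤ ‖v - Al ρ' univ (fun y => y) v‖` (`av ρ` is the orthogonal projection on the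
invariants; see `isP_norm_sq`). And `Al ρ' univ (lab' w)` is the projection on the vectors fixed by
the elements `ρ' (clf _ univ (lab' w) f)`, which is `ρ (phi (lab w) (fun k s => f ⟨k, s⟩ k))`; the
vector `av (ρ.comp (phi (lab w))) v` is fixed by these elements, so
`‖v - Al ρ' univ (lab' w) v‖ ≤ ‖v - av (ρ.comp (phi (lab w))) v‖`. -/
theorem thm_m6 : ∃ κ : ℝ, 0 < κ ∧ κ ≤ 1 ∧
    ∀ (K : Type) [Fintype K] (Y S T : K → Type) [∀ k, Fintype (Y k)] [∀ k, Fintype (S k)]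
      [∀ k, Group (T k)] [∀ k, Fintype (T k)] [Fintype (∀ k, Y k → T k)]
      [Fintype (∀ k, S k → T k)], (∀ k, commutator (T k) = ⊤) →
    ∀ (Ω : Type) [Fintype Ω] [Nonempty Ω] (lab : Ω → ∀ k, Y k → S k),
      (∀ k y y', y ≠ y' → mn (fun w => ind (lab w k y = lab w k y')) ≤ 3 / 4) →
    ∀ (V : Type) [NormedAddCommGroup V] [InnerProductSpace ℂ V] [FiniteDimensional ℂ V]
      (ρ : (∀ k, Y k → T k) →* (V ≃ₗᵢ[ℂ] V)) (v : V),
      κ * ‖v - av ρ v‖ ^ 2 ≤ mn (fun w => ‖v - av (ρ.comp (phi (lab w))) v‖ ^ 2) := by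
  obtain ⟨κ, hκ, hκ1, hM⟩ := thmM3 (3 / 4) (by norm_num)
  refine ⟨κ, hκ, hκ1, ?_⟩
  intro K _ Y S T _ _ _ _ _ _ hT Ω _ _ lab hlab V _ _ _ ρ v
  classical
  have hag := thm6_ag lab hlab
  have h1 := hM (∀ k, T k) (thm6_perf hT) (Σ k, Y k) (Σ k, S k) Ω
    (fun w z => ⟨z.1, lab w z.1 z.2⟩) hag V (ρ.comp thm6_pl) v
  -- the left side
  have h2 : ‖v - av ρ v‖ ^ 2 ≤
      ‖v - Al (ρ.comp thm6_pl) Finset.univ (fun y : Σ k, Y k => y) v‖ ^ 2 := by
    refine thm6_le ⟨av_symm _, av_idem _⟩ (al_isP _ _ _) (fun x hx => ?_) v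
    rw [al_fix] at hx
    refine av_of_fix ρ fun u => ?_
    have h3 := hx (fun z => Function.update 1 z.1 (u z.1 z.2))
    have h4 : thm6_pl (clf (∀ k, T k) Finset.univ (fun y : Σ k, Y k => y)
        (fun z => Function.update 1 z.1 (u z.1 z.2))) = u := by
      funext k y
      show clf (∀ k, T k) Finset.univ (fun y : Σ k, Y k => y)
        (fun z => Function.update 1 z.1 (u z.1 z.2)) ⟨k, y⟩ k = u k y
      rw [clf_apply _ (Finset.mem_univ _)]
      exact Function.update_self _ _ _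
    rw [MonoidHom.comp_apply, h4] at h3
    exact h3
  -- the right side
  have h5 : ∀ w, ‖v - Al (ρ.comp thm6_pl) Finset.univ
      (fun z : Σ k, Y k => (⟨z.1, lab w z.1 z.2⟩ : Σ k, S k)) v‖ ^ 2 ≤
      ‖v - av (ρ.comp (phi (lab w))) v‖ ^ 2 := by
    intro w
    refine thm6_le (al_isP _ _ _) ⟨av_symm _, av_idem _⟩ (fun x hx => ?_) v
    rw [av_eq_iff] at hx
    rw [al_fix]
    intro f
    have h3 := hx (fun k s => f ⟨k, s⟩ k)
    have h4 : thm6_pl (clf (∀ k, T k) Finset.univ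
        (fun z : Σ k, Y k => (⟨z.1, lab w z.1 z.2⟩ : Σ k, S k)) f) =
        phi (lab w) (fun k s => f ⟨k, s⟩ k) := by
      funext k y
      show clf (∀ k, T k) Finset.univ
        (fun z : Σ k, Y k => (⟨z.1, lab w z.1 z.2⟩ : Σ k, S k)) f ⟨k, y⟩ k =
        f ⟨k, lab w k y⟩ k
      rw [clf_apply _ (Finset.mem_univ _)]
    rw [MonoidHom.comp_apply, h4]
    exact h3
  exact ((mul_le_mul_of_nonneg_left h2 hκ.le).trans h1).trans (mn_mono h5)

end Pool.Agent.MPfe8e9bN
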