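import Mathlib
import Pool.Agent.Lib.MP_fe8e9b_al_N.Defs6
import Pool.Agent.Lib.MP_fe8e9b_al_N.JnF
import Pool.Agent.Lib.MP_fe8e9b_al_N.Thm6
import Pool.Agent.Lib.MP_fe8e9b_al_N.MainE2
import Pool.Agent.Lib.MP_fe8e9b_al_M.MainE
import Pool.Agent.Lib.MP_fe8e9b_al_M.MnF

/-!
# MP_fe8e9b_al, groups of bounded height: the main estimate, sixth version
-/

set_option autoImplicit false

open scoped BigOperators

namespace Pool.Agent.MPfe8e9bN

open Pool.Agent.MPfe8e9b Pool.Agent.MPfe8e9bA Pool.Agent.MPfe8e9bW Pool.Agent.MPfe8e9bV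
open Pool.Agent.MPfe8e9bM

/-- The elements with coordinates in the group of the powers of `z i k` commute with the
intersection of `H i` and the range.

Proof. `hD.nrm` for `a` (in `H i`), and `ac k a = 1` (`hD.act`). -/
theorem me6_comm {G K : Type} [Group G] {Y T : K → Type} [∀ k, Group (T k)] {m : ℕ}
    {Ψ : (∀ k, Y k → T k) →* G} {ac : ∀ k, G →* Equiv.Perm (Y k)} {z : Fin m → ∀ k, T k}
    {H : Fin m → Subgroup G} (hD : LD6 Ψ ac z H) (i : Fin m) (a : G) (ha : a ∈ H i)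
    (ha' : a ∈ Ψ.range) (u : ∀ k, Y k → T k)
    (hu : ∀ k y, u k y ∈ Subgroup.zpowers (z i k)) : a * Ψ u = Ψ u * a := by
  have h1 := hD.nrm i a ha u hu
  have h2 : (fun k y => u k ((ac k a)⁻¹ y)) = u := by
    funext k y
    rw [hD.act a ha' k, inv_one, Equiv.Perm.one_apply]
  rw [h2] at h1
  exact mul_inv_eq_iff_eq_mul.1 h1

/-- The displacement by the functions of the labels translated by an element of `G`.

Proof. As the steps (2)-(4) of `main_e2` (file N/MainE2). `lem_s` for `A = H i ⊓ Ψ.range` and `H i`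
gives `x`, with `‖lm G (Ψ u) x - x‖ = ‖ρ (Ψ u) v - v‖` for the functions `u` whose values are powers
of the `z i k` (`me6_comm`) and `‖ad G (s j) x - x‖² ≤ 2 e²`. `quot_gap` gives
`x1 = av ((ad G).comp (H i).subtype) x`, fixed by all `ad G h`, `h ∈ H i`, with
`θ = ‖x - x1‖ ≤ √(2 kQ / κQ) e`. For `g : G` write `g = h * n` (`hD.cov`), `ac k g = ac k h`
(`hD.act`). By `hD.nrm`, `h * Ψ (phi lab f) * h⁻¹ = Ψ (fun k y => f k (lab k ((ac k g)⁻¹ y)))`, and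
`‖lm G (h * a * h⁻¹) x1 - x1‖ = ‖lm G a x1 - x1‖` (`ad_lm`, `ad G h x1 = x1`, isometry). So the
displacement is at most `δ1 + 4 θ` (`maine_near` twice). -/
theorem me6_disp {G K : Type} [Group G] [Fintype G] [Fintype K] {Y S T : K → Type}
    [∀ k, Fintype (Y k)] [∀ k, Fintype (S k)] [∀ k, Group (T k)] [∀ k, Fintype (T k)] {m : ℕ}
    {Ψ : (∀ k, Y k → T k) →* G} {ac : ∀ k, G →* Equiv.Perm (Y k)} {z : Fin m → ∀ k, T k}
    {H : Fin m → Subgroup G} (hD : LD6 Ψ ac z H) (lab : ∀ k, Y k → S k)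
    (N : Subgroup G) [N.Normal] [Fintype (G ⧸ N)] (hN : N = Ψ.range) {kQ : ℕ} {κQ : ℝ}
    (hκQ : 0 < κQ) (i : Fin m) (s : Fin kQ → G) (hs : ∀ j, s j ∈ H i)
    (hgs : Gap (fun j => (s j : G ⧸ N)) κQ) {V : Type} [NormedAddCommGroup V]
    [InnerProductSpace ℂ V] [FiniteDimensional ℂ V] (ρ : G →* (V ≃ₗᵢ[ℂ] V)) (v : V)
    (hv1 : ‖v‖ = 1) {δ1 e : ℝ} (he : 0 ≤ e) (h1 : ∀ j, ‖ρ (s j) v - v‖ ≤ e ^ 2)
    (h2 : ∀ f : ∀ k, S k → T k, ‖ρ (Ψ (phi lab f)) v - v‖ ≤ δ1) (g : G)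
    (f : ∀ k, S k → T k) (hf : ∀ k t, f k t ∈ Subgroup.zpowers (z i k)) :
    ‖ρ (Ψ (fun k y => f k (lab k ((ac k g)⁻¹ y)))) v - v‖ ≤
      δ1 + 4 * (Real.sqrt (2 * (kQ : ℝ) / κQ) * e) := by
  classical
  obtain ⟨c2', hc2'⟩ : ∃ c, c = Real.sqrt (2 * (kQ : ℝ) / κQ) := ⟨_, rfl⟩
  have hc2 : 0 ≤ c2' := by rw [hc2']; positivity
  rw [← hc2']
  obtain ⟨x, hx1, hx2, hx3, hx4⟩ := lem_s (H i ⊓ Ψ.range) (H i) (fun h hh a ha =>
    ⟨(H i).mul_mem ((H i).mul_mem hh ha.1) ((H i).inv_mem hh), hD.nml.conj_mem a ha.2 h⟩) ρ v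
  have hx5 : ∀ u : ∀ k, Y k → T k, (∀ k y, u k y ∈ Subgroup.zpowers (z i k)) →
      ‖lm G (Ψ u) x - x‖ = ‖ρ (Ψ u) v - v‖ := fun u hu =>
    hx2 (Ψ u) fun a ha => me6_comm hD i a ha.1 ha.2 u hu
  have : Fintype (H i) := Fintype.ofFinite (H i)
  have hsurj : Function.Surjective ((QuotientGroup.mk' N).comp (H i).subtype) := by
    intro q
    obtain ⟨g, rfl⟩ := QuotientGroup.mk_surjective q
    obtain ⟨h, hh, n, hn, rfl⟩ := hD.cov i g
    refine ⟨⟨h, hh⟩, ?_⟩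
    change (QuotientGroup.mk h : G ⧸ N) = QuotientGroup.mk (h * n)
    rw [QuotientGroup.eq, inv_mul_cancel_left, hN]
    exact hn
  have hq := quot_gap ((QuotientGroup.mk' N).comp (H i).subtype) hsurj
    (s := fun j => (⟨s j, hs j⟩ : H i)) (κ := κQ) hgs ((ad G).comp (H i).subtype) x (by
      intro a ha
      have h3 : (a : G) ∈ N := (QuotientGroup.eq_one_iff (a : G)).1 ha
      rw [hN] at h3
      exact hx4 a ⟨a.2, h3⟩)
  obtain ⟨x1, hx1'⟩ : ∃ w, w = av ((ad G).comp (H i).subtype) x := ⟨_, rfl⟩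
  rw [← hx1'] at hq
  have hfix : ∀ h ∈ H i, ad G h x1 = x1 := by
    intro h hh
    rw [hx1']
    exact rho_av ((ad G).comp (H i).subtype) ⟨h, hh⟩ x
  have hth : ‖x - x1‖ ≤ c2' * e := by
    have h3 : ∀ j : Fin kQ, ‖ad G (s j) x - x‖ ^ 2 ≤ 2 * e ^ 2 := by
      intro j
      refine (hx3 (s j) (hs j)).trans ?_
      rw [hv1, mul_one]
      exact mul_le_mul_of_nonneg_left (h1 j) zero_le_two
    have h4 : κQ * ‖x - x1‖ ^ 2 ≤ kQ * (2 * e ^ 2) := by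
      refine hq.trans ((Finset.sum_le_sum fun j _ => h3 j).trans_eq ?_)
      rw [Finset.sum_const, Finset.card_univ, Fintype.card_fin, nsmul_eq_mul]
    refine le_of_sq_le_sq ?_ (mul_nonneg hc2 he)
    rw [mul_pow, hc2', Real.sq_sqrt (by positivity), div_mul_eq_mul_div, le_div_iff₀ hκQ]
    linarith
  obtain ⟨h, hh, n, hn, hg⟩ := hD.cov i g
  have hac : ∀ k, ac k g = ac k h := by
    intro k
    rw [hg, map_mul, hD.act n hn k, mul_one]
  have hu : (fun k y => f k (lab k ((ac k g)⁻¹ y)) : ∀ k, Y k → T k) =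
      fun k y => phi lab f k ((ac k h)⁻¹ y) := by
    funext k y
    rw [hac k]
    rfl
  have h3 := hD.nrm i h hh (phi lab f) fun k y => hf k (lab k y)
  have h4 : ‖lm G (Ψ (fun k y => phi lab f k ((ac k h)⁻¹ y))) x1 - x1‖ =
      ‖lm G (Ψ (phi lab f)) x1 - x1‖ := by
    rw [← h3]
    have h5 : lm G (h * Ψ (phi lab f) * h⁻¹) x1 - x1 =
        ad G h (lm G (Ψ (phi lab f)) x1 - x1) := by
      rw [map_sub, ad_lm, hfix h hh]
    rw [h5, LinearIsometryEquiv.norm_map]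
  rw [hu, ← hx5 (fun k y => phi lab f k ((ac k h)⁻¹ y)) fun k y =>
    hf k (lab k ((ac k h)⁻¹ y))]
  have h5 := maine_near (lm G) x1 x (Ψ (fun k y => phi lab f k ((ac k h)⁻¹ y)))
  have h6 := maine_near (lm G) x x1 (Ψ (phi lab f))
  rw [hx5 (phi lab f) fun k y => hf k (lab k y)] at h6
  rw [norm_sub_rev x1 x, h4] at h5
  have h7 := h2 f
  linarith

/-- The main estimate.

Proof. Suppose that all letters move the unit vector `v` by at most `e ^ 2`, `e ≤ 1` small.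
`gap_disp` for the tuple `xs` gives that all `Ψ (phi lab f)` move `v` by at most
`δ1 = 2 √(kK / κK) e` (as in `main_e2`). For `g : G` let `lab_g k y = lab k ((ac k g)⁻¹ y)` and
`σ_g = ρ.comp (Ψ.comp (phi lab_g))`. By `me6_disp` the elements `σ_g f`, the values of `f` powers of
the `z i k`, move `v` by at most `δ2 = δ1 + 4 √(2 kQ / κQ) e`; the constants move `v` by at most
`δ1` (the constant functions of `lab_g` are constant functions of `lab`). `jn_f`: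
`‖v - av σ_g v‖ ≤ (1 + 2 √m) δ2`. `thm_m6` for `Ω = G`, the labels `lab_g` (agreement: `mn_inv`,
see `typ_l` in file N/TypL) and `ρ.comp Ψ`: `κ ‖v - av (ρ.comp Ψ) v‖² ≤ ((1 + 2 √m) δ2)²`. And
`av (ρ.comp Ψ) v = 0` (as in `main_e2`). So `κ ≤ (c e)²` with `c = (1 + 2 √m) (2 √(kK / κK) +
4 √(2 kQ / κQ))`; contradiction for `e = √κ / (c + 1)` (`κ ≤ 1` gives `e ≤ 1`). `δ₀ = e²`. -/
theorem main_e6 (kK kQ m : ℕ) {κK κQ : ℝ} (hκK : 0 < κK) (hκQ : 0 < κQ) :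
    ∃ δ₀ : ℝ, 0 < δ₀ ∧ ∀ (G K : Type) [Group G] [Fintype G] [Fintype K] (Y S T : K → Type)
    [∀ k, Fintype (Y k)] [∀ k, Fintype (S k)] [∀ k, Group (T k)] [∀ k, Fintype (T k)]
    [Fintype (∀ k, S k → T k)] (_ : ∀ k, commutator (T k) = ⊤)
    (Ψ : (∀ k, Y k → T k) →* G) (ac : ∀ k, G →* Equiv.Perm (Y k)) (z : Fin m → ∀ k, T k)
    (H : Fin m → Subgroup G) (_ : LD6 Ψ ac z H) (lab : ∀ k, Y k → S k)
    (_ : ∀ k y y', y ≠ y' → mn (fun g : G =>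
      ind (lab k (ac k g y) = lab k (ac k g y'))) ≤ 3 / 4)
    (N : Subgroup G) [N.Normal] [Fintype (G ⧸ N)] [Fintype N] (_ : N = Ψ.range)
    (s : Fin m → Fin kQ → G) (_ : ∀ i j, s i j ∈ H i)
    (_ : ∀ i, Gap (fun j => (s i j : G ⧸ N)) κQ)
    (xs : Fin kK → ∀ k, S k → T k) (_ : Gap xs κK)
    (V : Type) [NormedAddCommGroup V] [InnerProductSpace ℂ V] [FiniteDimensional ℂ V]
    (ρ : G →* (V ≃ₗᵢ[ℂ] V)) (v : V), av (ρ.comp N.subtype) v = 0 → ‖v‖ = 1 →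
    (∃ i j, δ₀ < ‖ρ (s i j) v - v‖) ∨ ∃ j, δ₀ < ‖ρ (Ψ (phi lab (xs j))) v - v‖ := by
  classical
  obtain ⟨κ, hκ0, hκ1, hκ⟩ := thm_m6
  obtain ⟨c1', hc1'⟩ : ∃ c, c = 2 * Real.sqrt ((kK : ℝ) / κK) := ⟨_, rfl⟩
  obtain ⟨c2', hc2'⟩ : ∃ c, c = Real.sqrt (2 * (kQ : ℝ) / κQ) := ⟨_, rfl⟩
  have hc1 : 0 ≤ c1' := by rw [hc1']; positivity
  have hc2 : 0 ≤ c2' := by rw [hc2']; positivity
  obtain ⟨c3, hc3'⟩ : ∃ c, c = (1 + 2 * Real.sqrt m) * (c1' + 4 * c2') := ⟨_, rfl⟩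
  have hc3 : 0 ≤ c3 := by rw [hc3']; positivity
  have hr : 0 < Real.sqrt κ := Real.sqrt_pos.2 hκ0
  have hr1 : Real.sqrt κ ≤ 1 := Real.sqrt_le_one.2 hκ1
  obtain ⟨e, he'⟩ : ∃ e : ℝ, e = Real.sqrt κ / (c3 + 1) := ⟨_, rfl⟩
  have he : 0 < e := by rw [he']; positivity
  have he1 : e ≤ 1 := by
    rw [he', div_le_one (by linarith)]
    linarith
  have hce : c3 * e < Real.sqrt κ := by
    rw [he', ← mul_div_assoc, div_lt_iff₀ (by linarith)]
    nlinarith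
  refine ⟨e ^ 2, by positivity, ?_⟩
  intro G K _ _ _ Y S T _ _ _ _ _ hT Ψ ac z H hD lab hlab N _ _ _ hN s hs hgs xs hxs V _ _ _ ρ
    v hv hv1
  by_contra hcon
  push Not at hcon
  obtain ⟨hc4, hc5⟩ := hcon
  have hee : e ^ 2 ≤ e := by nlinarith
  have hA1 : ∀ f : ∀ k, S k → T k, ‖ρ (Ψ (phi lab f)) v - v‖ ≤ c1' * e := by
    intro f
    have h1 := gap_disp hκK hxs (ρ.comp (Ψ.comp (phi lab))) v (sq_nonneg e) (fun j => hc5 j) f
    change ‖ρ (Ψ (phi lab f)) v - v‖ ≤ _ at h1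
    rw [← hc1'] at h1
    exact h1.trans (mul_le_mul_of_nonneg_left hee hc1)
  let _ : Fintype (∀ k, Y k → T k) := Fintype.ofFinite _
  let _ : ∀ (i : Fin m) (k : K), Fintype (Subgroup.zpowers (z i k)) := fun i k =>
    Fintype.ofFinite _
  have hδ : 0 ≤ c1' * e + 4 * (c2' * e) := by positivity
  have hB : ∀ g : G, ‖v - av ((ρ.comp Ψ).comp
      (phi (fun k y => lab k ((ac k g)⁻¹ y)))) v‖ ≤
        (1 + 2 * Real.sqrt m) * (c1' * e + 4 * (c2' * e)) := by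
    intro g
    refine jn_f hD.gen ((ρ.comp Ψ).comp (phi (fun k y => lab k ((ac k g)⁻¹ y)))) v hδ ?_ ?_
    · intro i u hu
      have h1 := me6_disp hD lab N hN hκQ i (s i) (hs i) (hgs i) ρ v hv1 he.le
        (fun j => hc4 i j) hA1 g u hu
      rw [← hc2'] at h1
      exact h1
    · intro q
      refine (hA1 (fun k _ => q k)).trans ?_
      have : 0 ≤ 4 * (c2' * e) := by positivity
      linarith
  have hlab' : ∀ k y y', y ≠ y' → mn (fun g : G =>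
      ind (lab k ((ac k g)⁻¹ y) = lab k ((ac k g)⁻¹ y'))) ≤ 3 / 4 := by
    intro k y y' hy
    have h5 := mn_inv (fun g : G => ind (lab k (ac k g y) = lab k (ac k g y')))
    have h6 : (fun g : G => ind (lab k (ac k g⁻¹ y) = lab k (ac k g⁻¹ y'))) =
        fun g : G => ind (lab k ((ac k g)⁻¹ y) = lab k ((ac k g)⁻¹ y')) := by
      funext g
      rw [map_inv]
    rw [← h6, h5]
    exact hlab k y y' hy
  have hM := hκ K Y S T hT G (fun g k y => lab k ((ac k g)⁻¹ y)) hlab' V (ρ.comp Ψ) v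
  have hav : av (ρ.comp Ψ) v = 0 := by
    have hfx : ∀ n : N, ρ (n : G) (av (ρ.comp Ψ) v) = av (ρ.comp Ψ) v := by
      intro n
      have hn : (n : G) ∈ Ψ.range := by
        rw [← hN]
        exact n.2
      obtain ⟨t, ht⟩ := hn
      rw [← ht]
      exact rho_av (ρ.comp Ψ) t v
    have h1 := isP_le ⟨av_symm (ρ.comp Ψ), av_idem (ρ.comp Ψ)⟩
      ⟨av_symm (ρ.comp N.subtype), av_idem (ρ.comp N.subtype)⟩ (fun x hx => by
        rw [av_eq_iff] at hx ⊢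
        intro t
        have h2 : Ψ t ∈ N := by
          rw [hN]
          exact ⟨t, rfl⟩
        exact hx ⟨Ψ t, h2⟩)
    have h2 : av (ρ.comp N.subtype) (av (ρ.comp Ψ) v) = av (ρ.comp Ψ) v :=
      av_of_fix (ρ.comp N.subtype) hfx
    rw [← h2, h1.2, hv]
  rw [hav, sub_zero, hv1, one_pow, mul_one] at hM
  have h3 : (1 + 2 * Real.sqrt m) * (c1' * e + 4 * (c2' * e)) = c3 * e := by
    rw [hc3']
    ring
  have h4 : mn (fun g : G => ‖v - av ((ρ.comp Ψ).comp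
      (phi (fun k y => lab k ((ac k g)⁻¹ y)))) v‖ ^ 2) ≤ (c3 * e) ^ 2 := by
    refine mn_le fun g => ?_
    rw [← h3]
    exact pow_le_pow_left₀ (norm_nonneg _) (hB g) 2
  have h5 : (c3 * e) ^ 2 < κ := by
    have h6 : 0 ≤ c3 * e := by positivity
    calc (c3 * e) ^ 2 < Real.sqrt κ ^ 2 := pow_lt_pow_left₀ hce h6 two_ne_zero
      _ = κ := Real.sq_sqrt hκ0.le
  linarith [hM.trans h4]

end Pool.Agent.MPfe8e9bN
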