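import Mathlib
import Pool.Agent.Lib.MP_fe8e9b_al_M.PrB
import Pool.Agent.Lib.MP_fe8e9b_al_M.QGap
import Pool.Agent.Lib.MP_fe8e9b_al_M.LDat
import Pool.Agent.Lib.MP_fe8e9b_al_M.MainE
import Pool.Agent.Lib.MP_fe8e9b_al_N.Defs6
import Pool.Agent.Lib.MP_fe8e9b_al_N.MainE6
import Pool.Agent.Lib.MP_fe8e9b_al.FinalG

/-!
# MP_fe8e9b_al, groups of bounded height: from the main estimate to a gap, sixth version
-/

set_option autoImplicit false

open scoped BigOperators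

namespace Pool.Agent.MPfe8e9bN

open Pool.Agent.MPfe8e9b Pool.Agent.MPfe8e9bA Pool.Agent.MPfe8e9bW Pool.Agent.MPfe8e9bV
open Pool.Agent.MPfe8e9bM

/-- A gap for `G` from the gap of the quotient and the main estimate.

Proof. As `main_g2` (file N/MainG2), with `main_e6` instead of `main_e2`. The tuple `q` of `G ⧸ N`
is lifted to `s i j ∈ H i` for every `i : Fin m` (`hD.cov`); the tuple of `G` is the tuple of all
`s i j` (reindexed by `finProdFinEquiv`, `m * kQ` elements) followed by the `Ψ (phi lab (xs j))`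
(`Fin.append`). For the part `vN` of `v` use only `s 0` (`0 < m`); the sum over all letters is at
least the sum over these. -/
theorem main_g6 (kK kQ m : ℕ) (hm : 0 < m) {κK κQ : ℝ} (hκK : 0 < κK) (hκQ : 0 < κQ) :
    ∃ κ : ℝ, 0 < κ ∧ ∀ (G K : Type) [Group G] [Fintype G] [Fintype K] (Y S T : K → Type)
    [∀ k, Fintype (Y k)] [∀ k, Fintype (S k)] [∀ k, Group (T k)] [∀ k, Fintype (T k)]
    (_ : ∀ k, commutator (T k) = ⊤)
    (Ψ : (∀ k, Y k → T k) →* G) (ac : ∀ k, G →* Equiv.Perm (Y k)) (z : Fin m → ∀ k, T k)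
    (H : Fin m → Subgroup G) (_ : LD6 Ψ ac z H) (lab : ∀ k, Y k → S k)
    (_ : ∀ k y y', y ≠ y' → mn (fun g : G =>
      ind (lab k (ac k g y) = lab k (ac k g y'))) ≤ 3 / 4)
    (N : Subgroup G) [N.Normal] (_ : N = Ψ.range) (_ : FExpd (G ⧸ N) kQ κQ)
    (_ : FExpd (∀ k, S k → T k) kK κK), FExpd G (m * kQ + kK) κ := by
  obtain ⟨δ₀, hδ, hmain⟩ := main_e6 kK kQ m hκK hκQ
  refine ⟨min κQ (δ₀ ^ 2), lt_min hκQ (by positivity), ?_⟩
  intro G K _ _ _ Y S T _ _ _ _ hT Ψ ac z H hD lab hmn N _ hN hQ hX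
  classical
  let _ : Fintype (G ⧸ N) := Fintype.ofFinite _
  let _ : Fintype N := Fintype.ofFinite _
  let _ : Fintype (∀ k, S k → T k) := Fintype.ofFinite _
  obtain ⟨q, hq⟩ := hQ.expd
  obtain ⟨xs, hxs⟩ := hX.expd
  have hlift : ∀ (i : Fin m) (j : Fin kQ), ∃ h ∈ H i, ((h : G) : G ⧸ N) = q j := by
    intro i j
    obtain ⟨g, hg⟩ := QuotientGroup.mk_surjective (q j)
    obtain ⟨h, hh, n, hn, hgn⟩ := hD.cov i g
    refine ⟨h, hh, ?_⟩
    rw [← hg, QuotientGroup.eq, hgn, inv_mul_cancel_left, hN]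
    exact hn
  choose s hs hsq using hlift
  have hgap : ∀ i, Gap (fun j => (s i j : G ⧸ N)) κQ := by
    intro i
    have h1 : (fun j => (s i j : G ⧸ N)) = q := funext (hsq i)
    rw [h1]
    exact hq
  refine ⟨inferInstance, Fin.append
    (fun a : Fin (m * kQ) => s (finProdFinEquiv.symm a).1 (finProdFinEquiv.symm a).2)
    (fun j => Ψ (phi lab (xs j))), ?_⟩
  refine gap_of_rep (fun V _ _ _ ρ v hv => ?_)
  rw [Fin.sum_univ_add]
  simp only [Fin.append_left, Fin.append_right]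
  have hre : ∀ F : Fin m → Fin kQ → ℝ, ∑ a : Fin (m * kQ),
      F (finProdFinEquiv.symm a).1 (finProdFinEquiv.symm a).2 = ∑ i, ∑ j, F i j := by
    intro F
    rw [Equiv.sum_comp finProdFinEquiv.symm (fun p : Fin m × Fin kQ => F p.1 p.2),
      Fintype.sum_prod_type]
  rw [hre (fun i j => ‖ρ (s i j) v - v‖ ^ 2)]
  obtain ⟨ρN, hρN⟩ : ∃ r : N →* (V ≃ₗᵢ[ℂ] V), r = ρ.comp N.subtype := ⟨_, rfl⟩
  have eN : ∀ (n : N) x, ρN n x = ρ n.1 x := by
    intro n x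
    rw [hρN]
    rfl
  have hP : IsP (av ρN) := ⟨av_symm _, av_idem _⟩
  have hP' : IsP (av ρ) := ⟨av_symm _, av_idem _⟩
  have hcomm : ∀ g x, ρ g (av ρN x) = av ρN (ρ g x) := by
    intro g x
    refine av_comm ρN (ρ g) (MulAut.conjNormal g).toEquiv (fun n y => ?_) x
    rw [eN, eN]
    have h1 : ρ (g * n.1) y = ρ ((MulAut.conjNormal g n : N).1 * g) y := by
      rw [MulAut.conjNormal_apply, inv_mul_cancel_right]
    rw [map_mul, map_mul] at h1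
    exact h1
  obtain ⟨vN, hvN⟩ : ∃ x, x = av ρN v := ⟨_, rfl⟩
  obtain ⟨v', hv'⟩ : ∃ x, x = v - av ρN v := ⟨_, rfl⟩
  have hsplit : ∀ g, ‖ρ g v - v‖ ^ 2 = ‖ρ g vN - vN‖ ^ 2 + ‖ρ g v' - v'‖ ^ 2 := by
    intro g
    have h1 := isP_norm_sq hP (ρ g v - v)
    have h2 : av ρN (ρ g v - v) = ρ g vN - vN := by
      rw [map_sub, ← hcomm, hvN]
    have h3 : ρ g v - v - (ρ g vN - vN) = ρ g v' - v' := by
      rw [hv', map_sub, ← hvN]
      abel
    rw [h2, h3] at h1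
    exact h1
  have hnorm : ‖v‖ ^ 2 = ‖vN‖ ^ 2 + ‖v'‖ ^ 2 := by
    rw [hvN, hv']
    exact isP_norm_sq hP v
  have h0 : av ρ vN = 0 := by
    have h1 := (isP_le hP hP' (fun x hx => by
      rw [av_eq_iff] at hx ⊢
      intro n
      rw [eN]
      exact hx n.1)).2 v
    rw [hvN, h1, hv]
  have hq1 := quot_gap (QuotientGroup.mk' N) (QuotientGroup.mk'_surjective N)
    (hgap ⟨0, hm⟩) ρ vN (by
    intro a ha
    have ha' : a ∈ N := (QuotientGroup.eq_one_iff a).1 ha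
    have h1 := rho_av ρN ⟨a, ha'⟩ v
    rw [eN] at h1
    rw [hvN]
    exact h1)
  rw [h0, sub_zero] at hq1
  have hv0 : av ρN v' = 0 := by
    rw [hv', map_sub, av_idem, sub_self]
  have hmove : δ₀ ^ 2 * ‖v'‖ ^ 2 ≤ ∑ i, ∑ j, ‖ρ (s i j) v' - v'‖ ^ 2 +
      ∑ j, ‖ρ (Ψ (phi lab (xs j))) v' - v'‖ ^ 2 := by
    have hA : 0 ≤ ∑ i, ∑ j, ‖ρ (s i j) v' - v'‖ ^ 2 :=
      Finset.sum_nonneg fun i _ => Finset.sum_nonneg fun j _ => by positivity
    have hB : 0 ≤ ∑ j, ‖ρ (Ψ (phi lab (xs j))) v' - v'‖ ^ 2 :=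
      Finset.sum_nonneg fun i _ => by positivity
    by_cases hz : v' = 0
    · rw [hz, norm_zero]
      rw [hz] at hA hB
      have : δ₀ ^ 2 * (0 : ℝ) ^ 2 = 0 := by ring
      rw [this]
      exact add_nonneg hA hB
    · have hn : 0 < ‖v'‖ := norm_pos_iff.2 hz
      have hc : ‖(((‖v'‖)⁻¹ : ℝ) : ℂ)‖ = (‖v'‖)⁻¹ := by
        rw [Complex.norm_real, Real.norm_of_nonneg (inv_nonneg.2 hn.le)]
      have hlet : ∀ g, ρ g ((((‖v'‖)⁻¹ : ℝ) : ℂ) • v') - (((‖v'‖)⁻¹ : ℝ) : ℂ) • v' =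
          (((‖v'‖)⁻¹ : ℝ) : ℂ) • (ρ g v' - v') := by
        intro g
        rw [map_smul, smul_sub]
      have hlet2 : ∀ g, δ₀ < ‖ρ g ((((‖v'‖)⁻¹ : ℝ) : ℂ) • v') - (((‖v'‖)⁻¹ : ℝ) : ℂ) • v'‖ →
          δ₀ ^ 2 * ‖v'‖ ^ 2 ≤ ‖ρ g v' - v'‖ ^ 2 := by
        intro g hg
        rw [hlet, norm_smul, hc, inv_mul_eq_div, lt_div_iff₀ hn] at hg
        rw [← mul_pow]
        exact pow_le_pow_left₀ (by positivity) hg.le 2
      rcases hmain G K Y S T hT Ψ ac z H hD lab hmn N hN s hs hgap xs hxs V ρ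
          ((((‖v'‖)⁻¹ : ℝ) : ℂ) • v') (by
            rw [← hρN, map_smul, hv0, smul_zero]) (by
            rw [norm_smul, hc, inv_mul_cancel₀ hn.ne']) with ⟨i, j, hi⟩ | ⟨j, hj⟩
      · have h1 := hlet2 _ hi
        have h2 := Finset.single_le_sum (f := fun i => ∑ j, ‖ρ (s i j) v' - v'‖ ^ 2)
          (fun i _ => Finset.sum_nonneg fun j _ => by positivity) (Finset.mem_univ i)
        have h3 := Finset.single_le_sum (f := fun j => ‖ρ (s i j) v' - v'‖ ^ 2)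
          (fun j _ => by positivity) (Finset.mem_univ j)
        linarith
      · have h1 := hlet2 _ hj
        have h2 := Finset.single_le_sum (f := fun j => ‖ρ (Ψ (phi lab (xs j))) v' - v'‖ ^ 2)
          (fun i _ => by positivity) (Finset.mem_univ j)
        linarith
  have hC : 0 ≤ ∑ j, ‖ρ (Ψ (phi lab (xs j))) vN - vN‖ ^ 2 :=
    Finset.sum_nonneg fun i _ => by positivity
  have hD1 : ∑ j, ‖ρ (s ⟨0, hm⟩ j) vN - vN‖ ^ 2 ≤ ∑ i, ∑ j, ‖ρ (s i j) vN - vN‖ ^ 2 :=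
    Finset.single_le_sum (f := fun i => ∑ j, ‖ρ (s i j) vN - vN‖ ^ 2)
      (fun i _ => Finset.sum_nonneg fun j _ => by positivity) (Finset.mem_univ _)
  have hE1 : ∑ i, ∑ j, ‖ρ (s i j) v - v‖ ^ 2 =
      ∑ i, ∑ j, ‖ρ (s i j) vN - vN‖ ^ 2 + ∑ i, ∑ j, ‖ρ (s i j) v' - v'‖ ^ 2 := by
    rw [← Finset.sum_add_distrib]
    refine Finset.sum_congr rfl fun i _ => ?_
    rw [← Finset.sum_add_distrib]
    exact Finset.sum_congr rfl fun j _ => hsplit (s i j)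
  rw [hE1, Finset.sum_congr rfl fun j _ => hsplit (Ψ (phi lab (xs j))),
    Finset.sum_add_distrib, hnorm, mul_add]
  have h1 : min κQ (δ₀ ^ 2) * ‖vN‖ ^ 2 ≤ κQ * ‖vN‖ ^ 2 :=
    mul_le_mul_of_nonneg_right (min_le_left _ _) (by positivity)
  have h2 : min κQ (δ₀ ^ 2) * ‖v'‖ ^ 2 ≤ δ₀ ^ 2 * ‖v'‖ ^ 2 :=
    mul_le_mul_of_nonneg_right (min_le_right _ _) (by positivity)
  linarith

end Pool.Agent.MPfe8e9bN
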