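import Mathlib
import Pool.Agent.Lib.MP_fe8e9b_al_M.Defs
import Pool.Agent.Lib.MP_fe8e9b_al_M.LDat
import Pool.Agent.Lib.MP_fe8e9b_al_M.MainG
import Pool.Agent.Lib.MP_fe8e9b_al_M.CmpD
import Pool.Agent.Lib.MP_fe8e9b_al_M.CmpB
import Pool.Agent.Lib.MP_fe8e9b_al_M.Coor
import Pool.Agent.Lib.MP_fe8e9b_al_M.PsiX
import Pool.Agent.Lib.MP_fe8e9b_al_M.KEx
import Pool.Agent.Lib.MP_fe8e9b_al_N.Defs6
import Pool.Agent.Lib.MP_fe8e9b_al_N.LdX6
import Pool.Agent.Lib.MP_fe8e9b_al_N.CodX6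
import Pool.Agent.Lib.MP_fe8e9b_al_N.MainG6

/-!
# MP_fe8e9b_al, groups of bounded height: a layer of components, abstract form, sixth version
-/

set_option autoImplicit false

open scoped BigOperators

namespace Pool.Agent.MPfe8e9bN

open Pool.Agent.MPfe8e9b Pool.Agent.MPfe8e9bA Pool.Agent.MPfe8e9bW Pool.Agent.MPfe8e9bV
open Pool.Agent.MPfe8e9bM

private theorem layA6_ms {Y T : Type} [One T] (d1 d2 : DecidableEq Y) (y : Y) (t : T) :
    @Pi.mulSingle Y (fun _ => T) (fun _ => inferInstance) d1 y t =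
      @Pi.mulSingle Y (fun _ => T) (fun _ => inferInstance) d2 y t := by
  rw [Subsingleton.elim d1 d2]

/-- The automorphism of a component given by an element of its stabilizer. -/
theorem lay6_aut {G X : Type} [Group G] {C : X → Subgroup G} {act : G →* Equiv.Perm X}
    (hC : Cmp C act) (x : X) (g : G) (hg : act g x = x) :
    ∃ l : MulAut (C x), ∀ s : C x, ((l s : C x) : G) = g * s * g⁻¹ := by
  have h1 : ∀ s ∈ C x, g * s * g⁻¹ ∈ C x := by
    intro s hs
    have h2 := hC.cnj g x s hs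
    rwa [hg] at h2
  have hg' : act g⁻¹ x = x := by
    rw [map_inv, Equiv.Perm.inv_eq_iff_eq]
    exact hg.symm
  have h2 : ∀ s ∈ C x, g⁻¹ * s * g ∈ C x := by
    intro s hs
    have h3 := hC.cnj g⁻¹ x s hs
    rwa [hg', inv_inv] at h3
  refine ⟨{ toFun := fun s => ⟨g * s * g⁻¹, h1 s s.2⟩
            invFun := fun s => ⟨g⁻¹ * s * g, h2 s s.2⟩
            left_inv := fun s => Subtype.ext (by
              show g⁻¹ * (g * (s : G) * g⁻¹) * g = s
              group)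
            right_inv := fun s => Subtype.ext (by
              show g * (g⁻¹ * (s : G) * g) * g⁻¹ = s
              group)
            map_mul' := fun s t => Subtype.ext (by
              show g * ((s : G) * t) * g⁻¹ = g * s * g⁻¹ * (g * t * g⁻¹)
              group) }, fun s => rfl⟩

/-- A layer of components which are generated by `m` elements with invariant classes.

Proof. `coords` for the groups `ccl (z x)` gives `D`, `psi_ex` gives `Ψ`, `ld_x6`, `cod_x6`, `kex`,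
`main_g6`. -/
theorem lay_a6 (d m L C kQ : ℕ) (hm : 0 < m) {κQ : ℝ} (hκQ : 0 < κQ) : ∃ (k : ℕ) (κ : ℝ), 0 < κ ∧
    ∀ (G X : Type) [Group G] [Finite G] [Finite X] (Cc : X → Subgroup G)
    (act : G →* Equiv.Perm X) (_ : Cmp Cc act) (z : ∀ x, Fin m → Cc x) (_ : ∀ x, Gnr (z x))
    (_ : ∀ x g, act g x = x → ∀ i, ∃ t : Cc x,
      g * (z x i : G) * g⁻¹ = ((t * z x i * t⁻¹ : Cc x) : G))
    (key : X → ℕ ⊕ (ℕ × ℕ × ℕ)) (_ : ∀ x y, key x = key y →
      ∃ e : Cc x ≃* Cc y, ∀ i, e (z x i) = z y i)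
    (_ : ∀ x, (∃ n, key x = Sum.inl n ∧ 5 ≤ n ∧
        Nonempty (Cc x ≃* alternatingGroup (Fin n))) ∨
      ∃ m q c', key x = Sum.inr (m, q, c') ∧ 2 ≤ m ∧ c' < q ^ (C * m ^ 2) ∧
        ∃ (F : Type) (_ : Field F) (_ : Fintype F), Fintype.card F = q ∧
          SLProduct L m F (Cc x))
    (_ : ∃ T : Finset G, T.card ≤ d ∧ Subgroup.closure (T : Set G) = ⊤)
    (N : Subgroup G) [N.Normal] (_ : N = ⨆ x, Cc x) (_ : FExpd (G ⧸ N) kQ κQ),
    FExpd G k κ := by
  obtain ⟨kK, κK, hκK, hkex⟩ := kex ((1 + m) * d) L C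
  obtain ⟨κ, hκ, hmain⟩ := main_g6 kK kQ m hm hκK hκQ
  refine ⟨m * kQ + kK, κ, hκ, ?_⟩
  intro G X _ _ _ Cc act hC z hz hcl key hkey htyp hd N _ hN hQ
  classical
  let _ : Fintype G := Fintype.ofFinite G
  obtain ⟨D, hD⟩ := coords hC (fun x => ccl (z x)) (fun x g hg => by
    obtain ⟨l, hl⟩ := lay6_aut hC x g hg
    refine ⟨1, l, fun i => ?_, fun s => ?_⟩
    · obtain ⟨t, ht⟩ := hcl x g hg i
      refine ⟨t, Subtype.ext ?_⟩
      rw [hl, ht]
    · rw [one_mul, inv_one, mul_one, hl]) key (fun x y hxy => by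
    obtain ⟨e, he⟩ := hkey x y hxy
    refine ⟨e, fun l => ⟨fun h i => ?_, fun h i => ?_⟩⟩
    · obtain ⟨t, ht⟩ := h i
      refine ⟨e t, ?_⟩
      change e (l (e.symm (z y i))) = e t * z y i * (e t)⁻¹
      rw [← he i, e.symm_apply_apply, ht, map_mul, map_mul, map_inv]
    · obtain ⟨t, ht⟩ := h i
      refine ⟨e.symm t, ?_⟩
      change e (l (e.symm (z y i))) = t * z y i * t⁻¹ at ht
      rw [← he i, e.symm_apply_apply] at ht
      apply e.injective
      rw [ht, map_mul, map_mul, map_inv, e.apply_symm_apply])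
  let _ : Fintype D.K := D.fK
  let _ : ∀ k, Fintype (D.Y k) := fun k => Fintype.ofFinite _
  let _ : ∀ k, Fintype (D.T k) := fun k => Fintype.ofFinite _
  obtain ⟨Ψ, hΨ'⟩ := psi_ex (fun k => D.Y k) (fun k => D.T k) D.ι (crd_comm hC D)
  have hΨ : ∀ k y t, Ψ (Pi.mulSingle k (Pi.mulSingle y t)) = D.ι k y t := by
    intro k y t
    rw [← hΨ' k y t]
    refine congrArg (fun u : D.Y k → D.T k => Ψ (Pi.mulSingle k u)) ?_
    exact layA6_ms _ _ y t
  have hld := ld_x6 hC z hz D Ψ hΨ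
  obtain ⟨lab, hlab⟩ := cod_x6 hC z hz D d hd
  have hR : N = Ψ.range := by
    rw [hN, psi_range D.ι Ψ hΨ', crd_sup D]
  have hK : FExpd (∀ k, Fin (64 * (Nat.card (D.T k) ^ ((1 + m) * d)) ^ 2) → D.T k) kK κK := by
    refine hkex D.K (fun k => D.T k) (fun k => key (D.rep k)) (fun k k' h => hD k k' h) ?_ ?_
    · intro k
      have := hC.smp (D.rep k)
      exact this.toNontrivial
    · intro k
      exact htyp (D.rep k)
  exact hmain G D.K (fun k => D.Y k)
    (fun k => Fin (64 * (Nat.card (D.T k) ^ ((1 + m) * d)) ^ 2)) (fun k => D.T k)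
    (fun k => hC.prf (D.rep k)) Ψ D.ac (fun i k => z (D.rep k) i) (cHz D z) hld lab hlab N hR hQ hK

end Pool.Agent.MPfe8e9bN
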