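import Mathlib
import Pool.Agent.Lib.MP_fe8e9b_al_N.Defs6
import Pool.Agent.Lib.MP_fe8e9b_al_M.AutAlt

/-!
# MP_fe8e9b_al, groups of bounded height: invariant classes in alternating groups
-/

set_option autoImplicit false

open scoped BigOperators

namespace Pool.Agent.MPfe8e9bN

open Pool.Agent.MPfe8e9b Pool.Agent.MPfe8e9bA Pool.Agent.MPfe8e9bW Pool.Agent.MPfe8e9bV
open Pool.Agent.MPfe8e9bM

private theorem zalt_rot {α : Type} [DecidableEq α] {x y z : α} (hxy : x ≠ y) (hxz : x ≠ z) :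
    AutAlt.C x y z = AutAlt.C y z x := by
  have h := Equiv.swap_apply_apply (Equiv.swap y z) x y
  rw [Equiv.swap_apply_of_ne_of_ne hxy hxz, Equiv.swap_apply_left, Equiv.swap_inv] at h
  rw [AutAlt.C, AutAlt.C, Equiv.swap_comm z x, h, ← mul_assoc, ← mul_assoc, Equiv.swap_mul_self,
    one_mul]

private theorem zalt_cinv {α : Type} [DecidableEq α] (x y z : α) :
    (AutAlt.C x y z)⁻¹ = AutAlt.C z y x := by
  rw [AutAlt.C, AutAlt.C, mul_inv_rev, Equiv.swap_inv, Equiv.swap_inv, Equiv.swap_comm y z,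
    Equiv.swap_comm x y]

private theorem zalt_conj {α : Type} [DecidableEq α] (g : Equiv.Perm α) (x y z : α) :
    g * AutAlt.C x y z * g⁻¹ = AutAlt.C (g x) (g y) (g z) := by
  rw [AutAlt.C, AutAlt.C, Equiv.swap_apply_apply, Equiv.swap_apply_apply]
  group

private theorem zalt_a {α : Type} [DecidableEq α] {x y z : α} (hxy : x ≠ y) (hxz : x ≠ z) :
    AutAlt.C x y z x = y := by
  rw [AutAlt.C, Equiv.Perm.mul_apply, Equiv.swap_apply_of_ne_of_ne hxy hxz, Equiv.swap_apply_left]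

private theorem zalt_b {α : Type} [DecidableEq α] {x y z : α} (hxz : x ≠ z) (hyz : y ≠ z) :
    AutAlt.C x y z y = z := by
  rw [AutAlt.C, Equiv.Perm.mul_apply, Equiv.swap_apply_left,
    Equiv.swap_apply_of_ne_of_ne hxz.symm hyz.symm]

private theorem zalt_c {α : Type} [DecidableEq α] (x y z : α) : AutAlt.C x y z z = x := by
  rw [AutAlt.C, Equiv.Perm.mul_apply, Equiv.swap_apply_right, Equiv.swap_apply_right]

private theorem zalt_o {α : Type} [DecidableEq α] {x y z w : α} (hx : w ≠ x) (hy : w ≠ y)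
    (hz : w ≠ z) : AutAlt.C x y z w = w := by
  rw [AutAlt.C, Equiv.Perm.mul_apply, Equiv.swap_apply_of_ne_of_ne hy hz,
    Equiv.swap_apply_of_ne_of_ne hx hy]

private theorem zalt_gen {α : Type} [DecidableEq α] (P : Equiv.Perm α → Prop)
    (hm : ∀ g h, P g → P h → P (g * h)) (hi : ∀ g, P g → P g⁻¹) {p q : α} (hpq : p ≠ q)
    (hT : ∀ x, x ≠ p → x ≠ q → P (AutAlt.C p q x)) {x y z : α} (hxy : x ≠ y) (hxz : x ≠ z)
    (hyz : y ≠ z) : P (AutAlt.C x y z) := by
  have hc : ∀ g h, P g → P h → P (g * h * g⁻¹) := fun g h hg hh => hm _ _ (hm _ _ hg hh) (hi _ hg)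
  have h1 : ∀ x y, x ≠ p → x ≠ q → y ≠ p → y ≠ q → x ≠ y → P (AutAlt.C p x y) := by
    intro x y hxp hxq hyp hyq hxy
    have h2 := hc _ _ (hi _ (hT y hyp hyq)) (hT x hxp hxq)
    rw [zalt_conj, zalt_cinv, zalt_c, zalt_b hyp hpq.symm, zalt_o hxy hxq hxp,
      zalt_rot hyp hxy.symm] at h2
    exact h2
  have h2 : ∀ y, y ≠ p → y ≠ q → P (AutAlt.C q p y) := by
    intro y hyp hyq
    have h3 := hi _ (hT y hyp hyq)
    rw [zalt_cinv, zalt_rot hyq hyp] at h3
    exact h3
  have hp : ∀ y z, y ≠ p → z ≠ p → y ≠ z → P (AutAlt.C p y z) := by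
    intro y z hyp hzp hyz
    by_cases hyq : y = q
    · subst hyq
      exact hT z hzp hyz.symm
    by_cases hzq : z = q
    · subst hzq
      rw [← zalt_rot hzp hyz.symm]
      exact h2 y hyp hyq
    · exact h1 y z hyp hyq hzp hzq hyz
  have hq : ∀ y z, y ≠ p → y ≠ q → z ≠ p → z ≠ q → y ≠ z → P (AutAlt.C q y z) := by
    intro y z hyp hyq hzp hzq hyz
    have h3 := hc _ _ (hT y hyp hyq) (hT z hzp hzq)
    rw [zalt_conj, zalt_a hpq hyp.symm, zalt_b hyp.symm hyq.symm,
      zalt_o hzp hzq hyz.symm] at h3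
    exact h3
  have ho : ∀ x y z, x ≠ p → x ≠ q → y ≠ p → y ≠ q → z ≠ p → z ≠ q → x ≠ y → x ≠ z → y ≠ z →
      P (AutAlt.C x y z) := by
    intro x y z hxp hxq hyp hyq hzp hzq hxy hxz hyz
    have h3 := hc _ _ (hT x hxp hxq) (hq y z hyp hyq hzp hzq hyz)
    rw [zalt_conj, zalt_b hxp.symm hxq.symm, zalt_o hyp hyq hxy.symm,
      zalt_o hzp hzq hxz.symm] at h3
    exact h3
  by_cases hxp : x = p
  · subst hxp
    exact hp y z hxy.symm hxz.symm hyz
  by_cases hyp : y = p
  · subst hyp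
    rw [zalt_rot hxy hxz]
    exact hp z x hyz.symm hxp hxz.symm
  by_cases hzp : z = p
  · subst hzp
    rw [← zalt_rot hxz.symm hyz.symm]
    exact hp x y hxp hyp hxy
  by_cases hxq : x = q
  · subst hxq
    exact hq y z hyp hxy.symm hzp hxz.symm hyz
  by_cases hyq : y = q
  · subst hyq
    rw [zalt_rot hxy hxz]
    exact hq z x hzp hyz.symm hxp hxq hxz.symm
  by_cases hzq : z = q
  · subst hzq
    rw [← zalt_rot hxz.symm hyz.symm]
    exact hq x y hxp hxq hyp hyq hxy
  exact ho x y z hxp hxq hyp hyq hzp hzq hxy hxz hyz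

/-- An element of the alternating group which commutes with an odd permutation is mapped to a
conjugate by every automorphism, if the degree is not six.

Proof. `aut_alt`: `l` is the conjugation by some `σ`. If `σ` is even put `t = σ`, if it is odd
`t = σ * τ` with the odd permutation `τ` which commutes with `a`. -/
theorem za_inv {n : ℕ} (hn : 5 ≤ n) (h6 : n ≠ 6) (a : alternatingGroup (Fin n))
    (τ : Equiv.Perm (Fin n)) (hτ : Equiv.Perm.sign τ = -1) (h : τ * a.1 = a.1 * τ)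
    (l : MulAut (alternatingGroup (Fin n))) : ∃ t, l a = t * a * t⁻¹ := by
  obtain ⟨σ, hσ⟩ := aut_alt hn h6 l
  rcases Int.units_eq_one_or (Equiv.Perm.sign σ) with hs | hs
  · refine ⟨⟨σ, Equiv.Perm.mem_alternatingGroup.2 hs⟩, Subtype.ext ?_⟩
    exact hσ a
  · refine ⟨⟨σ * τ, Equiv.Perm.mem_alternatingGroup.2 ?_⟩, Subtype.ext ?_⟩
    · rw [Equiv.Perm.sign_mul, hs, hτ]
      rfl
    · have h1 : ((l a : alternatingGroup (Fin n)) : Equiv.Perm (Fin n)) = σ * a.1 * σ⁻¹ := hσ a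
      rw [h1]
      change σ * a.1 * σ⁻¹ = σ * τ * a.1 * (σ * τ)⁻¹
      rw [mul_assoc σ τ, h, mul_inv_rev]
      group

/-- The cycle of the points different from the first two. -/
private def zalt_fv (n i : ℕ) : ℕ := if i < 2 then i else if i + 1 < n then i + 1 else 2

private theorem zalt_fv_lt {n : ℕ} (hn : 5 ≤ n) (i : ℕ) (hi : i < n) : zalt_fv n i < n := by
  unfold zalt_fv
  split_ifs <;> omega

private theorem zalt_bij {n : ℕ} (hn : 5 ≤ n) : Function.Bijective
    (fun i : Fin n => (⟨zalt_fv n i.1, zalt_fv_lt hn i.1 i.2⟩ : Fin n)) := by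
  refine Finite.injective_iff_bijective.1 fun i j h => ?_
  have hi := i.2
  have hj := j.2
  have h1 : zalt_fv n i.1 = zalt_fv n j.1 := congrArg Fin.val h
  unfold zalt_fv at h1
  apply Fin.ext
  split_ifs at h1 <;> omega

/-- The cycle of the points different from the first two. -/
private noncomputable def zalt_p (n : ℕ) (hn : 5 ≤ n) : Equiv.Perm (Fin n) :=
  Equiv.ofBijective _ (zalt_bij hn)

private theorem zalt_p_val {n : ℕ} (hn : 5 ≤ n) (i : Fin n) :
    (zalt_p n hn i).1 = zalt_fv n i.1 := rfl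

private theorem zalt_p_small {n : ℕ} (hn : 5 ≤ n) (i : Fin n) (hi : i.1 < 2) :
    zalt_p n hn i = i := by
  apply Fin.ext
  rw [zalt_p_val, zalt_fv, if_pos hi]

private theorem zalt_p_ge {n : ℕ} (hn : 5 ≤ n) (i : Fin n) (hi : 2 ≤ i.1) :
    2 ≤ (zalt_p n hn i).1 := by
  rw [zalt_p_val, zalt_fv, if_neg (by omega)]
  split_ifs <;> omega

private theorem zalt_p_big {n : ℕ} (hn : 5 ≤ n) (i : Fin n) (hi : 2 ≤ i.1) (h : i.1 + 1 < n) :
    zalt_p n hn i = ⟨i.1 + 1, h⟩ := by
  apply Fin.ext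
  rw [zalt_p_val, zalt_fv, if_neg (by omega), if_pos h]

private theorem zalt_orb {n : ℕ} (hn : 5 ≤ n) (a : Equiv.Perm (Fin n))
    (ha : ∀ i : Fin n, 2 ≤ i.1 → a i = zalt_p n hn i) (k : ℕ) (hk : 2 + k < n) :
    (a ^ k) ⟨2, by omega⟩ = ⟨2 + k, hk⟩ := by
  induction k with
  | zero => rfl
  | succ k ih =>
    rw [pow_succ', Equiv.Perm.mul_apply, ih (by omega), ha _ (by dsimp only; omega),
      zalt_p_big hn _ (by dsimp only; omega) (by dsimp only; omega)]
    rfl

/-- An even permutation which commutes with the transposition of the first two points and is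
transitive on the other points.

Proof. Let `p` be a cycle on the points different from `0`, `1` (for example
`List.formPerm`, or transport `finRotate (n - 2)`), take `p` or `swap 0 1 * p`, whichever is
even. -/
theorem za_cyc {n : ℕ} (hn : 5 ≤ n) : ∃ a : alternatingGroup (Fin n),
    Equiv.swap ⟨0, by omega⟩ ⟨1, by omega⟩ * a.1 = a.1 * Equiv.swap ⟨0, by omega⟩ ⟨1, by omega⟩ ∧
    ∀ x : Fin n, 2 ≤ x.1 → ∃ k : ℕ, (a.1 ^ k) ⟨2, by omega⟩ = x := by
  have h01 : (⟨0, by omega⟩ : Fin n) ≠ ⟨1, by omega⟩ := fun h => by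
    have := congrArg Fin.val h
    simp at this
  have hcom : Equiv.swap (⟨0, by omega⟩ : Fin n) ⟨1, by omega⟩ * zalt_p n hn =
      zalt_p n hn * Equiv.swap ⟨0, by omega⟩ ⟨1, by omega⟩ := by
    rw [Equiv.mul_swap_eq_swap_mul, zalt_p_small hn _ (by norm_num),
      zalt_p_small hn _ (by norm_num)]
  have hfix : ∀ i : Fin n, 2 ≤ i.1 →
      Equiv.swap (⟨0, by omega⟩ : Fin n) ⟨1, by omega⟩ i = i := by
    intro i hi
    refine Equiv.swap_apply_of_ne_of_ne ?_ ?_
    · intro h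
      rw [h] at hi
      norm_num at hi
    · intro h
      rw [h] at hi
      norm_num at hi
  have hfin : ∀ a : Equiv.Perm (Fin n), (∀ i : Fin n, 2 ≤ i.1 → a i = zalt_p n hn i) →
      ∀ x : Fin n, 2 ≤ x.1 → ∃ k : ℕ, (a ^ k) ⟨2, by omega⟩ = x := by
    intro a ha x hx
    refine ⟨x.1 - 2, ?_⟩
    rw [zalt_orb hn a ha (x.1 - 2) (by have := x.2; omega)]
    apply Fin.ext
    dsimp only
    omega
  rcases Int.units_eq_one_or (Equiv.Perm.sign (zalt_p n hn)) with hs | hs
  · exact ⟨⟨zalt_p n hn, Equiv.Perm.mem_alternatingGroup.2 hs⟩, hcom,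
      hfin _ fun i _ => rfl⟩
  · refine ⟨⟨Equiv.swap ⟨0, by omega⟩ ⟨1, by omega⟩ * zalt_p n hn,
      Equiv.Perm.mem_alternatingGroup.2 ?_⟩, ?_, hfin _ fun i hi => ?_⟩
    · rw [Equiv.Perm.sign_mul, hs, Equiv.Perm.sign_swap h01]
      rfl
    · change Equiv.swap (⟨0, by omega⟩ : Fin n) ⟨1, by omega⟩ *
        (Equiv.swap ⟨0, by omega⟩ ⟨1, by omega⟩ * zalt_p n hn) =
        Equiv.swap ⟨0, by omega⟩ ⟨1, by omega⟩ * zalt_p n hn *
          Equiv.swap ⟨0, by omega⟩ ⟨1, by omega⟩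
      rw [mul_assoc, ← hcom]
    · change Equiv.swap (⟨0, by omega⟩ : Fin n) ⟨1, by omega⟩ (zalt_p n hn i) = _
      exact hfix _ (zalt_p_ge hn i hi)

/-- The three-cycles `(0 1 x)` generate the alternating group.

Proof. See `closure_three_cycles_eq_alternating` of Mathlib and the proof of `aut_alt'` in file
M/AutAlt: every three-cycle `(x y z)` is a product of elements `(0 1 u)^(±1)`:
`(0 x y) = (0 1 y) (0 1 x)^(-1) ...` (find the formula by evaluation at all points), and so on. -/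
theorem za_three {n : ℕ} (hn : 5 ≤ n) (R : Subgroup (alternatingGroup (Fin n)))
    (h : ∀ (x : Fin n), 2 ≤ x.1 → ∀ c : alternatingGroup (Fin n),
      c.1 = Equiv.swap ⟨0, by omega⟩ ⟨1, by omega⟩ * Equiv.swap ⟨1, by omega⟩ x → c ∈ R) :
    R = ⊤ := by
  have h01 : (⟨0, by omega⟩ : Fin n) ≠ ⟨1, by omega⟩ := fun h => by
    have := congrArg Fin.val h
    simp at this
  let P : Equiv.Perm (Fin n) → Prop := fun g => ∃ hg : g ∈ alternatingGroup (Fin n), ⟨g, hg⟩ ∈ R
  have hm : ∀ g h, P g → P h → P (g * h) := by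
    rintro g h ⟨hg, hg'⟩ ⟨hh, hh'⟩
    exact ⟨mul_mem hg hh, R.mul_mem hg' hh'⟩
  have hi : ∀ g, P g → P g⁻¹ := by
    rintro g ⟨hg, hg'⟩
    exact ⟨inv_mem hg, R.inv_mem hg'⟩
  have hT : ∀ x, x ≠ (⟨0, by omega⟩ : Fin n) → x ≠ (⟨1, by omega⟩ : Fin n) →
      P (AutAlt.C ⟨0, by omega⟩ ⟨1, by omega⟩ x) := by
    intro x h0 h1
    have hx : 2 ≤ x.1 := by
      by_contra hcon
      have h2 : x.1 = 0 ∨ x.1 = 1 := by omega
      rcases h2 with h2 | h2
      · exact h0 (Fin.ext h2)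
      · exact h1 (Fin.ext h2)
    have hal : AutAlt.C (⟨0, by omega⟩ : Fin n) ⟨1, by omega⟩ x ∈ alternatingGroup (Fin n) := by
      rw [Equiv.Perm.mem_alternatingGroup, AutAlt.C, Equiv.Perm.sign_mul,
        Equiv.Perm.sign_swap h01, Equiv.Perm.sign_swap h1.symm]
      rfl
    exact ⟨hal, h x hx ⟨_, hal⟩ rfl⟩
  rw [eq_top_iff]
  intro s _
  have hcl : (s : Equiv.Perm (Fin n)) ∈
      Subgroup.closure {g : Equiv.Perm (Fin n) | Equiv.Perm.IsThreeCycle g} := by
    rw [Equiv.Perm.closure_three_cycles_eq_alternating]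
    exact s.2
  have hall : P (s : Equiv.Perm (Fin n)) := by
    refine Subgroup.closure_induction (p := fun g _ => P g) ?_ ⟨one_mem _, R.one_mem⟩
      (fun _ _ _ _ h1 h2 => hm _ _ h1 h2) (fun _ _ h1 => hi _ h1) hcl
    intro g hg
    have hg' : Equiv.Perm.IsThreeCycle g := hg
    obtain ⟨x, hx⟩ : ∃ x, g x ≠ x := by
      by_contra hcon
      push Not at hcon
      exact hg'.ne_one (Equiv.ext hcon)
    have h3 : g ^ 3 = 1 := by
      rw [← hg'.orderOf]
      exact pow_orderOf_eq_one _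
    have h1 : g (g (g x)) = x := by
      have h4 := DFunLike.congr_fun h3 x
      simpa [pow_succ] using h4
    have n1 : g (g x) ≠ g x := fun h => hx (g.injective h)
    have n2 : g (g x) ≠ x := by
      intro h
      rw [h] at h1
      exact hx h1
    have he : g = AutAlt.C x (g x) (g (g x)) :=
      hg'.eq_swap_mul_swap_iff_mem_support.2 (Equiv.Perm.mem_support.2 hx)
    rw [he]
    exact zalt_gen P hm hi h01 hT hx.symm n2.symm n1.symm
  exact hall.2

/-- Two elements with invariant classes.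

Proof. `c = (0 1 2)` (that is `swap 0 1 * swap 1 2`), which commutes with `swap 3 4`, and `a` from
`za_cyc`, which commutes with `swap 0 1`. The conjugate of `c` by `a ^ k` is
`swap (a^k 0) (a^k 1) * swap (a^k 1) (a^k 2)` with `{a^k 0, a^k 1} = {0, 1}`; it is
`swap 0 1 * swap 1 x` or `swap 1 0 * swap 0 x`, which is the inverse of the former. `za_three`. -/
theorem za_n {n : ℕ} (hn : 5 ≤ n) (h6 : n ≠ 6) : ∃ z : Fin 2 → alternatingGroup (Fin n),
    Gnr z ∧ ∀ l, l ∈ ccl z := by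
  obtain ⟨a, hcom, htr⟩ := za_cyc hn
  have h01 : (⟨0, by omega⟩ : Fin n) ≠ ⟨1, by omega⟩ := fun h => by
    have := congrArg Fin.val h
    simp at this
  have h12 : (⟨1, by omega⟩ : Fin n) ≠ ⟨2, by omega⟩ := fun h => by
    have := congrArg Fin.val h
    simp at this
  have h34 : (⟨3, by omega⟩ : Fin n) ≠ ⟨4, by omega⟩ := fun h => by
    have := congrArg Fin.val h
    simp at this
  let c : alternatingGroup (Fin n) := ⟨AutAlt.C ⟨0, by omega⟩ ⟨1, by omega⟩ ⟨2, by omega⟩, by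
    rw [Equiv.Perm.mem_alternatingGroup, AutAlt.C, Equiv.Perm.sign_mul,
      Equiv.Perm.sign_swap h01, Equiv.Perm.sign_swap h12]
    rfl⟩
  have hcc : Equiv.swap (⟨3, by omega⟩ : Fin n) ⟨4, by omega⟩ * c.1 =
      c.1 * Equiv.swap ⟨3, by omega⟩ ⟨4, by omega⟩ := by
    have e3 : c.1 (⟨3, by omega⟩ : Fin n) = ⟨3, by omega⟩ := by
      refine zalt_o ?_ ?_ ?_ <;> intro h <;> have := congrArg Fin.val h <;> simp at this
    have e4 : c.1 (⟨4, by omega⟩ : Fin n) = ⟨4, by omega⟩ := by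
      refine zalt_o ?_ ?_ ?_ <;> intro h <;> have := congrArg Fin.val h <;> simp at this
    rw [Equiv.mul_swap_eq_swap_mul, e3, e4]
  refine ⟨![c, a], ?_, ?_⟩
  · intro R hR
    have hcR : c ∈ R := hR 0
    have haR : a ∈ R := hR 1
    refine za_three hn R fun x hx d hd => ?_
    obtain ⟨k, hk⟩ := htr x hx
    set b : Equiv.Perm (Fin n) := a.1 ^ k with hb
    have hbc : ∀ y, Equiv.swap (⟨0, by omega⟩ : Fin n) ⟨1, by omega⟩ (b y) =
        b (Equiv.swap ⟨0, by omega⟩ ⟨1, by omega⟩ y) := by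
      intro y
      have h1 : Commute (Equiv.swap (⟨0, by omega⟩ : Fin n) ⟨1, by omega⟩) (a.1 ^ k) :=
        Commute.pow_right hcom k
      exact DFunLike.congr_fun h1.eq y
    have hb1 : Equiv.swap (⟨0, by omega⟩ : Fin n) ⟨1, by omega⟩ (b ⟨0, by omega⟩) =
        b ⟨1, by omega⟩ := by
      rw [hbc, Equiv.swap_apply_left]
    have hb0 : b ⟨0, by omega⟩ = ⟨0, by omega⟩ ∨ b ⟨0, by omega⟩ = (⟨1, by omega⟩ : Fin n) := by
      by_contra hcon
      push Not at hcon
      rw [Equiv.swap_apply_of_ne_of_ne hcon.1 hcon.2] at hb1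
      exact h01 (b.injective hb1)
    have hconj : (a ^ k * c * (a ^ k)⁻¹).1 =
        AutAlt.C (b ⟨0, by omega⟩) (b ⟨1, by omega⟩) x := by
      have h1 : (a ^ k * c * (a ^ k)⁻¹).1 =
          b * AutAlt.C ⟨0, by omega⟩ ⟨1, by omega⟩ ⟨2, by omega⟩ * b⁻¹ := rfl
      rw [h1, zalt_conj, hk]
    have hmem : a ^ k * c * (a ^ k)⁻¹ ∈ R :=
      R.mul_mem (R.mul_mem (R.pow_mem haR k) hcR) (R.inv_mem (R.pow_mem haR k))
    rcases hb0 with h0 | h0
    · rw [h0, Equiv.swap_apply_left] at hb1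
      have h2 : d = a ^ k * c * (a ^ k)⁻¹ := by
        refine Subtype.ext ?_
        rw [hconj, h0, ← hb1, hd]
        rfl
      rw [h2]
      exact hmem
    · rw [h0, Equiv.swap_apply_right] at hb1
      have h2 : d = (a ^ k * c * (a ^ k)⁻¹)⁻¹ := by
        refine Subtype.ext ?_
        have h3 : ((a ^ k * c * (a ^ k)⁻¹)⁻¹).1 = ((a ^ k * c * (a ^ k)⁻¹).1)⁻¹ := rfl
        have hx0 : x ≠ (⟨0, by omega⟩ : Fin n) := fun h => by
          have := congrArg Fin.val h
          dsimp only at this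
          omega
        have hx1 : x ≠ (⟨1, by omega⟩ : Fin n) := fun h => by
          have := congrArg Fin.val h
          dsimp only at this
          omega
        rw [h3, hconj, h0, ← hb1, zalt_cinv, zalt_rot hx0 hx1, hd]
        rfl
      rw [h2]
      exact R.inv_mem hmem
  · intro l
    rw [mem_ccl]
    intro i
    have hs34 : Equiv.Perm.sign (Equiv.swap (⟨3, by omega⟩ : Fin n) ⟨4, by omega⟩) = -1 :=
      Equiv.Perm.sign_swap h34
    have hs01 : Equiv.Perm.sign (Equiv.swap (⟨0, by omega⟩ : Fin n) ⟨1, by omega⟩) = -1 :=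
      Equiv.Perm.sign_swap h01
    fin_cases i
    · exact za_inv hn h6 c _ hs34 hcc l
    · exact za_inv hn h6 a _ hs01 hcom l

private theorem zalt_ct (a : alternatingGroup (Fin 6)) (ha : a * a = 1) (ha' : a ≠ 1) :
    (a.1).cycleType = Multiset.replicate 2 2 := by
  have h2 : a.1 ^ 2 = 1 := by
    rw [pow_two]
    exact congrArg Subtype.val ha
  have h3 := Equiv.Perm.cycleType_of_pow_prime_eq_one (p := 2) h2
  obtain ⟨k, hk⟩ : ∃ k, (a.1).cycleType = Multiset.replicate k 2 := ⟨_, h3⟩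
  have hk0 : k ≠ 0 := by
    rintro rfl
    rw [Multiset.replicate_zero, Equiv.Perm.cycleType_eq_zero] at hk
    exact ha' (Subtype.ext hk)
  have h4 : k * 2 ≤ 6 := by
    have h5 := Equiv.Perm.sum_cycleType_le a.1
    rw [hk, Multiset.sum_replicate, smul_eq_mul, Fintype.card_fin] at h5
    exact h5
  have hs : Equiv.Perm.sign a.1 = 1 := Equiv.Perm.mem_alternatingGroup.1 a.2
  rw [Equiv.Perm.sign_of_cycleType, hk, Multiset.sum_replicate, Multiset.card_replicate,
    smul_eq_mul] at hs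
  have hk3 : k = 1 ∨ k = 2 ∨ k = 3 := by omega
  rcases hk3 with rfl | rfl | rfl
  · exact absurd hs (by decide)
  · exact hk
  · exact absurd hs (by decide)

/-- The product of two disjoint transpositions. -/
private def zalt_s (p q u v : Fin 6) (h1 : p ≠ q) (h2 : u ≠ v) : alternatingGroup (Fin 6) :=
  ⟨Equiv.swap p q * Equiv.swap u v, by
    rw [Equiv.Perm.mem_alternatingGroup, Equiv.Perm.sign_mul, Equiv.Perm.sign_swap h1,
      Equiv.Perm.sign_swap h2]
    rfl⟩

private theorem zalt_s_sq (p q u v : Fin 6) (h1 : p ≠ q) (h2 : u ≠ v) (h3 : u ≠ p) (h4 : u ≠ q)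
    (h5 : v ≠ p) (h6 : v ≠ q) : zalt_s p q u v h1 h2 * zalt_s p q u v h1 h2 = 1 := by
  refine Subtype.ext ?_
  change Equiv.swap p q * Equiv.swap u v * (Equiv.swap p q * Equiv.swap u v) = 1
  have h7 : Equiv.swap p q * Equiv.swap u v = Equiv.swap u v * Equiv.swap p q := by
    rw [Equiv.mul_swap_eq_swap_mul, Equiv.swap_apply_of_ne_of_ne h3 h4,
      Equiv.swap_apply_of_ne_of_ne h5 h6]
  rw [mul_assoc, ← mul_assoc (Equiv.swap u v), ← h7, mul_assoc, Equiv.swap_mul_self, mul_one,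
    Equiv.swap_mul_self]

/-- All involutions of the alternating group of degree six are conjugate.

Proof. The cycle type of an element of order two of the symmetric group of degree six is a multiset
of `k` numbers two, `k ≤ 3`, and `k` is even as the sign is one, so `k = 2`. So the elements are
conjugate in the symmetric group (`Equiv.Perm.isConj_iff_cycleType_eq`); `b = (0 1)(2 3)` commutes
with the odd permutation `swap 0 1`, so every element of order two is conjugate to `b` in the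
alternating group. -/
theorem za_six (a b : alternatingGroup (Fin 6)) (ha : a * a = 1) (ha' : a ≠ 1) (hb : b * b = 1)
    (hb' : b ≠ 1) : ∃ t, b = t * a * t⁻¹ := by
  have ca := zalt_ct a ha ha'
  have cb := zalt_ct b hb hb'
  let b0 : alternatingGroup (Fin 6) := zalt_s 0 1 2 3 (by decide) (by decide)
  have hb0 : b0 * b0 = 1 := zalt_s_sq 0 1 2 3 _ _ (by decide) (by decide) (by decide) (by decide)
  have hb0' : b0 ≠ 1 := by
    intro h
    have h1 := congrArg (fun s : alternatingGroup (Fin 6) => s.1 2) h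
    have h2 : (Equiv.swap (0 : Fin 6) 1 * Equiv.swap 2 3 : Equiv.Perm (Fin 6)) 2 = 2 := h1
    exact absurd h2 (by decide)
  have c0 := zalt_ct b0 hb0 hb0'
  have hab : IsConj a.1 b.1 := Equiv.Perm.isConj_iff_cycleType_eq.2 (ca.trans cb.symm)
  have h0a : IsConj b0.1 a.1 := Equiv.Perm.isConj_iff_cycleType_eq.2 (c0.trans ca.symm)
  obtain ⟨σ, hσ⟩ := isConj_iff.1 hab
  obtain ⟨ρ, hρ⟩ := isConj_iff.1 h0a
  have h01 : (0 : Fin 6) ≠ 1 := by decide
  have hc0 : Equiv.swap (0 : Fin 6) 1 * b0.1 = b0.1 * Equiv.swap 0 1 := by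
    rw [Equiv.mul_swap_eq_swap_mul]
    have e0 : b0.1 0 = 1 := by
      change (Equiv.swap (0 : Fin 6) 1 * Equiv.swap 2 3 : Equiv.Perm (Fin 6)) 0 = 1
      decide
    have e1 : b0.1 1 = 0 := by
      change (Equiv.swap (0 : Fin 6) 1 * Equiv.swap 2 3 : Equiv.Perm (Fin 6)) 1 = 0
      decide
    rw [e0, e1, Equiv.swap_comm 1 0]
  rcases Int.units_eq_one_or (Equiv.Perm.sign σ) with hs | hs
  · refine ⟨⟨σ, Equiv.Perm.mem_alternatingGroup.2 hs⟩, Subtype.ext ?_⟩
    exact hσ.symm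
  · refine ⟨⟨σ * (ρ * Equiv.swap 0 1 * ρ⁻¹), Equiv.Perm.mem_alternatingGroup.2 ?_⟩,
      Subtype.ext ?_⟩
    · rw [Equiv.Perm.sign_mul, hs, Equiv.Perm.sign_mul, Equiv.Perm.sign_mul,
        Equiv.Perm.sign_inv, Equiv.Perm.sign_swap h01, mul_right_comm, ← Equiv.Perm.sign_inv ρ]
      rcases Int.units_eq_one_or (Equiv.Perm.sign ρ⁻¹) with h | h <;> rw [h] <;> rfl
    · change b.1 = σ * (ρ * Equiv.swap 0 1 * ρ⁻¹) * a.1 * (σ * (ρ * Equiv.swap 0 1 * ρ⁻¹))⁻¹
      have h2 : (ρ * Equiv.swap 0 1 * ρ⁻¹) * a.1 * (ρ * Equiv.swap 0 1 * ρ⁻¹)⁻¹ = a.1 := by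
        rw [← hρ]
        calc ρ * Equiv.swap 0 1 * ρ⁻¹ * (ρ * b0.1 * ρ⁻¹) * (ρ * Equiv.swap 0 1 * ρ⁻¹)⁻¹
            = ρ * (Equiv.swap 0 1 * b0.1) * (Equiv.swap 0 1)⁻¹ * ρ⁻¹ := by group
          _ = ρ * (b0.1 * Equiv.swap 0 1) * (Equiv.swap 0 1)⁻¹ * ρ⁻¹ := by rw [hc0]
          _ = ρ * b0.1 * ρ⁻¹ := by group
      calc b.1 = σ * a.1 * σ⁻¹ := hσ.symm
        _ = σ * ((ρ * Equiv.swap 0 1 * ρ⁻¹) * a.1 * (ρ * Equiv.swap 0 1 * ρ⁻¹)⁻¹) * σ⁻¹ := by
          rw [h2]
        _ = _ := by group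

/-- Degree six: the family of all involutions (and of ones).

Proof. `z i = a i` if `a i * a i = 1`, else `1`, where `a : Fin 360 ≃ alternatingGroup (Fin 6)`.
An automorphism maps involutions to involutions: `za_six`. Generation: `za_three`: `swap 0 1 *
swap 1 x` is the product of the involutions `swap 0 1 * swap u v` and `swap u v * swap 1 x`, `u`,
`v` different from `0`, `1`, `x`. -/
theorem za_z6 : ∃ z : Fin 360 → alternatingGroup (Fin 6), Gnr z ∧ ∀ l, l ∈ ccl z := by
  have hcard : Fintype.card (alternatingGroup (Fin 6)) = 360 := by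
    have h1 := two_mul_card_alternatingGroup (α := Fin 6)
    rw [Fintype.card_perm, Fintype.card_fin] at h1
    have h2 : Nat.factorial 6 = 720 := rfl
    omega
  let e : Fin 360 ≃ alternatingGroup (Fin 6) := (Fintype.equivFinOfCardEq hcard).symm
  classical
  let z : Fin 360 → alternatingGroup (Fin 6) := fun i => if e i * e i = 1 then e i else 1
  have hz : ∀ c : alternatingGroup (Fin 6), c * c = 1 → ∃ i, z i = c := by
    intro c hc
    refine ⟨e.symm c, ?_⟩
    change (if e (e.symm c) * e (e.symm c) = 1 then e (e.symm c) else 1) = c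
    rw [Equiv.apply_symm_apply, if_pos hc]
  refine ⟨z, ?_, ?_⟩
  · intro R hR
    have hinv : ∀ c : alternatingGroup (Fin 6), c * c = 1 → c ∈ R := by
      intro c hc
      obtain ⟨i, hi⟩ := hz c hc
      rw [← hi]
      exact hR i
    refine za_three (by norm_num) R fun x hx d hd => ?_
    have hx1 : (1 : Fin 6) ≠ x := by
      intro h
      rw [← h] at hx
      exact absurd hx (by decide)
    have hx0 : x ≠ 0 := by
      intro h
      rw [h] at hx
      exact absurd hx (by decide)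
    have main : ∀ u v : Fin 6, u ≠ v → u ≠ 0 → u ≠ 1 → v ≠ 0 → v ≠ 1 → u ≠ x → v ≠ x →
        d ∈ R := by
      intro u v huv hu0 hu1 hv0 hv1 hux hvx
      have h1 := hinv _ (zalt_s_sq 0 1 u v (by decide) huv hu0 hu1 hv0 hv1)
      have h2 := hinv _ (zalt_s_sq 1 x u v hx1 huv hu1 hux hv1 hvx)
      have h3 : d = zalt_s 0 1 u v (by decide) huv * zalt_s 1 x u v hx1 huv := by
        refine Subtype.ext ?_
        rw [hd]
        change Equiv.swap (0 : Fin 6) 1 * Equiv.swap 1 x =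
          Equiv.swap 0 1 * Equiv.swap u v * (Equiv.swap 1 x * Equiv.swap u v)
        have h7 : Equiv.swap 1 x * Equiv.swap u v = Equiv.swap u v * Equiv.swap 1 x := by
          rw [Equiv.mul_swap_eq_swap_mul, Equiv.swap_apply_of_ne_of_ne hu1 hux,
            Equiv.swap_apply_of_ne_of_ne hv1 hvx]
        rw [h7, mul_assoc, ← mul_assoc (Equiv.swap u v), Equiv.swap_mul_self, one_mul]
      rw [h3]
      exact R.mul_mem h1 h2
    by_cases h4 : x.1 ≤ 3
    · refine main 4 5 (by decide) (by decide) (by decide) (by decide) (by decide) ?_ ?_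
      · intro h
        rw [← h] at h4
        exact absurd h4 (by decide)
      · intro h
        rw [← h] at h4
        exact absurd h4 (by decide)
    · refine main 2 3 (by decide) (by decide) (by decide) (by decide) (by decide) ?_ ?_
      · intro h
        rw [← h] at h4
        exact h4 (by decide)
      · intro h
        rw [← h] at h4
        exact h4 (by decide)
  · intro l
    rw [mem_ccl]
    intro i
    by_cases h1 : e i * e i = 1
    · have h2 : z i = e i := if_pos h1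
      rw [h2]
      by_cases h3 : e i = 1
      · refine ⟨1, ?_⟩
        rw [h3, map_one, mul_one, inv_one, mul_one]
      · refine za_six (e i) (l (e i)) h1 h3 ?_ ?_
        · rw [← map_mul, h1, map_one]
        · intro h4
          exact h3 ((map_eq_one_iff l l.injective).1 h4)
    · have h2 : z i = 1 := if_neg h1
      refine ⟨1, ?_⟩
      rw [h2, map_one, mul_one, inv_one, mul_one]

/-- Invariant classes in alternating groups. -/
theorem alt_z {n : ℕ} (hn : 5 ≤ n) : ∃ z : Fin 360 → alternatingGroup (Fin n),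
    Gnr z ∧ ∀ l, l ∈ ccl z := by
  by_cases h6 : n = 6
  · subst h6
    exact za_z6
  · obtain ⟨z, hz, hl⟩ := za_n hn h6
    obtain ⟨z', hz', hl'⟩ := gnr_pad (m := 2) (m' := 360) (by norm_num) z hz
    exact ⟨z', hz', fun l => hl' l (hl l)⟩

end Pool.Agent.MPfe8e9bN
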