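import Mathlib
import Pool.Agent.Lib.MP_fe8e9b_al_N.Defs6
import Pool.Agent.Lib.MP_fe8e9b_al_N.PslA
import Pool.Agent.Lib.MP_fe8e9b_al_N.PslB
import Pool.Agent.Lib.MP_fe8e9b_al_N.AutP

/-!
# MP_fe8e9b_al, groups of bounded height: invariant classes in `PSL_2`
-/

set_option autoImplicit false

open scoped BigOperators MatrixGroups

namespace Pool.Agent.MPfe8e9bN

open Pool.Agent.MPfe8e9b Pool.Agent.MPfe8e9bA Pool.Agent.MPfe8e9bW Pool.Agent.MPfe8e9bV
open Pool.Agent.MPfe8e9bM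

variable {F : Type} [Field F]

/-- Sums of two squares in finite fields.

Proof. If the characteristic is two every element is a square (`FiniteField.isSquare_of_char_two`);
otherwise `FiniteField.exists_root_sum_quadratic` for the polynomials `X ^ 2` and `X ^ 2 - a`, or
see the file N/TgC (`tgc_...`). -/
theorem zp2_sq [Finite F] (a : F) : ∃ x y : F, a = x ^ 2 + y ^ 2 := by
  classical
  cases nonempty_fintype F
  by_cases h2 : ringChar F = 2
  · obtain ⟨r, hr⟩ := FiniteField.isSquare_of_char_two h2 a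
    exact ⟨r, 0, by rw [hr]; ring⟩
  · have hf : (Polynomial.X ^ 2 : Polynomial F).degree = 2 := Polynomial.degree_X_pow 2
    have hg : (Polynomial.X ^ 2 - Polynomial.C a : Polynomial F).degree = 2 :=
      Polynomial.degree_X_pow_sub_C (by norm_num) a
    obtain ⟨x, y, h⟩ := FiniteField.exists_root_sum_quadratic hf hg
      (FiniteField.odd_card_of_char_ne_two h2)
    refine ⟨x, y, ?_⟩
    simp only [Polynomial.eval_pow, Polynomial.eval_X, Polynomial.eval_sub,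
      Polynomial.eval_C] at h
    linear_combination -h

/-- Noncentral matrices of trace zero are conjugate to `ww`.

Proof. `sl_comp`: `A = P B P⁻¹` with `B = [[0, -l], [l⁻¹, 0]]` (the trace `r` is zero). With
`l = x² + y²` (`zp2_sq`) one has `B = Q ww Q⁻¹` for a matrix `Q` of determinant one: `B Q = Q ww`
means `Q = [[q1, q2], ...]`; try the columns `v`, `B v` of `Q` (then `B (B v) = -v`, so
`B [v, B v] = [B v, -v] = [v, B v] ww`), `v = (s, t)`, `B v = (-l t, l⁻¹ s)`, determinant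
`l⁻¹ s² + l t²`, which is one for `s = x`, `t = y / l`. -/
theorem zp2_conj [Finite F] (A : SL(2, F)) (h : A.1 0 0 + A.1 1 1 = 0)
    (hA : A ∉ Subgroup.center SL(2, F)) : ∃ P : SL(2, F), A = P * ww * P⁻¹ := by
  obtain ⟨P, B, l, r, hl, hB, rfl⟩ := sl_comp A hA
  have hr : r = 0 := by
    have hd := pslb_det P
    simp only [pslb_mul, pslb_inv, hB, pslb_of] at h
    linear_combination h - r * hd
  obtain ⟨x, y, hxy⟩ := zp2_sq l
  subst hr
  let Q : SL(2, F) := ⟨!![x, -y; y / l, l⁻¹ * x], by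
    rw [Matrix.det_fin_two_of]
    field_simp
    linear_combination -hxy⟩
  have hQ : (Q : SL(2, F)).1 = !![x, -y; y / l, l⁻¹ * x] := rfl
  have h1 : B = Q * ww * Q⁻¹ := by
    rw [eq_mul_inv_iff_mul_eq]
    refine pslb_ext ?_ ?_ ?_ ?_ <;> simp only [pslb_mul, pslb_ww, pslb_of, hB, hQ] <;>
      field_simp <;> ring
  refine ⟨P * Q, ?_⟩
  rw [h1]
  group

/-- The class of `ww` is invariant.

Proof. `aut_psl`: `f (mk ww) = cjP M (fP σ (mk ww)) = mk (cjS M (fS σ ww))`; the matrix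
`cjS M (fS σ ww)` has trace zero and is not central (`cjS M` and `fS σ` are automorphisms of
`SL_2`, `ww` is not central); `zp2_conj`. -/
theorem zp2_aut [Finite F] (f : MulAut PSL(2, F)) :
    ∃ t, f (QuotientGroup.mk ww : PSL(2, F)) = t * (QuotientGroup.mk ww : PSL(2, F)) * t⁻¹ := by
  obtain ⟨M, σ, h⟩ := aut_psl f
  have h1 : f (QuotientGroup.mk ww : PSL(2, F)) = QuotientGroup.mk (cjS M (fS σ ww)) := by
    rw [h, fP_mk, cjP_mk]
  have hww : (ww : SL(2, F)) ∉ Subgroup.center SL(2, F) := by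
    intro hc
    have h2 := (Subgroup.mem_center_iff.1 hc) (uu 1)
    have h3 := congrArg (fun X : SL(2, F) => X.1 0 0) h2
    simp only [pslb_mul, pslb_ww, pslb_uu] at h3
    simp at h3
  have h2 : fS σ ww = ww := by
    refine pslb_ext ?_ ?_ ?_ ?_ <;> rw [fS_coe] <;> simp only [pslb_ww] <;> simp
  rw [h2] at h1
  have h3 : (cjS M ww : SL(2, F)) ∉ Subgroup.center SL(2, F) := by
    intro hc
    apply hww
    rw [← map_center (cjS M)] at hc
    obtain ⟨y, hy, hy2⟩ := Subgroup.mem_map.1 hc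
    have h4 : y = ww := (cjS M).injective hy2
    rw [← h4]
    exact hy
  have h4 : (cjS M ww : SL(2, F)).1 0 0 + (cjS M ww : SL(2, F)).1 1 1 = 0 := by
    have h5 : Matrix.trace (cjS M ww : SL(2, F)).1 = Matrix.trace (ww : SL(2, F)).1 := by
      rw [cjS_coe, Matrix.trace_mul_comm, ← Matrix.mul_assoc, ← Units.val_mul, inv_mul_cancel,
        Units.val_one, Matrix.one_mul]
    rw [Matrix.trace_fin_two, Matrix.trace_fin_two] at h5
    rw [h5]
    simp only [pslb_ww]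
    ring
  obtain ⟨P, hP⟩ := zp2_conj _ h4 h3
  refine ⟨QuotientGroup.mk P, ?_⟩
  rw [h1, hP]
  rfl

theorem zp2_dg_pow (g : F) (hg : g ≠ 0) (k : ℕ) (hk : g ^ k ≠ 0) :
    (dg g hg) ^ k = dg (g ^ k) hk := by
  induction k with
  | zero =>
    rw [pow_zero]
    refine pslb_ext ?_ ?_ ?_ ?_ <;> simp only [pslb_dg] <;> simp
  | succ k ih =>
    rw [pow_succ, ih (pow_ne_zero k hg)]
    refine pslb_ext ?_ ?_ ?_ ?_ <;> simp only [pslb_mul, pslb_dg] <;> field_simp <;> ring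

/-- Generation.

Proof. Let `g` be a generator of the group of units, `b = (1 - g²)⁻¹` (`g² ≠ 1` as `F` has at least
four elements). `R` contains the class of `dg g = (dg g * ww) * ww⁻¹` and that of
`uu b * dg g * (uu b)⁻¹ = uu 1 * dg g`, so that of `uu 1`, of `dg g ^ k * uu 1 * (dg g ^ k)⁻¹ =
uu (g ^ (2 k))`, so of `uu (x ^ 2)` for all `x`, of all `uu a` (`zp2_sq`,
`uu (a + b) = uu a * uu b`), and of `ll x = ww * uu (-x) * ww⁻¹`; `sl_four`. -/
theorem zp2_gen [Finite F] (h4 : 4 ≤ Nat.card F) : ∃ (g : F) (hg : g ≠ 0) (b : F),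
    ∀ R : Subgroup PSL(2, F), (QuotientGroup.mk ww : PSL(2, F)) ∈ R →
      (QuotientGroup.mk (dg g hg * ww) : PSL(2, F)) ∈ R →
      (QuotientGroup.mk (uu b * ww * (uu b)⁻¹) : PSL(2, F)) ∈ R →
      (QuotientGroup.mk (uu b * (dg g hg * ww) * (uu b)⁻¹) : PSL(2, F)) ∈ R → R = ⊤ := by
  obtain ⟨g, hgen⟩ : IsCyclic Fˣ := by infer_instance
  have hg : (g : F) ≠ 0 := Units.ne_zero g
  have hg2 : (g : F) ^ 2 ≠ 1 := by
    intro h
    have h1 : g ^ 2 = 1 := Units.ext (by simpa using h)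
    have h2 := orderOf_le_of_pow_eq_one (by norm_num : 0 < 2) h1
    have h3 := orderOf_eq_card_of_forall_mem_zpowers hgen
    have h5 := Nat.card_eq_card_units_add_one F
    omega
  have hb : 1 - (g : F) ^ 2 ≠ 0 := sub_ne_zero.2 (Ne.symm hg2)
  refine ⟨g, hg, (1 - (g : F) ^ 2)⁻¹, fun R h1 h2 h3 h5 => ?_⟩
  obtain ⟨S, hS⟩ : ∃ S : Subgroup SL(2, F), ∀ x, x ∈ S ↔ (QuotientGroup.mk x : PSL(2, F)) ∈ R :=
    ⟨R.comap (QuotientGroup.mk' _), fun x => Iff.rfl⟩
  rw [← hS] at h1 h2 h3 h5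
  have hd : dg (g : F) hg ∈ S := by
    have h6 := S.mul_mem h2 (S.inv_mem h1)
    rwa [mul_inv_cancel_right] at h6
  have hu1 : uu (1 : F) ∈ S := by
    have h6 := S.mul_mem (S.mul_mem h5 (S.inv_mem h3)) (S.inv_mem hd)
    have h7 : uu (1 - (g : F) ^ 2)⁻¹ * (dg (g : F) hg * ww) * (uu (1 - (g : F) ^ 2)⁻¹)⁻¹ *
        (uu (1 - (g : F) ^ 2)⁻¹ * ww * (uu (1 - (g : F) ^ 2)⁻¹)⁻¹)⁻¹ * (dg (g : F) hg)⁻¹ =
        uu 1 := by
      have h8 : uu (1 - (g : F) ^ 2)⁻¹ * (dg (g : F) hg * ww) * (uu (1 - (g : F) ^ 2)⁻¹)⁻¹ *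
        (uu (1 - (g : F) ^ 2)⁻¹ * ww * (uu (1 - (g : F) ^ 2)⁻¹)⁻¹)⁻¹ * (dg (g : F) hg)⁻¹ =
        uu (1 - (g : F) ^ 2)⁻¹ * dg (g : F) hg * (uu (1 - (g : F) ^ 2)⁻¹)⁻¹ *
          (dg (g : F) hg)⁻¹ := by group
      rw [h8]
      refine pslb_ext ?_ ?_ ?_ ?_ <;> simp only [pslb_mul, pslb_uu, pslb_dg, pslb_inv] <;>
        field_simp <;> ring
    rwa [h7] at h6
  have husq : ∀ x : F, x ≠ 0 → uu (x ^ 2) ∈ S := by
    intro x hx
    obtain ⟨k, hk⟩ := (isOfFinOrder_of_finite g).mem_powers_iff_mem_zpowers.2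
      (hgen (Units.mk0 x hx))
    have hk2 : (g : F) ^ k = x := by
      have h6 := congrArg (fun u : Fˣ => (u : F)) hk
      simpa using h6
    have hk3 : (g : F) ^ k ≠ 0 := pow_ne_zero k hg
    have h6 : uu (x ^ 2) = (dg (g : F) hg) ^ k * uu 1 * ((dg (g : F) hg) ^ k)⁻¹ := by
      rw [zp2_dg_pow _ hg k hk3]
      refine pslb_ext ?_ ?_ ?_ ?_ <;> simp only [pslb_mul, pslb_uu, pslb_dg, pslb_inv, hk2] <;>
        field_simp <;> ring
    rw [h6]
    exact S.mul_mem (S.mul_mem (S.pow_mem hd k) hu1) (S.inv_mem (S.pow_mem hd k))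
  have husq' : ∀ x : F, uu (x ^ 2) ∈ S := by
    intro x
    by_cases hx : x = 0
    · rw [hx, zero_pow two_ne_zero, autp_uu_zero]
      exact S.one_mem
    · exact husq x hx
  have hu : ∀ a : F, uu a ∈ S := by
    intro a
    obtain ⟨x, y, hxy⟩ := zp2_sq a
    rw [hxy, autp_uu_add]
    exact S.mul_mem (husq' x) (husq' y)
  have hl : ∀ a : F, ll a ∈ S := by
    intro a
    have h6 : ll a = ww * uu (-a) * ww⁻¹ := by
      refine pslb_ext ?_ ?_ ?_ ?_ <;> simp only [pslb_mul, pslb_ll, pslb_uu, pslb_ww, pslb_inv] <;>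
        ring
    rw [h6]
    exact S.mul_mem (S.mul_mem h1 (hu _)) (S.inv_mem h1)
  rw [eq_top_iff]
  intro X _
  obtain ⟨A, rfl⟩ := QuotientGroup.mk_surjective X
  rw [← hS]
  obtain ⟨x, y, z, w, h⟩ := sl_four A
  rw [h]
  exact S.mul_mem (S.mul_mem (S.mul_mem (hl x) (hu y)) (hl z)) (hu w)

/-- Invariant classes in `PSL_2`.

Proof. The four elements of `zp2_gen`. All of them are conjugate to the class of `ww` (`zp2_conj`
for `dg g hg * ww`, which has trace zero and is not central), so `zp2_aut` and `ccl_cj` give the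
invariance. -/
theorem psl2_z [Finite F] (h4 : 4 ≤ Nat.card F) : ∃ z : Fin 4 → PSL(2, F),
    Gnr z ∧ ∀ l, l ∈ ccl z := by
  obtain ⟨g, hg, b, hR⟩ := zp2_gen h4
  have hc : ∃ P : SL(2, F), dg g hg * ww = P * ww * P⁻¹ := by
    refine zp2_conj _ ?_ ?_
    · simp only [pslb_mul, pslb_dg, pslb_ww]
      ring
    · intro hc
      have h2 := (Subgroup.mem_center_iff.1 hc) (uu 1)
      have h3 := congrArg (fun X : SL(2, F) => X.1 0 0) h2
      simp only [pslb_mul, pslb_ww, pslb_uu, pslb_dg] at h3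
      simp [hg] at h3
  obtain ⟨P, hP⟩ := hc
  have key : ∀ Q : SL(2, F), ∀ l : MulAut PSL(2, F), ∃ t,
      l (QuotientGroup.mk (Q * ww * Q⁻¹) : PSL(2, F)) =
        t * (QuotientGroup.mk (Q * ww * Q⁻¹) : PSL(2, F)) * t⁻¹ := by
    intro Q l
    exact ccl_cj l (zp2_aut l) (QuotientGroup.mk Q)
  refine ⟨![QuotientGroup.mk ww, QuotientGroup.mk (dg g hg * ww),
    QuotientGroup.mk (uu b * ww * (uu b)⁻¹),
    QuotientGroup.mk (uu b * (dg g hg * ww) * (uu b)⁻¹)], fun R hz => ?_, fun l i => ?_⟩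
  · exact hR R (hz 0) (hz 1) (hz 2) (hz 3)
  · fin_cases i
    · exact zp2_aut l
    · show ∃ t, l (QuotientGroup.mk (dg g hg * ww) : PSL(2, F)) =
        t * (QuotientGroup.mk (dg g hg * ww) : PSL(2, F)) * t⁻¹
      rw [hP]
      exact key P l
    · exact key (uu b) l
    · show ∃ t, l (QuotientGroup.mk (uu b * (dg g hg * ww) * (uu b)⁻¹) : PSL(2, F)) =
        t * (QuotientGroup.mk (uu b * (dg g hg * ww) * (uu b)⁻¹) : PSL(2, F)) * t⁻¹
      have h6 : uu b * (dg g hg * ww) * (uu b)⁻¹ = (uu b * P) * ww * (uu b * P)⁻¹ := by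
        rw [hP]
        group
      rw [h6]
      exact key (uu b * P) l

end Pool.Agent.MPfe8e9bN
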