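import Mathlib
import Pool.Agent.Lib.MP_fe8e9b_al_N.Defs6
import Pool.Agent.Lib.MP_fe8e9b_al_N.AnD
import Pool.Agent.Lib.MP_fe8e9b_al_N.AnB
import Pool.Agent.Lib.MP_fe8e9b_al_N.AnJ

/-!
# MP_fe8e9b_al, groups of bounded height: signed permutation matrices
-/

set_option autoImplicit false

open scoped BigOperators MatrixGroups

namespace Pool.Agent.MPfe8e9bN

open Matrix

variable {n : ℕ} {F : Type} [Field F]

/-- An element of `PSL_n` which comes from a matrix which is fixed by the field automorphisms and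
the inverse transpose, and which commutes with matrices of every determinant, is mapped to a
conjugate by every automorphism.

Proof. `aut_psln`: `f (mk A) = mk (cM M (aN p A)) = mk (cM M A)`. Let `D` with `D.1.det = M.1.det`,
`cM D A = A`, `g = M * D⁻¹`, a matrix of determinant one. `cM M A = cM g (cM D A) = g * A * g⁻¹`
(`cM_mul`, `cM_coe`; write `g` as the coercion of an element of `SL`). -/
theorem zm_inv [Finite F] (hn : 3 ≤ n) (A : SL(n, F)) (h1 : ∀ p, aN p A = A)
    (h2 : ∀ ν : F, ν ≠ 0 → ∃ D : GL (Fin n) F, D.1.det = ν ∧ cM D A = A)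
    (f : MulAut (PN n F)) : ∃ t, f (mk A) = t * mk A * t⁻¹ := by
  obtain ⟨M, p, hM⟩ := aut_psln hn f
  have hM1 : M.1.det * M⁻¹.1.det = 1 := by
    rw [← Matrix.det_mul, ← Units.val_mul, mul_inv_cancel, Units.val_one, Matrix.det_one]
  obtain ⟨D, hD, hDA⟩ := h2 M.1.det (left_ne_zero_of_mul_eq_one hM1)
  have hD1 : D.1.det * D⁻¹.1.det = 1 := by
    rw [← Matrix.det_mul, ← Units.val_mul, mul_inv_cancel, Units.val_one, Matrix.det_one]
  have hg : (M * D⁻¹).1.det = 1 := by
    rw [Units.val_mul, Matrix.det_mul, ← hD, hD1]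
  obtain ⟨g, hgc⟩ : ∃ g : SL(n, F), (g : GL (Fin n) F) = M * D⁻¹ :=
    ⟨⟨(M * D⁻¹).1, hg⟩, Units.ext rfl⟩
  have h3 : cM M A = g * A * g⁻¹ := by
    rw [← cM_coe, hgc, cM_mul, cM_inv]
    show cM M A = cM M ((cM D)⁻¹ A)
    have h4 : (cM D)⁻¹ A = (cM D)⁻¹ (cM D A) := by rw [hDA]
    rw [h4, MulAut.inv_apply_self]
  refine ⟨mk g, ?_⟩
  rw [hM, h1, h3]
  rfl

/-- `A` is a signed permutation matrix of the permutation `π`. -/
def SP (A : SL(n, F)) (π : Equiv.Perm (Fin n)) : Prop :=
  ∃ s : Fin n → F, (∀ i, s i = 1 ∨ s i = -1) ∧ ∀ i j, A.1 i j = if i = π j then s j else 0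

theorem sp_one : SP (1 : SL(n, F)) 1 := by
  refine ⟨fun _ => 1, fun _ => Or.inl rfl, fun i j => ?_⟩
  show (1 : Matrix (Fin n) (Fin n) F) i j = _
  rw [Matrix.one_apply]
  rfl

theorem sp_mul {A B : SL(n, F)} {π π' : Equiv.Perm (Fin n)} (h : SP A π) (h' : SP B π') :
    SP (A * B) (π * π') := by
  obtain ⟨s, hs, hA⟩ := h
  obtain ⟨s', hs', hB⟩ := h'
  refine ⟨fun j => s (π' j) * s' j, fun i => ?_, fun i j => ?_⟩
  · rcases hs (π' i) with h1 | h1 <;> rcases hs' i with h2 | h2 <;> simp [h1, h2]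
  · show (A.1 * B.1) i j = _
    rw [Matrix.mul_apply, Finset.sum_eq_single (π' j)]
    · rw [hA, hB, if_pos rfl, Equiv.Perm.mul_apply]
      by_cases h1 : i = π (π' j)
      · rw [if_pos h1, if_pos h1]
      · rw [if_neg h1, if_neg h1, zero_mul]
    · intro k _ hk
      rw [hB, if_neg hk, mul_zero]
    · intro h1
      exact absurd (Finset.mem_univ _) h1

theorem zmat_ai (f : Equiv.Perm (Fin n)) (x : Fin n) : f (f⁻¹ x) = x := f.apply_symm_apply x

theorem zmat_ia (f : Equiv.Perm (Fin n)) (x : Fin n) : f⁻¹ (f x) = x := f.symm_apply_apply x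

theorem zmat_tr {A : SL(n, F)} {π : Equiv.Perm (Fin n)} (h : SP A π) : (A⁻¹).1 = A.1ᵀ := by
  obtain ⟨s, hs, hA⟩ := h
  have hss : ∀ i, s i * s i = 1 := by
    intro i
    rcases hs i with h1 | h1 <;> simp [h1]
  have h1 : A.1 * A.1ᵀ = 1 := by
    ext i j
    rw [Matrix.mul_apply, Finset.sum_eq_single (π⁻¹ i)]
    · rw [Matrix.transpose_apply, hA, hA, zmat_ai, if_pos rfl,
        Matrix.one_apply]
      by_cases hij : i = j
      · rw [if_pos hij.symm, if_pos hij, hss]
      · rw [if_neg (Ne.symm hij), if_neg hij, mul_zero]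
    · intro k _ hk
      rw [hA, if_neg, zero_mul]
      rintro rfl
      exact hk (zmat_ia π k).symm
    · intro h1
      exact absurd (Finset.mem_univ _) h1
  have h2 : (A⁻¹).1 * A.1 = 1 := congrArg Subtype.val (inv_mul_cancel A)
  calc (A⁻¹).1 = (A⁻¹).1 * (A.1 * A.1ᵀ) := by rw [h1, Matrix.mul_one]
    _ = A.1ᵀ := by rw [← Matrix.mul_assoc, h2, Matrix.one_mul]

/-- Proof. The inverse of a signed permutation matrix is its transpose. -/
theorem sp_inv {A : SL(n, F)} {π : Equiv.Perm (Fin n)} (h : SP A π) : SP A⁻¹ π⁻¹ := by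
  have ht := zmat_tr h
  obtain ⟨s, hs, hA⟩ := h
  refine ⟨fun j => s (π⁻¹ j), fun i => hs _, fun i j => ?_⟩
  rw [ht, Matrix.transpose_apply, hA]
  by_cases h1 : j = π i
  · subst h1
    rw [if_pos rfl, zmat_ia, if_pos rfl]
    show s i = s (π⁻¹ (π i))
    rw [zmat_ia]
  · rw [if_neg h1, if_neg]
    intro h2
    exact h1 (by rw [h2, zmat_ai])

/-- Conjugation of elementary matrices. Proof. `ev_conj`. -/
theorem sp_conj {A : SL(n, F)} {π : Equiv.Perm (Fin n)} (h : SP A π) {i j : Fin n} (hij : i ≠ j)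
    (x : F) : A * ev i j x * A⁻¹ = ev (π i) (π j) x ∨ A * ev i j x * A⁻¹ = ev (π i) (π j) (-x) := by
  have ht := zmat_tr h
  obtain ⟨s, hs, hA⟩ := h
  have hp : π i ≠ π j := fun h1 => hij (π.injective h1)
  have h1 : A * ev i j x * A⁻¹ = ev (π i) (π j) (x * (s i * s j)) := by
    apply Subtype.ext
    rw [ev_conj A hij, ev_val hp]
    congr 1
    ext a b
    rw [Matrix.smul_apply, vecMulVec_apply, ht, Matrix.transpose_apply, hA, hA,
      Matrix.single_apply, smul_eq_mul]
    by_cases ha : a = π i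
    · by_cases hb : b = π j
      · rw [if_pos ha, if_pos hb, if_pos ⟨ha.symm, hb.symm⟩]
      · have h5 : ¬(π i = a ∧ π j = b) := fun h2 => hb h2.2.symm
        rw [if_neg hb, if_neg h5, mul_zero, mul_zero]
    · have h5 : ¬(π i = a ∧ π j = b) := fun h2 => ha h2.1.symm
      rw [if_neg ha, if_neg h5, zero_mul, mul_zero]
  rw [h1]
  rcases hs i with h2 | h2 <;> rcases hs j with h3 | h3 <;> rw [h2, h3]
  · left
    rw [mul_one, mul_one]
  · right
    rw [one_mul, mul_neg_one]
  · right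
    rw [mul_one, mul_neg_one]
  · left
    rw [neg_mul_neg, mul_one, mul_one]

/-- Signed permutation matrices are fixed by the field automorphisms and by the inverse
transpose. Proof. Entries; `A⁻¹` is the transpose of `A`. -/
theorem sp_aN {A : SL(n, F)} {π : Equiv.Perm (Fin n)} (h : SP A π) (p : Bool × (F ≃+* F)) :
    aN p A = A := by
  have ht := zmat_tr h
  obtain ⟨s, hs, hA⟩ := h
  have h1 : ∀ σ : F ≃+* F, fM σ A = A := by
    intro σ
    apply Subtype.ext
    ext i j
    rw [fM_coe, hA]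
    by_cases hi : i = π j
    · rw [if_pos hi]
      rcases hs j with h2 | h2
      · rw [h2, map_one]
      · rw [h2, map_neg, map_one]
    · rw [if_neg hi, map_zero]
  obtain ⟨b, σ⟩ := p
  cases b
  · rw [aN_false, h1]
  · rw [aN_true, h1]
    apply Subtype.ext
    rw [iT_val, ht, Matrix.transpose_transpose]

/-- A signed permutation matrix which fixes a basis vector commutes with matrices of every
determinant. Proof. `D` is diagonal, `ν` at `k` and `1` elsewhere. -/
theorem sp_det {A : SL(n, F)} {π : Equiv.Perm (Fin n)} (h : SP A π) (k : Fin n)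
    (hk : A.1 k k = 1) (ν : F) (hν : ν ≠ 0) :
    ∃ D : GL (Fin n) F, D.1.det = ν ∧ cM D A = A := by
  obtain ⟨s, hs, hA⟩ := h
  have hpk : π k = k := by
    by_contra h1
    rw [hA, if_neg fun h2 => h1 h2.symm] at hk
    exact zero_ne_one hk
  obtain ⟨d, hd⟩ : ∃ d : Fin n → F, d = Function.update (1 : Fin n → F) k ν := ⟨_, rfl⟩
  have hdk : d k = ν := by rw [hd, Function.update_self]
  have hdn : ∀ i, i ≠ k → d i = 1 := by
    intro i hi
    rw [hd, Function.update_of_ne hi, Pi.one_apply]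
  have hd0 : ∀ i, d i ≠ 0 := by
    intro i
    by_cases hi : i = k
    · rw [hi, hdk]
      exact hν
    · rw [hdn i hi]
      exact one_ne_zero
  have e1 : Matrix.diagonal d * Matrix.diagonal (fun i => (d i)⁻¹) = 1 := by
    rw [Matrix.diagonal_mul_diagonal, ← Matrix.diagonal_one]
    congr 1
    funext i
    exact mul_inv_cancel₀ (hd0 i)
  have e2 : Matrix.diagonal (fun i => (d i)⁻¹) * Matrix.diagonal d = 1 := by
    rw [Matrix.diagonal_mul_diagonal, ← Matrix.diagonal_one]
    congr 1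
    funext i
    exact inv_mul_cancel₀ (hd0 i)
  refine ⟨⟨Matrix.diagonal d, Matrix.diagonal (fun i => (d i)⁻¹), e1, e2⟩, ?_, ?_⟩
  · show (Matrix.diagonal d).det = ν
    rw [Matrix.det_diagonal, hd, Finset.prod_update_of_mem (Finset.mem_univ k)]
    simp
  · apply Subtype.ext
    rw [cM_val]
    show Matrix.diagonal d * A.1 * Matrix.diagonal (fun i => (d i)⁻¹) = A.1
    have e3 : Matrix.diagonal d * A.1 = A.1 * Matrix.diagonal d := by
      ext i j
      rw [Matrix.diagonal_mul, Matrix.mul_diagonal, hA]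
      by_cases hi : i = π j
      · rw [if_pos hi]
        by_cases hj : j = k
        · rw [hj] at hi ⊢
          rw [hpk] at hi
          rw [hi, mul_comm]
        · have hik : i ≠ k := by
            intro h1
            apply hj
            apply π.injective
            rw [← hi, h1, hpk]
          rw [hdn i hik, hdn j hj, one_mul, mul_one]
      · rw [if_neg hi, mul_zero, zero_mul]
    rw [e3, Matrix.mul_assoc, e1, Matrix.mul_one]

/-- Signed permutation matrices of determinant one for all permutations which fix `k`.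

Proof. Choose `l ≠ k`. The signs are `1`, except that the sign at `l` is the sign of `π`. The
determinant is `sign π * ∏ i, s i` (for example `A = P * diagonal s` with the permutation matrix
`P`, `Matrix.det_permutation`). -/
theorem sp_ex (hn : 2 ≤ n) (π : Equiv.Perm (Fin n)) (k : Fin n) (hk : π k = k) :
    ∃ A : SL(n, F), SP A π ∧ A.1 k k = 1 := by
  obtain ⟨l, hl⟩ : ∃ l : Fin n, l ≠ k := by
    have : Nontrivial (Fin n) := Fin.nontrivial_iff_two_le.2 hn
    exact exists_ne k
  obtain ⟨t, ht⟩ : ∃ t : F, t = ((Equiv.Perm.sign π⁻¹ : ℤˣ) : ℤ) := ⟨_, rfl⟩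
  have ht1 : t = 1 ∨ t = -1 := by
    rw [ht]
    rcases Int.units_eq_one_or (Equiv.Perm.sign π⁻¹) with h1 | h1
    · left
      rw [h1]
      simp
    · right
      rw [h1]
      simp
  have htt : t * t = 1 := by
    rcases ht1 with h1 | h1 <;> simp [h1]
  obtain ⟨s, hs⟩ : ∃ s : Fin n → F, s = Function.update (1 : Fin n → F) l t := ⟨_, rfl⟩
  have hdet : ((Matrix.diagonal s).submatrix (π⁻¹ : Equiv.Perm (Fin n)) id).det = 1 := by
    rw [Matrix.det_permute, Matrix.det_diagonal, hs,
      Finset.prod_update_of_mem (Finset.mem_univ l), ← ht]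
    simp [htt]
  have hent : ∀ i j, ((Matrix.diagonal s).submatrix (π⁻¹ : Equiv.Perm (Fin n)) id) i j =
      if i = π j then s j else 0 := by
    intro i j
    rw [Matrix.submatrix_apply, id, Matrix.diagonal_apply]
    by_cases h1 : i = π j
    · subst h1
      rw [zmat_ia, if_pos rfl, if_pos rfl]
    · rw [if_neg h1, if_neg]
      intro h2
      exact h1 (by rw [← h2, zmat_ai])
  refine ⟨⟨_, hdet⟩, ⟨s, fun i => ?_, hent⟩, ?_⟩
  · by_cases hi : i = l
    · rw [hi, hs, Function.update_self]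
      exact ht1
    · rw [hs, Function.update_of_ne hi]
      exact Or.inl rfl
  · refine (hent k k).trans ?_
    rw [hk, if_pos rfl, hs, Function.update_of_ne hl.symm]
    rfl

/-- The permutation which fixes `p` and acts as `f` on the other points. -/
def zmatP {m : ℕ} (f : Equiv.Perm (Fin m)) (p : Fin (m + 1)) : Equiv.Perm (Fin (m + 1)) :=
  ((finSuccEquiv' p).trans (Equiv.optionCongr f)).trans (finSuccEquiv' p).symm

theorem zmatP_self {m : ℕ} (f : Equiv.Perm (Fin m)) (p : Fin (m + 1)) : zmatP f p p = p := by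
  show (finSuccEquiv' p).symm (Equiv.optionCongr f (finSuccEquiv' p p)) = p
  rw [finSuccEquiv'_at]
  exact finSuccEquiv'_symm_none p

theorem zmatP_above {m : ℕ} (f : Equiv.Perm (Fin m)) (p : Fin (m + 1)) (x : Fin m) :
    zmatP f p (p.succAbove x) = p.succAbove (f x) := by
  show (finSuccEquiv' p).symm (Equiv.optionCongr f (finSuccEquiv' p (p.succAbove x))) = _
  rw [finSuccEquiv'_succAbove]
  exact finSuccEquiv'_symm_some p (f x)

theorem zmatP_pow {m : ℕ} (f : Equiv.Perm (Fin m)) (p : Fin (m + 1)) (k : ℕ) (x : Fin m) :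
    (zmatP f p ^ k) (p.succAbove x) = p.succAbove ((f ^ k) x) := by
  induction k generalizing x with
  | zero => rfl
  | succ k ih => rw [pow_succ, pow_succ, Equiv.Perm.mul_apply, Equiv.Perm.mul_apply,
      zmatP_above, ih]

theorem zmatP_pow_self {m : ℕ} (f : Equiv.Perm (Fin m)) (p : Fin (m + 1)) (k : ℕ) :
    (zmatP f p ^ k) p = p := by
  induction k with
  | zero => rfl
  | succ k ih => rw [pow_succ, Equiv.Perm.mul_apply, zmatP_self, ih]

/-- Two permutations with fixed points which generate a doubly transitive group.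

Proof. `π1` is a cycle on all points except the last one and `π2` is a cycle on all points except
the first one (`List.formPerm`, or transport `finRotate (n - 1)`; any permutations which are
transitive on these sets). Let `a` be the first and `z` the last point. By powers of `π1` and `π2`
the group is transitive: it maps `i` to `z` (through a point in the middle, `n ≥ 3`), and the
stabilizer of `z` contains `π1`, which is transitive on the other points. -/
theorem zm_perm (hn : 3 ≤ n) : ∃ π1 π2 : Equiv.Perm (Fin n), (∃ k, π1 k = k) ∧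
    (∃ k, π2 k = k) ∧ ∀ Γ : Subgroup (Equiv.Perm (Fin n)), π1 ∈ Γ → π2 ∈ Γ →
      ∀ i j i' j' : Fin n, i ≠ j → i' ≠ j' → ∃ γ ∈ Γ, γ i = i' ∧ γ j = j' := by
  obtain ⟨m, rfl⟩ : ∃ m, n = m + 2 + 1 := ⟨n - 3, by omega⟩
  refine ⟨zmatP (finRotate (m + 2)) (Fin.last (m + 2)), zmatP (finRotate (m + 2)) 0,
    ⟨_, zmatP_self _ _⟩, ⟨_, zmatP_self _ _⟩, ?_⟩
  intro Γ hz ha
  have key : ∀ p : Fin (m + 2 + 1), zmatP (finRotate (m + 2)) p ∈ Γ → ∀ x y, x ≠ p → y ≠ p →
      ∃ γ ∈ Γ, γ p = p ∧ γ x = y := by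
    intro p hp x y hx hy
    obtain ⟨x', rfl⟩ := Fin.exists_succAbove_eq hx
    obtain ⟨y', rfl⟩ := Fin.exists_succAbove_eq hy
    have hne : ∀ w : Fin (m + 2), finRotate (m + 2) w ≠ w := by
      intro w
      refine Equiv.Perm.mem_support.1 ?_
      rw [support_finRotate]
      exact Finset.mem_univ _
    obtain ⟨k, hk⟩ := Equiv.Perm.IsCycle.exists_pow_eq isCycle_finRotate (hne x') (hne y')
    refine ⟨zmatP (finRotate (m + 2)) p ^ k, Γ.pow_mem hp k, zmatP_pow_self _ _ _, ?_⟩
    rw [zmatP_pow, hk]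
  have h0l : (0 : Fin (m + 2 + 1)) ≠ Fin.last (m + 2) := by
    intro h
    have := congrArg Fin.val h
    simp at this
  obtain ⟨c, hc0, hcl⟩ : ∃ c : Fin (m + 2 + 1), c ≠ 0 ∧ c ≠ Fin.last (m + 2) := by
    refine ⟨⟨1, by omega⟩, fun h => ?_, fun h => ?_⟩
    · have := congrArg Fin.val h
      simp at this
    · have := congrArg Fin.val h
      simp at this
  have tr : ∀ i, ∃ γ ∈ Γ, γ i = Fin.last (m + 2) := by
    intro i
    by_cases hil : i = Fin.last (m + 2)
    · exact ⟨1, Γ.one_mem, hil⟩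
    · by_cases hi0 : i = 0
      · obtain ⟨γ, hγ, -, h1⟩ := key _ hz 0 c h0l hcl
        obtain ⟨δ, hδ, -, h2⟩ := key _ ha c (Fin.last (m + 2)) hc0 h0l.symm
        refine ⟨δ * γ, Γ.mul_mem hδ hγ, ?_⟩
        rw [Equiv.Perm.mul_apply, hi0, h1, h2]
      · obtain ⟨γ, hγ, -, h1⟩ := key _ ha i (Fin.last (m + 2)) hi0 h0l.symm
        exact ⟨γ, hγ, h1⟩
  intro i j i' j' hij hij'
  obtain ⟨γ1, hγ1, h1⟩ := tr i
  obtain ⟨γ2, hγ2, h2⟩ := tr i'
  obtain ⟨γ3, hγ3, h3, h4⟩ := key _ hz (γ1 j) (γ2 j')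
    (fun h => hij (γ1.injective (h1.trans h.symm))) (fun h => hij' (γ2.injective (h2.trans h.symm)))
  refine ⟨γ2⁻¹ * γ3 * γ1, Γ.mul_mem (Γ.mul_mem (Γ.inv_mem hγ2) hγ3) hγ1, ?_, ?_⟩
  · rw [Equiv.Perm.mul_apply, Equiv.Perm.mul_apply, h1, h3, ← h2, zmat_ia]
  · rw [Equiv.Perm.mul_apply, Equiv.Perm.mul_apply, h4, zmat_ia]

end Pool.Agent.MPfe8e9bN
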