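import Mathlib
import Pool.Agent.Lib.MP_fe8e9b_al_N.Defs6
import Pool.Agent.Lib.MP_fe8e9b_al_N.AnD
import Pool.Agent.Lib.MP_fe8e9b_al_N.AnB
import Pool.Agent.Lib.MP_fe8e9b_al_N.AnH
import Pool.Agent.Lib.MP_fe8e9b_al_N.AnJ
import Pool.Agent.Lib.MP_fe8e9b_al_N.ZMat

/-!
# MP_fe8e9b_al, groups of bounded height: invariant classes in `PSL_n`
-/

set_option autoImplicit false

open scoped BigOperators MatrixGroups

namespace Pool.Agent.MPfe8e9bN

open Matrix

variable {n : ℕ} {F : Type} [Field F]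

/-- The matrix `[[0, a], [-a⁻¹, 0]]` in the coordinates `i`, `j`. -/
def wv (i j : Fin n) (a : F) : SL(n, F) := ev i j a * ev j i (-a⁻¹) * ev i j a

/-- The entries of `wv`. -/
theorem zpn_val {i j : Fin n} (hij : i ≠ j) (a : F) : (wv i j a).1 =
    1 + Matrix.single i j (a + a + a * -a⁻¹ * a) + Matrix.single j i (-a⁻¹) +
      Matrix.single i i (a * -a⁻¹) + Matrix.single j j (-a⁻¹ * a) := by
  show (ev i j a).1 * (ev j i (-a⁻¹)).1 * (ev i j a).1 = _
  rw [ev_val hij, ev_val hij.symm, anh_three hij]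

/-- Conjugation by a diagonal matrix. -/
theorem zpn_dg (P : SL(n, F)) (d : Fin n → F) (hP : P.1 = Matrix.diagonal d)
    (hd : ∀ i, d i ≠ 0) {i j : Fin n} (hij : i ≠ j) (x : F) :
    P * ev i j x * P⁻¹ = ev i j (d i * x * (d j)⁻¹) := by
  rw [mul_inv_eq_iff_eq_mul]
  apply Subtype.ext
  show P.1 * (ev i j x).1 = (ev i j (d i * x * (d j)⁻¹)).1 * P.1
  rw [hP, ev_val hij, ev_val hij, Matrix.mul_add, Matrix.add_mul, Matrix.mul_one, Matrix.one_mul]
  congr 1
  ext p q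
  rw [Matrix.diagonal_mul, Matrix.mul_diagonal, Matrix.single_apply, Matrix.single_apply]
  split_ifs with h1
  · rw [← h1.1, ← h1.2, mul_assoc, inv_mul_cancel₀ (hd j), mul_one]
  · rw [mul_zero, zero_mul]

/-- The inverse of `wv i j 1`. -/
theorem zpn_inv (i j : Fin n) : (wv i j (1 : F))⁻¹ = ev i j (-1) * ev j i 1 * ev i j (-1) := by
  rw [wv, _root_.mul_inv_rev, _root_.mul_inv_rev, ev_inv, ev_inv, inv_one, neg_neg, mul_assoc]

/-- The quotient is the matrix `diag2n`. -/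
theorem zpn_d2 {i j : Fin n} (hij : i ≠ j) (a : F) (ha : a ≠ 0) :
    wv i j a * (wv i j 1)⁻¹ = Matrix.SpecialLinearGroup.diag2n hij a ha := by
  rw [zpn_inv, anh_diag hij a ha, wv]

/-- It is a signed permutation matrix for `a = 1`. -/
theorem zp_sp {i j : Fin n} (hij : i ≠ j) : SP (wv i j (1 : F)) (Equiv.swap i j) := by
  have h0 : ((1 : F) + 1 + 1 * -1⁻¹ * 1) = 1 := by
    rw [inv_one]
    ring
  have h1 : (-(1 : F)⁻¹) = -1 := by rw [inv_one]
  refine ⟨fun q => if q = i then -1 else 1, fun q => ?_, fun p q => ?_⟩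
  · by_cases hq : q = i
    · exact Or.inr (if_pos hq)
    · exact Or.inl (if_neg hq)
  · rw [zpn_val hij, h0, h1, one_mul, mul_one]
    simp only [Matrix.add_apply, Matrix.single_apply, Matrix.one_apply]
    rcases eq_or_ne q i with rfl | hqi
    · rw [Equiv.swap_apply_left]
      rcases eq_or_ne p q with rfl | hpq
      · simp [hij, hij.symm]
      · rcases eq_or_ne p j with rfl | hpj
        · simp [hij, hij.symm]
        · simp [hpq, hpq.symm, hpj, hpj.symm, hij.symm]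
    · rcases eq_or_ne q j with rfl | hqj
      · rw [Equiv.swap_apply_right]
        rcases eq_or_ne p q with rfl | hpq
        · simp [hij, hij.symm]
        · rcases eq_or_ne p i with rfl | hpi
          · simp [hij, hij.symm]
          · simp [hpq, hpq.symm, hpi, hpi.symm, hij]
      · rw [Equiv.swap_apply_of_ne_of_ne hqi hqj]
        simp [hqi, hqi.symm, hqj.symm]

/-- A third coordinate. Proof. Entries. -/
theorem zp_kk {i j k : Fin n} (hij : i ≠ j) (hik : i ≠ k) (hjk : j ≠ k) (a : F) :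
    (wv i j a).1 k k = 1 := by
  rw [zpn_val hij]
  simp only [Matrix.add_apply, Matrix.single_apply, Matrix.one_apply_eq]
  rw [if_neg (fun h => hik h.1), if_neg (fun h => hjk h.1), if_neg (fun h => hik h.1),
    if_neg (fun h => hjk h.1)]
  ring

/-- Conjugation by a diagonal matrix of determinant one, if there is a third coordinate.

Proof. `P` is diagonal with entries `a`, `a⁻¹` at `i`, `k` and `1` elsewhere; `P (ev i j x) P⁻¹ =
ev i j (a x)` and `P (ev j i x) P⁻¹ = ev j i (a⁻¹ x)`. -/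
theorem zp_conj {i j k : Fin n} (hij : i ≠ j) (hik : i ≠ k) (hjk : j ≠ k) (a : F) (ha : a ≠ 0) :
    ∃ P : SL(n, F), wv i j a = P * wv i j 1 * P⁻¹ := by
  have hd : ∀ p : Fin n, (fun q => if q = i then a else if q = k then a⁻¹ else 1) p ≠ 0 := by
    intro p
    show (if p = i then a else if p = k then a⁻¹ else 1) ≠ 0
    split_ifs
    · exact ha
    · exact inv_ne_zero ha
    · exact one_ne_zero
  have key := fun {p q : Fin n} (h : p ≠ q) (x : F) =>
    zpn_dg (Matrix.SpecialLinearGroup.diag2n hik a ha)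
      (fun q => if q = i then a else if q = k then a⁻¹ else 1) rfl hd h x
  refine ⟨Matrix.SpecialLinearGroup.diag2n hik a ha, ?_⟩
  have k1 := key hij 1
  have k2 := key hij.symm (-1⁻¹)
  simp only [if_true, if_neg hij.symm, if_neg hjk, inv_one, mul_one, one_mul] at k1 k2
  have h3 : (-1 : F) * a⁻¹ = -a⁻¹ := by ring
  rw [h3] at k2
  rw [wv, wv, ← k1, inv_one, ← k2]
  group

/-- The matrix `wv i j a * (wv i j 1)⁻¹` is diagonal, with entries `a`, `a⁻¹` at `i`, `j`.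
Proof. Entries or the Steinberg relations. -/
theorem zp_diag {i j k : Fin n} (hij : i ≠ j) (hik : i ≠ k) (hjk : j ≠ k) (a : F) (ha : a ≠ 0)
    (x : F) : (wv i j a * (wv i j 1)⁻¹) * ev i k x * (wv i j a * (wv i j 1)⁻¹)⁻¹ =
      ev i k (a * x) := by
  have hd : ∀ p : Fin n, (fun q => if q = i then a else if q = j then a⁻¹ else 1) p ≠ 0 := by
    intro p
    show (if p = i then a else if p = j then a⁻¹ else 1) ≠ 0
    split_ifs
    · exact ha
    · exact inv_ne_zero ha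
    · exact one_ne_zero
  have key := zpn_dg (Matrix.SpecialLinearGroup.diag2n hij a ha)
      (fun q => if q = i then a else if q = j then a⁻¹ else 1) rfl hd hik x
  simp only [if_true, if_neg hik.symm, if_neg hjk.symm, inv_one, mul_one] at key
  rw [zpn_d2 hij a ha]
  exact key

/-- The square of `wv i j 1` is diagonal with entries `-1` at `i`, `j`. -/
theorem zp_sq {i j k : Fin n} (hij : i ≠ j) (hik : i ≠ k) (hjk : j ≠ k) (x : F) :
    (wv i j (1 : F) * wv i j 1) * ev i k x * (wv i j (1 : F) * wv i j 1)⁻¹ = ev i k (-x) := by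
  have h1 : wv i j (-1 : F) = (wv i j 1)⁻¹ := by
    rw [zpn_inv, wv]
    have h2 : -(-1 : F)⁻¹ = 1 := by
      rw [inv_neg, inv_one, neg_neg]
    rw [h2]
  have h3 := zp_diag hij hik hjk (-1 : F) (neg_ne_zero.2 one_ne_zero) (-x)
  rw [h1, neg_one_mul, neg_neg] at h3
  calc (wv i j (1 : F) * wv i j 1) * ev i k x * (wv i j (1 : F) * wv i j 1)⁻¹
      = (wv i j (1 : F) * wv i j 1) * ((wv i j 1)⁻¹ * (wv i j 1)⁻¹ * ev i k (-x) *
        ((wv i j 1)⁻¹ * (wv i j 1)⁻¹)⁻¹) * (wv i j (1 : F) * wv i j 1)⁻¹ := by rw [h3]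
    _ = ev i k (-x) := by group

/-- An elementary matrix is a quotient of two elements with invariant classes.

Proof. If `2 ≠ 0` in `F`: `a = ev i k (1 / 2) * d * (ev i k (1 / 2))⁻¹`, `b = d`, with
`d = wv i j 1 * wv i j 1` (a signed permutation matrix with `d k k = 1`; `zm_inv`, `sp_aN`,
`sp_det`, `ccl_cj`), so `a * b⁻¹ = ev i k (1 / 2) * ev i k (1 / 2) = ev i k 1` by `zp_sq`
(`d * ev i k (-1/2) * d⁻¹ = ev i k (1/2)`). If `2 = 0`: `a = ev i j 1`, `b = 1`;
`ev j i 1 * ev i j 1 * ev j i 1 = ev i j 1 * ev j i 1 * ev i j 1` (entries, characteristic two), so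
`wv i j 1 = ev j i 1 * ev i j 1 * (ev j i 1)⁻¹` and `ev i j 1` is conjugate to `wv i j 1`. -/
theorem zp_elem [Finite F] (hn : 3 ≤ n) : ∃ (a b : PN n F) (i j : Fin n), i ≠ j ∧
    (∀ f : MulAut (PN n F), ∃ t, f a = t * a * t⁻¹) ∧
    (∀ f : MulAut (PN n F), ∃ t, f b = t * b * t⁻¹) ∧ a * b⁻¹ = mk (ev i j 1) := by
  have h0 : 0 < n := by omega
  have h1' : 1 < n := by omega
  have h2' : 2 < n := by omega
  obtain ⟨i, j, k, hij, hik, hjk⟩ : ∃ i j k : Fin n, i ≠ j ∧ i ≠ k ∧ j ≠ k :=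
    ⟨⟨0, h0⟩, ⟨1, h1'⟩, ⟨2, h2'⟩, by simp [Fin.ext_iff], by simp [Fin.ext_iff],
      by simp [Fin.ext_iff]⟩
  have hw : ∀ f : MulAut (PN n F), ∃ t, f (mk (wv i j (1 : F))) =
      t * mk (wv i j (1 : F)) * t⁻¹ :=
    fun f => zm_inv hn _ (sp_aN (zp_sp hij)) (sp_det (zp_sp hij) k (zp_kk hij hik hjk 1)) f
  by_cases h2 : (2 : F) = 0
  · have hm1 : (-1 : F) = 1 := by
      rw [neg_eq_iff_add_eq_zero, one_add_one_eq_two, h2]
    have hbr : ev i j (1 : F) * ev j i 1 * ev i j 1 = ev j i 1 * ev i j 1 * ev j i 1 := by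
      apply Subtype.ext
      show (ev i j (1 : F)).1 * (ev j i 1).1 * (ev i j 1).1 =
        (ev j i 1).1 * (ev i j 1).1 * (ev j i 1).1
      rw [ev_val hij, ev_val hij.symm, anh_three hij, anh_three hij.symm]
      have h3 : (1 : F) + 1 + 1 * 1 * 1 = 1 := by
        rw [one_add_one_eq_two, h2]
        ring
      rw [h3, mul_one]
      abel
    have hwv : wv i j (1 : F) = ev j i 1 * ev i j 1 * (ev j i 1)⁻¹ := by
      rw [wv, inv_one, hm1, hbr, ev_inv, hm1]
    have hev : mk (ev i j (1 : F)) = (mk (ev j i 1))⁻¹ * mk (wv i j 1) * (mk (ev j i 1))⁻¹⁻¹ := by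
      rw [hwv, mk_mul, mk_mul, mk_inv]
      group
    refine ⟨mk (ev i j 1), 1, i, j, hij, fun f => ?_, fun f => ⟨1, ?_⟩, ?_⟩
    · rw [hev]
      exact ccl_cj f (hw f) _
    · rw [map_one, inv_one, mul_one, mul_one]
    · rw [inv_one, mul_one]
  · have hd : SP (wv i j (1 : F) * wv i j 1) (Equiv.swap i j * Equiv.swap i j) :=
      sp_mul (zp_sp hij) (zp_sp hij)
    have hdk : (wv i j (1 : F) * wv i j 1).1 k k = 1 := by
      show ((wv i j (1 : F)).1 * (wv i j (1 : F)).1) k k = 1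
      obtain ⟨s, -, hs⟩ := zp_sp (F := F) hij
      rw [Matrix.mul_apply, Finset.sum_eq_single k, zp_kk hij hik hjk, mul_one]
      · intro q _ hq
        rw [hs q k, Equiv.swap_apply_of_ne_of_ne hik.symm hjk.symm, if_neg hq, mul_zero]
      · intro hq
        exact absurd (Finset.mem_univ k) hq
    have hdi : ∀ f : MulAut (PN n F), ∃ t, f (mk (wv i j (1 : F) * wv i j 1)) =
        t * mk (wv i j (1 : F) * wv i j 1) * t⁻¹ :=
      fun f => zm_inv hn _ (sp_aN hd) (sp_det hd k hdk) f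
    refine ⟨mk (ev i k (1 / 2)) * mk (wv i j (1 : F) * wv i j 1) * (mk (ev i k (1 / 2)))⁻¹,
      mk (wv i j (1 : F) * wv i j 1), i, k, hik, fun f => ccl_cj f (hdi f) _, hdi, ?_⟩
    have h3 := zp_sq hij hik hjk (-(1 / 2 : F))
    rw [neg_neg] at h3
    have h4 : (1 : F) / 2 + 1 / 2 = 1 := by
      field_simp
      ring
    calc mk (ev i k (1 / 2)) * mk (wv i j (1 : F) * wv i j 1) * (mk (ev i k (1 / 2)))⁻¹ *
          (mk (wv i j (1 : F) * wv i j 1))⁻¹
        = mk (ev i k (1 / 2) * ((wv i j (1 : F) * wv i j 1) * (ev i k (1 / 2))⁻¹ *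
          (wv i j (1 : F) * wv i j 1)⁻¹)) := by
          simp only [mk_mul, mk_inv, mul_assoc]
      _ = mk (ev i k 1) := by
          rw [ev_inv, h3, ← ev_add, h4]

/-- Generation: a subgroup of `PSL_n` which contains one elementary matrix `ev i j 1`, the
matrices `wv i j 1` and `wv i j g`, `g` a generator of the group of units, for two fixed indices
`i`, `j`, and signed permutation matrices which generate a doubly transitive group, is everything.

Proof. The permutations `π` such that `mk A ∈ R` for some `A` with `SP A π` form a subgroup `Γ`,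
doubly transitive by hypothesis. So (`sp_conj`) `mk (ev i j 1) ∈ R` for all `i ≠ j` (up to sign; `R`
contains inverses). With `zp_diag` (powers of `wv i j g * (wv i j 1)⁻¹`) `mk (ev i k x) ∈ R` for one
pair `(i, k)` and all `x` (a power of `g`), again by `Γ` for all pairs. `ev_gen`. -/
theorem zp_gen [Finite F] (hn : 3 ≤ n) (R : Subgroup (PN n F)) {i j i' j' : Fin n} (hij : i ≠ j)
    (hij' : i' ≠ j') (h1 : mk (ev i j 1) ∈ R) (g : Fˣ) (hg : ∀ x : Fˣ, x ∈ Subgroup.zpowers g)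
    (h2 : mk (wv i' j' 1) ∈ R) (h3 : mk (wv i' j' g.1) ∈ R)
    (h4 : ∀ a b c d : Fin n, a ≠ b → c ≠ d → ∃ (A : SL(n, F)) (π : Equiv.Perm (Fin n)),
      SP A π ∧ mk A ∈ R ∧ π a = c ∧ π b = d) : R = ⊤ := by
  have hone : ∀ a b : Fin n, a ≠ b → mk (ev a b (1 : F)) ∈ R := by
    intro a b hab
    obtain ⟨A, π, hA, hAR, hπi, hπj⟩ := h4 i j a b hij hab
    have h5 : mk (A * ev i j 1 * A⁻¹) ∈ R := by
      rw [mk_mul, mk_mul, mk_inv]
      exact R.mul_mem (R.mul_mem hAR h1) (R.inv_mem hAR)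
    rcases sp_conj hA hij 1 with h6 | h6
    · rw [h6, hπi, hπj] at h5
      exact h5
    · rw [h6, hπi, hπj, ← ev_inv, mk_inv] at h5
      exact R.inv_mem_iff.1 h5
  obtain ⟨k, hk1, hk2⟩ : ∃ k : Fin n, i' ≠ k ∧ j' ≠ k := by
    by_contra hcon
    push Not at hcon
    have h5 : (Finset.univ : Finset (Fin n)) ⊆ {i', j'} := by
      intro q _
      rw [Finset.mem_insert, Finset.mem_singleton]
      by_cases hq : i' = q
      · exact Or.inl hq.symm
      · exact Or.inr (hcon q hq).symm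
    have h6 := Finset.card_le_card h5
    rw [Finset.card_univ, Fintype.card_fin] at h6
    have h7 : ({i', j'} : Finset (Fin n)).card ≤ 2 := Finset.card_le_two
    omega
  have hD : mk (wv i' j' g.1 * (wv i' j' 1)⁻¹) ∈ R := by
    rw [mk_mul, mk_inv]
    exact R.mul_mem h3 (R.inv_mem h2)
  have hstep : ∀ y : F, mk (ev i' k y) ∈ R → mk (ev i' k (g.1 * y)) ∈ R := by
    intro y hy
    rw [← zp_diag hij' hk1 hk2 g.1 g.ne_zero y, mk_mul, mk_mul, mk_inv]
    exact R.mul_mem (R.mul_mem hD hy) (R.inv_mem hD)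
  have hstep' : ∀ y : F, mk (ev i' k y) ∈ R → mk (ev i' k ((g⁻¹).1 * y)) ∈ R := by
    intro y hy
    have h5 := zp_diag hij' hk1 hk2 g.1 g.ne_zero ((g⁻¹).1 * y)
    rw [← mul_assoc, ← Units.val_mul, mul_inv_cancel, Units.val_one, one_mul] at h5
    have h6 : ev i' k ((g⁻¹).1 * y) = (wv i' j' g.1 * (wv i' j' 1)⁻¹)⁻¹ * ev i' k y *
        (wv i' j' g.1 * (wv i' j' 1)⁻¹) := by
      rw [← h5]
      group
    rw [h6, mk_mul, mk_mul, mk_inv]
    exact R.mul_mem (R.mul_mem (R.inv_mem hD) hy) hD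
  have hpow : ∀ m : ℤ, mk (ev i' k ((g ^ m : Fˣ) : F)) ∈ R := by
    intro m
    induction m using Int.induction_on with
    | zero =>
      rw [zpow_zero, Units.val_one]
      exact hone i' k hk1
    | succ m ih =>
      rw [add_comm, _root_.zpow_add, zpow_one, Units.val_mul]
      exact hstep _ ih
    | pred m ih =>
      rw [sub_eq_add_neg, add_comm, _root_.zpow_add, _root_.zpow_neg_one, Units.val_mul]
      exact hstep' _ ih
  have hall : ∀ x : F, mk (ev i' k x) ∈ R := by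
    intro x
    by_cases hx : x = 0
    · rw [hx, ev_zero, mk_one]
      exact R.one_mem
    · obtain ⟨m, hm⟩ := Subgroup.mem_zpowers_iff.1 (hg (Units.mk0 x hx))
      have h5 := hpow m
      rw [hm, Units.val_mk0] at h5
      exact h5
  have hall' : ∀ a b : Fin n, a ≠ b → ∀ x : F, mk (ev a b x) ∈ R := by
    intro a b hab x
    obtain ⟨A, π, hA, hAR, hπi, hπj⟩ := h4 i' k a b hk1 hab
    have h5 : mk (A * ev i' k x * A⁻¹) ∈ R := by
      rw [mk_mul, mk_mul, mk_inv]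
      exact R.mul_mem (R.mul_mem hAR (hall x)) (R.inv_mem hAR)
    rcases sp_conj hA hk1 x with h6 | h6
    · rw [h6, hπi, hπj] at h5
      exact h5
    · rw [h6, hπi, hπj, ← ev_inv, mk_inv] at h5
      exact R.inv_mem_iff.1 h5
  have hgen := ev_gen (n := n) (F := F) (by omega)
    (R.comap (QuotientGroup.mk' (Subgroup.center SL(n, F)))) (fun a b hab x => hall' a b hab x)
  rw [eq_top_iff]
  intro t _
  obtain ⟨A, rfl⟩ := mk_surj t
  have hA : A ∈ R.comap (QuotientGroup.mk' (Subgroup.center SL(n, F))) := by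
    rw [hgen]
    exact Subgroup.mem_top A
  exact hA

/-- Invariant classes in `PSL_n`, `n ≥ 3`.

Proof. The elements `mk A1`, `mk A2` (`zm_perm`, `sp_ex`), `mk (wv i j 1)`, `mk (wv i j g)` for two
indices and a generator `g` of the group of units (`IsCyclic`), and `a`, `b` of `zp_elem`. The
classes are invariant: `zm_inv`, `sp_aN`, `sp_det`, `zp_kk`, `zp_conj`, `ccl_cj`. `zp_gen`; for its
hypothesis `h4` use the subgroup of the `π` such that `mk A ∈ R` for some `A` with `SP A π`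
(`sp_one`, `sp_mul`, `sp_inv`). -/
theorem psln_z [Finite F] (hn : 3 ≤ n) : ∃ z : Fin 6 → PN n F, Gnr z ∧ ∀ l, l ∈ ccl z := by
  have h0 : 0 < n := by omega
  have h1' : 1 < n := by omega
  have h2' : 2 < n := by omega
  obtain ⟨i, j, k, hij, hik, hjk⟩ : ∃ i j k : Fin n, i ≠ j ∧ i ≠ k ∧ j ≠ k :=
    ⟨⟨0, h0⟩, ⟨1, h1'⟩, ⟨2, h2'⟩, by simp [Fin.ext_iff], by simp [Fin.ext_iff],
      by simp [Fin.ext_iff]⟩
  obtain ⟨π1, π2, ⟨k1, hk1⟩, ⟨k2, hk2⟩, hΓ⟩ := zm_perm hn
  obtain ⟨A1, hA1, hA1k⟩ := sp_ex (F := F) (by omega) π1 k1 hk1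
  obtain ⟨A2, hA2, hA2k⟩ := sp_ex (F := F) (by omega) π2 k2 hk2
  obtain ⟨g, hg⟩ := IsCyclic.exists_generator (α := Fˣ)
  obtain ⟨a, b, p, q, hpq, ha, hb, hab⟩ := zp_elem (F := F) hn
  have hw : ∀ f : MulAut (PN n F), ∃ t, f (mk (wv i j (1 : F))) =
      t * mk (wv i j (1 : F)) * t⁻¹ :=
    fun f => zm_inv hn _ (sp_aN (zp_sp hij)) (sp_det (zp_sp hij) k (zp_kk hij hik hjk 1)) f
  have hwg : ∀ f : MulAut (PN n F), ∃ t, f (mk (wv i j g.1)) = t * mk (wv i j g.1) * t⁻¹ := by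
    intro f
    obtain ⟨P, hP⟩ := zp_conj hij hik hjk g.1 g.ne_zero
    rw [hP, mk_mul, mk_mul, mk_inv]
    exact ccl_cj f (hw f) _
  refine ⟨![mk A1, mk A2, mk (wv i j 1), mk (wv i j g.1), a, b], fun R hR => ?_, fun l => ?_⟩
  · have e0 : mk A1 ∈ R := hR 0
    have e1 : mk A2 ∈ R := hR 1
    have e2 : mk (wv i j (1 : F)) ∈ R := hR 2
    have e3 : mk (wv i j g.1) ∈ R := hR 3
    have e4 : a ∈ R := hR 4
    have e5 : b ∈ R := hR 5
    have e6 : mk (ev p q (1 : F)) ∈ R := by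
      rw [← hab]
      exact R.mul_mem e4 (R.inv_mem e5)
    let Γ : Subgroup (Equiv.Perm (Fin n)) :=
      { carrier := {π | ∃ A : SL(n, F), SP A π ∧ mk A ∈ R}
        mul_mem' := by
          rintro π π' ⟨A, hA, hAR⟩ ⟨B, hB, hBR⟩
          exact ⟨A * B, sp_mul hA hB, R.mul_mem hAR hBR⟩
        one_mem' := ⟨1, sp_one, R.one_mem⟩
        inv_mem' := by
          rintro π ⟨A, hA, hAR⟩
          exact ⟨A⁻¹, sp_inv hA, R.inv_mem hAR⟩ }
    refine zp_gen hn R hpq hij e6 g hg e2 e3 fun a b c d hab hcd => ?_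
    obtain ⟨γ, ⟨A, hA, hAR⟩, hγ1, hγ2⟩ := hΓ Γ ⟨A1, hA1, e0⟩ ⟨A2, hA2, e1⟩ a b c d hab hcd
    exact ⟨A, γ, hA, hAR, hγ1, hγ2⟩
  · intro m
    fin_cases m
    · exact zm_inv hn _ (sp_aN hA1) (sp_det hA1 k1 hA1k) l
    · exact zm_inv hn _ (sp_aN hA2) (sp_det hA2 k2 hA2k) l
    · exact hw l
    · exact hwg l
    · exact ha l
    · exact hb l

end Pool.Agent.MPfe8e9bN
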