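import Mathlib
import Pool.Agent.Lib.MP_fe8e9b_al_N.Defs6
import Pool.Agent.Lib.MP_fe8e9b_al_N.LayA6
import Pool.Agent.Lib.MP_fe8e9b_al_N.LayB2
import Pool.Agent.Lib.MP_fe8e9b_al_N.ZAlt
import Pool.Agent.Lib.MP_fe8e9b_al_N.ZP2
import Pool.Agent.Lib.MP_fe8e9b_al_N.ZPn

/-!
# MP_fe8e9b_al, groups of bounded height: a layer of components, sixth version
-/

set_option autoImplicit false

open scoped BigOperators MatrixGroups

namespace Pool.Agent.MPfe8e9bN

open Pool.Agent.MPfe8e9b Pool.Agent.MPfe8e9bA Pool.Agent.MPfe8e9bW Pool.Agent.MPfe8e9bV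
open Pool.Agent.MPfe8e9bM

/-- Alternating groups, and groups `PSL_n` over finite fields. -/
def Free6 (T : Type) [Group T] : Prop :=
  (∃ n, 5 ≤ n ∧ Nonempty (T ≃* alternatingGroup (Fin n))) ∨
  ∃ (n : ℕ) (F : Type) (_ : Field F), 2 ≤ n ∧ Finite F ∧ (n = 2 → 4 ≤ Nat.card F) ∧
    Nonempty (T ≃* PN n F)

/-- `S` is generated by `C` elements such that every element of `G` which normalizes `S` maps each
of them to a conjugate in `S`. -/
def Cgen (C : ℕ) {G : Type} [Group G] (S : Subgroup G) : Prop :=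
  ∃ z : Fin C → S, (∀ R : Subgroup S, (∀ i, z i ∈ R) → R = ⊤) ∧
    ∀ g : G, (∀ s, s ∈ S ↔ g * s * g⁻¹ ∈ S) → ∀ i, ∃ t : S,
      g * (z i : G) * g⁻¹ = ((t * z i * t⁻¹ : S) : G)

/-- `G` is generated by `d` elements, and `𝒮` is a set of pairwise commuting nonabelian simple
subgroups of `G` which generate `N`. Every one is an alternating group or a group `PSL_n(F)`, or is
isomorphic to one of at most `q ^ (C * m ^ 2)` groups which are products of `L` images of
`SL_m(F)`, `F` a field with `q` elements, and is generated by `C` elements whose classes are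
invariant under the normalizer (`Cgen`). -/
def CompLayer6 (d L C : ℕ) (G : Type) [Group G] (𝒮 : Set (Subgroup G)) (N : Subgroup G) : Prop :=
  N = sSup 𝒮 ∧ (∃ T : Finset G, T.card ≤ d ∧ Subgroup.closure (T : Set G) = ⊤) ∧
  (∀ S ∈ 𝒮, IsSimpleGroup S ∧ ∃ a ∈ S, ∃ b ∈ S, a * b ≠ b * a) ∧
  (∀ S ∈ 𝒮, ∀ S' ∈ 𝒮, S ≠ S' → ∀ a ∈ S, ∀ b ∈ S', a * b = b * a) ∧
  ∃ (T : ℕ → ℕ → ℕ → Type) (_ : ∀ m q c, Group (T m q c)),
    ∀ S ∈ 𝒮, Free6 S ∨ ∃ m q c, 2 ≤ m ∧ 2 ≤ q ∧ c < q ^ (C * m ^ 2) ∧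
      (∃ (F : Type) (_ : Field F), Nat.card F = q ∧ SLProduct L m F (T m q c)) ∧
      Nonempty (S ≃* T m q c) ∧ Cgen C S

/-- A set of pairwise commuting nonabelian simple subgroups which generate a normal subgroup is
closed under conjugation.

Proof. Let `S ∈ 𝒮`, `S' = g S g⁻¹`. Every member of `𝒮` is normal in `N` (its normalizer contains
all members), so `S'` is normalized by `N` too. Suppose that `S' ∉ 𝒮`. For `R ∈ 𝒮` the
intersection `S' ⊓ R` is normalized by `S'` and by `R`, so it is trivial or equal to `S'` and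
trivial or equal to `R`, and as `R ≠ S'` it is trivial. So `S'` and `R` commute (`a b a⁻¹ b⁻¹` is in
both). So `S'` commutes with `N`, which contains `S'`; but `S'` is not abelian. -/
theorem lay6_cnj {G : Type} [Group G] {𝒮 : Set (Subgroup G)} (hN : (sSup 𝒮).Normal)
    (h1 : ∀ S ∈ 𝒮, IsSimpleGroup S ∧ ∃ a ∈ S, ∃ b ∈ S, a * b ≠ b * a)
    (h2 : ∀ S ∈ 𝒮, ∀ S' ∈ 𝒮, S ≠ S' → ∀ a ∈ S, ∀ b ∈ S', a * b = b * a) :
    ∀ S ∈ 𝒮, ∀ g : G, S.map (MulAut.conj g).toMonoidHom ∈ 𝒮 := by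
  intro S hS g
  by_contra hcon
  obtain ⟨S', hS'⟩ : ∃ S' : Subgroup G, S' = S.map (MulAut.conj g).toMonoidHom := ⟨_, rfl⟩
  rw [← hS'] at hcon
  have hm : ∀ x, x ∈ S' ↔ g⁻¹ * x * g ∈ S := by
    intro x
    rw [hS', Subgroup.mem_map]
    constructor
    · rintro ⟨y, hy, rfl⟩
      have h3 : g⁻¹ * (MulAut.conj g).toMonoidHom y * g = y := by
        change g⁻¹ * (g * y * g⁻¹) * g = y
        group
      rw [h3]
      exact hy
    · intro hx
      refine ⟨_, hx, ?_⟩
      change g * (g⁻¹ * x * g) * g⁻¹ = x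
      group
  have hnR : ∀ R ∈ 𝒮, ∀ n ∈ sSup 𝒮, ∀ r ∈ R, n * r * n⁻¹ ∈ R := by
    intro R hR n hn r hr
    have h3 : sSup 𝒮 ≤ Subgroup.normalizer (R : Set G) := by
      refine sSup_le fun Q hQ => ?_
      by_cases hQR : Q = R
      · rw [hQR]
        exact Subgroup.le_normalizer
      · intro q hq
        rw [Subgroup.mem_normalizer_iff]
        intro x
        constructor
        · intro hx
          have h4 : q * x * q⁻¹ = x := by
            rw [h2 Q hQ R hR hQR q hq x hx, mul_inv_cancel_right]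
          rw [h4]
          exact hx
        · intro hx
          have h4 := h2 Q hQ R hR hQR q hq _ hx
          have h5 : q * x * q⁻¹ = x := by
            have h6 : q * (q * x * q⁻¹) = q * x := by
              rw [h4]
              group
            exact mul_left_cancel h6
          rw [← h5]
          exact hx
    exact (Subgroup.mem_normalizer_iff.1 (h3 hn) r).1 hr
  have hS1 : ∀ x ∈ S', x ∈ sSup 𝒮 := by
    intro x hx
    have h3 : g⁻¹ * x * g ∈ sSup 𝒮 := (le_sSup hS : S ≤ sSup 𝒮) ((hm x).1 hx)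
    have h4 := hN.conj_mem _ h3 g
    have h5 : g * (g⁻¹ * x * g) * g⁻¹ = x := by group
    rwa [h5] at h4
  have hnS : ∀ n ∈ sSup 𝒮, ∀ x ∈ S', n * x * n⁻¹ ∈ S' := by
    intro n hn x hx
    rw [hm] at hx ⊢
    have h3 : g⁻¹ * n * g ∈ sSup 𝒮 := by
      have h4 := hN.conj_mem n hn g⁻¹
      rwa [inv_inv] at h4
    have h5 := hnR S hS _ h3 _ hx
    have h6 : g⁻¹ * n * g * (g⁻¹ * x * g) * (g⁻¹ * n * g)⁻¹ = g⁻¹ * (n * x * n⁻¹) * g := by group
    rwa [h6] at h5
  have hsim : IsSimpleGroup S' := by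
    rw [hS']
    have h3 := (h1 S hS).1
    have e := S.equivMapOfInjective (MulAut.conj g).toMonoidHom (MulAut.conj g).injective
    have hn : Nontrivial (S.map (MulAut.conj g).toMonoidHom) := e.symm.toEquiv.nontrivial
    exact IsSimpleGroup.isSimpleGroup_of_surjective e.toMonoidHom e.surjective
  have hcomm : ∀ R ∈ 𝒮, ∀ a ∈ S', ∀ b ∈ R, a * b = b * a := by
    intro R hR a ha b hb
    have hRN : ∀ r ∈ R, r ∈ sSup 𝒮 := fun r hr => (le_sSup hR : R ≤ sSup 𝒮) hr
    have hn1 : (R.subgroupOf S').Normal := by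
      refine ⟨fun x hx y => ?_⟩
      rw [Subgroup.mem_subgroupOf] at hx ⊢
      exact hnR R hR y.1 (hS1 y.1 y.2) x.1 hx
    have hn2 : (S'.subgroupOf R).Normal := by
      refine ⟨fun x hx y => ?_⟩
      rw [Subgroup.mem_subgroupOf] at hx ⊢
      exact hnS y.1 (hRN y.1 y.2) x.1 hx
    have hbot : R.subgroupOf S' = ⊥ := by
      rcases hn1.eq_bot_or_eq_top with h3 | h3
      · exact h3
      · exfalso
        rw [Subgroup.subgroupOf_eq_top] at h3
        have := (h1 R hR).1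
        rcases hn2.eq_bot_or_eq_top with h4 | h4
        · have h5 := hsim.toNontrivial
          obtain ⟨x, hx⟩ := exists_ne (1 : S')
          apply hx
          have h6 : (⟨x.1, h3 x.2⟩ : R) ∈ S'.subgroupOf R := by
            rw [Subgroup.mem_subgroupOf]
            exact x.2
          rw [h4, Subgroup.mem_bot] at h6
          have h7 : (x : G) = 1 := congrArg (Subtype.val : R → G) h6
          exact Subtype.ext h7
        · rw [Subgroup.subgroupOf_eq_top] at h4
          exact hcon ((le_antisymm h3 h4) ▸ hR)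
    have h3 : a * b * a⁻¹ * b⁻¹ ∈ S' := by
      have h4 := S'.mul_mem ha (hnS b (hRN b hb) a⁻¹ (S'.inv_mem ha))
      have h5 : a * (b * a⁻¹ * b⁻¹) = a * b * a⁻¹ * b⁻¹ := by group
      rwa [h5] at h4
    have h4 : a * b * a⁻¹ * b⁻¹ ∈ R := R.mul_mem (hnR R hR a (hS1 a ha) b hb) (R.inv_mem hb)
    have h5 : (⟨a * b * a⁻¹ * b⁻¹, h3⟩ : S') ∈ R.subgroupOf S' := by
      rw [Subgroup.mem_subgroupOf]
      exact h4
    rw [hbot, Subgroup.mem_bot] at h5
    have h6 : a * b * a⁻¹ * b⁻¹ = 1 := congrArg Subtype.val h5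
    calc a * b = (a * b * a⁻¹ * b⁻¹) * (b * a) := by group
      _ = b * a := by rw [h6, one_mul]
  have hcen : ∀ a ∈ S', ∀ n ∈ sSup 𝒮, a * n = n * a := by
    intro a ha n hn
    have h3 : sSup 𝒮 ≤ Subgroup.centralizer {a} := by
      refine sSup_le fun R hR b hb => ?_
      rw [Subgroup.mem_centralizer_singleton_iff]
      exact (hcomm R hR a ha b hb).symm
    exact (Subgroup.mem_centralizer_singleton_iff.1 (h3 hn)).symm
  obtain ⟨-, a, ha, b, hb, hab⟩ := h1 S hS
  have ha' : g * a * g⁻¹ ∈ S' := by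
    rw [hm]
    have h3 : g⁻¹ * (g * a * g⁻¹) * g = a := by group
    rw [h3]
    exact ha
  have hb' : g * b * g⁻¹ ∈ S' := by
    rw [hm]
    have h3 : g⁻¹ * (g * b * g⁻¹) * g = b := by group
    rw [h3]
    exact hb
  have h3 := hcen _ ha' _ (hS1 _ hb')
  apply hab
  have h4 : g * (a * b) * g⁻¹ = g * (b * a) * g⁻¹ := by
    calc g * (a * b) * g⁻¹ = g * a * g⁻¹ * (g * b * g⁻¹) := by group
      _ = g * b * g⁻¹ * (g * a * g⁻¹) := h3
      _ = g * (b * a) * g⁻¹ := by group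
  exact mul_left_cancel (mul_right_cancel h4)

/-- Fixed models and fixed families for the groups `PSL_n`. -/
theorem lay6_psl : ∃ (PT : ℕ → ℕ → Type) (_ : ∀ n q, Group (PT n q)) (z : ∀ n q, Fin 6 → PT n q),
    ∀ (n : ℕ) (F : Type) [Field F] [Finite F], 2 ≤ n → (n = 2 → 4 ≤ Nat.card F) →
      Nonempty (PN n F ≃* PT n (Nat.card F)) ∧ Gnr (z n (Nat.card F)) ∧
        ∀ l, l ∈ ccl (z n (Nat.card F)) := by
  have key : ∀ n q : ℕ, ∃ (T : Type) (_ : Group T) (z : Fin 6 → T),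
      ∀ (F : Type) [Field F] [Finite F], Nat.card F = q → 2 ≤ n → (n = 2 → 4 ≤ Nat.card F) →
      Nonempty (PN n F ≃* T) ∧ Gnr z ∧ ∀ l, l ∈ ccl z := by
    intro n q
    by_cases h : ∃ (F : Type) (_ : Field F) (_ : Finite F), Nat.card F = q ∧ 2 ≤ n ∧
        (n = 2 → 4 ≤ Nat.card F)
    · obtain ⟨F, _, _, hq, hn, h4⟩ := h
      have hz : ∃ z : Fin 6 → PN n F, Gnr z ∧ ∀ l, l ∈ ccl z := by
        rcases Nat.lt_or_ge n 3 with h3 | h3
        · obtain rfl : n = 2 := by omega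
          obtain ⟨z, hz, hl⟩ := psl2_z (F := F) (h4 rfl)
          obtain ⟨z', hz', hl'⟩ := gnr_pad (m := 4) (m' := 6) (by norm_num) z hz
          exact ⟨z', hz', fun l => hl' l (hl l)⟩
        · exact psln_z h3
      obtain ⟨z, hz, hl⟩ := hz
      refine ⟨PN n F, inferInstance, z, fun F' _ _ hq' _ _ => ⟨?_, hz, hl⟩⟩
      let i : Fintype F := Fintype.ofFinite F
      let i' : Fintype F' := Fintype.ofFinite F'
      have hc : Fintype.card F' = Fintype.card F := by
        rw [← Nat.card_eq_fintype_card, ← Nat.card_eq_fintype_card, hq, hq']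
      exact ⟨QuotientGroup.congr _ _ (fM (FiniteField.ringEquivOfCardEq hc)) (map_center _)⟩
    · refine ⟨PUnit, inferInstance, fun _ => 1, fun F _ _ hq hn h4 => ?_⟩
      exact absurd ⟨F, inferInstance, inferInstance, hq, hn, h4⟩ h
  choose PT PG z h using key
  exact ⟨PT, PG, z, fun n F _ _ hn h4 => h n (Nat.card F) F rfl hn h4⟩

/-- The automorphism given by an element of the normalizer. -/
theorem lay6_nrm {G : Type} [Group G] {S : Subgroup G} {g : G}
    (h : ∀ s, s ∈ S ↔ g * s * g⁻¹ ∈ S) :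
    ∃ l : MulAut S, ∀ s : S, ((l s : S) : G) = g * s * g⁻¹ := by
  refine ⟨{ toFun := fun s => ⟨g * s * g⁻¹, (h s).1 s.2⟩
            invFun := fun s => ⟨g⁻¹ * s * g, (h _).2 (by
              have h1 : g * (g⁻¹ * (s : G) * g) * g⁻¹ = s := by group
              rw [h1]
              exact s.2)⟩
            left_inv := fun s => Subtype.ext (by
              show g⁻¹ * (g * (s : G) * g⁻¹) * g = s
              group)
            right_inv := fun s => Subtype.ext (by
              show g * (g⁻¹ * (s : G) * g) * g⁻¹ = s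
              group)
            map_mul' := fun s t => Subtype.ext (by
              show g * ((s : G) * t) * g⁻¹ = g * s * g⁻¹ * (g * t * g⁻¹)
              group) }, fun s => rfl⟩

/-- Families with classes which are invariant under all automorphisms. -/
theorem lay6_all {G : Type} [Group G] {S : Subgroup G} {T : Type} [Group T] {m : ℕ}
    {W : Fin m → T} (φ : S ≃* T) (hW : ∀ l : MulAut T, l ∈ ccl W) (g : G)
    (h : ∀ s, s ∈ S ↔ g * s * g⁻¹ ∈ S) (i : Fin m) : ∃ t : S,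
      g * (φ.symm (W i) : G) * g⁻¹ = ((t * φ.symm (W i) * t⁻¹ : S) : G) := by
  obtain ⟨l, hl⟩ := lay6_nrm h
  obtain ⟨t, ht⟩ := hW (MulAut.congr φ l) i
  refine ⟨φ.symm t, ?_⟩
  rw [← hl]
  congr 1
  change φ (l (φ.symm (W i))) = t * W i * t⁻¹ at ht
  rw [← φ.symm_apply_apply (l (φ.symm (W i))), ht, map_mul, map_mul, map_inv]

/-- Generation is invariant under isomorphisms. -/
theorem lay6_gnr {S T : Type} [Group S] [Group T] {m : ℕ} {W : Fin m → T} (φ : S ≃* T)
    (hW : Gnr W) : Gnr (fun i => φ.symm (W i)) := by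
  intro R hR
  have h1 := hW (R.map φ.toMonoidHom) fun i => ⟨φ.symm (W i), hR i, φ.apply_symm_apply _⟩
  rw [eq_top_iff]
  intro s _
  have h2 : φ s ∈ R.map φ.toMonoidHom := by
    rw [h1]
    exact Subgroup.mem_top _
  obtain ⟨r, hr, hrs⟩ := h2
  rw [← φ.injective hrs]
  exact hr

/-- An enumeration of the tuples of a finite group. -/
theorem lay6_enum (M : ℕ) (T : Type) [Group T] : ∃ f : ℕ → Fin M → T, Finite T →
    ∀ w : Fin M → T, ∃ a < Nat.card T ^ M, f a = w := by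
  by_cases h : Finite T
  · have e := Finite.equivFin (Fin M → T)
    have hc : Nat.card (Fin M → T) = Nat.card T ^ M := by
      rw [Nat.card_fun, Nat.card_fin]
    refine ⟨fun a => if h : a < Nat.card (Fin M → T) then e.symm ⟨a, h⟩ else 1,
      fun _ w => ⟨(e w).1, ?_, ?_⟩⟩
    · rw [← hc]
      exact (e w).2
    · show (if h : (e w).1 < Nat.card (Fin M → T) then e.symm ⟨(e w).1, h⟩ else 1) = w
      rw [dif_pos (e w).2]
      exact e.symm_apply_apply w
  · exact ⟨1, fun h1 => absurd h1 h⟩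

/-- More elements. -/
theorem lay6_pad {C M : ℕ} (h : C ≤ M) {G : Type} [Group G] {S : Subgroup G} (hS : Cgen C S) :
    ∃ z : Fin M → S, Gnr z ∧ ∀ g : G, (∀ s, s ∈ S ↔ g * s * g⁻¹ ∈ S) → ∀ i, ∃ t : S,
      g * (z i : G) * g⁻¹ = ((t * z i * t⁻¹ : S) : G) := by
  obtain ⟨z, hz, hzn⟩ := hS
  obtain ⟨z', hz', hl⟩ := gnr_pad h z hz
  refine ⟨z', hz', fun g hg i => ?_⟩
  obtain ⟨l, hlg⟩ := lay6_nrm hg
  have h1 : l ∈ ccl z := by
    intro j
    obtain ⟨t, ht⟩ := hzn g hg j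
    exact ⟨t, Subtype.ext (by rw [hlg, ht])⟩
  obtain ⟨t, ht⟩ := hl l h1 i
  exact ⟨t, by rw [← hlg, ht]⟩

/-- `PSL_n` is a product of images of `SL_n`. -/
theorem lay6_prod {S : Type} [Group S] {n : ℕ} {F : Type} [Field F] (φ : S ≃* PN n F) (L : ℕ) :
    SLProduct (L + 1) n F S := by
  refine ⟨fun j => φ.symm.toMonoidHom.comp (QuotientGroup.mk' (Subgroup.center SL(n, F))),
    fun s => ?_⟩
  obtain ⟨A, hA⟩ := mk_surj (φ s)
  refine ⟨Fin.cons A fun _ => 1, ?_⟩
  rw [List.ofFn_succ, List.prod_cons]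
  simp only [Fin.cons_zero, Fin.cons_succ, map_one]
  rw [List.ofFn_const, List.prod_replicate, one_pow, mul_one]
  change s = φ.symm (mk A)
  rw [hA, φ.symm_apply_apply]

/-- Images of a product of images. -/
theorem lay6_iso {S T : Type} [Group S] [Group T] {L n : ℕ} {F : Type} [Field F] (φ : S ≃* T)
    (h : SLProduct L n F T) : SLProduct L n F S := by
  obtain ⟨ψ, hψ⟩ := h
  refine ⟨fun i => φ.symm.toMonoidHom.comp (ψ i), fun s => ?_⟩
  obtain ⟨z, hz⟩ := hψ (φ s)
  refine ⟨z, ?_⟩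
  rw [← φ.symm_apply_apply s, hz, map_list_prod, List.map_ofFn]
  rfl

/-- The families for all components, with a key. -/
theorem lay6_data {d L C : ℕ} {G : Type} [Group G] [Finite G] {𝒮 : Set (Subgroup G)}
    {N : Subgroup G} (h : CompLayer6 d L C G 𝒮 N) :
    ∃ (z : ∀ x : 𝒮, Fin (C + 360) → x.1) (key : 𝒮 → ℕ ⊕ (ℕ × ℕ × ℕ)),
      (∀ x, Gnr (z x)) ∧
      (∀ (x : 𝒮) (g : G), (∀ s, s ∈ x.1 ↔ g * s * g⁻¹ ∈ x.1) → ∀ i, ∃ t : x.1,
        g * (z x i : G) * g⁻¹ = ((t * z x i * t⁻¹ : x.1) : G)) ∧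
      (∀ x y, key x = key y → ∃ e : x.1 ≃* y.1, ∀ i, e (z x i) = z y i) ∧
      ∀ x, (∃ n, key x = Sum.inl n ∧ 5 ≤ n ∧ Nonempty (x.1 ≃* alternatingGroup (Fin n))) ∨
        ∃ m q c', key x = Sum.inr (m, q, c') ∧ 2 ≤ m ∧
          c' < q ^ ((C + L * (C + 360) + 1) * m ^ 2) ∧
          ∃ (F : Type) (_ : Field F) (_ : Fintype F), Fintype.card F = q ∧
            SLProduct (L + 1) m F x.1 := by
  obtain ⟨-, -, -, -, T, iT, hT⟩ := h
  obtain ⟨PT, iP, zP, hP⟩ := lay6_psl
  have hf : ∀ m q c, ∃ f : ℕ → Fin (C + 360) → T m q c, Finite (T m q c) →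
      ∀ w : Fin (C + 360) → T m q c, ∃ a < Nat.card (T m q c) ^ (C + 360), f a = w :=
    fun m q c => lay6_enum (C + 360) (T m q c)
  choose f hf using hf
  obtain ⟨B, hB⟩ : ∃ B : ℕ → ℕ → ℕ, ∀ m q, B m q = q ^ (L * (C + 360) * m ^ 2) :=
    ⟨fun m q => q ^ (L * (C + 360) * m ^ 2), fun m q => rfl⟩
  have key : ∀ k : ℕ ⊕ (ℕ × ℕ × ℕ), ∃ (TT : Type) (_ : Group TT) (W : Fin (C + 360) → TT),
      (∀ n, k = Sum.inl n → 5 ≤ n → Nonempty (alternatingGroup (Fin n) ≃* TT) ∧ Gnr W ∧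
        ∀ l, l ∈ ccl W) ∧
      (∀ m q, k = Sum.inr (m, q, 0) → ∀ (F : Type) [Field F] [Finite F], Nat.card F = q →
        2 ≤ m → (m = 2 → 4 ≤ Nat.card F) → Nonempty (PN m F ≃* TT) ∧ Gnr W ∧
          ∀ l, l ∈ ccl W) ∧
      ∀ m q j, k = Sum.inr (m, q, j + 1) → ∃ e : T m q (j / B m q) ≃* TT, ∀ i,
        W i = e (f m q (j / B m q) (j % B m q) i) := by
    intro k
    rcases k with n | ⟨m, q, _ | j⟩
    · by_cases hn : 5 ≤ n
      · obtain ⟨z, hz, hl⟩ := alt_z hn
        obtain ⟨z', hz', hl'⟩ := gnr_pad (Nat.le_add_left 360 C) z hz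
        refine ⟨alternatingGroup (Fin n), inferInstance, z', ?_, ?_, ?_⟩
        · intro n' h1 _
          obtain rfl := Sum.inl_injective h1
          exact ⟨⟨MulEquiv.refl _⟩, hz', fun l => hl' l (hl l)⟩
        · intro m q h1
          exact absurd h1 (by simp)
        · intro m q j h1
          exact absurd h1 (by simp)
      · refine ⟨PUnit, inferInstance, fun _ => 1, ?_, ?_, ?_⟩
        · intro n' h1 h2
          obtain rfl := Sum.inl_injective h1
          exact absurd h2 hn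
        · intro m q h1
          exact absurd h1 (by simp)
        · intro m q j h1
          exact absurd h1 (by simp)
    · by_cases hc : ∃ (F : Type) (_ : Field F) (_ : Finite F), Nat.card F = q ∧ 2 ≤ m ∧
          (m = 2 → 4 ≤ Nat.card F)
      · obtain ⟨F, _, _, hq, hm, h4⟩ := hc
        obtain ⟨-, h5, h6⟩ := hP m F hm h4
        rw [hq] at h5 h6
        obtain ⟨z', hz', hl'⟩ := gnr_pad (m' := C + 360) (by omega) (zP m q) h5
        refine ⟨PT m q, iP m q, z', ?_, ?_, ?_⟩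
        · intro n h1
          exact absurd h1 (by simp)
        · intro m' q' h1 F' _ _ hq' hm' h4'
          have h7 := Sum.inr_injective h1
          obtain rfl : m = m' := congrArg Prod.fst h7
          obtain rfl : q = q' := congrArg (fun p => p.2.1) h7
          obtain ⟨h8, -, -⟩ := hP m F' hm' h4'
          rw [hq'] at h8
          exact ⟨h8, hz', fun l => hl' l (h6 l)⟩
        · intro m' q' j h1
          have h7 := congrArg (fun p => p.2.2) (Sum.inr_injective h1)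
          exact absurd h7 (by simp)
      · refine ⟨PUnit, inferInstance, fun _ => 1, ?_, ?_, ?_⟩
        · intro n h1
          exact absurd h1 (by simp)
        · intro m' q' h1 F' _ _ hq' hm' h4'
          have h7 := Sum.inr_injective h1
          obtain rfl : m = m' := congrArg Prod.fst h7
          obtain rfl : q = q' := congrArg (fun p => p.2.1) h7
          exact absurd ⟨F', inferInstance, inferInstance, hq', hm', h4'⟩ hc
        · intro m' q' j h1
          have h7 := congrArg (fun p => p.2.2) (Sum.inr_injective h1)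
          exact absurd h7 (by simp)
    · refine ⟨T m q (j / B m q), iT _ _ _, f m q (j / B m q) (j % B m q), ?_, ?_, ?_⟩
      · intro n h1
        exact absurd h1 (by simp)
      · intro m' q' h1
        have h7 := congrArg (fun p => p.2.2) (Sum.inr_injective h1)
        exact absurd h7 (by simp)
      · intro m' q' j' h1
        have h7 := Sum.inr_injective h1
        obtain rfl : m = m' := congrArg Prod.fst h7
        obtain rfl : q = q' := congrArg (fun p => p.2.1) h7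
        have h8 : j + 1 = j' + 1 := congrArg (fun p => p.2.2) h7
        obtain rfl : j = j' := by omega
        exact ⟨MulEquiv.refl _, fun i => rfl⟩
  choose TT iTT W h1 h2 h3 using key
  have hone : ∀ x : 𝒮, ∃ (k : ℕ ⊕ (ℕ × ℕ × ℕ)) (z : Fin (C + 360) → x.1) (φ : x.1 ≃* TT k),
      (∀ i, φ (z i) = W k i) ∧ Gnr z ∧
      (∀ g : G, (∀ s, s ∈ x.1 ↔ g * s * g⁻¹ ∈ x.1) → ∀ i, ∃ t : x.1,
        g * (z i : G) * g⁻¹ = ((t * z i * t⁻¹ : x.1) : G)) ∧
      ((∃ n, k = Sum.inl n ∧ 5 ≤ n ∧ Nonempty (x.1 ≃* alternatingGroup (Fin n))) ∨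
        ∃ m q c', k = Sum.inr (m, q, c') ∧ 2 ≤ m ∧
          c' < q ^ ((C + L * (C + 360) + 1) * m ^ 2) ∧
          ∃ (F : Type) (_ : Field F) (_ : Fintype F), Fintype.card F = q ∧
            SLProduct (L + 1) m F x.1) := by
    intro x
    rcases hT x.1 x.2 with (⟨n, hn, ⟨φ⟩⟩ | ⟨n, F, _, hn, hF, h4, ⟨φ⟩⟩) |
      ⟨m, q, c, hm, hq, hc, ⟨F, _, hF, hS⟩, ⟨φ⟩, hg⟩
    · obtain ⟨⟨e⟩, h5, h6⟩ := h1 (Sum.inl n) n rfl hn
      exact ⟨Sum.inl n, fun i => (φ.trans e).symm (W _ i), φ.trans e,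
        fun i => (φ.trans e).apply_symm_apply _, lay6_gnr _ h5, fun g hg i => lay6_all _ h6 g hg i,
        Or.inl ⟨n, rfl, hn, ⟨φ⟩⟩⟩
    · let iF : Fintype F := Fintype.ofFinite F
      obtain ⟨⟨e⟩, h5, h6⟩ := h2 (Sum.inr (n, Nat.card F, 0)) n (Nat.card F) rfl F rfl hn h4
      refine ⟨Sum.inr (n, Nat.card F, 0), fun i => (φ.trans e).symm (W _ i), φ.trans e,
        fun i => (φ.trans e).apply_symm_apply _, lay6_gnr _ h5, fun g hg i => lay6_all _ h6 g hg i,
        Or.inr ⟨n, Nat.card F, 0, rfl, hn, Nat.pow_pos Nat.card_pos, F, inferInstance, iF,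
          Nat.card_eq_fintype_card.symm, lay6_prod φ L⟩⟩
    · have hfinF : Finite F := Nat.finite_of_card_ne_zero (by omega)
      let iF : Fintype F := Fintype.ofFinite F
      have hqF : Fintype.card F = q := by
        rw [← Nat.card_eq_fintype_card, hF]
      obtain ⟨z, hz, hzn⟩ := lay6_pad (Nat.le_add_right C 360) hg
      obtain ⟨hfin, hcard⟩ := Final3.SLProduct.card_le hS
      rw [hqF] at hcard
      obtain ⟨a, ha, haw⟩ := hf m q c hfin fun i => φ (z i)
      have hB0 : 0 < B m q := by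
        rw [hB]
        exact Nat.pow_pos (by omega)
      have haB : a < B m q := by
        refine ha.trans_le ?_
        rw [hB]
        refine (Nat.pow_le_pow_left hcard _).trans (le_of_eq ?_)
        rw [← pow_mul]
        congr 1
        ring
      obtain ⟨j, hj1, hj2, hj3⟩ : ∃ j, c = j / B m q ∧ a = j % B m q ∧
          j < q ^ (C * m ^ 2) * B m q := by
        refine ⟨c * B m q + a, ?_, ?_, ?_⟩
        · rw [Nat.mul_comm, Nat.mul_add_div hB0, Nat.div_eq_of_lt haB, add_zero]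
        · rw [Nat.mul_comm, Nat.mul_add_mod, Nat.mod_eq_of_lt haB]
        · calc c * B m q + a < c * B m q + B m q := Nat.add_lt_add_left haB _
            _ = (c + 1) * B m q := by ring
            _ ≤ q ^ (C * m ^ 2) * B m q := Nat.mul_le_mul_right _ hc
      subst hj1
      subst hj2
      obtain ⟨e, he⟩ := h3 (Sum.inr (m, q, j + 1)) m q j rfl
      refine ⟨Sum.inr (m, q, j + 1), z, φ.trans e, fun i => ?_, hz, hzn,
        Or.inr ⟨m, q, j + 1, rfl, hm, ?_, F, inferInstance, iF, hqF,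
          layb2_prod (lay6_iso φ hS)⟩⟩
      · rw [he, haw]
        rfl
      · have h5 : q ^ (C * m ^ 2) * B m q = q ^ ((C + L * (C + 360)) * m ^ 2) := by
          rw [hB, ← pow_add]
          congr 1
          ring
        rw [h5] at hj3
        refine lt_of_le_of_lt hj3 ?_
        refine Nat.pow_lt_pow_right (by omega) ?_
        have h6 : 0 < m ^ 2 := by positivity
        nlinarith
  choose k z φ h4 h5 h6 h7 using hone
  refine ⟨z, k, h5, h6, fun x y hxy => ?_, h7⟩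
  have h8 : ∀ (k' : ℕ ⊕ (ℕ × ℕ × ℕ)) (ψ : x.1 ≃* TT k'), (∀ i, ψ (z x i) = W k' i) →
      k' = k y → ∃ e : x.1 ≃* y.1, ∀ i, e (z x i) = z y i := by
    intro k' ψ hψ hk
    subst hk
    refine ⟨ψ.trans (φ y).symm, fun i => ?_⟩
    change (φ y).symm (ψ (z x i)) = z y i
    rw [hψ, ← h4 y i, MulEquiv.symm_apply_apply]
  exact h8 (k x) (φ x) (h4 x) hxy

/-- The step of the main theorem. -/
theorem lay_m6 (d L C kQ : ℕ) {κQ : ℝ} (hκQ : 0 < κQ) : ∃ (k : ℕ) (κ : ℝ), 0 < κ ∧
    ∀ (G : Type) [Group G] [Finite G] (𝒮 : Set (Subgroup G)) (N : Subgroup G) [N.Normal],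
      CompLayer6 d L C G 𝒮 N → FExpd (G ⧸ N) kQ κQ → FExpd G k κ := by
  obtain ⟨k, κ, hκ, hall⟩ := lay_a6 d (C + 360) (L + 1) (C + L * (C + 360) + 1) kQ
    (by omega) hκQ
  refine ⟨k, κ, hκ, fun G _ _ 𝒮 N hN h hQ => ?_⟩
  obtain ⟨z, key, h1, h2, h3, h4⟩ := lay6_data h
  obtain ⟨h5, h6, h7, h8, -⟩ := h
  have hcj := lay6_cnj (by rw [← h5]; exact hN) h7 h8
  obtain ⟨act, hC⟩ := layb2_cmp hcj h7 h8
  have hno : ∀ (x : 𝒮) (g : G), act g x = x → ∀ s, s ∈ x.1 ↔ g * s * g⁻¹ ∈ x.1 := by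
    intro x g hgx s
    constructor
    · intro hs
      have h1 : g * s * g⁻¹ ∈ (act g x).1 := hC.cnj g x s hs
      rw [hgx] at h1
      exact h1
    · intro hs
      obtain ⟨a, ha, hab⟩ := cmp_onto hC g x (g * s * g⁻¹) (by
        rw [hgx]
        exact hs)
      have h1 : s = a := mul_left_cancel (mul_right_cancel hab)
      rw [h1]
      exact ha
  exact hall G 𝒮 (fun x : 𝒮 => x.1) act hC z h1 (fun x g hgx => h2 x g (hno x g hgx)) key h3 h4
    h6 N (h5.trans (sSup_eq_iSup' 𝒮)) hQ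

end Pool.Agent.MPfe8e9bN
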