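import Mathlib
import Pool.Agent.Lib.MP_fe8e9b_al_M.Defs
import Pool.Agent.Lib.MP_fe8e9b_al_M.MnF
import Pool.Agent.Lib.MP_fe8e9b_al_M.Code
import Pool.Agent.Lib.MP_fe8e9b_al_M.LDat
import Pool.Agent.Lib.MP_fe8e9b_al_M.CmpD
import Pool.Agent.Lib.MP_fe8e9b_al_M.CmpB
import Pool.Agent.Lib.MP_fe8e9b_al_M.PsiX
import Pool.Agent.Lib.MP_fe8e9b_al_M.MltX
import Pool.Agent.Lib.MP_fe8e9b_al_N.Defs6
import Pool.Agent.Lib.MP_fe8e9b_al_N.LdX6

/-!
# MP_fe8e9b_al, groups of bounded height: codes for the components, sixth version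
-/

set_option autoImplicit false

open scoped BigOperators

namespace Pool.Agent.MPfe8e9bN

open Pool.Agent.MPfe8e9b Pool.Agent.MPfe8e9bA Pool.Agent.MPfe8e9bW Pool.Agent.MPfe8e9bV
open Pool.Agent.MPfe8e9bM

/-- Codes for the components.

Proof. As `codX_code` (private, file N/CodX3): `code` for `P = G`, the action `D.ac k`,
`B = Nat.card (D.T k) ^ ((1 + m) * d)`, with `mlt_x` and `ccl_card`. -/
theorem cod_x6 {G X : Type} [Group G] [Fintype G] [Finite X] {C : X → Subgroup G}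
    {act : G →* Equiv.Perm X} (hC : Cmp C act) {m : ℕ} (z : ∀ x, Fin m → C x)
    (hg : ∀ x, Gnr (z x)) (D : Crd C act (fun x => ccl (z x))) (d : ℕ)
    (hd : ∃ T : Finset G, T.card ≤ d ∧ Subgroup.closure (T : Set G) = ⊤) :
    ∃ lab : ∀ k, D.Y k → Fin (64 * (Nat.card (D.T k) ^ ((1 + m) * d)) ^ 2),
      ∀ k y y', y ≠ y' → mn (fun p : G =>
        ind (lab k (D.ac k p y) = lab k (D.ac k p y'))) ≤ 3 / 4 := by
  classical
  have hL : ∀ k : D.K, ∃ L0 : D.Y k → Fin (64 * (Nat.card (D.T k) ^ ((1 + m) * d)) ^ 2),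
      ∀ y y', y ≠ y' → mn (fun p : G => ind (L0 (D.ac k p y) = L0 (D.ac k p y'))) ≤ 3 / 4 := by
    intro k
    have : Fintype (D.Y k) := Fintype.ofFinite _
    refine code (D.ac k) (Nat.card (D.T k) ^ ((1 + m) * d)) ?_ ?_ (by rw [Fintype.card_fin])
    · exact Nat.one_le_pow _ _ Nat.card_pos
    · intro y
      refine (mlt_x hC D d hd k y).trans ?_
      refine Nat.pow_le_pow_left ?_ _
      rw [pow_mul]
      refine Nat.pow_le_pow_left ?_ _
      rw [pow_add, pow_one]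
      exact Nat.mul_le_mul_left _ (ccl_card (z (D.rep k)) (hg (D.rep k)) _)
  choose lab hlab using hL
  exact ⟨lab, hlab⟩

end Pool.Agent.MPfe8e9bN
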