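import Mathlib
import Pool.Agent.Lib.MP_fe8e9b_al_M.AltCor
import Pool.Agent.Lib.MP_fe8e9b_al_N.ClsF2
import Pool.Agent.Lib.MP_fe8e9b_al_N.AutP

/-!
# MP_fe8e9b_al: groups with a normal series whose factors are products of alternating groups and
of groups `PSL_2`
-/

set_option autoImplicit false

open scoped BigOperators Pointwise MatrixGroups

namespace Pool.Agent.MPfe8e9bN

open Pool.Agent.MPfe8e9b Pool.Agent.MPfe8e9bA Pool.Agent.MPfe8e9bW Pool.Agent.MPfe8e9bV
open Pool.Agent.MPfe8e9bM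

/-- `T` is isomorphic to an alternating group of degree at least five and different from six, or to
`PSL_2` of a field with `p ^ f` elements, where `p ≥ 5` is a prime and `f` is odd. -/
def AltPsl (T : Type) [Group T] : Prop :=
  (∃ n, 5 ≤ n ∧ n ≠ 6 ∧ Nonempty (T ≃* alternatingGroup (Fin n))) ∨
  ∃ (p f : ℕ) (F : Type) (_ : Field F) (_ : Fintype F), p.Prime ∧ 5 ≤ p ∧ Odd f ∧
    Fintype.card F = p ^ f ∧ Nonempty (T ≃* PSL(2, F))

/-- `Q` is isomorphic to a finite direct product of groups with `AltPsl`. -/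
def AltPslProd (Q : Type) [Group Q] : Prop :=
  ∃ (ι : Type) (_ : Finite ι) (T : ι → Type) (_ : ∀ i, Group (T i)), (∀ i, AltPsl (T i)) ∧
    Nonempty (Q ≃* (∀ i, T i))

/-- `G` has a series of at most `l + 1` normal subgroups, from the trivial subgroup to `G`, whose
factors are direct products of groups with `AltPsl`: `G` is trivial, or `G` has a normal subgroup
`N` with `AltPslProd N` such that `G ⧸ N` has such a series for `l - 1`. -/
inductive AltPslSeries : ℕ → (G : Type) → Group G → Prop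
  | triv (l : ℕ) (G : Type) (inst : Group G) (h : Subsingleton G) : AltPslSeries l G inst
  | step (l : ℕ) (G : Type) (inst : Group G) (N : Subgroup G) (hN : N.Normal)
      (h₁ : AltPslProd N) (h₂ : AltPslSeries l (G ⧸ N) inferInstance) :
      AltPslSeries (l + 1) G inst

namespace Cor2

theorem psl_simple {F : Type} [Field F] [Fintype F] (h : 4 ≤ Fintype.card F) :
    IsSimpleGroup PSL(2, F) :=
  Matrix.ProjectiveSpecialLinearGroup.rank_two_simple (by rwa [Nat.card_eq_fintype_card])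

theorem psl_nonab {F : Type} [Field F] [Fintype F] (h : 4 ≤ Fintype.card F) :
    ∃ a b : PSL(2, F), a * b ≠ b * a := by
  by_contra hcon
  push Not at hcon
  have h1 : ∃ a : F, a ≠ 0 ∧ a ^ 2 ≠ 1 := by
    by_contra hcon
    push Not at hcon
    classical
    have h2 : (Finset.univ : Finset F) ⊆ {0, 1, -1} := by
      intro a _
      simp only [Finset.mem_insert, Finset.mem_singleton]
      by_cases ha : a = 0
      · exact Or.inl ha
      · have h3 := hcon a ha
        rw [pow_two] at h3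
        exact Or.inr (mul_self_eq_one_iff.1 h3)
    have h3 := Finset.card_le_card h2
    have h4 : ({0, 1, -1} : Finset F).card ≤ 3 := Finset.card_le_three
    rw [Finset.card_univ] at h3
    omega
  have h2 := SL2Simple.PSL_commutator_eq_top h1
  have h3 : commutator PSL(2, F) = ⊥ := by
    rw [commutator_eq_bot_iff_center_eq_top, eq_top_iff]
    intro a _
    rw [Subgroup.mem_center_iff]
    exact fun b => hcon b a
  rw [h2] at h3
  have h4 := (psl_simple h).exists_pair_ne
  obtain ⟨x, y, hxy⟩ := h4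
  have h5 : ∀ z : PSL(2, F), z = 1 := by
    intro z
    have : z ∈ (⊤ : Subgroup PSL(2, F)) := trivial
    rw [h3] at this
    exact Subgroup.mem_bot.1 this
  exact hxy ((h5 x).trans (h5 y).symm)

theorem alt_nonab {n : ℕ} (hn : 5 ≤ n) :
    ∃ a b : alternatingGroup (Fin n), a * b ≠ b * a := by
  by_contra hcon
  push Not at hcon
  have hs : IsSimpleGroup (alternatingGroup (Fin n)) := alternatingGroup.isSimpleGroup (by
    rw [Nat.card_eq_fintype_card, Fintype.card_fin]
    exact hn)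
  have h1 := alternatingGroup.center_eq_bot (α := Fin n)
    (by rw [Nat.card_eq_fintype_card, Fintype.card_fin]; omega)
  obtain ⟨x, y, hxy⟩ := hs.exists_pair_ne
  have h5 : ∀ z : alternatingGroup (Fin n), z = 1 := by
    intro z
    have : z ∈ Subgroup.center (alternatingGroup (Fin n)) := by
      rw [Subgroup.mem_center_iff]
      exact fun b => hcon b z
    rw [h1] at this
    exact Subgroup.mem_bot.1 this
  exact hxy ((h5 x).trans (h5 y).symm)

theorem pow_card {p f : ℕ} (hp : p.Prime) (h5 : 5 ≤ p) (hf : Odd f) : 5 ≤ p ^ f := by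
  obtain ⟨k, rfl⟩ := hf
  calc 5 ≤ p := h5
    _ = p ^ 1 := (pow_one p).symm
    _ ≤ p ^ (2 * k + 1) := Nat.pow_le_pow_right hp.pos (by omega)

theorem simple {T : Type} [Group T] (h : AltPsl T) : IsSimpleGroup T := by
  rcases h with ⟨n, hn, -, ⟨e⟩⟩ | ⟨p, f, F, _, _, hp, h5, hf, hF, ⟨e⟩⟩
  · have hs : IsSimpleGroup (alternatingGroup (Fin n)) := alternatingGroup.isSimpleGroup (by
      rw [Nat.card_eq_fintype_card, Fintype.card_fin]
      exact hn)
    exact e.isSimpleGroup
  · have hs : IsSimpleGroup PSL(2, F) := psl_simple (by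
      rw [hF]
      have := pow_card hp h5 hf
      omega)
    exact e.isSimpleGroup

theorem nonab {T : Type} [Group T] (h : AltPsl T) : ∃ a b : T, a * b ≠ b * a := by
  have key : ∀ {A : Type} [Group A], (T ≃* A) → (∃ a b : A, a * b ≠ b * a) →
      ∃ a b : T, a * b ≠ b * a := by
    intro A _ e hA
    obtain ⟨a, b, hab⟩ := hA
    refine ⟨e.symm a, e.symm b, fun h => hab ?_⟩
    rw [← map_mul, ← map_mul] at h
    exact e.symm.injective h
  rcases h with ⟨n, hn, -, ⟨e⟩⟩ | ⟨p, f, F, _, _, hp, h5, hf, hF, ⟨e⟩⟩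
  · exact key e (alt_nonab hn)
  · refine key e (psl_nonab ?_)
    rw [hF]
    have := pow_card hp h5 hf
    omega

theorem pslComp {G : Type} [Group G] (S : Subgroup G) {F : Type} [Field F] [Fintype F]
    {p f : ℕ} (hp : p.Prime) (h5 : 5 ≤ p) (hf : Odd f) (hF : Fintype.card F = p ^ f)
    (φ : S ≃* PSL(2, F)) : PslComp S (p ^ f) p := by
  have hpf : Fact p.Prime := ⟨hp⟩
  have hch : CharP F p := charP_of_card_eq_prime_pow hF
  have hcard : Nat.card (⊥ : Subfield F) = p := Subfield.card_bot F p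
  refine ⟨F, inferInstance, inferInstance, ⊥, hF, hcard, by omega, ?_, φ, fun g hg => ?_⟩
  · have h1 : Fintype (⊥ : Subfield F) := Fintype.ofFinite _
    have h2 : Fintype.card F = Fintype.card (⊥ : Subfield F) ^
        Module.finrank (⊥ : Subfield F) F := Module.card_eq_pow_finrank
    rw [← Nat.card_eq_fintype_card (α := (⊥ : Subfield F)), hcard, hF] at h2
    rw [← Nat.pow_right_injective hp.two_le h2]
    exact hf
  · obtain ⟨M, σ, hσ⟩ := aut_psl ((φ.symm.trans (AltCor.cj S g hg)).trans φ)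
    refine ⟨M, σ, fun x hx => ?_, fun s s' hs => ?_⟩
    · have h1 : (⊥ : Subfield F) ≤ σ.toRingHom.eqLocusField (RingHom.id F) := bot_le
      exact h1 hx
    · have h1 := hσ (φ s)
      have h2 : ((φ.symm.trans (AltCor.cj S g hg)).trans φ) (φ s) = φ s' := by
        show φ (AltCor.cj S g hg (φ.symm (φ s))) = φ s'
        rw [φ.symm_apply_apply]
        exact congrArg φ (Subtype.ext hs.symm)
      rw [h2] at h1
      exact h1

theorem comp {G : Type} [Group G] (S : Subgroup G) {T : Type} [Group T] (h : AltPsl T)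
    (φ : S ≃* T) : (∃ n, AltComp S n) ∨ ∃ q' k, PslComp S q' k := by
  rcases h with ⟨n, hn, h6, ⟨e⟩⟩ | ⟨p, f, F, _, _, hp, h5, hf, hF, ⟨e⟩⟩
  · exact Or.inl ⟨n, AltCor.altComp S hn h6 (φ.trans e)⟩
  · exact Or.inr ⟨p ^ f, p, pslComp S hp h5 hf hF (φ.trans e)⟩

section Prod

variable {G ι : Type} [Group G] [DecidableEq ι] {T : ι → Type} [∀ i, Group (T i)]
  {N : Subgroup G}

/-- The embedding of the factor `i`. -/
noncomputable def ps (e : N ≃* (∀ i, T i)) (i : ι) : T i →* G :=
  (N.subtype.comp e.symm.toMonoidHom).comp (MonoidHom.mulSingle T i)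

variable (e : N ≃* (∀ i, T i))

theorem ps_inj (i : ι) : Function.Injective (ps e i) := by
  intro a b h
  have h1 : e.symm (Pi.mulSingle i a) = e.symm (Pi.mulSingle i b) := Subtype.ext h
  exact Pi.mulSingle_injective (M := T) i (e.symm.injective h1)

theorem ps_le (i : ι) : (ps e i).range ≤ N := by
  rintro _ ⟨a, rfl⟩
  exact (e.symm (Pi.mulSingle i a)).2

theorem ps_iso (i : ι) : Nonempty ((ps e i).range ≃* T i) :=
  ⟨((ps e i).ofInjective (ps_inj e i)).symm⟩

theorem ps_comm {i j : ι} (hij : i ≠ j) (a : T i) (b : T j) :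
    ps e i a * ps e j b = ps e j b * ps e i a := by
  have h1 : (Pi.mulSingle i a : ∀ i, T i) * Pi.mulSingle j b =
      Pi.mulSingle j b * Pi.mulSingle i a := (Pi.mulSingle_commute (f := T) hij a b).eq
  have h2 := congrArg (fun x => ((e.symm x : N) : G)) h1
  simp only [map_mul, Subgroup.coe_mul] at h2
  exact h2

theorem ps_norm (i : ι) {g : G} (hg : g ∈ N) {s : G} (hs : s ∈ (ps e i).range) :
    g * s * g⁻¹ ∈ (ps e i).range := by
  obtain ⟨a, rfl⟩ := hs
  refine ⟨e ⟨g, hg⟩ i * a * (e ⟨g, hg⟩ i)⁻¹, ?_⟩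
  have h1 : (Pi.mulSingle i (e ⟨g, hg⟩ i * a * (e ⟨g, hg⟩ i)⁻¹) : ∀ i, T i) =
      e ⟨g, hg⟩ * Pi.mulSingle i a * (e ⟨g, hg⟩)⁻¹ := by
    funext j
    by_cases hj : j = i
    · subst hj
      simp
    · simp [Pi.mulSingle_eq_of_ne hj]
  have h2 := congrArg (fun x => ((e.symm x : N) : G)) h1
  simp only [map_mul, map_inv, e.symm_apply_apply, Subgroup.coe_mul, Subgroup.coe_inv] at h2
  exact h2

theorem ps_gen [Finite ι] {K : Subgroup G} (h : ∀ i, (ps e i).range ≤ K) : N ≤ K := by
  intro g hg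
  have h1 : e ⟨g, hg⟩ ∈ K.comap (N.subtype.comp e.symm.toMonoidHom) :=
    Subgroup.pi_mem_of_mulSingle_mem _ fun i => h i ⟨_, rfl⟩
  have h2 : ((e.symm (e ⟨g, hg⟩) : N) : G) ∈ K := h1
  rwa [e.symm_apply_apply] at h2

theorem ps_simple (hT : ∀ i, AltPsl (T i)) (i : ι) : IsSimpleGroup (ps e i).range := by
  have h1 : IsSimpleGroup (T i) := simple (hT i)
  obtain ⟨φ⟩ := ps_iso e i
  exact φ.isSimpleGroup

theorem ps_nonab (hT : ∀ i, AltPsl (T i)) (i : ι) :
    ∃ a ∈ (ps e i).range, ∃ b ∈ (ps e i).range, a * b ≠ b * a := by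
  obtain ⟨a, b, hab⟩ := nonab (hT i)
  refine ⟨ps e i a, ⟨a, rfl⟩, ps e i b, ⟨b, rfl⟩, fun h => hab (ps_inj e i ?_)⟩
  rw [map_mul, map_mul]
  exact h

/-- The factors are permuted by the conjugations. -/
theorem ps_conj [Finite ι] [N.Normal] (hT : ∀ i, AltPsl (T i)) (i : ι) (g : G) :
    ∃ j, (ps e i).range.map (MulAut.conj g).toMonoidHom = (ps e j).range := by
  set S' := (ps e i).range.map (MulAut.conj g).toMonoidHom with hS'
  have hmem : ∀ s, s ∈ S' ↔ g⁻¹ * s * g ∈ (ps e i).range := by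
    intro s
    constructor
    · rintro ⟨t, ht, rfl⟩
      have : g⁻¹ * (g * t * g⁻¹) * g = t := by group
      show g⁻¹ * (g * t * g⁻¹) * g ∈ _
      rw [this]
      exact ht
    · intro h
      refine ⟨_, h, ?_⟩
      show g * (g⁻¹ * s * g) * g⁻¹ = s
      group
  have hN : ∀ s ∈ S', s ∈ N := by
    intro s hs
    have h1 := ps_le e i ((hmem s).1 hs)
    have h2 := Subgroup.Normal.conj_mem inferInstance _ h1 g
    have h3 : g * (g⁻¹ * s * g) * g⁻¹ = s := by group
    rwa [h3] at h2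
  have hnorm : ∀ x ∈ N, ∀ s ∈ S', x * s * x⁻¹ ∈ S' := by
    intro x hx s hs
    rw [hmem]
    have h1 : g⁻¹ * x * g ∈ N := by
      have := Subgroup.Normal.conj_mem (inferInstance : N.Normal) x hx g⁻¹
      rwa [inv_inv] at this
    have h2 := ps_norm e i h1 ((hmem s).1 hs)
    have h3 : g⁻¹ * x * g * (g⁻¹ * s * g) * (g⁻¹ * x * g)⁻¹ = g⁻¹ * (x * s * x⁻¹) * g := by group
    rwa [h3] at h2
  have hsimp : IsSimpleGroup S' := by
    have h1 := ps_simple e hT i
    exact ((ps e i).range.equivMapOfInjective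
      (MulAut.conj g).toMonoidHom (MulAut.conj g).injective).symm.isSimpleGroup
  -- some factor does not commute with `S'`
  obtain ⟨j, a, ha, b, hb, hab⟩ : ∃ j, ∃ a ∈ S', ∃ b ∈ (ps e j).range, a * b ≠ b * a := by
    by_contra hcon
    push Not at hcon
    obtain ⟨a, ha, b, hb, hab⟩ := ps_nonab e hT i
    apply hab
    have h1 : ∀ c ∈ S', N ≤ Subgroup.centralizer {c} := by
      intro c hc
      refine ps_gen e fun j b hb => ?_
      rw [Subgroup.mem_centralizer_singleton_iff]
      exact (hcon j c hc b hb).symm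
    have ha' : g * a * g⁻¹ ∈ S' := ⟨a, ha, rfl⟩
    have hb' : g * b * g⁻¹ ∈ S' := ⟨b, hb, rfl⟩
    have h2 := Subgroup.mem_centralizer_singleton_iff.1 (h1 _ hb' (hN _ ha'))
    calc a * b = g⁻¹ * (g * a * g⁻¹ * (g * b * g⁻¹)) * g := by group
      _ = g⁻¹ * (g * b * g⁻¹ * (g * a * g⁻¹)) * g := by rw [h2]
      _ = b * a := by group
  refine ⟨j, ?_⟩
  have hne : S' ⊓ (ps e j).range ≠ ⊥ := by
    intro h
    apply hab
    have h1 : a * b * a⁻¹ * b⁻¹ ∈ S' ⊓ (ps e j).range := by
      refine ⟨?_, ?_⟩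
      · have h2 : a * b * a⁻¹ * b⁻¹ = a * (b * a⁻¹ * b⁻¹) := by group
        rw [h2]
        exact S'.mul_mem ha (hnorm b (ps_le e j hb) _ (S'.inv_mem ha))
      · exact Subgroup.mul_mem _ (ps_norm e j (hN a ha) hb) (Subgroup.inv_mem _ hb)
    rw [h, Subgroup.mem_bot] at h1
    have h3 : a * b = (a * b * a⁻¹ * b⁻¹) * (b * a) := by group
    rw [h3, h1, one_mul]
  have e1 : S' ⊓ (ps e j).range = S' := by
    refine AltCor.simple_eq hsimp inf_le_left ?_ hne
    intro s hs x hx
    exact ⟨hnorm s (hN s hs) x hx.1, ps_norm e j (hN s hs) hx.2⟩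
  have e2 : S' ⊓ (ps e j).range = (ps e j).range := by
    refine AltCor.simple_eq (ps_simple e hT j) inf_le_right ?_ hne
    intro s hs x hx
    exact ⟨hnorm s (ps_le e j hs) x hx.1, ps_norm e j (ps_le e j hs) hx.2⟩
  rw [← e1, e2]

theorem compLayer [Finite ι] [N.Normal] {d : ℕ}
    (hd : ∃ T : Finset G, T.card ≤ d ∧ Subgroup.closure (T : Set G) = ⊤)
    (hT : ∀ i, AltPsl (T i)) :
    CompLayer2 d 0 0 G (Set.range fun i => (ps e i).range) := by
  refine ⟨hd, ?_, ?_, ?_, ∅, id, fun _ => 0, fun _ => 0, fun _ => 0, ?_, ?_, ?_⟩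
  · rintro _ ⟨i, rfl⟩ g
    obtain ⟨j, hj⟩ := ps_conj e hT i g
    exact ⟨j, hj.symm⟩
  · rintro _ ⟨i, rfl⟩
    exact ⟨ps_simple e hT i, ps_nonab e hT i⟩
  · rintro _ ⟨i, rfl⟩ _ ⟨j, rfl⟩ hij _ ⟨a, rfl⟩ _ ⟨b, rfl⟩
    exact ps_comm e (fun h => hij (by rw [h])) a b
  · rintro _ ⟨i, rfl⟩ -
    obtain ⟨φ⟩ := ps_iso e i
    exact comp _ (hT i) φ
  · exact fun S _ h => absurd h (Set.notMem_empty S)
  · exact fun S _ h => absurd h (Set.notMem_empty S)

theorem eq_sSup [Finite ι] : N = sSup (Set.range fun i => (ps e i).range) := by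
  refine le_antisymm (ps_gen e fun i => le_sSup ⟨i, rfl⟩) (sSup_le ?_)
  rintro _ ⟨i, rfl⟩
  exact ps_le e i

end Prod

theorem cls {d : ℕ} {l : ℕ} {G : Type} {inst : Group G} (h : AltPslSeries l G inst) :
    Finite G → (∃ T : Finset G, T.card ≤ d ∧ Subgroup.closure (T : Set G) = ⊤) →
      Cls2 d 0 0 l G inst := by
  classical
  induction h with
  | triv l G inst h => exact fun _ _ => Cls2.layer l G inst (AltCor.layer_triv d 0 0 G)
  | step l G inst N hN h₁ h₂ ih =>
    intro hG hd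
    obtain ⟨ι, hι, T, hTg, hT, ⟨e⟩⟩ := h₁
    refine Cls2.comp l G inst hG _ (compLayer e hd hT) N hN (eq_sSup e) (ih inferInstance ?_)
    exact Pool.Agent.MPfe8e9b.Final3.closure_surj (QuotientGroup.mk' N)
      (QuotientGroup.mk'_surjective N) hd

end Cor2

/-- For all `d` and `l` there are `k` and `ε > 0` such that every finite group `G` generated by `d`
elements, with a normal series of length `l` whose factors are direct products of alternating
groups of degrees at least five and different from six and of groups `PSL_2` of fields with `p ^ f`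
elements, `p ≥ 5` prime and `f` odd, has a generating set of at most `k` elements with the
expansion `ε`. -/
theorem altPslSeries_main (d l : ℕ) : ∃ (k : ℕ) (ε : ℝ), 0 < ε ∧
    ∀ (G : Type) [inst : Group G] [Fintype G] [DecidableEq G],
      (∃ T : Finset G, T.card ≤ d ∧ Subgroup.closure (T : Set G) = ⊤) →
      AltPslSeries l G inst →
      ∃ S : Finset G, S.card ≤ k ∧ Subgroup.closure (S : Set G) = ⊤ ∧
        ∀ A : Finset G, 2 * A.card ≤ Fintype.card G →
          (1 + ε) * (A.card : ℝ) ≤ ((A ∪ S * A).card : ℝ) := by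
  obtain ⟨k, ε, hε, h⟩ := cls_main2 d 0 0 l
  exact ⟨k, ε, hε, fun G inst _ _ hd hs => h G (Cor2.cls hs inferInstance hd)⟩

end Pool.Agent.MPfe8e9bN
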