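import Mathlib
import Pool.Agent.Lib.MP_fe8e9b_al_N.Mdl3
import Pool.Agent.Lib.MP_fe8e9b_al_N.MnD

/-!
# MP_fe8e9b_al, groups of bounded height: the models of Lie type, fourth version
-/

set_option autoImplicit false

open scoped BigOperators MatrixGroups

namespace Pool.Agent.MPfe8e9bN

open Pool.Agent.MPfe8e9b Pool.Agent.MPfe8e9bA Pool.Agent.MPfe8e9bW Pool.Agent.MPfe8e9bV
open Pool.Agent.MPfe8e9bM

/-- A model as in `Mdl` where `S₀` is an image of `SL_r` of a finite field, `r ≥ 3`, and `A` acts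
on it by field automorphisms or their compositions with the inverse transpose. -/
def MdlN (L C m q : ℕ) (T : Type) [Group T] (S₀ : Subgroup T) (A : Subgroup (MulAut T)) : Prop :=
  2 ≤ m ∧ (∃ (F : Type) (_ : Field F) (_ : Fintype F), Fintype.card F = q ∧
    SLProduct L m F T) ∧ commutator S₀ = ⊤ ∧ GenC C T S₀ ∧
  (∀ t : T, (∃ l ∈ A, ∀ s, t * s * t⁻¹ = l s) → ∀ s ∈ S₀, t * s = s * t) ∧
  ∃ (E : Type) (_ : Field E) (_ : Finite E) (r : ℕ) (φ : SL(r, E) →* T), 3 ≤ r ∧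
    φ.range = S₀ ∧ ∀ l ∈ A, ∃ p : Bool × (E ≃+* E), ∀ x, l (φ x) = φ (aN p x)

/-- The structure of a model. -/
theorem mdl_sg4 (C : ℕ) : ∃ B : ℝ, 1 ≤ B ∧ ∀ (L m q : ℕ) (T : Type) [Group T] [Finite T]
    [IsSimpleGroup T], (∃ a b : T, a * b ≠ b * a) → ∀ (S₀ : Subgroup T)
    (A : Subgroup (MulAut T)), (Mdl L C m q T S₀ A ∨ MdlN L C m q T S₀ A) →
    SG3 (C + 2) B T S₀ A := by
  obtain ⟨B, hB, h⟩ := mdl_sg3 C
  obtain ⟨B', hB', h'⟩ := sg3_aN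
  refine ⟨max B B', hB.trans (le_max_left _ _), ?_⟩
  rintro L m q T _ _ _ hn S₀ A (h1 | h1)
  · exact sg3_mono (Nat.le_succ _) (le_max_left _ _) (h L m q T hn S₀ A h1)
  · obtain ⟨-, -, h2, h3, h4, E, _, _, r, φ, hr, hφ, hA⟩ := h1
    exact sg3_mono le_rfl (le_max_right _ _) (h' T S₀ C h2 h3 A h4 E r hr φ hφ hA)

end Pool.Agent.MPfe8e9bN
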