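import Mathlib
import Pool.Agent.Lib.MP_fe8e9b_al_N.ClsF3

/-!
# MP_fe8e9b_al, groups of bounded height: the statement of the third version
-/

set_option autoImplicit false

open scoped BigOperators Pointwise MatrixGroups

namespace Pool.Agent.MPfe8e9bN

open Pool.Agent.MPfe8e9b Pool.Agent.MPfe8e9bA Pool.Agent.MPfe8e9bW Pool.Agent.MPfe8e9bV
open Pool.Agent.MPfe8e9bM

/-- `T` is isomorphic to `PSL_2(F)`. -/
def IsPsl (F : Type) [Field F] (T : Type) [Group T] : Prop :=
  Nonempty (T ≃* SL(2, F) ⧸ Subgroup.center SL(2, F))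

/-- `T` is isomorphic to an alternating group of degree at least five and different from six, or to
`PSL_2` of a field with at least four elements whose number of elements is even or an odd power of a
prime. -/
def Free (T : Type) [Group T] : Prop :=
  (∃ n, 5 ≤ n ∧ n ≠ 6 ∧ Nonempty (T ≃* alternatingGroup (Fin n))) ∨
  ∃ (F : Type) (_ : Field F), 4 ≤ Nat.card F ∧
    (Even (Nat.card F) ∨ ∃ p f : ℕ, p.Prime ∧ Odd f ∧ Nat.card F = p ^ f) ∧ IsPsl F T

/-- The element `g` acts on the image of `π` as `A ↦ M σ(A) M⁻¹`. -/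
def ActS {F G : Type} [Field F] [Group G] (π : SL(2, F) →* G) (g : G)
    (M : Matrix (Fin 2) (Fin 2) F) (σ : F ≃+* F) : Prop :=
  ∀ A B : SL(2, F), B.1 * M = M * A.1.map σ → g * π A * g⁻¹ = π B

/-- `S` is the image of `SL_2(F)` under a homomorphism whose kernel is the centre, and the elements
which normalize `S` act on it as compositions of conjugations by matrices and field automorphisms,
where either all matrices have determinant one, or the matrices are invertible and the field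
automorphisms fix the elements of a subfield over which `F` has odd degree. -/
def PslS (F : Type) [Field F] {G : Type} [Group G] (S : Subgroup G) : Prop :=
  ∃ π : SL(2, F) →* G, π.range = S ∧ π.ker = Subgroup.center SL(2, F) ∧
    ((∀ g : G, (∀ s, s ∈ S ↔ g * s * g⁻¹ ∈ S) → ∃ M σ, M.det = 1 ∧ ActS π g M σ) ∨
      ∃ K : Subfield F, Odd (Module.finrank K F) ∧ ∀ g : G, (∀ s, s ∈ S ↔ g * s * g⁻¹ ∈ S) →
        ∃ M σ, M.det ≠ 0 ∧ (∀ x ∈ K, σ x = x) ∧ ActS π g M σ)

/-- `S₀` is an image of `SL_2(E)` on which the elements of `A` act by field automorphisms. -/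
def FldS (E : Type) [Field E] {T : Type} [Group T] (S₀ : Subgroup T)
    (A : Subgroup (MulAut T)) : Prop :=
  ∃ φ : SL(2, E) →* T, φ.range = S₀ ∧
    ∀ l ∈ A, ∃ σ : E ≃+* E, ∀ x y : SL(2, E), y.1 = x.1.map σ → l (φ x) = φ y

/-- A model: a group `T` which is a product of `L` images of `SL m F`, `F` a field with `q`
elements, a perfect subgroup `S₀` such that `T` is generated by `C` conjugates of `S₀`, and a group
`A` of automorphisms of `T` such that the elements of `T` which act on `T` as elements of `A`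
centralize `S₀`, and `A` acts trivially on `S₀`, or `S₀` is an image of `SL_2` of a field with at
least four elements on which `A` acts by field automorphisms, or `S₀ = T` has at most `C`
elements. -/
def MdlS (L C m q : ℕ) (T : Type) [Group T] (S₀ : Subgroup T) (A : Subgroup (MulAut T)) : Prop :=
  2 ≤ m ∧ 2 ≤ q ∧ (∃ (F : Type) (_ : Field F), Nat.card F = q ∧ SLProduct L m F T) ∧
  commutator S₀ = ⊤ ∧ GenC C T S₀ ∧
  (∀ t : T, (∃ l ∈ A, ∀ s, t * s * t⁻¹ = l s) → ∀ s ∈ S₀, t * s = s * t) ∧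
  ((∀ l ∈ A, ∀ s ∈ S₀, l s = s) ∨
    (∃ (E : Type) (_ : Field E), 4 ≤ Nat.card E ∧ FldS E S₀ A) ∨ (S₀ = ⊤ ∧ Nat.card T ≤ C))

/-- `S` is the image of `T` under `φ`, and the elements which normalize `S` act on it as inner
automorphisms of `T` composed with elements of `A`. -/
def ModS {G : Type} [Group G] (S : Subgroup G) (T : Type) [Group T]
    (A : Subgroup (MulAut T)) : Prop :=
  ∃ φ : T →* G, Function.Injective φ ∧ φ.range = S ∧
    ∀ g : G, (∀ s, s ∈ S ↔ g * s * g⁻¹ ∈ S) → ∃ t : T, ∃ l ∈ A,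
      ∀ s, g * φ s * g⁻¹ = φ (t * l s * t⁻¹)

/-- `G` is generated by `d` elements, and `𝒮` is a set of pairwise commuting nonabelian simple
subgroups of `G`, closed under conjugation, such that `N` is the subgroup which they generate. They
are alternating groups or groups `PSL_2` (`Free`, or with a condition on the normalizer, `PslS`),
or isomorphic to models (`MdlS`, `ModS`), at most `q ^ (C * m ^ 2)` models for every `m`, `q`. -/
def CompLayerS (d L C : ℕ) (G : Type) [Group G] (𝒮 : Set (Subgroup G)) (N : Subgroup G) : Prop :=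
  N = sSup 𝒮 ∧ (∃ T : Finset G, T.card ≤ d ∧ Subgroup.closure (T : Set G) = ⊤) ∧
  (∀ S ∈ 𝒮, ∀ g : G, S.map (MulAut.conj g).toMonoidHom ∈ 𝒮) ∧
  (∀ S ∈ 𝒮, IsSimpleGroup S ∧ ∃ a ∈ S, ∃ b ∈ S, a * b ≠ b * a) ∧
  (∀ S ∈ 𝒮, ∀ S' ∈ 𝒮, S ≠ S' → ∀ a ∈ S, ∀ b ∈ S', a * b = b * a) ∧
  ∃ (T : ℕ → ℕ → ℕ → Type) (_ : ∀ m q c, Group (T m q c)) (S₀ : ∀ m q c, Subgroup (T m q c))
    (A : ∀ m q c, Subgroup (MulAut (T m q c))),
    ∀ S ∈ 𝒮, Free S ∨ (∃ (F : Type) (_ : Field F), 4 ≤ Nat.card F ∧ PslS F S) ∨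
      ∃ m q c, c < q ^ (C * m ^ 2) ∧ MdlS L C m q (T m q c) (S₀ m q c) (A m q c) ∧
        ModS S (T m q c) (A m q c)

/-- The groups obtained in at most `l` steps from layers and from groups with vertex expansion `ε`
for `k` elements: by extensions of two groups of the class, and by extensions of a group of the
class by the normal subgroup generated by a layer of components of a `d`-generated group. -/
inductive ClsS (d L C k : ℕ) (ε : ℝ) : ℕ → (G : Type) → Group G → Prop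
  | base (l : ℕ) (G : Type) (inst : Group G) (h : VExp k ε G) : ClsS d L C k ε l G inst
  | layer (l : ℕ) (G : Type) (inst : Group G) (h : Layer d L C G) : ClsS d L C k ε l G inst
  | ext (l : ℕ) (G : Type) (inst : Group G) (hG : Finite G) (N : Subgroup G) (hN : N.Normal)
      (h₁ : ClsS d L C k ε l N inferInstance) (h₂ : ClsS d L C k ε l (G ⧸ N) inferInstance) :
      ClsS d L C k ε (l + 1) G inst
  | comp (l : ℕ) (G : Type) (inst : Group G) (hG : Finite G) (𝒮 : Set (Subgroup G))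
      (N : Subgroup G) (hN : N.Normal) (h : CompLayerS d L C G 𝒮 N)
      (h₂ : ClsS d L C k ε l (G ⧸ N) inferInstance) : ClsS d L C k ε (l + 1) G inst
  | iso (l : ℕ) (G H : Type) (instG : Group G) (instH : Group H) (e : G ≃* H)
      (hG : ClsS d L C k ε l G instG) : ClsS d L C k ε l H instH

/-- An invertible matrix. -/
theorem stm_unit {F : Type} [Field F] (M : Matrix (Fin 2) (Fin 2) F) (h : M.det ≠ 0) :
    ∃ M' : GL (Fin 2) F, M'.1 = M := by
  obtain ⟨u, hu⟩ := (Matrix.isUnit_iff_isUnit_det M).2 (isUnit_iff_ne_zero.2 h)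
  exact ⟨u, hu⟩

/-- The action of an element in terms of `cjP` and `fP`. -/
theorem stm_act {F G : Type} [Field F] [Group G] {S : Subgroup G} {π : SL(2, F) →* G}
    {φ : S ≃* PSL(2, F)} (hφ : ∀ (A : SL(2, F)) (s : S), (s : G) = π A →
      φ s = (QuotientGroup.mk A : PSL(2, F))) (hr : π.range = S) {g : G} {σ : F ≃+* F}
    (M : GL (Fin 2) F) (h : ActS π g M.1 σ) (s s' : S) (hs : (s' : G) = g * s * g⁻¹) :
    φ s' = cjP M (fP σ (φ s)) := by
  obtain ⟨A, hA⟩ : (s : G) ∈ π.range := hr ▸ s.2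
  rw [hφ A s hA.symm, fP_mk, cjP_mk]
  refine hφ _ s' ?_
  rw [hs, ← hA]
  refine h A _ ?_
  rw [cjS_coe, Matrix.mul_assoc, Matrix.mul_assoc]
  have h1 : M⁻¹.1 * M.1 = 1 := by rw [← Units.val_mul, inv_mul_cancel, Units.val_one]
  rw [h1, Matrix.mul_one]
  rfl

/-- The isomorphism with `PSL_2`. -/
theorem stm_iso {F G : Type} [Field F] [Group G] {S : Subgroup G} {π : SL(2, F) →* G}
    (hr : π.range = S) (hk : π.ker = Subgroup.center SL(2, F)) : ∃ φ : S ≃* PSL(2, F),
      ∀ (A : SL(2, F)) (s : S), (s : G) = π A → φ s = (QuotientGroup.mk A : PSL(2, F)) := by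
  subst hr
  have e1 : PSL(2, F) ≃* SL(2, F) ⧸ π.ker := QuotientGroup.quotientMulEquivOfEq hk.symm
  let e2 : SL(2, F) ⧸ π.ker ≃* π.range := QuotientGroup.quotientKerEquivRange π
  let e3 : PSL(2, F) ≃* SL(2, F) ⧸ π.ker := QuotientGroup.quotientMulEquivOfEq hk.symm
  refine ⟨(e3.trans e2).symm, fun A s hs => ?_⟩
  rw [MulEquiv.symm_apply_eq]
  apply Subtype.ext
  rw [hs]
  rfl

/-- A type with at least two elements is finite if `Nat.card` says so. -/
theorem stm_fin {F : Type} {n : ℕ} (h : 1 ≤ n) (h2 : n ≤ Nat.card F) : Nonempty (Fintype F) := by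
  have : Finite F := Nat.finite_of_card_ne_zero (by omega)
  exact ⟨Fintype.ofFinite F⟩

/-- Components `Free` are components `Clean`. -/
theorem stm_free {T : Type} [Group T] (h : Free T) : Clean T := by
  rcases h with h | ⟨F, _, h4, h, e⟩
  · exact Or.inl h
  · obtain ⟨i⟩ := stm_fin (by norm_num) h4
    rw [Nat.card_eq_fintype_card] at h4 h
    exact Or.inr ⟨F, inferInstance, i, h4, h, e⟩

/-- Components `PslS` are components `PslComp3`. -/
theorem stm_psl {F : Type} [Field F] {G : Type} [Group G] {S : Subgroup G} (h4 : 4 ≤ Nat.card F)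
    (h : PslS F S) : ∃ q k, PslComp3 S q k := by
  obtain ⟨i⟩ := stm_fin (by norm_num) h4
  rw [Nat.card_eq_fintype_card] at h4
  obtain ⟨π, hr, hk, h⟩ := h
  obtain ⟨φ, hφ⟩ := stm_iso hr hk
  rcases h with h | ⟨K, ho, h⟩
  · refine ⟨_, 0, h4, F, inferInstance, inferInstance, rfl, φ, Or.inl ⟨rfl, fun g hg => ?_⟩⟩
    obtain ⟨M, σ, hM, ha⟩ := h g hg
    obtain ⟨M', rfl⟩ : ∃ M' : SL(2, F), M'.1 = M := ⟨⟨M, hM⟩, rfl⟩
    exact ⟨M', σ, fun s s' hs => stm_act hφ hr (M' : GL (Fin 2) F) ha s s' hs⟩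
  · refine ⟨_, _, h4, F, inferInstance, inferInstance, rfl, φ, Or.inr ⟨K, rfl, ho, fun g hg => ?_⟩⟩
    obtain ⟨M, σ, hM, hf, ha⟩ := h g hg
    obtain ⟨M', rfl⟩ := stm_unit M hM
    exact ⟨M', σ, hf, fun s s' hs => stm_act hφ hr M' ha s s' hs⟩

/-- Models. -/
theorem stm_mdl {L C m q : ℕ} {T : Type} [Group T] {S₀ : Subgroup T} {A : Subgroup (MulAut T)}
    (h : MdlS L C m q T S₀ A) : Mdl L C m q T S₀ A := by
  obtain ⟨h1, hq, ⟨F, _, hF, h2⟩, h3, h4, h5, h6⟩ := h
  obtain ⟨i⟩ := stm_fin (F := F) (by norm_num) (hq.trans hF.ge)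
  rw [Nat.card_eq_fintype_card] at hF
  refine ⟨h1, ⟨F, inferInstance, i, hF, h2⟩, h3, h4, h5, ?_⟩
  rcases h6 with h6 | ⟨E, _, hE, φ, hr, hA⟩ | h6
  · exact Or.inl h6
  · obtain ⟨j⟩ := stm_fin (by norm_num) hE
    rw [Nat.card_eq_fintype_card] at hE
    refine Or.inr (Or.inl ⟨E, inferInstance, inferInstance, φ, hE, hr, fun l hl => ?_⟩)
    obtain ⟨σ, hσ⟩ := hA l hl
    exact ⟨σ, fun x => hσ x _ rfl⟩
  · exact Or.inr (Or.inr h6)

/-- Components with a model. -/
theorem stm_mod {G : Type} [Group G] {S : Subgroup G} {T : Type} [Group T]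
    {A : Subgroup (MulAut T)} (h : ModS S T A) : ModComp S T A := by
  obtain ⟨φ, hi, hr, h⟩ := h
  subst hr
  refine ⟨(MonoidHom.ofInjective hi).symm, fun g hg => ?_⟩
  obtain ⟨t, l, hl, h1⟩ := h g hg
  refine ⟨t, l, hl, fun s s' hs => ?_⟩
  obtain ⟨x, rfl⟩ := (MonoidHom.ofInjective hi).surjective s
  rw [MulEquiv.symm_apply_apply, MulEquiv.symm_apply_eq]
  apply Subtype.ext
  rw [hs]
  exact h1 x

/-- Layers of components. -/
theorem stm_comp {d L C : ℕ} {G : Type} [Group G] {𝒮 : Set (Subgroup G)} {N : Subgroup G}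
    (h : CompLayerS d L C G 𝒮 N) : CompLayer3 d L C G 𝒮 ∧ N = sSup 𝒮 := by
  obtain ⟨h0, h1, h2, h3, h4, T, i, S₀, A, h5⟩ := h
  refine ⟨⟨h1, h2, h3, h4, T, i, S₀, A, fun S hS => ?_⟩, h0⟩
  rcases h5 S hS with h6 | ⟨F, _, h4, h6⟩ | ⟨m, q, c, hc, h6, h7⟩
  · exact Or.inl (stm_free h6)
  · exact Or.inr (Or.inr (Or.inl (stm_psl h4 h6)))
  · exact Or.inr (Or.inr (Or.inr ⟨m, q, c, hc, stm_mdl h6, stm_mod h7⟩))

/-- The class. -/
theorem stm_cls {d L C k : ℕ} {ε : ℝ} {l : ℕ} {G : Type} {inst : Group G}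
    (h : ClsS d L C k ε l G inst) : Cls3 d L C k ε l G inst := by
  induction h with
  | base l G inst h => exact Cls3.base l G inst h
  | layer l G inst h => exact Cls3.layer l G inst h
  | ext l G inst hG N hN h₁ h₂ ih₁ ih₂ => exact Cls3.ext l G inst hG N hN ih₁ ih₂
  | comp l G inst hG 𝒮 N hN h h₂ ih₂ =>
    exact Cls3.comp l G inst hG 𝒮 (stm_comp h).1 N hN (stm_comp h).2 ih₂
  | iso l G H instG instH e hG ih => exact Cls3.iso l G H instG instH e ih

/-- The main theorem. -/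
theorem stm_main3 (d L C k₀ : ℕ) {ε₀ : ℝ} (hε₀ : 0 < ε₀) (l : ℕ) :
    ∃ (k : ℕ) (ε : ℝ), 0 < ε ∧
    ∀ (G : Type) [inst : Group G] [Fintype G] [DecidableEq G], ClsS d L C k₀ ε₀ l G inst →
      ∃ S : Finset G, S.card ≤ k ∧ Subgroup.closure (S : Set G) = ⊤ ∧
        ∀ A : Finset G, 2 * A.card ≤ Fintype.card G →
          (1 + ε) * (A.card : ℝ) ≤ ((A ∪ S * A).card : ℝ) := by
  obtain ⟨k, ε, hε, h⟩ := cls_main3 d L C k₀ hε₀ l
  exact ⟨k, ε, hε, fun G _ _ _ hG => h G (stm_cls hG)⟩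

end Pool.Agent.MPfe8e9bN
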