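import Mathlib
import Pool.Agent.Lib.MP_fe8e9b_al_N.ClsF4

/-!
# MP_fe8e9b_al, groups of bounded height: the statement of the fourth version
-/

set_option autoImplicit false

open scoped BigOperators Pointwise MatrixGroups

namespace Pool.Agent.MPfe8e9bN

open Pool.Agent.MPfe8e9b Pool.Agent.MPfe8e9bA Pool.Agent.MPfe8e9bW Pool.Agent.MPfe8e9bV
open Pool.Agent.MPfe8e9bM

/-- `T` is isomorphic to `PSL_n(F)`. -/
def IsPsl (n : ℕ) (F : Type) [Field F] (T : Type) [Group T] : Prop :=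
  Nonempty (T ≃* SL(n, F) ⧸ Subgroup.center SL(n, F))

/-- `T` is isomorphic to an alternating group of degree at least five and different from six, or to
`PSL_n` of a finite field, `n ≥ 3`, or to `PSL_2` of a field with at least four elements whose
number of elements is even or an odd power of a prime. -/
def Free (T : Type) [Group T] : Prop :=
  (∃ n, 5 ≤ n ∧ n ≠ 6 ∧ Nonempty (T ≃* alternatingGroup (Fin n))) ∨
  (∃ (n : ℕ) (F : Type) (_ : Field F), 3 ≤ n ∧ Finite F ∧ IsPsl n F T) ∨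
  ∃ (F : Type) (_ : Field F), 4 ≤ Nat.card F ∧
    (Even (Nat.card F) ∨ ∃ p f : ℕ, p.Prime ∧ Odd f ∧ Nat.card F = p ^ f) ∧ IsPsl 2 F T

/-- The element `g` acts on the image of `π` as `A ↦ M σ(A) M⁻¹`. -/
def ActS {F G : Type} [Field F] [Group G] (π : SL(2, F) →* G) (g : G)
    (M : Matrix (Fin 2) (Fin 2) F) (σ : F ≃+* F) : Prop :=
  ∀ A B : SL(2, F), B.1 * M = M * A.1.map σ → g * π A * g⁻¹ = π B

/-- `S` is the image of `SL_2(F)` under a homomorphism whose kernel is the centre, and the elements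
which normalize `S` act on it as compositions of conjugations by matrices and field automorphisms,
where either all matrices have determinant one, or the matrices are invertible and the field
automorphisms fix the elements of a subfield over which `F` has odd degree. -/
def PslS (F : Type) [Field F] {G : Type} [Group G] (S : Subgroup G) : Prop :=
  ∃ π : SL(2, F) →* G, π.range = S ∧ π.ker = Subgroup.center SL(2, F) ∧
    ((∀ g : G, (∀ s, s ∈ S ↔ g * s * g⁻¹ ∈ S) → ∃ M σ, M.det = 1 ∧ ActS π g M σ) ∨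
      ∃ K : Subfield F, Odd (Module.finrank K F) ∧ ∀ g : G, (∀ s, s ∈ S ↔ g * s * g⁻¹ ∈ S) →
        ∃ M σ, M.det ≠ 0 ∧ (∀ x ∈ K, σ x = x) ∧ ActS π g M σ)

/-- `l` acts on the image of `φ` by a field automorphism. -/
def ActF {r : ℕ} {E T : Type} [Field E] [Group T] (φ : SL(r, E) →* T) (l : MulAut T) : Prop :=
  ∃ σ : E ≃+* E, ∀ x y : SL(r, E), y.1 = x.1.map σ → l (φ x) = φ y

/-- `l` acts on the image of `φ` by a field automorphism composed with the inverse transpose. -/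
def ActT {r : ℕ} {E T : Type} [Field E] [Group T] (φ : SL(r, E) →* T) (l : MulAut T) : Prop :=
  ∃ σ : E ≃+* E, ∀ x y : SL(r, E), y⁻¹.1 = (x.1.map σ).transpose → l (φ x) = φ y

/-- `S₀` is an image of `SL_r(E)`, on which every element of `A` acts by a field automorphism, or,
if `r ≥ 3`, by a field automorphism composed with the inverse transpose. -/
def FldS (r : ℕ) (E : Type) [Field E] {T : Type} [Group T] (S₀ : Subgroup T)
    (A : Subgroup (MulAut T)) : Prop :=
  ∃ φ : SL(r, E) →* T, φ.range = S₀ ∧ ∀ l ∈ A, ActF φ l ∨ (3 ≤ r ∧ ActT φ l)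

/-- A model: a group `T` which is a product of `L` images of `SL m F`, `F` a field with `q`
elements, a perfect subgroup `S₀` such that `T` is generated by `C` conjugates of `S₀`, and a group
`A` of automorphisms of `T` such that the elements of `T` which act on `T` as elements of `A`
centralize `S₀`, and `A` acts trivially on `S₀`, or `S₀` is an image of `SL_r` of a finite field
(with at least four elements if `r = 2`) on which `A` acts as in `FldS`, or `S₀ = T` has at most `C`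
elements. -/
def MdlS (L C m q : ℕ) (T : Type) [Group T] (S₀ : Subgroup T) (A : Subgroup (MulAut T)) : Prop :=
  2 ≤ m ∧ 2 ≤ q ∧ (∃ (F : Type) (_ : Field F), Nat.card F = q ∧ SLProduct L m F T) ∧
  commutator S₀ = ⊤ ∧ GenC C T S₀ ∧
  (∀ t : T, (∃ l ∈ A, ∀ s, t * s * t⁻¹ = l s) → ∀ s ∈ S₀, t * s = s * t) ∧
  ((∀ l ∈ A, ∀ s ∈ S₀, l s = s) ∨
    (∃ (r : ℕ) (E : Type) (_ : Field E), 2 ≤ r ∧ Finite E ∧ (r = 2 → 4 ≤ Nat.card E) ∧
      FldS r E S₀ A) ∨ (S₀ = ⊤ ∧ Nat.card T ≤ C))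

/-- `S` is the image of `T` under `φ`, and the elements which normalize `S` act on it as inner
automorphisms of `T` composed with elements of `A`. -/
def ModS {G : Type} [Group G] (S : Subgroup G) (T : Type) [Group T]
    (A : Subgroup (MulAut T)) : Prop :=
  ∃ φ : T →* G, Function.Injective φ ∧ φ.range = S ∧
    ∀ g : G, (∀ s, s ∈ S ↔ g * s * g⁻¹ ∈ S) → ∃ t : T, ∃ l ∈ A,
      ∀ s, g * φ s * g⁻¹ = φ (t * l s * t⁻¹)

/-- `G` is generated by `d` elements, and `𝒮` is a set of pairwise commuting nonabelian simple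
subgroups of `G`, closed under conjugation, such that `N` is the subgroup which they generate. They
are alternating groups or groups `PSL_n` (`Free`, or with a condition on the normalizer, `PslS`),
or isomorphic to models (`MdlS`, `ModS`), at most `q ^ (C * m ^ 2)` models for every `m`, `q`. -/
def CompLayerS (d L C : ℕ) (G : Type) [Group G] (𝒮 : Set (Subgroup G)) (N : Subgroup G) : Prop :=
  N = sSup 𝒮 ∧ (∃ T : Finset G, T.card ≤ d ∧ Subgroup.closure (T : Set G) = ⊤) ∧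
  (∀ S ∈ 𝒮, ∀ g : G, S.map (MulAut.conj g).toMonoidHom ∈ 𝒮) ∧
  (∀ S ∈ 𝒮, IsSimpleGroup S ∧ ∃ a ∈ S, ∃ b ∈ S, a * b ≠ b * a) ∧
  (∀ S ∈ 𝒮, ∀ S' ∈ 𝒮, S ≠ S' → ∀ a ∈ S, ∀ b ∈ S', a * b = b * a) ∧
  ∃ (T : ℕ → ℕ → ℕ → Type) (_ : ∀ m q c, Group (T m q c)) (S₀ : ∀ m q c, Subgroup (T m q c))
    (A : ∀ m q c, Subgroup (MulAut (T m q c))),
    ∀ S ∈ 𝒮, Free S ∨ (∃ (F : Type) (_ : Field F), 4 ≤ Nat.card F ∧ PslS F S) ∨
      ∃ m q c, c < q ^ (C * m ^ 2) ∧ MdlS L C m q (T m q c) (S₀ m q c) (A m q c) ∧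
        ModS S (T m q c) (A m q c)

/-- The groups obtained in at most `l` steps from layers and from groups with vertex expansion `ε`
for `k` elements: by extensions of two groups of the class, and by extensions of a group of the
class by the normal subgroup generated by a layer of components of a `d`-generated group. -/
inductive ClsS (d L C k : ℕ) (ε : ℝ) : ℕ → (G : Type) → Group G → Prop
  | base (l : ℕ) (G : Type) (inst : Group G) (h : VExp k ε G) : ClsS d L C k ε l G inst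
  | layer (l : ℕ) (G : Type) (inst : Group G) (h : Layer d L C G) : ClsS d L C k ε l G inst
  | ext (l : ℕ) (G : Type) (inst : Group G) (hG : Finite G) (N : Subgroup G) (hN : N.Normal)
      (h₁ : ClsS d L C k ε l N inferInstance) (h₂ : ClsS d L C k ε l (G ⧸ N) inferInstance) :
      ClsS d L C k ε (l + 1) G inst
  | comp (l : ℕ) (G : Type) (inst : Group G) (hG : Finite G) (𝒮 : Set (Subgroup G))
      (N : Subgroup G) (hN : N.Normal) (h : CompLayerS d L C G 𝒮 N)
      (h₂ : ClsS d L C k ε l (G ⧸ N) inferInstance) : ClsS d L C k ε (l + 1) G inst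
  | iso (l : ℕ) (G H : Type) (instG : Group G) (instH : Group H) (e : G ≃* H)
      (hG : ClsS d L C k ε l G instG) : ClsS d L C k ε l H instH

/-- An invertible matrix. -/
theorem stm_unit {F : Type} [Field F] (M : Matrix (Fin 2) (Fin 2) F) (h : M.det ≠ 0) :
    ∃ M' : GL (Fin 2) F, M'.1 = M := by
  obtain ⟨u, hu⟩ := (Matrix.isUnit_iff_isUnit_det M).2 (isUnit_iff_ne_zero.2 h)
  exact ⟨u, hu⟩

/-- The action of an element in terms of `cjP` and `fP`. -/
theorem stm_act {F G : Type} [Field F] [Group G] {S : Subgroup G} {π : SL(2, F) →* G}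
    {φ : S ≃* PSL(2, F)} (hφ : ∀ (A : SL(2, F)) (s : S), (s : G) = π A →
      φ s = (QuotientGroup.mk A : PSL(2, F))) (hr : π.range = S) {g : G} {σ : F ≃+* F}
    (M : GL (Fin 2) F) (h : ActS π g M.1 σ) (s s' : S) (hs : (s' : G) = g * s * g⁻¹) :
    φ s' = cjP M (fP σ (φ s)) := by
  obtain ⟨A, hA⟩ : (s : G) ∈ π.range := hr ▸ s.2
  rw [hφ A s hA.symm, fP_mk, cjP_mk]
  refine hφ _ s' ?_
  rw [hs, ← hA]
  refine h A _ ?_
  rw [cjS_coe, Matrix.mul_assoc, Matrix.mul_assoc]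
  have h1 : M⁻¹.1 * M.1 = 1 := by rw [← Units.val_mul, inv_mul_cancel, Units.val_one]
  rw [h1, Matrix.mul_one]
  rfl

/-- The isomorphism with `PSL_2`. -/
theorem stm_iso {F G : Type} [Field F] [Group G] {S : Subgroup G} {π : SL(2, F) →* G}
    (hr : π.range = S) (hk : π.ker = Subgroup.center SL(2, F)) : ∃ φ : S ≃* PSL(2, F),
      ∀ (A : SL(2, F)) (s : S), (s : G) = π A → φ s = (QuotientGroup.mk A : PSL(2, F)) := by
  subst hr
  have e1 : PSL(2, F) ≃* SL(2, F) ⧸ π.ker := QuotientGroup.quotientMulEquivOfEq hk.symm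
  let e2 : SL(2, F) ⧸ π.ker ≃* π.range := QuotientGroup.quotientKerEquivRange π
  let e3 : PSL(2, F) ≃* SL(2, F) ⧸ π.ker := QuotientGroup.quotientMulEquivOfEq hk.symm
  refine ⟨(e3.trans e2).symm, fun A s hs => ?_⟩
  rw [MulEquiv.symm_apply_eq]
  apply Subtype.ext
  rw [hs]
  rfl

/-- A type with at least two elements is finite if `Nat.card` says so. -/
theorem stm_fin {F : Type} {n : ℕ} (h : 1 ≤ n) (h2 : n ≤ Nat.card F) : Nonempty (Fintype F) := by
  have : Finite F := Nat.finite_of_card_ne_zero (by omega)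
  exact ⟨Fintype.ofFinite F⟩

/-- Components `Free`. -/
theorem stm_free {T : Type} [Group T] (h : Free T) : Clean T ∨ ∃ n q, PnComp T n q := by
  rcases h with h | ⟨n, F, _, hn, hF, e⟩ | ⟨F, _, h4, h, e⟩
  · exact Or.inl (Or.inl h)
  · exact Or.inr ⟨n, Nat.card F, hn, Finite.one_lt_card, F, inferInstance, rfl, e⟩
  · obtain ⟨i⟩ := stm_fin (by norm_num) h4
    rw [Nat.card_eq_fintype_card] at h4 h
    exact Or.inl (Or.inr ⟨F, inferInstance, i, h4, h, e⟩)

/-- Components `PslS` are components `PslComp3`. -/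
theorem stm_psl {F : Type} [Field F] {G : Type} [Group G] {S : Subgroup G} (h4 : 4 ≤ Nat.card F)
    (h : PslS F S) : ∃ q k, PslComp3 S q k := by
  obtain ⟨i⟩ := stm_fin (by norm_num) h4
  rw [Nat.card_eq_fintype_card] at h4
  obtain ⟨π, hr, hk, h⟩ := h
  obtain ⟨φ, hφ⟩ := stm_iso hr hk
  rcases h with h | ⟨K, ho, h⟩
  · refine ⟨_, 0, h4, F, inferInstance, inferInstance, rfl, φ, Or.inl ⟨rfl, fun g hg => ?_⟩⟩
    obtain ⟨M, σ, hM, ha⟩ := h g hg
    obtain ⟨M', rfl⟩ : ∃ M' : SL(2, F), M'.1 = M := ⟨⟨M, hM⟩, rfl⟩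
    exact ⟨M', σ, fun s s' hs => stm_act hφ hr (M' : GL (Fin 2) F) ha s s' hs⟩
  · refine ⟨_, _, h4, F, inferInstance, inferInstance, rfl, φ, Or.inr ⟨K, rfl, ho, fun g hg => ?_⟩⟩
    obtain ⟨M, σ, hM, hf, ha⟩ := h g hg
    obtain ⟨M', rfl⟩ := stm_unit M hM
    exact ⟨M', σ, hf, fun s s' hs => stm_act hφ hr M' ha s s' hs⟩

/-- Models. -/
theorem stm_mdl {L C m q : ℕ} {T : Type} [Group T] {S₀ : Subgroup T} {A : Subgroup (MulAut T)}
    (h : MdlS L C m q T S₀ A) : Mdl L C m q T S₀ A ∨ MdlN L C m q T S₀ A := by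
  obtain ⟨h1, hq, ⟨F, _, hF, h2⟩, h3, h4, h5, h6⟩ := h
  obtain ⟨i⟩ := stm_fin (F := F) (by norm_num) (hq.trans hF.ge)
  rw [Nat.card_eq_fintype_card] at hF
  rcases h6 with h6 | ⟨r, E, _, hr, hE, h4E, φ, hφ, hA⟩ | h6
  · exact Or.inl ⟨h1, ⟨F, inferInstance, i, hF, h2⟩, h3, h4, h5, Or.inl h6⟩
  · rcases Nat.lt_or_ge r 3 with h7 | h7
    · obtain rfl : r = 2 := by omega
      have j : Fintype E := Fintype.ofFinite E
      have h8 : 4 ≤ Fintype.card E := by
        rw [← Nat.card_eq_fintype_card]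
        exact h4E rfl
      refine Or.inl ⟨h1, ⟨F, inferInstance, i, hF, h2⟩, h3, h4, h5, Or.inr (Or.inl ⟨E,
        inferInstance, j, φ, h8, hφ, fun l hl => ?_⟩)⟩
      rcases hA l hl with ⟨σ, hσ⟩ | ⟨h9, -⟩
      · exact ⟨σ, fun x => hσ x _ rfl⟩
      · omega
    · refine Or.inr ⟨h1, ⟨F, inferInstance, i, hF, h2⟩, h3, h4, h5, E, inferInstance,
        inferInstance, r, φ, h7, hφ, fun l hl => ?_⟩
      rcases hA l hl with ⟨σ, hσ⟩ | ⟨-, σ, hσ⟩
      · exact ⟨(false, σ), fun x => hσ x _ rfl⟩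
      · refine ⟨(true, σ), fun x => hσ x _ ?_⟩
        have h9 : (iT (fM σ x))⁻¹ = (fM σ x).transpose := by
          show ((fM σ x)⁻¹.transpose)⁻¹ = _
          rw [defn_tr, inv_inv]
        show ((iT (fM σ x))⁻¹).1 = _
        rw [h9]
        rfl
  · exact Or.inl ⟨h1, ⟨F, inferInstance, i, hF, h2⟩, h3, h4, h5, Or.inr (Or.inr h6)⟩

/-- Components with a model. -/
theorem stm_mod {G : Type} [Group G] {S : Subgroup G} {T : Type} [Group T]
    {A : Subgroup (MulAut T)} (h : ModS S T A) : ModComp S T A := by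
  obtain ⟨φ, hi, hr, h⟩ := h
  subst hr
  refine ⟨(MonoidHom.ofInjective hi).symm, fun g hg => ?_⟩
  obtain ⟨t, l, hl, h1⟩ := h g hg
  refine ⟨t, l, hl, fun s s' hs => ?_⟩
  obtain ⟨x, rfl⟩ := (MonoidHom.ofInjective hi).surjective s
  rw [MulEquiv.symm_apply_apply, MulEquiv.symm_apply_eq]
  apply Subtype.ext
  rw [hs]
  exact h1 x

/-- Layers of components. -/
theorem stm_comp {d L C : ℕ} {G : Type} [Group G] {𝒮 : Set (Subgroup G)} {N : Subgroup G}
    (h : CompLayerS d L C G 𝒮 N) : CompLayer4 d L C G 𝒮 ∧ N = sSup 𝒮 := by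
  obtain ⟨h0, h1, h2, h3, h4, T, i, S₀, A, h5⟩ := h
  refine ⟨⟨h1, h2, h3, h4, T, i, S₀, A, fun S hS => ?_⟩, h0⟩
  rcases h5 S hS with h6 | ⟨F, _, h4, h6⟩ | ⟨m, q, c, hc, h6, h7⟩
  · rcases stm_free h6 with h7 | h7
    · exact Or.inl h7
    · exact Or.inr (Or.inl h7)
  · exact Or.inr (Or.inr (Or.inl (stm_psl h4 h6)))
  · exact Or.inr (Or.inr (Or.inr ⟨m, q, c, hc, stm_mdl h6, stm_mod h7⟩))

/-- The class. -/
theorem stm_cls {d L C k : ℕ} {ε : ℝ} {l : ℕ} {G : Type} {inst : Group G}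
    (h : ClsS d L C k ε l G inst) : Cls4 d L C k ε l G inst := by
  induction h with
  | base l G inst h => exact Cls4.base l G inst h
  | layer l G inst h => exact Cls4.layer l G inst h
  | ext l G inst hG N hN h₁ h₂ ih₁ ih₂ => exact Cls4.ext l G inst hG N hN ih₁ ih₂
  | comp l G inst hG 𝒮 N hN h h₂ ih₂ =>
    exact Cls4.comp l G inst hG 𝒮 (stm_comp h).1 N hN (stm_comp h).2 ih₂
  | iso l G H instG instH e hG ih => exact Cls4.iso l G H instG instH e ih

/-- The main theorem. -/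
theorem stm_main4 (d L C k₀ : ℕ) {ε₀ : ℝ} (hε₀ : 0 < ε₀) (l : ℕ) :
    ∃ (k : ℕ) (ε : ℝ), 0 < ε ∧
    ∀ (G : Type) [inst : Group G] [Fintype G] [DecidableEq G], ClsS d L C k₀ ε₀ l G inst →
      ∃ S : Finset G, S.card ≤ k ∧ Subgroup.closure (S : Set G) = ⊤ ∧
        ∀ A : Finset G, 2 * A.card ≤ Fintype.card G →
          (1 + ε) * (A.card : ℝ) ≤ ((A ∪ S * A).card : ℝ) := by
  obtain ⟨k, ε, hε, h⟩ := cls_main4 d L C k₀ hε₀ l
  exact ⟨k, ε, hε, fun G _ _ _ hG => h G (stm_cls hG)⟩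

end Pool.Agent.MPfe8e9bN
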