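import Mathlib
import Pool.Agent.Lib.MP_fe8e9b_al_N.ClsF6

/-!
# MP_fe8e9b_al, groups of bounded height: the statement of the sixth version
-/

set_option autoImplicit false

open scoped BigOperators Pointwise MatrixGroups

namespace Pool.Agent.MPfe8e9bN

open Pool.Agent.MPfe8e9b Pool.Agent.MPfe8e9bA Pool.Agent.MPfe8e9bW Pool.Agent.MPfe8e9bV
open Pool.Agent.MPfe8e9bM

/-- Height at most `l`, with layers which are products of alternating groups and groups `PSL_n`:
the trivial group has height zero, and a group has height at most `l + 1` if it has a normal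
subgroup `N` which is generated by pairwise commuting nonabelian simple subgroups, all of them
alternating groups or groups `PSL_n` of finite fields, such that the quotient has height at most
`l`. -/
inductive Hgt : ℕ → (G : Type) → Group G → Prop
  | triv (l : ℕ) (G : Type) (inst : Group G) (h : Subsingleton G) : Hgt l G inst
  | step (l : ℕ) (G : Type) (inst : Group G) (𝒮 : Set (Subgroup G)) (N : Subgroup G)
      (hN : N.Normal) (hS : N = sSup 𝒮)
      (h₁ : ∀ S ∈ 𝒮, IsSimpleGroup S ∧ (∃ a ∈ S, ∃ b ∈ S, a * b ≠ b * a) ∧ Free6 S)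
      (h₂ : ∀ S ∈ 𝒮, ∀ S' ∈ 𝒮, S ≠ S' → ∀ a ∈ S, ∀ b ∈ S', a * b = b * a)
      (h₃ : Hgt l (G ⧸ N) inferInstance) : Hgt (l + 1) G inst

/-- Groups of bounded height are in the class. -/
theorem stm6_hgt (d L C k₀ : ℕ) (ε₀ : ℝ) {l : ℕ} {G : Type} {inst : Group G} (h : Hgt l G inst)
    (hG : Finite G) (hd : ∃ T : Finset G, T.card ≤ d ∧ Subgroup.closure (T : Set G) = ⊤) :
    Cls6 d L C k₀ ε₀ l G inst := by
  induction h with
  | triv l G inst h =>
    let iF : Fintype G := Fintype.ofFinite G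
    refine Cls6.base l G inst ⟨iF, Classical.decEq G, ∅, Nat.zero_le _, fun A hA => ?_⟩
    have h1 : Fintype.card G ≤ 1 := Fintype.card_le_one_iff_subsingleton.2 h
    have h2 : A.card = 0 := by omega
    rw [h2]
    simp
  | step l G inst 𝒮 N hN hS h₁ h₂ h₃ ih =>
    refine Cls6.comp l G inst hG 𝒮 N hN ⟨hS, hd, fun S h => ⟨(h₁ S h).1, (h₁ S h).2.1⟩, h₂,
      fun _ _ _ => PUnit, fun _ _ _ => inferInstance, fun S h => Or.inl (h₁ S h).2.2⟩
      (ih inferInstance ?_)
    classical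
    obtain ⟨T, hT, hc⟩ := hd
    refine ⟨T.image (QuotientGroup.mk : G → G ⧸ N), Finset.card_image_le.trans hT, ?_⟩
    rw [Finset.coe_image]
    have h3 := MonoidHom.map_closure (QuotientGroup.mk' N) (T : Set G)
    rw [hc] at h3
    have h4 : ((QuotientGroup.mk' N : G →* G ⧸ N) : G → G ⧸ N) = QuotientGroup.mk := rfl
    rw [← h4, ← h3]
    exact Subgroup.map_top_of_surjective _ (QuotientGroup.mk'_surjective N)

/-- The main theorem: the groups of the class, and the groups of bounded height. -/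
theorem stm_main6 : (∀ d l : ℕ, ∃ (k : ℕ) (ε : ℝ), 0 < ε ∧
    ∀ (G : Type) [inst : Group G] [Fintype G] [DecidableEq G], Hgt l G inst →
      (∃ T : Finset G, T.card ≤ d ∧ Subgroup.closure (T : Set G) = ⊤) →
      ∃ S : Finset G, S.card ≤ k ∧ Subgroup.closure (S : Set G) = ⊤ ∧
        ∀ A : Finset G, 2 * A.card ≤ Fintype.card G →
          (1 + ε) * (A.card : ℝ) ≤ ((A ∪ S * A).card : ℝ)) ∧
    ∀ (d L C k₀ l : ℕ) (ε₀ : ℝ), 0 < ε₀ → ∃ (k : ℕ) (ε : ℝ), 0 < ε ∧
    ∀ (G : Type) [inst : Group G] [Fintype G] [DecidableEq G], Cls6 d L C k₀ ε₀ l G inst →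
      ∃ S : Finset G, S.card ≤ k ∧ Subgroup.closure (S : Set G) = ⊤ ∧
        ∀ A : Finset G, 2 * A.card ≤ Fintype.card G →
          (1 + ε) * (A.card : ℝ) ≤ ((A ∪ S * A).card : ℝ) := by
  refine ⟨fun d l => ?_, fun d L C k₀ l ε₀ hε₀ => cls_main6 d L C k₀ hε₀ l⟩
  obtain ⟨k, ε, hε, h⟩ := cls_main6 d 0 0 0 one_pos l
  exact ⟨k, ε, hε, fun G _ _ _ hG hd => h G (stm6_hgt d 0 0 0 1 hG inferInstance hd)⟩

end Pool.Agent.MPfe8e9bN
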