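import Mathlib
import Pool.Agent.Lib.MP_fe8e9b_al_N.Defs
import Pool.Agent.Lib.MP_fe8e9b_al_N.Defs3
import Pool.Agent.Lib.MP_fe8e9b_al_M.PairT

/-!
# MP_fe8e9b_al, groups of bounded height: labels twisted by a family of automorphisms
-/

set_option autoImplicit false

open scoped BigOperators

namespace Pool.Agent.MPfe8e9bN

open Pool.Agent.MPfe8e9b Pool.Agent.MPfe8e9bA Pool.Agent.MPfe8e9bW Pool.Agent.MPfe8e9bV
open Pool.Agent.MPfe8e9bM

/-- The displacement by a commutator with an element which fixes the vector. -/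
private theorem twl_cm {H V : Type} [Group H] [NormedAddCommGroup V] [InnerProductSpace ℂ V]
    (ρ : H →* (V ≃ₗᵢ[ℂ] V)) (a k : H) (v : V) (ha : ρ a v = v) :
    ‖ρ (cm a k) v - v‖ ≤ 2 * ‖ρ k v - v‖ := by
  have hm : ∀ x y : H, ∀ w : V, ρ (x * y) w = ρ x (ρ y w) := by
    intro x y w
    rw [map_mul]
    rfl
  have hinv : ∀ x : H, ∀ w : V, ρ x (ρ x⁻¹ w) = w := by
    intro x w
    rw [← hm, mul_inv_cancel, map_one]
    rfl
  have ha' : ρ a⁻¹ v = v := by
    have h := hinv a⁻¹ v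
    rw [inv_inv, ha] at h
    exact h
  have h1 : ‖ρ (cm a k) v - v‖ = ‖ρ k (ρ a⁻¹ (ρ k⁻¹ v)) - v‖ := by
    have h2 : ρ (cm a k) v - v = ρ a (ρ k (ρ a⁻¹ (ρ k⁻¹ v)) - v) := by
      rw [map_sub, ha, cm, hm, hm, hm]
    rw [h2, LinearIsometryEquiv.norm_map]
  have h3 : ‖ρ k (ρ a⁻¹ (ρ k⁻¹ v)) - v‖ ≤ ‖ρ a⁻¹ (ρ k⁻¹ v) - v‖ + ‖ρ k v - v‖ := by
    have h4 : ρ k (ρ a⁻¹ (ρ k⁻¹ v)) - v = ρ k (ρ a⁻¹ (ρ k⁻¹ v) - v) + (ρ k v - v) := by
      rw [map_sub]
      abel
    rw [h4]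
    refine (norm_add_le _ _).trans ?_
    rw [LinearIsometryEquiv.norm_map]
  have h5 : ‖ρ a⁻¹ (ρ k⁻¹ v) - v‖ = ‖ρ k⁻¹ v - v‖ := by
    have h6 : ρ a⁻¹ (ρ k⁻¹ v) - v = ρ a⁻¹ (ρ k⁻¹ v - v) := by
      rw [map_sub, ha']
    rw [h6, LinearIsometryEquiv.norm_map]
  have h7 : ‖ρ k⁻¹ v - v‖ = ‖ρ k v - v‖ := by
    have h8 : ρ k (ρ k⁻¹ v - v) = v - ρ k v := by
      rw [map_sub, hinv]
    rw [← LinearIsometryEquiv.norm_map (ρ k) (ρ k⁻¹ v - v), h8, norm_sub_rev]
  rw [h1]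
  linarith

/-- The displacement is invariant under conjugation by an element which fixes the vector. -/
private theorem twl_cj {H V : Type} [Group H] [NormedAddCommGroup V] [InnerProductSpace ℂ V]
    (ρ : H →* (V ≃ₗᵢ[ℂ] V)) (a z : H) (v : V) (ha : ρ a v = v) :
    ‖ρ (a * z * a⁻¹) v - v‖ = ‖ρ z v - v‖ := by
  have hm : ∀ x y : H, ∀ w : V, ρ (x * y) w = ρ x (ρ y w) := by
    intro x y w
    rw [map_mul]
    rfl
  have ha' : ρ a⁻¹ v = v := by
    have h := hm a⁻¹ a v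
    rw [inv_mul_cancel, map_one, ha] at h
    exact h.symm
  have h2 : ρ (a * z * a⁻¹) v - v = ρ a (ρ z v - v) := by
    rw [map_sub, ha, hm, ha', hm]
  rw [h2, LinearIsometryEquiv.norm_map]

private theorem twl_av {H V : Type} [Group H] [NormedAddCommGroup V] [InnerProductSpace ℂ V]
    (i1 i2 : Fintype H) (ρ : H →* (V ≃ₗᵢ[ℂ] V)) (v : V) :
    @av H _ i1 V _ _ ρ v = @av H _ i2 V _ _ ρ v := by
  rw [Subsingleton.elim i1 i2]

/-- The square of the mean. -/
private theorem twl_sq {T : Type} [Fintype T] [Nonempty T] (f : T → ℝ) :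
    mn f ^ 2 ≤ mn (fun t => f t ^ 2) := by
  have h1 : 0 ≤ mn (fun t => (f t - mn f) ^ 2) := mn_nonneg fun t => sq_nonneg _
  have h2 : mn (fun t => (f t - mn f) ^ 2) =
      mn (fun t => f t ^ 2) - 2 * mn f * mn f + mn f ^ 2 := by
    have h3 : (fun t => (f t - mn f) ^ 2) =
        fun t => (f t ^ 2 - (2 * mn f) * f t) + mn f ^ 2 := by
      funext t
      ring
    rw [h3, mn_add, mn_sub, mn_mul_left, mn_const]
  nlinarith

private theorem twl_tll {Z T Λ : Type} [Group T] (α : Λ → MulAut T) (c : Z → Λ) (R C : Finset Z)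
    [DecidableEq Z] (h t : T) :
    cm (dl T R h) (tll α c C (fun _ => ()) (fun _ => t)) =
      clf T (R ∩ C) c (fun l => cm h (α l t)) := by
  funext y
  have hcm : ∀ a b : Z → T, cm a b y = cm (a y) (b y) := fun a b => rfl
  rw [hcm]
  by_cases hR : y ∈ R
  · by_cases hC : y ∈ C
    · rw [dl_apply h hR, tll_apply α _ hC, clf_apply _ (Finset.mem_inter.2 ⟨hR, hC⟩)]
    · rw [tll_out α _ hC, cm_one_right,
        clf_apply_out _ fun hh => hC (Finset.mem_inter.1 hh).2]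
  · rw [dl_apply_out h hR, cm_one_left, clf_apply_out _ fun hh => hR (Finset.mem_inter.1 hh).1]

private theorem twl_dl {Z T Λ : Type} [Group T] (c : Z → Λ) (R C : Finset Z)
    [DecidableEq Z] (k : T) (x : Λ → T) :
    clf T (R ∩ C) c ((fun _ => k) * x * (fun _ => k)⁻¹) =
      dl T R k * clf T (R ∩ C) c x * (dl T R k)⁻¹ := by
  funext y
  have hm : ∀ a b : Z → T, (a * b * a⁻¹) y = a y * b y * (a y)⁻¹ := fun a b => rfl
  rw [hm]
  by_cases hR : y ∈ R
  · by_cases hC : y ∈ C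
    · rw [dl_apply k hR, clf_apply _ (Finset.mem_inter.2 ⟨hR, hC⟩),
        clf_apply _ (Finset.mem_inter.2 ⟨hR, hC⟩)]
      rfl
    · rw [clf_apply_out _ fun hh => hC (Finset.mem_inter.1 hh).2,
        clf_apply_out _ fun hh => hC (Finset.mem_inter.1 hh).2, mul_one, mul_inv_cancel]
  · rw [clf_apply_out _ fun hh => hR (Finset.mem_inter.1 hh).1,
      clf_apply_out _ fun hh => hR (Finset.mem_inter.1 hh).1, mul_one, mul_inv_cancel]

open Classical in
/-- One site, twisted.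

Proof. `k t = tll α c C (fun _ => ()) (fun _ => t)`, `D t = ‖ρ (k t) v - v‖`,
`M = mn_t (D t)²`, which is `2 (‖v‖² - ‖TwL v‖²)` (`mn_disp`; reindex `Unit → T` by `T`). For all
`t`: `D t ≤ D s + D (s⁻¹ t)`, mean over `s`: `D t ≤ 2 mn D ≤ 2 √M`. The element
`cm (dl T R h) (k t)` is `clf T (R ∩ C) c (fun l => cm h (α l t))` (as in `tw_site`, file
M/PairS: check at every point) and moves `v` by at most `2 D t ≤ 4 √M`, as `ρ (dl T R h) v = v`.
For `x : Λ → T` and `k : T`: `dl T R k * clf T (R ∩ C) c x * (dl T R k)⁻¹` is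
`clf T (R ∩ C) c ((fun _ => k) * x * (fun _ => k)⁻¹)`, so the displacement by `clf T (R ∩ C) c x`
is invariant under conjugation by constants. `TGL` for `ρ.comp (clf T (R ∩ C) c)`: all elements
move `v` by at most `4 B √M`. As `Al ρ (R ∩ C) c v = 0`, `mn_disp`: `2 ‖v‖² ≤ 16 B² M =
32 B² (‖v‖² - ‖TwL v‖²)`. -/
theorem twl_site {T Λ : Type} [Group T] [Fintype T] [Fintype Λ] {α : Λ → MulAut T} {B : ℝ}
    (hB : 1 ≤ B) (hg : TGL B α) {Z : Type} {V : Type} [NormedAddCommGroup V]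
    [InnerProductSpace ℂ V] [FiniteDimensional ℂ V] (ρ : (Z → T) →* (V ≃ₗᵢ[ℂ] V))
    (c : Z → Λ) (R C : Finset Z) (v : V) (hR : Pc ρ R v = v) (h0 : Al ρ (R ∩ C) c v = 0) :
    ‖TwL ρ α c C (fun _ => ()) v‖ ^ 2 ≤ (1 - 1 / (16 * B ^ 2)) * ‖v‖ ^ 2 := by
  obtain ⟨D, hD⟩ : ∃ D : T → ℝ, D = fun t =>
    ‖ρ (tll α c C (fun _ => ()) (fun _ => t)) v - v‖ := ⟨_, rfl⟩
  have hD0 : ∀ t, 0 ≤ D t := by
    intro t
    rw [hD]
    exact norm_nonneg _
  have hDt : ∀ t, ‖ρ (tll α c C (fun _ => ()) (fun _ => t)) v - v‖ = D t := by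
    intro t
    rw [hD]
  obtain ⟨M, hM⟩ : ∃ M : ℝ, M = mn (fun t => D t ^ 2) := ⟨_, rfl⟩
  have hM0 : 0 ≤ M := by
    rw [hM]
    exact mn_nonneg fun t => sq_nonneg _
  have h7 : M = 2 * (‖v‖ ^ 2 - ‖TwL ρ α c C (fun _ => ()) v‖ ^ 2) := by
    have h8 := mn_disp (ρ.comp (tll α c C (fun _ : Z => ()))) v
    have h9 := mn_equiv (Equiv.funUnique Unit T).symm
      (fun f : Unit → T => ‖(ρ.comp (tll α c C (fun _ : Z => ()))) f v - v‖ ^ 2)
    have h10 : av (ρ.comp (tll α c C (fun _ : Z => ()))) v = TwL ρ α c C (fun _ => ()) v :=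
      twl_av _ _ _ _
    rw [h8, h10] at h9
    rw [hM, hD, ← h9]
    rfl
  have hmul : ∀ s u : T, D (s * u) ≤ D s + D u := by
    intro s u
    rw [← hDt, ← hDt, ← hDt]
    have h1 : tll α c C (fun _ : Z => ()) (fun _ => s * u) =
        tll α c C (fun _ => ()) (fun _ => s) * tll α c C (fun _ => ()) (fun _ => u) := by
      rw [← map_mul]
      rfl
    have h2 : ρ (tll α c C (fun _ : Z => ()) (fun _ => s * u)) v - v =
        ρ (tll α c C (fun _ => ()) (fun _ => s))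
          (ρ (tll α c C (fun _ => ()) (fun _ => u)) v - v) +
        (ρ (tll α c C (fun _ => ()) (fun _ => s)) v - v) := by
      rw [h1, map_mul, map_sub]
      change ρ _ (ρ _ v) - v = _
      abel
    rw [h2]
    refine (norm_add_le _ _).trans ?_
    rw [LinearIsometryEquiv.norm_map]
    linarith
  have hmD : mn D ≤ Real.sqrt M := by
    refine Real.le_sqrt_of_sq_le ?_
    rw [hM]
    exact twl_sq D
  have hDM : ∀ t, D t ≤ 2 * Real.sqrt M := by
    intro t
    have h1 : ∀ s : T, D t ≤ D s + D (s⁻¹ * t) := by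
      intro s
      have h2 := hmul s (s⁻¹ * t)
      rwa [mul_inv_cancel_left] at h2
    have h2 := le_mn h1
    rw [mn_add] at h2
    have h3 : mn (fun s : T => D (s⁻¹ * t)) = mn D :=
      mn_equiv ((Equiv.inv T).trans (Equiv.mulRight t)) D
    rw [h3] at h2
    linarith
  have he : 0 ≤ 4 * Real.sqrt M := by positivity
  have hall := hg V (ρ.comp (clf T (R ∩ C) c)) v (4 * Real.sqrt M) he (by
      intro k x
      change ‖ρ (clf T (R ∩ C) c ((fun _ => k) * x * (fun _ => k)⁻¹)) v - v‖ =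
        ‖ρ (clf T (R ∩ C) c x) v - v‖
      rw [twl_dl]
      exact twl_cj ρ _ _ v ((pc_fix ρ R v).1 hR k)) (by
      intro h t
      change ‖ρ (clf T (R ∩ C) c (fun l => cm h (α l t))) v - v‖ ≤ _
      rw [← twl_tll]
      have h2 := twl_cm ρ (dl T R h) (tll α c C (fun _ => ()) (fun _ => t)) v
        ((pc_fix ρ R v).1 hR h)
      rw [hDt] at h2
      have h3 := hDM t
      linarith)
  have h4 : av (ρ.comp (clf T (R ∩ C) c)) v = 0 := (twl_av _ _ _ _).trans h0
  have h5 := mn_disp (ρ.comp (clf T (R ∩ C) c)) v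
  rw [h4, norm_zero] at h5
  have h6 : mn (fun x : Λ → T => ‖(ρ.comp (clf T (R ∩ C) c)) x v - v‖ ^ 2) ≤
      (B * (4 * Real.sqrt M)) ^ 2 :=
    mn_le fun x => pow_le_pow_left₀ (norm_nonneg _) (hall x) 2
  rw [h5, mul_pow, mul_pow, Real.sq_sqrt hM0, h7] at h6
  have hB2 : 0 < 16 * B ^ 2 := by positivity
  have h8 : ‖v‖ ^ 2 / (16 * B ^ 2) ≤ ‖v‖ ^ 2 - ‖TwL ρ α c C (fun _ => ()) v‖ ^ 2 := by
    rw [div_le_iff₀ hB2]
    nlinarith
  have h9 : (1 - 1 / (16 * B ^ 2)) * ‖v‖ ^ 2 = ‖v‖ ^ 2 - ‖v‖ ^ 2 / (16 * B ^ 2) := by ring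
  rw [h9]
  linarith

/-- A function of the pair `(lab', c)` on `τ'` which refines the label: commutation of the average
over the functions of `(c, ...)`. Precisely: if the values of `c` and of `lab` are constant on the
parts of `τ'` for the label `lab'`, and `τ'` is contained in `τ`, the averages commute.

Proof. `rho_al_comm`: `tll α c τ lab f` is a function of `lab'` on `τ'`. -/
theorem twl_al_comm {Z S S' T Λ : Type} [Fintype S] [Fintype S'] [Group T] [Fintype T] {V : Type}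
    [NormedAddCommGroup V] [InnerProductSpace ℂ V] (ρ : (Z → T) →* (V ≃ₗᵢ[ℂ] V))
    (α : Λ → MulAut T) (c : Z → Λ) (τ : Finset Z) (lab : Z → S) (τ' : Finset Z) (lab' : Z → S')
    (hτ : τ' ⊆ τ) (h : ∀ y ∈ τ', ∀ y' ∈ τ', lab' y = lab' y' → c y = c y' ∧ lab y = lab y')
    (v : V) : Al ρ τ' lab' (TwL ρ α c τ lab v) = TwL ρ α c τ lab (Al ρ τ' lab' v) := by
  classical
  have h1 : ∀ f : S → T, Al ρ τ' lab' (ρ (tll α c τ lab f) v) =
      ρ (tll α c τ lab f) (Al ρ τ' lab' v) := by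
    intro f
    refine (rho_al_comm ρ τ' lab' _ (fun y hy y' hy' hl => ?_) v).symm
    obtain ⟨h2, h3⟩ := h y hy y' hy' hl
    rw [tll_apply α f (hτ hy), tll_apply α f (hτ hy'), h2, h3]
  rw [show TwL ρ α c τ lab v = ((Fintype.card (S → T) : ℂ))⁻¹ •
      ∑ f, (ρ.comp (tll α c τ lab)) f v from rfl,
    show TwL ρ α c τ lab (Al ρ τ' lab' v) = ((Fintype.card (S → T) : ℂ))⁻¹ •
      ∑ f, (ρ.comp (tll α c τ lab)) f (Al ρ τ' lab' v) from rfl, map_smul, map_sum]
  congr 1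
  exact Finset.sum_congr rfl fun f _ => h1 f

/-- The angle between the functions of the rows and the twisted functions of the columns.

Proof. As `ang`, with `Q = TwL ρ α c univ b`, `U` the space of the vectors fixed by
`Al ρ univ a`, and the list of the averages `Al ρ (site s) c`, `s` in `S1 × S2`,
`site s = univ.filter (fun y => (a y, b y) = s)`. They commute with each other, with
`Al ρ univ a` (`al_comm_al`) and with `Tw` (`twl_al_comm`). A vector is fixed by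
`Al ρ univ (a, b, c)` if and only if it is fixed by all `Al ρ (site s) c` (`al_part` for both: the
parts are the same sets). For a site `s = (r, c')`, `u ∈ U` with `Al ρ (site s) c u = 0`: the row
`R`, the column `C`, `R ∩ C = site s`, `Pc ρ R u = u`, `twl_site`, and
`‖TwL ρ α c univ b u‖ ≤ ‖TwL ρ α c C (fun _ => ()) u‖` (`isP_le_norm`: the twisted constants on the
column are twisted functions of `b`). -/
theorem twl_ang {T Λ : Type} [Group T] [Fintype T] [Fintype Λ] {α : Λ → MulAut T} {B : ℝ}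
    (hB : 1 ≤ B) (hg : TGL B α) {Z S1 S2 : Type} [Fintype Z] [Fintype S1] [Fintype S2] {V : Type}
    [NormedAddCommGroup V] [InnerProductSpace ℂ V] [FiniteDimensional ℂ V]
    (ρ : (Z → T) →* (V ≃ₗᵢ[ℂ] V)) (a : Z → S1) (b : Z → S2) (c : Z → Λ) (v : V)
    (hv : Al ρ Finset.univ a v = v)
    (h0 : Al ρ Finset.univ (fun y => (a y, b y, c y)) v = 0) :
    ‖TwL ρ α c Finset.univ b v‖ ^ 2 ≤ (1 - 1 / (16 * B ^ 2)) * ‖v‖ ^ 2 := by
  classical
  obtain ⟨κ, hκe⟩ : ∃ κ : ℝ, κ = 1 / (16 * B ^ 2) := ⟨_, rfl⟩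
  rw [← hκe]
  have hκ : ∀ (R C : Finset Z) (v : V), Pc ρ R v = v → Al ρ (R ∩ C) c v = 0 →
      ‖TwL ρ α c C (fun _ => ()) v‖ ^ 2 ≤ (1 - κ) * ‖v‖ ^ 2 := by
    intro R C v h1 h2
    rw [hκe]
    exact twl_site hB hg ρ c R C v h1 h2
  obtain ⟨site, hsite⟩ : ∃ site : S1 × S2 → Finset Z, ∀ s y, y ∈ site s ↔ (a y, b y) = s :=
    ⟨fun s => Finset.univ.filter (fun y => (a y, b y) = s), fun s y => by simp⟩
  obtain ⟨Ps, hPs⟩ : ∃ Ps : List (V →ₗ[ℂ] V), ∀ P, P ∈ Ps ↔ ∃ s, Al ρ (site s) c = P := by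
    refine ⟨(Finset.univ : Finset (S1 × S2)).toList.map (fun s => Al ρ (site s) c), fun P => ?_⟩
    simp
  have hIs : ∀ P ∈ Ps, IsP P := by
    intro P hP
    obtain ⟨s, rfl⟩ := (hPs P).1 hP
    exact al_isP ρ _ _
  have hPP : ∀ P ∈ Ps, ∀ P' ∈ Ps, ∀ v, P (P' v) = P' (P v) := by
    intro P hP P' hP' v
    obtain ⟨s, rfl⟩ := (hPs P).1 hP
    obtain ⟨s', rfl⟩ := (hPs P').1 hP'
    refine al_comm_al ρ _ _ c c (fun y hy y' hy' hl => ⟨?_, fun _ => hl⟩) v
    rw [hsite, hsite, (hsite s y).1 hy, (hsite s y').1 hy']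
  refine tel (TwL ρ α c Finset.univ b) (LinearMap.eqLocus (Al ρ Finset.univ a) LinearMap.id) Ps
    (fun P hP => ⟨hIs P hP, ?_, ?_⟩) hPP (1 - κ) ?_ v ?_ ?_
  · intro u
    obtain ⟨s, rfl⟩ := (hPs P).1 hP
    refine twl_al_comm ρ α c Finset.univ b (site s) c (Finset.subset_univ _)
      (fun y hy y' hy' hl => ⟨hl, ?_⟩) u
    have h1 := (hsite s y).1 hy
    have h2 := (hsite s y').1 hy'
    exact congrArg Prod.snd (h1.trans h2.symm)
  · intro u hu
    obtain ⟨s, rfl⟩ := (hPs P).1 hP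
    rw [LinearMap.mem_eqLocus, LinearMap.id_apply] at hu ⊢
    rw [← al_comm_al ρ (site s) Finset.univ c a (fun y hy y' hy' _ => ⟨by simp, fun _ => ?_⟩) u,
      hu]
    have h1 := (hsite s y).1 hy
    have h2 := (hsite s y').1 hy'
    exact congrArg Prod.fst (h1.trans h2.symm)
  · intro P hP u hu h1
    obtain ⟨s, rfl⟩ := (hPs P).1 hP
    rw [LinearMap.mem_eqLocus, LinearMap.id_apply] at hu
    have hR := (al_part ρ Finset.univ a u).1 hu s.1
    have hRC : (Finset.univ.filter fun y => a y = s.1) ∩ (Finset.univ.filter fun y => b y = s.2) =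
        site s := by
      ext y
      rw [hsite, Finset.mem_inter, Finset.mem_filter, Finset.mem_filter, Prod.ext_iff]
      simp
    have h2 := hκ (Finset.univ.filter fun y => a y = s.1)
      (Finset.univ.filter fun y => b y = s.2) u hR (by rw [hRC]; exact h1)
    refine le_trans ?_ h2
    refine pow_le_pow_left₀ (norm_nonneg _) ?_ 2
    refine isP_le_norm (twl_isP ρ α c _ _) (twl_isP ρ α c _ _) (fun w hw => ?_) u
    rw [twl_fix] at hw ⊢
    intro f
    have h3 : tll α c (Finset.univ.filter fun y => b y = s.2) (fun _ => ()) f =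
        tll α c Finset.univ b (fun t => if t = s.2 then f () else 1) := by
      funext y
      rw [tll_apply α _ (Finset.mem_univ y)]
      by_cases hy : b y = s.2
      · rw [tll_apply α (y := y) f (Finset.mem_filter.2 ⟨Finset.mem_univ _, hy⟩), if_pos hy]
      · rw [tll_out α (y := y) f (fun h4 => hy (Finset.mem_filter.1 h4).2), if_neg hy,
          map_one]
    rw [h3]
    exact hw _
  · rw [LinearMap.mem_eqLocus, LinearMap.id_apply]
    exact hv
  · have h1 := pairt_foldr_fix v Ps hIs hPP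
    have h2 := pairt_foldr_comm (Al ρ Finset.univ (fun y => (a y, b y, c y))) v Ps (by
      intro P hP u
      obtain ⟨s, rfl⟩ := (hPs P).1 hP
      refine al_comm_al ρ Finset.univ (site s) _ c (fun y _ y' _ hl => ⟨?_, fun _ => ?_⟩) u
      · have h3 : a y = a y' := congrArg Prod.fst hl
        have h4 : b y = b y' := congrArg (fun p : S1 × S2 × Λ => p.2.1) hl
        rw [hsite, hsite, h3, h4]
      · exact congrArg (fun p : S1 × S2 × Λ => p.2.2) hl)
    rw [h0, pairt_foldr_zero] at h2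
    rw [← h2]
    refine ((al_part ρ Finset.univ (fun y => (a y, b y, c y)) _).2 fun s => ?_).symm
    have h3 := h1 (Al ρ (site (s.1, s.2.1)) c) ((hPs _).2 ⟨_, rfl⟩)
    have h4 := (al_part ρ (site (s.1, s.2.1)) c _).1 h3 s.2.2
    have h5 : ∀ (X Y : Finset Z) (w : V), (∀ y, y ∈ X ↔ y ∈ Y) → Pc ρ Y w = w →
        Pc ρ X w = w := by
      intro X Y w h hw
      rw [Finset.ext h]
      exact hw
    refine h5 _ _ _ (fun y => ?_) h4
    simp [hsite, Prod.ext_iff, and_assoc]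

/-- Joins with twisted labels.

Proof. As `join`, with `η = √(1 - κ)`, `κ = 1 / (16 B²)`; `1 - √(1 - κ) ≥ κ / 2`;
`u = v - Al ρ univ (a, b, c) v`; the vectors fixed by `Al ρ univ (a, b, c)` are fixed by
`Al ρ univ a` (`al_coarse`) and by `TwL ρ α c univ b` (`twl_fix`: a twisted function of `b` is a
function of `(a, b, c)`). -/
theorem twl_join {T Λ : Type} [Group T] [Fintype T] [Fintype Λ] {α : Λ → MulAut T} {B : ℝ}
    (hB : 1 ≤ B) (hg : TGL B α) {Z S1 S2 : Type} [Fintype Z] [Fintype S1] [Fintype S2] {V : Type}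
    [NormedAddCommGroup V] [InnerProductSpace ℂ V] [FiniteDimensional ℂ V]
    (ρ : (Z → T) →* (V ≃ₗᵢ[ℂ] V)) (a : Z → S1) (b : Z → S2) (c : Z → Λ) (v : V) :
    1 / (32 * B ^ 2) * ‖v - Al ρ Finset.univ (fun y => (a y, b y, c y)) v‖ ^ 2 ≤
      ‖v - Al ρ Finset.univ a v‖ ^ 2 + ‖v - TwL ρ α c Finset.univ b v‖ ^ 2 := by
  classical
  obtain ⟨κ, hκe⟩ : ∃ κ : ℝ, κ = 1 / (16 * B ^ 2) := ⟨_, rfl⟩
  have hκ0 : 0 < κ := by
    rw [hκe]
    positivity
  have hκ1 : κ ≤ 1 := by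
    rw [hκe, div_le_one (by positivity)]
    nlinarith
  have hκ : ∀ v : V, Al ρ Finset.univ a v = v →
      Al ρ Finset.univ (fun y => (a y, b y, c y)) v = 0 →
      ‖TwL ρ α c Finset.univ b v‖ ^ 2 ≤ (1 - κ) * ‖v‖ ^ 2 := by
    intro v h1 h2
    rw [hκe]
    exact twl_ang hB hg ρ a b c v h1 h2
  have hη0 : 0 ≤ Real.sqrt (1 - κ) := Real.sqrt_nonneg _
  have hη1 : Real.sqrt (1 - κ) < 1 := by
    rw [Real.sqrt_lt' one_pos]
    linarith
  have hη2 : Real.sqrt (1 - κ) ^ 2 = 1 - κ := Real.sq_sqrt (by linarith)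
  have hη3 : 1 / (32 * B ^ 2) ≤ 1 - Real.sqrt (1 - κ) := by
    have h1 : 1 / (32 * B ^ 2) = κ / 2 := by
      rw [hκe]
      field_simp
      norm_num
    rw [h1]
    nlinarith
  have hP := al_isP (G := T) ρ Finset.univ (fun y => (a y, b y, c y))
  have hPa := al_isP (G := T) ρ Finset.univ a
  have hPb := twl_isP ρ α c Finset.univ b
  have hca := isP_le hPa hP (fun w hw => al_coarse ρ Finset.univ a (fun y => (a y, b y, c y))
    (fun y _ y' _ h => congrArg Prod.fst h) w hw)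
  have hcb := isP_le hPb hP (fun w hw => by
    rw [twl_fix]
    rw [al_fix] at hw
    intro f
    have h3 : tll α c Finset.univ b f = clf T Finset.univ (fun y => (a y, b y, c y))
        (fun s => α s.2.2 (f s.2.1)) := by
      funext y
      rw [tll_apply α _ (Finset.mem_univ y), clf_apply _ (Finset.mem_univ y)]
    rw [h3]
    exact hw _)
  obtain ⟨u, hu⟩ : ∃ u, u = v - Al ρ Finset.univ (fun y => (a y, b y, c y)) v := ⟨_, rfl⟩
  have h0 : Al ρ Finset.univ (fun y => (a y, b y, c y)) u = 0 := by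
    rw [hu, map_sub, hP.2, sub_self]
  have h1 : v - Al ρ Finset.univ a v = u - Al ρ Finset.univ a u := by
    rw [hu, map_sub, hca.1]
    abel
  have h2 : v - TwL ρ α c Finset.univ b v = u - TwL ρ α c Finset.univ b u := by
    rw [hu, map_sub, hcb.1]
    abel
  rw [h1, h2, ← hu]
  refine (mul_le_mul_of_nonneg_right hη3 (sq_nonneg _)).trans ?_
  refine two_proj hPa hPb hη0 u ?_
  have h3 := hκ (Al ρ Finset.univ a u) (hPa.2 u) (by rw [hca.2, h0])
  refine (pow_le_pow_iff_left₀ (norm_nonneg _) (by positivity) two_ne_zero).1 ?_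
  rw [mul_pow, hη2]
  exact h3

end Pool.Agent.MPfe8e9bN
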