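import Mathlib
import Pool.Agent.Lib.MP_fe8e9b_al_N.Defs
import Pool.Agent.Lib.MP_fe8e9b_al_N.Defs3
import Pool.Agent.Lib.MP_fe8e9b_al_N.TwL
import Pool.Agent.Lib.MP_fe8e9b_al_M.ThmM3
import Pool.Agent.Lib.MP_fe8e9b_al_M.TypB

/-!
# MP_fe8e9b_al, groups of bounded height: one type, twisted by a family of automorphisms
-/

set_option autoImplicit false

open scoped BigOperators

namespace Pool.Agent.MPfe8e9bN

open Pool.Agent.MPfe8e9b Pool.Agent.MPfe8e9bA Pool.Agent.MPfe8e9bW Pool.Agent.MPfe8e9bV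
open Pool.Agent.MPfe8e9bM

/-- The averages over conjugate groups of functions, on an invariant vector, with a twist.

Proof. As `typa_conj`: `β h (ρ (clf T univ lab f) x) =
ρ (tll α (c h) univ (lab ∘ (act h)⁻¹) f) x`. -/
theorem typl_conj {T Y S H Λ : Type} [Group T] [Fintype T] [Fintype Y] [Fintype S] [Group H]
    (α : Λ → MulAut T) (c : H → Y → Λ) (act : H →* Equiv.Perm Y) (lab : Y → S) {V : Type}
    [NormedAddCommGroup V] [InnerProductSpace ℂ V] (ρ : (Y → T) →* (V ≃ₗᵢ[ℂ] V))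
    (β : H →* (V ≃ₗᵢ[ℂ] V))
    (hβ : ∀ h u v, β h (ρ u v) =
      ρ (fun y => α (c h y) (u ((act h)⁻¹ y))) (β h v))
    (x : V) (hx : ∀ h, β h x = x) (h : H) :
    TwL ρ α (c h) Finset.univ (fun y => lab ((act h)⁻¹ y)) x =
      β h (Al ρ Finset.univ lab x) := by
  classical
  have h1 : TwL ρ α (c h) Finset.univ (fun y => lab ((act h)⁻¹ y)) x =
      ((Fintype.card (S → T) : ℂ))⁻¹ •
        ∑ f, (ρ.comp (tll α (c h) Finset.univ (fun y => lab ((act h)⁻¹ y)))) f x := rfl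
  have h2 : Al ρ Finset.univ lab x = ((Fintype.card (S → T) : ℂ))⁻¹ •
      ∑ f, (ρ.comp (clf T Finset.univ lab)) f x := rfl
  rw [h1, h2, map_smul, map_sum]
  congr 1
  refine Finset.sum_congr rfl fun f _ => ?_
  have h3 : (ρ.comp (clf T Finset.univ lab)) f x = ρ (clf T Finset.univ lab f) x := rfl
  rw [h3, hβ, hx]
  have h4 : tll α (c h) Finset.univ (fun y => lab ((act h)⁻¹ y)) f =
      fun y => α (c h y) (clf T Finset.univ lab f ((act h)⁻¹ y)) := by
    funext y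
    rw [tll_apply α f (Finset.mem_univ y), clf_apply f (Finset.mem_univ _)]
  rw [← h4]
  rfl

/-- One type, twisted by a family of automorphisms with a gap.

Proof. As `typ_c` (file N/TypC), with `twl_join`: `κ₁` from `thmM3 (3 / 4)`,
`κ = κ₁ / (64 * B ^ 2)`. -/
theorem typ_l {B : ℝ} (hB : 1 ≤ B) : ∃ κ : ℝ, 0 < κ ∧ κ ≤ 1 ∧
    ∀ (T : Type) [Group T] [Fintype T], commutator T = ⊤ → ∀ (Λ : Type) [Fintype Λ]
      (α : Λ → MulAut T), TGL B α →
    ∀ (Y S H : Type) [Fintype Y] [Fintype S] [Group H] [Fintype H] (act : H →* Equiv.Perm Y)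
      (c : H → Y → Λ) (lab : Y → S), (∀ y y', y ≠ y' →
        mn (fun h => ind (lab (act h y) = lab (act h y'))) ≤ 3 / 4) →
    ∀ (V : Type) [NormedAddCommGroup V] [InnerProductSpace ℂ V] [FiniteDimensional ℂ V]
      (ρ : (Y → T) →* (V ≃ₗᵢ[ℂ] V)) (β : H →* (V ≃ₗᵢ[ℂ] V)),
      (∀ h u v, β h (ρ u v) = ρ (fun y => α (c h y) (u ((act h)⁻¹ y))) (β h v)) →
      ∀ x : V, (∀ h, β h x = x) →
      κ * ‖x - Al ρ Finset.univ (fun y : Y => y) x‖ ^ 2 ≤
        ‖x - Al ρ Finset.univ lab x‖ ^ 2 := by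
  obtain ⟨κ₁, hκ₁, hκ₁', h1⟩ := thmM3 (3 / 4) (by norm_num)
  obtain ⟨γ, hγe⟩ : ∃ γ : ℝ, γ = 1 / (2 * B ^ 2) := ⟨_, rfl⟩
  have hγ : 0 < γ := by
    rw [hγe]
    positivity
  have hγ1 : γ ≤ 1 := by
    rw [hγe, div_le_one (by positivity)]
    nlinarith
  have hγ2 : γ / 16 = 1 / (32 * B ^ 2) := by
    rw [hγe]
    field_simp
    norm_num
  refine ⟨κ₁ * γ / 32, by positivity, ?_, ?_⟩
  · have h3 : κ₁ * γ ≤ 1 := mul_le_one₀ hκ₁' hγ.le hγ1
    linarith
  intro T _ _ hT Λ _ α hg Y S H _ _ _ _ act c lab hlab V _ _ _ ρ β hβ x hx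
  have h3 : ∀ y y' : Y, y ≠ y' →
      ag (fun (h : H) (z : Y) => (lab z, lab ((act h)⁻¹ z), c h z)) y y' ≤ 3 / 4 := by
    intro y y' hy
    unfold ag
    have h4 : mn (fun h : H => ind (lab ((act h)⁻¹ y) = lab ((act h)⁻¹ y'))) ≤ 3 / 4 := by
      have h5 := mn_inv (fun h : H => ind (lab (act h y) = lab (act h y')))
      have h6 : (fun p : H => ind (lab (act p⁻¹ y) = lab (act p⁻¹ y'))) =
          fun h : H => ind (lab ((act h)⁻¹ y) = lab ((act h)⁻¹ y')) := by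
        funext p
        rw [map_inv]
      rw [← h6]
      rw [h5]
      exact hlab y y' hy
    refine (mn_mono fun h => ?_).trans h4
    refine ind_mono fun hh => ?_
    have h7 := congrArg (fun s : S × S × Λ => s.2.1) hh
    exact h7
  have h4 := h1 T hT Y (S × S × Λ) H
    (fun (h : H) (z : Y) => (lab z, lab ((act h)⁻¹ z), c h z)) h3 V ρ x
  have h5 : ∀ h : H, γ / 16 * ‖x - Al ρ Finset.univ
      (fun z => (lab z, lab ((act h)⁻¹ z), c h z)) x‖ ^ 2 ≤
        2 * ‖x - Al ρ Finset.univ lab x‖ ^ 2 := by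
    intro h
    have h6 := twl_join hB hg ρ lab (fun z => lab ((act h)⁻¹ z)) (c h) x
    rw [typl_conj α c act lab ρ β hβ x hx h, ← hγ2] at h6
    have h7 : ‖x - β h (Al ρ Finset.univ lab x)‖ = ‖x - Al ρ Finset.univ lab x‖ := by
      have h8 : x - β h (Al ρ Finset.univ lab x) = β h (x - Al ρ Finset.univ lab x) := by
        rw [map_sub, hx]
      rw [h8, LinearIsometryEquiv.norm_map]
    rw [h7] at h6
    linarith
  have h6 := mn_mono h5
  rw [mn_mul_left, mn_const] at h6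
  have h7 : γ / 16 * (κ₁ * ‖x - Al ρ Finset.univ (fun y : Y => y) x‖ ^ 2) ≤
      γ / 16 * mn (fun h : H => ‖x - Al ρ Finset.univ
        (fun z => (lab z, lab ((act h)⁻¹ z), c h z)) x‖ ^ 2) :=
    mul_le_mul_of_nonneg_left h4 (by positivity)
  have h8 := h7.trans h6
  nlinarith

end Pool.Agent.MPfe8e9bN
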